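import Pool.Agent.H52.MQ.SBA

/-! Module SBN (project MP_935a4b_QM): estimates for the local degree N_w(y) = n sqrt(y(1-y))/lam, lam = D sqrt(AB).  Uses SBA.
For y in [1/3,2/3]: D = lq(1-y)+rq y >= hh/3; A >= rp*y >= 1/3; B >= (lq-lp)(1-y) >= 1/3; A+B = D so A B >= D/6 and A B <= D^2/4; D >= 1.
So lam >= 1/3, lam <= D^2/2, lam >= D^(3/2)/sqrt 6 >= (hh/3)^(3/2)/sqrt 6, sqrt(y(1-y)) in [0.4714, 0.5].
nn_bounds: N <= 0.5 n sqrt6 3^(3/2)/hh^(3/2) = 6.37 n/hh^(3/2); N >= 0.4714*2 n/D^2; D^2 N >= 0.94 n (n <= 1.1 D^2 N);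
  QQ w y = lam^2, so N^2 = n^2 y(1-y)/QQ.
nn_var: every affine l(y) = a(1-y)+b y with a,b >= 0 satisfies |l(y')-l(y)| <= 3|y'-y| l(y) for y in [1/3,2/3] (|b-a| <= max(a,b) <= 3 l(y)); N is a product of powers of
  D, A, B, y, 1-y; for |y'-y| <= 1/3 all ratios are in [1-|..|*3, 1+3|..|]; to get a clean Lipschitz bound use log N: |d/dy log N| <= 3+3/2+3/2+3/2+3/2 <= 10 on [1/3,2/3], |y'-y| <= 1/3, and |e^u-1| <= e^4|u|
  for |u| <= 4.
rs_om: om (gam w c) (gam w d) = integral over (gam c, gam d) of 1/(pi sqrt(x(1-x))) = integral over (c,d) of [1/(pi sqrt(gam(1-gam)))]/D^2 dy = integral of 1/(pi lam(y)) dy, and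
  om c d = integral of 1/(pi sqrt(y(1-y))) dy; so n om(gam c, gam d) = integral of N(y')/(pi sqrt(y'(1-y'))) dy' <= sup N * om c d <= (1+C(d-c)) N(y) om c d by nn_var.
rs_sq: substitution x = gam y': integral over (c,d) of sqrt(gam(1-gam))(y')/D(y')^2 dy' and sqrt(gam(1-gam)) = sqrt(AB)/D; again relative variation.
om_len: (d-c)*(2/pi) <= om c d <= (d-c) (on [1/3,2/3] the density 1/(pi sqrt(y(1-y))) is between 2/pi = .6366 and .6753). -/

open MeasureTheory Set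
open scoped ENNReal

namespace Pool.H52.MQ

private def SBN_RL (F : ℝ → ℝ) (c : ℝ) : Prop :=
  (∀ y ∈ Icc (1/3:ℝ) (2/3), 0 < F y) ∧
  ∀ y ∈ Icc (1/3:ℝ) (2/3), ∀ y' ∈ Icc (1/3:ℝ) (2/3), |F y' - F y| ≤ c * |y' - y| * F y

private theorem SBN_RL_up {F : ℝ → ℝ} {c : ℝ} (hF : SBN_RL F c) {y y' : ℝ}
    (hy : y ∈ Icc (1/3:ℝ) (2/3)) (hy' : y' ∈ Icc (1/3:ℝ) (2/3)) :
    F y' ≤ (1 + c * |y' - y|) * F y := by
  have h1 := hF.2 y hy y' hy'
  have h2 := le_abs_self (F y' - F y)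
  linarith

private theorem SBN_dist {y y' : ℝ} (hy : y ∈ Icc (1/3:ℝ) (2/3)) (hy' : y' ∈ Icc (1/3:ℝ) (2/3)) :
    |y' - y| ≤ 1 / 3 := by
  rw [abs_le]
  constructor <;> linarith [hy.1, hy.2, hy'.1, hy'.2]

private theorem SBN_RL_mul {F G : ℝ → ℝ} {c d : ℝ} (hc : 0 ≤ c) (hd : 0 ≤ d) (hF : SBN_RL F c)
    (hG : SBN_RL G d) : SBN_RL (fun y => F y * G y) (c * (1 + d / 3) + d) := by
  refine ⟨fun y hy => mul_pos (hF.1 y hy) (hG.1 y hy), ?_⟩
  intro y hy y' hy'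
  have hF0 := hF.1 y hy
  have hG0 := hG.1 y hy
  have hG0' := hG.1 y' hy'
  have h1 := hF.2 y hy y' hy'
  have h2 := hG.2 y hy y' hy'
  have h3 := SBN_RL_up hG hy hy'
  have h4 := SBN_dist hy hy'
  have h5 := abs_nonneg (y' - y)
  have h6 : G y' ≤ (1 + d / 3) * G y := by
    refine h3.trans (mul_le_mul_of_nonneg_right ?_ hG0.le)
    nlinarith
  have h7 : F y' * G y' - F y * G y = (F y' - F y) * G y' + F y * (G y' - G y) := by ring
  show |F y' * G y' - F y * G y| ≤ (c * (1 + d / 3) + d) * |y' - y| * (F y * G y)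
  rw [h7]
  refine (abs_add_le _ _).trans ?_
  rw [abs_mul, abs_mul, abs_of_pos hG0', abs_of_pos hF0]
  have h8 : |F y' - F y| * G y' ≤ (c * |y' - y| * F y) * ((1 + d / 3) * G y) :=
    mul_le_mul h1 h6 hG0'.le (by positivity)
  have h9 : F y * |G y' - G y| ≤ F y * (d * |y' - y| * G y) :=
    mul_le_mul_of_nonneg_left h2 hF0.le
  calc _ ≤ (c * |y' - y| * F y) * ((1 + d / 3) * G y) + F y * (d * |y' - y| * G y) :=
        add_le_add h8 h9
    _ = _ := by ring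

private theorem SBN_RL_inv {F : ℝ → ℝ} {c : ℝ} (hF : SBN_RL F c) :
    SBN_RL (fun y => (F y)⁻¹) c := by
  refine ⟨fun y hy => inv_pos.mpr (hF.1 y hy), ?_⟩
  intro y hy y' hy'
  have hF0 := hF.1 y hy
  have hF0' := hF.1 y' hy'
  have h1 := hF.2 y' hy' y hy
  have h2 : (F y')⁻¹ - (F y)⁻¹ = (F y - F y') / (F y' * F y) := by
    field_simp
  show |(F y')⁻¹ - (F y)⁻¹| ≤ c * |y' - y| * (F y)⁻¹
  rw [h2, abs_div, abs_of_pos (mul_pos hF0' hF0), div_le_iff₀ (mul_pos hF0' hF0), abs_sub_comm y' y]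
  calc |F y - F y'| ≤ c * |y - y'| * F y' := h1
    _ = c * |y - y'| * (F y)⁻¹ * (F y' * F y) := by field_simp

private theorem SBN_RL_sqrt {F : ℝ → ℝ} {c : ℝ} (hF : SBN_RL F c) :
    SBN_RL (fun y => √(F y)) c := by
  refine ⟨fun y hy => Real.sqrt_pos.mpr (hF.1 y hy), ?_⟩
  intro y hy y' hy'
  have hF0 := hF.1 y hy
  have hF0' := hF.1 y' hy'
  have hs := Real.sqrt_pos.mpr hF0
  have hs' := Real.sqrt_pos.mpr hF0'
  have e := Real.sq_sqrt hF0.le
  have e' := Real.sq_sqrt hF0'.le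
  have h1 := hF.2 y hy y' hy'
  have h2 : F y' - F y = (√(F y') - √(F y)) * (√(F y') + √(F y)) := by
    rw [← sub_eq_zero]
    linear_combination e - e'
  rw [h2, abs_mul, abs_of_pos (add_pos hs' hs)] at h1
  show |√(F y') - √(F y)| ≤ c * |y' - y| * √(F y)
  have h3 : |√(F y') - √(F y)| * √(F y) ≤ (c * |y' - y| * √(F y)) * √(F y) := by
    calc |√(F y') - √(F y)| * √(F y) ≤ |√(F y') - √(F y)| * (√(F y') + √(F y)) :=
          mul_le_mul_of_nonneg_left (by linarith) (abs_nonneg _)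
      _ ≤ c * |y' - y| * F y := h1
      _ = (c * |y' - y| * √(F y)) * √(F y) := by
          rw [mul_assoc (c * |y' - y|), Real.mul_self_sqrt hF0.le]
  exact le_of_mul_le_mul_right h3 hs

private theorem SBN_RL_lin {F : ℝ → ℝ} {a b : ℝ} (ha : 0 ≤ a) (hb : 0 ≤ b) (hab : 0 < a + b)
    (hF : ∀ y, F y = a * (1 - y) + b * y) : SBN_RL F 3 := by
  have key : ∀ y ∈ Icc (1/3:ℝ) (2/3), a + b ≤ 3 * F y := by
    intro y hy
    rw [hF]
    nlinarith [hy.1, hy.2]
  refine ⟨fun y hy => by linarith [key y hy], ?_⟩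
  intro y hy y' hy'
  have h1 : F y' - F y = (b - a) * (y' - y) := by rw [hF, hF]; ring
  rw [h1, abs_mul]
  have h2 : |b - a| ≤ a + b := by
    rw [abs_le]
    constructor <;> linarith
  have h3 := key y hy
  calc |b - a| * |y' - y| ≤ (3 * F y) * |y' - y| :=
        mul_le_mul_of_nonneg_right (h2.trans h3) (abs_nonneg _)
    _ = 3 * |y' - y| * F y := by ring

private theorem SBN_AA (w : List Bool) : SBN_RL (AA w) 3 := by
  have h := sba_pos w
  have h1 : (1:ℝ) ≤ rp w := by exact_mod_cast h.2.2.2.1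
  have h2 : (0:ℝ) ≤ lp w := Nat.cast_nonneg _
  exact SBN_RL_lin h2 (by linarith) (by linarith) (fun y => rfl)

private theorem SBN_DD (w : List Bool) : SBN_RL (DD w) 3 := by
  have h := sba_pos w
  have h1 : (1:ℝ) ≤ lq w := by exact_mod_cast h.1
  have h2 : (1:ℝ) ≤ rq w := by exact_mod_cast h.2.1
  exact SBN_RL_lin (by linarith) (by linarith) (by linarith) (fun y => rfl)

private theorem SBN_BB (w : List Bool) : SBN_RL (BB w) 3 := by
  have h := sba_pos w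
  have h1 : (lp w : ℝ) + 1 ≤ lq w := by exact_mod_cast h.2.2.1
  have h2 : (rp w : ℝ) ≤ rq w := by exact_mod_cast h.2.2.2.2
  refine SBN_RL_lin (a := (lq w : ℝ) - lp w) (b := (rq w : ℝ) - rp w) (by linarith) (by linarith)
    (by linarith) (fun y => ?_)
  show DD w y - AA w y = _
  unfold DD AA
  ring

private theorem SBN_yy : SBN_RL (fun y => y * (1 - y)) 9 := by
  have h1 : SBN_RL (fun y => y) 3 :=
    SBN_RL_lin (a := 0) (b := 1) le_rfl zero_le_one (by norm_num) (fun y => by ring)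
  have h2 : SBN_RL (fun y => 1 - y) 3 :=
    SBN_RL_lin (a := 1) (b := 0) zero_le_one le_rfl (by norm_num) (fun y => by ring)
  have h3 := SBN_RL_mul (by norm_num) (by norm_num) h1 h2
  norm_num at h3
  exact h3

private theorem SBN_AB (w : List Bool) : SBN_RL (fun y => AA w y * BB w y) 9 := by
  have h3 := SBN_RL_mul (by norm_num) (by norm_num) (SBN_AA w) (SBN_BB w)
  norm_num at h3
  exact h3

private theorem SBN_lam (w : List Bool) : SBN_RL (lam w) 21 := by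
  have h3 := SBN_RL_mul (by norm_num) (by norm_num) (SBN_DD w) (SBN_RL_sqrt (SBN_AB w))
  norm_num at h3
  exact h3

private theorem SBN_ratio (w : List Bool) : SBN_RL (fun y => √(y * (1 - y)) * (lam w y)⁻¹) 93 := by
  have h3 := SBN_RL_mul (by norm_num) (by norm_num) (SBN_RL_sqrt SBN_yy) (SBN_RL_inv (SBN_lam w))
  norm_num at h3
  exact h3

private theorem SBN_sq (w : List Bool) : SBN_RL (fun y => √(AA w y * BB w y) * (DD w y)⁻¹) 21 := by
  have h3 := SBN_RL_mul (by norm_num) (by norm_num) (SBN_RL_sqrt (SBN_AB w)) (SBN_RL_inv (SBN_DD w))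
  norm_num at h3
  exact h3

/-- elementary lower bounds on the middle third -/
private theorem SBN_low (w : List Bool) {y : ℝ} (hy : y ∈ Icc (1/3:ℝ) (2/3)) :
    (hh w : ℝ) / 3 ≤ DD w y ∧ 1 ≤ DD w y ∧ 1 / 3 ≤ AA w y ∧ 1 / 3 ≤ BB w y ∧
    AA w y + BB w y = DD w y := by
  have h := sba_pos w
  have h1 : (1:ℝ) ≤ lq w := by exact_mod_cast h.1
  have h2 : (1:ℝ) ≤ rq w := by exact_mod_cast h.2.1
  have h3 : (lp w : ℝ) + 1 ≤ lq w := by exact_mod_cast h.2.2.1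
  have h4 : (1:ℝ) ≤ rp w := by exact_mod_cast h.2.2.2.1
  have h5 : (rp w : ℝ) ≤ rq w := by exact_mod_cast h.2.2.2.2
  have h6 : (0:ℝ) ≤ lp w := Nat.cast_nonneg _
  obtain ⟨hy1, hy2⟩ := hy
  refine ⟨?_, ?_, ?_, ?_, ?_⟩
  · unfold hh DD
    push_cast
    nlinarith
  · unfold DD
    nlinarith
  · unfold AA
    nlinarith
  · unfold BB DD AA
    nlinarith
  · unfold BB
    ring

private theorem SBN_gam (w : List Bool) {y : ℝ} (hy : y ∈ Icc (1/3:ℝ) (2/3)) :
    0 < gam w y ∧ gam w y < 1 ∧ gam w y * (1 - gam w y) = AA w y * BB w y / DD w y ^ 2 ∧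
    √(gam w y * (1 - gam w y)) = √(AA w y * BB w y) * (DD w y)⁻¹ := by
  obtain ⟨-, h1, h2, h3, h4⟩ := SBN_low w hy
  have hD : 0 < DD w y := by linarith
  have e : gam w y * (1 - gam w y) = AA w y * BB w y / DD w y ^ 2 := by
    unfold gam
    rw [← h4] at hD ⊢
    field_simp
    ring
  refine ⟨div_pos (by linarith) hD, ?_, e, ?_⟩
  · unfold gam
    rw [div_lt_one hD]
    linarith
  · rw [e, Real.sqrt_div' _ (sq_nonneg _), Real.sqrt_sq hD.le, div_eq_mul_inv]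

private theorem SBN_gam_deriv (w : List Bool) {y : ℝ} (hy : y ∈ Icc (1/3:ℝ) (2/3)) :
    HasDerivAt (gam w) (1 / DD w y ^ 2) y := by
  obtain ⟨-, h1, h2, h3, h4⟩ := SBN_low w hy
  have hD : DD w y ≠ 0 := by linarith
  have hA' : HasDerivAt (AA w) ((rp w : ℝ) - lp w) y := by
    unfold AA
    have h5 := ((hasDerivAt_const y (1:ℝ)).sub (hasDerivAt_id y)).const_mul (lp w : ℝ)
    have h6 := (hasDerivAt_id y).const_mul (rp w : ℝ)
    have h7 := h5.add h6
    simp only [zero_sub, mul_neg, mul_one] at h7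
    have e1 : -(lp w : ℝ) + rp w = (rp w : ℝ) - lp w := by ring
    rw [e1] at h7
    exact h7
  have hD' : HasDerivAt (DD w) ((rq w : ℝ) - lq w) y := by
    unfold DD
    have h5 := ((hasDerivAt_const y (1:ℝ)).sub (hasDerivAt_id y)).const_mul (lq w : ℝ)
    have h6 := (hasDerivAt_id y).const_mul (rq w : ℝ)
    have h7 := h5.add h6
    simp only [zero_sub, mul_neg, mul_one] at h7
    have e1 : -(lq w : ℝ) + rq w = (rq w : ℝ) - lq w := by ring
    rw [e1] at h7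
    exact h7
  have h8 := hA'.div hD' hD
  have hdet : (rp w : ℝ) * lq w = lp w * rq w + 1 := by exact_mod_cast sba_det w
  have e2 : (((rp w : ℝ) - lp w) * DD w y - AA w y * ((rq w : ℝ) - lq w)) = 1 := by
    unfold AA DD
    linear_combination hdet
  rw [e2] at h8
  exact h8

/-- the arcsine primitive -/
private noncomputable def SBN_g (y : ℝ) : ℝ := -Real.arccos (2 * y - 1) / Real.pi

private theorem SBN_om (c d : ℝ) : om c d = SBN_g d - SBN_g c := by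
  unfold om SBN_g
  ring

private theorem SBN_g_deriv {y : ℝ} (h0 : 0 < y) (h1 : y < 1) :
    HasDerivAt SBN_g (1 / (Real.pi * √(y * (1 - y)))) y := by
  have h2 : HasDerivAt (fun y : ℝ => 2 * y - 1) 2 y := by
    have := ((hasDerivAt_id y).const_mul (2:ℝ)).sub_const 1
    simpa using this
  have h3 := (Real.hasDerivAt_arccos (x := 2 * y - 1) (by intro h; linarith) (by intro h; linarith))
  have h4 := h3.comp y h2
  have h5 := (h4.neg).div_const Real.pi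
  have hs : √(1 - (2 * y - 1) ^ 2) = 2 * √(y * (1 - y)) := by
    have e : 1 - (2 * y - 1) ^ 2 = 2 ^ 2 * (y * (1 - y)) := by ring
    rw [e, Real.sqrt_mul (by norm_num), Real.sqrt_sq (by norm_num)]
  have hp : 0 < √(y * (1 - y)) := Real.sqrt_pos.mpr (mul_pos h0 (by linarith))
  have hpi := Real.pi_pos
  have e : -(-(1 / √(1 - (2 * y - 1) ^ 2)) * 2) / Real.pi = 1 / (Real.pi * √(y * (1 - y))) := by
    rw [hs]
    field_simp
  rw [e] at h5
  exact h5

private theorem SBN_g_cont : Continuous SBN_g := by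
  unfold SBN_g
  exact ((Real.continuous_arccos.comp (by fun_prop)).neg).div_const _

private theorem SBN_yy_low {y : ℝ} (hy : y ∈ Icc (1/3:ℝ) (2/3)) :
    (47 / 100 : ℝ) ≤ √(y * (1 - y)) ∧ √(y * (1 - y)) ≤ 1 / 2 := by
  obtain ⟨h1, h2⟩ := hy
  constructor
  · apply Real.le_sqrt_of_sq_le
    nlinarith
  · apply Real.sqrt_le_iff.mpr
    constructor
    · norm_num
    · nlinarith [sq_nonneg (2 * y - 1)]

private theorem SBN_cauchy (w : List Bool) {c d : ℝ} (hc : 1/3 ≤ c) (hcd : c < d) (hd : d ≤ 2/3) :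
    ∃ ξ ∈ Ioo c d, om (gam w c) (gam w d) = om c d * (√(ξ * (1 - ξ)) * (lam w ξ)⁻¹) := by
  have hmem : ∀ x ∈ Icc c d, x ∈ Icc (1/3:ℝ) (2/3) := fun x hx =>
    ⟨hc.trans hx.1, hx.2.trans hd⟩
  have hfd : ∀ x ∈ Icc c d, HasDerivAt (fun y => SBN_g (gam w y)) (1 / (Real.pi * lam w x)) x := by
    intro x hx
    obtain ⟨h1, h2, h3, h4⟩ := SBN_gam w (hmem x hx)
    have h5 := (SBN_g_deriv h1 h2).comp x (SBN_gam_deriv w (hmem x hx))
    obtain ⟨-, h6, h7, h8, -⟩ := SBN_low w (hmem x hx)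
    have hD : 0 < DD w x := by linarith
    have hAB : 0 < √(AA w x * BB w x) := Real.sqrt_pos.mpr (mul_pos (by linarith) (by linarith))
    have hpi := Real.pi_pos
    have e : 1 / (Real.pi * √(gam w x * (1 - gam w x))) * (1 / DD w x ^ 2) =
        1 / (Real.pi * lam w x) := by
      rw [h4]
      unfold lam
      field_simp
    rw [e] at h5
    exact h5
  obtain ⟨ξ, hξ, h⟩ := exists_ratio_hasDerivAt_eq_ratio_slope
    (fun y => SBN_g (gam w y)) (fun x => 1 / (Real.pi * lam w x)) hcd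
    (fun x hx => (hfd x hx).continuousAt.continuousWithinAt)
    (fun x hx => hfd x (Ioo_subset_Icc_self hx))
    SBN_g (fun y => 1 / (Real.pi * √(y * (1 - y)))) SBN_g_cont.continuousOn
    (fun x hx => SBN_g_deriv (by have := (hmem x (Ioo_subset_Icc_self hx)).1; linarith)
      (by have := (hmem x (Ioo_subset_Icc_self hx)).2; linarith))
  refine ⟨ξ, hξ, ?_⟩
  have hξ' := hmem ξ (Ioo_subset_Icc_self hξ)
  have hl := (SBN_lam w).1 ξ hξ'
  have hs : 0 < √(ξ * (1 - ξ)) := by linarith [(SBN_yy_low hξ').1]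
  have hpi := Real.pi_pos
  rw [SBN_om, SBN_om]
  field_simp at h ⊢
  linarith

theorem nn_bounds (n : ℕ) (w : List Bool) {y : ℝ} (hy : y ∈ Icc (1/3:ℝ) (2/3)) :
    (hh w : ℝ) / 3 ≤ DD w y ∧ 1 / 3 ≤ lam w y ∧ lam w y ≤ DD w y ^ 2 / 2 ∧ 1 / 3 ≤ AA w y ∧ 1 / 3 ≤ BB w y ∧
    NN n w y ≤ 7 * n / (hh w : ℝ) ^ (3 / 2 : ℝ) ∧ 9 / 10 * n / DD w y ^ 2 ≤ NN n w y ∧
    (n : ℝ) ≤ 11 / 10 * (DD w y ^ 2 * NN n w y) ∧ NN n w y ^ 2 * QQ w y = n ^ 2 * (y * (1 - y)) := by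
  obtain ⟨h1, h2, h3, h4, h5⟩ := SBN_low w hy
  obtain ⟨hs1, hs2⟩ := SBN_yy_low hy
  set A := AA w y with hA
  set B := BB w y with hB
  set D := DD w y with hD
  have hAB0 : 0 < A * B := mul_pos (by linarith) (by linarith)
  have hD0 : 0 < D := by linarith
  have hsq := Real.sq_sqrt hAB0.le
  have hsp : 0 < √(A * B) := Real.sqrt_pos.mpr hAB0
  have hABlow : D / 6 ≤ A * B := by
    rw [← h5]
    nlinarith
  have hABhi : A * B ≤ (D / 2) ^ 2 := by
    rw [← h5]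
    nlinarith [sq_nonneg (A - B)]
  have hlam : lam w y = D * √(A * B) := rfl
  have hlam0 : 0 < lam w y := by rw [hlam]; positivity
  have hl1 : 1 / 3 ≤ lam w y := by
    rw [hlam]
    have : 1 / 3 ≤ √(A * B) := by
      apply Real.le_sqrt_of_sq_le
      nlinarith
    nlinarith
  have hl2 : lam w y ≤ D ^ 2 / 2 := by
    rw [hlam]
    have : √(A * B) ≤ D / 2 := by
      apply Real.sqrt_le_iff.mpr
      exact ⟨by linarith, hABhi⟩
    nlinarith
  have hn : (0:ℝ) ≤ n := Nat.cast_nonneg n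
  have hNN : NN n w y = n * √(y * (1 - y)) / lam w y := rfl
  have hlow : 94 / 100 * n ≤ D ^ 2 * NN n w y := by
    rw [hNN, ← mul_div_assoc, le_div_iff₀ hlam0]
    calc 94 / 100 * n * lam w y ≤ 94 / 100 * n * (D ^ 2 / 2) :=
          mul_le_mul_of_nonneg_left hl2 (by positivity)
      _ = D ^ 2 * (n * (47 / 100)) := by ring
      _ ≤ D ^ 2 * (n * √(y * (1 - y))) := by
          apply mul_le_mul_of_nonneg_left _ (by positivity)
          exact mul_le_mul_of_nonneg_left hs1 hn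
  refine ⟨h1, hl1, hl2, h3, h4, ?_, ?_, ?_, ?_⟩
  · have hh0 : (0:ℝ) < hh w := by
      have := sba_len w
      have h6 : 0 < hh w := by omega
      exact_mod_cast h6
    have hhp : 0 < (hh w : ℝ) ^ (3 / 2 : ℝ) := Real.rpow_pos_of_pos hh0 _
    have hlamsq : (hh w : ℝ) ^ 3 / 162 ≤ lam w y ^ 2 := by
      have e1 : lam w y ^ 2 = D ^ 2 * (A * B) := by rw [hlam, mul_pow, hsq]
      have e2 : ((hh w : ℝ) / 3) ^ 3 ≤ D ^ 3 := pow_le_pow_left₀ (by positivity) h1 3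
      have e3 : D ^ 2 * (D / 6) ≤ D ^ 2 * (A * B) := mul_le_mul_of_nonneg_left hABlow (by positivity)
      rw [e1]
      calc (hh w : ℝ) ^ 3 / 162 = ((hh w : ℝ) / 3) ^ 3 / 6 := by ring
        _ ≤ D ^ 3 / 6 := by linarith
        _ = D ^ 2 * (D / 6) := by ring
        _ ≤ _ := e3
    have hpow : ((hh w : ℝ) ^ (3 / 2 : ℝ)) ^ 2 = (hh w : ℝ) ^ 3 := by
      rw [← Real.rpow_natCast, ← Real.rpow_mul hh0.le]
      norm_num
    have h7 : (hh w : ℝ) ^ (3 / 2 : ℝ) ≤ 14 * lam w y := by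
      apply le_of_sq_le_sq _ (by positivity)
      rw [hpow, mul_pow]
      nlinarith
    rw [hNN, div_le_div_iff₀ hlam0 hhp]
    calc n * √(y * (1 - y)) * (hh w : ℝ) ^ (3 / 2 : ℝ) ≤ n * (1 / 2) * (14 * lam w y) := by
          apply mul_le_mul _ h7 hhp.le (by positivity)
          exact mul_le_mul_of_nonneg_left hs2 hn
      _ = 7 * n * lam w y := by ring
  · rw [div_le_iff₀ (by positivity)]
    nlinarith
  · nlinarith
  · have e1 : lam w y ^ 2 = QQ w y := by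
      rw [hlam, mul_pow, hsq]
      rfl
    have hyy : 0 ≤ y * (1 - y) := mul_nonneg (by linarith [hy.1]) (by linarith [hy.2])
    have hQ : QQ w y ≠ 0 := by rw [← e1]; positivity
    rw [hNN, div_pow, mul_pow, Real.sq_sqrt hyy, e1]
    field_simp

theorem nn_var : ∃ C : ℝ, 1 ≤ C ∧ ∀ (n : ℕ) (w : List Bool) (y y' : ℝ), y ∈ Icc (1/3:ℝ) (2/3) →
    y' ∈ Icc (1/3:ℝ) (2/3) → |NN n w y' - NN n w y| ≤ C * |y' - y| * NN n w y ∧
    |DD w y' - DD w y| ≤ 3 * |y' - y| * DD w y := by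
  refine ⟨93, by norm_num, ?_⟩
  intro n w y y' hy hy'
  refine ⟨?_, (SBN_DD w).2 y hy y' hy'⟩
  have h1 := (SBN_ratio w).2 y hy y' hy'
  have h2 : ∀ x, NN n w x = n * (√(x * (1 - x)) * (lam w x)⁻¹) := by
    intro x
    unfold NN
    rw [div_eq_mul_inv, mul_assoc]
  have hn : (0:ℝ) ≤ n := Nat.cast_nonneg n
  rw [h2, h2, ← mul_sub, abs_mul, abs_of_nonneg hn]
  calc (n:ℝ) * |√(y' * (1 - y')) * (lam w y')⁻¹ - √(y * (1 - y)) * (lam w y)⁻¹|
      ≤ n * (93 * |y' - y| * (√(y * (1 - y)) * (lam w y)⁻¹)) := mul_le_mul_of_nonneg_left h1 hn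
    _ = _ := by ring

theorem rs_om : ∃ C : ℝ, 1 ≤ C ∧ ∀ (n : ℕ) (w : List Bool) (c d y : ℝ), 1/3 ≤ c → c < d → d ≤ 2/3 →
    y ∈ Icc c d → n * om (gam w c) (gam w d) ≤ (1 + C * (d - c)) * NN n w y * om c d := by
  refine ⟨93, by norm_num, ?_⟩
  intro n w c d y hc hcd hd hy
  obtain ⟨ξ, hξ, h⟩ := SBN_cauchy w hc hcd hd
  have hym : y ∈ Icc (1/3:ℝ) (2/3) := ⟨hc.trans hy.1, hy.2.trans hd⟩
  have hξm : ξ ∈ Icc (1/3:ℝ) (2/3) := ⟨hc.trans hξ.1.le, hξ.2.le.trans hd⟩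
  have h1 := SBN_RL_up (SBN_ratio w) hym hξm
  have hpos := (SBN_ratio w).1 y hym
  simp only at h1 hpos
  have h2 : |ξ - y| ≤ d - c := by
    rw [abs_le]
    constructor <;> linarith [hξ.1, hξ.2, hy.1, hy.2]
  have h3 : √(ξ * (1 - ξ)) * (lam w ξ)⁻¹ ≤ (1 + 93 * (d - c)) * (√(y * (1 - y)) * (lam w y)⁻¹) := by
    refine h1.trans (mul_le_mul_of_nonneg_right ?_ hpos.le)
    linarith
  have hom : 0 ≤ om c d := by
    rw [SBN_om, sub_nonneg]
    unfold SBN_g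
    apply div_le_div_of_nonneg_right _ Real.pi_pos.le
    apply neg_le_neg
    exact Real.antitone_arccos (by linarith)
  have hn : (0:ℝ) ≤ n := Nat.cast_nonneg n
  have h4 : NN n w y = n * (√(y * (1 - y)) * (lam w y)⁻¹) := by
    unfold NN
    rw [div_eq_mul_inv, mul_assoc]
  rw [h, h4]
  calc (n:ℝ) * (om c d * (√(ξ * (1 - ξ)) * (lam w ξ)⁻¹))
      ≤ n * (om c d * ((1 + 93 * (d - c)) * (√(y * (1 - y)) * (lam w y)⁻¹))) :=
        mul_le_mul_of_nonneg_left (mul_le_mul_of_nonneg_left h3 hom) hn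
    _ = _ := by ring

theorem rs_sq : ∃ C : ℝ, 1 ≤ C ∧ ∀ (w : List Bool) (c d y : ℝ), 1/3 ≤ c → c < d → d ≤ 2/3 →
    y ∈ Icc c d → ∫ x in (gam w c)..(gam w d), √(x * (1 - x)) ≤
      (1 + C * (d - c)) * √(gam w y * (1 - gam w y)) * (d - c) / DD w y ^ 2 := by
  refine ⟨100, by norm_num, ?_⟩
  intro w c d y hc hcd hd hy
  have hmem : ∀ x ∈ Icc c d, x ∈ Icc (1/3:ℝ) (2/3) := fun x hx =>
    ⟨hc.trans hx.1, hx.2.trans hd⟩
  have h01 : ∀ x ∈ Icc c d, x ∈ Icc (0:ℝ) 1 := fun x hx =>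
    ⟨by linarith [hx.1], by linarith [hx.2]⟩
  have hym := hmem y hy
  have hcm := hmem c (left_mem_Icc.mpr hcd.le)
  have hdm := hmem d (right_mem_Icc.mpr hcd.le)
  set t := d - c with ht
  have ht0 : 0 ≤ t := by linarith
  have ht3 : t ≤ 1 / 3 := by linarith
  have hD : 0 < DD w y := (SBN_DD w).1 y hym
  have hDc : 0 < DD w c := (SBN_DD w).1 c hcm
  have hDd : 0 < DD w d := (SBN_DD w).1 d hdm
  have hlen : gam w d - gam w c = t * ((DD w c)⁻¹ * (DD w d)⁻¹) := by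
    rw [sba_diff w (h01 d (right_mem_Icc.mpr hcd.le)) (h01 c (left_mem_Icc.mpr hcd.le))]
    field_simp
    exact ht.symm
  have hgcd : gam w c ≤ gam w d := by
    rw [← sub_nonneg, hlen]
    positivity
  have hinv : ∀ x ∈ Icc c d, (DD w x)⁻¹ ≤ (1 + 3 * t) * (DD w y)⁻¹ := by
    intro x hx
    have h1 := SBN_RL_up (SBN_RL_inv (SBN_DD w)) hym (hmem x hx)
    refine h1.trans (mul_le_mul_of_nonneg_right ?_ (inv_pos.mpr hD).le)
    have h2 : |x - y| ≤ t := by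
      rw [abs_le]
      constructor <;> linarith [hx.1, hx.2, hy.1, hy.2]
    linarith
  have hs0 := (SBN_sq w).1 y hym
  simp only at hs0
  have hsup : ∀ x ∈ Icc (gam w c) (gam w d), √(x * (1 - x)) ≤
      (1 + 21 * t) * (√(AA w y * BB w y) * (DD w y)⁻¹) := by
    intro x hx
    obtain ⟨ξ, hξ, hξx⟩ := intermediate_value_Icc hcd.le
      ((sba_cont w).mono (fun z hz => h01 z hz)) hx
    rw [← hξx, (SBN_gam w (hmem ξ hξ)).2.2.2]
    have h1 := SBN_RL_up (SBN_sq w) hym (hmem ξ hξ)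
    refine h1.trans (mul_le_mul_of_nonneg_right ?_ hs0.le)
    have h2 : |ξ - y| ≤ t := by
      rw [abs_le]
      constructor <;> linarith [hξ.1, hξ.2, hy.1, hy.2]
    linarith
  have hint : IntervalIntegrable (fun x : ℝ => √(x * (1 - x))) volume (gam w c) (gam w d) := by
    apply Continuous.intervalIntegrable
    fun_prop
  have h3 := intervalIntegral.integral_mono_on hgcd hint
    (intervalIntegrable_const (c := (1 + 21 * t) * (√(AA w y * BB w y) * (DD w y)⁻¹))) hsup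
  rw [intervalIntegral.integral_const, smul_eq_mul, hlen] at h3
  refine h3.trans ?_
  rw [(SBN_gam w hym).2.2.2]
  set S := √(AA w y * BB w y) * (DD w y)⁻¹ with hS
  have h4 : (DD w c)⁻¹ * (DD w d)⁻¹ ≤ ((1 + 3 * t) * (DD w y)⁻¹) * ((1 + 3 * t) * (DD w y)⁻¹) :=
    mul_le_mul (hinv c (left_mem_Icc.mpr hcd.le)) (hinv d (right_mem_Icc.mpr hcd.le))
      (inv_pos.mpr hDd).le (by positivity)
  have h5 : (1 + 3 * t) * (1 + 3 * t) * (1 + 21 * t) ≤ 1 + 100 * t := by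
    have h6 : t * t ≤ t * (1 / 3) := mul_le_mul_of_nonneg_left ht3 ht0
    have h7 : t * t * t ≤ t * (1 / 3) * (1 / 3) := by
      have := mul_le_mul_of_nonneg_right h6 ht0
      nlinarith
    nlinarith
  calc t * ((DD w c)⁻¹ * (DD w d)⁻¹) * ((1 + 21 * t) * S)
      ≤ t * (((1 + 3 * t) * (DD w y)⁻¹) * ((1 + 3 * t) * (DD w y)⁻¹)) * ((1 + 21 * t) * S) := by
        apply mul_le_mul_of_nonneg_right _ (by positivity)
        exact mul_le_mul_of_nonneg_left h4 ht0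
    _ = ((1 + 3 * t) * (1 + 3 * t) * (1 + 21 * t)) * (S * t * ((DD w y)⁻¹ * (DD w y)⁻¹)) := by ring
    _ ≤ (1 + 100 * t) * (S * t * ((DD w y)⁻¹ * (DD w y)⁻¹)) :=
        mul_le_mul_of_nonneg_right h5 (by positivity)
    _ = (1 + 100 * t) * S * t / DD w y ^ 2 := by
        field_simp

theorem om_len {c d : ℝ} (hc : 1/3 ≤ c) (hcd : c ≤ d) (hd : d ≤ 2/3) :
    (d - c) / 2 ≤ om c d ∧ om c d ≤ d - c := by
  rcases eq_or_lt_of_le hcd with h | h
  · subst h
    unfold om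
    simp
  · obtain ⟨ξ, hξ, h1⟩ := exists_hasDerivAt_eq_slope SBN_g
      (fun y => 1 / (Real.pi * √(y * (1 - y)))) h SBN_g_cont.continuousOn
      (fun x hx => SBN_g_deriv (by linarith [hx.1]) (by linarith [hx.2]))
    have hξm : ξ ∈ Icc (1/3:ℝ) (2/3) := ⟨hc.trans hξ.1.le, hξ.2.le.trans hd⟩
    obtain ⟨hs1, hs2⟩ := SBN_yy_low hξm
    rw [SBN_om]
    have hdc : 0 < d - c := by linarith
    rw [eq_div_iff hdc.ne'] at h1
    rw [← h1]
    have hp1 := Real.pi_gt_three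
    have hp2 := Real.pi_lt_four
    have hlow : 1 / 2 ≤ 1 / (Real.pi * √(ξ * (1 - ξ))) := by
      apply one_div_le_one_div_of_le
      · positivity
      · nlinarith
    have hhi : 1 / (Real.pi * √(ξ * (1 - ξ))) ≤ 1 := by
      rw [div_le_one (by positivity)]
      nlinarith
    constructor
    · nlinarith
    · nlinarith

end Pool.H52.MQ
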