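import Pool.Agent.H52.MQ.Defs

/-! Module UCJ (project MP_935a4b_QM): Jackson type partition of unity on the circle.  Mathlib only.
l >= 1, L = 4l, w_j = ww L j, q_j = qJ l L j = (sum_{i<l} (conj w_j)^i X^i)^4, gJ l j w = cJ l/(4l) |q_j(w)|^2, cJ l = 1/av|q_0|^2.
* ucj_sq: gJ = |s|^2 with s = C(sqrt(cJ/(4l))) q_j, degree <= 4(l-1) < 4l.
* av|q_0|^2: Parseval: = sum |coef|^2 of the polynomial q_0 (degree <= 4l-4, at most 4l-3 coefficients, all >= 0, sum = q_0(1) = l^4) >= l^8/(4l-3) >= l^7/4 by Cauchy-Schwarz (one can also use av|q|^2 >= ... directly).  So 0 < cJ <= 4/l^7.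
* av|q_j|^2 = av|q_0|^2 (rotation w -> w conj(w_j): circleAverage is rotation invariant, or Parseval again), so av gJ = 1/(4l).
* sum over j < L of gJ l j w = 1 for |w| = 1: |q_j(w)|^2 = |q_0(w conj w_j)|^2 = sum_{|k|<L} c_k (w conj w_j)^k (c_k the autocorrelation coefficients, c_0 = av|q_0|^2, degree <= 4l-4 < L) and sum_j conj(w_j)^k = 0 for 0<|k|<L.
* decay: |q_j(w)| <= min(l, 2/|w-w_j|)^4 for |w|=1 (geometric sum), cJ/(4l) <= l^(-8): gJ <= min(1, (2/(l d))^8) <= 10^8 (1+4 l d)^(-8), d = |w-w_j|. -/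

open MeasureTheory Set Polynomial
open scoped ComplexConjugate

namespace Pool.H52.MQ

private lemma UCJ_ww0 (L : ℕ) : ww L 0 = 1 := by
  simp [ww]

private lemma UCJ_ww_norm (L j : ℕ) : ‖ww L j‖ = 1 := by
  have : (2 * Real.pi * j / L * Complex.I : ℂ) = ((2 * Real.pi * j / L : ℝ) : ℂ) * Complex.I := by
    push_cast; ring
  rw [ww, this, Complex.norm_exp_ofReal_mul_I]

private lemma UCJ_eval (l L j : ℕ) (w : ℂ) :
    (qJ l L j).eval w = (∑ i ∈ Finset.range l, (conj (ww L j) * w) ^ i) ^ 4 := by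
  simp only [qJ, eval_pow, eval_finsetSum, eval_mul, eval_C, eval_X]
  congr 1
  refine Finset.sum_congr rfl fun i _ => ?_
  rw [mul_pow]

private lemma UCJ_eval0 (l L j : ℕ) (w : ℂ) :
    (qJ l L j).eval w = (qJ l L 0).eval (conj (ww L j) * w) := by
  rw [UCJ_eval, UCJ_eval, UCJ_ww0]
  simp

private lemma UCJ_deg (l L j : ℕ) (hl : 1 ≤ l) : (qJ l L j).natDegree < 4 * l := by
  have h1 : (∑ i ∈ Finset.range l, C (conj (ww L j) ^ i) * X ^ i : ℂ[X]).natDegree ≤ l - 1 := by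
    refine natDegree_sum_le_of_forall_le _ _ fun i hi => ?_
    refine (natDegree_C_mul_X_pow_le _ _).trans ?_
    have := Finset.mem_range.1 hi
    omega
  have h2 : (qJ l L j).natDegree ≤ 4 * (l - 1) := by
    unfold qJ
    exact natDegree_pow_le_of_le 4 h1
  omega

/-- discrete orthogonality -/
private lemma UCJ_orth (L : ℕ) (hL : 0 < L) (a b : ℕ) (ha : a < L) (hb : b < L) :
    ∑ j ∈ Finset.range L, conj (ww L j) ^ a * (ww L j) ^ b = if a = b then (L : ℂ) else 0 := by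
  have hprim := Complex.isPrimitiveRoot_exp L hL.ne'
  set ζ : ℂ := Complex.exp (2 * Real.pi * Complex.I / L) with hζ
  have hww : ∀ j, ww L j = ζ ^ j := by
    intro j
    rw [ww, hζ, ← Complex.exp_nat_mul]
    congr 1
    ring
  have hn : ∀ j, conj (ww L j) = (ww L j)⁻¹ := by
    intro j
    rw [Complex.inv_def, Complex.normSq_eq_norm_sq, UCJ_ww_norm]
    simp
  have hζ0 : ζ ≠ 0 := Complex.exp_ne_zero _
  have key : ∀ j, conj (ww L j) ^ a * (ww L j) ^ b = ((ζ ^ a)⁻¹ * ζ ^ b) ^ j := by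
    intro j
    rw [hn, hww]
    rw [mul_pow, inv_pow, inv_pow, ← pow_mul, ← pow_mul, ← pow_mul, ← pow_mul,
      mul_comm j a, mul_comm j b]
  simp only [key]
  split_ifs with h
  · subst h
    rw [inv_mul_cancel₀ (pow_ne_zero _ hζ0)]
    simp
  · have hne : (ζ ^ a)⁻¹ * ζ ^ b ≠ 1 := by
      intro h1
      have : ζ ^ b = ζ ^ a := by
        field_simp at h1
        exact h1
      exact h (hprim.pow_inj hb ha this).symm
    have h1 : ((ζ ^ a)⁻¹ * ζ ^ b) ^ L = 1 := by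
      rw [mul_pow, inv_pow, ← pow_mul, ← pow_mul, mul_comm a, mul_comm b, pow_mul, pow_mul,
        hprim.pow_eq_one]
      simp
    have := mul_geom_sum ((ζ ^ a)⁻¹ * ζ ^ b) L
    rw [h1, sub_self] at this
    exact (mul_eq_zero.1 this).resolve_left (sub_ne_zero.2 hne)

/-- discrete Parseval -/
private lemma UCJ_parseval (L : ℕ) (hL : 0 < L) (q : ℂ[X]) (hq : q.natDegree < L) {w : ℂ}
    (hw : ‖w‖ = 1) :
    ∑ j ∈ Finset.range L, ‖q.eval (conj (ww L j) * w)‖ ^ 2 =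
      L * ∑ a ∈ Finset.range L, ‖q.coeff a‖ ^ 2 := by
  have hww : w * conj w = 1 := by
    rw [Complex.mul_conj, Complex.normSq_eq_norm_sq, hw]; simp
  have h1 : ((∑ j ∈ Finset.range L, ‖q.eval (conj (ww L j) * w)‖ ^ 2 : ℝ) : ℂ) =
      ((L * ∑ a ∈ Finset.range L, ‖q.coeff a‖ ^ 2 : ℝ) : ℂ) := by
    push_cast
    have h2 : ∀ z : ℂ, ((‖z‖ : ℂ)) ^ 2 = z * conj z := by
      intro z; rw [Complex.mul_conj, Complex.normSq_eq_norm_sq]; push_cast; rfl
    simp only [h2]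
    have h3 : ∀ z : ℂ, q.eval z = ∑ a ∈ Finset.range L, q.coeff a * z ^ a := fun z =>
      eval_eq_sum_range' hq z
    calc ∑ j ∈ Finset.range L, q.eval (conj (ww L j) * w) * conj (q.eval (conj (ww L j) * w))
        = ∑ j ∈ Finset.range L, ∑ a ∈ Finset.range L, ∑ b ∈ Finset.range L,
            (q.coeff a * conj (q.coeff b) * w ^ a * conj w ^ b) *
              (conj (ww L j) ^ a * (ww L j) ^ b) := by
          refine Finset.sum_congr rfl fun j _ => ?_
          rw [h3, map_sum, Finset.sum_mul_sum]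
          refine Finset.sum_congr rfl fun a _ => Finset.sum_congr rfl fun b _ => ?_
          simp only [map_mul, map_pow, Complex.conj_conj]
          ring
      _ = ∑ a ∈ Finset.range L, ∑ b ∈ Finset.range L,
            (q.coeff a * conj (q.coeff b) * w ^ a * conj w ^ b) *
              ∑ j ∈ Finset.range L, (conj (ww L j) ^ a * (ww L j) ^ b) := by
          rw [Finset.sum_comm]
          refine Finset.sum_congr rfl fun a _ => ?_
          rw [Finset.sum_comm]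
          refine Finset.sum_congr rfl fun b _ => ?_
          rw [Finset.mul_sum]
      _ = ∑ a ∈ Finset.range L, (L : ℂ) * (q.coeff a * conj (q.coeff a)) := by
          refine Finset.sum_congr rfl fun a ha => ?_
          rw [Finset.sum_eq_single a]
          · rw [UCJ_orth L hL a a (Finset.mem_range.1 ha) (Finset.mem_range.1 ha), if_pos rfl]
            have : w ^ a * conj w ^ a = 1 := by rw [← mul_pow, hww, one_pow]
            linear_combination (L : ℂ) * q.coeff a * conj (q.coeff a) * this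
          · intro b hb hba
            rw [UCJ_orth L hL a b (Finset.mem_range.1 ha) (Finset.mem_range.1 hb),
              if_neg (Ne.symm hba), mul_zero]
          · intro h; exact absurd ha h
      _ = _ := by rw [Finset.mul_sum]
  exact_mod_cast h1

private lemma UCJ_rot (f : ℂ → ℝ) (L j : ℕ) :
    av (fun w => f (conj (ww L j) * w)) = av f := by
  unfold av
  rw [Real.circleAverage_eq_integral_add (f := f) (-(2 * Real.pi * j / L))]
  rw [Real.circleAverage_def]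
  congr 1
  refine intervalIntegral.integral_congr fun θ _ => ?_
  simp only [circleMap, zero_add, Complex.ofReal_one, one_mul]
  congr 1
  have : conj (ww L j) = Complex.exp ((-(2 * Real.pi * j / L) : ℝ) * Complex.I) := by
    rw [ww, ← Complex.exp_conj]
    congr 1
    have h2 : (starRingEnd ℂ) 2 = 2 := Complex.conj_ofNat 2
    simp [h2]
  rw [this, ← Complex.exp_add]
  congr 1
  push_cast
  ring

private lemma UCJ_int {f : ℂ → ℝ} (hf : Continuous f) : CircleIntegrable f 0 1 :=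
  hf.continuousOn.circleIntegrable zero_le_one

/-- sum of the squared coefficients -/
private noncomputable def UCJ_S (l : ℕ) : ℝ :=
  ∑ a ∈ Finset.range (4 * l), ‖(qJ l (4 * l) 0).coeff a‖ ^ 2

private lemma UCJ_avS (l : ℕ) (hl : 1 ≤ l) :
    av (fun w => ‖(qJ l (4 * l) 0).eval w‖ ^ 2) = UCJ_S l := by
  have hL : 0 < 4 * l := by omega
  have h1 : (4 * l : ℕ) * av (fun w => ‖(qJ l (4 * l) 0).eval w‖ ^ 2) =
      ∑ j ∈ Finset.range (4 * l), av (fun w => ‖(qJ l (4 * l) 0).eval (conj (ww (4 * l) j) * w)‖ ^ 2) := by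
    rw [Finset.sum_congr rfl fun j _ =>
      UCJ_rot (fun w => ‖(qJ l (4 * l) 0).eval w‖ ^ 2) (4 * l) j]
    simp
  have h2 : ∑ j ∈ Finset.range (4 * l),
        av (fun w => ‖(qJ l (4 * l) 0).eval (conj (ww (4 * l) j) * w)‖ ^ 2) =
      av (fun w => ∑ j ∈ Finset.range (4 * l),
        ‖(qJ l (4 * l) 0).eval (conj (ww (4 * l) j) * w)‖ ^ 2) := by
    unfold av
    rw [Real.circleAverage_fun_sum]
    intro j _
    refine UCJ_int ?_
    fun_prop
  have h3 : av (fun w => ∑ j ∈ Finset.range (4 * l),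
        ‖(qJ l (4 * l) 0).eval (conj (ww (4 * l) j) * w)‖ ^ 2) = (4 * l : ℕ) * UCJ_S l := by
    unfold av
    refine Real.circleAverage_const_on_circle fun w hw => ?_
    have hw' : ‖w‖ = 1 := by simpa using hw
    exact UCJ_parseval (4 * l) hL _ (UCJ_deg l _ 0 hl) hw'
  rw [h2, h3] at h1
  have : ((4 * l : ℕ) : ℝ) ≠ 0 := by exact_mod_cast hL.ne'
  exact mul_left_cancel₀ this h1

private lemma UCJ_S_ge (l : ℕ) (hl : 1 ≤ l) : (l : ℝ) ^ 7 / 4 ≤ UCJ_S l := by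
  have hl0 : (0 : ℝ) < l := by exact_mod_cast hl
  have h1 : (qJ l (4 * l) 0).eval 1 = (l : ℂ) ^ 4 := by
    rw [UCJ_eval, UCJ_ww0]; simp
  have h2 : (qJ l (4 * l) 0).eval 1 = ∑ a ∈ Finset.range (4 * l), (qJ l (4 * l) 0).coeff a := by
    rw [eval_eq_sum_range' (UCJ_deg l _ 0 hl)]; simp
  have h3 : (l : ℝ) ^ 4 ≤ ∑ a ∈ Finset.range (4 * l), ‖(qJ l (4 * l) 0).coeff a‖ := by
    have := norm_sum_le (Finset.range (4 * l)) fun a => (qJ l (4 * l) 0).coeff a
    rw [← h2, h1] at this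
    simpa using this
  have h5 : (∑ a ∈ Finset.range (4 * l), ‖(qJ l (4 * l) 0).coeff a‖) ^ 2 ≤
      (Finset.range (4 * l)).card * ∑ a ∈ Finset.range (4 * l), ‖(qJ l (4 * l) 0).coeff a‖ ^ 2 :=
    sq_sum_le_card_mul_sum_sq
  rw [Finset.card_range] at h5
  have h6 : ((l : ℝ) ^ 4) ^ 2 ≤ ((4 * l : ℕ) : ℝ) * UCJ_S l := by
    refine le_trans ?_ h5
    gcongr
  push_cast at h6
  have h7 : (l : ℝ) * (l ^ 7 / 4) ≤ l * UCJ_S l := by
    nlinarith
  exact le_of_mul_le_mul_left h7 hl0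

private lemma UCJ_S_pos (l : ℕ) (hl : 1 ≤ l) : 0 < UCJ_S l := by
  have hl0 : (0 : ℝ) < l := by exact_mod_cast hl
  have := UCJ_S_ge l hl
  have : 0 < (l : ℝ) ^ 7 / 4 := by positivity
  linarith

private lemma UCJ_c (l : ℕ) (hl : 1 ≤ l) : cJ l = (UCJ_S l)⁻¹ := by
  rw [cJ, UCJ_avS l hl]

private lemma UCJ_c_nonneg (l : ℕ) : 0 ≤ cJ l := by
  unfold cJ av
  refine inv_nonneg.2 (Real.circleAverage_nonneg_of_nonneg fun w _ => ?_)
  positivity

theorem ucj_sq (l j : ℕ) (hl : 1 ≤ l) : ∃ s : ℂ[X], s.natDegree < 4 * l ∧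
    ∀ w, gJ l j w = ‖s.eval w‖ ^ 2 := by
  refine ⟨C ((√(cJ l / (4 * l)) : ℝ) : ℂ) * qJ l (4 * l) j, ?_, fun w => ?_⟩
  · exact lt_of_le_of_lt (natDegree_C_mul_le _ _) (UCJ_deg l _ j hl)
  · have h0 : 0 ≤ cJ l / (4 * l) := div_nonneg (UCJ_c_nonneg l) (by positivity)
    rw [eval_mul, eval_C, norm_mul, mul_pow, Complex.norm_real, Real.norm_eq_abs, sq_abs,
      Real.sq_sqrt h0, gJ]

theorem ucj_nonneg (l j : ℕ) (w : ℂ) : 0 ≤ gJ l j w := by
  have h0 : 0 ≤ cJ l / (4 * l) := div_nonneg (UCJ_c_nonneg l) (by positivity)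
  unfold gJ
  positivity

theorem ucj_cont (l j : ℕ) : Continuous (gJ l j) := by
  unfold gJ
  fun_prop

theorem ucj_av (l j : ℕ) (hl : 1 ≤ l) : av (gJ l j) = 1 / (4 * l) := by
  have h1 : gJ l j = fun w => (cJ l / (4 * l)) •
      (fun w => ‖(qJ l (4 * l) 0).eval (conj (ww (4 * l) j) * w)‖ ^ 2) w := by
    funext w
    simp only [gJ, smul_eq_mul]
    rw [UCJ_eval0]
  have h2 := UCJ_rot (fun w => ‖(qJ l (4 * l) 0).eval w‖ ^ 2) (4 * l) j
  rw [UCJ_avS l hl] at h2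
  rw [h1]
  unfold av at h2 ⊢
  rw [Real.circleAverage_fun_smul, h2, UCJ_c l hl, smul_eq_mul]
  have := (UCJ_S_pos l hl).ne'
  field_simp

theorem ucj_sum (l : ℕ) (hl : 1 ≤ l) {w : ℂ} (hw : ‖w‖ = 1) :
    ∑ j ∈ Finset.range (4 * l), gJ l j w = 1 := by
  have hL : 0 < 4 * l := by omega
  have h1 : ∑ j ∈ Finset.range (4 * l), gJ l j w = cJ l / (4 * l) *
      ∑ j ∈ Finset.range (4 * l), ‖(qJ l (4 * l) 0).eval (conj (ww (4 * l) j) * w)‖ ^ 2 := by
    rw [Finset.mul_sum]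
    refine Finset.sum_congr rfl fun j _ => ?_
    rw [gJ, UCJ_eval0]
  rw [h1, UCJ_parseval (4 * l) hL _ (UCJ_deg l _ 0 hl) hw, UCJ_c l hl]
  change (UCJ_S l)⁻¹ / (4 * l) * (((4 * l : ℕ) : ℝ) * UCJ_S l) = 1
  have := (UCJ_S_pos l hl).ne'
  have hl0 : (l : ℝ) ≠ 0 := by exact_mod_cast (by omega : l ≠ 0)
  push_cast
  field_simp

theorem ucj_decay (l j : ℕ) (hl : 1 ≤ l) {w : ℂ} (hw : ‖w‖ = 1) :
    gJ l j w ≤ 10 ^ 8 / (1 + 4 * l * ‖w - ww (4 * l) j‖) ^ 8 := by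
  have hl0 : (0 : ℝ) < l := by exact_mod_cast hl
  set d : ℝ := ‖w - ww (4 * l) j‖ with hd
  have hd0 : 0 ≤ d := norm_nonneg _
  set u : ℂ := conj (ww (4 * l) j) * w with hu
  have hu1 : ‖u‖ = 1 := by
    rw [hu, norm_mul, RCLike.norm_conj, UCJ_ww_norm, hw, mul_one]
  have hud : ‖u - 1‖ = d := by
    have h1 : u - 1 = conj (ww (4 * l) j) * (w - ww (4 * l) j) := by
      rw [mul_sub, ← hu]
      congr 1
      rw [mul_comm, Complex.mul_conj, Complex.normSq_eq_norm_sq, UCJ_ww_norm]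
      simp
    rw [h1, norm_mul, RCLike.norm_conj, UCJ_ww_norm, one_mul]
  set G : ℂ := ∑ i ∈ Finset.range l, u ^ i with hG
  have hG1 : ‖G‖ ≤ l := by
    refine (norm_sum_le _ _).trans ?_
    simp [hu1]
  have hG2 : d * ‖G‖ ≤ 2 := by
    rw [← hud, ← norm_mul, hG, mul_comm, geom_sum_mul]
    refine (norm_sub_le _ _).trans ?_
    simp [hu1]
    norm_num
  have hq : ‖(qJ l (4 * l) j).eval w‖ ^ 2 = ‖G‖ ^ 8 := by
    rw [UCJ_eval, norm_pow, ← pow_mul]
  have hc : cJ l / (4 * l) ≤ 1 / (l : ℝ) ^ 8 := by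
    rw [UCJ_c l hl]
    have h1 := UCJ_S_ge l hl
    have h2 : (UCJ_S l)⁻¹ ≤ ((l : ℝ) ^ 7 / 4)⁻¹ := by
      exact inv_anti₀ (by positivity) h1
    calc (UCJ_S l)⁻¹ / (4 * l) ≤ ((l : ℝ) ^ 7 / 4)⁻¹ / (4 * l) := by gcongr
      _ = 1 / (l : ℝ) ^ 8 := by field_simp
  have hx : ‖G‖ / l ≤ 10 / (1 + 4 * l * d) := by
    rw [div_le_div_iff₀ hl0 (by positivity)]
    nlinarith [norm_nonneg G, mul_nonneg hd0 (norm_nonneg G)]
  calc gJ l j w = cJ l / (4 * l) * ‖G‖ ^ 8 := by rw [gJ, hq]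
    _ ≤ 1 / (l : ℝ) ^ 8 * ‖G‖ ^ 8 := by gcongr
    _ = (‖G‖ / l) ^ 8 := by rw [div_pow]; ring
    _ ≤ (10 / (1 + 4 * l * d)) ^ 8 := by gcongr
    _ = _ := by rw [div_pow]

end Pool.H52.MQ
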