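import Pool.Agent.H52.MQ.EXD
import Pool.Agent.H52.MQ.UCJ
import Pool.Agent.H52.MQ.SBN

/-! Module ARC (project MP_935a4b_QM): arcs, chords and interior indices.  Uses EXD (vp_norm), UCJ, SBN.
Ph(y) := 2 arccos(2y-1), decreasing; vp y = exp(i Ph(y)); vp '' Ioo c d = {exp(it) : Ph(d) < t < Ph(c)}; Ph(c)-Ph(d) = 2 pi om c d.  For 1/3 <= c < d <= 2/3: 2.4 <= Ph <= 3.9 (cos(1.2) > 1/3 etc; or use only pi/2 < Ph < 3pi/2).
* arc_card_lower/upper: number of integers j with alpha <= 2 pi j/(4l) <= beta, alpha = Ph(d)+rho > 0, beta = Ph(c)-rho < 2pi (so j < 4l automatically): >= 4l (beta-alpha)/(2pi) - 1 and <= 4l (beta-alpha)/(2 pi) + 1 if beta >= alpha (0 otherwise, then the lower bound is negative).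
* arc_far: z = exp(i psi), psi in [0,2pi), psi not in (Ph(d),Ph(c)), t_j in [Ph(d)+rho, Ph(c)-rho]: |psi-t_j| >= rho and 2pi - |psi-t_j| >= 2 >= rho (rho <= (Ph(c)-Ph(d))/2 <= 0.8, t_j in [2.4,3.9]); |z-w_j| = 2|sin((psi-t_j)/2)| >= (2/pi) min(|psi-t_j|, 2pi-|psi-t_j|) >= rho/2.
* arc_lip_lower: y,y' in [1/4,3/4]: |Ph(y)-Ph(y')| <= 2pi/3 and >= 4|y-y'| (|d arccos(u)| >= |du|, u = 2y-1); |vp y - vp y'| = 2 sin(|Ph-Ph'|/2) >= (2/pi)|Ph-Ph'| >= 2|y-y'|.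
* arc_lip_upper: |vp y - vp y'| <= |Ph-Ph'| <= 4|y-y'|/s, s = min of 2 sqrt(t(1-t)) over [c,d] = min at the end points (concave) (mean value theorem, derivative of arccos = -1/sqrt(1-u^2), sqrt(1-(2t-1)^2) = 2 sqrt(t(1-t))).
* arc_om: om c d * 2 pi = Ph(c)-Ph(d) >= 4 (d-c)/S if 2 sqrt(t(1-t)) <= S on [c,d] (mean value theorem).
* arc_disj: j in both: 2 pi j/(4l) lies in both open intervals (Ph(d),Ph(c)), (Ph(d'),Ph(c')), so some y lies in both Ioo.   arc_tail: ucj_decay and arc_far. -/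

open MeasureTheory Set Polynomial
open scoped ENNReal ComplexConjugate

namespace Pool.H52.MQ

noncomputable section

/-- indices j < 4l with w_j in the arc vp '' (c,d), at distance (angle) at least rho from its ends -/
def Jin (l : ℕ) (c d ρ : ℝ) : Finset ℕ := by
  classical
  exact (Finset.range (4 * l)).filter (fun j : ℕ =>
    2 * Real.arccos (2 * d - 1) + ρ ≤ 2 * Real.pi * j / ((4 * l : ℕ) : ℝ) ∧
    2 * Real.pi * j / ((4 * l : ℕ) : ℝ) ≤ 2 * Real.arccos (2 * c - 1) - ρ)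

end

private lemma ARC_mem {c d s : ℝ} (h1 : Real.arccos (2 * d - 1) < s) (h2 : s < Real.arccos (2 * c - 1)) :
    (1 + Real.cos s) / 2 ∈ Ioo c d ∧ Real.arccos (2 * ((1 + Real.cos s) / 2) - 1) = s := by
  have h0 : 0 ≤ s := (Real.arccos_nonneg _).trans h1.le
  have hpi : s ≤ Real.pi := h2.le.trans (Real.arccos_le_pi _)
  have h3 : Real.arccos (Real.cos s) = s := Real.arccos_cos h0 hpi
  have h4 : 2 * ((1 + Real.cos s) / 2) - 1 = Real.cos s := by ring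
  refine ⟨⟨?_, ?_⟩, by rw [h4, h3]⟩
  · have h5 : 2 * c - 1 < Real.cos s := by
      by_contra hcon
      push Not at hcon
      have := Real.arccos_le_arccos hcon
      rw [h3] at this
      linarith
    linarith
  · have h5 : Real.cos s < 2 * d - 1 := by
      by_contra hcon
      push Not at hcon
      have := Real.arccos_le_arccos hcon
      rw [h3] at this
      linarith
    linarith

private lemma ARC_vp (y : ℝ) : vp y = Complex.exp (Complex.I * ((2 * Real.arccos (2 * y - 1) : ℝ) : ℂ)) := by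
  unfold vp zz
  rw [← Complex.exp_nat_mul]
  congr 1
  push_cast
  ring

private lemma ARC_ww (L j : ℕ) : ww L j = Complex.exp (Complex.I * ((2 * Real.pi * j / L : ℝ) : ℂ)) := by
  unfold ww
  congr 1
  push_cast
  ring

private lemma ARC_norm_sub (a b : ℝ) :
    ‖Complex.exp (Complex.I * (a : ℂ)) - Complex.exp (Complex.I * (b : ℂ))‖ =
      2 * |Real.sin ((a - b) / 2)| := by
  have h1 : Complex.exp (Complex.I * (a : ℂ)) - Complex.exp (Complex.I * (b : ℂ)) =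
      Complex.exp (Complex.I * (b : ℂ)) * (Complex.exp (Complex.I * ((a - b : ℝ) : ℂ)) - 1) := by
    rw [mul_sub, ← Complex.exp_add, mul_one]
    congr 2
    push_cast
    ring
  have h2 : ‖Complex.exp (Complex.I * (b : ℂ))‖ = 1 := by
    rw [mul_comm]
    exact Complex.norm_exp_ofReal_mul_I b
  rw [h1, norm_mul, h2, one_mul, Complex.norm_exp_I_mul_ofReal_sub_one, Real.norm_eq_abs, abs_mul]
  norm_num

private lemma ARC_mvt {a b : ℝ} (hab : a < b) :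
    ∃ ξ ∈ Ioo a b, Real.cos a - Real.cos b = Real.sin ξ * (b - a) := by
  obtain ⟨ξ, hξ, h⟩ := exists_hasDerivAt_eq_slope Real.cos (fun x => - Real.sin x) hab
    Real.continuous_cos.continuousOn (fun x _ => Real.hasDerivAt_cos x)
  refine ⟨ξ, hξ, ?_⟩
  have hba : b - a ≠ 0 := by linarith
  have h' : - Real.sin ξ = (Real.cos b - Real.cos a) / (b - a) := h
  rw [eq_div_iff hba] at h'
  linarith

private lemma ARC_cos_lower {A B a b s0 : ℝ} (hA : 0 ≤ A) (hB : B ≤ Real.pi) (h1 : s0 ≤ Real.sin A)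
    (h2 : s0 ≤ Real.sin B) (ha : a ∈ Icc A B) (hb : b ∈ Icc A B) :
    s0 * |a - b| ≤ |Real.cos a - Real.cos b| := by
  wlog hab : a < b generalizing a b
  · rcases eq_or_lt_of_le (not_lt.1 hab) with h | h
    · rw [h]; simp
    · have := this hb ha h
      rwa [abs_sub_comm b a, abs_sub_comm (Real.cos b)] at this
  obtain ⟨ξ, hξ, h⟩ := ARC_mvt hab
  have h3 : min (Real.sin A) (Real.sin B) ≤ Real.sin ξ :=
    strictConcaveOn_sin_Icc.concaveOn.min_le_of_mem_Icc ⟨hA, by linarith [ha.1, ha.2]⟩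
      ⟨by linarith [ha.1, ha.2], hB⟩ ⟨by linarith [ha.1, hξ.1], by linarith [hb.2, hξ.2]⟩
  have h4 : s0 ≤ Real.sin ξ := (le_min h1 h2).trans h3
  have h5 : |a - b| = b - a := by rw [abs_sub_comm, abs_of_pos (by linarith)]
  rw [h, h5]
  refine le_trans ?_ (le_abs_self _)
  exact mul_le_mul_of_nonneg_right h4 (by linarith)

private lemma ARC_sin {y : ℝ} : Real.sin (Real.arccos (2 * y - 1)) = 2 * √(y * (1 - y)) := by
  rw [Real.sin_arccos]
  have h1 : 1 - (2 * y - 1) ^ 2 = 2 ^ 2 * (y * (1 - y)) := by ring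
  rw [h1, Real.sqrt_mul (by norm_num), Real.sqrt_sq (by norm_num)]

private lemma ARC_cos {y : ℝ} (h0 : 0 ≤ y) (h1 : y ≤ 1) :
    Real.cos (Real.arccos (2 * y - 1)) = 2 * y - 1 :=
  Real.cos_arccos (by linarith) (by linarith)

private lemma ARC_anti {y y' : ℝ} (h : y ≤ y') :
    Real.arccos (2 * y' - 1) ≤ Real.arccos (2 * y - 1) :=
  Real.arccos_le_arccos (by linarith)

theorem arc_sub (l : ℕ) (c d ρ : ℝ) : Jin l c d ρ ⊆ Finset.range (4 * l) := by
  unfold Jin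
  exact Finset.filter_subset _ _

theorem arc_card_lower {l : ℕ} (hl : 1 ≤ l) {c d ρ : ℝ} (hc : 1 / 3 ≤ c) (hcd : c < d)
    (hd : d ≤ 2 / 3) (hρ : 0 ≤ ρ) :
    4 * l * (om c d - ρ / Real.pi) - 1 ≤ (Jin l c d ρ).card := by
  have hpi := Real.pi_pos
  have hl0 : (0 : ℝ) < ((4 * l : ℕ) : ℝ) := by
    have : 0 < 4 * l := by omega
    exact_mod_cast this
  have hθd : 0 < Real.arccos (2 * d - 1) := Real.arccos_pos.2 (by linarith)
  have hθc : Real.arccos (2 * c - 1) < Real.pi := by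
    refine lt_of_le_of_ne (Real.arccos_le_pi _) ?_
    intro h
    rw [Real.arccos_eq_pi] at h
    linarith
  set a : ℝ := (2 * Real.arccos (2 * d - 1) + ρ) * ((4 * l : ℕ) : ℝ) / (2 * Real.pi) with ha
  set b : ℝ := (2 * Real.arccos (2 * c - 1) - ρ) * ((4 * l : ℕ) : ℝ) / (2 * Real.pi) with hb
  have ha0 : 0 < a := by rw [ha]; positivity
  have hsub : Finset.Icc ⌈a⌉₊ ⌊b⌋₊ ⊆ Jin l c d ρ := by
    intro j hj
    rw [Finset.mem_Icc] at hj
    have hj1 : a ≤ (j : ℝ) := Nat.ceil_le.1 hj.1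
    have hj0 : j ≠ 0 := by
      rintro rfl
      rw [Nat.cast_zero] at hj1
      linarith
    have hj2 : (j : ℝ) ≤ b := (Nat.le_floor_iff' hj0).1 hj.2
    rw [ha, div_le_iff₀ (by positivity)] at hj1
    rw [hb, le_div_iff₀ (by positivity)] at hj2
    unfold Jin
    rw [Finset.mem_filter, Finset.mem_range]
    refine ⟨?_, ?_, ?_⟩
    · have h1 : (j : ℝ) * (2 * Real.pi) < ((4 * l : ℕ) : ℝ) * (2 * Real.pi) := by
        refine lt_of_le_of_lt hj2 ?_
        rw [mul_comm]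
        refine mul_lt_mul_of_pos_left ?_ hl0
        linarith
      have h2 : (j : ℝ) < ((4 * l : ℕ) : ℝ) := lt_of_mul_lt_mul_right h1 (by positivity)
      exact_mod_cast h2
    · rw [le_div_iff₀ hl0]
      linarith
    · rw [div_le_iff₀ hl0]
      linarith
  have h1 := Finset.card_le_card hsub
  rw [Nat.card_Icc] at h1
  have h2 : ((⌊b⌋₊ : ℝ) + 1) - (⌈a⌉₊ : ℝ) ≤ ((⌊b⌋₊ + 1 - ⌈a⌉₊ : ℕ) : ℝ) := by
    have h3 : ⌊b⌋₊ + 1 ≤ (⌊b⌋₊ + 1 - ⌈a⌉₊) + ⌈a⌉₊ := by omega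
    have h4 : ((⌊b⌋₊ : ℝ) + 1) ≤ ((⌊b⌋₊ + 1 - ⌈a⌉₊ : ℕ) : ℝ) + (⌈a⌉₊ : ℝ) := by exact_mod_cast h3
    linarith
  have h3 : ((⌊b⌋₊ + 1 - ⌈a⌉₊ : ℕ) : ℝ) ≤ ((Jin l c d ρ).card : ℝ) := by exact_mod_cast h1
  have h4 := Nat.lt_floor_add_one b
  have h5 := Nat.ceil_lt_add_one ha0.le
  have h6 : b - a = 4 * l * (om c d - ρ / Real.pi) := by
    rw [ha, hb]
    unfold om
    push_cast
    field_simp
    ring
  linarith

theorem arc_card_upper {l : ℕ} (hl : 1 ≤ l) {c d ρ : ℝ} (hc : 1 / 3 ≤ c) (hcd : c < d)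
    (hd : d ≤ 2 / 3) (hρ : 0 ≤ ρ) : ((Jin l c d ρ).card : ℝ) ≤ 4 * l * om c d + 1 := by
  have hpi := Real.pi_pos
  have hl0 : (0 : ℝ) < ((4 * l : ℕ) : ℝ) := by
    have : 0 < 4 * l := by omega
    exact_mod_cast this
  have hθd : 0 < Real.arccos (2 * d - 1) := Real.arccos_pos.2 (by linarith)
  set a : ℝ := (2 * Real.arccos (2 * d - 1)) * ((4 * l : ℕ) : ℝ) / (2 * Real.pi) with ha
  set b : ℝ := (2 * Real.arccos (2 * c - 1)) * ((4 * l : ℕ) : ℝ) / (2 * Real.pi) with hb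
  have hab : a ≤ b := by
    rw [ha, hb]
    have := ARC_anti hcd.le
    gcongr
  have ha0 : 0 < a := by rw [ha]; positivity
  have hsub : Jin l c d ρ ⊆ Finset.Icc ⌈a⌉₊ ⌊b⌋₊ := by
    intro j hj
    unfold Jin at hj
    rw [Finset.mem_filter, Finset.mem_range] at hj
    obtain ⟨-, hj1, hj2⟩ := hj
    rw [le_div_iff₀ hl0] at hj1
    rw [div_le_iff₀ hl0] at hj2
    rw [Finset.mem_Icc]
    constructor
    · rw [Nat.ceil_le, ha, div_le_iff₀ (by positivity)]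
      nlinarith
    · refine Nat.le_floor ?_
      rw [hb, le_div_iff₀ (by positivity)]
      nlinarith
  have h1 := Finset.card_le_card hsub
  rw [Nat.card_Icc] at h1
  have h4 := Nat.lt_floor_add_one b
  have h5 : ⌈a⌉₊ ≤ ⌊b⌋₊ + 1 := by
    refine Nat.ceil_le.2 ?_
    push_cast
    linarith
  have h2 : ((⌊b⌋₊ + 1 - ⌈a⌉₊ : ℕ) : ℝ) = ((⌊b⌋₊ : ℝ) + 1) - (⌈a⌉₊ : ℝ) := by
    rw [Nat.cast_sub h5]
    push_cast
    ring
  have h3 : ((Jin l c d ρ).card : ℝ) ≤ ((⌊b⌋₊ + 1 - ⌈a⌉₊ : ℕ) : ℝ) := by exact_mod_cast h1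
  have h6 := Nat.floor_le (ha0.le.trans hab)
  have h7 := Nat.le_ceil a
  have h8 : b - a = 4 * l * om c d := by
    rw [ha, hb]
    unfold om
    push_cast
    field_simp
  linarith

theorem arc_far {l : ℕ} (hl : 1 ≤ l) {c d ρ : ℝ} (hc : 1 / 3 ≤ c) (hcd : c < d)
    (hd : d ≤ 2 / 3) (hρ : 0 ≤ ρ) {j : ℕ} (hj : j ∈ Jin l c d ρ) {z : ℂ} (hz : ‖z‖ = 1)
    (hz1 : z ∉ vp '' Ioo c d) : ρ / 2 ≤ ‖z - ww (4 * l) j‖ := by
  have hpi := Real.pi_pos
  unfold Jin at hj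
  rw [Finset.mem_filter, Finset.mem_range] at hj
  obtain ⟨-, hj1, hj2⟩ := hj
  rw [ARC_ww]
  set t : ℝ := 2 * Real.pi * j / ((4 * l : ℕ) : ℝ) with ht
  set u : ℂ := z * Complex.exp (-(Complex.I * (t : ℂ))) with hu
  have hu1 : ‖u‖ = 1 := by
    rw [hu, norm_mul, hz, one_mul]
    have h1 : -(Complex.I * (t : ℂ)) = ((-t : ℝ) : ℂ) * Complex.I := by push_cast; ring
    rw [h1]
    exact Complex.norm_exp_ofReal_mul_I _
  set φ : ℝ := Complex.arg u with hφ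
  have huφ : u = Complex.exp (Complex.I * (φ : ℂ)) := by
    have h1 := Complex.norm_mul_exp_arg_mul_I u
    rw [hu1, Complex.ofReal_one, one_mul] at h1
    rw [← h1, mul_comm]
  have hzt : z = Complex.exp (Complex.I * ((t + φ : ℝ) : ℂ)) := by
    have h1 : z = u * Complex.exp (Complex.I * (t : ℂ)) := by
      rw [hu, mul_assoc, ← Complex.exp_add, neg_add_cancel, Complex.exp_zero, mul_one]
    rw [h1, huφ, ← Complex.exp_add]
    congr 1
    push_cast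
    ring
  have habs : |φ| ≤ Real.pi := Complex.abs_arg_le_pi u
  have hρφ : ρ ≤ |φ| := by
    by_contra hcon
    push Not at hcon
    obtain ⟨h3, h4⟩ := abs_lt.1 hcon
    have h5 : Real.arccos (2 * d - 1) < (t + φ) / 2 := by linarith
    have h6 : (t + φ) / 2 < Real.arccos (2 * c - 1) := by linarith
    obtain ⟨h7, h8⟩ := ARC_mem h5 h6
    refine hz1 ⟨_, h7, ?_⟩
    rw [ARC_vp, h8, hzt]
    congr 2
    push_cast
    ring
  have h9 := Real.mul_abs_le_abs_sin (x := φ / 2) (by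
    rw [abs_div, abs_of_pos (show (0:ℝ) < 2 by norm_num)]
    linarith)
  rw [hzt, ARC_norm_sub]
  have h10 : (t + φ - t) / 2 = φ / 2 := by ring
  rw [h10]
  have h11 : |φ / 2| = |φ| / 2 := by rw [abs_div, abs_of_pos (show (0:ℝ) < 2 by norm_num)]
  rw [h11] at h9
  have h12 : 1 / 2 ≤ 2 / Real.pi := by
    rw [div_le_div_iff₀ (by norm_num) hpi]
    linarith [Real.pi_le_four]
  have h13 : 1 / 2 * (ρ / 2) ≤ 2 / Real.pi * (|φ| / 2) := by
    refine mul_le_mul h12 (by linarith) (by positivity) (by positivity)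
  linarith

theorem arc_tail {l : ℕ} (hl : 1 ≤ l) {c d ρ : ℝ} (hc : 1 / 3 ≤ c) (hcd : c < d)
    (hd : d ≤ 2 / 3) (hρ : 0 ≤ ρ) {j : ℕ} (hj : j ∈ Jin l c d ρ) {z : ℂ} (hz : ‖z‖ = 1)
    (hz1 : z ∉ vp '' Ioo c d) : gJ l j z ≤ 10 ^ 8 / (1 + 2 * l * ρ) ^ 8 := by
  have h1 := ucj_decay l j hl hz
  have h2 := arc_far hl hc hcd hd hρ hj hz hz1
  have hl0 : (0 : ℝ) < l := by exact_mod_cast hl
  refine h1.trans ?_
  have h3 : 1 + 2 * l * ρ ≤ 1 + 4 * l * ‖z - ww (4 * l) j‖ := by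
    nlinarith
  have h4 : 0 < 1 + 2 * l * ρ := by positivity
  gcongr

theorem arc_lip_lower {y y' : ℝ} (hy : y ∈ Icc (1/4:ℝ) (3/4)) (hy' : y' ∈ Icc (1/4:ℝ) (3/4)) :
    2 * |y - y'| ≤ ‖vp y - vp y'‖ := by
  have hpi := Real.pi_pos
  obtain ⟨hy1, hy2⟩ := hy
  obtain ⟨hy1', hy2'⟩ := hy'
  have hb : ∀ t : ℝ, 1 / 4 ≤ t → t ≤ 3 / 4 → Real.pi / 3 ≤ Real.arccos (2 * t - 1) ∧
      Real.arccos (2 * t - 1) ≤ 2 * Real.pi / 3 := by
    intro t ht1 ht2
    have e1 : Real.arccos (1 / 2) = Real.pi / 3 := by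
      rw [← Real.cos_pi_div_three]
      exact Real.arccos_cos (by positivity) (by linarith)
    have e2 : Real.arccos (-(1 / 2)) = 2 * Real.pi / 3 := by
      rw [Real.arccos_neg, e1]
      ring
    constructor
    · rw [← e1]
      exact Real.arccos_le_arccos (by linarith)
    · rw [← e2]
      exact Real.arccos_le_arccos (by linarith)
  obtain ⟨h1, h2⟩ := hb y hy1 hy2
  obtain ⟨h1', h2'⟩ := hb y' hy1' hy2'
  rw [ARC_vp, ARC_vp, ARC_norm_sub]
  have h3 : (2 * Real.arccos (2 * y - 1) - 2 * Real.arccos (2 * y' - 1)) / 2 =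
      Real.arccos (2 * y - 1) - Real.arccos (2 * y' - 1) := by ring
  rw [h3]
  have h4 := Real.mul_abs_le_abs_sin (x := Real.arccos (2 * y - 1) - Real.arccos (2 * y' - 1)) (by
    rw [abs_le]
    constructor <;> linarith)
  have h5 : |2 * y - 1 - (2 * y' - 1)| ≤ |Real.arccos (2 * y - 1) - Real.arccos (2 * y' - 1)| := by
    have h6 := Real.abs_cos_sub_cos_le (Real.arccos (2 * y - 1)) (Real.arccos (2 * y' - 1))
    rw [ARC_cos (by linarith) (by linarith), ARC_cos (by linarith) (by linarith)] at h6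
    exact h6
  have h7 : 2 * y - 1 - (2 * y' - 1) = 2 * (y - y') := by ring
  rw [h7, abs_mul, abs_of_pos (show (0:ℝ) < 2 by norm_num)] at h5
  have h12 : 1 / 2 ≤ 2 / Real.pi := by
    rw [div_le_div_iff₀ (by norm_num) hpi]
    linarith [Real.pi_le_four]
  have h13 : 1 / 2 * (2 * |y - y'|) ≤ 2 / Real.pi * |Real.arccos (2 * y - 1) - Real.arccos (2 * y' - 1)| :=
    mul_le_mul h12 h5 (by positivity) (by positivity)
  linarith

theorem arc_lip_upper {c d s0 : ℝ} (hc : 0 < c) (hd : d < 1) (h0 : 0 ≤ s0)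
    (h1 : s0 ≤ 2 * √(c * (1 - c))) (h2 : s0 ≤ 2 * √(d * (1 - d))) {y y' : ℝ}
    (hy : y ∈ Icc c d) (hy' : y' ∈ Icc c d) : s0 * ‖vp y - vp y'‖ ≤ 4 * |y - y'| := by
  rw [ARC_vp, ARC_vp, ARC_norm_sub]
  have h3 : (2 * Real.arccos (2 * y - 1) - 2 * Real.arccos (2 * y' - 1)) / 2 =
      Real.arccos (2 * y - 1) - Real.arccos (2 * y' - 1) := by ring
  rw [h3]
  have h4 : |Real.sin (Real.arccos (2 * y - 1) - Real.arccos (2 * y' - 1))| ≤
      |Real.arccos (2 * y - 1) - Real.arccos (2 * y' - 1)| := Real.abs_sin_le_abs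
  have h5 := ARC_cos_lower (A := Real.arccos (2 * d - 1)) (B := Real.arccos (2 * c - 1)) (s0 := s0)
    (a := Real.arccos (2 * y - 1)) (b := Real.arccos (2 * y' - 1))
    (Real.arccos_nonneg _) (Real.arccos_le_pi _) (by rw [ARC_sin]; exact h2) (by rw [ARC_sin]; exact h1)
    ⟨ARC_anti hy.2, ARC_anti hy.1⟩ ⟨ARC_anti hy'.2, ARC_anti hy'.1⟩
  rw [ARC_cos (by linarith [hy.1]) (by linarith [hy.2]),
    ARC_cos (by linarith [hy'.1]) (by linarith [hy'.2])] at h5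
  have h7 : 2 * y - 1 - (2 * y' - 1) = 2 * (y - y') := by ring
  rw [h7, abs_mul, abs_of_pos (show (0:ℝ) < 2 by norm_num)] at h5
  calc s0 * (2 * |Real.sin (Real.arccos (2 * y - 1) - Real.arccos (2 * y' - 1))|)
      ≤ s0 * (2 * |Real.arccos (2 * y - 1) - Real.arccos (2 * y' - 1)|) := by gcongr
    _ = 2 * (s0 * |Real.arccos (2 * y - 1) - Real.arccos (2 * y' - 1)|) := by ring
    _ ≤ 4 * |y - y'| := by linarith

theorem arc_om {c d S : ℝ} (hc : 0 < c) (hcd : c ≤ d) (hd : d < 1)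
    (hS : ∀ t ∈ Icc c d, 2 * √(t * (1 - t)) ≤ S) : 2 * (d - c) ≤ Real.pi * S * om c d := by
  have hpi := Real.pi_pos
  rcases eq_or_lt_of_le hcd with h | h
  · rw [h]
    unfold om
    simp
  have hθ : Real.arccos (2 * d - 1) < Real.arccos (2 * c - 1) :=
    Real.arccos_lt_arccos (by linarith) (by linarith) (by linarith)
  obtain ⟨ξ, hξ, he⟩ := ARC_mvt hθ
  rw [ARC_cos (by linarith) (by linarith), ARC_cos (by linarith) (by linarith)] at he
  obtain ⟨h7, h8⟩ := ARC_mem hξ.1 hξ.2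
  have h9 : Real.sin ξ ≤ S := by
    have h10 := hS _ ⟨h7.1.le, h7.2.le⟩
    rw [← ARC_sin, h8] at h10
    exact h10
  have h10 : Real.pi * S * om c d = S * (Real.arccos (2 * c - 1) - Real.arccos (2 * d - 1)) := by
    unfold om
    field_simp
  rw [h10]
  have h11 : Real.sin ξ * (Real.arccos (2 * c - 1) - Real.arccos (2 * d - 1)) ≤
      S * (Real.arccos (2 * c - 1) - Real.arccos (2 * d - 1)) :=
    mul_le_mul_of_nonneg_right h9 (by linarith)
  linarith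

theorem arc_disj {l : ℕ} {c d c' d' ρ : ℝ} (hρ : 0 < ρ) (hc : 0 ≤ c) (hd : d ≤ 1) (hc' : 0 ≤ c')
    (hd' : d' ≤ 1) (h : Disjoint (Ioo c d) (Ioo c' d')) :
    Disjoint (Jin l c d ρ) (Jin l c' d' ρ) := by
  rw [Finset.disjoint_left]
  intro j hj hj'
  unfold Jin at hj hj'
  rw [Finset.mem_filter] at hj hj'
  obtain ⟨-, h1, h2⟩ := hj
  obtain ⟨-, h1', h2'⟩ := hj'
  set t : ℝ := 2 * Real.pi * j / ((4 * l : ℕ) : ℝ) with ht
  have h3 := (ARC_mem (c := c) (d := d) (s := t / 2) (by linarith) (by linarith)).1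
  have h4 := (ARC_mem (c := c') (d := d') (s := t / 2) (by linarith) (by linarith)).1
  exact Set.disjoint_left.1 h h3 h4

end Pool.H52.MQ
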