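import Pool.Agent.H52.MQ.SBA

/-! Module SBQ (project MP_935a4b_QM): separation of the integer quartics QQ w = D^2 A B.  Uses SBA.
Step 1 (distinctness).  w /= w', both /= [].  Then the polynomials QQ w, QQ w' (degree <= 4 in y) are different.
  D, A, B = D-A are affine functions of y: D = lq + (rq-lq) y, A = lp + (rp-lp) y.  By sba_det any two of D, A, B have no common zero (even as forms in (1-y,y):
  determinants +-1).  lq /= rq for w /= [] (sba_pos, hh > 2: false::w has rq > lq, true::w has lq > rq), so D has a real zero y* = lq/(lq-rq), outside [0,1].  If QQ w = QQ w' as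
  polynomials then y* is a zero of order >= 2 of D'^2 A' B'; A' and B' are affine (possibly constant), nonzero, without common zero and without common zero with D', so y* must be the zero of
  D': lq/(lq-rq) = lq'/(lq'-rq'), i.e. lq rq' = lq' rq; gcd(lq,rq) = 1 (sba_det) and positivity give (lq,rq) = (lq',rq'), so w = w' (sba_word), contradiction.
Step 2 (sublevel sets).  Let W = QQ w - QQ w' = sum_{i<=4} c_i y^i with integer c_i, not all 0.  Suppose the set E = {y in [0,1] : |W(y)| <= l} has Lebesgue measure > s > 0.  Then E contains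
  points y_0<...<y_4 with y_{i+1}-y_i >= s/5 (otherwise E is covered by 5 intervals of length < s/5: greedy).  Lagrange interpolation (Lagrange.coeff_eq_sum): the leading coefficient of W,
  a nonzero integer, is at most (d+1) l / (s/5)^d, d = natDegree.  -/

open MeasureTheory Set
open scoped ENNReal

namespace Pool.H52.MQ

/-! ### Step 1 -/

private theorem sbq_ne {w : List Bool} (hw : w ≠ []) : lq w ≠ rq w := by
  cases w with
  | nil => exact absurd rfl hw
  | cons b v =>
    have h1 := sba_pos v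
    cases b with
    | false =>
      have e1 : lq (false :: v) = lq v := rfl
      have e2 : rq (false :: v) = lq v + rq v := rfl
      omega
    | true =>
      have e1 : lq (true :: v) = lq v + rq v := rfl
      have e2 : rq (true :: v) = rq v := rfl
      omega

private theorem sbq_cop (w : List Bool) : Nat.Coprime (lq w) (rq w) := by
  have h := sba_det w
  have h1 : Nat.gcd (lq w) (rq w) ∣ lp w * rq w + 1 := by
    rw [← h]
    exact Dvd.dvd.mul_left (Nat.gcd_dvd_left _ _) _
  have h2 : Nat.gcd (lq w) (rq w) ∣ lp w * rq w := Dvd.dvd.mul_left (Nat.gcd_dvd_right _ _) _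
  exact Nat.eq_one_of_dvd_one ((Nat.dvd_add_right h2).1 h1)

/-- the three affine factors -/
private theorem sbq_form (w : List Bool) (y : ℝ) :
    QQ w y = (lq w * (1 - y) + rq w * y) ^ 2 * ((lp w * (1 - y) + rp w * y) *
      ((lq w * (1 - y) + rq w * y) - (lp w * (1 - y) + rp w * y))) := rfl

private theorem sbq_alg {a b c d : ℝ} {a' b' c' d' : ℝ} (hdet : d' * a' = c' * b' + 1) (hne : a ≠ b)
    (hc : c' ≠ 0 ∨ d' ≠ 0)
    (h : ∀ y : ℝ, (a * (1 - y) + b * y) ^ 2 * ((c * (1 - y) + d * y) * ((a * (1 - y) + b * y) - (c * (1 - y) + d * y))) =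
      (a' * (1 - y) + b' * y) ^ 2 * ((c' * (1 - y) + d' * y) * ((a' * (1 - y) + b' * y) - (c' * (1 - y) + d' * y)))) :
    a * b' = a' * b := by
  have hab : a - b ≠ 0 := sub_ne_zero.2 hne
  obtain ⟨z, hz⟩ : ∃ z : ℝ, z = a / (a - b) := ⟨_, rfl⟩
  have hD : a * (1 - z) + b * z = 0 := by
    rw [hz]
    field_simp
    ring
  have hz1 : z * (a - b) = a := by rw [hz]; field_simp
  -- the linear coefficient at z
  have h0 := h z
  have e1 := h (z + 1)
  have e2 := h (z - 1)
  have e3 := h (z + 2)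
  have e4 := h (z - 2)
  obtain ⟨D', hD'⟩ : ∃ D' : ℝ, D' = a' * (1 - z) + b' * z := ⟨_, rfl⟩
  obtain ⟨A', hA'⟩ : ∃ A' : ℝ, A' = c' * (1 - z) + d' * z := ⟨_, rfl⟩
  have hP : D' ^ 2 * (A' * (D' - A')) = 0 := by
    rw [hD', hA']
    rw [← h0, hD]
    ring
  have hlin : 2 * D' * (b' - a') * (A' * (D' - A')) + D' ^ 2 * ((d' - c') * (D' - A') + A' * ((b' - a') - (d' - c'))) = 0 := by
    have hb : b * z = - (a * (1 - z)) := by linarith
    have k1 : a * (1 - (z + 1)) + b * (z + 1) = b - a := by linarith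
    have k2 : a * (1 - (z - 1)) + b * (z - 1) = - (b - a) := by linarith
    have k3 : a * (1 - (z + 2)) + b * (z + 2) = 2 * (b - a) := by linarith
    have k4 : a * (1 - (z - 2)) + b * (z - 2) = - (2 * (b - a)) := by linarith
    rw [k1] at e1
    rw [k2] at e2
    rw [k3] at e3
    rw [k4] at e4
    have m1 : a' * (1 - (z + 1)) + b' * (z + 1) = D' + (b' - a') := by rw [hD']; ring
    have m2 : a' * (1 - (z - 1)) + b' * (z - 1) = D' - (b' - a') := by rw [hD']; ring
    have m3 : a' * (1 - (z + 2)) + b' * (z + 2) = D' + 2 * (b' - a') := by rw [hD']; ring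
    have m4 : a' * (1 - (z - 2)) + b' * (z - 2) = D' - 2 * (b' - a') := by rw [hD']; ring
    have n1 : c' * (1 - (z + 1)) + d' * (z + 1) = A' + (d' - c') := by rw [hA']; ring
    have n2 : c' * (1 - (z - 1)) + d' * (z - 1) = A' - (d' - c') := by rw [hA']; ring
    have n3 : c' * (1 - (z + 2)) + d' * (z + 2) = A' + 2 * (d' - c') := by rw [hA']; ring
    have n4 : c' * (1 - (z - 2)) + d' * (z - 2) = A' - 2 * (d' - c') := by rw [hA']; ring
    rw [m1, n1] at e1
    rw [m2, n2] at e2
    rw [m3, n3] at e3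
    rw [m4, n4] at e4
    have o1 : c * (1 - (z + 1)) + d * (z + 1) = (c * (1 - z) + d * z) + (d - c) := by ring
    have o2 : c * (1 - (z - 1)) + d * (z - 1) = (c * (1 - z) + d * z) - (d - c) := by ring
    have o3 : c * (1 - (z + 2)) + d * (z + 2) = (c * (1 - z) + d * z) + 2 * (d - c) := by ring
    have o4 : c * (1 - (z - 2)) + d * (z - 2) = (c * (1 - z) + d * z) - 2 * (d - c) := by ring
    rw [o1] at e1
    rw [o2] at e2
    rw [o3] at e3
    rw [o4] at e4
    generalize c * (1 - z) + d * z = A at e1 e2 e3 e4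
    linear_combination (-8 * e1 + 8 * e2 + e3 - e4) / 12
  -- D' = 0
  have hD0 : D' = 0 := by
    by_contra hne'
    have h3 : A' * (D' - A') = 0 := by
      rcases mul_eq_zero.1 hP with h4 | h4
      · exact absurd (pow_eq_zero_iff (two_ne_zero) |>.1 h4) hne'
      · exact h4
    rw [h3, mul_zero, zero_add] at hlin
    have h5 : (d' - c') * (D' - A') + A' * ((b' - a') - (d' - c')) = 0 := by
      rcases mul_eq_zero.1 hlin with h4 | h4
      · exact absurd (pow_eq_zero_iff (two_ne_zero) |>.1 h4) hne'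
      · exact h4
    -- determinants
    have g1 : a' * A' - c' * D' = z := by rw [hA', hD']; linear_combination z * hdet
    have g2 : d' * D' - b' * A' = 1 - z := by rw [hA', hD']; linear_combination (1 - z) * hdet
    rcases mul_eq_zero.1 h3 with h4 | h4
    · rw [h4, sub_zero, zero_mul, add_zero] at h5
      have h6 : d' - c' = 0 := by
        rcases mul_eq_zero.1 h5 with h7 | h7
        · exact h7
        · exact absurd h7 hne'
      have h7 : c' = 0 := by rw [hA'] at h4; linear_combination h4 - z * h6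
      have h8 : d' = 0 := by linarith
      rcases hc with h9 | h9
      · exact h9 h7
      · exact h9 h8
    · have h6 : A' = D' := by linarith
      rw [h4, mul_zero, zero_add, h6] at h5
      have h7 : b' - a' = d' - c' := by
        rcases mul_eq_zero.1 h5 with h7 | h7
        · exact absurd h7 hne'
        · linarith
      -- then D' - A' is constant zero, so a' = c' and b' = d': determinant 0
      have h8 : a' = c' := by rw [hA', hD'] at h6; linear_combination -h6 - z * h7
      have h9 : b' = d' := by linarith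
      rw [h8, h9] at hdet
      linarith
  rw [hD'] at hD0
  linear_combination (a - b) * hD0 + (a' - b') * hz1

private theorem sbq_distinct {w w' : List Bool} (hne : w ≠ w') (hw : w ≠ []) :
    ∃ y : ℝ, QQ w y ≠ QQ w' y := by
  by_contra hcon
  push Not at hcon
  have hdet : (rp w' : ℝ) * lq w' = lp w' * rq w' + 1 := by exact_mod_cast sba_det w'
  have h1 : (lq w : ℝ) ≠ rq w := by exact_mod_cast sbq_ne hw
  have hp := sba_pos w'
  have h2 : (rp w' : ℝ) ≠ 0 := by
    have : 0 < rp w' := hp.2.2.2.1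
    positivity
  have h3 := sbq_alg (a := lq w) (b := rq w) (c := lp w) (d := rp w) (a' := lq w') (b' := rq w') (c' := lp w')
    (d' := rp w') hdet h1 (Or.inr h2) (fun y => hcon y)
  have h4 : lq w * rq w' = lq w' * rq w := by exact_mod_cast h3
  have h5 : lq w ∣ lq w' := (sbq_cop w).dvd_of_dvd_mul_right (Dvd.intro _ h4)
  have h6 : lq w' ∣ lq w := (sbq_cop w').dvd_of_dvd_mul_right (Dvd.intro _ h4.symm)
  have h7 : lq w = lq w' := Nat.dvd_antisymm h5 h6
  have h8 : rq w = rq w' := by
    rw [h7] at h4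
    exact (Nat.eq_of_mul_eq_mul_left (by have := hp.1; omega) h4).symm
  exact hne (sba_word h7 h8)

/-! ### Step 2 -/

/-- greedy choice of separated points -/
private theorem sbq_greedy (δ : ℝ) (hδ : 0 ≤ δ) : ∀ (n : ℕ) (E : Set ℝ), IsCompact E →
    ENNReal.ofReal (n * δ) < volume E →
    ∃ y : ℕ → ℝ, (∀ i ≤ n, y i ∈ E) ∧ ∀ i < n, y i + δ ≤ y (i + 1) := by
  intro n
  induction n with
  | zero =>
    intro E hE h
    have h1 : E.Nonempty := by
      rw [nonempty_iff_ne_empty]
      intro h2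
      rw [h2, measure_empty] at h
      exact absurd h (not_lt.2 zero_le)
    obtain ⟨x, hx⟩ := h1
    exact ⟨fun _ => x, fun _ _ => hx, fun i hi => absurd hi (Nat.not_lt_zero _)⟩
  | succ n ih =>
    intro E hE h
    have h1 : E.Nonempty := by
      rw [nonempty_iff_ne_empty]
      intro h2
      rw [h2, measure_empty] at h
      exact absurd h (not_lt.2 zero_le)
    obtain ⟨x, hx⟩ : ∃ x, x = sInf E := ⟨_, rfl⟩
    have hxE : x ∈ E := by rw [hx]; exact hE.sInf_mem h1
    have hle : ∀ z ∈ E, x ≤ z := fun z hz => by rw [hx]; exact csInf_le hE.bddBelow hz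
    have h2 : E ⊆ Ico x (x + δ) ∪ (E ∩ Ici (x + δ)) := by
      intro z hz
      rcases lt_or_ge z (x + δ) with h3 | h3
      · exact Or.inl ⟨hle z hz, h3⟩
      · exact Or.inr ⟨hz, h3⟩
    have h3 : volume E ≤ ENNReal.ofReal δ + volume (E ∩ Ici (x + δ)) := by
      refine (measure_mono h2).trans ((measure_union_le _ _).trans ?_)
      rw [Real.volume_Ico]
      simp
    have h4 : ENNReal.ofReal (n * δ) < volume (E ∩ Ici (x + δ)) := by
      have h5 : ENNReal.ofReal ((n + 1 : ℕ) * δ) = ENNReal.ofReal δ + ENNReal.ofReal (n * δ) := by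
        rw [← ENNReal.ofReal_add hδ (by positivity)]
        congr 1
        push_cast
        ring
      rw [h5] at h
      exact (ENNReal.add_lt_add_iff_left ENNReal.ofReal_ne_top).1 (h.trans_le h3)
    obtain ⟨y, hy1, hy2⟩ := ih (E ∩ Ici (x + δ)) (hE.inter_right isClosed_Ici) h4
    refine ⟨fun i => if i = 0 then x else y (i - 1), ?_, ?_⟩
    · intro i hi
      by_cases h0 : i = 0
      · simp [h0, hxE]
      · simp only [h0, if_false]
        exact (hy1 (i - 1) (by omega)).1
    · intro i hi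
      by_cases h0 : i = 0
      · subst h0
        simp only [if_true, zero_add, one_ne_zero, if_false, Nat.sub_self]
        exact (hy1 0 (by omega)).2
      · have h1' : i + 1 ≠ 0 := by omega
        simp only [h0, h1', if_false]
        have := hy2 (i - 1) (by omega)
        rw [show i - 1 + 1 = i + 1 - 1 by omega] at this
        exact this

private theorem sbq_sep {y : ℕ → ℝ} {δ : ℝ} (hδ : 0 ≤ δ) {n : ℕ} (h : ∀ i < n, y i + δ ≤ y (i + 1)) :
    ∀ i j, i < j → j ≤ n → y i + δ ≤ y j := by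
  intro i j hij hj
  induction j with
  | zero => omega
  | succ j ih =>
    rcases Nat.lt_succ_iff_lt_or_eq.1 hij with h1 | h1
    · have := ih h1 (by omega)
      have h2 := h j (by omega)
      linarith
    · subst h1
      exact h i (by omega)

/-- a nonzero integer polynomial is not small at separated points -/
private theorem sbq_poly {P : Polynomial ℤ} (hP : P ≠ 0) (hd : P.natDegree ≤ 4) {y : ℕ → ℝ} {δ l : ℝ} (hδ : 0 < δ)
    (hδ1 : δ ≤ 1) (hl : 0 ≤ l) (h : ∀ i < 4, y i + δ ≤ y (i + 1))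
    (hy : ∀ i ≤ 4, |(P.map (Int.castRingHom ℝ)).eval (y i)| ≤ l) : δ ^ 4 ≤ 5 * l := by
  have hsep := sbq_sep hδ.le h
  obtain ⟨d, hdd⟩ : ∃ d, d = P.natDegree := ⟨_, rfl⟩
  have hd4 : d ≤ 4 := by omega
  obtain ⟨R, hR⟩ : ∃ R : Polynomial ℝ, R = P.map (Int.castRingHom ℝ) := ⟨_, rfl⟩
  have hRd : R.natDegree = d := by
    rw [hR, Polynomial.natDegree_map_eq_of_injective Int.cast_injective, hdd]
  have hinj : Set.InjOn y (Finset.range (d + 1) : Finset ℕ) := by
    intro i hi j hj hij
    rw [Finset.coe_range, mem_Iio] at hi hj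
    rcases lt_trichotomy i j with h1 | h1 | h1
    · have := hsep i j h1 (by omega)
      linarith
    · exact h1
    · have := hsep j i h1 (by omega)
      linarith
  have hdeg : R.degree < (Finset.range (d + 1)).card := by
    rw [Finset.card_range]
    refine lt_of_le_of_lt Polynomial.degree_le_natDegree ?_
    rw [hRd]
    exact_mod_cast Nat.lt_succ_self d
  have h1 := Lagrange.coeff_eq_sum hinj hdeg
  rw [Finset.card_range, Nat.add_sub_cancel] at h1
  have h2 : (1 : ℝ) ≤ |R.coeff d| := by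
    have h3 : P.coeff d ≠ 0 := by
      rw [hdd, Polynomial.coeff_natDegree]
      exact Polynomial.leadingCoeff_ne_zero.2 hP
    rw [hR, Polynomial.coeff_map]
    have h4 : (1 : ℤ) ≤ |P.coeff d| := Int.one_le_abs h3
    have h5 : ((1 : ℤ) : ℝ) ≤ ((|P.coeff d| : ℤ) : ℝ) := by exact_mod_cast h4
    rw [Int.cast_one, Int.cast_abs] at h5
    exact h5
  have h3 : |R.coeff d| ≤ ∑ i ∈ Finset.range (d + 1), l / δ ^ d := by
    rw [h1]
    refine (Finset.abs_sum_le_sum_abs _ _).trans (Finset.sum_le_sum fun i hi => ?_)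
    rw [Finset.mem_range] at hi
    rw [abs_div, Finset.abs_prod]
    have h4 : δ ^ d ≤ ∏ j ∈ (Finset.range (d + 1)).erase i, |y i - y j| := by
      have h5 : ((Finset.range (d + 1)).erase i).card = d := by
        rw [Finset.card_erase_of_mem (Finset.mem_range.2 hi), Finset.card_range]
        rfl
      have h8 : δ ^ d = ∏ _j ∈ (Finset.range (d + 1)).erase i, δ := by
        rw [Finset.prod_const, h5]
      rw [h8]
      refine Finset.prod_le_prod (fun _ _ => hδ.le) fun j hj => ?_
      rw [Finset.mem_erase, Finset.mem_range] at hj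
      rcases lt_or_gt_of_ne hj.1 with h6 | h6
      · have := hsep j i h6 (by omega)
        rw [abs_of_nonneg (by linarith)]
        linarith
      · have := hsep i j h6 (by omega)
        rw [abs_of_nonpos (by linarith)]
        linarith
    have h7 : |R.eval (y i)| ≤ l := by rw [hR]; exact hy i (by omega)
    exact div_le_div₀ hl h7 (pow_pos hδ d) h4
  rw [Finset.sum_const, Finset.card_range, nsmul_eq_mul] at h3
  have h4 : (1 : ℝ) ≤ ((d + 1 : ℕ) : ℝ) * (l / δ ^ d) := h2.trans h3
  have h5 : δ ^ d ≤ ((d + 1 : ℕ) : ℝ) * l := by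
    have h6 : 0 < δ ^ d := pow_pos hδ d
    rw [← mul_div_assoc, le_div_iff₀ h6, one_mul] at h4
    exact h4
  have h6 : δ ^ 4 ≤ δ ^ d := pow_le_pow_of_le_one hδ.le hδ1 hd4
  have h7 : ((d + 1 : ℕ) : ℝ) ≤ 5 := by exact_mod_cast (by omega : d + 1 ≤ 5)
  nlinarith [mul_le_mul_of_nonneg_right h7 hl]

/-- the integer polynomial of QQ w -/
private noncomputable def sbq_P (w : List Bool) : Polynomial ℤ :=
  (Polynomial.C ((rq w : ℤ) - lq w) * Polynomial.X + Polynomial.C (lq w : ℤ)) ^ 2 *
    ((Polynomial.C ((rp w : ℤ) - lp w) * Polynomial.X + Polynomial.C (lp w : ℤ)) *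
      ((Polynomial.C ((rq w : ℤ) - lq w) * Polynomial.X + Polynomial.C (lq w : ℤ)) -
        (Polynomial.C ((rp w : ℤ) - lp w) * Polynomial.X + Polynomial.C (lp w : ℤ))))

private theorem sbq_P_deg (w : List Bool) : (sbq_P w).natDegree ≤ 4 := by
  unfold sbq_P
  compute_degree

private theorem sbq_P_eval (w : List Bool) (y : ℝ) :
    ((sbq_P w).map (Int.castRingHom ℝ)).eval y = QQ w y := by
  unfold sbq_P
  rw [sbq_form]
  simp
  ring

theorem sep : ∃ C : ℝ, 0 < C ∧ ∀ w w' : List Bool, w ≠ w' → w ≠ [] → w' ≠ [] → ∀ l : ℝ, 0 ≤ l →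
    volume {y : ℝ | y ∈ Icc (0:ℝ) 1 ∧ |QQ w y - QQ w' y| ≤ l} ≤
      ENNReal.ofReal (C * l ^ (1 / 4 : ℝ)) := by
  refine ⟨10, by norm_num, fun w w' hne hw _ l hl => ?_⟩
  obtain ⟨P, hP⟩ : ∃ P : Polynomial ℤ, P = sbq_P w - sbq_P w' := ⟨_, rfl⟩
  have hev : ∀ y : ℝ, (P.map (Int.castRingHom ℝ)).eval y = QQ w y - QQ w' y := by
    intro y
    rw [hP, Polynomial.map_sub, Polynomial.eval_sub, sbq_P_eval, sbq_P_eval]
  have hP0 : P ≠ 0 := by
    intro h0
    obtain ⟨y, hy⟩ := sbq_distinct hne hw
    have h1 := hev y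
    rw [h0, Polynomial.map_zero, Polynomial.eval_zero] at h1
    exact hy (by linarith)
  have hPd : P.natDegree ≤ 4 := by
    rw [hP]
    exact (Polynomial.natDegree_sub_le _ _).trans (max_le (sbq_P_deg w) (sbq_P_deg w'))
  obtain ⟨E, hE⟩ : ∃ E : Set ℝ, E = {y : ℝ | y ∈ Icc (0:ℝ) 1 ∧ |QQ w y - QQ w' y| ≤ l} := ⟨_, rfl⟩
  have hcont : Continuous fun y : ℝ => QQ w y - QQ w' y := by
    have h1 : (fun y : ℝ => QQ w y - QQ w' y) = fun y => (P.map (Int.castRingHom ℝ)).eval y := by
      funext y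
      rw [hev]
    rw [h1]
    exact Polynomial.continuous _
  have hEc : IsCompact E := by
    have h1 : E = Icc (0 : ℝ) 1 ∩ {y | |QQ w y - QQ w' y| ≤ l} := by rw [hE]; rfl
    rw [h1]
    exact isCompact_Icc.inter_right (isClosed_le hcont.abs continuous_const)
  rw [← hE]
  -- the key estimate
  have key : ∀ s : ℝ, 0 < s → ENNReal.ofReal s < volume E → s ^ 4 ≤ 5 * 5 ^ 4 * l := by
    intro s hs h
    have h1 : ENNReal.ofReal ((4 : ℕ) * (s / 5)) < volume E := by
      refine lt_of_le_of_lt (ENNReal.ofReal_le_ofReal ?_) h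
      push_cast
      linarith
    obtain ⟨y, hy1, hy2⟩ := sbq_greedy (s / 5) (by positivity) 4 E hEc h1
    have hy0 := hy1 0 (by norm_num)
    have hy1' := hy1 1 (by norm_num)
    rw [hE] at hy0 hy1'
    have hδ1 : s / 5 ≤ 1 := by
      have h3 := hy2 0 (by norm_num)
      have h4 := hy0.1.1
      have h5 := hy1'.1.2
      rw [zero_add] at h3
      linarith
    have h2 := sbq_poly hP0 hPd (δ := s / 5) (l := l) (by positivity) hδ1 hl hy2 (fun i hi => by
      have h3 := hy1 i hi
      rw [hE] at h3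
      rw [hev]
      exact h3.2)
    rw [div_pow, div_le_iff₀ (by norm_num)] at h2
    linarith
  by_contra hcon
  rw [not_le] at hcon
  -- choose s slightly bigger
  obtain ⟨s, hs1, hs2⟩ : ∃ s : ℝ, 10 * l ^ (1 / 4 : ℝ) < s ∧ ENNReal.ofReal s < volume E := by
    have hfin : volume E ≠ ⊤ := hEc.measure_lt_top.ne
    rw [← ENNReal.ofReal_toReal hfin] at hcon ⊢
    have h1 : 10 * l ^ (1 / 4 : ℝ) < (volume E).toReal := (ENNReal.ofReal_lt_ofReal_iff_of_nonneg (by positivity)).1 hcon
    obtain ⟨s, hs1, hs2⟩ := exists_between h1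
    have h0 : 0 ≤ 10 * l ^ (1 / 4 : ℝ) := by positivity
    exact ⟨s, hs1, (ENNReal.ofReal_lt_ofReal_iff_of_nonneg (h0.trans hs1.le)).2 hs2⟩
  have h0 : 0 ≤ 10 * l ^ (1 / 4 : ℝ) := by positivity
  have hs : 0 < s := lt_of_le_of_lt h0 hs1
  have h1 := key s hs hs2
  have h2 : (10 * l ^ (1 / 4 : ℝ)) ^ 4 < s ^ 4 := pow_lt_pow_left₀ hs1 h0 (by norm_num)
  have h3 : (10 * l ^ (1 / 4 : ℝ)) ^ 4 = 10000 * l := by
    rw [mul_pow, ← Real.rpow_natCast (l ^ (1 / 4 : ℝ)), ← Real.rpow_mul hl]
    norm_num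
  rw [h3] at h2
  nlinarith

end Pool.H52.MQ
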