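import Pool.Agent.H52.MQ.SBN
import Pool.Agent.H52.MQ.SBQ

/-! Module EXP (project MP_935a4b_QM): exceptional pairs of words.  Uses SBN (nn_bounds, nn_var), SBQ (sep), SBA.
w /= w', both nonempty.  For k in S: c_k < d_k, d_k - c_k <= eta <= 1/100, and some real t_k lies in [(1-4 eta)N, (1-3 eta)N] for N = NN n w (c_k) and for N' = NN n w' (c_k).
So (1-4eta)N <= (1-3eta)N' and (1-4eta)N' <= (1-3eta)N: |N - N'| <= 2 eta N' (eta <= 1/100).  For y in [c_k,d_k] nn_var gives |NN n w y - N| <= C eta N and the same for w', so |NN n w' y ^2 - NN n w y ^2| <= C eta (NN n w' y)^2 (C absolute;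
 for C eta > 1/2 use the trivial final bound below).  nn_bounds: NN^2 * QQ = n^2 y(1-y), so |QQ w y - QQ w' y| = QQ w y |NN'^2 - NN^2|/NN'^2 <= C eta QQ w y <= C eta H^4 (QQ = DD^2 AA BB <= DD^4/4, DD <= hh w <= H).
Hence the intervals of S lie in {y in [0,1] : |QQ w y - QQ w' y| <= C eta H^4}, and sep gives sum (d_k - c_k) <= C (C eta H^4)^(1/4) <= C' eta^(1/4) H.
(If C eta > 1/2: sum (d_k-c_k) <= 1/3 <= C' eta^(1/4) H for C' large, as H >= 2.)  The intervals are pairwise disjoint so the sum is the measure of the union. -/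

open MeasureTheory Set
open scoped ENNReal

namespace Pool.H52.MQ

theorem EXP_QQ_nonneg (w : List Bool) {y : ℝ} (hy : y ∈ Icc (0:ℝ) 1) : 0 ≤ QQ w y := by
  obtain ⟨_, _, h3, h4⟩ := sba_DD w hy
  unfold QQ
  positivity

theorem EXP_QQ_le (w : List Bool) {y H : ℝ} (hy : y ∈ Icc (0:ℝ) 1) (hH : (hh w : ℝ) ≤ H) :
    QQ w y ≤ H ^ 4 / 4 := by
  obtain ⟨h1, h2, h3, h4⟩ := sba_DD w hy
  have h5 : AA w y * BB w y ≤ DD w y ^ 2 / 4 := by
    have h6 : BB w y = DD w y - AA w y := rfl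
    rw [h6]
    nlinarith [sq_nonneg (DD w y - 2 * AA w y)]
  unfold QQ
  have h6 : DD w y ≤ H := h2.trans hH
  have h7 : DD w y ^ 4 ≤ H ^ 4 := pow_le_pow_left₀ (by linarith) h6 4
  calc DD w y ^ 2 * (AA w y * BB w y) ≤ DD w y ^ 2 * (DD w y ^ 2 / 4) :=
        mul_le_mul_of_nonneg_left h5 (by positivity)
    _ = DD w y ^ 4 / 4 := by ring
    _ ≤ H ^ 4 / 4 := by linarith

/-- the arithmetic of the comparison -/
theorem EXP_arith {x η N N' M M' : ℝ} (hη : 0 < η) (hη1 : η ≤ 1 / 100) (hx : η ≤ x) (hx1 : x ≤ 1 / 2)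
    (hN : 0 < N) (hM' : 0 < M') (hM : 0 < M)
    (h1 : (1 - 4 * η) * N ≤ (1 - 3 * η) * N') (h2 : M ≤ (1 + x) * N) (h3 : N' ≤ (1 + x) * M') :
    M ^ 2 ≤ (1 + 39 * x) * M' ^ 2 := by
  have h4 : N ≤ (1 + 2 * x) * N' := by
    have hN' : 0 ≤ N' := by
      by_contra hcon
      push Not at hcon
      have h5 : 0 < (1 - 4 * η) * N := mul_pos (by linarith) hN
      have h6 : (1 - 3 * η) * N' ≤ 0 := mul_nonpos_of_nonneg_of_nonpos (by linarith) hcon.le
      linarith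
    have h5 : (1 - 3 * η) ≤ (1 + 2 * η) * (1 - 4 * η) := by nlinarith
    have h6 : (1 - 3 * η) * N' ≤ (1 + 2 * η) * (1 - 4 * η) * N' := mul_le_mul_of_nonneg_right h5 hN'
    have h7 : (1 - 4 * η) * N ≤ (1 - 4 * η) * ((1 + 2 * η) * N') := by linarith
    have h8 : N ≤ (1 + 2 * η) * N' := le_of_mul_le_mul_left h7 (by linarith)
    have h9 : (1 + 2 * η) * N' ≤ (1 + 2 * x) * N' := mul_le_mul_of_nonneg_right (by linarith) hN'
    linarith
  have hx0 : 0 < x := by linarith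
  have h5 : M ≤ (1 + x) * ((1 + 2 * x) * ((1 + x) * M')) := by
    refine h2.trans (mul_le_mul_of_nonneg_left ?_ (by linarith))
    exact h4.trans (mul_le_mul_of_nonneg_left h3 (by linarith))
  have h6 : M ^ 2 ≤ ((1 + x) * ((1 + 2 * x) * ((1 + x) * M'))) ^ 2 := pow_le_pow_left₀ hM.le h5 2
  have h7 : ((1 + x) * ((1 + 2 * x) * (1 + x))) ^ 2 ≤ 1 + 39 * x := by
    have h8 : (1 + x) * ((1 + 2 * x) * (1 + x)) = 1 + x * (4 + 5 * x + 2 * x ^ 2) := by ring
    have h9 : x * (4 + 5 * x + 2 * x ^ 2) ≤ x * 7 := by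
      apply mul_le_mul_of_nonneg_left _ hx0.le
      nlinarith
    have h10 : 0 ≤ x * (4 + 5 * x + 2 * x ^ 2) := by positivity
    rw [h8]
    have h11 : (1 + x * (4 + 5 * x + 2 * x ^ 2)) ^ 2 ≤ (1 + x * 7) ^ 2 :=
      pow_le_pow_left₀ (by linarith) (by linarith) 2
    refine h11.trans ?_
    nlinarith
  have h8 : ((1 + x) * ((1 + 2 * x) * ((1 + x) * M'))) ^ 2 =
      ((1 + x) * ((1 + 2 * x) * (1 + x))) ^ 2 * M' ^ 2 := by ring
  rw [h8] at h6
  exact h6.trans (mul_le_mul_of_nonneg_right h7 (by positivity))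

theorem exp_pair : ∃ C : ℝ, 1 ≤ C ∧ ∀ (n : ℕ) (w w' : List Bool) (H η : ℝ) (S : Finset ℕ) (c d : ℕ → ℝ),
    1 ≤ n → w ≠ w' → w ≠ [] → w' ≠ [] → (hh w : ℝ) ≤ H → (hh w' : ℝ) ≤ H → 0 < η → η ≤ 1 / 100 →
    (∀ k ∈ S, 1 / 3 ≤ c k ∧ c k < d k ∧ d k ≤ 2 / 3 ∧ d k - c k ≤ η) →
    (∀ k ∈ S, ∀ k' ∈ S, k ≠ k' → Disjoint (Ioo (c k) (d k)) (Ioo (c k') (d k'))) →
    (∀ k ∈ S, ∃ t : ℝ, (1 - 4 * η) * NN n w (c k) ≤ t ∧ t ≤ (1 - 3 * η) * NN n w (c k) ∧
      (1 - 4 * η) * NN n w' (c k) ≤ t ∧ t ≤ (1 - 3 * η) * NN n w' (c k)) →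
    ∑ k ∈ S, (d k - c k) ≤ C * η ^ (1 / 4 : ℝ) * H := by
  obtain ⟨C₀, hC₀, hsep⟩ := sep
  obtain ⟨C₁, hC₁, hvar⟩ := nn_var
  refine ⟨C₀ * (10 * C₁) ^ (1 / 4 : ℝ) + 1, ?_, ?_⟩
  · have : 0 ≤ C₀ * (10 * C₁) ^ (1 / 4 : ℝ) := by positivity
    linarith
  intro n w w' H η S c d hn hne hw hw' hH hH' hη hη1 hcd hdis ht
  have hH0 : 0 ≤ H := le_trans (Nat.cast_nonneg _) hH
  have hn' : (1 : ℝ) ≤ n := by exact_mod_cast hn
  -- positivity
  have hpos : ∀ (v : List Bool) (y : ℝ), y ∈ Icc (1/3:ℝ) (2/3) → 0 < NN n v y := by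
    intro v y hy
    have h1 := (nn_bounds n v hy).2.2.2.2.2.2.1
    have h2 := (sba_DD v (y := y) ⟨by linarith [hy.1], by linarith [hy.2]⟩).1
    refine lt_of_lt_of_le ?_ h1
    positivity
  -- the comparison on the intervals
  have hkey : ∀ k ∈ S, ∀ y ∈ Ioo (c k) (d k), y ∈ Icc (0:ℝ) 1 ∧
      |QQ w y - QQ w' y| ≤ 10 * C₁ * η * H ^ 4 := by
    intro k hk y hy
    obtain ⟨hc1, hc2, hc3, hc4⟩ := hcd k hk
    have hyI : y ∈ Icc (1/3:ℝ) (2/3) := ⟨by linarith [hy.1], by linarith [hy.2]⟩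
    have hcI : c k ∈ Icc (1/3:ℝ) (2/3) := ⟨hc1, by linarith⟩
    have hy01 : y ∈ Icc (0:ℝ) 1 := ⟨by linarith [hyI.1], by linarith [hyI.2]⟩
    refine ⟨hy01, ?_⟩
    have q1 := EXP_QQ_nonneg w hy01
    have q2 := EXP_QQ_nonneg w' hy01
    have q3 := EXP_QQ_le w hy01 hH
    have q4 := EXP_QQ_le w' hy01 hH'
    have hH4 : 0 ≤ H ^ 4 := by positivity
    rcases le_or_gt (C₁ * η) (1 / 2) with hx | hx
    · obtain ⟨t, t1, t2, t3, t4⟩ := ht k hk
      have hyc : |y - c k| ≤ η := by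
        rw [abs_of_nonneg (by linarith [hy.1])]
        linarith [hy.2]
      have hcy : |c k - y| ≤ η := by rwa [abs_sub_comm]
      have hN := hpos w (c k) hcI
      have hN' := hpos w' (c k) hcI
      have hM := hpos w y hyI
      have hM' := hpos w' y hyI
      have a1 : ∀ v : List Bool, NN n v y ≤ (1 + C₁ * η) * NN n v (c k) := by
        intro v
        have b1 := (hvar n v (c k) y hcI hyI).1
        have b2 := hpos v (c k) hcI
        have b3 : C₁ * |y - c k| * NN n v (c k) ≤ C₁ * η * NN n v (c k) := by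
          apply mul_le_mul_of_nonneg_right _ b2.le
          apply mul_le_mul_of_nonneg_left hyc (by linarith)
        have b4 := (abs_le.1 b1).2
        linarith
      have a2 : ∀ v : List Bool, NN n v (c k) ≤ (1 + C₁ * η) * NN n v y := by
        intro v
        have b1 := (hvar n v y (c k) hyI hcI).1
        have b2 := hpos v y hyI
        have b3 : C₁ * |c k - y| * NN n v y ≤ C₁ * η * NN n v y := by
          apply mul_le_mul_of_nonneg_right _ b2.le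
          apply mul_le_mul_of_nonneg_left hcy (by linarith)
        have b4 := (abs_le.1 b1).2
        linarith
      have hηx : η ≤ C₁ * η := by nlinarith
      have e1 := EXP_arith hη hη1 hηx hx hN hM' hM (t1.trans t4) (a1 w) (a2 w')
      have e2 := EXP_arith hη hη1 hηx hx hN' hM hM' (t3.trans t2) (a1 w') (a2 w)
      have p1 := (nn_bounds n w hyI).2.2.2.2.2.2.2.2
      have p2 := (nn_bounds n w' hyI).2.2.2.2.2.2.2.2
      have p3 : NN n w y ^ 2 * QQ w y = NN n w' y ^ 2 * QQ w' y := by rw [p1, p2]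
      have hMsq : 0 < NN n w y ^ 2 := by positivity
      have hMsq' : 0 < NN n w' y ^ 2 := by positivity
      have r1 : QQ w' y ≤ (1 + 39 * (C₁ * η)) * QQ w y := by
        have r2 : NN n w' y ^ 2 * QQ w' y ≤ NN n w' y ^ 2 * ((1 + 39 * (C₁ * η)) * QQ w y) := by
          rw [← p3]
          have := mul_le_mul_of_nonneg_right e1 q1
          linarith
        exact le_of_mul_le_mul_left r2 hMsq'
      have r2 : QQ w y ≤ (1 + 39 * (C₁ * η)) * QQ w' y := by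
        have r3 : NN n w y ^ 2 * QQ w y ≤ NN n w y ^ 2 * ((1 + 39 * (C₁ * η)) * QQ w' y) := by
          rw [p3]
          have := mul_le_mul_of_nonneg_right e2 q2
          linarith
        exact le_of_mul_le_mul_left r3 hMsq
      have hx0 : 0 < C₁ * η := by positivity
      have r3 : C₁ * η * QQ w y ≤ C₁ * η * (H ^ 4 / 4) := mul_le_mul_of_nonneg_left q3 hx0.le
      have r4 : C₁ * η * QQ w' y ≤ C₁ * η * (H ^ 4 / 4) := mul_le_mul_of_nonneg_left q4 hx0.le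
      have r5 : 0 ≤ C₁ * η * H ^ 4 := by positivity
      rw [abs_le]
      constructor <;> linarith
    · have r5 : 1 / 2 * H ^ 4 ≤ C₁ * η * H ^ 4 := mul_le_mul_of_nonneg_right hx.le hH4
      rw [abs_le]
      constructor <;> linarith
  -- the measure
  have hl : 0 ≤ 10 * C₁ * η * H ^ 4 := by positivity
  have hs := hsep w w' hne hw hw' _ hl
  have hsub : (⋃ k ∈ S, Ioo (c k) (d k)) ⊆
      {y : ℝ | y ∈ Icc (0:ℝ) 1 ∧ |QQ w y - QQ w' y| ≤ 10 * C₁ * η * H ^ 4} := by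
    intro y hy
    simp only [mem_iUnion] at hy
    obtain ⟨k, hk, hy⟩ := hy
    exact hkey k hk y hy
  have hm := (measure_mono hsub).trans hs
  rw [measure_biUnion_finset (fun k hk k' hk' hkk => hdis k hk k' hk' hkk)
    (fun k _ => measurableSet_Ioo)] at hm
  simp only [Real.volume_Ioo] at hm
  rw [← ENNReal.ofReal_sum_of_nonneg (fun k hk => by linarith [(hcd k hk).2.1]),
    ENNReal.ofReal_le_ofReal_iff (by positivity)] at hm
  refine hm.trans ?_
  have h1 : (10 * C₁ * η * H ^ 4) ^ (1 / 4 : ℝ) = (10 * C₁) ^ (1 / 4 : ℝ) * η ^ (1 / 4 : ℝ) * H := by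
    rw [Real.mul_rpow (by positivity) (by positivity), Real.mul_rpow (by positivity) hη.le]
    congr 1
    rw [← Real.rpow_natCast, ← Real.rpow_mul hH0]
    norm_num
  rw [h1]
  have h2 : 0 ≤ η ^ (1 / 4 : ℝ) * H := by positivity
  linarith

/-- abstract selection: disjoint ranges, choose the minimiser in each. -/
theorem sel_choice {κ : Type*} (W : Finset κ) (n : ℕ) (R : κ → Finset ℕ) (N : κ → ℝ) (e : ℝ)
    (he : 0 < e) (f : ℕ → ℝ) (hf : ∀ m, 0 ≤ f m) (hR : ∀ x ∈ W, R x ⊆ Finset.range n)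
    (hdis : ∀ x ∈ W, ∀ x' ∈ W, x ≠ x' → Disjoint (R x) (R x'))
    (hcard : ∀ x ∈ W, e * N x ≤ (R x).card) (hpos : ∀ x ∈ W, 0 < N x) :
    ∃ m : κ → ℕ, (∀ x ∈ W, m x ∈ R x) ∧
      ∑ x ∈ W, N x * f (m x) ≤ 1 / e * ∑ k ∈ Finset.range n, f k := by
  classical
  have h1 : ∀ x, ∃ m, x ∈ W → m ∈ R x ∧ ∀ k ∈ R x, f m ≤ f k := by
    intro x
    by_cases hx : x ∈ W
    · have h2 : (0 : ℝ) < (R x).card := lt_of_lt_of_le (mul_pos he (hpos x hx)) (hcard x hx)
      have h3 : (R x).Nonempty := Finset.card_pos.1 (by exact_mod_cast h2)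
      obtain ⟨m, hm, hmin⟩ := Finset.exists_min_image (R x) f h3
      exact ⟨m, fun _ => ⟨hm, hmin⟩⟩
    · exact ⟨0, fun h => absurd h hx⟩
  choose m hm using h1
  refine ⟨m, fun x hx => (hm x hx).1, ?_⟩
  have h2 : ∀ x ∈ W, e * (N x * f (m x)) ≤ ∑ k ∈ R x, f k := by
    intro x hx
    calc e * (N x * f (m x)) = (e * N x) * f (m x) := by ring
      _ ≤ (R x).card * f (m x) := mul_le_mul_of_nonneg_right (hcard x hx) (hf _)
      _ = ∑ k ∈ R x, f (m x) := by rw [Finset.sum_const, nsmul_eq_mul]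
      _ ≤ ∑ k ∈ R x, f k := Finset.sum_le_sum fun k hk => (hm x hx).2 k hk
  have h3 := Finset.sum_le_sum h2
  rw [← Finset.mul_sum, ← Finset.sum_biUnion (fun x hx x' hx' hne => hdis x hx x' hx' hne)] at h3
  have h4 : ∑ k ∈ W.biUnion R, f k ≤ ∑ k ∈ Finset.range n, f k := by
    apply Finset.sum_le_sum_of_subset_of_nonneg
    · intro k hk
      rw [Finset.mem_biUnion] at hk
      obtain ⟨x, hx, hk⟩ := hk
      exact hR x hx hk
    · intro k _ _
      exact hf k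
  rw [one_div, ← div_eq_inv_mul, le_div_iff₀ he]
  linarith

end Pool.H52.MQ
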