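import Pool.Agent.H52.MQ.UCB

/-! Module UCC (project MP_935a4b_QM): existence of the Verblunsky coefficients.  Uses UCA (UCB optional).
sigma probability on the unit circle with int |P|^2 dsigma > 0 for every nonzero polynomial P.
Construct alpha by strong recursion: given alpha_0..alpha_{n-1} (so Ph_n, Pt_n are determined; PS alpha n depends only on alpha restricted to k < n: lemma by induction) put
  conj(alpha_n) := (int w Ph_n dsigma)/(int |Ph_n|^2 dsigma).
Claim by induction on n: (O_n) Ph_n orthogonal to w^j, j<n; hence (S_n) Pt_n orthogonal to w^j, 1<=j<=n (Pt_n = w^n conj Ph_n on the circle) and int Pt_n dsigma = int |Ph_n|^2 dsigma =: N_n > 0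
 (int Pt_n = conj int Ph_n conj(w^n) and int Ph_n conj(w^n) = int Ph_n conj(Ph_n) by (O_n) and monicity; real).
 Step: Ph_{n+1} = w Ph_n - conj(alpha_n) Pt_n: for 1<=j<=n: int w Ph_n conj(w^j) = int Ph_n conj(w^{j-1}) = 0 and int Pt_n conj(w^j) = 0; for j = 0: int w Ph_n - conj(alpha_n) N_n = 0.  So (O_{n+1}).
 |alpha_n| < 1: ||Ph_n||^2 = ||w Ph_n||^2 = ||Ph_{n+1}||^2 + |alpha_n|^2 ||Pt_n||^2 (Ph_{n+1} is orthogonal to Pt_n, degree <= n) and ||Pt_n|| = ||Ph_n||, ||Ph_{n+1}|| > 0.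
To define the sequence in Lean it may be convenient to construct the pairs (Ph_n,Pt_n) with their alpha_n by recursion (Nat.rec on the pair of polynomials, alpha_n a function of the pair) and then show that PS alpha gives the same pairs. -/

open MeasureTheory Set Polynomial
open scoped ENNReal ComplexConjugate

namespace Pool.H52.MQ

theorem UCC_ae {σ : Measure ℂ} (hc : σ (Metric.sphere 0 1)ᶜ = 0) : ∀ᵐ w ∂σ, ‖w‖ = 1 := by
  rw [ae_iff]
  have h : {w : ℂ | ¬ ‖w‖ = 1} = (Metric.sphere 0 1)ᶜ := by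
    ext w
    simp
  rw [h]
  exact hc

theorem UCC_int {σ : Measure ℂ} (hp : IsProbabilityMeasure σ) (hc : σ (Metric.sphere 0 1)ᶜ = 0)
    {f : ℂ → ℂ} (hf : Continuous f) : Integrable f σ := by
  obtain ⟨K, hK⟩ := (isCompact_sphere (0 : ℂ) 1).exists_bound_of_continuousOn hf.continuousOn
  apply Integrable.of_bound hf.aestronglyMeasurable K
  filter_upwards [UCC_ae hc] with w hw
  exact hK w (by simpa using hw)

theorem UCC_cont (P : ℂ[X]) : Continuous (fun w : ℂ => P.eval w) := P.continuous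

theorem UCC_cont2 (P Q : ℂ[X]) : Continuous (fun w : ℂ => P.eval w * conj (Q.eval w)) :=
  P.continuous.mul (Complex.continuous_conj.comp Q.continuous)

theorem UCC_cont3 (P : ℂ[X]) (j : ℕ) : Continuous (fun w : ℂ => P.eval w * conj (w ^ j)) :=
  P.continuous.mul (Complex.continuous_conj.comp (continuous_id.pow j))

theorem UCC_orth {σ : Measure ℂ} (hp : IsProbabilityMeasure σ) (hc : σ (Metric.sphere 0 1)ᶜ = 0)
    {P Q : ℂ[X]} {n : ℕ} (h : ∀ j < n, ∫ w, P.eval w * conj (w ^ j) ∂σ = 0) (hQ : Q.degree < n) :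
    ∫ w, P.eval w * conj (Q.eval w) ∂σ = 0 := by
  by_cases hQ0 : Q = 0
  · simp [hQ0]
  have hn : Q.natDegree < n := (Polynomial.natDegree_lt_iff_degree_lt hQ0).mpr hQ
  have e : ∀ w : ℂ, P.eval w * conj (Q.eval w)
      = ∑ j ∈ Finset.range n, conj (Q.coeff j) * (P.eval w * conj (w ^ j)) := by
    intro w
    rw [Polynomial.eval_eq_sum_range' hn, map_sum, Finset.mul_sum]
    apply Finset.sum_congr rfl
    intro j _
    rw [map_mul]
    ring
  simp_rw [e]
  rw [integral_finsetSum]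
  · apply Finset.sum_eq_zero
    intro j hj
    rw [integral_const_mul, h j (Finset.mem_range.mp hj), mul_zero]
  · intro j _
    exact (UCC_int hp hc (UCC_cont3 P j)).const_mul _

theorem UCC_normsq {σ : Measure ℂ} (P : ℂ[X]) :
    ∫ w, P.eval w * conj (P.eval w) ∂σ = ((∫ w, ‖P.eval w‖ ^ 2 ∂σ : ℝ) : ℂ) := by
  have h : ((∫ w, ‖P.eval w‖ ^ 2 ∂σ : ℝ) : ℂ) = ∫ w, ((‖P.eval w‖ ^ 2 : ℝ) : ℂ) ∂σ := integral_ofReal.symm
  rw [h]
  congr 1
  ext w
  rw [Complex.mul_conj']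
  push_cast
  rfl

theorem UCC_add4 {σ : Measure ℂ} {f g h k : ℂ → ℂ} (hf : Integrable f σ) (hg : Integrable g σ)
    (hh : Integrable h σ) (hk : Integrable k σ) :
    ∫ w, (f w + g w + h w + k w) ∂σ = ∫ w, f w ∂σ + ∫ w, g w ∂σ + ∫ w, h w ∂σ + ∫ w, k w ∂σ := by
  have h1 : Integrable (fun w => f w + g w) σ := hf.add hg
  have h2 : Integrable (fun w => f w + g w + h w) σ := h1.add hh
  rw [integral_add h2 hk, integral_add h1 hh, integral_add hf hg]

theorem UCC_conj {σ : Measure ℂ} (f : ℂ → ℂ) : ∫ w, conj (f w) ∂σ = conj (∫ w, f w ∂σ) := integral_conj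

/-- one step of the recursion -/
theorem UCC_step {σ : Measure ℂ} (hp : IsProbabilityMeasure σ) (hc : σ (Metric.sphere 0 1)ᶜ = 0)
    {P Q : ℂ[X]} {n : ℕ} {a : ℂ} (hO : ∀ j < n, ∫ w, P.eval w * conj (w ^ j) ∂σ = 0)
    (hstar : ∀ w : ℂ, ‖w‖ = 1 → Q.eval w = w ^ n * conj (P.eval w))
    (hPm : (X ^ n - P : ℂ[X]).degree < n) (hQd : Q.degree < (n + 1 : ℕ))
    (hN : 0 < ∫ w, ‖P.eval w‖ ^ 2 ∂σ)
    (ha : conj a = (∫ w, w * P.eval w ∂σ) / ((∫ w, ‖P.eval w‖ ^ 2 ∂σ : ℝ) : ℂ)) :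
    (∀ j < n + 1, ∫ w, (X * P - C (conj a) * Q).eval w * conj (w ^ j) ∂σ = 0) ∧
    ∫ w, ‖P.eval w‖ ^ 2 ∂σ = ∫ w, ‖(X * P - C (conj a) * Q).eval w‖ ^ 2 ∂σ
      + ‖a‖ ^ 2 * ∫ w, ‖P.eval w‖ ^ 2 ∂σ := by
  have hae := UCC_ae hc
  have hw1 : ∀ w : ℂ, ‖w‖ = 1 → w * conj w = 1 := by
    intro w hw
    rw [Complex.mul_conj', hw]
    norm_num
  -- star relations
  have hS : ∀ j, j ≤ n → ∫ w, Q.eval w * conj (w ^ j) ∂σ = conj (∫ w, P.eval w * conj (w ^ (n - j)) ∂σ) := by
    intro j hj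
    rw [← UCC_conj]
    apply integral_congr_ae
    filter_upwards [hae] with w hw
    have e1 : w ^ n = w ^ (n - j) * w ^ j := by rw [← pow_add, Nat.sub_add_cancel hj]
    have e2 : w ^ j * conj (w ^ j) = 1 := by
      rw [map_pow, ← mul_pow, hw1 w hw, one_pow]
    rw [hstar w hw, map_mul, Complex.conj_conj, e1]
    calc w ^ (n - j) * w ^ j * conj (P.eval w) * conj (w ^ j)
        = conj (P.eval w) * w ^ (n - j) * (w ^ j * conj (w ^ j)) := by ring
      _ = conj (P.eval w) * w ^ (n - j) := by rw [e2, mul_one]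
  have hPn : ∫ w, P.eval w * conj (w ^ n) ∂σ = ((∫ w, ‖P.eval w‖ ^ 2 ∂σ : ℝ) : ℂ) := by
    have e0 := UCC_orth hp hc hO hPm
    have e1 : ∫ w, P.eval w * conj (w ^ n) ∂σ
        = ∫ w, P.eval w * conj ((X ^ n - P : ℂ[X]).eval w) + P.eval w * conj (P.eval w) ∂σ := by
      congr 1
      ext w
      rw [Polynomial.eval_sub, Polynomial.eval_pow, Polynomial.eval_X, map_sub]
      ring
    rw [e1, integral_add (UCC_int hp hc (UCC_cont2 P _)) (UCC_int hp hc (UCC_cont2 P P)), e0, zero_add,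
      UCC_normsq]
  have hQ0 : ∫ w, Q.eval w ∂σ = ((∫ w, ‖P.eval w‖ ^ 2 ∂σ : ℝ) : ℂ) := by
    have e1 := hS 0 (Nat.zero_le n)
    simp only [pow_zero, map_one, mul_one, Nat.sub_zero] at e1
    rw [e1, hPn, Complex.conj_ofReal]
  have hQj : ∀ j, 1 ≤ j → j ≤ n → ∫ w, Q.eval w * conj (w ^ j) ∂σ = 0 := by
    intro j hj1 hj2
    rw [hS j hj2, hO (n - j) (by omega), map_zero]
  have hev : ∀ w : ℂ, (X * P - C (conj a) * Q).eval w = w * P.eval w - conj a * Q.eval w := by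
    intro w
    simp
  have hO' : ∀ j < n + 1, ∫ w, (X * P - C (conj a) * Q).eval w * conj (w ^ j) ∂σ = 0 := by
    intro j hj
    have e1 : ∫ w, (X * P - C (conj a) * Q).eval w * conj (w ^ j) ∂σ
        = ∫ w, ((X * P).eval w * conj (w ^ j) - conj a * (Q.eval w * conj (w ^ j))) ∂σ := by
      congr 1
      ext w
      rw [hev w, Polynomial.eval_mul, Polynomial.eval_X]
      ring
    rw [e1, integral_sub (UCC_int hp hc (UCC_cont3 _ j)) ((UCC_int hp hc (UCC_cont3 Q j)).const_mul _),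
      integral_const_mul]
    rcases Nat.eq_zero_or_pos j with h0 | h0
    · subst h0
      simp only [pow_zero, map_one, mul_one, Polynomial.eval_mul, Polynomial.eval_X]
      rw [hQ0, ha]
      have hN' : ((∫ w, ‖P.eval w‖ ^ 2 ∂σ : ℝ) : ℂ) ≠ 0 := by exact_mod_cast hN.ne'
      rw [div_mul_cancel₀ _ hN', sub_self]
    · rw [hQj j h0 (by omega), mul_zero, sub_zero]
      have e2 : ∫ w, (X * P).eval w * conj (w ^ j) ∂σ = ∫ w, P.eval w * conj (w ^ (j - 1)) ∂σ := by
        apply integral_congr_ae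
        filter_upwards [hae] with w hw
        obtain ⟨i, rfl⟩ : ∃ i, j = i + 1 := ⟨j - 1, by omega⟩
        rw [Polynomial.eval_mul, Polynomial.eval_X, pow_succ, map_mul, Nat.add_sub_cancel]
        calc w * P.eval w * (conj (w ^ i) * conj w) = P.eval w * conj (w ^ i) * (w * conj w) := by ring
          _ = P.eval w * conj (w ^ i) := by rw [hw1 w hw, mul_one]
      rw [e2, hO (j - 1) (by omega)]
  refine ⟨hO', ?_⟩
  have hcross : ∫ w, (X * P - C (conj a) * Q).eval w * conj (Q.eval w) ∂σ = 0 :=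
    UCC_orth hp hc hO' hQd
  have hcross' : ∫ w, Q.eval w * conj ((X * P - C (conj a) * Q).eval w) ∂σ = 0 := by
    have e1 : ∫ w, Q.eval w * conj ((X * P - C (conj a) * Q).eval w) ∂σ
        = conj (∫ w, (X * P - C (conj a) * Q).eval w * conj (Q.eval w) ∂σ) := by
      rw [← UCC_conj]
      congr 1
      ext w
      rw [map_mul, Complex.conj_conj]
      ring
    rw [e1, hcross, map_zero]
  have hQQ : ∫ w, Q.eval w * conj (Q.eval w) ∂σ = ((∫ w, ‖P.eval w‖ ^ 2 ∂σ : ℝ) : ℂ) := by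
    rw [← UCC_normsq]
    apply integral_congr_ae
    filter_upwards [hae] with w hw
    have e2 : w ^ n * conj (w ^ n) = 1 := by
      rw [map_pow, ← mul_pow, hw1 w hw, one_pow]
    rw [hstar w hw, map_mul, Complex.conj_conj]
    calc w ^ n * conj (P.eval w) * (conj (w ^ n) * P.eval w)
        = P.eval w * conj (P.eval w) * (w ^ n * conj (w ^ n)) := by ring
      _ = P.eval w * conj (P.eval w) := by rw [e2, mul_one]
  have hPP : ((∫ w, ‖P.eval w‖ ^ 2 ∂σ : ℝ) : ℂ)
      = ∫ w, ((X * P - C (conj a) * Q).eval w * conj ((X * P - C (conj a) * Q).eval w)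
        + conj a * (Q.eval w * conj ((X * P - C (conj a) * Q).eval w))
        + a * ((X * P - C (conj a) * Q).eval w * conj (Q.eval w))
        + (conj a * a) * (Q.eval w * conj (Q.eval w))) ∂σ := by
    rw [← UCC_normsq]
    apply integral_congr_ae
    filter_upwards [hae] with w hw
    have e3 : P.eval w * conj (P.eval w) = (w * P.eval w) * conj (w * P.eval w) := by
      rw [map_mul]
      calc P.eval w * conj (P.eval w) = P.eval w * conj (P.eval w) * 1 := by ring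
        _ = P.eval w * conj (P.eval w) * (w * conj w) := by rw [hw1 w hw]
        _ = _ := by ring
    have e4 : w * P.eval w = (X * P - C (conj a) * Q).eval w + conj a * Q.eval w := by
      rw [hev w]; ring
    rw [e3, e4, map_add, map_mul, Complex.conj_conj]
    ring
  have i1 := UCC_int hp hc (UCC_cont2 (X * P - C (conj a) * Q) (X * P - C (conj a) * Q))
  have i2 := (UCC_int hp hc (UCC_cont2 Q (X * P - C (conj a) * Q))).const_mul (conj a)
  have i3 := (UCC_int hp hc (UCC_cont2 (X * P - C (conj a) * Q) Q)).const_mul a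
  have i4 := (UCC_int hp hc (UCC_cont2 Q Q)).const_mul (conj a * a)
  rw [UCC_add4 i1 i2 i3 i4,
    integral_const_mul, integral_const_mul, integral_const_mul, hcross, hcross', hQQ, UCC_normsq,
    mul_zero, mul_zero, add_zero, add_zero] at hPP
  have e5 : conj a * a = ((‖a‖ ^ 2 : ℝ) : ℂ) := by
    rw [mul_comm, Complex.mul_conj']
    push_cast
    rfl
  rw [e5] at hPP
  exact_mod_cast hPP

/-- the coefficient attached to the polynomial P -/
noncomputable def UCC_a (σ : Measure ℂ) (P : ℂ[X]) : ℂ :=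
  conj ((∫ w, w * P.eval w ∂σ) / ((∫ w, ‖P.eval w‖ ^ 2 ∂σ : ℝ) : ℂ))

/-- the recursion on pairs -/
noncomputable def UCC_st (σ : Measure ℂ) : ℕ → ℂ[X] × ℂ[X]
  | 0 => (1, 1)
  | n + 1 => (X * (UCC_st σ n).1 - C (conj (UCC_a σ (UCC_st σ n).1)) * (UCC_st σ n).2,
      (UCC_st σ n).2 - C (UCC_a σ (UCC_st σ n).1) * (X * (UCC_st σ n).1))

theorem UCC_PS (σ : Measure ℂ) (n : ℕ) :
    PS (fun k => UCC_a σ (UCC_st σ k).1) n = UCC_st σ n := by
  induction n with
  | zero => rfl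
  | succ n ih =>
    show (X * (PS (fun k => UCC_a σ (UCC_st σ k).1) n).1
        - C (conj (UCC_a σ (UCC_st σ n).1)) * (PS (fun k => UCC_a σ (UCC_st σ k).1) n).2,
      (PS (fun k => UCC_a σ (UCC_st σ k).1) n).2
        - C (UCC_a σ (UCC_st σ n).1) * (X * (PS (fun k => UCC_a σ (UCC_st σ k).1) n).1)) = _
    rw [ih]
    rfl

theorem ucc_exists {σ : Measure ℂ} (hp : IsProbabilityMeasure σ) (hc : σ (Metric.sphere 0 1)ᶜ = 0)
    (hpos : ∀ P : ℂ[X], P ≠ 0 → 0 < ∫ w, ‖P.eval w‖ ^ 2 ∂σ) : ∃ α : ℕ → ℂ, Szego σ α := by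
  have hα : ∀ n, conj ((fun k => UCC_a σ (UCC_st σ k).1) n)
      = (∫ w, w * (Ph (fun k => UCC_a σ (UCC_st σ k).1) n).eval w ∂σ) /
        ((∫ w, ‖(Ph (fun k => UCC_a σ (UCC_st σ k).1) n).eval w‖ ^ 2 ∂σ : ℝ) : ℂ) := by
    intro n
    have e : Ph (fun k => UCC_a σ (UCC_st σ k).1) n = (UCC_st σ n).1 := by
      unfold Ph
      rw [UCC_PS]
    rw [e]
    show conj (UCC_a σ (UCC_st σ n).1) = _
    unfold UCC_a
    rw [Complex.conj_conj]
  generalize (fun k => UCC_a σ (UCC_st σ k).1) = α at hα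
  have hdeg : ∀ n, (X ^ n - Ph α n : ℂ[X]).degree < n := by
    intro n
    obtain ⟨h1, h2, -, -⟩ := uca_deg α n
    have h3 : (X ^ n : ℂ[X]).degree = n := Polynomial.degree_X_pow n
    have h4 : (X ^ n - Ph α n : ℂ[X]).degree < (X ^ n : ℂ[X]).degree := by
      apply Polynomial.degree_sub_lt_left
      · rw [h3, Polynomial.degree_eq_natDegree h1.ne_zero, h2]
      · exact pow_ne_zero n Polynomial.X_ne_zero
      · rw [h1.leadingCoeff, Polynomial.leadingCoeff_X_pow]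
    rwa [h3] at h4
  have hdegt : ∀ n, (Pt α n).degree < (n + 1 : ℕ) := by
    intro n
    obtain ⟨-, -, h3, -⟩ := uca_deg α n
    refine lt_of_le_of_lt Polynomial.degree_le_natDegree ?_
    exact_mod_cast Nat.lt_succ_of_le h3
  have hNpos : ∀ n, 0 < ∫ w, ‖(Ph α n).eval w‖ ^ 2 ∂σ := fun n => hpos _ (uca_deg α n).1.ne_zero
  have hO : ∀ n, ∀ j < n, ∫ w, (Ph α n).eval w * conj (w ^ j) ∂σ = 0 := by
    intro n
    induction n with
    | zero => intro j hj; omega
    | succ n ih =>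
      exact (UCC_step hp hc ih (fun w hw => uca_star α n hw) (hdeg n) (hdegt n) (hNpos n) (hα n)).1
  refine ⟨α, hp, hc, ?_, hO⟩
  intro n
  have h1 := (UCC_step hp hc (hO n) (fun w hw => uca_star α n hw) (hdeg n) (hdegt n) (hNpos n) (hα n)).2
  have h2 : 0 < ∫ w, ‖(X * Ph α n - C (conj (α n)) * Pt α n).eval w‖ ^ 2 ∂σ := hNpos (n + 1)
  have h3 := hNpos n
  by_contra hcon
  push Not at hcon
  have h4 : 1 ≤ ‖α n‖ ^ 2 := one_le_pow₀ hcon
  nlinarith

end Pool.H52.MQ
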