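import Pool.Agent.H52.MQ.EXD
import Pool.Agent.H52.MQ.UCC

/-! Module MSG (project MP_935a4b_QM): the comparison measure sg.  Uses EXD, UCC, OPA.
sg mu = map vp (mu restricted to [1/4,3/4]) + c * (uniform probability density on two arcs), 1/(2pi) * c * length, c = (3/2)(1-mu[1/4,3/4]); arcs 0..2pi/3 and 4pi/3..2pi have total length 4pi/3, so the
second part has mass (3/2)(1-mu[1/4,3/4]) * (4pi/3)/(2pi) = 1 - mu[1/4,3/4].
* msg_prob, msg_circ: total mass 1, carried by the unit circle.   msg_c: mu[1/4,3/4] < 1: by QM.self mu(Icc 0 (1/4)) > 0: e.g. the cell of (false false false) = [0,1/4] has mass 1/8 by sbm_map.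
  (Or directly from QM.self applied to indicators: mu [0,1/2] = 1/2, mu [0,1/3] = 1/4, mu[0,1/4] = 1/8.)
* msg_split: for Y measurable in [1/4,3/4]: sg restricted to vp '' Y is the image of mu restricted to Y: vp is injective on [1/4,3/4] with image the closed arc {exp(it) : 2pi/3 <= t <= 4pi/3}
  (arccos(2y-1) decreases from 2pi/3 to pi/3), which meets the outer arcs only in the two points t = 2pi/3, 4pi/3 (a null set for the second part).
  Hence int F dsg = int_Y F(vp y) dmu(y) + int_{(vp '' Y)^c} F dsg for F integrable wrt sg.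
* msg_lower: for F >= 0: int_{Icc (1/4) (3/4)} F(vp y) dmu <= int F dsg.
* msg_pos: a nonzero polynomial has finitely many zeros and the second part of sg has a density (constant c/(2pi) > 0) on an arc, so int |P|^2 dsg > 0.   msg_szego: ucc_exists. -/

open MeasureTheory Set Polynomial
open scoped ENNReal ComplexConjugate

namespace Pool.H52.MQ

theorem MSG_half {μ : Measure ℝ} (hμ : QM μ) {b : ℝ} (hb : 0 ≤ b) :
    μ (Icc 0 b) / 2 ≤ μ (Icc 0 (b / (1 + b))) := by
  have h := hμ.self ((Icc 0 (b / (1 + b))).indicator 1) (measurable_one.indicator measurableSet_Icc)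
  rw [lintegral_indicator_one measurableSet_Icc] at h
  rw [h]
  apply ENNReal.div_le_div_right
  refine le_trans ?_ le_self_add
  rw [← lintegral_indicator_one (μ := μ) (s := Icc 0 b) measurableSet_Icc]
  apply lintegral_mono
  intro y
  by_cases hy : y ∈ Icc 0 b
  · have h1 : y / (1 + y) ∈ Icc 0 (b / (1 + b)) := by
      have e1 : (0 : ℝ) < 1 + y := by linarith [hy.1]
      have e2 : (0 : ℝ) < 1 + b := by linarith
      refine ⟨div_nonneg hy.1 e1.le, ?_⟩
      rw [div_le_div_iff₀ e1 e2]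
      nlinarith [hy.1, hy.2]
    beta_reduce
    rw [indicator_of_mem hy, indicator_of_mem h1]
    rfl
  · rw [indicator_of_notMem hy]
    exact zero_le

theorem MSG_eighth {μ : Measure ℝ} (hμ : QM μ) : (1 / 8 : ℝ≥0∞) ≤ μ (Icc 0 (1 / 4)) := by
  have := hμ.prob
  have h0 : μ (Icc 0 1) = 1 := (prob_compl_eq_zero_iff measurableSet_Icc).1 hμ.supp
  have h1 := MSG_half hμ (b := 1) (by norm_num)
  have h2 := MSG_half hμ (b := 1 / 2) (by norm_num)
  have h3 := MSG_half hμ (b := 1 / 3) (by norm_num)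
  norm_num at h1 h2 h3
  rw [h0] at h1
  calc (1 / 8 : ℝ≥0∞) = 1 / 2 / 2 / 2 := by
        have h8 : (8 : ℝ≥0∞) = 2 * 2 * 2 := by norm_num
        rw [h8]
        simp only [div_eq_mul_inv, one_mul]
        rw [ENNReal.mul_inv (by simp) (by simp), ENNReal.mul_inv (by simp) (by simp)]
    _ ≤ μ (Icc 0 (1 / 2)) / 2 / 2 := by gcongr
    _ ≤ μ (Icc 0 (1 / 3)) / 2 := by gcongr
    _ ≤ μ (Icc 0 (1 / 4)) := h3

theorem msg_c {μ : Measure ℝ} (hμ : QM μ) : (μ (Icc (1 / 4) (3 / 4))).toReal ≤ 7 / 8 := by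
  have := hμ.prob
  have h1 := MSG_eighth hμ
  have h2 : μ (Ico 0 (1 / 4)) = μ (Icc 0 (1 / 4)) := by
    apply le_antisymm (measure_mono Ico_subset_Icc_self)
    have e : Icc (0 : ℝ) (1 / 4) ⊆ Ico 0 (1 / 4) ∪ {1 / 4} := by
      intro x hx
      rcases lt_or_eq_of_le hx.2 with h | h
      · exact Or.inl ⟨hx.1, h⟩
      · exact Or.inr h
    refine le_trans (measure_mono e) ?_
    refine le_trans (measure_union_le _ _) ?_
    rw [hμ.noatom, add_zero]
  have h3 : μ (Ico 0 (1 / 4)) + μ (Icc (1 / 4) (3 / 4)) ≤ 1 := by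
    rw [← measure_union _ measurableSet_Icc]
    · exact prob_le_one
    · rw [Set.disjoint_left]
      intro x hx hx'
      exact absurd hx.2 (not_lt.2 hx'.1)
  have h4 : (1 / 8 : ℝ) ≤ (μ (Ico 0 (1 / 4))).toReal := by
    rw [h2]
    have := ENNReal.toReal_mono (measure_ne_top μ _) h1
    simpa using this
  have h5 : (μ (Ico 0 (1 / 4))).toReal + (μ (Icc (1 / 4) (3 / 4))).toReal ≤ 1 := by
    rw [← ENNReal.toReal_add (measure_ne_top μ _) (measure_ne_top μ _)]
    have := ENNReal.toReal_mono ENNReal.one_ne_top h3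
    simpa using this
  linarith

/-- the coefficient of the outer part -/
noncomputable def MSG_k (μ : Measure ℝ) : ℝ :=
  (3 / 2) * (1 - (μ (Icc (1 / 4) (3 / 4))).toReal) / (2 * Real.pi)

theorem MSG_k_ge {μ : Measure ℝ} (hμ : QM μ) : 1 / 64 ≤ MSG_k μ := by
  have h1 := msg_c hμ
  have h2 := Real.pi_pos
  have h3 := Real.pi_le_four
  unfold MSG_k
  rw [div_le_div_iff₀ (by norm_num) (by positivity)]
  nlinarith

/-- the outer angles -/
def MSG_T : Set ℝ := Icc 0 (2 * Real.pi / 3) ∪ Icc (4 * Real.pi / 3) (2 * Real.pi)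

/-- the outer parametrisation -/
noncomputable def MSG_e (t : ℝ) : ℂ := Complex.exp (t * Complex.I)

theorem MSG_e_cont : Continuous MSG_e := by
  unfold MSG_e
  fun_prop

theorem MSG_e_norm (t : ℝ) : ‖MSG_e t‖ = 1 := Complex.norm_exp_ofReal_mul_I t

theorem MSG_sg (μ : Measure ℝ) : sg μ = (μ.restrict (Icc (1 / 4) (3 / 4))).map vp +
    ENNReal.ofReal (MSG_k μ) • ((volume.restrict MSG_T).map MSG_e) := rfl

theorem MSG_T_meas : MeasurableSet MSG_T := measurableSet_Icc.union measurableSet_Icc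

theorem MSG_e_inj {s t : ℝ} (h : |s - t| < 2 * Real.pi) (he : MSG_e s = MSG_e t) : s = t := by
  unfold MSG_e at he
  obtain ⟨n, hn⟩ := Complex.exp_eq_exp_iff_exists_int.1 he
  have h1 : (s : ℂ) = t + n * (2 * Real.pi) := by
    have h2 : (s : ℂ) * Complex.I = (t + n * (2 * Real.pi)) * Complex.I := by
      rw [hn]; ring
    exact mul_right_cancel₀ Complex.I_ne_zero h2
  have h2 : s = t + n * (2 * Real.pi) := by exact_mod_cast h1
  have h3 : |(n : ℝ)| * (2 * Real.pi) < 1 * (2 * Real.pi) := by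
    have h4 : s - t = n * (2 * Real.pi) := by linarith
    rw [h4, abs_mul, abs_of_pos (by positivity : (0 : ℝ) < 2 * Real.pi)] at h
    linarith
  have h5 : |(n : ℝ)| < 1 := lt_of_mul_lt_mul_right h3 (by positivity)
  have h6 : n = 0 := by
    have : |n| < 1 := by exact_mod_cast h5
    exact Int.abs_lt_one_iff.1 this
  rw [h2, h6]
  simp

theorem MSG_vp (y : ℝ) : vp y = MSG_e (2 * Real.arccos (2 * y - 1)) := by
  unfold vp zz MSG_e
  rw [← Complex.exp_nat_mul]
  congr 1
  push_cast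
  ring

theorem MSG_arccos {y : ℝ} (hy : y ∈ Icc (1 / 4 : ℝ) (3 / 4)) :
    2 * Real.arccos (2 * y - 1) ∈ Icc (2 * Real.pi / 3) (4 * Real.pi / 3) := by
  have h1 : Real.arccos (1 / 2) = Real.pi / 3 := by
    rw [← Real.cos_pi_div_three]
    exact Real.arccos_cos (by positivity) (by linarith [Real.pi_pos])
  have h2 : Real.arccos (-(1 / 2)) = Real.pi - Real.pi / 3 := by
    rw [Real.arccos_neg, h1]
  have h3 : Real.arccos (1 / 2) ≤ Real.arccos (2 * y - 1) :=
    Real.antitone_arccos (by linarith [hy.2])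
  have h4 : Real.arccos (2 * y - 1) ≤ Real.arccos (-(1 / 2)) :=
    Real.antitone_arccos (by linarith [hy.1])
  rw [h1] at h3
  rw [h2] at h4
  constructor <;> linarith

theorem MSG_vp_inj : InjOn vp (Icc (1 / 4 : ℝ) (3 / 4)) := by
  intro x hx y hy h
  rw [MSG_vp, MSG_vp] at h
  have h1 := MSG_arccos hx
  have h2 := MSG_arccos hy
  have h3 := MSG_e_inj (by
    rw [abs_lt]
    constructor <;> linarith [h1.1, h1.2, h2.1, h2.2, Real.pi_pos]) h
  have h4 := Real.arccos_injOn (x₁ := 2 * x - 1) (x₂ := 2 * y - 1)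
    ⟨by linarith [hx.1], by linarith [hx.2]⟩
    ⟨by linarith [hy.1], by linarith [hy.2]⟩ (by linarith)
  linarith

theorem MSG_T_vol : volume MSG_T = ENNReal.ofReal (4 * Real.pi / 3) := by
  unfold MSG_T
  have hpi := Real.pi_pos
  rw [measure_union _ measurableSet_Icc, Real.volume_Icc, Real.volume_Icc,
    ← ENNReal.ofReal_add (by linarith) (by linarith)]
  · congr 1
    ring
  · rw [Set.disjoint_left]
    intro x hx hx'
    linarith [hx.2, hx'.1]

theorem msg_prob {μ : Measure ℝ} (hμ : QM μ) : IsProbabilityMeasure (sg μ) := by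
  have := hμ.prob
  refine ⟨?_⟩
  rw [MSG_sg, Measure.add_apply, Measure.smul_apply,
    Measure.map_apply exd_vp_cont.measurable MeasurableSet.univ,
    Measure.map_apply MSG_e_cont.measurable MeasurableSet.univ, preimage_univ, preimage_univ,
    Measure.restrict_apply_univ, Measure.restrict_apply_univ, MSG_T_vol, smul_eq_mul]
  have h1 := msg_c hμ
  have h2 : 0 ≤ MSG_k μ := le_trans (by norm_num) (MSG_k_ge hμ)
  rw [← ENNReal.ofReal_mul h2]
  have hpi := Real.pi_pos
  have h3 : MSG_k μ * (4 * Real.pi / 3) = 1 - (μ (Icc (1 / 4) (3 / 4))).toReal := by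
    unfold MSG_k
    field_simp
    ring
  have h4 : μ (Icc (1 / 4) (3 / 4)) = ENNReal.ofReal (μ (Icc (1 / 4) (3 / 4))).toReal :=
    (ENNReal.ofReal_toReal (measure_ne_top μ _)).symm
  have h5 : 0 ≤ (μ (Icc (1 / 4) (3 / 4))).toReal := ENNReal.toReal_nonneg
  rw [h3]
  generalize (μ (Icc (1 / 4) (3 / 4))).toReal = x at h1 h4 h5
  rw [h4, ← ENNReal.ofReal_add h5 (by linarith)]
  simp

theorem msg_circ {μ : Measure ℝ} (hμ : QM μ) : sg μ (Metric.sphere 0 1)ᶜ = 0 := by
  have hm : MeasurableSet ((Metric.sphere (0 : ℂ) 1)ᶜ) := Metric.isClosed_sphere.measurableSet.compl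
  have h1 : vp ⁻¹' (Metric.sphere (0 : ℂ) 1)ᶜ = ∅ := by
    ext y
    simp [exd_vp_norm]
  have h2 : MSG_e ⁻¹' (Metric.sphere (0 : ℂ) 1)ᶜ = ∅ := by
    ext y
    simp [MSG_e_norm]
  rw [MSG_sg, Measure.add_apply, Measure.smul_apply,
    Measure.map_apply exd_vp_cont.measurable hm,
    Measure.map_apply MSG_e_cont.measurable hm, h1, h2]
  simp

theorem msg_vpmeas {Y : Set ℝ} (hY : MeasurableSet Y) (hY1 : Y ⊆ Icc (1 / 4) (3 / 4)) :
    MeasurableSet (vp '' Y) :=
  hY.image_of_continuousOn_injOn exd_vp_cont.continuousOn (MSG_vp_inj.mono hY1)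

/-- the restriction of the comparison measure to a central set -/
theorem MSG_restrict {μ : Measure ℝ} {Y : Set ℝ} (hY : MeasurableSet Y)
    (hY1 : Y ⊆ Icc (1 / 4) (3 / 4)) : (sg μ).restrict (vp '' Y) = (μ.restrict Y).map vp := by
  have hm := msg_vpmeas hY hY1
  have hnull : (ENNReal.ofReal (MSG_k μ) • ((volume.restrict MSG_T).map MSG_e)) (vp '' Y) = 0 := by
    rw [Measure.smul_apply, Measure.map_apply MSG_e_cont.measurable hm,
      Measure.restrict_apply (MSG_e_cont.measurable hm)]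
    have hsub : MSG_e ⁻¹' (vp '' Y) ∩ MSG_T ⊆ {2 * Real.pi / 3, 4 * Real.pi / 3} := by
      rintro t ⟨⟨y, hy, hyt⟩, ht⟩
      have hpi := Real.pi_pos
      have h1 := MSG_arccos (hY1 hy)
      rw [MSG_vp] at hyt
      have ht2 : t ∈ Icc 0 (2 * Real.pi) := by
        rcases ht with ht | ht
        · exact ⟨ht.1, by linarith [ht.2]⟩
        · exact ⟨by linarith [ht.1], ht.2⟩
      have h2 := MSG_e_inj (by
        rw [abs_lt]
        constructor <;> linarith [h1.1, h1.2, ht2.1, ht2.2]) hyt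
      rw [h2] at h1
      rcases ht with ht | ht
      · left
        exact le_antisymm ht.2 h1.1
      · right
        exact le_antisymm h1.2 ht.1
    have h0 : volume (MSG_e ⁻¹' (vp '' Y) ∩ MSG_T) = 0 :=
      measure_mono_null hsub ((Set.toFinite _).measure_zero _)
    rw [h0]
    simp
  rw [MSG_sg, Measure.restrict_add, Measure.restrict_eq_zero.2 hnull, add_zero,
    Measure.restrict_map exd_vp_cont.measurable hm,
    Measure.restrict_restrict (exd_vp_cont.measurable hm)]
  congr 2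
  ext y
  constructor
  · rintro ⟨⟨x, hx, hxy⟩, hy⟩
    have := MSG_vp_inj (hY1 hx) hy hxy
    rwa [← this]
  · intro hy
    exact ⟨⟨y, hy, rfl⟩, hY1 hy⟩

theorem MSG_intble {μ : Measure ℝ} (hμ : QM μ) {E : Type*} [NormedAddCommGroup E]
    {F : ℂ → E} (hF : Continuous F) : Integrable F (sg μ) := by
  have := msg_prob hμ
  obtain ⟨K, hK⟩ := (isCompact_sphere (0 : ℂ) 1).exists_bound_of_continuousOn hF.continuousOn
  apply Integrable.of_bound hF.aestronglyMeasurable K
  filter_upwards [UCC_ae (msg_circ hμ)] with w hw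
  exact hK w (by simpa using hw)

theorem msg_split {μ : Measure ℝ} (hμ : QM μ) {Y : Set ℝ} (hY : MeasurableSet Y)
    (hY1 : Y ⊆ Icc (1 / 4) (3 / 4)) {E : Type*} [NormedAddCommGroup E] [NormedSpace ℝ E] (F : ℂ → E)
    (hF : Continuous F) :
    ∫ w, F w ∂(sg μ) = ∫ y in Y, F (vp y) ∂μ + ∫ w in (vp '' Y)ᶜ, F w ∂(sg μ) := by
  rw [← integral_add_compl (msg_vpmeas hY hY1) (MSG_intble hμ hF), MSG_restrict hY hY1,
    integral_map exd_vp_cont.measurable.aemeasurable hF.aestronglyMeasurable]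

theorem msg_lower {μ : Measure ℝ} (hμ : QM μ) {Y : Set ℝ} (hY : MeasurableSet Y)
    (hY1 : Y ⊆ Icc (1 / 4) (3 / 4)) (F : ℂ → ℝ) (hF : Continuous F) (hF0 : ∀ w, 0 ≤ F w) :
    ∫ y in Y, F (vp y) ∂μ ≤ ∫ w, F w ∂(sg μ) := by
  rw [msg_split hμ hY hY1 F hF]
  have : 0 ≤ ∫ w in (vp '' Y)ᶜ, F w ∂(sg μ) := integral_nonneg fun w => hF0 w
  linarith

/-- mass of an arc, from below: central part -/
theorem msg_arc_in {μ : Measure ℝ} (hμ : QM μ) (c d : ℝ) (hc : 1 / 4 ≤ c) (hd : d ≤ 3 / 4)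
    (S : Set ℂ) (hS : MeasurableSet S) (hcd : ∀ y ∈ Icc c d, vp y ∈ S) :
    (μ (Icc c d)).toReal ≤ (sg μ S).toReal := by
  have := msg_prob hμ
  apply ENNReal.toReal_mono (measure_ne_top _ _)
  rw [MSG_sg, Measure.add_apply, Measure.map_apply exd_vp_cont.measurable hS,
    Measure.restrict_apply (exd_vp_cont.measurable hS)]
  refine le_trans ?_ le_self_add
  apply measure_mono
  intro y hy
  exact ⟨hcd y hy, by linarith [hy.1], by linarith [hy.2]⟩

/-- mass of an arc, from below: outer part -/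
theorem msg_arc_out {μ : Measure ℝ} (hμ : QM μ) (c d : ℝ) (hcd : c ≤ d)
    (h : Icc c d ⊆ Icc 0 (2 * Real.pi / 3) ∨ Icc c d ⊆ Icc (4 * Real.pi / 3) (2 * Real.pi))
    (S : Set ℂ) (hS : MeasurableSet S) (hS1 : ∀ t ∈ Icc c d, Complex.exp (t * Complex.I) ∈ S) :
    (d - c) / 64 ≤ (sg μ S).toReal := by
  have := msg_prob hμ
  have hk := MSG_k_ge hμ
  have h1 : ENNReal.ofReal (MSG_k μ * (d - c)) ≤ sg μ S := by
    rw [MSG_sg, Measure.add_apply, Measure.smul_apply, Measure.map_apply MSG_e_cont.measurable hS,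
      Measure.restrict_apply (MSG_e_cont.measurable hS), smul_eq_mul,
      ENNReal.ofReal_mul (by linarith)]
    refine le_trans ?_ le_add_self
    gcongr
    rw [← Real.volume_Icc]
    apply measure_mono
    intro t ht
    refine ⟨hS1 t ht, ?_⟩
    rcases h with h | h
    · exact Or.inl (h ht)
    · exact Or.inr (h ht)
  have h2 := ENNReal.toReal_mono (measure_ne_top _ _) h1
  rw [ENNReal.toReal_ofReal (by nlinarith)] at h2
  nlinarith

theorem msg_szego {μ : Measure ℝ} (hμ : QM μ) : ∃ α : ℕ → ℂ, Szego (sg μ) α := by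
  refine ucc_exists (msg_prob hμ) (msg_circ hμ) ?_
  intro P hP
  have hcont : Continuous (fun w : ℂ => ‖P.eval w‖ ^ 2) := (P.continuous.norm).pow 2
  rw [integral_pos_iff_support_of_nonneg (fun w => by positivity) (MSG_intble hμ hcont)]
  have hsupp : Function.support (fun w : ℂ => ‖P.eval w‖ ^ 2) = {w | P.IsRoot w}ᶜ := by
    ext w
    simp [Polynomial.IsRoot]
  have hfin : {w | P.IsRoot w}.Finite := Polynomial.finite_setOfPred_isRoot hP
  have hmeas : MeasurableSet ({w : ℂ | P.IsRoot w}ᶜ) := hfin.measurableSet.compl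
  rw [hsupp, MSG_sg, Measure.add_apply, Measure.smul_apply,
    Measure.map_apply MSG_e_cont.measurable hmeas,
    Measure.restrict_apply (MSG_e_cont.measurable hmeas), smul_eq_mul]
  refine lt_of_lt_of_le ?_ le_add_self
  have hk := MSG_k_ge hμ
  apply ENNReal.mul_pos
  · rw [Ne, ENNReal.ofReal_eq_zero, not_le]
    linarith
  · intro h0
    have hpi := Real.pi_pos
    have hinj : InjOn MSG_e (Icc 0 (2 * Real.pi / 3)) := by
      intro x hx y hy h
      exact MSG_e_inj (by
        rw [abs_lt]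
        constructor <;> linarith [hx.1, hx.2, hy.1, hy.2]) h
    have hfin2 : (Icc 0 (2 * Real.pi / 3) ∩ MSG_e ⁻¹' {w | P.IsRoot w}).Finite := by
      refine Set.Finite.of_finite_image (f := MSG_e) (hfin.subset ?_)
        (hinj.mono inter_subset_left)
      rintro w ⟨t, ht, rfl⟩
      exact ht.2
    have hsub : Icc 0 (2 * Real.pi / 3) ⊆ (MSG_e ⁻¹' {w | P.IsRoot w}ᶜ ∩ MSG_T) ∪
        (Icc 0 (2 * Real.pi / 3) ∩ MSG_e ⁻¹' {w | P.IsRoot w}) := by
      intro t ht
      by_cases hr : MSG_e t ∈ {w | P.IsRoot w}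
      · exact Or.inr ⟨ht, hr⟩
      · exact Or.inl ⟨hr, Or.inl ht⟩
    have h3 : volume (Icc 0 (2 * Real.pi / 3)) = 0 := by
      refine measure_mono_null hsub ?_
      rw [measure_union_null_iff]
      exact ⟨h0, hfin2.measure_zero _⟩
    rw [Real.volume_Icc, ENNReal.ofReal_eq_zero] at h3
    linarith

end Pool.H52.MQ
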