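import Pool.Agent.H52.MQ.UCA

/-! Module UCB (project MP_935a4b_QM): orthogonality relations.  Uses UCA.
Szego sigma alpha: sigma probability on the unit circle, int Ph_n conj(w^j) = 0 for j < n.  All integrands are continuous on the circle, hence bounded a.e. and integrable (sigma finite,
carried by the compact circle): state this once as ucb_int.
* ucb_star: int Pt_n conj(w^j) dsigma = 0 for 1 <= j <= n: a.e. Pt_n = w^n conj(Ph_n), so the integral is conj of int Ph_n conj(w^(n-j)) = 0 (n-j < n).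
* ucb_norm: int |Ph_n|^2 = nu_n by induction: Ph_n orthogonal to all polynomials of degree < n; |Ph_{n+1}|^2 integral = int Ph_{n+1} conj(w^{n+1}) = int Ph_{n+1} conj(w Ph_n) (difference has degree <= n)
  and w Ph_n = Ph_{n+1} + conj(a_n) Pt_n, so ||Ph_n||^2 = ||w Ph_n||^2 = ||Ph_{n+1}||^2 + |a_n|^2 ||Pt_n||^2 (Ph_{n+1} orthogonal to Pt_n of degree <= n), ||Pt_n|| = ||Ph_n||.
* ucb_orth: Ph_i, Ph_j orthogonal for i /= j.
* ucb_kernel: int |Kc(w',w)|^2 dsigma(w') = sum_{k<m} |Ph_k(w)|^2/nu_k (expand, ucb_orth). -/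

open MeasureTheory Set Polynomial
open scoped ENNReal ComplexConjugate

namespace Pool.H52.MQ

private theorem ucb_ae {σ : Measure ℂ} {α : ℕ → ℂ} (h : Szego σ α) : ∀ᵐ w ∂σ, ‖w‖ = 1 := by
  rw [ae_iff]
  have h1 := h.circ
  have h2 : {w : ℂ | ¬ ‖w‖ = 1} = (Metric.sphere 0 1)ᶜ := by
    ext w
    simp
  rw [h2]
  exact h1

theorem ucb_int {σ : Measure ℂ} {α : ℕ → ℂ} (h : Szego σ α) {E : Type*} [NormedAddCommGroup E]
    {f : ℂ → E} (hf : Continuous f) : Integrable f σ := by
  have := h.prob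
  obtain ⟨M, hM⟩ := (isCompact_sphere (0 : ℂ) 1).exists_bound_of_continuousOn hf.continuousOn
  refine Integrable.of_bound hf.aestronglyMeasurable M ?_
  filter_upwards [ucb_ae h] with w hw
  exact hM w (by simpa using hw)

private theorem ucb_wc {w : ℂ} (hw : ‖w‖ = 1) : w * conj w = 1 := by
  rw [Complex.mul_conj, Complex.normSq_eq_norm_sq, hw]
  simp

private theorem ucb_cont (P Q : ℂ[X]) : Continuous (fun w : ℂ => P.eval w * conj (Q.eval w)) := by
  have h1 : Continuous (fun w : ℂ => P.eval w) := P.continuous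
  have h2 : Continuous (fun w : ℂ => Q.eval w) := Q.continuous
  exact h1.mul (Complex.continuous_conj.comp h2)

private theorem ucb_low {σ : Measure ℂ} {α : ℕ → ℂ} (h : Szego σ α) (n : ℕ) (q : ℂ[X])
    (hq : q.natDegree < n) : ∫ w, (Ph α n).eval w * conj (q.eval w) ∂σ = 0 := by
  have h1 : ∀ w : ℂ, (Ph α n).eval w * conj (q.eval w)
      = ∑ j ∈ Finset.range n, conj (q.coeff j) * ((Ph α n).eval w * conj (w ^ j)) := by
    intro w
    rw [eval_eq_sum_range' hq, map_sum, Finset.mul_sum]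
    refine Finset.sum_congr rfl fun j _ => ?_
    rw [map_mul]
    ring
  simp_rw [h1]
  rw [integral_finsetSum]
  · refine Finset.sum_eq_zero fun j hj => ?_
    rw [integral_const_mul, h.orth n j (Finset.mem_range.1 hj), mul_zero]
  · intro j _
    refine (ucb_int h ?_).const_mul _
    have := ucb_cont (Ph α n) (X ^ j)
    simpa using this

private theorem ucb_conj {σ : Measure ℂ} (P Q : ℂ[X]) :
    ∫ w, Q.eval w * conj (P.eval w) ∂σ = conj (∫ w, P.eval w * conj (Q.eval w) ∂σ) := by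
  rw [← integral_conj]
  congr 1
  ext w
  rw [map_mul, Complex.conj_conj]
  ring

theorem ucb_star {σ : Measure ℂ} {α : ℕ → ℂ} (h : Szego σ α) (n j : ℕ) (h1 : 1 ≤ j) (h2 : j ≤ n) :
    ∫ w, (Pt α n).eval w * conj (w ^ j) ∂σ = 0 := by
  have h3 : ∫ w, (Pt α n).eval w * conj (w ^ j) ∂σ
      = ∫ w, conj ((Ph α n).eval w * conj (w ^ (n - j))) ∂σ := by
    refine integral_congr_ae ?_
    filter_upwards [ucb_ae h] with w hw
    rw [uca_star α n hw, map_mul, Complex.conj_conj]
    have h4 : w ^ n = w ^ (n - j) * w ^ j := by rw [← pow_add, Nat.sub_add_cancel h2]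
    have h5 : w ^ j * conj (w ^ j) = 1 := by
      rw [map_pow, ← mul_pow, ucb_wc hw, one_pow]
    rw [h4]
    linear_combination (w ^ (n - j) * conj ((Ph α n).eval w)) * h5
  rw [h3, integral_conj, h.orth n (n - j) (by omega), map_zero]

private theorem ucb_sq (z : ℂ) : ((‖z‖ ^ 2 : ℝ) : ℂ) = z * conj z := by
  rw [Complex.mul_conj, Complex.normSq_eq_norm_sq]

private theorem ucb_real {σ : Measure ℂ} (P : ℂ[X]) :
    ((∫ w, ‖P.eval w‖ ^ 2 ∂σ : ℝ) : ℂ) = ∫ w, P.eval w * conj (P.eval w) ∂σ := by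
  rw [← integral_complex_ofReal]
  congr 1
  ext w
  exact ucb_sq _

private theorem ucb_add4 {σ : Measure ℂ} {f1 f2 f3 f4 : ℂ → ℂ} (c1 : Integrable f1 σ)
    (c2 : Integrable f2 σ) (c3 : Integrable f3 σ) (c4 : Integrable f4 σ) :
    ∫ w, (f1 w + f2 w + f3 w + f4 w) ∂σ
      = ∫ w, f1 w ∂σ + ∫ w, f2 w ∂σ + ∫ w, f3 w ∂σ + ∫ w, f4 w ∂σ := by
  have h3 : ∫ w, (f1 w + f2 w + f3 w) ∂σ = ∫ w, f1 w ∂σ + ∫ w, f2 w ∂σ + ∫ w, f3 w ∂σ := by
    have h2 : ∫ w, (f1 w + f2 w) ∂σ = ∫ w, f1 w ∂σ + ∫ w, f2 w ∂σ := integral_add c1 c2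
    rw [← h2]
    exact integral_add (c1.add c2) c3
  rw [← h3]
  exact integral_add ((c1.add c2).add c3) c4

private theorem ucb_norm' {σ : Measure ℂ} {α : ℕ → ℂ} (h : Szego σ α) (n : ℕ) :
    ∫ w, (Ph α n).eval w * conj ((Ph α n).eval w) ∂σ = (nu α n : ℂ) := by
  induction n with
  | zero =>
    have := h.prob
    simp [Ph, PS, nu]
  | succ n ih =>
    have hdeg := (uca_deg α n).2.2.1
    have hstep : Ph α (n + 1) = X * Ph α n - C (conj (α n)) * Pt α n := rfl
    have hA : ∫ w, (Ph α (n + 1)).eval w * conj ((C (conj (α n)) * Pt α n).eval w) ∂σ = 0 := by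
      apply ucb_low h
      exact lt_of_le_of_lt (natDegree_C_mul_le _ _) (Nat.lt_succ_of_le hdeg)
    have hB : ∫ w, (C (conj (α n)) * Pt α n).eval w * conj ((Ph α (n + 1)).eval w) ∂σ = 0 := by
      rw [ucb_conj, hA, map_zero]
    have hC : ∫ w, (C (conj (α n)) * Pt α n).eval w * conj ((C (conj (α n)) * Pt α n).eval w) ∂σ
        = ((‖α n‖ ^ 2 : ℝ) : ℂ) * (nu α n : ℂ) := by
      rw [← ih, ← integral_const_mul]
      refine integral_congr_ae ?_
      filter_upwards [ucb_ae h] with w hw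
      have h5 : (w ^ n) * conj (w ^ n) = 1 := by
        rw [map_pow, ← mul_pow, ucb_wc hw, one_pow]
      rw [eval_mul, eval_C, uca_star α n hw, ucb_sq, map_mul, map_mul, Complex.conj_conj,
        Complex.conj_conj]
      linear_combination (conj (α n) * α n * (eval w (Ph α n)) * conj (eval w (Ph α n))) * h5
    have hD : ∫ w, (Ph α n).eval w * conj ((Ph α n).eval w) ∂σ
        = ∫ w, ((Ph α (n + 1)).eval w * conj ((Ph α (n + 1)).eval w)
          + (C (conj (α n)) * Pt α n).eval w * conj ((C (conj (α n)) * Pt α n).eval w)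
          + (Ph α (n + 1)).eval w * conj ((C (conj (α n)) * Pt α n).eval w)
          + (C (conj (α n)) * Pt α n).eval w * conj ((Ph α (n + 1)).eval w)) ∂σ := by
      refine integral_congr_ae ?_
      filter_upwards [ucb_ae h] with w hw
      have h6 : w * (Ph α n).eval w = (Ph α (n + 1)).eval w + (C (conj (α n)) * Pt α n).eval w := by
        rw [hstep, eval_sub, eval_mul, eval_X]
        ring
      have h7 : (w * (Ph α n).eval w) * conj (w * (Ph α n).eval w)
          = (Ph α n).eval w * conj ((Ph α n).eval w) := by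
        rw [map_mul]
        linear_combination ((Ph α n).eval w * conj ((Ph α n).eval w)) * ucb_wc hw
      rw [← h7, h6, map_add]
      ring
    have c1 := ucb_int h (ucb_cont (Ph α (n + 1)) (Ph α (n + 1)))
    have c2 := ucb_int h (ucb_cont (C (conj (α n)) * Pt α n) (C (conj (α n)) * Pt α n))
    have c3 := ucb_int h (ucb_cont (Ph α (n + 1)) (C (conj (α n)) * Pt α n))
    have c4 := ucb_int h (ucb_cont (C (conj (α n)) * Pt α n) (Ph α (n + 1)))
    have hE := hD.trans (ucb_add4 c1 c2 c3 c4)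
    rw [hA, hB, hC, ih] at hE
    have hF : (nu α (n + 1) : ℂ) = (nu α n : ℂ) * (1 - ((‖α n‖ ^ 2 : ℝ) : ℂ)) := by
      rw [nu, Finset.prod_range_succ]
      push_cast
      rw [nu]
      push_cast
      ring
    rw [hF]
    linear_combination -hE

theorem ucb_norm {σ : Measure ℂ} {α : ℕ → ℂ} (h : Szego σ α) (n : ℕ) :
    ∫ w, ‖(Ph α n).eval w‖ ^ 2 ∂σ = nu α n := by
  have h1 := ucb_real (σ := σ) (Ph α n)
  rw [ucb_norm' h] at h1
  exact_mod_cast h1

theorem ucb_orth {σ : Measure ℂ} {α : ℕ → ℂ} (h : Szego σ α) (i j : ℕ) :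
    ∫ w, (Ph α i).eval w * conj ((Ph α j).eval w) ∂σ = if i = j then (nu α i : ℂ) else 0 := by
  rcases lt_trichotomy i j with hij | hij | hij
  · rw [if_neg hij.ne, ucb_conj, ucb_low h, map_zero]
    rw [(uca_deg α i).2.1]
    exact hij
  · subst hij
    rw [if_pos rfl, ucb_norm' h]
  · rw [if_neg hij.ne', ucb_low h]
    rw [(uca_deg α j).2.1]
    exact hij

theorem ucb_kernel {σ : Measure ℂ} {α : ℕ → ℂ} (h : Szego σ α) (m : ℕ) (w : ℂ) :
    ∫ w', ‖Kc α m w' w‖ ^ 2 ∂σ = ∑ k ∈ Finset.range m, ‖(Ph α k).eval w‖ ^ 2 / nu α k := by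
  have h1 : ((∫ w', ‖Kc α m w' w‖ ^ 2 ∂σ : ℝ) : ℂ)
      = ((∑ k ∈ Finset.range m, ‖(Ph α k).eval w‖ ^ 2 / nu α k : ℝ) : ℂ) := by
    rw [← integral_complex_ofReal]
    have h2 : ∀ w' : ℂ, ((‖Kc α m w' w‖ ^ 2 : ℝ) : ℂ)
        = ∑ k ∈ Finset.range m, ∑ l ∈ Finset.range m,
          (conj ((Ph α k).eval w) / (nu α k : ℂ) * ((Ph α l).eval w / (nu α l : ℂ)))
            * ((Ph α k).eval w' * conj ((Ph α l).eval w')) := by
      intro w'
      rw [ucb_sq, Kc, map_sum, Finset.sum_mul_sum]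
      refine Finset.sum_congr rfl fun k _ => Finset.sum_congr rfl fun l _ => ?_
      rw [map_div₀, map_mul, Complex.conj_conj, Complex.conj_ofReal]
      ring
    simp_rw [h2]
    have hint : ∀ k l : ℕ, Integrable (fun w' : ℂ =>
        (conj ((Ph α k).eval w) / (nu α k : ℂ) * ((Ph α l).eval w / (nu α l : ℂ)))
            * ((Ph α k).eval w' * conj ((Ph α l).eval w'))) σ :=
      fun k l => (ucb_int h (ucb_cont (Ph α k) (Ph α l))).const_mul _
    rw [integral_finsetSum _ (fun k _ => integrable_finsetSum _ fun l _ => hint k l)]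
    push_cast
    refine Finset.sum_congr rfl fun k hk => ?_
    rw [integral_finsetSum _ (fun l _ => hint k l)]
    simp_rw [integral_const_mul, ucb_orth h]
    rw [Finset.sum_eq_single k]
    · rw [if_pos rfl]
      have hnu : (nu α k : ℂ) ≠ 0 := by
        exact_mod_cast (nu_pos h.lt k).ne'
      have h3 := ucb_sq ((Ph α k).eval w)
      push_cast at h3
      rw [h3]
      field_simp
    · intro l _ hl
      rw [if_neg (Ne.symm hl), mul_zero]
    · intro hk'
      exact absurd hk hk'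
  exact_mod_cast h1

end Pool.H52.MQ
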