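import Pool.Agent.H52.MQ.ARC
import Pool.Agent.H52.MQ.MSG
import Pool.Agent.H52.MQ.UCB

/-! Module LCB (project MP_935a4b_QM): A^2 - |B|^2 >= ((1-20 delta)/(4l))^2 for a good index j.  Uses ARC, MSG, UCB, UCJ.
g = gJ l j, j in Jin l c d rho, L = 4l, Y = Ioo c d, F = |Ph_m|^2/nu_m (int F dsg = 1, ucb_norm), Hb = Ph_m conj Pt_m/nu_m (|Hb| = F on the circle, uca_abs).
hB1, hB2 are the two conclusions of ucf_local for s = s_j (ucj_sq, gJ = |s|^2, av g = 1/(4l)), B the function of ucf_local.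
A = int_Y g F(vp y) dmu = int g F dsg - int_{(vp''Y)^c} g F dsg (msg_split) >= av g - 3 delta av g - av(gB) - sup_{off} g * 1 >= (1 - 3 delta - delta - delta)/(4l) (arc_tail, htail, hgood).
|B| <= 9 delta av g + av(gB) + sup_off g <= 11 delta/(4l).   A^2 - |B|^2 >= ((1-5 delta)^2 - 121 delta^2)/(4l)^2 >= ((1-20 delta)/(4l))^2 for 0 < delta <= 1/20
((1-5d)^2-121d^2-(1-20d)^2 = 30 d - 496 d^2 >= 0). -/

open MeasureTheory Set Polynomial
open scoped ENNReal ComplexConjugate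

namespace Pool.H52.MQ

theorem lcb_arith {A b L δ : ℝ} (hL : 0 < L) (hδ : 0 < δ) (hδ1 : δ ≤ 1 / 20)
    (hA : (1 - 5 * δ) / L ≤ A) (hb0 : 0 ≤ b) (hb : b ≤ 11 * δ / L) :
    ((1 - 20 * δ) / L) ^ 2 ≤ A ^ 2 - b ^ 2 := by
  have h1 : 0 ≤ (1 - 5 * δ) / L := div_nonneg (by linarith) hL.le
  have h2 : ((1 - 5 * δ) / L) ^ 2 ≤ A ^ 2 := pow_le_pow_left₀ h1 hA 2
  have h3 : b ^ 2 ≤ (11 * δ / L) ^ 2 := pow_le_pow_left₀ hb0 hb 2
  have h4 : ((1 - 20 * δ) / L) ^ 2 ≤ ((1 - 5 * δ) / L) ^ 2 - (11 * δ / L) ^ 2 := by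
    rw [div_pow, div_pow, div_pow, ← sub_div]
    apply div_le_div_of_nonneg_right _ (by positivity)
    nlinarith
  linarith

theorem lcb_AB {μ : Measure ℝ} (hμ : QM μ) {α : ℕ → ℂ} (hα : Szego (sg μ) α) (m l j : ℕ) (hl : 1 ≤ l)
    {c d ρ δ : ℝ} (hc : 1 / 3 ≤ c) (hcd : c < d) (hd : d ≤ 2 / 3) (hρ : 0 ≤ ρ) (hδ : 0 < δ)
    (hδ1 : δ ≤ 1 / 20) (hj : j ∈ Jin l c d ρ) (htail : 10 ^ 8 / (1 + 2 * l * ρ) ^ 8 ≤ δ / (4 * l))
    (B : ℂ → ℝ) (hgood : av (fun w => gJ l j w * B w) ≤ δ / (4 * l))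
    (hB1 : |∫ w, gJ l j w * (‖(Ph α m).eval w‖ ^ 2 / nu α m) ∂(sg μ) - av (gJ l j)| ≤
        3 * δ * av (gJ l j) + av (fun w => gJ l j w * B w))
    (hB2 : ‖∫ w, (gJ l j w : ℂ) * ((Ph α m).eval w * conj ((Pt α m).eval w) / (nu α m : ℂ)) ∂(sg μ)‖ ≤
        9 * δ * av (gJ l j) + av (fun w => gJ l j w * B w)) :
    ((1 - 20 * δ) / (4 * l)) ^ 2 ≤
      (∫ y in Ioo c d, gJ l j (vp y) * (‖(Ph α m).eval (vp y)‖ ^ 2 / nu α m) ∂μ) ^ 2 -
      ‖∫ y in Ioo c d, (gJ l j (vp y) : ℂ) * ((Ph α m).eval (vp y) * conj ((Pt α m).eval (vp y)) /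
        (nu α m : ℂ)) ∂μ‖ ^ 2 := by
  have hl0 : (0 : ℝ) < 4 * l := by
    have : (1 : ℝ) ≤ l := by exact_mod_cast hl
    linarith
  have hY : MeasurableSet (Ioo c d) := measurableSet_Ioo
  have hY1 : Ioo c d ⊆ Icc (1 / 4) (3 / 4) := fun y hy => ⟨by linarith [hy.1], by linarith [hy.2]⟩
  have hnu : 0 < nu α m := nu_pos hα.lt m
  have hvm := msg_vpmeas hY hY1
  have hcirc : ∀ᵐ w ∂(sg μ), ‖w‖ = 1 := by
    rw [ae_iff]
    have h2 : {w : ℂ | ¬ ‖w‖ = 1} = (Metric.sphere 0 1)ᶜ := by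
      ext w
      simp
    rw [h2]
    exact hα.circ
  have hFc : Continuous fun w : ℂ => ‖(Ph α m).eval w‖ ^ 2 / nu α m :=
    (((Ph α m).continuous.norm).pow 2).div_const _
  have hgF : Continuous fun w : ℂ => gJ l j w * (‖(Ph α m).eval w‖ ^ 2 / nu α m) :=
    (ucj_cont l j).mul hFc
  have hHc : Continuous fun w : ℂ => (gJ l j w : ℂ) *
      ((Ph α m).eval w * conj ((Pt α m).eval w) / (nu α m : ℂ)) :=
    (Complex.continuous_ofReal.comp (ucj_cont l j)).mul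
      (((Ph α m).continuous.mul (Complex.continuous_conj.comp (Pt α m).continuous)).div_const _)
  have hint : ∫ w, ‖(Ph α m).eval w‖ ^ 2 / nu α m ∂(sg μ) = 1 := by
    rw [integral_div, ucb_norm hα, div_self hnu.ne']
  -- the off part
  have hoff : ∫ w in (vp '' Ioo c d)ᶜ, gJ l j w * (‖(Ph α m).eval w‖ ^ 2 / nu α m) ∂(sg μ) ≤
      δ / (4 * l) := by
    have hFi := ucb_int hα hFc
    have h1 : ∫ w in (vp '' Ioo c d)ᶜ, gJ l j w * (‖(Ph α m).eval w‖ ^ 2 / nu α m) ∂(sg μ) ≤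
        ∫ w in (vp '' Ioo c d)ᶜ, δ / (4 * l) * (‖(Ph α m).eval w‖ ^ 2 / nu α m) ∂(sg μ) := by
      refine setIntegral_mono_on_ae (ucb_int hα hgF).integrableOn
        (hFi.const_mul _).integrableOn hvm.compl ?_
      filter_upwards [hcirc] with w hw hw2
      refine mul_le_mul_of_nonneg_right ?_ (by positivity)
      exact (arc_tail hl hc hcd hd hρ hj hw hw2).trans htail
    have h2 : ∫ w in (vp '' Ioo c d)ᶜ, δ / (4 * l) * (‖(Ph α m).eval w‖ ^ 2 / nu α m) ∂(sg μ) ≤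
        ∫ w, δ / (4 * l) * (‖(Ph α m).eval w‖ ^ 2 / nu α m) ∂(sg μ) := by
      refine setIntegral_le_integral (hFi.const_mul _) ?_
      filter_upwards with w
      positivity
    have h3 : ∫ w, δ / (4 * l) * (‖(Ph α m).eval w‖ ^ 2 / nu α m) ∂(sg μ) = δ / (4 * l) := by
      rw [integral_const_mul, hint, mul_one]
    rw [h3] at h2
    exact h1.trans h2
  have hoff0 : 0 ≤ ∫ w in (vp '' Ioo c d)ᶜ, gJ l j w * (‖(Ph α m).eval w‖ ^ 2 / nu α m) ∂(sg μ) := by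
    refine integral_nonneg fun w => ?_
    exact mul_nonneg (ucj_nonneg l j w) (by positivity)
  have hoffH : ‖∫ w in (vp '' Ioo c d)ᶜ, (gJ l j w : ℂ) *
      ((Ph α m).eval w * conj ((Pt α m).eval w) / (nu α m : ℂ)) ∂(sg μ)‖ ≤ δ / (4 * l) := by
    refine (norm_integral_le_integral_norm _).trans ?_
    refine le_trans (le_of_eq ?_) hoff
    refine integral_congr_ae ?_
    refine ae_restrict_of_ae ?_
    filter_upwards [hcirc] with w hw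
    rw [norm_mul, norm_div, norm_mul, Complex.norm_conj, uca_abs α m hw, Complex.norm_real,
      Complex.norm_real, Real.norm_eq_abs, Real.norm_eq_abs, abs_of_nonneg (ucj_nonneg l j w),
      abs_of_pos hnu, ← sq]
  have s1 := msg_split hμ hY hY1 _ hgF
  have s2 := msg_split hμ hY hY1 _ hHc
  rw [ucj_av l j hl] at hB1 hB2
  have hA : (1 - 5 * δ) / (4 * l) ≤
      ∫ y in Ioo c d, gJ l j (vp y) * (‖(Ph α m).eval (vp y)‖ ^ 2 / nu α m) ∂μ := by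
    have h1 := (abs_le.1 hB1).1
    have h3 : (1 - 5 * δ) / (4 * l) = 1 / (4 * l) - 3 * δ * (1 / (4 * l)) - δ / (4 * l) -
        δ / (4 * (l : ℝ)) := by ring
    rw [h3]
    linarith
  have hb : ‖∫ y in Ioo c d, (gJ l j (vp y) : ℂ) * ((Ph α m).eval (vp y) *
      conj ((Pt α m).eval (vp y)) / (nu α m : ℂ)) ∂μ‖ ≤ 11 * δ / (4 * l) := by
    have h4 : ∫ y in Ioo c d, (gJ l j (vp y) : ℂ) * ((Ph α m).eval (vp y) *
      conj ((Pt α m).eval (vp y)) / (nu α m : ℂ)) ∂μ =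
      ∫ w, (gJ l j w : ℂ) * ((Ph α m).eval w * conj ((Pt α m).eval w) / (nu α m : ℂ)) ∂(sg μ) -
      ∫ w in (vp '' Ioo c d)ᶜ, (gJ l j w : ℂ) *
      ((Ph α m).eval w * conj ((Pt α m).eval w) / (nu α m : ℂ)) ∂(sg μ) := by
      rw [s2]
      ring
    rw [h4]
    refine (norm_sub_le _ _).trans ?_
    have h5 : 11 * δ / (4 * l) = 9 * δ * (1 / (4 * l)) + δ / (4 * l) + δ / (4 * (l : ℝ)) := by ring
    rw [h5]
    linarith
  exact lcb_arith hl0 hδ hδ1 hA (norm_nonneg _) hb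

end Pool.H52.MQ
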