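import Pool.Agent.H52.MQ.ARC
import Pool.Agent.H52.MQ.MSG
import Pool.Agent.H52.MQ.UCB

/-! Module LCC (project MP_935a4b_QM): the localiser costs little.  Uses ARC (arc_lip_lower), EXD, MSG, UCB, UCJ.
y,y' in Y = Ioo c d inside [1/3,2/3], w = vp y, w' = vp y', D = |w - w_j|, D' = |w'-w_j|: |y-y'| <= |w-w'| <= D + D'.
0 <= 1 - Qf r y y' <= r (y-y')^2 (Bernoulli).  |Khat| = |Kc|.  So the integrand is <= g g' r^2 (y-y')^6 |Kc|^2, and (y-y')^6 <= (D+D')^6 <= 64 (D^6 + D'^6), g(w) D^6 <= 10^8 D^6/(1+4lD)^8 <= 10^8/(4l)^6, g' <= 1 (ucj_sum, nonneg).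
Hence the integrand is <= C r^2 l^(-6) |Kc(vp y', vp y)|^2.  int_{Y} |Kc(vp y', vp y)|^2 dmu(y') <= int |Kc(w', vp y)|^2 dsg = kc y (msg_lower, ucb_kernel), int_Y kc dmu <= int sum_{k<m}|Ph_k|^2/nu_k dsg = m (msg_lower, ucb_norm). -/

open MeasureTheory Set Polynomial
open scoped ENNReal ComplexConjugate

namespace Pool.H52.MQ

/-- the localiser is close to one -/
private theorem LCC_Q (r : ℕ) {y y' : ℝ} (h : |y - y'| ≤ 1) :
    |1 - Qf r y y'| ≤ r * (y - y') ^ 2 := by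
  have h0 : 0 ≤ (y - y') ^ 2 := sq_nonneg _
  have h1 : (y - y') ^ 2 ≤ 1 := by
    rw [← sq_abs]
    exact pow_le_one₀ (abs_nonneg _) h
  have h2 := one_add_mul_le_pow (a := -(y' - y) ^ 2) (by nlinarith) r
  have h3 : (1 + -(y' - y) ^ 2) ^ r = Qf r y y' := by
    unfold Qf
    ring
  have h4 : Qf r y y' ≤ 1 := by
    rw [← h3]
    refine pow_le_one₀ ?_ ?_
    · nlinarith
    · nlinarith
  rw [h3] at h2
  rw [abs_of_nonneg (by linarith)]
  nlinarith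

private theorem LCC_g (l j : ℕ) (hl : 1 ≤ l) {w : ℂ} (hw : ‖w‖ = 1) :
    gJ l j w ≤ 10 ^ 8 ∧ gJ l j w * ‖w - ww (4 * l) j‖ ^ 6 ≤ 10 ^ 8 / (l : ℝ) ^ 6 := by
  have h := ucj_decay l j hl hw
  have hl0 : (1 : ℝ) ≤ l := by exact_mod_cast hl
  set D : ℝ := ‖w - ww (4 * l) j‖ with hD
  have hD0 : 0 ≤ D := norm_nonneg _
  have h1 : 1 ≤ 1 + 4 * l * D := by
    have : 0 ≤ 4 * l * D := by positivity
    linarith
  have h2 : (1 : ℝ) ≤ (1 + 4 * l * D) ^ 8 := one_le_pow₀ h1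
  have h3 : (l : ℝ) ^ 6 * D ^ 6 ≤ (1 + 4 * l * D) ^ 8 := by
    have e1 : (l : ℝ) ^ 6 * D ^ 6 = (l * D) ^ 6 := by ring
    have e2 : (l * D) ^ 6 ≤ (1 + 4 * l * D) ^ 6 := by
      refine pow_le_pow_left₀ (by positivity) ?_ 6
      have : 0 ≤ l * D := by positivity
      linarith
    have e3 : (1 + 4 * l * D) ^ 6 ≤ (1 + 4 * l * D) ^ 8 := pow_le_pow_right₀ h1 (by norm_num)
    rw [e1]
    exact e2.trans e3
  constructor
  · refine h.trans ?_
    rw [div_le_iff₀ (by positivity)]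
    nlinarith
  · have h4 : gJ l j w * D ^ 6 ≤ 10 ^ 8 / (1 + 4 * l * D) ^ 8 * D ^ 6 :=
      mul_le_mul_of_nonneg_right h (by positivity)
    refine h4.trans ?_
    rw [div_mul_eq_mul_div, div_le_div_iff₀ (by positivity) (by positivity)]
    nlinarith

private theorem LCC_gg (l j : ℕ) (hl : 1 ≤ l) {y y' : ℝ} (hy : y ∈ Icc (1 / 4 : ℝ) (3 / 4))
    (hy' : y' ∈ Icc (1 / 4 : ℝ) (3 / 4)) :
    gJ l j (vp y) * gJ l j (vp y') * (y - y') ^ 6 ≤ 2 * 10 ^ 16 / (l : ℝ) ^ 6 := by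
  have h1 := arc_lip_lower hy hy'
  obtain ⟨a1, a2⟩ := LCC_g l j hl (exd_vp_norm y)
  obtain ⟨b1, b2⟩ := LCC_g l j hl (exd_vp_norm y')
  have a0 := ucj_nonneg l j (vp y)
  have b0 := ucj_nonneg l j (vp y')
  set D : ℝ := ‖vp y - ww (4 * l) j‖ with hD
  set D' : ℝ := ‖vp y' - ww (4 * l) j‖ with hD'
  have hD0 : 0 ≤ D := norm_nonneg _
  have hD0' : 0 ≤ D' := norm_nonneg _
  have h2 : ‖vp y - vp y'‖ ≤ D + D' := by
    have e : vp y - vp y' = (vp y - ww (4 * l) j) - (vp y' - ww (4 * l) j) := by ring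
    rw [e]
    exact norm_sub_le _ _
  have h3 : |y - y'| ≤ max D D' := by
    have := le_max_left D D'
    have := le_max_right D D'
    linarith
  have h4 : (y - y') ^ 6 ≤ D ^ 6 + D' ^ 6 := by
    have e1 : (y - y') ^ 6 = |y - y'| ^ 6 := by
      rw [← abs_pow]
      exact (abs_of_nonneg (by positivity)).symm
    have e2 : |y - y'| ^ 6 ≤ (max D D') ^ 6 := pow_le_pow_left₀ (abs_nonneg _) h3 6
    have e3 : (max D D') ^ 6 ≤ D ^ 6 + D' ^ 6 := by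
      rcases max_choice D D' with h | h
      · rw [h]
        have : 0 ≤ D' ^ 6 := by positivity
        linarith
      · rw [h]
        have : 0 ≤ D ^ 6 := by positivity
        linarith
    rw [e1]
    exact e2.trans e3
  have h5 : gJ l j (vp y) * gJ l j (vp y') * (y - y') ^ 6 ≤
      gJ l j (vp y) * gJ l j (vp y') * (D ^ 6 + D' ^ 6) :=
    mul_le_mul_of_nonneg_left h4 (mul_nonneg a0 b0)
  have h6 : gJ l j (vp y) * D ^ 6 * gJ l j (vp y') ≤ 10 ^ 8 / (l : ℝ) ^ 6 * 10 ^ 8 :=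
    mul_le_mul a2 b1 b0 (by positivity)
  have h7 : gJ l j (vp y') * D' ^ 6 * gJ l j (vp y) ≤ 10 ^ 8 / (l : ℝ) ^ 6 * 10 ^ 8 :=
    mul_le_mul b2 a1 a0 (by positivity)
  have h8 : 2 * 10 ^ 16 / (l : ℝ) ^ 6 = 10 ^ 8 / (l : ℝ) ^ 6 * 10 ^ 8 +
      10 ^ 8 / (l : ℝ) ^ 6 * 10 ^ 8 := by ring
  rw [h8]
  nlinarith

/-- the pointwise bound -/
private theorem LCC_pt (α : ℕ → ℂ) (m r l j : ℕ) (hl : 1 ≤ l) {y y' : ℝ}
    (hy : y ∈ Icc (1 / 4 : ℝ) (3 / 4)) (hy' : y' ∈ Icc (1 / 4 : ℝ) (3 / 4)) :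
    gJ l j (vp y) * gJ l j (vp y') * ((y - y') ^ 2 * ‖Khat α m y' y * (1 - (Qf r y y' : ℂ))‖ ^ 2)
      ≤ 2 * 10 ^ 16 / (l : ℝ) ^ 6 * (r : ℝ) ^ 2 * ‖Kc α m (vp y') (vp y)‖ ^ 2 := by
  have h1 := LCC_gg l j hl hy hy'
  have hd : |y - y'| ≤ 1 := by
    rw [abs_le]
    constructor
    · linarith [hy.1, hy'.2]
    · linarith [hy.2, hy'.1]
  have h2 := LCC_Q r hd
  have a0 := ucj_nonneg l j (vp y)
  have b0 := ucj_nonneg l j (vp y')
  have h3 : ‖(1 - (Qf r y y' : ℂ))‖ = |1 - Qf r y y'| := by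
    rw [← Complex.ofReal_one, ← Complex.ofReal_sub, Complex.norm_real, Real.norm_eq_abs]
  rw [norm_mul, exd_khat_norm, h3, mul_pow]
  have h4 : |1 - Qf r y y'| ^ 2 ≤ ((r : ℝ) * (y - y') ^ 2) ^ 2 :=
    pow_le_pow_left₀ (abs_nonneg _) h2 2
  set K : ℝ := ‖Kc α m (vp y') (vp y)‖ ^ 2 with hK
  have hK0 : 0 ≤ K := by positivity
  have h5 : gJ l j (vp y) * gJ l j (vp y') * ((y - y') ^ 2 * (K * |1 - Qf r y y'| ^ 2)) ≤
      gJ l j (vp y) * gJ l j (vp y') * ((y - y') ^ 2 * (K * ((r : ℝ) * (y - y') ^ 2) ^ 2)) := by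
    refine mul_le_mul_of_nonneg_left ?_ (mul_nonneg a0 b0)
    refine mul_le_mul_of_nonneg_left ?_ (sq_nonneg _)
    exact mul_le_mul_of_nonneg_left h4 hK0
  refine h5.trans ?_
  have h6 : gJ l j (vp y) * gJ l j (vp y') *
      ((y - y') ^ 2 * (K * ((r : ℝ) * (y - y') ^ 2) ^ 2)) =
      gJ l j (vp y) * gJ l j (vp y') * (y - y') ^ 6 * ((r : ℝ) ^ 2 * K) := by ring
  rw [h6, mul_assoc (2 * 10 ^ 16 / (l : ℝ) ^ 6)]
  exact mul_le_mul_of_nonneg_right h1 (by positivity)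

private theorem LCC_Kcont (α : ℕ → ℂ) (m : ℕ) (w : ℂ) :
    Continuous (fun w' : ℂ => ‖Kc α m w' w‖ ^ 2) := by
  have h : Continuous (fun w' : ℂ => Kc α m w' w) := by
    unfold Kc
    refine continuous_finsetSum _ fun k _ => ?_
    exact ((Ph α k).continuous.mul continuous_const).div_const _
  exact h.norm.pow 2

private theorem LCC_intOn {μ : Measure ℝ} (hμ : QM μ) {f : ℝ → ℝ} (hf : Continuous f) (c d : ℝ) :
    Integrable f (μ.restrict (Ioo c d)) := by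
  have := hμ.prob
  have h1 : IntegrableOn f (Icc c d) μ := hf.continuousOn.integrableOn_compact isCompact_Icc
  exact h1.mono_set Ioo_subset_Icc_self

theorem lcc_loc : ∃ C : ℝ, 0 < C ∧ ∀ (μ : Measure ℝ) (α : ℕ → ℂ), QM μ → Szego (sg μ) α →
    ∀ (m r l j : ℕ) (c d : ℝ), 1 ≤ l → 1 / 3 ≤ c → c < d → d ≤ 2 / 3 →
      1 / 2 * ∫ y in Ioo c d, ∫ y' in Ioo c d, gJ l j (vp y) * gJ l j (vp y') *
        ((y - y') ^ 2 * ‖Khat α m y' y * (1 - (Qf r y y' : ℂ))‖ ^ 2) ∂μ ∂μ ≤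
      C * (r : ℝ) ^ 2 * m / (l : ℝ) ^ 6 := by
  refine ⟨10 ^ 16, by positivity, ?_⟩
  intro μ α hμ hα m r l j c d hl hc hcd hd
  have := hμ.prob
  have hsub : Ioo c d ⊆ Icc (1 / 4 : ℝ) (3 / 4) := by
    intro y hy
    exact ⟨by linarith [hy.1], by linarith [hy.2]⟩
  set M : ℝ := 2 * 10 ^ 16 / (l : ℝ) ^ 6 * (r : ℝ) ^ 2 with hM
  have hM0 : 0 ≤ M := by positivity
  have hnu : ∀ k, 0 < nu α k := fun k => by
    unfold nu
    refine Finset.prod_pos fun i _ => ?_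
    have h1 := hα.lt i
    have h2 := norm_nonneg (α i)
    nlinarith
  set G : ℂ → ℝ := fun w => ∑ k ∈ Finset.range m, ‖(Ph α k).eval w‖ ^ 2 / nu α k with hG
  have hGc : Continuous G := by
    rw [hG]
    refine continuous_finsetSum _ fun k _ => ?_
    exact (((Ph α k).continuous.norm).pow 2).div_const _
  have hG0 : ∀ w, 0 ≤ G w := fun w => by
    refine Finset.sum_nonneg fun k _ => ?_
    have := hnu k
    positivity
  have hGi : ∫ w, G w ∂(sg μ) = m := by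
    rw [hG, integral_finsetSum]
    · have h1 : ∀ k ∈ Finset.range m, ∫ w, ‖(Ph α k).eval w‖ ^ 2 / nu α k ∂(sg μ) = 1 := by
        intro k _
        rw [integral_div, ucb_norm hα, div_self (hnu k).ne']
      rw [Finset.sum_congr rfl h1]
      simp
    · intro k _
      exact (ucb_int hα (((Ph α k).continuous.norm).pow 2)).div_const _
  -- the inner integral
  have hin : ∀ y ∈ Ioo c d, ∫ y' in Ioo c d, gJ l j (vp y) * gJ l j (vp y') *
      ((y - y') ^ 2 * ‖Khat α m y' y * (1 - (Qf r y y' : ℂ))‖ ^ 2) ∂μ ≤ M * G (vp y) := by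
    intro y hy
    have h1 : ∫ y' in Ioo c d, gJ l j (vp y) * gJ l j (vp y') *
        ((y - y') ^ 2 * ‖Khat α m y' y * (1 - (Qf r y y' : ℂ))‖ ^ 2) ∂μ ≤
        ∫ y' in Ioo c d, M * ‖Kc α m (vp y') (vp y)‖ ^ 2 ∂μ := by
      refine integral_mono_of_nonneg ?_ ?_ ?_
      · refine Filter.Eventually.of_forall fun y' => ?_
        exact mul_nonneg (mul_nonneg (ucj_nonneg _ _ _) (ucj_nonneg _ _ _)) (by positivity)
      · refine LCC_intOn hμ ?_ c d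
        exact continuous_const.mul ((LCC_Kcont α m (vp y)).comp exd_vp_cont)
      · refine (ae_restrict_iff' measurableSet_Ioo).2 (Filter.Eventually.of_forall fun y' hy' => ?_)
        exact LCC_pt α m r l j hl (hsub hy) (hsub hy')
    have h2 : ∫ y' in Ioo c d, ‖Kc α m (vp y') (vp y)‖ ^ 2 ∂μ ≤ G (vp y) := by
      have h3 := msg_lower hμ (Y := Ioo c d) measurableSet_Ioo hsub
        (fun w' => ‖Kc α m w' (vp y)‖ ^ 2) (LCC_Kcont α m (vp y)) (fun w => by positivity)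
      rwa [ucb_kernel hα] at h3
    rw [integral_const_mul] at h1
    exact h1.trans (mul_le_mul_of_nonneg_left h2 hM0)
  have hout : ∫ y in Ioo c d, ∫ y' in Ioo c d, gJ l j (vp y) * gJ l j (vp y') *
      ((y - y') ^ 2 * ‖Khat α m y' y * (1 - (Qf r y y' : ℂ))‖ ^ 2) ∂μ ∂μ ≤ M * m := by
    have h1 : ∫ y in Ioo c d, ∫ y' in Ioo c d, gJ l j (vp y) * gJ l j (vp y') *
        ((y - y') ^ 2 * ‖Khat α m y' y * (1 - (Qf r y y' : ℂ))‖ ^ 2) ∂μ ∂μ ≤
        ∫ y in Ioo c d, M * G (vp y) ∂μ := by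
      refine integral_mono_of_nonneg ?_ ?_ ?_
      · refine Filter.Eventually.of_forall fun y => ?_
        refine integral_nonneg fun y' => ?_
        exact mul_nonneg (mul_nonneg (ucj_nonneg _ _ _) (ucj_nonneg _ _ _)) (by positivity)
      · refine LCC_intOn hμ ?_ c d
        exact continuous_const.mul (hGc.comp exd_vp_cont)
      · refine (ae_restrict_iff' measurableSet_Ioo).2 (Filter.Eventually.of_forall fun y hy => ?_)
        exact hin y hy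
    have h2 := msg_lower hμ (Y := Ioo c d) measurableSet_Ioo hsub G hGc hG0
    rw [hGi] at h2
    rw [integral_const_mul] at h1
    exact h1.trans (mul_le_mul_of_nonneg_left h2 hM0)
  have hfin : 1 / 2 * (M * m) = 10 ^ 16 * (r : ℝ) ^ 2 * m / (l : ℝ) ^ 6 := by
    rw [hM]
    ring
  rw [← hfin]
  exact mul_le_mul_of_nonneg_left hout (by norm_num)

end Pool.H52.MQ
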