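import Pool.Agent.H52.MQ.ARC

/-! Module LCD (project MP_935a4b_QM): sum over j of the error norms.  Uses ARC (arc_lip_lower), EXD, UCJ.
y,y' in Y = Ioo c d inside [1/3,2/3], D_j = |vp y - w_j|, D_j' = |vp y'-w_j|: (y-y')^2 <= (D_j+D_j')^2 <= 2 D_j^2 + 2 D_j'^2, g_j(w) D_j^2 <= 10^8/(4l)^2 (ucj_decay: D^2/(1+4lD)^8 <= 1/(4l)^2).
sum_{j<4l} g_j(w) g_j(w') (y-y')^2 <= 2*10^8/(16 l^2) (sum g_j(w') + sum g_j(w)) = C/l^2 (ucj_sum).
So sum_j 1/2 int int g_j g_j' (y-y')^2 |H|^2 <= C l^(-2) int_Y int_Y |H|^2 <= C l^(-2) int_Y exq (the inner integral over Y is <= that over Icc 0 1; exd_cont: exq is continuous hence integrable). -/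

open MeasureTheory Set Polynomial
open scoped ENNReal ComplexConjugate

namespace Pool.H52.MQ

/-- the squared norm of the difference of the kernels -/
noncomputable def lcd_H (p : ℕ → ℝ[X]) (α : ℕ → ℂ) (n m r : ℕ) (w : List Bool) (z : ℝ × ℝ) : ℝ :=
  ‖(kap p n w z.1 z.2 : ℂ) - Khat α m z.2 z.1 * (Qf r z.1 z.2 : ℂ)‖ ^ 2

theorem lcd_Kh (α : ℕ → ℂ) (m : ℕ) : Continuous (fun z : ℝ × ℝ => Khat α m z.2 z.1) := by
  have h := exd_khat_cont α m
  have h2 := h.comp (continuous_swap (X := ℝ) (Y := ℝ))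
  exact h2.congr fun z => rfl

theorem lcd_H_cont (p : ℕ → ℝ[X]) (α : ℕ → ℂ) (n m r : ℕ) (w : List Bool) :
    ContinuousOn (lcd_H p α n m r w) (Icc 0 1 ×ˢ Icc 0 1) := by
  have h1 : ContinuousOn (fun z : ℝ × ℝ => (kap p n w z.1 z.2 : ℂ)) (Icc 0 1 ×ˢ Icc 0 1) :=
    Complex.continuous_ofReal.comp_continuousOn (exd_kap_cont p n w)
  have h2 := lcd_Kh α m
  have h3 : Continuous (fun z : ℝ × ℝ => (Qf r z.1 z.2 : ℂ)) := by
    refine Complex.continuous_ofReal.comp ?_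
    unfold Qf
    fun_prop
  have h4 : Continuous (fun z : ℝ × ℝ => Khat α m z.2 z.1 * (Qf r z.1 z.2 : ℂ)) := h2.mul h3
  have h5 : ContinuousOn (fun z : ℝ × ℝ => (kap p n w z.1 z.2 : ℂ) -
      Khat α m z.2 z.1 * (Qf r z.1 z.2 : ℂ)) (Icc 0 1 ×ˢ Icc 0 1) := h1.sub h4.continuousOn
  have h6 : ContinuousOn (fun z : ℝ × ℝ => ‖(kap p n w z.1 z.2 : ℂ) -
      Khat α m z.2 z.1 * (Qf r z.1 z.2 : ℂ)‖) (Icc 0 1 ×ˢ Icc 0 1) := h5.norm
  exact h6.pow 2

theorem lcd_H_nonneg (p : ℕ → ℝ[X]) (α : ℕ → ℂ) (n m r : ℕ) (w : List Bool) (z : ℝ × ℝ) :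
    0 ≤ lcd_H p α n m r w z := by
  unfold lcd_H
  positivity

theorem lcd_arith {t : ℝ} (ht : 0 ≤ t) : t ^ 2 ≤ (1 + t) ^ 8 := by
  have h1 : t ^ 2 ≤ (1 + t) ^ 2 := pow_le_pow_left₀ ht (by linarith) 2
  have h2 : (1 + t) ^ 2 ≤ (1 + t) ^ 8 := pow_le_pow_right₀ (by linarith) (by norm_num)
  exact h1.trans h2

/-- decay times distance squared -/
theorem lcd_decay (l j : ℕ) (hl : 1 ≤ l) {w : ℂ} (hw : ‖w‖ = 1) :
    gJ l j w * ‖w - ww (4 * l) j‖ ^ 2 ≤ 10 ^ 8 / (4 * l) ^ 2 := by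
  have hl0 : (0 : ℝ) < 4 * l := by
    have : (1 : ℝ) ≤ l := by exact_mod_cast hl
    linarith
  have h1 := ucj_decay l j hl hw
  have hD := norm_nonneg (w - ww (4 * l) j)
  generalize ‖w - ww (4 * l) j‖ = D at h1 hD ⊢
  have h2 : gJ l j w * D ^ 2 ≤ 10 ^ 8 / (1 + 4 * l * D) ^ 8 * D ^ 2 :=
    mul_le_mul_of_nonneg_right h1 (sq_nonneg _)
  refine h2.trans ?_
  have ht : 0 ≤ 4 * (l : ℝ) * D := mul_nonneg hl0.le hD
  have h0 : 0 < (1 + 4 * (l : ℝ) * D) ^ 8 := by positivity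
  rw [div_mul_eq_mul_div, div_le_div_iff₀ h0 (by positivity)]
  have h3 := lcd_arith ht
  have h4 : (10 : ℝ) ^ 8 * D ^ 2 * (4 * l) ^ 2 = 10 ^ 8 * (4 * l * D) ^ 2 := by ring
  rw [h4]
  exact mul_le_mul_of_nonneg_left h3 (by norm_num)

theorem lcd_point (l : ℕ) (hl : 1 ≤ l) {y y' : ℝ} (hy : y ∈ Icc (1 / 4 : ℝ) (3 / 4))
    (hy' : y' ∈ Icc (1 / 4 : ℝ) (3 / 4)) :
    ∑ j ∈ Finset.range (4 * l), gJ l j (vp y) * gJ l j (vp y') * (y - y') ^ 2 ≤
      10 ^ 8 / (4 * l) ^ 2 := by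
  have hn := exd_vp_norm y
  have hn' := exd_vp_norm y'
  have h1 : ∀ j, gJ l j (vp y) * gJ l j (vp y') * (y - y') ^ 2 ≤
      10 ^ 8 / (4 * l) ^ 2 / 2 * (gJ l j (vp y) + gJ l j (vp y')) := by
    intro j
    have a1 := arc_lip_lower hy hy'
    have a2 : ‖vp y - vp y'‖ ≤ ‖vp y - ww (4 * l) j‖ + ‖vp y' - ww (4 * l) j‖ := by
      rw [← norm_neg (vp y' - ww (4 * l) j)]
      refine le_trans (le_of_eq ?_) (norm_add_le _ _)
      congr 1
      ring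
    have d1 := lcd_decay l j hl hn
    have d2 := lcd_decay l j hl hn'
    have g1 := ucj_nonneg l j (vp y)
    have g2 := ucj_nonneg l j (vp y')
    have n1 := norm_nonneg (vp y - ww (4 * l) j)
    have n2 := norm_nonneg (vp y' - ww (4 * l) j)
    generalize ‖vp y - ww (4 * l) j‖ = D at *
    generalize ‖vp y' - ww (4 * l) j‖ = D' at *
    generalize gJ l j (vp y) = g at *
    generalize gJ l j (vp y') = g' at *
    generalize (10 : ℝ) ^ 8 / (4 * (l : ℝ)) ^ 2 = K at *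
    have a3 : (y - y') ^ 2 ≤ (D ^ 2 + D' ^ 2) / 2 := by
      have a4 : 2 * |y - y'| ≤ D + D' := a1.trans a2
      have a5 : (2 * |y - y'|) ^ 2 ≤ (D + D') ^ 2 := pow_le_pow_left₀ (by positivity) a4 2
      rw [mul_pow, sq_abs] at a5
      nlinarith [sq_nonneg (D - D')]
    have a6 : g * g' * (y - y') ^ 2 ≤ g * g' * ((D ^ 2 + D' ^ 2) / 2) :=
      mul_le_mul_of_nonneg_left a3 (mul_nonneg g1 g2)
    have a7 : g' * (g * D ^ 2) ≤ g' * K := mul_le_mul_of_nonneg_left d1 g2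
    have a8 : g * (g' * D' ^ 2) ≤ g * K := mul_le_mul_of_nonneg_left d2 g1
    nlinarith
  refine (Finset.sum_le_sum fun j _ => h1 j).trans ?_
  rw [← Finset.mul_sum, Finset.sum_add_distrib, ucj_sum l hl hn, ucj_sum l hl hn']
  linarith

theorem lcd_sum : ∃ C : ℝ, 0 < C ∧ ∀ (μ : Measure ℝ) (p : ℕ → ℝ[X]) (α : ℕ → ℂ), QM μ →
    ∀ (n m r l : ℕ) (w : List Bool) (c d : ℝ), 1 ≤ l → 1 / 3 ≤ c → c < d → d ≤ 2 / 3 →
      ∑ j ∈ Finset.range (4 * l), 1 / 2 * ∫ y in Ioo c d, ∫ y' in Ioo c d,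
        gJ l j (vp y) * gJ l j (vp y') *
        ((y - y') ^ 2 * ‖(kap p n w y y' : ℂ) - Khat α m y' y * (Qf r y y' : ℂ)‖ ^ 2) ∂μ ∂μ ≤
      C / (l : ℝ) ^ 2 * ∫ y in Ioo c d, exq μ p α n m r w y ∂μ := by
  refine ⟨10 ^ 8 / 16, by norm_num, ?_⟩
  intro μ p α hμ n m r l w c d hl hc hcd hd
  have hprob := hμ.prob
  have hl0 : (0 : ℝ) < l := by exact_mod_cast hl
  have hYI : Ioo c d ⊆ Icc 0 1 := fun y hy => ⟨by linarith [hy.1], by linarith [hy.2]⟩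
  have hY4 : Ioo c d ⊆ Icc (1 / 4) (3 / 4) := fun y hy => ⟨by linarith [hy.1], by linarith [hy.2]⟩
  have hYm : MeasurableSet (Ioo c d) := measurableSet_Ioo
  have hHc := lcd_H_cont p α n m r w
  have hcont : ∀ j, ContinuousOn (fun z : ℝ × ℝ => gJ l j (vp z.1) * gJ l j (vp z.2) *
      ((z.1 - z.2) ^ 2 * lcd_H p α n m r w z)) (Icc 0 1 ×ˢ Icc 0 1) := by
    intro j
    have c1 : Continuous (fun z : ℝ × ℝ => gJ l j (vp z.1) * gJ l j (vp z.2)) :=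
      ((ucj_cont l j).comp (exd_vp_cont.comp continuous_fst)).mul
        ((ucj_cont l j).comp (exd_vp_cont.comp continuous_snd))
    have c2 : Continuous (fun z : ℝ × ℝ => (z.1 - z.2) ^ 2) := by fun_prop
    exact c1.continuousOn.mul (c2.continuousOn.mul hHc)
  have hint : ∀ j, Integrable (fun z : ℝ × ℝ => gJ l j (vp z.1) * gJ l j (vp z.2) *
      ((z.1 - z.2) ^ 2 * lcd_H p α n m r w z)) ((μ.restrict (Ioo c d)).prod (μ.restrict (Ioo c d))) :=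
    fun j => exd_intble hμ (hcont j) hYm hYm hYI hYI
  have hHint := exd_intble hμ hHc hYm hYm hYI hYI
  have hHint1 := exd_intble hμ hHc hYm measurableSet_Icc hYI subset_rfl
  have step1 : ∑ j ∈ Finset.range (4 * l), 1 / 2 * ∫ y in Ioo c d, ∫ y' in Ioo c d,
        gJ l j (vp y) * gJ l j (vp y') *
        ((y - y') ^ 2 * ‖(kap p n w y y' : ℂ) - Khat α m y' y * (Qf r y y' : ℂ)‖ ^ 2) ∂μ ∂μ =
      ∫ z, ∑ j ∈ Finset.range (4 * l), 1 / 2 * (gJ l j (vp z.1) * gJ l j (vp z.2) *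
      ((z.1 - z.2) ^ 2 * lcd_H p α n m r w z)) ∂((μ.restrict (Ioo c d)).prod (μ.restrict (Ioo c d))) := by
    rw [integral_finsetSum _ fun j _ => (hint j).const_mul _]
    refine Finset.sum_congr rfl fun j _ => ?_
    rw [integral_const_mul, integral_prod _ (hint j)]
    rfl
  have step2 : ∫ z, ∑ j ∈ Finset.range (4 * l), 1 / 2 * (gJ l j (vp z.1) * gJ l j (vp z.2) *
      ((z.1 - z.2) ^ 2 * lcd_H p α n m r w z)) ∂((μ.restrict (Ioo c d)).prod (μ.restrict (Ioo c d))) ≤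
      ∫ z, 10 ^ 8 / 16 / (l : ℝ) ^ 2 * lcd_H p α n m r w z
        ∂((μ.restrict (Ioo c d)).prod (μ.restrict (Ioo c d))) := by
    refine integral_mono_ae (integrable_finsetSum _ fun j _ => (hint j).const_mul _)
      (hHint.const_mul _) ?_
    have hae : ∀ᵐ z ∂((μ.restrict (Ioo c d)).prod (μ.restrict (Ioo c d))),
        z ∈ Ioo c d ×ˢ Ioo c d := by
      rw [Measure.prod_restrict]
      exact ae_restrict_mem (hYm.prod hYm)
    filter_upwards [hae] with z hz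
    have h1 := lcd_point l hl (hY4 hz.1) (hY4 hz.2)
    have h2 : ∑ j ∈ Finset.range (4 * l), 1 / 2 * (gJ l j (vp z.1) * gJ l j (vp z.2) *
      ((z.1 - z.2) ^ 2 * lcd_H p α n m r w z)) =
      (∑ j ∈ Finset.range (4 * l), gJ l j (vp z.1) * gJ l j (vp z.2) * (z.1 - z.2) ^ 2) *
        (lcd_H p α n m r w z / 2) := by
      rw [Finset.sum_mul]
      refine Finset.sum_congr rfl fun j _ => ?_
      ring
    rw [h2]
    have h3 := lcd_H_nonneg p α n m r w z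
    have h4 : (10 : ℝ) ^ 8 / (4 * l) ^ 2 = 10 ^ 8 / 16 / (l : ℝ) ^ 2 := by
      field_simp
      norm_num
    rw [h4] at h1
    have h5 := mul_le_mul_of_nonneg_right h1 (by linarith : 0 ≤ lcd_H p α n m r w z / 2)
    have h6 : 0 ≤ (10 : ℝ) ^ 8 / 16 / (l : ℝ) ^ 2 * lcd_H p α n m r w z := by positivity
    linarith
  have step3 : ∫ z, 10 ^ 8 / 16 / (l : ℝ) ^ 2 * lcd_H p α n m r w z
        ∂((μ.restrict (Ioo c d)).prod (μ.restrict (Ioo c d))) ≤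
      10 ^ 8 / 16 / (l : ℝ) ^ 2 * ∫ y in Ioo c d, exq μ p α n m r w y ∂μ := by
    rw [integral_const_mul]
    refine mul_le_mul_of_nonneg_left ?_ (by positivity)
    rw [integral_prod _ hHint]
    refine integral_mono_ae hHint.integral_prod_left hHint1.integral_prod_left ?_
    have hae : ∀ᵐ y ∂(μ.restrict (Ioo c d)), y ∈ Ioo c d := ae_restrict_mem hYm
    filter_upwards [hae] with y hy
    refine setIntegral_mono_set ?_ ?_ ?_
    · have h1 : ContinuousOn (fun y' => lcd_H p α n m r w (y, y')) (Icc 0 1) := by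
        refine hHc.comp (Continuous.continuousOn (by fun_prop)) ?_
        intro y' hy'
        exact ⟨hYI hy, hy'⟩
      exact h1.integrableOn_compact isCompact_Icc
    · filter_upwards with y'
      exact lcd_H_nonneg p α n m r w _
    · exact hYI.eventuallyLE
  rw [step1]
  exact step2.trans step3

end Pool.H52.MQ
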