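import Pool.Agent.H52.MQ.UCA

/-! Module UCE (project MP_935a4b_QM): transfer over a window.  Uses UCA.
Let ph_k = Ph_k/sqrt(nu_k), pt_k = Pt_k/sqrt(nu_k).  With r_k = sqrt(1-|a_k|^2): ph_{k+1} = (w ph_k - conj(a_k) pt_k)/r_k, pt_{k+1} = (pt_k - a_k w ph_k)/r_k.
By recursion on i = 0..L build polynomials C_i, B_i, D_i, A_i: start C=1,B=0,D=0,A=1,
  C' = (C - a w B)/r,  B' = (w B - conj(a) C)/r,   D' = (D - a w A)/r,  A' = (w A - conj(a) D)/r    (a = a_{m+i}, r = r_{m+i}).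
Invariants: pt_{m+i} = C_i pt_m + D_i ph_m,  ph_{m+i} = A_i ph_m + B_i pt_m;  on |w|=1: A_i = w^i conj C_i, B_i = w^i conj D_i, |C_i|^2-|D_i|^2 = 1 (|C'|^2-|D'|^2: use the conj relations; or
|C'|^2-|B'|^2 = |C|^2 - |w|^2|B|^2 and |B| = |D| on the circle);  for |w| <= 1: |C_i|^2-|B_i|^2 >= 1 (same identity: |C'|^2-|B'|^2 = |C|^2-|w|^2|B|^2 >= |C|^2-|B|^2), so C_i /= 0;  D_i(0) = 0 (D'(0) = D(0)/r);
C_i(0) = prod 1/r = exp(En/2) (C'(0) = C(0)/r), as 1/r_k = exp(-log(1-|a_k|^2)/2). -/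

open MeasureTheory Set Polynomial
open scoped ENNReal ComplexConjugate

namespace Pool.H52.MQ

private theorem uce_ident (a c W : ℂ) :
    ‖c - a * W‖ ^ 2 - ‖W - conj a * c‖ ^ 2 = (1 - ‖a‖ ^ 2) * (‖c‖ ^ 2 - ‖W‖ ^ 2) := by
  simp only [← Complex.normSq_eq_norm_sq, Complex.normSq_apply, Complex.sub_re, Complex.sub_im,
    Complex.mul_re, Complex.mul_im, Complex.conj_re, Complex.conj_im]
  ring

private theorem uce_Ph_succ (α : ℕ → ℂ) (n : ℕ) (w : ℂ) :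
    (Ph α (n + 1)).eval w = w * (Ph α n).eval w - conj (α n) * (Pt α n).eval w := by
  simp [Ph, Pt, PS]

private theorem uce_Pt_succ (α : ℕ → ℂ) (n : ℕ) (w : ℂ) :
    (Pt α (n + 1)).eval w = (Pt α n).eval w - α n * (w * (Ph α n).eval w) := by
  simp [Ph, Pt, PS]

private theorem uce_nu_succ (α : ℕ → ℂ) (n : ℕ) :
    √(nu α (n + 1)) = √(nu α n) * √(1 - ‖α n‖ ^ 2) ∨ ¬ (0 ≤ nu α n) := by
  by_cases h : 0 ≤ nu α n
  · left
    rw [← Real.sqrt_mul h]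
    unfold nu
    rw [Finset.prod_range_succ]
  · exact Or.inr h

private theorem uce_aux {α : ℕ → ℂ} (hα : ∀ n, ‖α n‖ < 1) (m L : ℕ) : ∃ Cp Dp Ap Bp : ℂ[X],
    (∀ w : ℂ, (Pt α (m + L)).eval w / (√(nu α (m + L)) : ℂ) =
      Cp.eval w * ((Pt α m).eval w / (√(nu α m) : ℂ)) +
      Dp.eval w * ((Ph α m).eval w / (√(nu α m) : ℂ))) ∧
    (∀ w : ℂ, (Ph α (m + L)).eval w / (√(nu α (m + L)) : ℂ) =
      Ap.eval w * ((Ph α m).eval w / (√(nu α m) : ℂ)) +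
      Bp.eval w * ((Pt α m).eval w / (√(nu α m) : ℂ))) ∧
    (∀ w : ℂ, ‖w‖ = 1 → Ap.eval w = w ^ L * conj (Cp.eval w)) ∧
    (∀ w : ℂ, ‖w‖ = 1 → Bp.eval w = w ^ L * conj (Dp.eval w)) ∧
    (∀ w : ℂ, ‖w‖ = 1 → ‖Cp.eval w‖ ^ 2 - ‖Dp.eval w‖ ^ 2 = 1) ∧
    (∀ w : ℂ, ‖w‖ ≤ 1 → 1 ≤ ‖Cp.eval w‖ ^ 2 - ‖Bp.eval w‖ ^ 2) ∧
    Dp.eval 0 = 0 ∧
    Cp.eval 0 = (Real.exp (En α (Finset.Ico m (m + L)) / 2) : ℂ) := by
  induction L with
  | zero =>
    refine ⟨1, 0, 1, 0, ?_, ?_, ?_, ?_, ?_, ?_, ?_, ?_⟩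
    · intro w; simp
    · intro w; simp
    · intro w _; simp
    · intro w _; simp
    · intro w _; simp
    · intro w _; simp
    · simp
    · simp [En]
  | succ L ih =>
    obtain ⟨Cp, Dp, Ap, Bp, h1, h2, h3, h4, h5, h6, h7, h8⟩ := ih
    set a := α (m + L) with ha
    have ha1 : ‖a‖ < 1 := hα _
    have hr2 : 0 < 1 - ‖a‖ ^ 2 := by
      have := norm_nonneg a
      nlinarith
    set r : ℝ := √(1 - ‖a‖ ^ 2) with hr
    have hr0 : 0 < r := Real.sqrt_pos.2 hr2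
    have hrr : r ^ 2 = 1 - ‖a‖ ^ 2 := Real.sq_sqrt hr2.le
    have hrc : (r : ℂ) ≠ 0 := by exact_mod_cast hr0.ne'
    have hnu : √(nu α (m + L + 1)) = √(nu α (m + L)) * r := by
      rcases uce_nu_succ α (m + L) with h | h
      · exact h
      · exact absurd (nu_pos hα (m + L)).le h
    have hs : (√(nu α (m + L)) : ℂ) ≠ 0 := by
      have := Real.sqrt_pos.2 (nu_pos hα (m + L))
      exact_mod_cast this.ne'
    have hPt : ∀ w : ℂ, (Pt α (m + L + 1)).eval w / (√(nu α (m + L + 1)) : ℂ)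
        = ((Pt α (m + L)).eval w / (√(nu α (m + L)) : ℂ)
            - a * (w * ((Ph α (m + L)).eval w / (√(nu α (m + L)) : ℂ)))) / (r : ℂ) := by
      intro w
      rw [uce_Pt_succ, hnu, ← ha]
      push_cast
      field_simp
    have hPh : ∀ w : ℂ, (Ph α (m + L + 1)).eval w / (√(nu α (m + L + 1)) : ℂ)
        = (w * ((Ph α (m + L)).eval w / (√(nu α (m + L)) : ℂ))
            - conj a * ((Pt α (m + L)).eval w / (√(nu α (m + L)) : ℂ))) / (r : ℂ) := by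
      intro w
      rw [uce_Ph_succ, hnu, ← ha]
      push_cast
      field_simp
    have hev : ∀ (P Q : ℂ[X]) (w : ℂ), (C (r : ℂ)⁻¹ * (P - C a * (X * Q))).eval w
        = (P.eval w - a * (w * Q.eval w)) / (r : ℂ) := by
      intro P Q w
      simp only [eval_mul, eval_sub, eval_C, eval_X]
      rw [div_eq_inv_mul]
    have hev' : ∀ (P Q : ℂ[X]) (w : ℂ), (C (r : ℂ)⁻¹ * (X * P - C (conj a) * Q)).eval w
        = (w * P.eval w - conj a * Q.eval w) / (r : ℂ) := by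
      intro P Q w
      simp only [eval_mul, eval_sub, eval_C, eval_X]
      rw [div_eq_inv_mul]
    have hnr : ‖(r : ℂ)‖ = r := by rw [Complex.norm_real, Real.norm_eq_abs, abs_of_pos hr0]
    -- the quadratic identity
    have hquad : ∀ w : ℂ,
        ‖(C (r : ℂ)⁻¹ * (Cp - C a * (X * Bp))).eval w‖ ^ 2
          - ‖(C (r : ℂ)⁻¹ * (X * Bp - C (conj a) * Cp)).eval w‖ ^ 2
        = ‖Cp.eval w‖ ^ 2 - ‖w * Bp.eval w‖ ^ 2 := by
      intro w
      rw [hev, hev', norm_div, norm_div, hnr, div_pow, div_pow, ← sub_div, hrr, uce_ident]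
      field_simp
    have hconj : ∀ w : ℂ, ‖w‖ = 1 → w * conj w = 1 := by
      intro w hw
      rw [Complex.mul_conj, Complex.normSq_eq_norm_sq, hw]; simp
    have hconjpow : ∀ w : ℂ, ‖w‖ = 1 → w ^ L * conj w ^ L = 1 := by
      intro w hw
      rw [← mul_pow, hconj w hw, one_pow]
    have hA' : ∀ w : ℂ, ‖w‖ = 1 → (C (r : ℂ)⁻¹ * (X * Ap - C (conj a) * Dp)).eval w
        = w ^ (L + 1) * conj ((C (r : ℂ)⁻¹ * (Cp - C a * (X * Bp))).eval w) := by
      intro w hw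
      rw [hev, hev', h3 w hw, map_div₀, map_sub, map_mul, map_mul, h4 w hw, map_mul, map_pow,
        Complex.conj_conj, Complex.conj_ofReal]
      have e1 := hconjpow w hw
      have e2 := hconj w hw
      rw [mul_div_assoc']
      congr 1
      have : w ^ (L + 1) * (conj a * (conj w * (conj w ^ L * Dp.eval w)))
          = (w * conj w) * (w ^ L * conj w ^ L) * (conj a * Dp.eval w) := by ring
      rw [mul_sub, this, e1, e2]; ring
    have hB' : ∀ w : ℂ, ‖w‖ = 1 → (C (r : ℂ)⁻¹ * (X * Bp - C (conj a) * Cp)).eval w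
        = w ^ (L + 1) * conj ((C (r : ℂ)⁻¹ * (Dp - C a * (X * Ap))).eval w) := by
      intro w hw
      rw [hev, hev', h4 w hw, map_div₀, map_sub, map_mul, map_mul, h3 w hw, map_mul, map_pow,
        Complex.conj_conj, Complex.conj_ofReal]
      have e1 := hconjpow w hw
      have e2 := hconj w hw
      rw [mul_div_assoc']
      congr 1
      have : w ^ (L + 1) * (conj a * (conj w * (conj w ^ L * Cp.eval w)))
          = (w * conj w) * (w ^ L * conj w ^ L) * (conj a * Cp.eval w) := by ring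
      rw [mul_sub, this, e1, e2]; ring
    refine ⟨C (r : ℂ)⁻¹ * (Cp - C a * (X * Bp)), C (r : ℂ)⁻¹ * (Dp - C a * (X * Ap)),
      C (r : ℂ)⁻¹ * (X * Ap - C (conj a) * Dp), C (r : ℂ)⁻¹ * (X * Bp - C (conj a) * Cp),
      ?_, ?_, hA', hB', ?_, ?_, ?_, ?_⟩
    · intro w
      rw [← add_assoc, hPt w, hev, hev, h1 w, h2 w]
      field_simp
      ring
    · intro w
      rw [← add_assoc, hPh w, hev', hev', h1 w, h2 w]
      field_simp
      ring
    · intro w hw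
      have e1 := hquad w
      have e2 : ‖(C (r : ℂ)⁻¹ * (X * Bp - C (conj a) * Cp)).eval w‖
          = ‖(C (r : ℂ)⁻¹ * (Dp - C a * (X * Ap))).eval w‖ := by
        rw [hB' w hw, norm_mul, norm_pow, hw, one_pow, one_mul, Complex.norm_conj]
      have e3 : ‖w * Bp.eval w‖ = ‖Dp.eval w‖ := by
        rw [norm_mul, hw, one_mul, h4 w hw, norm_mul, norm_pow, hw, one_pow, one_mul, Complex.norm_conj]
      rw [← e2, e1, e3, h5 w hw]
    · intro w hw
      rw [hquad w]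
      have e1 := h6 w hw
      have e2 : ‖w * Bp.eval w‖ ^ 2 ≤ ‖Bp.eval w‖ ^ 2 := by
        rw [norm_mul]
        have : ‖w‖ * ‖Bp.eval w‖ ≤ ‖Bp.eval w‖ := by
          have := norm_nonneg (Bp.eval w)
          nlinarith
        exact pow_le_pow_left₀ (by positivity) this 2
      linarith
    · rw [hev, h7]; simp
    · rw [hev, h8]
      simp only [zero_mul, mul_zero, sub_zero]
      have e1 : En α (Finset.Ico m (m + (L + 1))) = En α (Finset.Ico m (m + L)) + -Real.log (1 - ‖a‖ ^ 2) := by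
        unfold En
        rw [← add_assoc, Finset.sum_Ico_succ_top (by omega)]
      have e2 : Real.exp (-Real.log (1 - ‖a‖ ^ 2) / 2) = r⁻¹ := by
        rw [neg_div, Real.exp_neg]
        congr 1
        rw [hr, Real.sqrt_eq_rpow, Real.rpow_def_of_pos hr2]
        congr 1; ring
      rw [e1, add_div, Real.exp_add, e2]
      push_cast
      rw [div_eq_mul_inv]

theorem uce_window {α : ℕ → ℂ} (hα : ∀ n, ‖α n‖ < 1) (m L : ℕ) : ∃ Cp Dp : ℂ[X],
    (∀ w : ℂ, (Pt α (m + L)).eval w / (√(nu α (m + L)) : ℂ) =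
      Cp.eval w * ((Pt α m).eval w / (√(nu α m) : ℂ)) +
      Dp.eval w * ((Ph α m).eval w / (√(nu α m) : ℂ))) ∧
    (∀ w : ℂ, ‖w‖ = 1 → (Ph α (m + L)).eval w / (√(nu α (m + L)) : ℂ) =
      w ^ L * conj (Cp.eval w) * ((Ph α m).eval w / (√(nu α m) : ℂ)) +
      w ^ L * conj (Dp.eval w) * ((Pt α m).eval w / (√(nu α m) : ℂ))) ∧
    (∀ w : ℂ, ‖w‖ = 1 → ‖Cp.eval w‖ ^ 2 - ‖Dp.eval w‖ ^ 2 = 1) ∧
    (∀ w : ℂ, ‖w‖ ≤ 1 → Cp.eval w ≠ 0) ∧
    Dp.eval 0 = 0 ∧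
    Cp.eval 0 = (Real.exp (En α (Finset.Ico m (m + L)) / 2) : ℂ) := by
  obtain ⟨Cp, Dp, Ap, Bp, h1, h2, h3, h4, h5, h6, h7, h8⟩ := uce_aux hα m L
  refine ⟨Cp, Dp, h1, ?_, h5, ?_, h7, h8⟩
  · intro w hw
    rw [h2 w, h3 w hw, h4 w hw]
  · intro w hw h0
    have := h6 w hw
    rw [h0, norm_zero] at this
    nlinarith [sq_nonneg ‖Bp.eval w‖]

end Pool.H52.MQ
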