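import Pool.Agent.H52.MQ.UCD
import Pool.Agent.H52.MQ.UCE

/-! Module UCF (project MP_935a4b_QM): THE LOCAL ESTIMATE.  Uses UCA, UCB, UCD, UCE.
av = mean over the unit circle.  ph_k = Ph_k/sqrt nu_k, pt_k = Pt_k/sqrt nu_k.  E = En(Ico (m-L) (m+L)) = Em + Ep, Em = En(Ico (m-L) m), Ep = En(Ico m (m+L)) (both >= 0).
UPPER WINDOW (uce_window with m, L): Cp, Dp.  b = ph_m/pt_m: analytic near the closed disc (uca_nz), |b| = 1 on the circle (uca_abs).  f = Dp/Cp, h = f b = Dp Ph_m/(Cp Pt_m): analytic near the closed disc, h(0) = 0 (Dp(0)=0),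
on the circle |h| = |f| and |f|^2 = 1 - 1/|Cp|^2 < 1.  pt_{m+L} = Cp pt_m (1+h), so on the circle |ph_m|^2/|ph_{m+L}|^2 = |pt_m|^2/|pt_{m+L}|^2 = (1-|h|^2)/|1+h|^2 =: rho.
(A) By ucd_bs with n = m+L (deg s < L, deg (s Ph_m) <= m+L): int |s|^2|ph_m|^2 dsigma = av(|s|^2 rho);  int |s|^2 ph_m conj(pt_m) dsigma = av(|s|^2 b rho)  (ph_m conj(pt_m) = b |pt_m|^2).
  With s = 1: av rho = int |ph_m|^2 dsigma = 1 (or mean value of Re (1-h)/(1+h)).
(B) av(log |Cp|) = log|Cp(0)| = Ep/2 (Jensen for a zero free function: log|Cp| is harmonic near the closed disc / circleAverage log norm results of Mathlib).  So av(-log(1-|h|^2)) = av(2 log|Cp|) = Ep, and av |h|^2 <= Ep.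
  S = {|h| >= delta} on the circle: |S| := av 1_S <= Ep/delta^2.
(C) On the complement of S (|h| < delta <= 1/4): |rho-1| <= 2 delta/(1-delta) <= 3 delta since (1-d)/(1+d) <= rho <= (1+d)/(1-d);  and rho = Re((1-h)/(1+h)) >= 1 - 2 Re h - 3|h|^2 ((1-h)/(1+h) = 1-2h+2h^2/(1+h)).
  av h = h(0) = 0.  So av(rho 1_S) = 1 - av(rho 1_{S^c}) <= 1 - av(1_{S^c}) + 2 av(Re h 1_{S^c}) + 3 av|h|^2 = |S| - 2 av(Re h 1_S) + 3 Ep <= 3|S| + 3Ep <= 6 Ep/delta^2.
  B1 := 1_S (rho + 1): av B1 <= 7 Ep/delta^2.  Then (a): |av(|s|^2 rho) - av|s|^2| <= 3 delta av|s|^2 + av(|s|^2 B1).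
LOWER WINDOW (uce_window with m-L, L): Cm, Dm, b0 = ph_{m-L}/pt_{m-L}.  On the circle b_m = w^L (conj Cm b0 + conj Dm)/(Cm + Dm b0) = w^L b0 conj(u)/u with u = Cm(1+fm b0), fm = Dm/Cm (conj b0 = 1/b0).
  v = 1/Cm: analytic near the closed disc, |v| <= 1 on the circle, v(0) = exp(-Em/2) >= 1-Em/2, so av|1-v|^2 = 1 - 2 Re v(0) + av|v|^2 <= Em;  av|fm|^2 <= Em as in (B).
  S' = {|fm| >= delta or |1-v| >= delta}: |S'| <= 2Em/delta^2.  Off S': |conj(u)/u - 1| <= |conj Cm/Cm - 1| + |conj(1+fmb0)/(1+fmb0) - 1| <= 2 delta/(1-delta) + 2 delta/(1-delta) <= 6 delta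
  (conj Cm/Cm = v/conj v, |v/conj v -1| = 2|Im v|/|v|).  So |b_m - w^L b0| <= 6 delta off S' and <= 2 everywhere.
  av(|s|^2 w^L b0) = 0: on the circle |s|^2 w^L = s * (w^L conj s), and w^L conj(s) = sum conj(s_i) w^{L-i} is a polynomial vanishing at 0 (deg s < L); times s b0 analytic: mean = value at 0 = 0.
(D) (b): |av(|s|^2 b rho)| <= |av(|s|^2 b)| + av(|s|^2|rho-1|) <= av(|s|^2|b - w^L b0|) + 3 delta av|s|^2 + av(|s|^2 B1) <= 9 delta av|s|^2 + av(|s|^2(B1 + 2 1_{S'})).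
B := B1 + 2*1_{S'} (extended by 0 off the circle or by the same formulas with junk; only values on the circle matter; make it measurable, nonnegative everywhere).  av B <= 7Ep/delta^2 + 4Em/delta^2 <= 11 E/delta^2. -/

open MeasureTheory Set Polynomial
open scoped ENNReal ComplexConjugate

namespace Pool.H52.MQ


/-! ### Averages over the circle -/

theorem ucf_sphere {w : ℂ} : w ∈ Metric.sphere (0 : ℂ) |1| ↔ ‖w‖ = 1 := by
  rw [abs_one, mem_sphere_zero_iff_norm]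

theorem ucf_ci {g : ℂ → ℝ} (hg : Measurable g) {K : ℝ} (hb : ∀ w : ℂ, ‖w‖ = 1 → |g w| ≤ K) :
    CircleIntegrable g 0 1 := by
  unfold CircleIntegrable
  have h0 : IntervalIntegrable (fun _ : ℝ => K) volume 0 (2 * Real.pi) := intervalIntegrable_const
  refine h0.mono_fun' ?_ ?_
  · exact (hg.comp (continuous_circleMap 0 1).measurable).aestronglyMeasurable
  · filter_upwards with θ
    exact hb _ (by simp)

theorem ucf_ci_cont {E : Type*} [NormedAddCommGroup E] {g : ℂ → E}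
    (hg : ContinuousOn g {w | ‖w‖ = 1}) : CircleIntegrable g 0 1 := by
  apply ContinuousOn.circleIntegrable'
  refine hg.mono fun w hw => ?_
  exact ucf_sphere.1 hw

theorem ucf_av_mono {f g : ℂ → ℝ} (hf : CircleIntegrable f 0 1) (hg : CircleIntegrable g 0 1)
    (h : ∀ w : ℂ, ‖w‖ = 1 → f w ≤ g w) : av f ≤ av g :=
  Real.circleAverage_mono hf hg fun w hw => h w (ucf_sphere.1 hw)

theorem ucf_av_congr {E : Type*} [NormedAddCommGroup E] [NormedSpace ℝ E] {f g : ℂ → E}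
    (h : ∀ w : ℂ, ‖w‖ = 1 → f w = g w) : av f = av g :=
  Real.circleAverage_congr_sphere fun w hw => h w (ucf_sphere.1 hw)

theorem ucf_av_mul (c : ℝ) (f : ℂ → ℝ) : av (fun w => c * f w) = c * av f := by
  have h := Real.circleAverage_fun_smul (a := c) (f := f) (c := 0) (R := 1)
  simpa only [av, smul_eq_mul] using h

theorem ucf_av_add {f g : ℂ → ℝ} (hf : CircleIntegrable f 0 1) (hg : CircleIntegrable g 0 1) :
    av (fun w => f w + g w) = av f + av g :=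
  Real.circleAverage_fun_add hf hg

theorem ucf_av_const (c : ℝ) : av (fun _ : ℂ => c) = c :=
  Real.circleAverage_const c 0 1

theorem ucf_av_ofReal (f : ℂ → ℝ) : av (fun w => ((f w : ℝ) : ℂ)) = ((av f : ℝ) : ℂ) := by
  unfold av Real.circleAverage
  rw [intervalIntegral.integral_ofReal]
  simp

theorem ucf_av_re {F : ℂ → ℂ} (hF : CircleIntegrable F 0 1) :
    av (fun w => (F w).re) = (av F).re :=
  Complex.reCLM.circleAverage_comp_comm hF

theorem ucf_norm_av_le {F : ℂ → ℂ} {g : ℂ → ℝ} (hF : CircleIntegrable F 0 1)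
    (hg : CircleIntegrable g 0 1) (h : ∀ w : ℂ, ‖w‖ = 1 → ‖F w‖ ≤ g w) : ‖av F‖ ≤ av g := by
  have h1 : ‖av F‖ ≤ av (fun w => ‖F w‖) := by
    unfold av Real.circleAverage
    rw [norm_smul, smul_eq_mul, Real.norm_eq_abs, abs_of_pos (inv_pos.2 Real.two_pi_pos)]
    exact mul_le_mul_of_nonneg_left (intervalIntegral.norm_integral_le_integral_norm
      Real.two_pi_pos.le) (inv_pos.2 Real.two_pi_pos).le
  refine h1.trans (ucf_av_mono ?_ hg h)
  exact IntervalIntegrable.norm hF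

theorem ucf_mean {F : ℂ → ℂ} (hF : ∀ w : ℂ, ‖w‖ ≤ 1 → DifferentiableAt ℂ F w) : av F = F 0 := by
  apply DiffContOnCl.circleAverage
  rw [abs_one]
  refine ⟨fun w hw => (hF w ?_).differentiableWithinAt, fun w hw => ?_⟩
  · exact (mem_ball_zero_iff.1 hw).le
  · refine (hF w ?_).continuousAt.continuousWithinAt
    rw [closure_ball _ one_ne_zero] at hw
    exact mem_closedBall_zero_iff.1 hw

/-! ### Elementary inequalities -/

theorem ucf_sqa (h : ℂ) : ‖1 + h‖ ^ 2 = 1 + 2 * h.re + ‖h‖ ^ 2 := by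
  rw [← Complex.normSq_eq_norm_sq, ← Complex.normSq_eq_norm_sq, Complex.normSq_apply,
    Complex.normSq_apply]
  simp
  ring

theorem ucf_rho1 {h : ℂ} {δ : ℝ} (hδ1 : δ ≤ 1 / 4) (hh : ‖h‖ < δ) :
    |(1 - ‖h‖ ^ 2) / ‖1 + h‖ ^ 2 - 1| ≤ 3 * δ := by
  have h0 := norm_nonneg h
  have hre := Complex.abs_re_le_norm h
  obtain ⟨hr1, hr2⟩ := abs_le.1 hre
  rw [ucf_sqa]
  have hpos : 0 < 1 + 2 * h.re + ‖h‖ ^ 2 := by nlinarith
  have e : (1 - ‖h‖ ^ 2) / (1 + 2 * h.re + ‖h‖ ^ 2) - 1 =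
      (-2 * h.re - 2 * ‖h‖ ^ 2) / (1 + 2 * h.re + ‖h‖ ^ 2) := by
    field_simp
    ring
  rw [e, abs_div, abs_of_pos hpos, div_le_iff₀ hpos, abs_le]
  constructor
  · nlinarith
  · nlinarith

theorem ucf_rho2 {h : ℂ} (hh : ‖h‖ < 1) :
    1 - 2 * h.re - 3 * ‖h‖ ^ 2 ≤ (1 - ‖h‖ ^ 2) / ‖1 + h‖ ^ 2 := by
  have h0 := norm_nonneg h
  have hre := Complex.abs_re_le_norm h
  obtain ⟨hr1, hr2⟩ := abs_le.1 hre
  rw [ucf_sqa]
  have hpos : 0 < 1 + 2 * h.re + ‖h‖ ^ 2 := by nlinarith [mul_pos (sub_pos.2 hh) (sub_pos.2 hh)]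
  rw [le_div_iff₀ hpos]
  have h1 : 0 ≤ ‖h‖ ^ 2 * (1 - ‖h‖ ^ 2) := by
    apply mul_nonneg (by positivity)
    nlinarith
  nlinarith [sq_nonneg (h.re + ‖h‖ ^ 2)]

theorem ucf_conj {g : ℂ} {δ : ℝ} (hδ1 : δ ≤ 1 / 4) (hg : ‖1 - g‖ < δ) :
    g ≠ 0 ∧ ‖conj g / g - 1‖ ≤ 8 / 3 * δ := by
  have h1 : 1 - δ ≤ ‖g‖ := by
    have : ‖(1 : ℂ)‖ ≤ ‖1 - g‖ + ‖g‖ := by
      have := norm_add_le (1 - g) g
      simpa using this
    rw [norm_one] at this
    linarith
  have hg0 : g ≠ 0 := by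
    intro h
    rw [h, norm_zero] at h1
    linarith
  refine ⟨hg0, ?_⟩
  have e : conj g / g - 1 = (conj g - g) / g := by
    field_simp
  rw [e, norm_div, div_le_iff₀ (norm_pos_iff.2 hg0)]
  have e2 : conj g - g = (1 - g) - conj (1 - g) := by
    simp
  have h2 : ‖conj g - g‖ ≤ 2 * δ := by
    rw [e2]
    refine (norm_sub_le _ _).trans ?_
    rw [Complex.norm_conj]
    linarith
  have hδ0 : 0 < δ := lt_of_le_of_lt (norm_nonneg _) hg
  nlinarith

/-! ### One window -/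

theorem ucf_cont (P : ℂ[X]) : Continuous fun w => P.eval w := P.continuous

theorem ucf_cq {C D : ℂ[X]} (h4 : ∀ w : ℂ, ‖w‖ ≤ 1 → C.eval w ≠ 0) :
    ContinuousOn (fun w => ‖D.eval w‖ ^ 2 / ‖C.eval w‖ ^ 2) {w | ‖w‖ = 1} := by
  refine ContinuousOn.div ?_ ?_ ?_
  · exact ((ucf_cont D).norm.pow 2).continuousOn
  · exact ((ucf_cont C).norm.pow 2).continuousOn
  · intro w hw
    have := norm_pos_iff.2 (h4 w (le_of_eq hw))
    positivity

theorem ucf_energy {C D : ℂ[X]} {E : ℝ}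
    (h3 : ∀ w : ℂ, ‖w‖ = 1 → ‖C.eval w‖ ^ 2 - ‖D.eval w‖ ^ 2 = 1)
    (h4 : ∀ w : ℂ, ‖w‖ ≤ 1 → C.eval w ≠ 0) (h6 : C.eval 0 = (Real.exp (E / 2) : ℂ)) :
    av (fun w => ‖D.eval w‖ ^ 2 / ‖C.eval w‖ ^ 2) ≤ E := by
  have hJ : av (fun w => Real.log ‖C.eval w‖) = E / 2 := by
    have h1 : av (fun w => Real.log ‖C.eval w‖) = Real.log ‖C.eval 0‖ := by
      refine AnalyticOnNhd.circleAverage_log_norm_of_ne_zero (g := fun w => C.eval w) ?_ ?_
      · intro w _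
        exact (C.differentiable.analyticAt w)
      · intro w hw
        rw [abs_one] at hw
        exact h4 w (mem_closedBall_zero_iff.1 hw)
    rw [h1, h6, Complex.norm_real, Real.norm_eq_abs, abs_of_pos (Real.exp_pos _), Real.log_exp]
  have h2 : av (fun w => ‖D.eval w‖ ^ 2 / ‖C.eval w‖ ^ 2) ≤
      av (fun w => 2 * Real.log ‖C.eval w‖) := by
    refine ucf_av_mono (ucf_ci_cont (ucf_cq h4)) (ucf_ci_cont ?_) ?_
    · refine ContinuousOn.mul continuousOn_const ?_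
      refine ContinuousOn.log (ucf_cont C).norm.continuousOn ?_
      intro w hw
      exact (norm_pos_iff.2 (h4 w (le_of_eq hw))).ne'
    · intro w hw
      have hpos := norm_pos_iff.2 (h4 w (le_of_eq hw))
      have h5 := Real.one_sub_inv_le_log_of_pos (show 0 < ‖C.eval w‖ ^ 2 by positivity)
      rw [Real.log_pow] at h5
      push_cast at h5
      refine le_trans (le_of_eq ?_) h5
      have h7 := h3 w hw
      have h8 : ‖D.eval w‖ ^ 2 = ‖C.eval w‖ ^ 2 - 1 := by linarith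
      rw [h8]
      field_simp
  rw [ucf_av_mul, hJ] at h2
  linarith

theorem ucf_energy2 {C D : ℂ[X]} {E : ℝ}
    (h3 : ∀ w : ℂ, ‖w‖ = 1 → ‖C.eval w‖ ^ 2 - ‖D.eval w‖ ^ 2 = 1)
    (h4 : ∀ w : ℂ, ‖w‖ ≤ 1 → C.eval w ≠ 0) (h6 : C.eval 0 = (Real.exp (E / 2) : ℂ)) :
    av (fun w => ‖1 - (C.eval w)⁻¹‖ ^ 2) ≤ E := by
  have hd : ∀ w : ℂ, ‖w‖ ≤ 1 → DifferentiableAt ℂ (fun w => (C.eval w)⁻¹) w := fun w hw =>
    (C.differentiableAt).inv (h4 w hw)
  have hci : ContinuousOn (fun w => (C.eval w)⁻¹) {w : ℂ | ‖w‖ = 1} := fun w hw =>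
    (hd w (le_of_eq hw)).continuousAt.continuousWithinAt
  have hv : av (fun w => ((C.eval w)⁻¹).re) = Real.exp (-(E / 2)) := by
    rw [ucf_av_re (ucf_ci_cont hci), ucf_mean hd]
    simp only [h6]
    rw [← Complex.ofReal_inv, Complex.ofReal_re, Real.exp_neg]
  have h1 : av (fun w => ‖1 - (C.eval w)⁻¹‖ ^ 2) ≤
      av (fun w => 2 + (-2) * ((C.eval w)⁻¹).re) := by
    refine ucf_av_mono (ucf_ci_cont ?_) (ucf_ci_cont ?_) ?_
    · exact (continuousOn_const.sub hci).norm.pow 2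
    · exact continuousOn_const.add
        (continuousOn_const.mul (Complex.continuous_re.comp_continuousOn hci))
    · intro w hw
      have h7 := h3 w hw
      have hn : ‖(C.eval w)⁻¹‖ ≤ 1 := by
        rw [norm_inv]
        apply inv_le_one_of_one_le₀
        nlinarith [norm_nonneg (C.eval w), sq_nonneg ‖D.eval w‖]
      have e := ucf_sqa (-(C.eval w)⁻¹)
      rw [← sub_eq_add_neg, norm_neg, Complex.neg_re] at e
      rw [e]
      nlinarith [norm_nonneg (C.eval w)⁻¹]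
  refine h1.trans ?_
  have hci2 : CircleIntegrable (fun w => (-2 : ℝ) * ((C.eval w)⁻¹).re) 0 1 :=
    ucf_ci_cont (continuousOn_const.mul (Complex.continuous_re.comp_continuousOn hci))
  rw [ucf_av_add (circleIntegrable_const _ _ _) hci2, ucf_av_const, ucf_av_mul, hv]
  have := Real.add_one_le_exp (-(E / 2))
  linarith

/-! ### The density -/

/-- the Bernstein-Szego density times `|ph_m|^2` -/
noncomputable def ucf_rho (α : ℕ → ℂ) (m L : ℕ) (w : ℂ) : ℝ :=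
  (‖(Ph α m).eval w‖ ^ 2 / nu α m) / (‖(Ph α (m + L)).eval w‖ ^ 2 / nu α (m + L))

theorem ucf_rho_meas (α : ℕ → ℂ) (m L : ℕ) : Measurable (ucf_rho α m L) := by
  unfold ucf_rho
  refine Measurable.div ?_ ?_
  · exact (((ucf_cont _).norm.pow 2).measurable).div_const _
  · exact (((ucf_cont _).norm.pow 2).measurable).div_const _

theorem ucf_ph_ne {α : ℕ → ℂ} (hα : ∀ n, ‖α n‖ < 1) (n : ℕ) {w : ℂ} (hw : ‖w‖ = 1) :
    (Ph α n).eval w ≠ 0 := by
  have h1 := (uca_nz hα n hw.le).1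
  rw [← norm_pos_iff] at h1 ⊢
  rwa [uca_abs α n hw] at h1

theorem ucf_rho_cont {α : ℕ → ℂ} (hα : ∀ n, ‖α n‖ < 1) (m L : ℕ) :
    ContinuousOn (ucf_rho α m L) {w | ‖w‖ = 1} := by
  unfold ucf_rho
  refine ContinuousOn.div ?_ ?_ ?_
  · exact (((ucf_cont _).norm.pow 2).div_const _).continuousOn
  · exact (((ucf_cont _).norm.pow 2).div_const _).continuousOn
  · intro w hw
    have h1 := norm_pos_iff.2 (ucf_ph_ne hα (m + L) hw)
    have h2 := nu_pos hα (m + L)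
    positivity

theorem ucf_rho_nonneg {α : ℕ → ℂ} (hα : ∀ n, ‖α n‖ < 1) (m L : ℕ) (w : ℂ) :
    0 ≤ ucf_rho α m L w := by
  have h1 := nu_pos hα m
  have h2 := nu_pos hα (m + L)
  unfold ucf_rho
  positivity

theorem ucf_rho_alg {c d φ ψ ψ' : ℂ} {ν ν' : ℝ} (hν : 0 < ν) (hν' : 0 < ν')
    (hφψ : ‖ψ‖ = ‖φ‖) (hψ : ψ ≠ 0) (hc : c ≠ 0) (hcd : ‖c‖ ^ 2 - ‖d‖ ^ 2 = 1)
    (h1 : ψ' / (√ν' : ℂ) = c * (ψ / (√ν : ℂ)) + d * (φ / (√ν : ℂ))) :
    (‖φ‖ ^ 2 / ν) / (‖ψ'‖ ^ 2 / ν') =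
      (1 - ‖d * φ / (c * ψ)‖ ^ 2) / ‖1 + d * φ / (c * ψ)‖ ^ 2 := by
  have hs : (√ν : ℂ) ≠ 0 := by
    exact_mod_cast (Real.sqrt_pos.2 hν).ne'
  have h2 : ψ' / (√ν' : ℂ) = c * ψ / (√ν : ℂ) * (1 + d * φ / (c * ψ)) := by
    rw [h1]
    field_simp
  have key : ‖ψ'‖ ^ 2 / ν' = (‖c‖ ^ 2 * ‖φ‖ ^ 2 / ν) * ‖1 + d * φ / (c * ψ)‖ ^ 2 := by
    have h3 := congrArg (fun z : ℂ => ‖z‖ ^ 2) h2
    simp only [norm_mul, norm_div, Complex.norm_real, Real.norm_eq_abs, div_pow, mul_pow,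
      sq_abs, Real.sq_sqrt hν.le, Real.sq_sqrt hν'.le] at h3
    rw [h3, hφψ]
  have hφ : ‖φ‖ ≠ 0 := by
    rw [← hφψ]
    exact norm_ne_zero_iff.2 hψ
  have hcn : ‖c‖ ≠ 0 := norm_ne_zero_iff.2 hc
  rw [key, ← div_div]
  congr 1
  have h4 : ‖d * φ / (c * ψ)‖ ^ 2 = ‖d‖ ^ 2 / ‖c‖ ^ 2 := by
    rw [norm_div, norm_mul, norm_mul, hφψ]
    field_simp
  rw [h4]
  have h5 : ‖d‖ ^ 2 = ‖c‖ ^ 2 - 1 := by linarith
  rw [h5]
  field_simp
  ring

/-! ### Bernstein-Szego -/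

theorem ucf_deg (α : ℕ → ℂ) (m L : ℕ) {s : ℂ[X]} (hs : s.natDegree ≤ L) :
    (s * Ph α m).natDegree ≤ m + L ∧ (s * Pt α m).natDegree ≤ m + L := by
  obtain ⟨-, h1, h2, -⟩ := uca_deg α m
  constructor
  · refine natDegree_mul_le.trans ?_
    omega
  · refine natDegree_mul_le.trans ?_
    omega

theorem ucf_bs1 {σ : Measure ℂ} {α : ℕ → ℂ} (h : Szego σ α) (m L : ℕ) {s : ℂ[X]}
    (hs : s.natDegree ≤ L) :
    ∫ w, ‖s.eval w‖ ^ 2 * (‖(Ph α m).eval w‖ ^ 2 / nu α m) ∂σ =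
      av (fun w => ‖s.eval w‖ ^ 2 * ucf_rho α m L w) := by
  have hν := nu_pos h.lt m
  have hν' := nu_pos h.lt (m + L)
  have h1 := ucd_bs h (m + L) (s * Ph α m) (s * Ph α m) (ucf_deg α m L hs).1 (ucf_deg α m L hs).1
  have e1 : (fun w => (s * Ph α m).eval w * conj ((s * Ph α m).eval w)) =
      fun w => ((nu α m * (‖s.eval w‖ ^ 2 * (‖(Ph α m).eval w‖ ^ 2 / nu α m)) : ℝ) : ℂ) := by
    funext w
    rw [Complex.mul_conj, Complex.normSq_eq_norm_sq, eval_mul, norm_mul]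
    congr 1
    field_simp
  have e2 : (fun w => (s * Ph α m).eval w * conj ((s * Ph α m).eval w) *
      ((nu α (m + L) / ‖(Ph α (m + L)).eval w‖ ^ 2 : ℝ) : ℂ)) =
      fun w => ((nu α m * (‖s.eval w‖ ^ 2 * ucf_rho α m L w) : ℝ) : ℂ) := by
    funext w
    rw [Complex.mul_conj, Complex.normSq_eq_norm_sq, eval_mul, norm_mul, ← Complex.ofReal_mul]
    congr 1
    unfold ucf_rho
    field_simp
  rw [e1, e2, ucf_av_ofReal, integral_complex_ofReal, integral_const_mul, ucf_av_mul] at h1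
  have h2 := Complex.ofReal_injective h1
  exact mul_left_cancel₀ hν.ne' h2

theorem ucf_bs2 {σ : Measure ℂ} {α : ℕ → ℂ} (h : Szego σ α) (m L : ℕ) {s : ℂ[X]}
    (hs : s.natDegree ≤ L) :
    ∫ w, ((‖s.eval w‖ ^ 2 : ℝ) : ℂ) *
        ((Ph α m).eval w * conj ((Pt α m).eval w) / (nu α m : ℂ)) ∂σ =
      av (fun w => ((‖s.eval w‖ ^ 2 * ucf_rho α m L w : ℝ) : ℂ) *
        ((Ph α m).eval w / (Pt α m).eval w)) := by
  have hν := nu_pos h.lt m
  have hν' := nu_pos h.lt (m + L)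
  have hνC : (nu α m : ℂ) ≠ 0 := by exact_mod_cast hν.ne'
  have h1 := ucd_bs h (m + L) (s * Ph α m) (s * Pt α m) (ucf_deg α m L hs).1 (ucf_deg α m L hs).2
  have e1 : (fun w => (s * Ph α m).eval w * conj ((s * Pt α m).eval w)) =
      fun w => (nu α m : ℂ) * (((‖s.eval w‖ ^ 2 : ℝ) : ℂ) *
        ((Ph α m).eval w * conj ((Pt α m).eval w) / (nu α m : ℂ))) := by
    funext w
    rw [eval_mul, eval_mul, map_mul, ← Complex.normSq_eq_norm_sq, ← Complex.mul_conj]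
    field_simp
  have e2 : av (fun w => (s * Ph α m).eval w * conj ((s * Pt α m).eval w) *
      ((nu α (m + L) / ‖(Ph α (m + L)).eval w‖ ^ 2 : ℝ) : ℂ)) =
      (nu α m : ℂ) * av (fun w => ((‖s.eval w‖ ^ 2 * ucf_rho α m L w : ℝ) : ℂ) *
        ((Ph α m).eval w / (Pt α m).eval w)) := by
    have h3 := Real.circleAverage_fun_smul (a := (nu α m : ℂ)) (f := fun w =>
      ((‖s.eval w‖ ^ 2 * ucf_rho α m L w : ℝ) : ℂ) * ((Ph α m).eval w / (Pt α m).eval w))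
      (c := 0) (R := 1)
    simp only [smul_eq_mul] at h3
    refine Eq.trans ?_ h3
    apply ucf_av_congr
    intro w hw
    have hψ := (uca_nz h.lt m hw.le).1
    have hφ' := ucf_ph_ne h.lt (m + L) hw
    have hφ'n : (‖(Ph α (m + L)).eval w‖ : ℂ) ≠ 0 := by
      exact_mod_cast norm_ne_zero_iff.2 hφ'
    have hss : ((‖s.eval w‖ ^ 2 : ℝ) : ℂ) = s.eval w * conj (s.eval w) := by
      rw [← Complex.normSq_eq_norm_sq, ← Complex.mul_conj]
    have hpp : ((‖(Ph α m).eval w‖ ^ 2 : ℝ) : ℂ) =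
        (Pt α m).eval w * conj ((Pt α m).eval w) := by
      rw [← uca_abs α m hw, ← Complex.normSq_eq_norm_sq, ← Complex.mul_conj]
    have hνC' : (nu α (m + L) : ℂ) ≠ 0 := by exact_mod_cast hν'.ne'
    have hr : ((‖s.eval w‖ ^ 2 * ucf_rho α m L w : ℝ) : ℂ) = s.eval w * conj (s.eval w) *
        ((Pt α m).eval w * conj ((Pt α m).eval w) / (nu α m : ℂ) *
          ((nu α (m + L) / ‖(Ph α (m + L)).eval w‖ ^ 2 : ℝ) : ℂ)) := by
      rw [Complex.ofReal_mul, hss, ← hpp]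
      congr 1
      rw [← Complex.ofReal_div, ← Complex.ofReal_mul]
      congr 1
      unfold ucf_rho
      field_simp
    rw [hr, eval_mul, eval_mul, map_mul]
    field_simp
  rw [e1, e2] at h1
  have h4 : ∫ w, (nu α m : ℂ) * (((‖s.eval w‖ ^ 2 : ℝ) : ℂ) *
        ((Ph α m).eval w * conj ((Pt α m).eval w) / (nu α m : ℂ))) ∂σ = (nu α m : ℂ) *
      ∫ w, (((‖s.eval w‖ ^ 2 : ℝ) : ℂ) *
        ((Ph α m).eval w * conj ((Pt α m).eval w) / (nu α m : ℂ))) ∂σ :=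
    integral_const_mul _ _
  rw [h4] at h1
  exact mul_left_cancel₀ hνC h1

/-! ### The two windows -/

theorem ucf_up {σ : Measure ℂ} {α : ℕ → ℂ} (h : Szego σ α) (m L : ℕ) {δ : ℝ}
    (hδ : 0 < δ) (hδ1 : δ ≤ 1 / 4) : ∃ B : ℂ → ℝ, Measurable B ∧ (∀ w, 0 ≤ B w) ∧
    CircleIntegrable B 0 1 ∧ av B ≤ 7 * En α (Finset.Ico m (m + L)) / δ ^ 2 ∧
    ∀ w : ℂ, ‖w‖ = 1 → |ucf_rho α m L w - 1| ≤ 3 * δ + B w := by
  obtain ⟨C, D, h1, -, h3, h4, h5, h6⟩ := uce_window h.lt m L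
  have hq := ucf_energy h3 h4 h6
  have hE := en_nonneg h.lt (Finset.Ico m (m + L))
  have hrc := ucf_rho_cont h.lt m L
  have hrm := ucf_rho_meas α m L
  have hr0 := ucf_rho_nonneg h.lt m L
  have hqc : ContinuousOn (fun w => ‖D.eval w‖ ^ 2 / ‖C.eval w‖ ^ 2) {w : ℂ | ‖w‖ = 1} :=
    ucf_cq h4
  have hqm : Measurable (fun w : ℂ => ‖D.eval w‖ ^ 2 / ‖C.eval w‖ ^ 2) :=
    ((ucf_cont D).norm.pow 2).measurable.div ((ucf_cont C).norm.pow 2).measurable
  obtain ⟨S, hS⟩ : ∃ S : Set ℂ, S = {w | δ ^ 2 ≤ ‖D.eval w‖ ^ 2 / ‖C.eval w‖ ^ 2} := ⟨_, rfl⟩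
  have hSm : MeasurableSet S := by
    rw [hS]
    exact measurableSet_le measurable_const hqm
  have hBm : Measurable (S.indicator fun w => ucf_rho α m L w + 1) :=
    (hrm.add_const 1).indicator hSm
  have hB0 : ∀ w, 0 ≤ S.indicator (fun w => ucf_rho α m L w + 1) w := fun w =>
    indicator_nonneg (fun w _ => by linarith [hr0 w]) w
  obtain ⟨K, hK⟩ : ∃ K : ℝ, ∀ w : ℂ, ‖w‖ = 1 → ‖ucf_rho α m L w‖ ≤ K := by
    have hc : IsCompact {w : ℂ | ‖w‖ = 1} := by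
      have := isCompact_sphere (0 : ℂ) 1
      convert this using 1
      ext w
      simp
    exact hc.exists_bound_of_continuousOn hrc
  have hBi : CircleIntegrable (S.indicator fun w => ucf_rho α m L w + 1) 0 1 := by
    refine ucf_ci (K := K + 1) hBm ?_
    intro w hw
    rw [abs_of_nonneg (hB0 w)]
    refine (indicator_le_self' (fun w _ => by linarith [hr0 w]) w).trans ?_
    have := hK w hw
    rw [Real.norm_eq_abs, abs_of_nonneg (hr0 w)] at this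
    linarith
  -- the function h
  have hψ : ∀ w : ℂ, ‖w‖ ≤ 1 → (Pt α m).eval w ≠ 0 := fun w hw => (uca_nz h.lt m hw).1
  have hhd : ∀ w : ℂ, ‖w‖ ≤ 1 → DifferentiableAt ℂ
      (fun w => D.eval w * (Ph α m).eval w / (C.eval w * (Pt α m).eval w)) w := by
    intro w hw
    refine DifferentiableAt.div ?_ ?_ ?_
    · exact D.differentiableAt.mul (Ph α m).differentiableAt
    · exact C.differentiableAt.mul (Pt α m).differentiableAt
    · exact mul_ne_zero (h4 w hw) (hψ w hw)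
  have hhc : ContinuousOn (fun w => D.eval w * (Ph α m).eval w / (C.eval w * (Pt α m).eval w))
      {w : ℂ | ‖w‖ = 1} := fun w hw => (hhd w (le_of_eq hw)).continuousAt.continuousWithinAt
  have hhre : ContinuousOn (fun w => (D.eval w * (Ph α m).eval w /
      (C.eval w * (Pt α m).eval w)).re) {w : ℂ | ‖w‖ = 1} :=
    Complex.continuous_re.comp_continuousOn hhc
  have hav : av (fun w => (D.eval w * (Ph α m).eval w /
      (C.eval w * (Pt α m).eval w)).re) = 0 := by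
    rw [ucf_av_re (ucf_ci_cont hhc), ucf_mean hhd]
    simp [h5]
  have hrho : ∀ w : ℂ, ‖w‖ = 1 → ucf_rho α m L w =
      (1 - ‖D.eval w * (Ph α m).eval w / (C.eval w * (Pt α m).eval w)‖ ^ 2) /
        ‖1 + D.eval w * (Ph α m).eval w / (C.eval w * (Pt α m).eval w)‖ ^ 2 := by
    intro w hw
    have := ucf_rho_alg (nu_pos h.lt m) (nu_pos h.lt (m + L)) (uca_abs α m hw) (hψ w hw.le)
      (h4 w hw.le) (h3 w hw) (h1 w)
    rw [← this, uca_abs α (m + L) hw]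
    rfl
  have hhn : ∀ w : ℂ, ‖w‖ = 1 →
      ‖D.eval w * (Ph α m).eval w / (C.eval w * (Pt α m).eval w)‖ ^ 2 =
        ‖D.eval w‖ ^ 2 / ‖C.eval w‖ ^ 2 := by
    intro w hw
    have hc := norm_ne_zero_iff.2 (h4 w hw.le)
    have hp := norm_ne_zero_iff.2 (hψ w hw.le)
    rw [norm_div, norm_mul, norm_mul, ← uca_abs α m hw]
    field_simp
  have hh1 : ∀ w : ℂ, ‖w‖ = 1 →
      ‖D.eval w * (Ph α m).eval w / (C.eval w * (Pt α m).eval w)‖ < 1 := by
    intro w hw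
    have hc := norm_pos_iff.2 (h4 w hw.le)
    have h7 := h3 w hw
    refine lt_of_pow_lt_pow_left₀ 2 zero_le_one ?_
    rw [hhn w hw, one_pow, div_lt_one (by positivity)]
    linarith
  have hav1 : av (ucf_rho α m L) = 1 := by
    have h8 := ucf_bs1 h m L (s := 1) (by simp)
    simp only [eval_one, norm_one, one_pow, one_mul] at h8
    rw [integral_div, ucb_norm h m, div_self (nu_pos h.lt m).ne'] at h8
    exact h8.symm
  refine ⟨S.indicator fun w => ucf_rho α m L w + 1, hBm, hB0, hBi, ?_, ?_⟩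
  · have i1 : CircleIntegrable (ucf_rho α m L) 0 1 := ucf_ci_cont hrc
    have i2 : CircleIntegrable (fun w => (2 : ℝ) * (D.eval w * (Ph α m).eval w /
      (C.eval w * (Pt α m).eval w)).re) 0 1 := ucf_ci_cont (continuousOn_const.mul hhre)
    have i3 : CircleIntegrable (fun w => (4 / δ ^ 2 + 3) *
        (‖D.eval w‖ ^ 2 / ‖C.eval w‖ ^ 2)) 0 1 := ucf_ci_cont (continuousOn_const.mul hqc)
    have i12 : CircleIntegrable (fun w => ucf_rho α m L w + 2 * (D.eval w * (Ph α m).eval w /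
      (C.eval w * (Pt α m).eval w)).re) 0 1 := i1.add i2
    have i123 : CircleIntegrable (fun w => (ucf_rho α m L w + 2 * (D.eval w * (Ph α m).eval w /
      (C.eval w * (Pt α m).eval w)).re) + (4 / δ ^ 2 + 3) *
        (‖D.eval w‖ ^ 2 / ‖C.eval w‖ ^ 2)) 0 1 := i12.add i3
    have hle : av (S.indicator fun w => ucf_rho α m L w + 1) ≤
        av (fun w => -1 + ((ucf_rho α m L w + 2 * (D.eval w * (Ph α m).eval w /
      (C.eval w * (Pt α m).eval w)).re) + (4 / δ ^ 2 + 3) *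
        (‖D.eval w‖ ^ 2 / ‖C.eval w‖ ^ 2))) := by
      refine ucf_av_mono hBi ((circleIntegrable_const _ _ _).add i123) ?_
      intro w hw
      have hre := (abs_le.1 (Complex.abs_re_le_norm (D.eval w * (Ph α m).eval w /
        (C.eval w * (Pt α m).eval w)))).1
      have hlt := hh1 w hw
      have hq0 : 0 ≤ ‖D.eval w‖ ^ 2 / ‖C.eval w‖ ^ 2 := by positivity
      by_cases hwS : w ∈ S
      · rw [indicator_of_mem hwS]
        rw [hS] at hwS
        have hwS' : δ ^ 2 ≤ ‖D.eval w‖ ^ 2 / ‖C.eval w‖ ^ 2 := hwS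
        have h9 : 4 ≤ 4 / δ ^ 2 * (‖D.eval w‖ ^ 2 / ‖C.eval w‖ ^ 2) := by
          rw [div_mul_eq_mul_div, le_div_iff₀ (by positivity)]
          linarith
        nlinarith
      · rw [indicator_of_notMem hwS]
        have h9 := ucf_rho2 (hh1 w hw)
        rw [← hrho w hw, hhn w hw] at h9
        have h10 : 0 ≤ 4 / δ ^ 2 * (‖D.eval w‖ ^ 2 / ‖C.eval w‖ ^ 2) := by positivity
        nlinarith
    refine hle.trans ?_
    rw [ucf_av_add (circleIntegrable_const _ _ _) i123, ucf_av_add i12 i3, ucf_av_add i1 i2,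
      ucf_av_const, ucf_av_mul, ucf_av_mul, hav, hav1]
    have h11 : (4 / δ ^ 2 + 3) * av (fun w => ‖D.eval w‖ ^ 2 / ‖C.eval w‖ ^ 2) ≤
        (4 / δ ^ 2 + 3) * En α (Finset.Ico m (m + L)) :=
      mul_le_mul_of_nonneg_left hq (by positivity)
    have h12 : 3 * En α (Finset.Ico m (m + L)) ≤ 3 * En α (Finset.Ico m (m + L)) / δ ^ 2 := by
      rw [le_div_iff₀ (by positivity)]
      have : δ ^ 2 ≤ 1 := by nlinarith
      nlinarith
    have h13 : 7 * En α (Finset.Ico m (m + L)) / δ ^ 2 = 4 / δ ^ 2 * En α (Finset.Ico m (m + L))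
        + 3 * En α (Finset.Ico m (m + L)) / δ ^ 2 := by
      field_simp
      ring
    rw [h13]
    linarith
  · intro w hw
    by_cases hwS : w ∈ S
    · rw [indicator_of_mem hwS, abs_le]
      have := hr0 w
      constructor <;> linarith
    · rw [indicator_of_notMem hwS, add_zero, hrho w hw]
      apply ucf_rho1 hδ1
      refine lt_of_pow_lt_pow_left₀ 2 hδ.le ?_
      rw [hhn w hw]
      rw [hS] at hwS
      exact not_le.1 hwS

theorem ucf_low_alg {C D φ0 ψ0 w : ℂ} {δ : ℝ} {L : ℕ} (hδ1 : δ ≤ 1 / 4) (hw : ‖w‖ = 1)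
    (hψ : ψ0 ≠ 0) (hφψ : ‖ψ0‖ = ‖φ0‖) (hC : C ≠ 0) (h1 : ‖D‖ ^ 2 / ‖C‖ ^ 2 < δ ^ 2)
    (h2 : ‖1 - C⁻¹‖ < δ) {φ ψ : ℂ} (hψφ : ψ = C * ψ0 + D * φ0)
    (hφψ' : φ = w ^ L * conj C * φ0 + w ^ L * conj D * ψ0) :
    ‖φ / ψ - w ^ L * (φ0 / ψ0)‖ ≤ 6 * δ := by
  have hδ0 : 0 < δ := lt_of_le_of_lt (norm_nonneg _) h2
  have hcn := norm_pos_iff.2 hC
  have hpn := norm_pos_iff.2 hψ
  -- g = 1 + (D/C)(φ0/ψ0)
  obtain ⟨b, hb⟩ : ∃ b : ℂ, b = φ0 / ψ0 := ⟨_, rfl⟩
  have hbn : ‖b‖ = 1 := by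
    rw [hb, norm_div, ← hφψ, div_self hpn.ne']
  obtain ⟨g, hg⟩ : ∃ g : ℂ, g = 1 + D / C * b := ⟨_, rfl⟩
  have hg1 : ‖1 - g‖ < δ := by
    have e : 1 - g = -(D / C * b) := by rw [hg]; ring
    rw [e, norm_neg, norm_mul, hbn, mul_one, norm_div]
    refine lt_of_pow_lt_pow_left₀ 2 hδ0.le ?_
    rw [div_pow]
    exact h1
  obtain ⟨hg0, hgc⟩ := ucf_conj hδ1 hg1
  obtain ⟨hv0, hvc⟩ := ucf_conj hδ1 h2
  have hψ' : ψ = C * g * ψ0 := by
    rw [hψφ, hg, hb]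
    field_simp
  have hbb : b * conj b = 1 := by
    rw [Complex.mul_conj, Complex.normSq_eq_norm_sq, hbn]
    simp
  have hφ' : φ = w ^ L * b * conj (C * g) * ψ0 := by
    have e1 : conj (C * g) = conj C + conj D * conj b := by
      rw [hg, map_mul, map_add, map_mul, map_div₀, map_one]
      have : conj C ≠ 0 := by
        simpa using hC
      field_simp
    have e2 : φ0 = b * ψ0 := by
      rw [hb]
      field_simp
    rw [hφψ', e1, e2]
    linear_combination (-(w ^ L) * conj D * ψ0) * hbb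
  have hcg : C * g ≠ 0 := mul_ne_zero hC hg0
  have e3 : φ / ψ - w ^ L * b = w ^ L * b * (conj (C * g) / (C * g) - 1) := by
    rw [hψ', hφ']
    field_simp
  rw [← hb, e3, norm_mul, norm_mul, norm_pow, hw, one_pow, hbn, one_mul, one_mul]
  have hCc : conj C ≠ 0 := by
    simpa using hC
  have e4 : conj (C * g) / (C * g) - 1 = (conj g / g) * (C⁻¹ / conj C⁻¹ - 1) +
      (conj g / g - 1) := by
    rw [map_mul, map_inv₀]
    field_simp
    ring
  have hn1 : ‖conj g / g‖ = 1 := by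
    rw [norm_div, Complex.norm_conj, div_self (norm_ne_zero_iff.2 hg0)]
  have hn2 : ‖C⁻¹ / conj C⁻¹ - 1‖ = ‖conj C⁻¹ / C⁻¹ - 1‖ := by
    rw [← Complex.norm_conj (conj C⁻¹ / C⁻¹ - 1), map_sub, map_div₀, Complex.conj_conj, map_one]
  rw [e4]
  refine (norm_add_le _ _).trans ?_
  rw [norm_mul, hn1, one_mul, hn2]
  linarith

theorem ucf_low {α : ℕ → ℂ} (hα : ∀ n, ‖α n‖ < 1) (m L : ℕ) {δ : ℝ}
    (hδ : 0 < δ) (hδ1 : δ ≤ 1 / 4) : ∃ B : ℂ → ℝ, Measurable B ∧ (∀ w, 0 ≤ B w) ∧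
    CircleIntegrable B 0 1 ∧ av B ≤ 4 * En α (Finset.Ico m (m + L)) / δ ^ 2 ∧
    ∀ w : ℂ, ‖w‖ = 1 → ‖(Ph α (m + L)).eval w / (Pt α (m + L)).eval w -
      w ^ L * ((Ph α m).eval w / (Pt α m).eval w)‖ ≤ 6 * δ + B w := by
  obtain ⟨C, D, h1, h2, h3, h4, h5, h6⟩ := uce_window hα m L
  have hq := ucf_energy h3 h4 h6
  have hq2 := ucf_energy2 h3 h4 h6
  have hE := en_nonneg hα (Finset.Ico m (m + L))
  have hqc : ContinuousOn (fun w => ‖D.eval w‖ ^ 2 / ‖C.eval w‖ ^ 2) {w : ℂ | ‖w‖ = 1} :=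
    ucf_cq h4
  have hqm : Measurable (fun w : ℂ => ‖D.eval w‖ ^ 2 / ‖C.eval w‖ ^ 2) :=
    ((ucf_cont D).norm.pow 2).measurable.div ((ucf_cont C).norm.pow 2).measurable
  have hvc : ContinuousOn (fun w => ‖1 - (C.eval w)⁻¹‖ ^ 2) {w : ℂ | ‖w‖ = 1} := by
    refine (continuousOn_const.sub ?_).norm.pow 2
    exact (ucf_cont C).continuousOn.inv₀ fun w hw => h4 w (le_of_eq hw)
  have hvm : Measurable (fun w : ℂ => ‖1 - (C.eval w)⁻¹‖ ^ 2) := by
    exact ((measurable_const.sub (ucf_cont C).measurable.inv).norm).pow_const 2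
  obtain ⟨S, hS⟩ : ∃ S : Set ℂ, S = {w | δ ^ 2 ≤ ‖D.eval w‖ ^ 2 / ‖C.eval w‖ ^ 2} ∪
    {w | δ ^ 2 ≤ ‖1 - (C.eval w)⁻¹‖ ^ 2} := ⟨_, rfl⟩
  have hSm : MeasurableSet S := by
    rw [hS]
    exact (measurableSet_le measurable_const hqm).union (measurableSet_le measurable_const hvm)
  have hBm : Measurable (S.indicator fun _ => (2 : ℝ)) := measurable_const.indicator hSm
  have hB0 : ∀ w, 0 ≤ S.indicator (fun _ => (2 : ℝ)) w := fun w =>
    indicator_nonneg (fun w _ => by norm_num) w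
  have hBi : CircleIntegrable (S.indicator fun _ => (2 : ℝ)) 0 1 := by
    refine ucf_ci (K := 2) hBm ?_
    intro w hw
    rw [abs_of_nonneg (hB0 w)]
    exact indicator_le_self' (fun w _ => by norm_num) w
  refine ⟨S.indicator fun _ => (2 : ℝ), hBm, hB0, hBi, ?_, ?_⟩
  · have i1 : CircleIntegrable (fun w => 2 / δ ^ 2 * (‖D.eval w‖ ^ 2 / ‖C.eval w‖ ^ 2)) 0 1 :=
      ucf_ci_cont (continuousOn_const.mul hqc)
    have i2 : CircleIntegrable (fun w => 2 / δ ^ 2 * ‖1 - (C.eval w)⁻¹‖ ^ 2) 0 1 :=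
      ucf_ci_cont (continuousOn_const.mul hvc)
    have hle : av (S.indicator fun _ => (2 : ℝ)) ≤
        av (fun w => 2 / δ ^ 2 * (‖D.eval w‖ ^ 2 / ‖C.eval w‖ ^ 2) +
          2 / δ ^ 2 * ‖1 - (C.eval w)⁻¹‖ ^ 2) := by
      refine ucf_av_mono hBi (i1.add i2) ?_
      intro w hw
      have p1 : 0 ≤ 2 / δ ^ 2 * (‖D.eval w‖ ^ 2 / ‖C.eval w‖ ^ 2) := by positivity
      have p2 : 0 ≤ 2 / δ ^ 2 * ‖1 - (C.eval w)⁻¹‖ ^ 2 := by positivity
      by_cases hwS : w ∈ S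
      · rw [indicator_of_mem hwS]
        rw [hS] at hwS
        rcases hwS with hw1 | hw1
        · have hw2 : δ ^ 2 ≤ ‖D.eval w‖ ^ 2 / ‖C.eval w‖ ^ 2 := hw1
          have h9 : 2 ≤ 2 / δ ^ 2 * (‖D.eval w‖ ^ 2 / ‖C.eval w‖ ^ 2) := by
            rw [div_mul_eq_mul_div, le_div_iff₀ (by positivity)]
            linarith
          linarith
        · have hw2 : δ ^ 2 ≤ ‖1 - (C.eval w)⁻¹‖ ^ 2 := hw1
          have h9 : 2 ≤ 2 / δ ^ 2 * ‖1 - (C.eval w)⁻¹‖ ^ 2 := by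
            rw [div_mul_eq_mul_div, le_div_iff₀ (by positivity)]
            linarith
          linarith
      · rw [indicator_of_notMem hwS]
        linarith
    refine hle.trans ?_
    rw [ucf_av_add i1 i2, ucf_av_mul, ucf_av_mul]
    have h11 := mul_le_mul_of_nonneg_left hq (show 0 ≤ 2 / δ ^ 2 by positivity)
    have h12 := mul_le_mul_of_nonneg_left hq2 (show 0 ≤ 2 / δ ^ 2 by positivity)
    have h13 : 4 * En α (Finset.Ico m (m + L)) / δ ^ 2 =
        2 / δ ^ 2 * En α (Finset.Ico m (m + L)) + 2 / δ ^ 2 * En α (Finset.Ico m (m + L)) := by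
      field_simp
      ring
    rw [h13]
    linarith
  · intro w hw
    by_cases hwS : w ∈ S
    · rw [indicator_of_mem hwS]
      refine (norm_sub_le _ _).trans ?_
      have q1 : ‖(Ph α (m + L)).eval w / (Pt α (m + L)).eval w‖ ≤ 1 := by
        rw [norm_div, uca_abs α (m + L) hw]
        exact div_self_le_one _
      have q2 : ‖w ^ L * ((Ph α m).eval w / (Pt α m).eval w)‖ ≤ 1 := by
        rw [norm_mul, norm_pow, hw, one_pow, one_mul, norm_div, uca_abs α m hw]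
        exact div_self_le_one _
      linarith
    · rw [indicator_of_notMem hwS, add_zero]
      rw [hS] at hwS
      have hn1 : ¬ (δ ^ 2 ≤ ‖D.eval w‖ ^ 2 / ‖C.eval w‖ ^ 2) := fun hx => hwS (Or.inl hx)
      have hn2 : ¬ (δ ^ 2 ≤ ‖1 - (C.eval w)⁻¹‖ ^ 2) := fun hx => hwS (Or.inr hx)
      have hs1 : (√(nu α m) : ℂ) ≠ 0 := by
        exact_mod_cast (Real.sqrt_pos.2 (nu_pos hα m)).ne'
      have hs2 : (√(nu α (m + L)) : ℂ) ≠ 0 := by
        exact_mod_cast (Real.sqrt_pos.2 (nu_pos hα (m + L))).ne'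
      have hψ := (uca_nz hα m hw.le).1
      have hψ2 := (uca_nz hα (m + L) hw.le).1
      have key := ucf_low_alg (L := L) hδ1 hw (div_ne_zero hψ hs1)
        (by rw [norm_div, norm_div, uca_abs α m hw]) (h4 w hw.le) (not_le.1 hn1)
        (lt_of_pow_lt_pow_left₀ 2 hδ.le (not_le.1 hn2)) (h1 w) (h2 w hw)
      rw [div_div_div_cancel_right₀ hs2, div_div_div_cancel_right₀ hs1] at key
      exact key

theorem ucf_zero {α : ℕ → ℂ} (hα : ∀ n, ‖α n‖ < 1) (m L : ℕ) {s : ℂ[X]}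
    (hs : s.natDegree < L) :
    av (fun w => ((‖s.eval w‖ ^ 2 : ℝ) : ℂ) *
      (w ^ L * ((Ph α m).eval w / (Pt α m).eval w))) = 0 := by
  obtain ⟨R, hR⟩ : ∃ R : ℂ[X], R = ∑ i ∈ Finset.range L, C (conj (s.coeff i)) * X ^ (L - i) :=
    ⟨_, rfl⟩
  have hR0 : R.eval 0 = 0 := by
    rw [hR, eval_finsetSum]
    apply Finset.sum_eq_zero
    intro i hi
    have : L - i ≠ 0 := by
      have := Finset.mem_range.1 hi
      omega
    simp [this]
  have hRw : ∀ w : ℂ, ‖w‖ = 1 → w ^ L * conj (s.eval w) = R.eval w := by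
    intro w hw
    have hww : w * conj w = 1 := by
      rw [Complex.mul_conj, Complex.normSq_eq_norm_sq, hw]
      simp
    rw [hR, eval_finsetSum, eval_eq_sum_range' hs, map_sum, Finset.mul_sum]
    refine Finset.sum_congr rfl fun i hi => ?_
    have hi' := Finset.mem_range.1 hi
    have e : w ^ L = w ^ (L - i) * w ^ i := by
      rw [← pow_add]
      congr 1
      omega
    rw [eval_mul, eval_C, eval_pow, eval_X, map_mul, map_pow, e]
    have e2 : w ^ i * conj w ^ i = 1 := by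
      rw [← mul_pow, hww, one_pow]
    linear_combination (w ^ (L - i) * conj (s.coeff i)) * e2
  have h1 : av (fun w => ((‖s.eval w‖ ^ 2 : ℝ) : ℂ) *
      (w ^ L * ((Ph α m).eval w / (Pt α m).eval w))) =
      av (fun w => s.eval w * R.eval w * ((Ph α m).eval w / (Pt α m).eval w)) := by
    apply ucf_av_congr
    intro w hw
    rw [← hRw w hw, ← Complex.normSq_eq_norm_sq, ← Complex.mul_conj]
    ring
  rw [h1, ucf_mean]
  · rw [hR0]
    ring
  · intro w hw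
    refine (s.differentiableAt.mul R.differentiableAt).mul ?_
    exact (Ph α m).differentiableAt.div (Pt α m).differentiableAt (uca_nz hα m hw).1

theorem ucf_split (α : ℕ → ℂ) (m L : ℕ) (hL : L ≤ m) :
    En α (Finset.Ico (m - L) (m + L)) =
      En α (Finset.Ico (m - L) m) + En α (Finset.Ico m (m + L)) := by
  unfold En
  rw [Finset.sum_Ico_consecutive _ (by omega) (by omega)]

theorem ucf_local {σ : Measure ℂ} {α : ℕ → ℂ} (h : Szego σ α) (m L : ℕ) (hL : L ≤ m) (δ : ℝ)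
    (hδ : 0 < δ) (hδ1 : δ ≤ 1 / 4) : ∃ B : ℂ → ℝ, Measurable B ∧ (∀ w, 0 ≤ B w) ∧
    CircleIntegrable B 0 1 ∧ av B ≤ 11 * En α (Finset.Ico (m - L) (m + L)) / δ ^ 2 ∧
    ∀ s : ℂ[X], s.natDegree < L →
      |∫ w, ‖s.eval w‖ ^ 2 * (‖(Ph α m).eval w‖ ^ 2 / nu α m) ∂σ - av (fun w => ‖s.eval w‖ ^ 2)| ≤
        3 * δ * av (fun w => ‖s.eval w‖ ^ 2) + av (fun w => ‖s.eval w‖ ^ 2 * B w) ∧
      ‖∫ w, ((‖s.eval w‖ ^ 2 : ℝ) : ℂ) * ((Ph α m).eval w * conj ((Pt α m).eval w) / (nu α m : ℂ)) ∂σ‖ ≤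
        9 * δ * av (fun w => ‖s.eval w‖ ^ 2) + av (fun w => ‖s.eval w‖ ^ 2 * B w) := by
  obtain ⟨B1, hm1, hp1, hi1, ha1, hb1⟩ := ucf_up h m L hδ hδ1
  obtain ⟨B2, hm2, hp2, hi2, ha2, hb2⟩ := ucf_low h.lt (m - L) L hδ hδ1
  rw [Nat.sub_add_cancel hL] at ha2 hb2
  have hE1 := en_nonneg h.lt (Finset.Ico m (m + L))
  have hE2 := en_nonneg h.lt (Finset.Ico (m - L) m)
  have hrc := ucf_rho_cont h.lt m L
  have hr0 := ucf_rho_nonneg h.lt m L
  have hBi : CircleIntegrable (fun w => B1 w + B2 w) 0 1 := hi1.add hi2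
  refine ⟨fun w => B1 w + B2 w, hm1.add hm2, fun w => add_nonneg (hp1 w) (hp2 w), hBi, ?_, ?_⟩
  · rw [ucf_av_add hi1 hi2, ucf_split α m L hL]
    have h1 : 11 * (En α (Finset.Ico (m - L) m) + En α (Finset.Ico m (m + L))) / δ ^ 2 =
        7 * En α (Finset.Ico m (m + L)) / δ ^ 2 + 4 * En α (Finset.Ico (m - L) m) / δ ^ 2 +
          (4 * En α (Finset.Ico m (m + L)) + 7 * En α (Finset.Ico (m - L) m)) / δ ^ 2 := by
      ring
    have h2 : 0 ≤ (4 * En α (Finset.Ico m (m + L)) + 7 * En α (Finset.Ico (m - L) m)) / δ ^ 2 := by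
      positivity
    rw [h1]
    linarith
  · intro s hs
    have hsc : ContinuousOn (fun w => ‖s.eval w‖ ^ 2) {w : ℂ | ‖w‖ = 1} :=
      ((ucf_cont s).norm.pow 2).continuousOn
    have hsc' : ContinuousOn (fun w => ‖s.eval w‖ ^ 2) (Metric.sphere (0 : ℂ) |1|) :=
      ((ucf_cont s).norm.pow 2).continuousOn
    have is : CircleIntegrable (fun w => ‖s.eval w‖ ^ 2) 0 1 := ucf_ci_cont hsc
    have isB : CircleIntegrable (fun w => ‖s.eval w‖ ^ 2 * (B1 w + B2 w)) 0 1 :=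
      hBi.continuousOn_mul hsc'
    have is3 : ∀ c : ℝ, CircleIntegrable (fun w => c * ‖s.eval w‖ ^ 2) 0 1 := fun c =>
      ucf_ci_cont (continuousOn_const.mul hsc)
    have isr : CircleIntegrable (fun w => ‖s.eval w‖ ^ 2 * ucf_rho α m L w) 0 1 :=
      ucf_ci_cont (hsc.mul hrc)
    constructor
    · rw [ucf_bs1 h m L hs.le]
      have e1 : av (fun w => ‖s.eval w‖ ^ 2 * ucf_rho α m L w) - av (fun w => ‖s.eval w‖ ^ 2) =
          av (fun w => ‖s.eval w‖ ^ 2 * ucf_rho α m L w + (-1) * ‖s.eval w‖ ^ 2) := by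
        rw [ucf_av_add isr (is3 (-1)), ucf_av_mul]
        ring
      have i0 : CircleIntegrable (fun w => ‖s.eval w‖ ^ 2 * ucf_rho α m L w +
          (-1) * ‖s.eval w‖ ^ 2) 0 1 := isr.add (is3 (-1))
      rw [e1]
      refine Real.abs_circleAverage_le_circleAverage_abs.trans ?_
      rw [← ucf_av_mul, ← ucf_av_add (is3 _) isB]
      refine ucf_av_mono i0.abs ((is3 _).add isB) ?_
      intro w hw
      have h1 := hb1 w hw
      have h2 : ‖s.eval w‖ ^ 2 * ucf_rho α m L w + (-1) * ‖s.eval w‖ ^ 2 =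
          ‖s.eval w‖ ^ 2 * (ucf_rho α m L w - 1) := by ring
      have h3 : 0 ≤ ‖s.eval w‖ ^ 2 := by positivity
      simp only [Pi.abs_apply]
      rw [h2, abs_mul, abs_of_nonneg h3]
      have h4 := mul_le_mul_of_nonneg_left h1 h3
      have h5 := mul_nonneg h3 (hp2 w)
      nlinarith
    · rw [ucf_bs2 h m L hs.le]
      have hz := ucf_zero h.lt (m - L) L hs
      have cφ : ∀ k : ℕ, ContinuousOn (fun w => (Ph α k).eval w / (Pt α k).eval w)
          {w : ℂ | ‖w‖ = 1} := fun k =>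
        (ucf_cont _).continuousOn.div (ucf_cont _).continuousOn
          fun w hw => (uca_nz h.lt k (le_of_eq hw)).1
      have cs : ContinuousOn (fun w => ((‖s.eval w‖ ^ 2 : ℝ) : ℂ)) {w : ℂ | ‖w‖ = 1} :=
        Complex.continuous_ofReal.comp_continuousOn hsc
      have cr : ContinuousOn (fun w => ((‖s.eval w‖ ^ 2 * ucf_rho α m L w : ℝ) : ℂ))
          {w : ℂ | ‖w‖ = 1} := Complex.continuous_ofReal.comp_continuousOn (hsc.mul hrc)
      have c1 : ContinuousOn (fun w => ((‖s.eval w‖ ^ 2 * ucf_rho α m L w : ℝ) : ℂ) *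
        ((Ph α m).eval w / (Pt α m).eval w)) {w : ℂ | ‖w‖ = 1} := cr.mul (cφ m)
      have c2 : ContinuousOn (fun w => ((‖s.eval w‖ ^ 2 : ℝ) : ℂ) *
        (w ^ L * ((Ph α (m - L)).eval w / (Pt α (m - L)).eval w))) {w : ℂ | ‖w‖ = 1} :=
        cs.mul ((continuous_pow L).continuousOn.mul (cφ (m - L)))
      have e1 : av (fun w => ((‖s.eval w‖ ^ 2 * ucf_rho α m L w : ℝ) : ℂ) *
          ((Ph α m).eval w / (Pt α m).eval w)) =
          av (fun w => ((‖s.eval w‖ ^ 2 * ucf_rho α m L w : ℝ) : ℂ) *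
          ((Ph α m).eval w / (Pt α m).eval w) - ((‖s.eval w‖ ^ 2 : ℝ) : ℂ) *
        (w ^ L * ((Ph α (m - L)).eval w / (Pt α (m - L)).eval w))) := by
        have h7 : av (fun w => ((‖s.eval w‖ ^ 2 * ucf_rho α m L w : ℝ) : ℂ) *
          ((Ph α m).eval w / (Pt α m).eval w) - ((‖s.eval w‖ ^ 2 : ℝ) : ℂ) *
        (w ^ L * ((Ph α (m - L)).eval w / (Pt α (m - L)).eval w))) =
          av (fun w => ((‖s.eval w‖ ^ 2 * ucf_rho α m L w : ℝ) : ℂ) *
          ((Ph α m).eval w / (Pt α m).eval w)) - av (fun w => ((‖s.eval w‖ ^ 2 : ℝ) : ℂ) *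
        (w ^ L * ((Ph α (m - L)).eval w / (Pt α (m - L)).eval w))) :=
          Real.circleAverage_fun_sub (ucf_ci_cont c1) (ucf_ci_cont c2)
        rw [h7, hz, sub_zero]
      rw [e1, ← ucf_av_mul, ← ucf_av_add (is3 _) isB]
      refine ucf_norm_av_le (ucf_ci_cont (c1.sub c2)) ((is3 _).add isB) ?_
      intro w hw
      have h1 := hb1 w hw
      have h2 := hb2 w hw
      have h3 : 0 ≤ ‖s.eval w‖ ^ 2 := by positivity
      have hb : ‖(Ph α m).eval w / (Pt α m).eval w‖ ≤ 1 := by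
        rw [norm_div, uca_abs α m hw]
        exact div_self_le_one _
      have e2 : ((‖s.eval w‖ ^ 2 * ucf_rho α m L w : ℝ) : ℂ) *
          ((Ph α m).eval w / (Pt α m).eval w) - ((‖s.eval w‖ ^ 2 : ℝ) : ℂ) *
          (w ^ L * ((Ph α (m - L)).eval w / (Pt α (m - L)).eval w)) =
          ((‖s.eval w‖ ^ 2 : ℝ) : ℂ) * (((ucf_rho α m L w - 1 : ℝ) : ℂ) *
            ((Ph α m).eval w / (Pt α m).eval w) + ((Ph α m).eval w / (Pt α m).eval w -
              w ^ L * ((Ph α (m - L)).eval w / (Pt α (m - L)).eval w))) := by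
        push_cast
        ring
      rw [e2, norm_mul, Complex.norm_real, Real.norm_eq_abs, abs_of_nonneg h3]
      have h4 : ‖((ucf_rho α m L w - 1 : ℝ) : ℂ) *
            ((Ph α m).eval w / (Pt α m).eval w) + ((Ph α m).eval w / (Pt α m).eval w -
              w ^ L * ((Ph α (m - L)).eval w / (Pt α (m - L)).eval w))‖ ≤
          9 * δ + (B1 w + B2 w) := by
        refine (norm_add_le _ _).trans ?_
        rw [norm_mul, Complex.norm_real, Real.norm_eq_abs]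
        have h5 : |ucf_rho α m L w - 1| * ‖(Ph α m).eval w / (Pt α m).eval w‖ ≤
            |ucf_rho α m L w - 1| := mul_le_of_le_one_right (abs_nonneg _) hb
        linarith
      have h6 := mul_le_mul_of_nonneg_left h4 h3
      nlinarith

end Pool.H52.MQ
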