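import Pool.Agent.H52.MQ.LCA
import Pool.Agent.H52.MQ.LCB
import Pool.Agent.H52.MQ.LCC
import Pool.Agent.H52.MQ.LCD
import Pool.Agent.H52.MQ.UCF

/-! Module LOC (project MP_935a4b_QM): local lower bound for one pair (w, Y).  Uses LCA, LCB, LCC, LCD, UCF, UCJ, EXD.
Y = Ioo c d, g_j = gJ l j, for H : R x R -> C put ||H||_j^2 := 1/2 int_Y int_Y g_j(vp y) g_j(vp y')(y-y')^2 |H(y,y')|^2 dmu dmu (L2 seminorm; triangle inequality: all functions are continuous and bounded on the square,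
 exd_intble, exd_khat_cont, exd_kap_cont; use Minkowski in L2 of the product measure with the weight put in as sqrt, or the discriminant trick).
Jg := {j in Jin : av(g_j B) <= delta/(4l) and ||kap - Khat Q||_j <= delta s0/(16 l)}.
(1) number of j in Jin with av(g_j B) > delta/(4l) is <= (4l/delta) sum_{j in Jin} av(g_j B) = (4l/delta) av((sum g_j) B)  (B >= 0 circle integrable, g_j continuous).
(2) number of j with ||kap-Khat Q||_j^2 > (delta s0/(16 l))^2 >= delta^2/(1024 l^2) is <= 1024 l^2/delta^2 * (C/l^2) int_Y exq (lcd_sum).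
(3) j in Jg: ||Khat||_j^2 = ||Kc||_j^2 (exd_khat_norm) >= (s0^2/16)((1-20 delta)/(4l))^2 (lca_lower with g = g_j, lcb_AB with hB1, hB2 from h.main for s = s_j of ucj_sq), i.e. ||Khat||_j >= (1-20 delta) s0/(16 l);
    ||Khat (1-Q)||_j^2 <= C r^2 m/l^6 <= (delta s0/(16 l))^2 by hr (s0 >= 1/2; C >= 1024 C_lcc).
    kap = Khat - Khat(1-Q) + (kap - Khat Q), so ||kap||_j >= (1-22 delta) s0/(16 l) (>= 0 only if delta <= 1/22; if 1-22 delta < 0 note |1-22 delta| <= 1/10 ... simplest: hypothesis delta <= 1/22).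
    (y-y')^2/(DD DD')^2 kap^2 >= (y-y')^2 kap^2/Dm^4 (0 < DD <= Dm on Y: sba_DD). -/

open MeasureTheory Set Polynomial
open scoped ENNReal ComplexConjugate

namespace Pool.H52.MQ

/-- B controls the local estimate at level m with window L (conclusion of ucf_local) -/
structure LocB (σ : Measure ℂ) (α : ℕ → ℂ) (m L : ℕ) (δ : ℝ) (B : ℂ → ℝ) : Prop where
  meas : Measurable B
  nonneg : ∀ w, 0 ≤ B w
  cint : CircleIntegrable B 0 1
  av_le : av B ≤ 11 * En α (Finset.Ico (m - L) (m + L)) / δ ^ 2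
  main : ∀ s : ℂ[X], s.natDegree < L →
      |∫ w, ‖s.eval w‖ ^ 2 * (‖(Ph α m).eval w‖ ^ 2 / nu α m) ∂σ - av (fun w => ‖s.eval w‖ ^ 2)| ≤
        3 * δ * av (fun w => ‖s.eval w‖ ^ 2) + av (fun w => ‖s.eval w‖ ^ 2 * B w) ∧
      ‖∫ w, ((‖s.eval w‖ ^ 2 : ℝ) : ℂ) * ((Ph α m).eval w * conj ((Pt α m).eval w) / (nu α m : ℂ)) ∂σ‖ ≤
        9 * δ * av (fun w => ‖s.eval w‖ ^ 2) + av (fun w => ‖s.eval w‖ ^ 2 * B w)

theorem locb_exists {σ : Measure ℂ} {α : ℕ → ℂ} (h : Szego σ α) (m L : ℕ) (hL : L ≤ m) (δ : ℝ)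
    (hδ : 0 < δ) (hδ1 : δ ≤ 1 / 4) : ∃ B : ℂ → ℝ, LocB σ α m L δ B := by
  obtain ⟨B, h1, h2, h3, h4, h5⟩ := ucf_local h m L hL δ hδ hδ1
  exact ⟨B, ⟨h1, h2, h3, h4, h5⟩⟩

theorem LOC_sedr {D B C x y z : ℝ} (hD : 0 < D) (hB : 0 < B) (hC : 0 < C) :
    (x + y + z) ^ 2 ≤ (D + B + C) / D * x ^ 2 + (D + B + C) / B * y ^ 2 +
      (D + B + C) / C * z ^ 2 := by
  have h : (D + B + C) / D * x ^ 2 + (D + B + C) / B * y ^ 2 + (D + B + C) / C * z ^ 2 -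
      (x + y + z) ^ 2 = D * B * (x / D - y / B) ^ 2 + D * C * (x / D - z / C) ^ 2 +
      B * C * (y / B - z / C) ^ 2 := by
    field_simp
    ring
  have h1 : 0 ≤ D * B * (x / D - y / B) ^ 2 + D * C * (x / D - z / C) ^ 2 +
      B * C * (y / B - z / C) ^ 2 := by positivity
  linarith

theorem LOC_norm {D B C : ℝ} (hD : 0 < D) (hB : 0 < B) (hC : 0 < C) (a b c : ℂ) :
    ‖a + b - c‖ ^ 2 ≤ (D + B + C) / D * ‖a‖ ^ 2 + (D + B + C) / B * ‖b‖ ^ 2 +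
      (D + B + C) / C * ‖c‖ ^ 2 := by
  have h1 : ‖a + b - c‖ ≤ ‖a‖ + ‖b‖ + ‖c‖ :=
    (norm_sub_le _ _).trans (add_le_add (norm_add_le _ _) le_rfl)
  exact (pow_le_pow_left₀ (norm_nonneg _) h1 2).trans (LOC_sedr hD hB hC)

/-- the weighted integrand -/
noncomputable def LOC_F (g : ℂ → ℝ) (H : ℝ → ℝ → ℂ) (z : ℝ × ℝ) : ℝ :=
  g (vp z.1) * g (vp z.2) * ((z.1 - z.2) ^ 2 * ‖H z.1 z.2‖ ^ 2)

theorem LOC_cont {g : ℂ → ℝ} (hg : Continuous g) {H : ℝ → ℝ → ℂ}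
    (hH : ContinuousOn (fun z : ℝ × ℝ => H z.1 z.2) (Icc 0 1 ×ˢ Icc 0 1)) :
    ContinuousOn (LOC_F g H) (Icc 0 1 ×ˢ Icc 0 1) := by
  unfold LOC_F
  have h1 : Continuous fun z : ℝ × ℝ => g (vp z.1) := hg.comp (exd_vp_cont.comp continuous_fst)
  have h2 : Continuous fun z : ℝ × ℝ => g (vp z.2) := hg.comp (exd_vp_cont.comp continuous_snd)
  have h3 : Continuous fun z : ℝ × ℝ => (z.1 - z.2) ^ 2 :=
    (continuous_fst.sub continuous_snd).pow 2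
  exact (h1.mul h2).continuousOn.mul (h3.continuousOn.mul (hH.norm.pow 2))

theorem LOC_int {μ : Measure ℝ} (hμ : QM μ) {c d : ℝ} (hc : 0 ≤ c) (hd : d ≤ 1)
    {F : ℝ × ℝ → ℝ} (hF : ContinuousOn F (Icc 0 1 ×ˢ Icc 0 1)) :
    Integrable F ((μ.restrict (Ioo c d)).prod (μ.restrict (Ioo c d))) := by
  have h : Ioo c d ⊆ Icc (0 : ℝ) 1 := fun y hy => ⟨hc.trans hy.1.le, hy.2.le.trans hd⟩
  exact exd_intble hμ hF measurableSet_Ioo measurableSet_Ioo h h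

theorem LOC_fub {μ : Measure ℝ} (hμ : QM μ) {c d : ℝ} (hc : 0 ≤ c) (hd : d ≤ 1)
    {F : ℝ × ℝ → ℝ} (hF : ContinuousOn F (Icc 0 1 ×ˢ Icc 0 1)) :
    ∫ y in Ioo c d, ∫ y' in Ioo c d, F (y, y') ∂μ ∂μ =
      ∫ z, F z ∂((μ.restrict (Ioo c d)).prod (μ.restrict (Ioo c d))) := by
  have := hμ.prob
  exact (integral_prod F (LOC_int hμ hc hd hF)).symm

theorem LOC_nonneg {g : ℂ → ℝ} (hg0 : ∀ w, 0 ≤ g w) (H : ℝ → ℝ → ℂ) (z : ℝ × ℝ) :
    0 ≤ LOC_F g H z := by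
  unfold LOC_F
  have h1 := hg0 (vp z.1)
  have h2 := hg0 (vp z.2)
  positivity

/-- Minkowski inequality -/
theorem LOC_mink {μ : Measure ℝ} (hμ : QM μ) {c d : ℝ} (hc : 0 ≤ c) (hd : d ≤ 1)
    {g : ℂ → ℝ} (hg : Continuous g) (hg0 : ∀ w, 0 ≤ g w) {H0 H1 H2 H3 : ℝ → ℝ → ℂ}
    (c0 : ContinuousOn (fun z : ℝ × ℝ => H0 z.1 z.2) (Icc 0 1 ×ˢ Icc 0 1))
    (c1 : ContinuousOn (fun z : ℝ × ℝ => H1 z.1 z.2) (Icc 0 1 ×ˢ Icc 0 1))
    (c2 : ContinuousOn (fun z : ℝ × ℝ => H2 z.1 z.2) (Icc 0 1 ×ˢ Icc 0 1))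
    (c3 : ContinuousOn (fun z : ℝ × ℝ => H3 z.1 z.2) (Icc 0 1 ×ˢ Icc 0 1))
    (hsum : ∀ y y', H1 y y' = H0 y y' + H2 y y' - H3 y y')
    {D B C : ℝ} (hD : 0 < D) (hB : 0 < B) (hC : 0 < C)
    (h1 : (D + B + C) ^ 2 ≤ 1 / 2 * ∫ y in Ioo c d, ∫ y' in Ioo c d, LOC_F g H1 (y, y') ∂μ ∂μ)
    (h2 : 1 / 2 * ∫ y in Ioo c d, ∫ y' in Ioo c d, LOC_F g H2 (y, y') ∂μ ∂μ ≤ B ^ 2)
    (h3 : 1 / 2 * ∫ y in Ioo c d, ∫ y' in Ioo c d, LOC_F g H3 (y, y') ∂μ ∂μ ≤ C ^ 2) :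
    D ^ 2 ≤ 1 / 2 * ∫ y in Ioo c d, ∫ y' in Ioo c d, LOC_F g H0 (y, y') ∂μ ∂μ := by
  rw [LOC_fub hμ hc hd (LOC_cont hg c1)] at h1
  rw [LOC_fub hμ hc hd (LOC_cont hg c2)] at h2
  rw [LOC_fub hμ hc hd (LOC_cont hg c3)] at h3
  rw [LOC_fub hμ hc hd (LOC_cont hg c0)]
  set π := (μ.restrict (Ioo c d)).prod (μ.restrict (Ioo c d)) with hπ
  have i0 : Integrable (LOC_F g H0) π := LOC_int hμ hc hd (LOC_cont hg c0)
  have i1 : Integrable (LOC_F g H1) π := LOC_int hμ hc hd (LOC_cont hg c1)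
  have i2 : Integrable (LOC_F g H2) π := LOC_int hμ hc hd (LOC_cont hg c2)
  have i3 : Integrable (LOC_F g H3) π := LOC_int hμ hc hd (LOC_cont hg c3)
  set A := D + B + C with hA
  have hA0 : 0 < A := by positivity
  have hpt : ∀ z, LOC_F g H1 z ≤ A / D * LOC_F g H0 z + A / B * LOC_F g H2 z +
      A / C * LOC_F g H3 z := by
    intro z
    unfold LOC_F
    rw [hsum]
    have k1 := LOC_norm hD hB hC (H0 z.1 z.2) (H2 z.1 z.2) (H3 z.1 z.2)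
    have k2 : 0 ≤ g (vp z.1) * g (vp z.2) * (z.1 - z.2) ^ 2 := by
      have q1 := hg0 (vp z.1)
      have q2 := hg0 (vp z.2)
      positivity
    have k3 := mul_le_mul_of_nonneg_left k1 k2
    rw [← hA] at k3
    calc g (vp z.1) * g (vp z.2) * ((z.1 - z.2) ^ 2 * ‖H0 z.1 z.2 + H2 z.1 z.2 - H3 z.1 z.2‖ ^ 2)
        = g (vp z.1) * g (vp z.2) * (z.1 - z.2) ^ 2 *
          ‖H0 z.1 z.2 + H2 z.1 z.2 - H3 z.1 z.2‖ ^ 2 := by ring
      _ ≤ _ := k3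
      _ = _ := by ring
  have hint : ∫ z, LOC_F g H1 z ∂π ≤ A / D * (∫ z, LOC_F g H0 z ∂π) +
      A / B * (∫ z, LOC_F g H2 z ∂π) + A / C * (∫ z, LOC_F g H3 z ∂π) := by
    have j0 : Integrable (fun z => A / D * LOC_F g H0 z) π := i0.const_mul _
    have j2 : Integrable (fun z => A / B * LOC_F g H2 z) π := i2.const_mul _
    have j3 : Integrable (fun z => A / C * LOC_F g H3 z) π := i3.const_mul _
    have j02 : Integrable (fun z => A / D * LOC_F g H0 z + A / B * LOC_F g H2 z) π := j0.add j2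
    have j : Integrable (fun z => A / D * LOC_F g H0 z + A / B * LOC_F g H2 z +
      A / C * LOC_F g H3 z) π := j02.add j3
    refine (integral_mono i1 j hpt).trans (le_of_eq ?_)
    rw [integral_add j02 j3, integral_add j0 j2, integral_const_mul, integral_const_mul,
      integral_const_mul]
  by_contra hcon
  push Not at hcon
  have e1 : A / D * (1 / 2 * ∫ z, LOC_F g H0 z ∂π) < A / D * D ^ 2 :=
    mul_lt_mul_of_pos_left hcon (by positivity)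
  have e2 : A / B * (1 / 2 * ∫ z, LOC_F g H2 z ∂π) ≤ A / B * B ^ 2 :=
    mul_le_mul_of_nonneg_left h2 (by positivity)
  have e3 : A / C * (1 / 2 * ∫ z, LOC_F g H3 z ∂π) ≤ A / C * C ^ 2 :=
    mul_le_mul_of_nonneg_left h3 (by positivity)
  have f1 : A / D * D ^ 2 = A * D := by field_simp
  have f2 : A / B * B ^ 2 = A * B := by field_simp
  have f3 : A / C * C ^ 2 = A * C := by field_simp
  rw [f1] at e1
  rw [f2] at e2
  rw [f3] at e3
  have f4 : A ^ 2 = A * D + A * B + A * C := by rw [hA]; ring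
  linarith

/-- passing to the weights with the denominators -/
theorem LOC_final {μ : Measure ℝ} (hμ : QM μ) {c d : ℝ} (hc : 0 ≤ c) (hd : d ≤ 1) (hcd : c < d)
    {g : ℂ → ℝ} (hg : Continuous g) (hg0 : ∀ w, 0 ≤ g w) (p : ℕ → ℝ[X]) (n : ℕ)
    (w : List Bool) {Dm D : ℝ} (hDm : ∀ y ∈ Ioo c d, DD w y ≤ Dm)
    (h : D ^ 2 ≤ 1 / 2 * ∫ y in Ioo c d, ∫ y' in Ioo c d,
      LOC_F g (fun y y' => (kap p n w y y' : ℂ)) (y, y') ∂μ ∂μ) :
    (D / Dm ^ 2) ^ 2 ≤ 1 / 2 * ∫ y in Ioo c d, ∫ y' in Ioo c d, g (vp y) * g (vp y') *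
      ((y - y') ^ 2 / (DD w y * DD w y') ^ 2 * kap p n w y y' ^ 2) ∂μ ∂μ := by
  have := hμ.prob
  have hDm1 : 1 ≤ Dm := by
    have h1 : (c + d) / 2 ∈ Ioo c d := ⟨by linarith, by linarith⟩
    have h2 : (c + d) / 2 ∈ Icc (0 : ℝ) 1 := ⟨by linarith, by linarith⟩
    exact (sba_DD w h2).1.trans (hDm _ h1)
  have ck : ContinuousOn (fun z : ℝ × ℝ => ((kap p n w z.1 z.2 : ℝ) : ℂ)) (Icc 0 1 ×ˢ Icc 0 1) :=
    Complex.continuous_ofReal.comp_continuousOn (exd_kap_cont p n w)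
  have cF0 : ContinuousOn (LOC_F g (fun y y' => (kap p n w y y' : ℂ))) (Icc 0 1 ×ˢ Icc 0 1) :=
    LOC_cont hg ck
  set F1 : ℝ × ℝ → ℝ := fun z => g (vp z.1) * g (vp z.2) *
    ((z.1 - z.2) ^ 2 / (DD w z.1 * DD w z.2) ^ 2 * kap p n w z.1 z.2 ^ 2) with hF1
  have cDD : Continuous (DD w) := by
    unfold DD
    fun_prop
  have cF1 : ContinuousOn F1 (Icc 0 1 ×ˢ Icc 0 1) := by
    have h1 : Continuous fun z : ℝ × ℝ => g (vp z.1) := hg.comp (exd_vp_cont.comp continuous_fst)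
    have h2 : Continuous fun z : ℝ × ℝ => g (vp z.2) := hg.comp (exd_vp_cont.comp continuous_snd)
    have h3 : Continuous fun z : ℝ × ℝ => (z.1 - z.2) ^ 2 :=
      (continuous_fst.sub continuous_snd).pow 2
    have h4 : Continuous fun z : ℝ × ℝ => (DD w z.1 * DD w z.2) ^ 2 :=
      ((cDD.comp continuous_fst).mul (cDD.comp continuous_snd)).pow 2
    refine (h1.mul h2).continuousOn.mul ((h3.continuousOn.div h4.continuousOn ?_).mul
      ((exd_kap_cont p n w).pow 2))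
    intro z hz
    have q1 := (sba_DD w hz.1).1
    have q2 := (sba_DD w hz.2).1
    have : 0 < DD w z.1 * DD w z.2 := by nlinarith
    positivity
  have e1 := LOC_fub hμ hc hd cF0
  have e2 := LOC_fub hμ hc hd cF1
  have e2' : ∫ y in Ioo c d, ∫ y' in Ioo c d, g (vp y) * g (vp y') *
      ((y - y') ^ 2 / (DD w y * DD w y') ^ 2 * kap p n w y y' ^ 2) ∂μ ∂μ =
      ∫ z, F1 z ∂((μ.restrict (Ioo c d)).prod (μ.restrict (Ioo c d))) := e2
  rw [e2']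
  rw [e1] at h
  have i0 := LOC_int hμ hc hd cF0
  have i1 := LOC_int hμ hc hd cF1
  rw [Measure.prod_restrict] at h i0 i1 ⊢
  have hmono : ∫ z in Ioo c d ×ˢ Ioo c d,
      1 / Dm ^ 4 * LOC_F g (fun y y' => (kap p n w y y' : ℂ)) z ∂(μ.prod μ) ≤
      ∫ z in Ioo c d ×ˢ Ioo c d, F1 z ∂(μ.prod μ) := by
    refine setIntegral_mono_on (i0.const_mul _) i1 (measurableSet_Ioo.prod measurableSet_Ioo) ?_
    intro z hz
    have z1 : z.1 ∈ Icc (0 : ℝ) 1 := ⟨hc.trans hz.1.1.le, hz.1.2.le.trans hd⟩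
    have z2 : z.2 ∈ Icc (0 : ℝ) 1 := ⟨hc.trans hz.2.1.le, hz.2.2.le.trans hd⟩
    have q1 := (sba_DD w z1).1
    have q2 := (sba_DD w z2).1
    have r1 := hDm _ hz.1
    have r2 := hDm _ hz.2
    have hp : 0 < DD w z.1 * DD w z.2 := by nlinarith
    have hle : (DD w z.1 * DD w z.2) ^ 2 ≤ Dm ^ 4 := by
      have h5 : DD w z.1 * DD w z.2 ≤ Dm * Dm :=
        mul_le_mul r1 r2 (by linarith) (by linarith)
      calc (DD w z.1 * DD w z.2) ^ 2 ≤ (Dm * Dm) ^ 2 := pow_le_pow_left₀ hp.le h5 2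
        _ = Dm ^ 4 := by ring
    have hinv : 1 / Dm ^ 4 ≤ 1 / (DD w z.1 * DD w z.2) ^ 2 :=
      one_div_le_one_div_of_le (by positivity) hle
    have hk : ‖((kap p n w z.1 z.2 : ℝ) : ℂ)‖ ^ 2 = kap p n w z.1 z.2 ^ 2 := by
      rw [Complex.norm_real, Real.norm_eq_abs, sq_abs]
    have hw0 : 0 ≤ g (vp z.1) * g (vp z.2) * ((z.1 - z.2) ^ 2 * kap p n w z.1 z.2 ^ 2) := by
      have q1 := hg0 (vp z.1)
      have q2 := hg0 (vp z.2)
      positivity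
    have := mul_le_mul_of_nonneg_right hinv hw0
    unfold LOC_F
    rw [hk]
    refine this.trans (le_of_eq ?_)
    simp only [hF1]
    ring
  rw [integral_const_mul] at hmono
  have h6 : (D / Dm ^ 2) ^ 2 = 1 / Dm ^ 4 * D ^ 2 := by
    rw [div_pow, ← pow_mul]
    ring
  rw [h6]
  have h7 := mul_le_mul_of_nonneg_left h (by positivity : 0 ≤ 1 / Dm ^ 4)
  linarith

theorem LOC_ci {B : ℂ → ℝ} (hB : CircleIntegrable B 0 1) {g : ℂ → ℝ} (hg : Continuous g) :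
    CircleIntegrable (fun w => g w * B w) 0 1 := by
  unfold CircleIntegrable at hB ⊢
  exact hB.continuousOn_mul (hg.comp (continuous_circleMap 0 1)).continuousOn

theorem LOC_av_sum {ι : Type} (s : Finset ι) (f : ι → ℂ → ℝ)
    (hf : ∀ i ∈ s, CircleIntegrable (f i) 0 1) :
    av (fun w => ∑ i ∈ s, f i w) = ∑ i ∈ s, av (f i) := by
  classical
  induction s using Finset.induction_on with
  | empty =>
    simp only [Finset.sum_empty]
    exact ucf_av_const 0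
  | insert a s ha ih =>
    simp only [Finset.sum_insert ha]
    have h1 : CircleIntegrable (fun w => ∑ i ∈ s, f i w) 0 1 := by
      have := CircleIntegrable.sum s fun i hi => hf i (Finset.mem_insert_of_mem hi)
      refine this.congr ?_
      intro x _
      simp
    rw [ucf_av_add (hf a (Finset.mem_insert_self a s)) h1,
      ih fun i hi => hf i (Finset.mem_insert_of_mem hi)]

theorem LOC_av_nonneg {f : ℂ → ℝ} (hf : CircleIntegrable f 0 1)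
    (h : ∀ w : ℂ, ‖w‖ = 1 → 0 ≤ f w) : 0 ≤ av f := by
  have h1 := ucf_av_mono (f := fun _ => (0 : ℝ)) (ucf_ci_cont continuous_const.continuousOn) hf h
  rwa [ucf_av_const] at h1

/-- counting of bad indices -/
theorem LOC_count {ι : Type} [DecidableEq ι] (s s' : Finset ι) (hs : s ⊆ s') (f : ι → ℝ)
    (hf : ∀ i ∈ s', 0 ≤ f i) {T : ℝ} (hT : 0 < T) (hb : ∀ i ∈ s, T < f i) :
    (s.card : ℝ) ≤ 1 / T * ∑ i ∈ s', f i := by
  have h1 : (s.card : ℝ) * T ≤ ∑ i ∈ s', f i := by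
    calc (s.card : ℝ) * T = ∑ _i ∈ s, T := by rw [Finset.sum_const, nsmul_eq_mul]
      _ ≤ ∑ i ∈ s, f i := Finset.sum_le_sum fun i hi => (hb i hi).le
      _ ≤ ∑ i ∈ s', f i := Finset.sum_le_sum_of_subset_of_nonneg hs fun i hi _ => hf i hi
  rw [one_div, ← div_eq_inv_mul, le_div_iff₀ hT]
  exact h1

theorem LOC_int_nonneg {μ : Measure ℝ} {c d : ℝ} {g : ℂ → ℝ} (hg0 : ∀ w, 0 ≤ g w)
    (H : ℝ → ℝ → ℂ) :
    0 ≤ 1 / 2 * ∫ y in Ioo c d, ∫ y' in Ioo c d, LOC_F g H (y, y') ∂μ ∂μ := by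
  refine mul_nonneg (by norm_num) (integral_nonneg fun y => integral_nonneg fun y' => ?_)
  exact LOC_nonneg hg0 H _

theorem LOC_khat_cont (α : ℕ → ℂ) (m : ℕ) :
    Continuous (fun z : ℝ × ℝ => Khat α m z.2 z.1) := by
  have h := Continuous.comp (g := fun z : ℝ × ℝ => Khat α m z.1 z.2)
    (f := fun z : ℝ × ℝ => (z.2, z.1)) (exd_khat_cont α m)
    (continuous_snd.prodMk continuous_fst)
  exact h

theorem LOC_qf_cont (r : ℕ) : Continuous (fun z : ℝ × ℝ => ((Qf r z.1 z.2 : ℝ) : ℂ)) := by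
  unfold Qf
  fun_prop

/-- the lower bound for one good index -/
theorem LOC_one {μ : Measure ℝ} (hμ : QM μ) {p : ℕ → ℝ[X]} {α : ℕ → ℂ} (hα : Szego (sg μ) α)
    (n m r l j : ℕ) (w : List Bool) {c d ρ s0 Dm δ : ℝ} {B : ℂ → ℝ} (hl : 1 ≤ l)
    (hc : 1 / 3 ≤ c) (hcd : c < d) (hd : d ≤ 2 / 3) (hρ : 0 ≤ ρ) (hδ : 0 < δ) (hδ1 : δ ≤ 1 / 22)
    (hs0 : 1 / 2 ≤ s0) (hs1 : s0 ≤ 2 * √(c * (1 - c))) (hs2 : s0 ≤ 2 * √(d * (1 - d)))
    (hDm : ∀ y ∈ Ioo c d, DD w y ≤ Dm)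
    (htail : 10 ^ 8 / (1 + 2 * l * ρ) ^ 8 ≤ δ / (4 * l))
    (hB : LocB (sg μ) α m (4 * l) δ B) (hj : j ∈ Jin l c d ρ)
    (hgood : av (fun w => gJ l j w * B w) ≤ δ / (4 * l))
    (h2 : 1 / 2 * ∫ y in Ioo c d, ∫ y' in Ioo c d, LOC_F (gJ l j)
      (fun y y' => Khat α m y' y * (1 - (Qf r y y' : ℂ))) (y, y') ∂μ ∂μ ≤
      (δ * s0 / (16 * l)) ^ 2)
    (h3 : 1 / 2 * ∫ y in Ioo c d, ∫ y' in Ioo c d, LOC_F (gJ l j)
      (fun y y' => (kap p n w y y' : ℂ) - Khat α m y' y * (Qf r y y' : ℂ)) (y, y') ∂μ ∂μ ≤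
      (δ * s0 / (16 * l)) ^ 2) :
    ((1 - 22 * δ) * s0 / (16 * l * Dm ^ 2)) ^ 2 ≤
      1 / 2 * ∫ y in Ioo c d, ∫ y' in Ioo c d, gJ l j (vp y) * gJ l j (vp y') *
        ((y - y') ^ 2 / (DD w y * DD w y') ^ 2 * kap p n w y y' ^ 2) ∂μ ∂μ := by
  have hl0 : (0 : ℝ) < l := by exact_mod_cast hl
  have hc0 : (0 : ℝ) ≤ c := by linarith
  have hd1 : d ≤ 1 := by linarith
  have hg : Continuous (gJ l j) := ucj_cont l j
  have hg0 : ∀ w, 0 ≤ gJ l j w := ucj_nonneg l j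
  rcases eq_or_lt_of_le hδ1 with hD0 | hD0
  · have e : (1 - 22 * δ) * s0 / (16 * l * Dm ^ 2) = 0 := by
      rw [hD0]
      norm_num
    rw [e, zero_pow (by norm_num)]
    refine mul_nonneg (by norm_num) (integral_nonneg fun y => integral_nonneg fun y' => ?_)
    have q1 := hg0 (vp y)
    have q2 := hg0 (vp y')
    show 0 ≤ gJ l j (vp y) * gJ l j (vp y') *
        ((y - y') ^ 2 / (DD w y * DD w y') ^ 2 * kap p n w y y' ^ 2)
    positivity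
  -- the four kernels
  have ck : ContinuousOn (fun z : ℝ × ℝ => ((kap p n w z.1 z.2 : ℝ) : ℂ)) (Icc 0 1 ×ˢ Icc 0 1) :=
    Complex.continuous_ofReal.comp_continuousOn (exd_kap_cont p n w)
  have cK := LOC_khat_cont α m
  have cQ := LOC_qf_cont r
  obtain ⟨s, hsdeg, hsq⟩ := ucj_sq l j hl
  have hmain := hB.main s hsdeg
  simp only [← hsq] at hmain
  have hAB := lcb_AB hμ hα m l j hl hc hcd hd hρ hδ (by linarith) hj htail B hgood
    hmain.1 hmain.2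
  have hlow := lca_lower hμ hα.lt m hc hcd hd (by linarith) hs1 hs2 (gJ l j) hg hg0
  have h1 : ((1 - 20 * δ) * s0 / (16 * l)) ^ 2 ≤ 1 / 2 * ∫ y in Ioo c d, ∫ y' in Ioo c d,
      LOC_F (gJ l j) (fun y y' => Khat α m y' y) (y, y') ∂μ ∂μ := by
    have e : ∀ y y' : ℝ, LOC_F (gJ l j) (fun y y' => Khat α m y' y) (y, y') =
        gJ l j (vp y) * gJ l j (vp y') * ((y - y') ^ 2 * ‖Kc α m (vp y') (vp y)‖ ^ 2) := by
      intro y y'
      unfold LOC_F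
      rw [exd_khat_norm]
    simp only [e]
    refine le_trans ?_ hlow
    have h5 := mul_le_mul_of_nonneg_left hAB (by positivity : 0 ≤ s0 ^ 2 / 16)
    refine le_trans (le_of_eq ?_) h5
    field_simp
    ring
  have hD : 0 < (1 - 22 * δ) * s0 / (16 * l) := by
    have : 0 < 1 - 22 * δ := by linarith
    positivity
  have hBp : 0 < δ * s0 / (16 * l) := by positivity
  have hsum : (1 - 22 * δ) * s0 / (16 * l) + δ * s0 / (16 * l) + δ * s0 / (16 * l) =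
      (1 - 20 * δ) * s0 / (16 * l) := by
    field_simp
    ring
  rw [← hsum] at h1
  have hk := LOC_mink hμ hc0 hd1 hg hg0
    (H0 := fun y y' => (kap p n w y y' : ℂ)) (H1 := fun y y' => Khat α m y' y)
    (H2 := fun y y' => Khat α m y' y * (1 - (Qf r y y' : ℂ)))
    (H3 := fun y y' => (kap p n w y y' : ℂ) - Khat α m y' y * (Qf r y y' : ℂ))
    ck cK.continuousOn (cK.mul (continuous_const.sub cQ)).continuousOn
    (ck.sub (cK.mul cQ).continuousOn) (fun y y' => by ring) hD hBp hBp h1 h2 h3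
  have hf := LOC_final hμ hc0 hd1 hcd hg hg0 p n w hDm hk
  have e : (1 - 22 * δ) * s0 / (16 * l * Dm ^ 2) = (1 - 22 * δ) * s0 / (16 * l) / Dm ^ 2 := by
    rw [div_div]
  rw [e]
  exact hf

theorem loc_good : ∃ C : ℝ, 1 ≤ C ∧ ∀ (μ : Measure ℝ) (p : ℕ → ℝ[X]) (α : ℕ → ℂ), QM μ →
    Szego (sg μ) α → ∀ (n m r l : ℕ) (w : List Bool) (c d ρ s0 Dm δ : ℝ) (B : ℂ → ℝ),
      1 ≤ l → 4 * l ≤ m → 1 / 3 ≤ c → c < d → d ≤ 2 / 3 → 0 ≤ ρ → 0 < δ → δ ≤ 1 / 22 →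
      1 / 2 ≤ s0 → s0 ≤ 2 * √(c * (1 - c)) → s0 ≤ 2 * √(d * (1 - d)) →
      (∀ y ∈ Ioo c d, DD w y ≤ Dm) →
      10 ^ 8 / (1 + 2 * l * ρ) ^ 8 ≤ δ / (4 * l) →
      C * ((r : ℝ) ^ 2 * m) ≤ δ ^ 2 * (l : ℝ) ^ 4 →
      LocB (sg μ) α m (4 * l) δ B →
      ∃ Jg ⊆ Jin l c d ρ,
        ((Jin l c d ρ).card : ℝ) - Jg.card ≤
          4 * l / δ * av (fun w => (∑ j ∈ Jin l c d ρ, gJ l j w) * B w) +
          C / δ ^ 2 * ∫ y in Ioo c d, exq μ p α n m r w y ∂μ ∧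
        ∀ j ∈ Jg, ((1 - 22 * δ) * s0 / (16 * l * Dm ^ 2)) ^ 2 ≤
          1 / 2 * ∫ y in Ioo c d, ∫ y' in Ioo c d, gJ l j (vp y) * gJ l j (vp y') *
            ((y - y') ^ 2 / (DD w y * DD w y') ^ 2 * kap p n w y y' ^ 2) ∂μ ∂μ := by
  classical
  obtain ⟨Cd, hCd, hd_sum⟩ := lcd_sum
  obtain ⟨Cc, hCc, hc_loc⟩ := lcc_loc
  refine ⟨1 + 1024 * Cd + 1024 * Cc, by nlinarith, ?_⟩
  intro μ p α hμ hα n m r l w c d ρ s0 Dm δ B hl hlm hc hcd hd hρ hδ hδ1 hs0 hs1 hs2 hDm htail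
    hr hB
  have hl0 : (0 : ℝ) < l := by exact_mod_cast hl
  have hT1 : 0 < δ / (4 * l) := by positivity
  have hT2 : 0 < (δ * s0 / (16 * l)) ^ 2 := by positivity
  have hT2' : δ ^ 2 / (1024 * l ^ 2) ≤ (δ * s0 / (16 * l)) ^ 2 := by
    have h1 : δ / (32 * l) ≤ δ * s0 / (16 * l) := by
      rw [div_le_div_iff₀ (by positivity) (by positivity)]
      nlinarith [mul_pos hδ hl0]
    calc δ ^ 2 / (1024 * l ^ 2) = (δ / (32 * l)) ^ 2 := by
          rw [div_pow]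
          ring
      _ ≤ _ := pow_le_pow_left₀ (by positivity) h1 2
  -- second kernel: all indices
  have h2 : ∀ j, 1 / 2 * ∫ y in Ioo c d, ∫ y' in Ioo c d, LOC_F (gJ l j)
      (fun y y' => Khat α m y' y * (1 - (Qf r y y' : ℂ))) (y, y') ∂μ ∂μ ≤
      (δ * s0 / (16 * l)) ^ 2 := by
    intro j
    refine (hc_loc μ α hμ hα m r l j c d hl hc hcd hd).trans (le_trans ?_ hT2')
    rw [div_le_div_iff₀ (by positivity) (by positivity)]
    have e1 : 1024 * Cc * ((r : ℝ) ^ 2 * m) ≤ δ ^ 2 * (l : ℝ) ^ 4 := by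
      refine le_trans (mul_le_mul_of_nonneg_right ?_ (by positivity)) hr
      linarith
    calc Cc * (r : ℝ) ^ 2 * m * (1024 * (l : ℝ) ^ 2)
        = (1024 * Cc * ((r : ℝ) ^ 2 * m)) * (l : ℝ) ^ 2 := by ring
      _ ≤ (δ ^ 2 * (l : ℝ) ^ 4) * (l : ℝ) ^ 2 := mul_le_mul_of_nonneg_right e1 (by positivity)
      _ = δ ^ 2 * (l : ℝ) ^ 6 := by ring
  set N3 : ℕ → ℝ := fun j => 1 / 2 * ∫ y in Ioo c d, ∫ y' in Ioo c d, LOC_F (gJ l j)
      (fun y y' => (kap p n w y y' : ℂ) - Khat α m y' y * (Qf r y y' : ℂ)) (y, y') ∂μ ∂μ with hN3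
  have hN30 : ∀ j, 0 ≤ N3 j := fun j => LOC_int_nonneg (ucj_nonneg l j) _
  have hN3s : ∑ j ∈ Finset.range (4 * l), N3 j ≤
      Cd / (l : ℝ) ^ 2 * ∫ y in Ioo c d, exq μ p α n m r w y ∂μ :=
    hd_sum μ p α hμ n m r l w c d hl hc hcd hd
  have hgB : ∀ j, CircleIntegrable (fun w => gJ l j w * B w) 0 1 := fun j =>
    LOC_ci hB.cint (ucj_cont l j)
  have hgB0 : ∀ j, 0 ≤ av (fun w => gJ l j w * B w) := fun j =>
    LOC_av_nonneg (hgB j) fun w _ => mul_nonneg (ucj_nonneg l j w) (hB.nonneg w)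
  have hsumB : ∑ j ∈ Jin l c d ρ, av (fun w => gJ l j w * B w) =
      av (fun w => (∑ j ∈ Jin l c d ρ, gJ l j w) * B w) := by
    rw [← LOC_av_sum (Jin l c d ρ) (fun j w => gJ l j w * B w) (fun j _ => hgB j)]
    congr 1
    funext w
    rw [Finset.sum_mul]
  set J := Jin l c d ρ with hJ
  set b1 := J.filter (fun j => δ / (4 * l) < av (fun w => gJ l j w * B w)) with hb1
  set b2 := J.filter (fun j => (δ * s0 / (16 * l)) ^ 2 < N3 j) with hb2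
  refine ⟨J.filter (fun j => av (fun w => gJ l j w * B w) ≤ δ / (4 * l) ∧
    N3 j ≤ (δ * s0 / (16 * l)) ^ 2), Finset.filter_subset _ _, ?_, ?_⟩
  · have k1 := LOC_count b1 J (Finset.filter_subset _ _)
      (fun j => av (fun w => gJ l j w * B w)) (fun j _ => hgB0 j) hT1
      (fun j hj => (Finset.mem_filter.1 hj).2)
    have k2 := LOC_count b2 (Finset.range (4 * l))
      ((Finset.filter_subset _ _).trans (arc_sub l c d ρ)) N3 (fun j _ => hN30 j) hT2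
      (fun j hj => (Finset.mem_filter.1 hj).2)
    rw [hsumB] at k1
    have hcard : (J.card : ℝ) ≤ ((J.filter (fun j => av (fun w => gJ l j w * B w) ≤ δ / (4 * l) ∧
        N3 j ≤ (δ * s0 / (16 * l)) ^ 2)).card : ℝ) + (b1.card : ℝ) + (b2.card : ℝ) := by
      have h5 : J ⊆ (J.filter (fun j => av (fun w => gJ l j w * B w) ≤ δ / (4 * l) ∧
        N3 j ≤ (δ * s0 / (16 * l)) ^ 2)) ∪ b1 ∪ b2 := by
        intro j hj
        rw [Finset.mem_union, Finset.mem_union, hb1, hb2, Finset.mem_filter, Finset.mem_filter,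
          Finset.mem_filter]
        by_cases q1 : av (fun w => gJ l j w * B w) ≤ δ / (4 * l)
        · by_cases q2 : N3 j ≤ (δ * s0 / (16 * l)) ^ 2
          · exact Or.inl (Or.inl ⟨hj, q1, q2⟩)
          · exact Or.inr ⟨hj, not_le.1 q2⟩
        · exact Or.inl (Or.inr ⟨hj, not_le.1 q1⟩)
      have h6 := (Finset.card_le_card h5).trans ((Finset.card_union_le _ _).trans
        (Nat.add_le_add_right (Finset.card_union_le _ _) _))
      exact_mod_cast h6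
    have k1' : 1 / (δ / (4 * l)) = 4 * l / δ := by
      rw [one_div_div]
    have k2' : 1 / (δ * s0 / (16 * l)) ^ 2 * ∑ j ∈ Finset.range (4 * l), N3 j ≤
        (1 + 1024 * Cd + 1024 * Cc) / δ ^ 2 * ∫ y in Ioo c d, exq μ p α n m r w y ∂μ := by
      have q0 : 0 ≤ ∫ y in Ioo c d, exq μ p α n m r w y ∂μ :=
        integral_nonneg fun y => exd_nonneg μ p α n m r w y
      have q1 : 1 / (δ * s0 / (16 * l)) ^ 2 ≤ 1024 * (l : ℝ) ^ 2 / δ ^ 2 := by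
        have q3 : 1024 * (l : ℝ) ^ 2 / δ ^ 2 = 1 / (δ ^ 2 / (1024 * l ^ 2)) :=
          (one_div_div _ _).symm
        rw [q3]
        exact one_div_le_one_div_of_le (by positivity) hT2'
      have q2 : 0 ≤ ∑ j ∈ Finset.range (4 * l), N3 j := Finset.sum_nonneg fun j _ => hN30 j
      calc 1 / (δ * s0 / (16 * l)) ^ 2 * ∑ j ∈ Finset.range (4 * l), N3 j
          ≤ 1024 * (l : ℝ) ^ 2 / δ ^ 2 * ∑ j ∈ Finset.range (4 * l), N3 j :=
            mul_le_mul_of_nonneg_right q1 q2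
        _ ≤ 1024 * (l : ℝ) ^ 2 / δ ^ 2 *
            (Cd / (l : ℝ) ^ 2 * ∫ y in Ioo c d, exq μ p α n m r w y ∂μ) :=
            mul_le_mul_of_nonneg_left hN3s (by positivity)
        _ = 1024 * Cd / δ ^ 2 * ∫ y in Ioo c d, exq μ p α n m r w y ∂μ := by
            field_simp
        _ ≤ _ := by
            refine mul_le_mul_of_nonneg_right ?_ q0
            refine div_le_div_of_nonneg_right ?_ (by positivity)
            linarith
    rw [k1'] at k1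
    linarith
  · intro j hj
    rw [Finset.mem_filter] at hj
    exact LOC_one hμ hα n m r l j w hl hc hcd hd hρ hδ hδ1 hs0 hs1 hs2 hDm htail hB hj.1
      hj.2.1 (h2 j) hj.2.2

end Pool.H52.MQ
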