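import Pool.Agent.H52.MQ.SBM

/-! Module SBC (project MP_935a4b_QM): masses of disjoint intervals.  Uses SBA, SBM.
Notation: depth-k cells = words of length k; |cell w| = 1/(lq rq) =: len w, len (b::w) < len w; the cells of length-k words cover [0,1] and have
disjoint interiors (induction; cell (false::w) u cell (true::w) = cell w).
Step 1 (cell sum).  For l in (0,1]: for every finite set F of words with len w > l: sum_{w in F} len w <= (1+log(1/l))^2.
  w -> (lq,rq) is injective (sba_word), lq*rq < 1/l, so the sum is <= (sum_{q < 1/l} 1/q)^2 <= (1+log(1/l))^2 (harmonic numbers: harmonic_le_one_add_log).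
Step 2.  I = Icc c d in [0,1] with d-c >= l, l' = l/3.  For x in the middle third M of I (length >= l/3), not a rational endpoint: let w_k(x) be the word of
  length k with x in the cell; k(x) = number of k with len w_k(x) > l' (finite: len <= 1/(k+1)... by sba_len lq*rq >= (hh-1) >= length+1).  The word w of length
  k(x) has len <= l', contains x, so cell w in I and mu(I) >= mu(cell w) = 2^(-k(x)) (sbm_map).  So -log mu(I) <= k(x) log 2 <= k(x) for a.e. x in M.
  To avoid measurability of k(x): for a finite set W(l') = {words with len > l'} (finite by Step 1's injectivity) k(x) = sum_{w in W} indicator (cell w)(x) for x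
  not an endpoint (Lebesgue a.e.).
Step 3.  Integrate over M (Lebesgue): (l/3) * (-log mu(I)) <= integral over M of sum_w ind(cell w).  Sum over the disjoint intervals:
  sum -log mu(I_i) <= (3/l) * sum_{w in W(l/3)} len w <= (3/l)(1+log(3/l))^2.
(if s is empty the right side is >= 0; note l <= 1 when s is nonempty.  For l > 1 and s empty: 3/l > 0 and the square is >= 0.) -/

open MeasureTheory Set
open scoped ENNReal

namespace Pool.H52.MQ

/-- the nested words whose cells contain `x` -/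
noncomputable def SBC_seq (x : ℝ) : ℕ → List Bool
  | 0 => []
  | k + 1 =>
    if x ≤ ((lp (SBC_seq x k) + rp (SBC_seq x k) : ℕ) : ℝ) / ((lq (SBC_seq x k) + rq (SBC_seq x k) : ℕ) : ℝ)
    then false :: SBC_seq x k else true :: SBC_seq x k

theorem SBC_seq_length (x : ℝ) (k : ℕ) : (SBC_seq x k).length = k := by
  induction k with
  | zero => rfl
  | succ k ih =>
    unfold SBC_seq
    split_ifs <;> simp [ih]

theorem SBC_seq_mem {x : ℝ} (hx : x ∈ Icc (0:ℝ) 1) (k : ℕ) : x ∈ cell (SBC_seq x k) := by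
  induction k with
  | zero =>
    show x ∈ cell []
    unfold cell lp lq rp rq sb
    simpa using hx
  | succ k ih =>
    unfold SBC_seq
    split_ifs with h
    · exact ⟨ih.1, h⟩
    · exact ⟨(not_le.1 h).le, ih.2⟩

theorem SBC_mass {μ : Measure ℝ} (hμ : QM μ) (w : List Bool) : μ (cell w) = (1 / 2) ^ w.length := by
  have := hμ.prob
  have h1 := congrArg (fun ν : Measure ℝ => ν univ) (sbm_map hμ w)
  simp only [Measure.restrict_apply MeasurableSet.univ, univ_inter, Measure.smul_apply,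
    Measure.map_apply (sbm_meas w) MeasurableSet.univ, preimage_univ, smul_eq_mul] at h1
  rw [h1]
  have h2 : μ (Icc (0:ℝ) 1) = 1 := by
    rw [← prob_compl_eq_zero_iff measurableSet_Icc]
    exact hμ.supp
  rw [h2, mul_one]

/-- the long words -/
theorem SBC_finite {l : ℝ} (hl : 0 < l) : {w : List Bool | l < 1 / ((lq w : ℝ) * rq w)}.Finite := by
  have h1 : ∀ w ∈ {w : List Bool | l < 1 / ((lq w : ℝ) * rq w)},
      (lq w, rq w) ∈ ((Finset.Icc 1 ⌊1 / l⌋₊ ×ˢ Finset.Icc 1 ⌊1 / l⌋₊ : Finset (ℕ × ℕ)) : Set (ℕ × ℕ)) := by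
    intro w hw
    have hw' : l < 1 / ((lq w : ℝ) * rq w) := hw
    obtain ⟨a1, a2, -, -, -⟩ := sba_pos w
    have b1 : (1:ℝ) ≤ lq w := by exact_mod_cast a1
    have b2 : (1:ℝ) ≤ rq w := by exact_mod_cast a2
    have hp : (0:ℝ) < (lq w : ℝ) * rq w := by positivity
    have h2 : (lq w : ℝ) * rq w < 1 / l := by
      rw [lt_div_iff₀ hp] at hw'
      rw [lt_div_iff₀ hl]
      linarith
    rw [Finset.coe_product, mem_prod]
    refine ⟨?_, ?_⟩
    · rw [Finset.coe_Icc]
      exact ⟨a1, Nat.le_floor (by nlinarith)⟩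
    · rw [Finset.coe_Icc]
      exact ⟨a2, Nat.le_floor (by nlinarith)⟩
  refine Set.Finite.of_injOn (f := fun w => (lq w, rq w)) h1 ?_ (Finset.finite_toSet _)
  intro w _ w' _ h
  have h' : (lq w, rq w) = (lq w', rq w') := h
  exact sba_word (Prod.mk.inj h').1 (Prod.mk.inj h').2

theorem SBC_sum {l : ℝ} (hl : 0 < l) (hl1 : l ≤ 1) (W : Finset (List Bool))
    (hW : ∀ w ∈ W, l < 1 / ((lq w : ℝ) * rq w)) :
    ∑ w ∈ W, 1 / ((lq w : ℝ) * rq w) ≤ (1 + Real.log (1 / l)) ^ 2 := by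
  classical
  have h1 : ∀ w ∈ W, (lq w, rq w) ∈ (Finset.Icc 1 ⌊1 / l⌋₊ ×ˢ Finset.Icc 1 ⌊1 / l⌋₊ : Finset (ℕ × ℕ)) := by
    intro w hw
    have hw' := hW w hw
    obtain ⟨a1, a2, -, -, -⟩ := sba_pos w
    have b1 : (1:ℝ) ≤ lq w := by exact_mod_cast a1
    have b2 : (1:ℝ) ≤ rq w := by exact_mod_cast a2
    have hp : (0:ℝ) < (lq w : ℝ) * rq w := by positivity
    have h2 : (lq w : ℝ) * rq w < 1 / l := by
      rw [lt_div_iff₀ hp] at hw'
      rw [lt_div_iff₀ hl]
      linarith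
    rw [Finset.mem_product, Finset.mem_Icc, Finset.mem_Icc]
    exact ⟨⟨a1, Nat.le_floor (by nlinarith)⟩, ⟨a2, Nat.le_floor (by nlinarith)⟩⟩
  have hinj : Set.InjOn (fun w => (lq w, rq w)) (W : Set (List Bool)) := by
    intro w _ w' _ h
    have h' : (lq w, rq w) = (lq w', rq w') := h
    exact sba_word (Prod.mk.inj h').1 (Prod.mk.inj h').2
  have h2 : ∑ w ∈ W, 1 / ((lq w : ℝ) * rq w) =
      ∑ p ∈ W.image (fun w => (lq w, rq w)), 1 / ((p.1 : ℝ) * p.2) := by
    rw [Finset.sum_image hinj]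
  have h3 : ∑ p ∈ W.image (fun w => (lq w, rq w)), 1 / ((p.1 : ℝ) * p.2) ≤
      ∑ p ∈ (Finset.Icc 1 ⌊1 / l⌋₊ ×ˢ Finset.Icc 1 ⌊1 / l⌋₊ : Finset (ℕ × ℕ)), 1 / ((p.1 : ℝ) * p.2) := by
    apply Finset.sum_le_sum_of_subset_of_nonneg
    · intro p hp
      obtain ⟨w, hw, rfl⟩ := Finset.mem_image.1 hp
      exact h1 w hw
    · intro p _ _
      positivity
  have h4 : ∑ p ∈ (Finset.Icc 1 ⌊1 / l⌋₊ ×ˢ Finset.Icc 1 ⌊1 / l⌋₊ : Finset (ℕ × ℕ)), 1 / ((p.1 : ℝ) * p.2) =
      (∑ a ∈ Finset.Icc 1 ⌊1 / l⌋₊, ((a : ℝ))⁻¹) ^ 2 := by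
    rw [sq, Finset.sum_mul_sum, Finset.sum_product]
    refine Finset.sum_congr rfl fun a _ => Finset.sum_congr rfl fun b _ => ?_
    rw [one_div, mul_inv]
  have h5 : (∑ a ∈ Finset.Icc 1 ⌊1 / l⌋₊, ((a : ℝ))⁻¹) ≤ 1 + Real.log (1 / l) := by
    have h6 := harmonic_le_one_add_log ⌊1 / l⌋₊
    rw [harmonic_eq_sum_Icc] at h6
    push_cast at h6
    refine h6.trans ?_
    have h7 : (1:ℝ) ≤ 1 / l := by rw [le_div_iff₀ hl]; linarith
    have h8 : 1 ≤ ⌊1 / l⌋₊ := Nat.le_floor (by exact_mod_cast h7)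
    have h9 : Real.log (⌊1 / l⌋₊ : ℝ) ≤ Real.log (1 / l) :=
      Real.log_le_log (by exact_mod_cast h8) (Nat.floor_le (by linarith))
    linarith
  have h6 : 0 ≤ (∑ a ∈ Finset.Icc 1 ⌊1 / l⌋₊, ((a : ℝ))⁻¹) :=
    Finset.sum_nonneg fun a _ => by positivity
  calc ∑ w ∈ W, 1 / ((lq w : ℝ) * rq w) ≤ (∑ a ∈ Finset.Icc 1 ⌊1 / l⌋₊, ((a : ℝ))⁻¹) ^ 2 := by
        rw [h2, ← h4]
        exact h3
    _ ≤ (1 + Real.log (1 / l)) ^ 2 := pow_le_pow_left₀ h6 h5 2

/-- every point of the middle third is contained in many long cells -/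
theorem SBC_point {μ : Measure ℝ} (hμ : QM μ) {l : ℝ} (hl : 0 < l) (W : Finset (List Bool))
    (hW : ∀ w, w ∈ W ↔ l < 1 / ((lq w : ℝ) * rq w)) {c d x : ℝ} (hc : 0 ≤ c) (hd : d ≤ 1)
    (h1 : c + l ≤ x) (h2 : x ≤ d - l) :
    0 < (μ (Icc c d)).toReal ∧ -Real.log (μ (Icc c d)).toReal ≤
      ∑ w ∈ W, (cell w).indicator (fun _ => (1:ℝ)) x := by
  classical
  have := hμ.prob
  have hx : x ∈ Icc (0:ℝ) 1 := ⟨by linarith, by linarith⟩
  have hlen : ∀ k, 1 / ((lq (SBC_seq x k) : ℝ) * rq (SBC_seq x k)) ≤ 1 / (k + 1) := by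
    intro k
    have g1 := sba_len (SBC_seq x k)
    rw [SBC_seq_length] at g1
    obtain ⟨a1, a2, -, -, -⟩ := sba_pos (SBC_seq x k)
    have b1 : (1:ℝ) ≤ lq (SBC_seq x k) := by exact_mod_cast a1
    have b2 : (1:ℝ) ≤ rq (SBC_seq x k) := by exact_mod_cast a2
    have g2 : (k : ℝ) + 2 ≤ lq (SBC_seq x k) + rq (SBC_seq x k) := by
      unfold hh at g1
      exact_mod_cast g1
    apply one_div_le_one_div_of_le (by positivity)
    nlinarith
  have hex : ∃ k, 1 / ((lq (SBC_seq x k) : ℝ) * rq (SBC_seq x k)) ≤ l := by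
    obtain ⟨k, hk⟩ := exists_nat_one_div_lt hl
    exact ⟨k, (hlen k).trans hk.le⟩
  obtain ⟨k, hk⟩ : ∃ k, k = Nat.find hex := ⟨_, rfl⟩
  have hk1 : 1 / ((lq (SBC_seq x k) : ℝ) * rq (SBC_seq x k)) ≤ l := by
    rw [hk]
    exact Nat.find_spec hex
  have hk2 : ∀ j < k, SBC_seq x j ∈ W := by
    intro j hj
    rw [hW]
    rw [hk] at hj
    exact not_le.1 (Nat.find_min hex hj)
  have hsub : cell (SBC_seq x k) ⊆ Icc c d := by
    intro z hz
    have g1 := SBC_seq_mem hx k
    have g2 := sba_cell_len (SBC_seq x k)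
    unfold cell at hz g1
    have g3 := hz.1
    have g4 := hz.2
    have g5 := g1.1
    have g6 := g1.2
    constructor <;> linarith
  have hmass : (1 / 2 : ℝ) ^ k ≤ (μ (Icc c d)).toReal := by
    have g1 := measure_mono (μ := μ) hsub
    rw [SBC_mass hμ, SBC_seq_length] at g1
    have g2 := ENNReal.toReal_mono (measure_ne_top μ _) g1
    have g3 : ((1 / 2 : ℝ≥0∞) ^ k).toReal = (1 / 2 : ℝ) ^ k := by
      rw [ENNReal.toReal_pow]
      simp
    rwa [g3] at g2
  have hpos : (0:ℝ) < (1 / 2 : ℝ) ^ k := by positivity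
  refine ⟨hpos.trans_le hmass, ?_⟩
  have g1 : Real.log ((1 / 2 : ℝ) ^ k) ≤ Real.log (μ (Icc c d)).toReal := Real.log_le_log hpos hmass
  have g2 : Real.log ((1 / 2 : ℝ) ^ k) = -(k * Real.log 2) := by
    rw [Real.log_pow, one_div, Real.log_inv]
    ring
  have g3 : (k : ℝ) * Real.log 2 ≤ k := by
    have := Real.log_two_lt_d9
    have hk0 : (0:ℝ) ≤ k := Nat.cast_nonneg k
    nlinarith
  have g4 : (k : ℝ) ≤ ∑ w ∈ W, (cell w).indicator (fun _ => (1:ℝ)) x := by
    have g5 : ∑ w ∈ W, (cell w).indicator (fun _ => (1:ℝ)) x = ((W.filter fun w => x ∈ cell w).card : ℝ) := by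
      rw [Finset.card_filter]
      push_cast
      refine Finset.sum_congr rfl fun w _ => ?_
      by_cases h : x ∈ cell w
      · simp [h]
      · simp [h]
    rw [g5]
    have g6 : Finset.range k ⊆ (W.filter fun w => x ∈ cell w).image List.length := by
      intro j hj
      rw [Finset.mem_image]
      refine ⟨SBC_seq x j, ?_, SBC_seq_length x j⟩
      rw [Finset.mem_filter]
      exact ⟨hk2 j (Finset.mem_range.1 hj), SBC_seq_mem hx j⟩
    have g7 := Finset.card_le_card g6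
    rw [Finset.card_range] at g7
    exact_mod_cast g7.trans Finset.card_image_le
  linarith

theorem mass_sum {μ : Measure ℝ} (hμ : QM μ) {ι : Type*} (s : Finset ι) (c d : ι → ℝ) (ℓ : ℝ)
    (hℓ : 0 < ℓ) (hc : ∀ i ∈ s, 0 ≤ c i) (hd : ∀ i ∈ s, d i ≤ 1) (hcd : ∀ i ∈ s, ℓ ≤ d i - c i)
    (hdis : ∀ i ∈ s, ∀ j ∈ s, i ≠ j → Disjoint (Icc (c i) (d i)) (Icc (c j) (d j))) :
    (∀ i ∈ s, 0 < (μ (Icc (c i) (d i))).toReal) ∧
    ∑ i ∈ s, -Real.log (μ (Icc (c i) (d i))).toReal ≤ 3 / ℓ * (1 + Real.log (3 / ℓ)) ^ 2 := by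
  classical
  have := hμ.prob
  by_cases hs : s = ∅
  · subst hs
    refine ⟨fun i hi => absurd hi (Finset.notMem_empty i), ?_⟩
    rw [Finset.sum_empty]
    positivity
  obtain ⟨i₀, hi₀⟩ := Finset.nonempty_iff_ne_empty.2 hs
  have hℓ1 : ℓ ≤ 1 := by
    have h1 := hc i₀ hi₀
    have h2 := hd i₀ hi₀
    have h3 := hcd i₀ hi₀
    linarith
  obtain ⟨l, hl⟩ : ∃ l, l = ℓ / 3 := ⟨_, rfl⟩
  have hl0 : 0 < l := by rw [hl]; positivity
  have hl1 : l ≤ 1 := by rw [hl]; linarith
  obtain ⟨W, hW⟩ : ∃ W : Finset (List Bool), ∀ w, w ∈ W ↔ l < 1 / ((lq w : ℝ) * rq w) :=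
    ⟨(SBC_finite hl0).toFinset, fun w => by simp⟩
  have hpt : ∀ i ∈ s, ∀ x ∈ Icc (c i + l) (d i - l), 0 < (μ (Icc (c i) (d i))).toReal ∧
      -Real.log (μ (Icc (c i) (d i))).toReal ≤ ∑ w ∈ W, (cell w).indicator (fun _ => (1:ℝ)) x :=
    fun i hi x hx => SBC_point hμ hl0 W hW (hc i hi) (hd i hi) hx.1 hx.2
  have hne : ∀ i ∈ s, c i + l ≤ d i - l := by
    intro i hi
    have h3 := hcd i hi
    rw [hl]
    linarith
  have hpos : ∀ i ∈ s, 0 < (μ (Icc (c i) (d i))).toReal := fun i hi =>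
    (hpt i hi _ ⟨le_rfl, hne i hi⟩).1
  refine ⟨hpos, ?_⟩
  obtain ⟨t, ht⟩ : ∃ t : ι → ℝ, ∀ i, t i = -Real.log (μ (Icc (c i) (d i))).toReal := ⟨_, fun _ => rfl⟩
  have ht0 : ∀ i ∈ s, 0 ≤ t i := by
    intro i hi
    rw [ht, neg_nonneg]
    apply Real.log_nonpos (hpos i hi).le
    have h1 := ENNReal.toReal_mono ENNReal.one_ne_top (prob_le_one (μ := μ) (s := Icc (c i) (d i)))
    simpa using h1
  have hmc : ∀ w, MeasurableSet (cell w) := fun w => measurableSet_Icc
  -- one interval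
  have hone : ∀ i ∈ s, ENNReal.ofReal (l * t i) ≤ ∑ w ∈ W, volume (cell w ∩ Icc (c i + l) (d i - l)) := by
    intro i hi
    have h1 : ∫⁻ x in Icc (c i + l) (d i - l), ENNReal.ofReal (t i) ≤
        ∫⁻ x in Icc (c i + l) (d i - l), ∑ w ∈ W, (cell w).indicator (fun _ => (1:ℝ≥0∞)) x := by
      apply setLIntegral_mono' measurableSet_Icc
      intro x hx
      have h2 := (hpt i hi x hx).2
      rw [← ht] at h2
      refine (ENNReal.ofReal_le_ofReal h2).trans ?_
      rw [ENNReal.ofReal_sum_of_nonneg]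
      · apply Finset.sum_le_sum
        intro w _
        by_cases h : x ∈ cell w
        · simp [h]
        · simp [h]
      · intro w _
        exact indicator_nonneg (fun _ _ => zero_le_one) x
    rw [setLIntegral_const, Real.volume_Icc, lintegral_finsetSum] at h1
    · have h3 : ENNReal.ofReal (l * t i) ≤ ENNReal.ofReal (t i) * ENNReal.ofReal (d i - l - (c i + l)) := by
        rw [← ENNReal.ofReal_mul (ht0 i hi)]
        apply ENNReal.ofReal_le_ofReal
        have h4 := hcd i hi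
        have h5 := ht0 i hi
        have h6 : l ≤ d i - l - (c i + l) := by
          rw [hl]
          linarith
        nlinarith
      refine h3.trans (h1.trans (le_of_eq ?_))
      refine Finset.sum_congr rfl fun w _ => ?_
      rw [lintegral_indicator (hmc w), setLIntegral_const, one_mul, Measure.restrict_apply (hmc w)]
    · intro w _
      exact measurable_const.indicator (hmc w)
  -- summation
  have hsum : ∑ i ∈ s, ENNReal.ofReal (l * t i) ≤ ∑ w ∈ W, volume (cell w) := by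
    refine (Finset.sum_le_sum hone).trans ?_
    rw [Finset.sum_comm]
    apply Finset.sum_le_sum
    intro w _
    rw [← measure_biUnion_finset]
    · apply measure_mono
      intro x hx
      simp only [mem_iUnion] at hx
      obtain ⟨i, _, hx⟩ := hx
      exact hx.1
    · intro i hi j hj hij
      have h1 := hdis i hi j hj hij
      show Disjoint (cell w ∩ Icc (c i + l) (d i - l)) (cell w ∩ Icc (c j + l) (d j - l))
      refine h1.mono ?_ ?_
      · intro x hx
        exact ⟨by linarith [hx.2.1], by linarith [hx.2.2]⟩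
      · intro x hx
        exact ⟨by linarith [hx.2.1], by linarith [hx.2.2]⟩
    · intro i _
      exact (hmc w).inter measurableSet_Icc
  have hvol : ∑ w ∈ W, volume (cell w) = ENNReal.ofReal (∑ w ∈ W, 1 / ((lq w : ℝ) * rq w)) := by
    rw [ENNReal.ofReal_sum_of_nonneg]
    · refine Finset.sum_congr rfl fun w _ => ?_
      unfold cell
      rw [Real.volume_Icc, sba_cell_len]
    · intro w _
      positivity
  rw [hvol, ← ENNReal.ofReal_sum_of_nonneg (fun i hi => mul_nonneg hl0.le (ht0 i hi)),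
    ENNReal.ofReal_le_ofReal_iff (Finset.sum_nonneg fun w _ => by positivity), ← Finset.mul_sum] at hsum
  have hcs := SBC_sum hl0 hl1 W (fun w hw => (hW w).1 hw)
  have h1l : 1 / l = 3 / ℓ := by
    rw [hl]
    field_simp
  rw [h1l] at hcs
  have hfin : ∑ i ∈ s, t i ≤ 3 / ℓ * (1 + Real.log (3 / ℓ)) ^ 2 := by
    rw [← h1l, div_mul_eq_mul_div, one_mul, le_div_iff₀ hl0, h1l]
    linarith
  simpa only [ht] using hfin

end Pool.H52.MQ
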