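import Pool.Agent.H52.MQ.Defs

/-! Module UCA (project MP_935a4b_QM): algebra of the Szego recursion.  Mathlib only.
Ph_{n+1} = X Ph_n - conj(a_n) Pt_n,  Pt_{n+1} = Pt_n - a_n X Ph_n,  Ph_0 = Pt_0 = 1.
* uca_star: |w|=1: Pt_n(w) = w^n conj(Ph_n(w)), induction (w conj w = 1).
* uca_deg: Ph_n monic of degree n, natDegree Pt_n <= n, Pt_n(0) = 1: induction.
* uca_nz: for |w| <= 1: |Pt_{n+1}|^2 - |Ph_{n+1}|^2 = (1-|a|^2)(|Pt_n|^2 - |w|^2|Ph_n|^2) >= 0 with equality analysis: induction hypothesis |Ph_n| <= |Pt_n| and Pt_n /= 0 give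
  |Pt_{n+1}| >= |Pt_n| - |a||w||Ph_n| >= (1-|a|)|Pt_n| > 0.
* uca_sup: |w|=1: |Ph_{n+1}| <= (1+|a_n|)|Ph_n| (|Pt_n| = |Ph_n|), so |Ph_n| <= exp(sum |a_k|), sum_{k<n}|a_k| <= sqrt(n sum |a_k|^2) <= sqrt(n En(range n)) since x^2 <= -log(1-x^2);
  1/nu_n = exp(En(range n)) (nu_exp). -/

open MeasureTheory Set Polynomial
open scoped ENNReal ComplexConjugate

namespace Pool.H52.MQ

theorem UCA_ph_zero (α : ℕ → ℂ) : Ph α 0 = 1 := rfl

theorem UCA_pt_zero (α : ℕ → ℂ) : Pt α 0 = 1 := rfl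

theorem UCA_ph_succ (α : ℕ → ℂ) (n : ℕ) :
    Ph α (n + 1) = X * Ph α n - C (conj (α n)) * Pt α n := rfl

theorem UCA_pt_succ (α : ℕ → ℂ) (n : ℕ) :
    Pt α (n + 1) = Pt α n - C (α n) * (X * Ph α n) := rfl

theorem UCA_ph_eval (α : ℕ → ℂ) (n : ℕ) (w : ℂ) : (Ph α (n + 1)).eval w =
    w * (Ph α n).eval w - conj (α n) * (Pt α n).eval w := by
  rw [UCA_ph_succ, eval_sub, eval_mul, eval_mul, eval_X, eval_C]

theorem UCA_pt_eval (α : ℕ → ℂ) (n : ℕ) (w : ℂ) : (Pt α (n + 1)).eval w =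
    (Pt α n).eval w - α n * (w * (Ph α n).eval w) := by
  rw [UCA_pt_succ, eval_sub, eval_mul, eval_mul, eval_X, eval_C]

theorem UCA_mul_conj {w : ℂ} (hw : ‖w‖ = 1) : w * conj w = 1 := by
  rw [Complex.mul_conj, Complex.normSq_eq_norm_sq, hw]
  norm_num

theorem uca_star (α : ℕ → ℂ) (n : ℕ) {w : ℂ} (hw : ‖w‖ = 1) :
    (Pt α n).eval w = w ^ n * conj ((Ph α n).eval w) := by
  induction n with
  | zero => simp [UCA_ph_zero, UCA_pt_zero]
  | succ n ih =>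
    have h1 := UCA_mul_conj hw
    have h2 : w ^ n * conj ((Pt α n).eval w) = (Ph α n).eval w := by
      rw [ih, map_mul, map_pow, Complex.conj_conj, ← mul_assoc, ← mul_pow, h1, one_pow, one_mul]
    rw [UCA_pt_eval, UCA_ph_eval, map_sub, map_mul, map_mul, Complex.conj_conj]
    calc (Pt α n).eval w - α n * (w * (Ph α n).eval w)
        = w ^ n * conj ((Ph α n).eval w) * (w * conj w)
          - α n * (w * (w ^ n * conj ((Pt α n).eval w))) := by
          rw [h2, h1, ← ih, mul_one]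
      _ = w ^ (n + 1) * (conj w * conj ((Ph α n).eval w)
          - α n * conj ((Pt α n).eval w)) := by
          ring

theorem uca_abs (α : ℕ → ℂ) (n : ℕ) {w : ℂ} (hw : ‖w‖ = 1) :
    ‖(Pt α n).eval w‖ = ‖(Ph α n).eval w‖ := by
  rw [uca_star α n hw, norm_mul, norm_pow, hw, one_pow, one_mul, Complex.norm_conj]

theorem uca_deg (α : ℕ → ℂ) (n : ℕ) : (Ph α n).Monic ∧ (Ph α n).natDegree = n ∧
    (Pt α n).natDegree ≤ n ∧ (Pt α n).eval 0 = 1 := by
  induction n with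
  | zero => simp [UCA_ph_zero, UCA_pt_zero, monic_one]
  | succ n ih =>
    obtain ⟨h1, h2, h3, h4⟩ := ih
    have hXm : (X * Ph α n).Monic := monic_X.mul h1
    have hXd : (X * Ph α n).natDegree = n + 1 := by
      rw [natDegree_X_mul h1.ne_zero, h2]
    have hC : (C (conj (α n)) * Pt α n).natDegree < (X * Ph α n).natDegree := by
      rw [hXd]
      exact lt_of_le_of_lt (natDegree_C_mul_le _ _) (by omega)
    refine ⟨?_, ?_, ?_, ?_⟩
    · rw [UCA_ph_succ]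
      exact hXm.sub_of_left (degree_lt_degree hC)
    · rw [UCA_ph_succ, natDegree_sub_eq_left_of_natDegree_lt hC, hXd]
    · rw [UCA_pt_succ]
      refine (natDegree_sub_le _ _).trans (max_le (by omega) ?_)
      exact (natDegree_C_mul_le _ _).trans hXd.le
    · rw [UCA_pt_eval, h4]
      simp

theorem UCA_id (a p z : ℂ) : ‖p - a * z‖ ^ 2 - ‖z - conj a * p‖ ^ 2 =
    (1 - ‖a‖ ^ 2) * (‖p‖ ^ 2 - ‖z‖ ^ 2) := by
  simp only [Complex.sq_norm, Complex.normSq_apply, Complex.sub_re, Complex.sub_im,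
    Complex.mul_re, Complex.mul_im, Complex.conj_re, Complex.conj_im]
  ring

theorem uca_nz {α : ℕ → ℂ} (hα : ∀ n, ‖α n‖ < 1) (n : ℕ) {w : ℂ} (hw : ‖w‖ ≤ 1) :
    (Pt α n).eval w ≠ 0 ∧ ‖(Ph α n).eval w‖ ≤ ‖(Pt α n).eval w‖ := by
  induction n with
  | zero => simp [UCA_ph_zero, UCA_pt_zero]
  | succ n ih =>
    obtain ⟨h1, h2⟩ := ih
    have hp : 0 < ‖(Pt α n).eval w‖ := norm_pos_iff.2 h1
    have hz : ‖w * (Ph α n).eval w‖ ≤ ‖(Pt α n).eval w‖ := by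
      rw [norm_mul]
      calc ‖w‖ * ‖(Ph α n).eval w‖ ≤ 1 * ‖(Ph α n).eval w‖ :=
            mul_le_mul_of_nonneg_right hw (norm_nonneg _)
        _ ≤ ‖(Pt α n).eval w‖ := by rw [one_mul]; exact h2
    have ha := hα n
    have ha0 := norm_nonneg (α n)
    rw [UCA_pt_eval, UCA_ph_eval]
    constructor
    · intro h0
      rw [sub_eq_zero] at h0
      have h3 : ‖(Pt α n).eval w‖ = ‖α n‖ * ‖w * (Ph α n).eval w‖ := by
        rw [← norm_mul, ← h0]
      have h4 : ‖α n‖ * ‖w * (Ph α n).eval w‖ ≤ ‖α n‖ * ‖(Pt α n).eval w‖ :=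
        mul_le_mul_of_nonneg_left hz ha0
      nlinarith
    · have h3 := UCA_id (α n) ((Pt α n).eval w) (w * (Ph α n).eval w)
      have h4 : 0 ≤ (1 - ‖α n‖ ^ 2) * (‖(Pt α n).eval w‖ ^ 2
          - ‖w * (Ph α n).eval w‖ ^ 2) := by
        refine mul_nonneg (by nlinarith) ?_
        have := norm_nonneg (w * (Ph α n).eval w)
        nlinarith
      exact le_of_sq_le_sq (by linarith) (norm_nonneg _)

theorem UCA_pos {α : ℕ → ℂ} (hα : ∀ n, ‖α n‖ < 1) (k : ℕ) : 0 < 1 - ‖α k‖ ^ 2 := by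
  have h1 := hα k
  have h2 := norm_nonneg (α k)
  nlinarith

theorem nu_pos {α : ℕ → ℂ} (hα : ∀ n, ‖α n‖ < 1) (n : ℕ) : 0 < nu α n :=
  Finset.prod_pos fun k _ => UCA_pos hα k

theorem nu_exp {α : ℕ → ℂ} (hα : ∀ n, ‖α n‖ < 1) (n : ℕ) :
    nu α n = Real.exp (-En α (Finset.range n)) := by
  unfold nu En
  rw [← Finset.sum_neg_distrib, Real.exp_sum]
  refine Finset.prod_congr rfl fun k _ => ?_
  rw [neg_neg, Real.exp_log (UCA_pos hα k)]

theorem UCA_term_nonneg {α : ℕ → ℂ} (hα : ∀ n, ‖α n‖ < 1) (k : ℕ) :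
    ‖α k‖ ^ 2 ≤ -Real.log (1 - ‖α k‖ ^ 2) := by
  have h1 := Real.log_le_sub_one_of_pos (UCA_pos hα k)
  linarith

theorem en_nonneg {α : ℕ → ℂ} (hα : ∀ n, ‖α n‖ < 1) (s : Finset ℕ) : 0 ≤ En α s :=
  Finset.sum_nonneg fun k _ => (sq_nonneg _).trans (UCA_term_nonneg hα k)

theorem UCA_exp {α : ℕ → ℂ} (n : ℕ) {w : ℂ} (hw : ‖w‖ = 1) :
    ‖(Ph α n).eval w‖ ≤ Real.exp (∑ k ∈ Finset.range n, ‖α k‖) := by
  induction n with
  | zero => simp [UCA_ph_zero]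
  | succ n ih =>
    rw [Finset.sum_range_succ, Real.exp_add, UCA_ph_eval]
    have h1 : ‖w * (Ph α n).eval w - conj (α n) * (Pt α n).eval w‖ ≤
        ‖(Ph α n).eval w‖ * (‖α n‖ + 1) := by
      refine (norm_sub_le _ _).trans ?_
      rw [norm_mul, norm_mul, uca_abs α n hw, hw, Complex.norm_conj]
      linarith
    exact h1.trans (mul_le_mul ih (Real.add_one_le_exp _) (by positivity) (by positivity))

theorem uca_sup {α : ℕ → ℂ} (hα : ∀ n, ‖α n‖ < 1) (n : ℕ) {w : ℂ} (hw : ‖w‖ = 1) :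
    ‖(Ph α n).eval w‖ ^ 2 / nu α n ≤
      Real.exp (2 * √(n * En α (Finset.range n)) + En α (Finset.range n)) := by
  have h1 : ∑ k ∈ Finset.range n, ‖α k‖ ≤ √(n * En α (Finset.range n)) := by
    refine Real.le_sqrt_of_sq_le ?_
    have h2 := sq_sum_le_card_mul_sum_sq (s := Finset.range n) (f := fun k => ‖α k‖)
    rw [Finset.card_range] at h2
    refine h2.trans (mul_le_mul_of_nonneg_left ?_ (Nat.cast_nonneg n))
    exact Finset.sum_le_sum fun k _ => UCA_term_nonneg hα k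
  have h3 : ‖(Ph α n).eval w‖ ≤ Real.exp (√(n * En α (Finset.range n))) :=
    (UCA_exp n hw).trans (Real.exp_le_exp.2 h1)
  rw [nu_exp hα n, Real.exp_add, div_eq_mul_inv, ← Real.exp_neg, neg_neg]
  refine mul_le_mul_of_nonneg_right ?_ (Real.exp_pos _).le
  have h4 : Real.exp (2 * √(n * En α (Finset.range n))) =
      Real.exp (√(n * En α (Finset.range n))) ^ 2 := by
    rw [← Real.exp_nat_mul]
    norm_num
  rw [h4]
  exact pow_le_pow_left₀ (norm_nonneg _) h3 2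

end Pool.H52.MQ
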