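import Pool.Agent.H52.MQ.UCB

/-! Module UCG (project MP_935a4b_QM): Toeplitz determinant lower bound.  Uses UCA, UCB.
Szego sigma alpha, N >= 1, S_0..S_{N-1} measurable, pairwise disjoint subsets of the unit circle, c >= 0 such that for all w in prod S_i and all i: prod_{j/=i} |w_i-w_j| >= c.
Then c^N prod sigma(S_j) <= prod_{k<N} nu_k.
Proof.  M(w) := det (Ph_k(w_i))_{i,k<N} = Vandermonde det(w_i^k) (Ph_k monic of degree k: Matrix.det_eval_matrixOfPolynomials_eq_det_vandermonde or similar in Mathlib), |det Vandermonde|^2 = prod_{i<j}|w_i-w_j|^2 = prod_i prod_{j/=i}|w_i-w_j|.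
(1) int |M|^2 d(sigma^N) (Measure.pi (fun _ => sigma) on Fin N -> C) = N! prod nu_k: expand det = sum over permutations sign * prod Ph_{p(i)}(w_i), product measure: integral_fintype_prod_eq_prod, ucb_orth: only p = p' survives.
(2) for each permutation p the set R_p = {w : w_i in S_{p(i)} for all i} has measure prod sigma(S_j); the R_p are pairwise disjoint (S_j disjoint and ... if some S_j is empty or null the claim is trivial); on R_p |M(w)|^2 >= c^N: apply the hypothesis to
  w o p^{-1}, the double product is invariant under permutations.  So N! prod nu_k >= N! c^N prod sigma(S_j). -/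

open MeasureTheory Set Polynomial
open scoped ENNReal ComplexConjugate

namespace Pool.H52.MQ

private theorem UCG_norm_sq {N : ℕ} (w : Fin N → ℂ) :
    ‖(Matrix.vandermonde w).det‖ ^ 2 = ∏ i, ∏ j ∈ Finset.univ.erase i, ‖w i - w j‖ := by
  rw [Matrix.det_vandermonde, norm_prod, ← Finset.prod_pow]
  have h := Finset.prod_prod_Ioi_mul_eq_prod_prod_off_diag (fun i j : Fin N => ‖w j - w i‖)
  have h2 : ∀ i : Fin N, ({i}ᶜ : Finset (Fin N)) = Finset.univ.erase i := fun i =>
    Finset.compl_singleton i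
  simp only [h2] at h
  rw [← h]
  refine Finset.prod_congr rfl fun i _ => ?_
  rw [norm_prod, ← Finset.prod_pow]
  refine Finset.prod_congr rfl fun j _ => ?_
  rw [norm_sub_rev (w i) (w j), sq]

private theorem UCG_low {N : ℕ} {S : Fin N → Set ℂ} {c : ℝ} (hc : 0 ≤ c)
    (hprod : ∀ w : Fin N → ℂ, (∀ i, w i ∈ S i) → ∀ i, c ≤ ∏ j ∈ Finset.univ.erase i, ‖w i - w j‖)
    (π : Equiv.Perm (Fin N)) {w : Fin N → ℂ} (hw : ∀ i, w i ∈ S (π i)) :
    c ^ N ≤ ‖(Matrix.vandermonde w).det‖ ^ 2 := by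
  rw [UCG_norm_sq]
  have key : ∀ i, c ≤ ∏ j ∈ Finset.univ.erase i, ‖w i - w j‖ := by
    intro i
    have h := hprod (fun j => w (π.symm j)) (fun j => by
      have := hw (π.symm j)
      rwa [Equiv.apply_symm_apply] at this) (π i)
    simp only [Equiv.symm_apply_apply] at h
    refine h.trans (le_of_eq ?_)
    symm
    apply Finset.prod_equiv π
    · intro j
      simp
    · intro j _
      rw [Equiv.symm_apply_apply]
  calc c ^ N = ∏ _i : Fin N, c := by simp
    _ ≤ _ := Finset.prod_le_prod (fun _ _ => hc) (fun i _ => key i)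

private theorem UCG_int {σ : Measure ℂ} {α : ℕ → ℂ} (h : Szego σ α) (N : ℕ) :
    Integrable (fun w : Fin N → ℂ => (‖(Matrix.vandermonde w).det‖ ^ 2 : ℝ))
      (Measure.pi fun _ => σ) ∧
    ∫ w : Fin N → ℂ, (‖(Matrix.vandermonde w).det‖ ^ 2 : ℝ) ∂(Measure.pi fun _ => σ) =
      (N.factorial : ℝ) * ∏ k ∈ Finset.range N, nu α k := by
  classical
  have hprob : IsProbabilityMeasure σ := h.prob
  set μ : Measure (Fin N → ℂ) := Measure.pi fun _ => σ with hμ
  let G : Equiv.Perm (Fin N) → Equiv.Perm (Fin N) → (Fin N → ℂ) → ℂ := fun π ρ w =>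
    ∏ i, ((Ph α (π i)).eval (w i) * conj ((Ph α (ρ i)).eval (w i)))
  have hcont : ∀ a b : ℕ, Continuous (fun x : ℂ => (Ph α a).eval x * conj ((Ph α b).eval x)) := by
    intro a b
    exact (Ph α a).continuous.mul (Complex.continuous_conj.comp (Ph α b).continuous)
  have hG : ∀ π ρ, Integrable (G π ρ) μ := by
    intro π ρ
    exact Integrable.fintype_prod
      (f := fun i x => (Ph α (π i)).eval x * conj ((Ph α (ρ i)).eval x))
      (fun i => ucb_int h (hcont _ _))
  have hGi : ∀ π ρ, ∫ w, G π ρ w ∂μ = ∏ i, if π i = ρ i then (nu α (π i) : ℂ) else 0 := by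
    intro π ρ
    have h1 := integral_fintype_prod_eq_prod (𝕜 := ℂ) (μ := fun _ : Fin N => σ)
      (fun (i : Fin N) (x : ℂ) => (Ph α (π i)).eval x * conj ((Ph α (ρ i)).eval x))
    refine h1.trans (Finset.prod_congr rfl fun i _ => ?_)
    rw [ucb_orth h]
    by_cases hi : π i = ρ i
    · rw [if_pos hi, if_pos (by rw [hi])]
    · rw [if_neg hi, if_neg (fun h2 => hi (Fin.ext h2))]
  have hdet : ∀ w : Fin N → ℂ, (Matrix.vandermonde w).det =
      ∑ π : Equiv.Perm (Fin N), ((Equiv.Perm.sign π : ℤ) : ℂ) * ∏ i, (Ph α (π i)).eval (w i) := by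
    intro w
    rw [Matrix.det_eval_matrixOfPolynomials_eq_det_vandermonde w (fun k : Fin N => Ph α k)
      (fun i => (uca_deg α i).2.1) (fun i => (uca_deg α i).1), ← Matrix.det_transpose,
      Matrix.det_apply']
    rfl
  have hsum : ∀ w : Fin N → ℂ, ((‖(Matrix.vandermonde w).det‖ ^ 2 : ℝ) : ℂ) =
      ∑ π : Equiv.Perm (Fin N), ∑ ρ : Equiv.Perm (Fin N),
        (((Equiv.Perm.sign π : ℤ) : ℂ) * ((Equiv.Perm.sign ρ : ℤ) : ℂ)) * G π ρ w := by
    intro w
    have h1 : ((‖(Matrix.vandermonde w).det‖ ^ 2 : ℝ) : ℂ) =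
        (Matrix.vandermonde w).det * conj (Matrix.vandermonde w).det := by
      rw [Complex.mul_conj, Complex.normSq_eq_norm_sq]
    rw [h1, hdet, map_sum, Finset.sum_mul_sum]
    refine Finset.sum_congr rfl fun π _ => Finset.sum_congr rfl fun ρ _ => ?_
    rw [map_mul, map_intCast, map_prod]
    show _ = (_ * _) * ∏ i, _
    rw [Finset.prod_mul_distrib]
    ring
  have hintC : Integrable (fun w : Fin N → ℂ => ((‖(Matrix.vandermonde w).det‖ ^ 2 : ℝ) : ℂ)) μ := by
    simp only [hsum]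
    exact integrable_finsetSum _ fun π _ => integrable_finsetSum _ fun ρ _ =>
      (hG π ρ).const_mul _
  have hintR : Integrable (fun w : Fin N → ℂ => (‖(Matrix.vandermonde w).det‖ ^ 2 : ℝ)) μ := by
    have h7 := hintC.re
    exact h7
  refine ⟨hintR, ?_⟩
  have h1 : ((∫ w : Fin N → ℂ, (‖(Matrix.vandermonde w).det‖ ^ 2 : ℝ) ∂μ : ℝ) : ℂ) =
      (N.factorial : ℂ) * ∏ k ∈ Finset.range N, (nu α k : ℂ) := by
    rw [← integral_complex_ofReal]
    simp only [hsum]
    rw [integral_finsetSum _ fun π _ => integrable_finsetSum _ fun ρ _ => (hG π ρ).const_mul _]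
    have h2 : ∀ π : Equiv.Perm (Fin N), ∫ w, ∑ ρ : Equiv.Perm (Fin N),
        (((Equiv.Perm.sign π : ℤ) : ℂ) * ((Equiv.Perm.sign ρ : ℤ) : ℂ)) * G π ρ w ∂μ =
        ∏ k ∈ Finset.range N, (nu α k : ℂ) := by
      intro π
      rw [integral_finsetSum _ fun ρ _ => (hG π ρ).const_mul _]
      have h3 : ∀ ρ : Equiv.Perm (Fin N), ∫ w,
          (((Equiv.Perm.sign π : ℤ) : ℂ) * ((Equiv.Perm.sign ρ : ℤ) : ℂ)) * G π ρ w ∂μ =
          (((Equiv.Perm.sign π : ℤ) : ℂ) * ((Equiv.Perm.sign ρ : ℤ) : ℂ)) *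
            ∏ i, if π i = ρ i then (nu α (π i) : ℂ) else 0 := by
        intro ρ
        rw [integral_const_mul, hGi]
      rw [Finset.sum_congr rfl fun ρ _ => h3 ρ, Finset.sum_eq_single π]
      · have h4 : ((Equiv.Perm.sign π : ℤ) : ℂ) * ((Equiv.Perm.sign π : ℤ) : ℂ) = 1 := by
          rcases Int.units_eq_one_or (Equiv.Perm.sign π) with h5 | h5 <;> simp [h5]
        rw [h4, one_mul]
        simp only [if_true]
        rw [Equiv.prod_comp π (fun i : Fin N => (nu α (i : ℕ) : ℂ)), Finset.prod_range]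
      · intro ρ _ hρ
        have h5 : ∃ i, π i ≠ ρ i := by
          by_contra hcon
          push Not at hcon
          exact hρ (Equiv.ext fun i => (hcon i).symm)
        obtain ⟨i, hi⟩ := h5
        rw [Finset.prod_eq_zero (Finset.mem_univ i) (if_neg hi), mul_zero]
      · intro h5
        exact absurd (Finset.mem_univ π) h5
    rw [Finset.sum_congr rfl fun π _ => h2 π, Finset.sum_const, Finset.card_univ,
      Fintype.card_perm, Fintype.card_fin, nsmul_eq_mul]
  exact_mod_cast h1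

theorem ucg_det {σ : Measure ℂ} {α : ℕ → ℂ} (h : Szego σ α) (N : ℕ) (S : Fin N → Set ℂ)
    (hS : ∀ i, MeasurableSet (S i)) (hdis : ∀ i j, i ≠ j → Disjoint (S i) (S j)) (c : ℝ) (hc : 0 ≤ c)
    (hprod : ∀ w : Fin N → ℂ, (∀ i, w i ∈ S i) → ∀ i, c ≤ ∏ j ∈ Finset.univ.erase i, ‖w i - w j‖) :
    c ^ N * ∏ j, (σ (S j)).toReal ≤ ∏ k ∈ Finset.range N, nu α k := by
  classical
  have hprob : IsProbabilityMeasure σ := h.prob
  obtain ⟨hint, hval⟩ := UCG_int h N
  set μ : Measure (Fin N → ℂ) := Measure.pi fun _ => σ with hμ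
  let R : Equiv.Perm (Fin N) → Set (Fin N → ℂ) := fun π => Set.pi univ fun i => S (π i)
  have hRm : ∀ π, MeasurableSet (R π) := fun π => MeasurableSet.univ_pi fun i => hS _
  have hRμ : ∀ π, μ.real (R π) = ∏ j, (σ (S j)).toReal := by
    intro π
    rw [Measure.real, hμ, Measure.pi_pi, ENNReal.toReal_prod]
    exact Equiv.prod_comp π (fun j => (σ (S j)).toReal)
  have hpt : ∀ w : Fin N → ℂ, ∑ π : Equiv.Perm (Fin N), (R π).indicator (fun _ => c ^ N) w ≤
      ‖(Matrix.vandermonde w).det‖ ^ 2 := by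
    intro w
    by_cases hex : ∃ π, w ∈ R π
    · obtain ⟨π, hπ⟩ := hex
      have hπ' : ∀ i, w i ∈ S (π i) := fun i => hπ i (mem_univ i)
      rw [Finset.sum_eq_single π]
      · rw [indicator_of_mem hπ]
        exact UCG_low hc hprod π hπ'
      · intro ρ _ hρ
        apply indicator_of_notMem
        intro hmem
        have h5 : ∃ i, π i ≠ ρ i := by
          by_contra hcon
          push Not at hcon
          exact hρ (Equiv.ext fun i => (hcon i).symm)
        obtain ⟨i, hi⟩ := h5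
        exact Set.disjoint_left.mp (hdis _ _ hi) (hπ' i) (hmem i (mem_univ i))
      · intro h5
        exact absurd (Finset.mem_univ π) h5
    · push Not at hex
      rw [Finset.sum_eq_zero fun π _ => indicator_of_notMem (hex π) _]
      positivity
  have hindi : ∀ π : Equiv.Perm (Fin N),
      Integrable ((R π).indicator (fun _ : Fin N → ℂ => c ^ N)) μ := fun π =>
    (integrable_const _).indicator (hRm π)
  have hmono := integral_mono (μ := μ)
    (integrable_finsetSum Finset.univ fun π _ => hindi π) hint (fun w => hpt w)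
  rw [hval, integral_finsetSum _ fun π _ => hindi π] at hmono
  have h6 : ∀ π : Equiv.Perm (Fin N), ∫ w, (R π).indicator (fun _ : Fin N → ℂ => c ^ N) w ∂μ =
      c ^ N * ∏ j, (σ (S j)).toReal := by
    intro π
    rw [integral_indicator_const _ (hRm π), hRμ, smul_eq_mul, mul_comm]
  rw [Finset.sum_congr rfl fun π _ => h6 π, Finset.sum_const, Finset.card_univ, Fintype.card_perm,
    Fintype.card_fin, nsmul_eq_mul] at hmono
  exact le_of_mul_le_mul_left hmono (by exact_mod_cast N.factorial_pos)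

end Pool.H52.MQ
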