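import Pool.Agent.H52.MQ.Defs

/-! Module UCH (project MP_935a4b_QM): products of distances.  Mathlib only.
N >= 1, points w_j = exp(i t_j), t_j in [ (2 pi/N)(j+1/3), (2 pi/N)(j+2/3) ], j = 0..N-1.  Then prod_{j/=i}|w_i-w_j| >= 1/3 for every i.
Proof.  |w_i-w_j| = 2|sin((t_i-t_j)/2)|.  For j/=i let k = |i-j| in {1..N-1}: |t_i-t_j| in [(2pi/N)(k-1/3), (2pi/N)(k+1/3)], so half of it lies in [(pi/N)(k-1/3),(pi/N)(k+1/3)] inside [0,pi]; sin is concave on [0,pi] and symmetric, so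
 2 sin >= min(2 sin((pi/N)(k-1/3)), 2 sin((pi/N)(N-k-1/3))).  With k' = min(k,N-k) >= 1: sin((pi/N)(k'-1/3)) >= ((k'-1/3)/k') sin(pi k'/N) (concavity, sin 0 = 0); both terms of the min are >= that of k' (k' <= N-k', monotone up to symmetry).
 So |w_i-w_j| >= (1-1/(3k')) 2 sin(pi k/N).  prod_{k=1}^{N-1} 2 sin(pi k/N) = N  (prod |1-zeta^k| = N: value at 1 of (X^N-1)/(X-1)); as j runs over the other indices k mod N: the product over j/=i of 2 sin(pi|i-j|/N) equals prod_{k=1}^{N-1} 2 sin(pi k/N) = N.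
 prod_{k=1}^{N-1} (1-1/(3k')) >= prod_{j=1}^{M} (1-1/(3j))^2, M = floor(N/2) (each value j of k' is taken at most twice).  (1-1/(3j))^3 >= 1-1/j, so prod_{j<=M}(1-1/(3j))^3 >= (8/27) prod_{j=2}^M (1-1/j) = 8/(27M).
 Hence for N >= 2 (total)^3 >= N^3 (8/(27M))^2 >= N^3 * 64/(729 N^2/4) = 256N/729 >= 1/27.  (N = 1: empty product 1.) -/

open MeasureTheory Set

namespace Pool.H52.MQ

theorem UCH_prod (n : ℕ) :
    ∏ k ∈ Finset.range n, (2 * Real.sin (Real.pi * ((k + 1 : ℕ) : ℝ) / ((n + 1 : ℕ) : ℝ))) = n + 1 := by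
  have hμ := Complex.isPrimitiveRoot_exp (n + 1) (by omega)
  have h := hμ.prod_one_sub_pow_eq_order
  have h2 := congrArg norm h
  rw [norm_prod] at h2
  have h3 : ‖((n : ℂ) + 1)‖ = (n : ℝ) + 1 := by
    have : ((n : ℂ) + 1) = (((n : ℝ) + 1 : ℝ) : ℂ) := by push_cast; ring
    rw [this, Complex.norm_real, Real.norm_eq_abs, abs_of_nonneg (by positivity)]
  rw [h3] at h2
  rw [← h2]
  refine Finset.prod_congr rfl fun k hk => ?_
  have hk' := Finset.mem_range.1 hk
  rw [norm_sub_rev, ← Complex.exp_nat_mul]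
  have h4 : ((k + 1 : ℕ) : ℂ) * (2 * Real.pi * Complex.I / ((n + 1 : ℕ) : ℂ)) =
      Complex.I * ((2 * (Real.pi * ((k + 1 : ℕ) : ℝ) / ((n + 1 : ℕ) : ℝ)) : ℝ) : ℂ) := by
    push_cast
    ring
  rw [h4, Complex.norm_exp_I_mul_ofReal_sub_one, mul_div_cancel_left₀ _ (two_ne_zero), Real.norm_eq_abs,
    abs_of_nonneg]
  apply mul_nonneg zero_le_two
  apply Real.sin_nonneg_of_nonneg_of_le_pi (by positivity)
  rw [div_le_iff₀ (by positivity)]
  apply mul_le_mul_of_nonneg_left _ Real.pi_pos.le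
  exact_mod_cast (by omega : k + 1 ≤ n + 1)

theorem UCH_sin {y l : ℝ} (hy : y ∈ Icc 0 Real.pi) (hl0 : 0 ≤ l) (hl1 : l ≤ 1) :
    l * Real.sin y ≤ Real.sin (l * y) := by
  have h := strictConcaveOn_sin_Icc.concaveOn.2 (show (0:ℝ) ∈ Icc 0 Real.pi from ⟨le_rfl, Real.pi_pos.le⟩)
    hy (show 0 ≤ 1 - l by linarith) hl0 (by ring)
  simpa using h

theorem UCH_pt {K M x : ℝ} (hK : 1 ≤ K) (hM : 1 ≤ M) (h1 : Real.pi / (K + M) * (K - 1 / 3) ≤ x)
    (h2 : x ≤ Real.pi / (K + M) * (K + 1 / 3)) :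
    (1 - 1 / (3 * K)) * (1 - 1 / (3 * M)) * Real.sin (Real.pi * K / (K + M)) ≤ Real.sin x := by
  have hpi := Real.pi_pos
  have hK0 : 0 < K := by linarith
  have hM0 : 0 < M := by linarith
  have hKM : 0 < K + M := by linarith
  obtain ⟨q, hq⟩ : ∃ q, q = Real.pi / (K + M) := ⟨_, rfl⟩
  have hq0 : 0 < q := by rw [hq]; positivity
  have hqpi : q * K + q * M = Real.pi := by
    rw [hq]
    field_simp
  have hy : Real.pi * K / (K + M) = q * K := by rw [hq]; ring
  rw [← hq] at h1 h2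
  rw [hy]
  have a1 : 1 / (3 * K) ≤ 1 / 3 := by
    apply one_div_le_one_div_of_le (by norm_num)
    linarith
  have a2 : 1 / (3 * M) ≤ 1 / 3 := by
    apply one_div_le_one_div_of_le (by norm_num)
    linarith
  have a3 : 0 < 1 / (3 * K) := by positivity
  have a4 : 0 < 1 / (3 * M) := by positivity
  have hymem : q * K ∈ Icc 0 Real.pi := ⟨by positivity, by nlinarith⟩
  have hs : 0 ≤ Real.sin (q * K) := Real.sin_nonneg_of_nonneg_of_le_pi hymem.1 hymem.2
  rcases le_or_gt x (q * K) with hx | hx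
  · have hx0 : 0 ≤ x := le_trans (by nlinarith) h1
    have h3 := UCH_sin hymem (l := x / (q * K)) (by positivity) (by
      rw [div_le_one (by positivity)]
      exact hx)
    rw [div_mul_cancel₀ _ (by positivity : q * K ≠ 0)] at h3
    have h4 : 1 - 1 / (3 * K) ≤ x / (q * K) := by
      rw [le_div_iff₀ (by positivity)]
      have : (1 - 1 / (3 * K)) * (q * K) = q * (K - 1 / 3) := by
        field_simp
      rw [this]
      exact h1
    refine le_trans ?_ h3
    apply mul_le_mul_of_nonneg_right _ hs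
    nlinarith
  · have hx1 : 0 ≤ Real.pi - x := by nlinarith
    have h3 := UCH_sin (y := q * M) ⟨by positivity, by nlinarith⟩ (l := (Real.pi - x) / (q * M))
      (by positivity) (by
        rw [div_le_one (by positivity)]
        linarith)
    rw [div_mul_cancel₀ _ (by positivity : q * M ≠ 0), Real.sin_pi_sub] at h3
    have h5 : Real.sin (q * M) = Real.sin (q * K) := by
      have : q * M = Real.pi - q * K := by linarith
      rw [this, Real.sin_pi_sub]
    rw [h5] at h3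
    have h4 : 1 - 1 / (3 * M) ≤ (Real.pi - x) / (q * M) := by
      rw [le_div_iff₀ (by positivity)]
      have : (1 - 1 / (3 * M)) * (q * M) = q * (M - 1 / 3) := by
        field_simp
      rw [this]
      nlinarith
    refine le_trans ?_ h3
    apply mul_le_mul_of_nonneg_right _ hs
    nlinarith

/-- lower bound for the chord between the points number `j` and `j + k` -/
noncomputable def UCH_b (N k : ℕ) : ℝ :=
  (1 - 1 / (3 * (k : ℝ))) * (1 - 1 / (3 * ((N : ℝ) - k))) * (2 * Real.sin (Real.pi * k / N))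

theorem UCH_symm (N k : ℕ) (hk : k ≤ N) (hN : 1 ≤ N) : UCH_b N (N - k) = UCH_b N k := by
  unfold UCH_b
  have h0 : (0:ℝ) < N := by exact_mod_cast hN
  rw [Nat.cast_sub hk, sub_sub_cancel]
  have h1 : Real.pi * ((N : ℝ) - k) / N = Real.pi - Real.pi * k / N := by
    field_simp
  rw [h1, Real.sin_pi_sub]
  ring

theorem UCH_nonneg {N k : ℕ} (h1 : 1 ≤ k) (h2 : k + 1 ≤ N) : 0 ≤ UCH_b N k := by
  unfold UCH_b
  have g1 : (1:ℝ) ≤ k := by exact_mod_cast h1
  have g2 : (k:ℝ) + 1 ≤ N := by exact_mod_cast h2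
  have a1 : 1 / (3 * (k : ℝ)) ≤ 1 / 3 := one_div_le_one_div_of_le (by norm_num) (by linarith)
  have a2 : 1 / (3 * ((N : ℝ) - k)) ≤ 1 / 3 := one_div_le_one_div_of_le (by norm_num) (by linarith)
  have hs : 0 ≤ Real.sin (Real.pi * k / N) := by
    apply Real.sin_nonneg_of_nonneg_of_le_pi (by positivity)
    rw [div_le_iff₀ (by linarith)]
    have := Real.pi_pos
    nlinarith
  apply mul_nonneg (mul_nonneg (by linarith) (by linarith))
  linarith

theorem UCH_norm (a b : ℝ) : ‖Complex.exp (a * Complex.I) - Complex.exp (b * Complex.I)‖ =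
    2 * |Real.sin ((a - b) / 2)| := by
  have h1 : Complex.exp (a * Complex.I) - Complex.exp (b * Complex.I) =
      Complex.exp (b * Complex.I) * (Complex.exp (Complex.I * ((a - b : ℝ) : ℂ)) - 1) := by
    rw [mul_sub, mul_one, ← Complex.exp_add]
    congr 2
    push_cast
    ring
  rw [h1, norm_mul, Complex.norm_exp_ofReal_mul_I, one_mul, Complex.norm_exp_I_mul_ofReal_sub_one,
    norm_mul, Real.norm_eq_abs, Real.norm_eq_abs, abs_of_pos (by norm_num : (0:ℝ) < 2)]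

theorem UCH_bound {N : ℕ} (t : Fin N → ℝ)
    (ht : ∀ j : Fin N, t j ∈ Icc (2 * Real.pi / N * ((j : ℝ) + 1 / 3)) (2 * Real.pi / N * ((j : ℝ) + 2 / 3)))
    {i j : Fin N} (hij : (j : ℕ) < i) : UCH_b N ((i : ℕ) - j) ≤
      ‖Complex.exp (t i * Complex.I) - Complex.exp (t j * Complex.I)‖ := by
  rw [UCH_norm]
  obtain ⟨k, hk⟩ : ∃ k, k = (i : ℕ) - j := ⟨_, rfl⟩
  have hi := i.2
  have hkc : (k : ℝ) = (i : ℝ) - j := by
    rw [hk, Nat.cast_sub hij.le]
  have hk1 : (1:ℝ) ≤ k := by exact_mod_cast (by omega : 1 ≤ k)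
  have hkN : (k:ℝ) + 1 ≤ N := by exact_mod_cast (by omega : k + 1 ≤ N)
  have hi1 := (ht i).1
  have hi2 := (ht i).2
  have hj1 := (ht j).1
  have hj2 := (ht j).2
  have h1 := UCH_pt (K := k) (M := (N:ℝ) - k) (x := (t i - t j) / 2) hk1 (by linarith)
    (by
      rw [add_sub_cancel, hkc]
      have e1 : 2 * Real.pi / N * ((i : ℝ) + 1 / 3) - 2 * Real.pi / N * ((j : ℝ) + 2 / 3) =
        2 * (Real.pi / N * ((i : ℝ) - j - 1 / 3)) := by ring
      linarith)
    (by
      rw [add_sub_cancel, hkc]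
      have e1 : 2 * Real.pi / N * ((i : ℝ) + 2 / 3) - 2 * Real.pi / N * ((j : ℝ) + 1 / 3) =
        2 * (Real.pi / N * ((i : ℝ) - j + 1 / 3)) := by ring
      linarith)
  rw [add_sub_cancel] at h1
  have h2 := le_abs_self (Real.sin ((t i - t j) / 2))
  rw [← hk]
  unfold UCH_b
  linarith

/-- the product of the corrections -/
theorem UCH_A (M : ℕ) (hM : 1 ≤ M) :
    8 / (27 * (M : ℝ)) ≤ (∏ k ∈ Finset.range M, (1 - 1 / (3 * ((k + 1 : ℕ) : ℝ)))) ^ 3 := by
  induction M, hM using Nat.le_induction with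
  | base => norm_num
  | succ M hM ih =>
    rw [Finset.prod_range_succ, mul_pow]
    have hM0 : (1:ℝ) ≤ M := by exact_mod_cast hM
    have h1 : (M : ℝ) / (M + 1) ≤ (1 - 1 / (3 * ((M + 1 : ℕ) : ℝ))) ^ 3 := by
      push_cast
      obtain ⟨x, hx⟩ : ∃ x, x = 1 / (3 * ((M : ℝ) + 1)) := ⟨_, rfl⟩
      have hx0 : 0 < x := by rw [hx]; positivity
      have hx1 : x ≤ 1 := by
        rw [hx, div_le_one (by positivity)]
        linarith
      have h2 : (M : ℝ) / (M + 1) = 1 - 3 * x := by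
        rw [hx]
        field_simp
        ring
      rw [h2, ← hx]
      nlinarith [sq_nonneg x, mul_nonneg (sq_nonneg x) (by linarith : (0:ℝ) ≤ 3 - x)]
    have h3 : 8 / (27 * ((M + 1 : ℕ) : ℝ)) = 8 / (27 * (M : ℝ)) * ((M : ℝ) / (M + 1)) := by
      push_cast
      field_simp
    rw [h3]
    apply mul_le_mul ih h1 (by positivity)
    exact le_trans (by positivity) ih

theorem UCH_total (n : ℕ) : 1 / 3 ≤ ∏ k ∈ Finset.range n, UCH_b (n + 1) (k + 1) := by
  have h1 : ∏ k ∈ Finset.range n, UCH_b (n + 1) (k + 1) =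
      (∏ k ∈ Finset.range n, (1 - 1 / (3 * ((k + 1 : ℕ) : ℝ)))) ^ 2 * (n + 1) := by
    unfold UCH_b
    rw [Finset.prod_mul_distrib, Finset.prod_mul_distrib, UCH_prod, sq]
    congr 2
    rw [← Finset.prod_range_reflect]
    refine Finset.prod_congr rfl fun k hk => ?_
    have hk' := Finset.mem_range.1 hk
    have e1 : (((n + 1 : ℕ) : ℝ) - ((n - 1 - k + 1 : ℕ) : ℝ)) = ((k + 1 : ℕ) : ℝ) := by
      rw [← Nat.cast_sub (by omega)]
      congr 1
      omega
    rw [e1]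
  rw [h1]
  rcases Nat.eq_zero_or_pos n with h0 | hn
  · subst h0
    norm_num
  obtain ⟨A, hA⟩ : ∃ A, A = ∏ k ∈ Finset.range n, (1 - 1 / (3 * ((k + 1 : ℕ) : ℝ))) := ⟨_, rfl⟩
  have h2 := UCH_A n hn
  rw [← hA] at h2 ⊢
  have hn1 : (1:ℝ) ≤ n := by exact_mod_cast hn
  have h3 : 0 ≤ A ^ 2 * ((n : ℝ) + 1) := by positivity
  have h4 : (1 / 3 : ℝ) ^ 3 ≤ (A ^ 2 * ((n : ℝ) + 1)) ^ 3 := by
    have h5 : (A ^ 2 * ((n : ℝ) + 1)) ^ 3 = (A ^ 3) ^ 2 * ((n : ℝ) + 1) ^ 3 := by ring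
    rw [h5]
    have h6 : (8 / (27 * (n : ℝ))) ^ 2 ≤ (A ^ 3) ^ 2 := pow_le_pow_left₀ (by positivity) h2 2
    have h7 : (1 / 3 : ℝ) ^ 3 ≤ (8 / (27 * (n : ℝ))) ^ 2 * ((n : ℝ) + 1) ^ 3 := by
      have h8 : (8 / (27 * (n : ℝ))) ^ 2 * ((n : ℝ) + 1) ^ 3 = 64 * ((n : ℝ) + 1) ^ 3 / (729 * (n : ℝ) ^ 2) := by
        rw [div_pow]
        ring
      rw [h8, le_div_iff₀ (by positivity)]
      nlinarith [sq_nonneg (n : ℝ), mul_nonneg (sq_nonneg (n : ℝ)) (by linarith : (0:ℝ) ≤ n)]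
    exact h7.trans (mul_le_mul_of_nonneg_right h6 (by positivity))
  exact (pow_le_pow_iff_left₀ (by norm_num) h3 (by norm_num)).1 h4

theorem uch_chord (N : ℕ) (hN : 1 ≤ N) (t : Fin N → ℝ)
    (ht : ∀ j : Fin N, t j ∈ Icc (2 * Real.pi / N * ((j : ℝ) + 1 / 3)) (2 * Real.pi / N * ((j : ℝ) + 2 / 3)))
    (i : Fin N) : 1 / 3 ≤ ∏ j ∈ Finset.univ.erase i,
      ‖Complex.exp (t i * Complex.I) - Complex.exp (t j * Complex.I)‖ := by
  obtain ⟨n, rfl⟩ : ∃ n, N = n + 1 := ⟨N - 1, by omega⟩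
  refine (UCH_total n).trans ?_
  obtain ⟨G, hG⟩ : ∃ G : ℕ → ℝ, G = fun j => if j < (i : ℕ) then UCH_b (n + 1) (i - j) else
    if j = (i : ℕ) then 1 else UCH_b (n + 1) (j - i) := ⟨_, rfl⟩
  have hi := i.2
  have h1 : ∏ j ∈ Finset.univ.erase i, G j ≤ ∏ j ∈ Finset.univ.erase i,
      ‖Complex.exp (t i * Complex.I) - Complex.exp (t j * Complex.I)‖ := by
    apply Finset.prod_le_prod
    · intro j hj
      have hji : (j : ℕ) ≠ i := fun h => (Finset.mem_erase.1 hj).1 (Fin.ext h)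
      have hj' := j.2
      rw [hG]
      simp only
      split_ifs with h2
      · exact UCH_nonneg (by omega) (by omega)
      · exact UCH_nonneg (by omega) (by omega)
    · intro j hj
      have hji : (j : ℕ) ≠ i := fun h => (Finset.mem_erase.1 hj).1 (Fin.ext h)
      rw [hG]
      simp only
      split_ifs with h2
      · exact UCH_bound t ht h2
      · rw [norm_sub_rev]
        exact UCH_bound t ht (by omega)
  refine le_trans (le_of_eq ?_) h1
  have h2 : ∏ j ∈ Finset.univ.erase i, G j = ∏ j : Fin (n + 1), G j := by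
    apply Finset.prod_erase
    rw [hG]
    simp
  rw [h2, Fin.prod_univ_eq_prod_range G (n + 1)]
  obtain ⟨m, hm⟩ : ∃ m, n = i + m := ⟨n - i, by omega⟩
  have h3 : n + 1 = (i : ℕ) + 1 + m := by omega
  have h4 : ∏ x ∈ Finset.range (n + 1), G x = (∏ x ∈ Finset.range i, UCH_b (n + 1) (x + 1)) *
      ∏ x ∈ Finset.range m, UCH_b (n + 1) (i + x + 1) := by
    conv_lhs => rw [h3]
    rw [Finset.prod_range_add, Finset.prod_range_succ]
    have e1 : G i = 1 := by
      rw [hG]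
      simp
    rw [e1, mul_one]
    congr 1
    · rw [← Finset.prod_range_reflect]
      refine Finset.prod_congr rfl fun x hx => ?_
      have hx' := Finset.mem_range.1 hx
      rw [hG]
      simp only
      rw [if_pos (by omega)]
      congr 1
      omega
    · rw [← Finset.prod_range_reflect]
      refine Finset.prod_congr rfl fun x hx => ?_
      have hx' := Finset.mem_range.1 hx
      rw [hG]
      simp only
      rw [if_neg (by omega), if_neg (by omega), ← UCH_symm (n + 1) (i + x + 1) (by omega) (by omega)]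
      congr 1
      omega
  rw [h4]
  have h6 : Finset.range n = Finset.range ((i : ℕ) + m) := congrArg Finset.range hm
  rw [h6, Finset.prod_range_add]

end Pool.H52.MQ
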