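import Pool.Agent.H52.MQ.MSG
import Pool.Agent.H52.MQ.SBC
import Pool.Agent.H52.MQ.UCG
import Pool.Agent.H52.MQ.UCH
import Pool.Agent.H52.MQ.UCA

/-! Module MEN (project MP_935a4b_QM): ENERGY BOUND for the comparison measure.  Uses MSG, SBC (mass_sum), UCA, UCG, UCH.
M = 0 trivial.  M >= 1, N = 6M.  S_j = image under t -> exp(it) of T_j = Icc ((2pi/N)(j+1/3)) ((2pi/N)(j+2/3)), j < N: compact (measurable), pairwise disjoint (T_j disjoint subsets of (0,2pi), exp(it) injective on Ico 0 (2 pi)).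
ucg_det with c = 1/3 (uch_chord; each w_i in S_i is exp(i t_i), t_i in T_i): (1/3)^N prod sg(S_j) <= prod_{k<N} nu_k <= nu_M^(5M)  (0 < nu_k <= 1, nu decreasing: nu_pos, ||alpha|| < 1).
With nu_M = exp(-En(range M)) (nu_exp):  5M En(range M) <= 6M log 3 + sum_{j<6M} -log sg(S_j).
Since 3 divides N each T_j is contained in [0,2pi/3], [2pi/3,4pi/3] or [4pi/3,2pi] (j < 2M, 2M <= j < 4M, j >= 4M).
Outer j: msg_arc_out: sg(S_j) >= (2pi/(3N))/64 >= 1/(32 N) (pi >= 3): -log <= log(32 N).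
Central j: c_j = (1+cos(t_max/2))/2, d_j = (1+cos(t_min/2))/2 for T_j = [t_min,t_max]: for y in [c_j,d_j]: vp y = exp(2i arccos(2y-1)) and 2 arccos(2y-1) in T_j.  d_j - c_j >= (1/4)(t_max-t_min) min sin(t/2) >= 1/(3N)
 (t/2 in [pi/3,2pi/3], sin >= 0.86, t_max - t_min = 2pi/(3N); mean value theorem or cos a - cos b = 2 sin sin).  The intervals [c_j,d_j] are disjoint, in [1/4,3/4].  msg_arc_in: sg(S_j) >= mu(Icc c_j d_j) > 0,
 mass_sum with l = 1/(3N): sum_j -log sg(S_j) <= 9N (1+log(9N))^2.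
Total: En(range M) <= C (log(M+2))^2 (N = 6M; log(M+2) >= 1/2, log(32*6M), log(54 M) <= C log(M+2)). -/

open MeasureTheory Set Polynomial
open scoped ENNReal ComplexConjugate

namespace Pool.H52.MQ

private theorem MEN_inj {t s : ℝ} (ht : t ∈ Ioo 0 (2 * Real.pi)) (hs : s ∈ Ioo 0 (2 * Real.pi))
    (h : Complex.exp (t * Complex.I) = Complex.exp (s * Complex.I)) : t = s := by
  rw [Complex.exp_eq_exp_iff_exists_int] at h
  obtain ⟨n, hn⟩ := h
  have h1 : t = s + n * (2 * Real.pi) := by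
    have := congrArg Complex.im hn
    simp at this
    linarith
  have hpi := Real.pi_pos
  have h2 : n = 0 := by
    have h3 : (n : ℝ) < 1 := by
      by_contra hcon
      rw [not_lt] at hcon
      have := ht.2
      have := hs.1
      nlinarith
    have h4 : (-1 : ℝ) < n := by
      by_contra hcon
      rw [not_lt] at hcon
      have := ht.1
      have := hs.2
      nlinarith
    have h5 : n < 1 := by exact_mod_cast h3
    have h6 : -1 < n := by exact_mod_cast h4
    omega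
  rw [h1, h2]
  simp

private theorem MEN_central {a b y : ℝ} (ha : 2 * Real.pi / 3 ≤ a) (hb : b ≤ 4 * Real.pi / 3)
    (hab : a ≤ b) (hy : y ∈ Icc ((1 + Real.cos (b / 2)) / 2) ((1 + Real.cos (a / 2)) / 2)) :
    ∃ t ∈ Icc a b, vp y = Complex.exp (t * Complex.I) := by
  have hpi := Real.pi_pos
  refine ⟨2 * Real.arccos (2 * y - 1), ⟨?_, ?_⟩, ?_⟩
  · have h1 : 2 * y - 1 ≤ Real.cos (a / 2) := by linarith [hy.2]
    have h2 := Real.arccos_le_arccos h1
    rw [Real.arccos_cos (by linarith) (by linarith)] at h2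
    linarith
  · have h1 : Real.cos (b / 2) ≤ 2 * y - 1 := by linarith [hy.1]
    have h2 := Real.arccos_le_arccos h1
    rw [Real.arccos_cos (by linarith) (by linarith)] at h2
    linarith
  · rw [vp, zz, ← Complex.exp_nat_mul]
    congr 1
    push_cast
    ring

private theorem MEN_range {a b : ℝ} (ha : 2 * Real.pi / 3 ≤ a) (hb : b ≤ 4 * Real.pi / 3)
    (hab : a ≤ b) : 1 / 4 ≤ (1 + Real.cos (b / 2)) / 2 ∧ (1 + Real.cos (a / 2)) / 2 ≤ 3 / 4 := by
  have hpi := Real.pi_pos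
  constructor
  · have h1 : Real.cos (2 * Real.pi / 3) ≤ Real.cos (b / 2) :=
      Real.cos_le_cos_of_nonneg_of_le_pi (by linarith) (by linarith) (by linarith)
    have h2 : Real.cos (2 * Real.pi / 3) = -(1 / 2) := by
      rw [show 2 * Real.pi / 3 = Real.pi - Real.pi / 3 by ring, Real.cos_pi_sub, Real.cos_pi_div_three]
    linarith
  · have h1 : Real.cos (a / 2) ≤ Real.cos (Real.pi / 3) :=
      Real.cos_le_cos_of_nonneg_of_le_pi (by linarith) (by linarith) (by linarith)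
    rw [Real.cos_pi_div_three] at h1
    linarith

private theorem MEN_len {a b : ℝ} {N : ℝ} (hN : 1 ≤ N) (ha : 2 * Real.pi / 3 ≤ a)
    (hb : b ≤ 4 * Real.pi / 3) (hab : b - a = 2 * Real.pi / (3 * N)) :
    1 / (4 * N) ≤ (1 + Real.cos (a / 2)) / 2 - (1 + Real.cos (b / 2)) / 2 := by
  have hpi := Real.pi_pos
  have hN0 : 0 < N := by linarith
  have hba : 0 < b - a := by rw [hab]; positivity
  have h1 := Real.cos_sub_cos (a / 2) (b / 2)
  have h2 : (1 + Real.cos (a / 2)) / 2 - (1 + Real.cos (b / 2)) / 2 =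
      Real.sin ((a + b) / 4) * Real.sin ((b - a) / 4) := by
    have e1 : (1 + Real.cos (a / 2)) / 2 - (1 + Real.cos (b / 2)) / 2 =
      (Real.cos (a / 2) - Real.cos (b / 2)) / 2 := by ring
    rw [e1, h1, show (a / 2 + b / 2) / 2 = (a + b) / 4 by ring,
      show (a / 2 - b / 2) / 2 = -((b - a) / 4) by ring, Real.sin_neg]
    ring
  have h3 : 3 / 4 ≤ Real.sin ((a + b) / 4) := by
    have e1 : Real.sin ((a + b) / 4) = Real.cos |(a + b) / 4 - Real.pi / 2| := by
      rw [Real.cos_abs, Real.cos_sub_pi_div_two]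
    have e2 : |(a + b) / 4 - Real.pi / 2| ≤ Real.pi / 6 := by
      rw [abs_le]
      constructor <;> linarith
    have e3 : Real.cos (Real.pi / 6) ≤ Real.cos |(a + b) / 4 - Real.pi / 2| :=
      Real.cos_le_cos_of_nonneg_of_le_pi (abs_nonneg _) (by linarith) e2
    rw [Real.cos_pi_div_six] at e3
    have e4 : (3 / 2 : ℝ) ≤ √3 := by
      apply Real.le_sqrt_of_sq_le
      norm_num
    rw [e1]
    linarith
  have h4 : 1 / (3 * N) ≤ Real.sin ((b - a) / 4) := by
    have e1 : (b - a) / 4 ≤ Real.pi / 2 := by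
      rw [hab]
      have : 2 * Real.pi / (3 * N) ≤ 2 * Real.pi / 3 := by
        apply div_le_div_of_nonneg_left (by positivity) (by norm_num)
        linarith
      linarith
    have e2 := Real.mul_le_sin (by linarith : 0 ≤ (b - a) / 4) e1
    refine le_trans (le_of_eq ?_) e2
    rw [hab]
    field_simp
    norm_num
  rw [h2]
  have h5 : 1 / (4 * N) = 3 / 4 * (1 / (3 * N)) := by
    field_simp
  rw [h5]
  exact mul_le_mul h3 h4 (by positivity) (by linarith)

/-- the arcs -/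
private def MEN_T (N : ℕ) (j : ℕ) : Set ℝ :=
  Icc (2 * Real.pi / N * ((j : ℝ) + 1 / 3)) (2 * Real.pi / N * ((j : ℝ) + 2 / 3))

private def MEN_S (N : ℕ) (j : ℕ) : Set ℂ := (fun t : ℝ => Complex.exp (t * Complex.I)) '' MEN_T N j

private theorem MEN_T_sub {N j : ℕ} (hj : j < N) : MEN_T N j ⊆ Ioo 0 (2 * Real.pi) := by
  intro t ht
  have hpi := Real.pi_pos
  have hN : (0:ℝ) < N := by exact_mod_cast (by omega : 0 < N)
  have hj' : (j:ℝ) + 1 ≤ N := by exact_mod_cast hj
  have hj0 : (0:ℝ) ≤ j := Nat.cast_nonneg j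
  constructor
  · refine lt_of_lt_of_le ?_ ht.1
    positivity
  · refine lt_of_le_of_lt ht.2 ?_
    rw [div_mul_eq_mul_div, div_lt_iff₀ hN]
    apply mul_lt_mul_of_pos_left _ (by positivity)
    linarith

private theorem MEN_T_disj {N i j : ℕ} (hN : 0 < N) (hij : i ≠ j) :
    Disjoint (MEN_T N i) (MEN_T N j) := by
  rw [Set.disjoint_left]
  intro t hi hj
  have hpi := Real.pi_pos
  have hN' : (0:ℝ) < N := by exact_mod_cast hN
  have hq : 0 < 2 * Real.pi / N := by positivity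
  have h1 : 2 * Real.pi / N * ((i : ℝ) + 1 / 3) ≤ 2 * Real.pi / N * ((j : ℝ) + 2 / 3) :=
    le_trans hi.1 hj.2
  have h2 : 2 * Real.pi / N * ((j : ℝ) + 1 / 3) ≤ 2 * Real.pi / N * ((i : ℝ) + 2 / 3) :=
    le_trans hj.1 hi.2
  have h3 := le_of_mul_le_mul_left h1 hq
  have h4 := le_of_mul_le_mul_left h2 hq
  rcases lt_or_gt_of_ne hij with h | h
  · have : (i : ℝ) + 1 ≤ j := by exact_mod_cast h
    linarith
  · have : (j : ℝ) + 1 ≤ i := by exact_mod_cast h
    linarith

private theorem MEN_S_meas (N j : ℕ) : MeasurableSet (MEN_S N j) := by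
  apply IsCompact.measurableSet
  apply isCompact_Icc.image
  fun_prop

private theorem MEN_S_disj {N i j : ℕ} (hi : i < N) (hj : j < N) (hij : i ≠ j) :
    Disjoint (MEN_S N i) (MEN_S N j) := by
  rw [Set.disjoint_left]
  rintro w ⟨t, ht, rfl⟩ ⟨s, hs, hst⟩
  have h1 : s = t := MEN_inj (MEN_T_sub hj hs) (MEN_T_sub hi ht) hst
  rw [h1] at hs
  exact Set.disjoint_left.mp (MEN_T_disj (by omega) hij) ht hs

/-- the lower bound for the outer arcs -/
private theorem MEN_outer {μ : Measure ℝ} (hμ : QM μ) {M j : ℕ} (hM : 1 ≤ M) (hj : j < 6 * M)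
    (h : j < 2 * M ∨ 4 * M ≤ j) : 1 / (32 * ((6 * M : ℕ) : ℝ)) ≤ (sg μ (MEN_S (6 * M) j)).toReal := by
  have hpi := Real.pi_pos
  have hM' : (1:ℝ) ≤ M := by exact_mod_cast hM
  have hj' : (j:ℝ) + 1 ≤ 6 * M := by exact_mod_cast hj
  have hj0 : (0:ℝ) ≤ j := Nat.cast_nonneg j
  have hN : (0:ℝ) < ((6 * M : ℕ) : ℝ) := by push_cast; linarith
  have h1 := msg_arc_out hμ (2 * Real.pi / ((6 * M : ℕ) : ℝ) * ((j : ℝ) + 1 / 3))
    (2 * Real.pi / ((6 * M : ℕ) : ℝ) * ((j : ℝ) + 2 / 3))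
    (by
      apply mul_le_mul_of_nonneg_left _ (by positivity)
      linarith)
    (by
      rcases h with h | h
      · left
        have h2 : (j:ℝ) + 1 ≤ 2 * M := by exact_mod_cast h
        apply Icc_subset_Icc
        · positivity
        · rw [div_mul_eq_mul_div, div_le_div_iff₀ hN (by norm_num)]
          push_cast
          nlinarith
      · right
        have h2 : 4 * (M:ℝ) ≤ j := by exact_mod_cast h
        apply Icc_subset_Icc
        · rw [div_mul_eq_mul_div, div_le_div_iff₀ (by norm_num) hN]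
          push_cast
          nlinarith
        · rw [div_mul_eq_mul_div, div_le_iff₀ hN]
          push_cast
          nlinarith)
    (MEN_S (6 * M) j) (MEN_S_meas _ _) (fun t ht => ⟨t, ht, rfl⟩)
  refine le_trans ?_ h1
  have h2 : (2 * Real.pi / ((6 * M : ℕ) : ℝ) * ((j : ℝ) + 2 / 3) -
      2 * Real.pi / ((6 * M : ℕ) : ℝ) * ((j : ℝ) + 1 / 3)) / 64 =
      (Real.pi / 3) * (1 / (32 * ((6 * M : ℕ) : ℝ))) := by
    field_simp
    ring
  rw [h2]
  have h3 : 1 ≤ Real.pi / 3 := by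
    have := Real.pi_gt_three
    linarith
  have h4 : 0 ≤ 1 / (32 * ((6 * M : ℕ) : ℝ)) := by positivity
  nlinarith

private theorem MEN_half {μ : Measure ℝ} (hμ : QM μ) {M : ℕ} (hM : 1 ≤ M) (s : Finset (Fin (6 * M)))
    (hs : ∀ j ∈ s, 2 * M ≤ (j : ℕ) ∧ (j : ℕ) < 4 * M) :
    (∀ j ∈ s, 0 < (sg μ (MEN_S (6 * M) j)).toReal) ∧
    ∑ j ∈ s, -Real.log (sg μ (MEN_S (6 * M) j)).toReal ≤
      12 * ((6 * M : ℕ) : ℝ) * (1 + Real.log (12 * ((6 * M : ℕ) : ℝ))) ^ 2 := by
  have hpi := Real.pi_pos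
  have hM' : (1:ℝ) ≤ M := by exact_mod_cast hM
  obtain ⟨N, hNN⟩ : ∃ N : ℝ, N = ((6 * M : ℕ) : ℝ) := ⟨_, rfl⟩
  have hN6 : N = 6 * M := by rw [hNN]; push_cast; ring
  have hN0 : 0 < N := by rw [hN6]; linarith
  rw [← hNN]
  obtain ⟨A, hA⟩ : ∃ A : Fin (6 * M) → ℝ, A = fun j : Fin (6 * M) => 2 * Real.pi / N * (((j : ℕ) : ℝ) + 1 / 3) := ⟨_, rfl⟩
  obtain ⟨B, hB⟩ : ∃ B : Fin (6 * M) → ℝ, B = fun j : Fin (6 * M) => 2 * Real.pi / N * (((j : ℕ) : ℝ) + 2 / 3) := ⟨_, rfl⟩
  have hT : ∀ j : Fin (6 * M), MEN_T (6 * M) j = Icc (A j) (B j) := by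
    intro j
    rw [hA, hB, hNN]
    rfl
  have hAB : ∀ j, B j - A j = 2 * Real.pi / (3 * N) := by
    intro j
    rw [hA, hB]
    field_simp
    ring
  have hAl : ∀ j ∈ s, 2 * Real.pi / 3 ≤ A j := by
    intro j hj
    have h2 : 2 * (M:ℝ) ≤ ((j : ℕ) : ℝ) := by exact_mod_cast (hs j hj).1
    rw [hA]
    simp only
    rw [div_mul_eq_mul_div, div_le_div_iff₀ (by norm_num) hN0, hN6]
    nlinarith
  have hBu : ∀ j ∈ s, B j ≤ 4 * Real.pi / 3 := by
    intro j hj
    have h2 : ((j : ℕ) : ℝ) + 1 ≤ 4 * M := by exact_mod_cast (hs j hj).2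
    rw [hB]
    simp only
    rw [div_mul_eq_mul_div, div_le_div_iff₀ hN0 (by norm_num), hN6]
    nlinarith
  have hABle : ∀ j, A j ≤ B j := by
    intro j
    have h1 := hAB j
    have : 0 < 2 * Real.pi / (3 * N) := by positivity
    linarith
  have hvp : ∀ j ∈ s, ∀ y ∈ Icc ((1 + Real.cos (B j / 2)) / 2) ((1 + Real.cos (A j / 2)) / 2),
      vp y ∈ MEN_S (6 * M) j := by
    intro j hj y hy
    obtain ⟨t, ht, hty⟩ := MEN_central (hAl j hj) (hBu j hj) (hABle j) hy
    exact ⟨t, by rw [hT]; exact ht, hty.symm⟩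
  have hms := mass_sum hμ s (fun j => (1 + Real.cos (B j / 2)) / 2)
    (fun j => (1 + Real.cos (A j / 2)) / 2) (1 / (4 * N)) (by positivity)
    (fun j hj => by
      have := (MEN_range (hAl j hj) (hBu j hj) (hABle j)).1
      linarith)
    (fun j hj => by
      have := (MEN_range (hAl j hj) (hBu j hj) (hABle j)).2
      linarith)
    (fun j hj => MEN_len (by rw [hN6]; linarith) (hAl j hj) (hBu j hj) (hAB j))
    (fun i hi j hj hij => by
      rw [Set.disjoint_left]
      intro y hy1 hy2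
      exact Set.disjoint_left.mp (MEN_S_disj i.2 j.2 (fun h => hij (Fin.ext h)))
        (hvp i hi y hy1) (hvp j hj y hy2))
  obtain ⟨hpos, hsum⟩ := hms
  have hle : ∀ j ∈ s, (μ (Icc ((1 + Real.cos (B j / 2)) / 2) ((1 + Real.cos (A j / 2)) / 2))).toReal ≤
      (sg μ (MEN_S (6 * M) j)).toReal := by
    intro j hj
    have h1 := MEN_range (hAl j hj) (hBu j hj) (hABle j)
    exact msg_arc_in hμ _ _ h1.1 h1.2 _ (MEN_S_meas _ _) (hvp j hj)
  refine ⟨fun j hj => lt_of_lt_of_le (hpos j hj) (hle j hj), ?_⟩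
  have e1 : 3 / (1 / (4 * N)) = 12 * N := by
    field_simp
    norm_num
  rw [e1] at hsum
  refine le_trans (Finset.sum_le_sum fun j hj => ?_) hsum
  rw [neg_le_neg_iff]
  exact Real.log_le_log (hpos j hj) (hle j hj)

private theorem MEN_num {M : ℕ} (hM : 1 ≤ M) {E : ℝ}
    (h : 5 * (M : ℝ) * E ≤ 6 * M * Real.log 3 + 6 * M * Real.log (32 * ((6 * M : ℕ) : ℝ)) +
      12 * ((6 * M : ℕ) : ℝ) * (1 + Real.log (12 * ((6 * M : ℕ) : ℝ))) ^ 2) :
    E ≤ 1000 * Real.log (M + 2) ^ 2 := by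
  have hM' : (1:ℝ) ≤ M := by exact_mod_cast hM
  obtain ⟨L, hL⟩ : ∃ L, L = Real.log ((M : ℝ) + 2) := ⟨_, rfl⟩
  have hl2 := Real.log_two_lt_d9
  have hL1 : 1 ≤ L := by
    rw [hL, Real.le_log_iff_exp_le (by linarith)]
    have := Real.exp_one_lt_d9
    linarith
  have hp : ∀ (k : ℕ) (c : ℝ), 0 < c → c ≤ 2 ^ k → Real.log (c * M) ≤ k * Real.log 2 + L := by
    intro k c hc hck
    rw [hL, ← Real.log_pow, ← Real.log_mul (by positivity) (by positivity)]
    apply Real.log_le_log (by positivity)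
    apply mul_le_mul hck (by linarith) (by positivity) (by positivity)
  have h1 : Real.log (32 * ((6 * M : ℕ) : ℝ)) ≤ 7 * L := by
    have e1 : 32 * ((6 * M : ℕ) : ℝ) = 192 * M := by push_cast; ring
    rw [e1]
    have := hp 8 192 (by norm_num) (by norm_num)
    push_cast at this
    linarith
  have h2 : Real.log (12 * ((6 * M : ℕ) : ℝ)) ≤ 6 * L := by
    have e1 : 12 * ((6 * M : ℕ) : ℝ) = 72 * M := by push_cast; ring
    rw [e1]
    have := hp 7 72 (by norm_num) (by norm_num)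
    push_cast at this
    linarith
  have h2' : 0 ≤ Real.log (12 * ((6 * M : ℕ) : ℝ)) := by
    apply Real.log_nonneg
    push_cast
    linarith
  have h3 : Real.log 3 ≤ 2 * L := by
    have h4 : Real.log 3 ≤ 3 - 1 := Real.log_le_sub_one_of_pos (by norm_num)
    linarith
  have h4 : (1 + Real.log (12 * ((6 * M : ℕ) : ℝ))) ^ 2 ≤ (7 * L) ^ 2 := by
    apply pow_le_pow_left₀ (by linarith)
    linarith
  have h5 : L ≤ L ^ 2 := by nlinarith
  rw [← hL]
  have h6 : 5 * (M : ℝ) * E ≤ M * (6 * (2 * L) + 6 * (7 * L) + 72 * (7 * L) ^ 2) := by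
    refine h.trans ?_
    have e1 : 12 * ((6 * M : ℕ) : ℝ) = 72 * M := by push_cast; ring
    rw [e1] at h4 ⊢
    nlinarith [mul_le_mul_of_nonneg_left h1 (by linarith : (0:ℝ) ≤ 6 * M),
      mul_le_mul_of_nonneg_left h3 (by linarith : (0:ℝ) ≤ 6 * M),
      mul_le_mul_of_nonneg_left h4 (by linarith : (0:ℝ) ≤ 72 * M)]
  have h7 : 5 * E ≤ 6 * (2 * L) + 6 * (7 * L) + 72 * (7 * L) ^ 2 := by
    have h8 : (M : ℝ) * (5 * E) ≤ M * (6 * (2 * L) + 6 * (7 * L) + 72 * (7 * L) ^ 2) := by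
      linarith
    exact le_of_mul_le_mul_left h8 (by linarith)
  nlinarith

private theorem MEN_mono {α : ℕ → ℂ} (hα : ∀ n, ‖α n‖ < 1) {m n : ℕ} (h : m ≤ n) :
    En α (Finset.range m) ≤ En α (Finset.range n) := by
  unfold En
  apply Finset.sum_le_sum_of_subset_of_nonneg (Finset.range_mono h)
  intro k _ _
  exact le_trans (by positivity) (UCA_term_nonneg hα k)

private theorem MEN_main {μ : Measure ℝ} {α : ℕ → ℂ} (hμ : QM μ) (hα : Szego (sg μ) α) {M : ℕ}
    (hM : 1 ≤ M) : 5 * (M : ℝ) * En α (Finset.range M) ≤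
      6 * M * Real.log 3 + 6 * M * Real.log (32 * ((6 * M : ℕ) : ℝ)) +
      12 * ((6 * M : ℕ) : ℝ) * (1 + Real.log (12 * ((6 * M : ℕ) : ℝ))) ^ 2 := by
  classical
  have hM' : (1:ℝ) ≤ M := by exact_mod_cast hM
  have hdet := ucg_det hα (6 * M) (fun j => MEN_S (6 * M) j) (fun j => MEN_S_meas _ _)
    (fun i j hij => MEN_S_disj i.2 j.2 (fun h => hij (Fin.ext h))) (1 / 3) (by norm_num)
    (by
      intro w hw i
      choose t ht htw using hw
      have h1 := uch_chord (6 * M) (by omega) t (fun j => ht j) i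
      simp only at htw
      simp only [htw] at h1
      exact h1)
  set s : Finset (Fin (6 * M)) := Finset.univ.filter (fun j => 2 * M ≤ (j : ℕ) ∧ (j : ℕ) < 4 * M)
    with hs
  obtain ⟨hpos1, hsum1⟩ := MEN_half hμ hM s (fun j hj => (Finset.mem_filter.mp hj).2)
  have hout : ∀ j : Fin (6 * M), j ∉ s →
      1 / (32 * ((6 * M : ℕ) : ℝ)) ≤ (sg μ (MEN_S (6 * M) j)).toReal := by
    intro j hj
    apply MEN_outer hμ hM j.2
    rw [hs, Finset.mem_filter] at hj
    by_contra hcon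
    apply hj
    refine ⟨Finset.mem_univ j, ?_⟩
    omega
  have hNpos : (0:ℝ) < 32 * ((6 * M : ℕ) : ℝ) := by push_cast; linarith
  have hpos : ∀ j : Fin (6 * M), 0 < (sg μ (MEN_S (6 * M) j)).toReal := by
    intro j
    by_cases hj : j ∈ s
    · exact hpos1 j hj
    · exact lt_of_lt_of_le (by positivity) (hout j hj)
  have hlog : ∑ j : Fin (6 * M), -Real.log (sg μ (MEN_S (6 * M) j)).toReal ≤
      6 * M * Real.log (32 * ((6 * M : ℕ) : ℝ)) +
      12 * ((6 * M : ℕ) : ℝ) * (1 + Real.log (12 * ((6 * M : ℕ) : ℝ))) ^ 2 := by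
    rw [← Finset.sum_add_sum_compl s, add_comm]
    refine add_le_add ?_ hsum1
    have h1 : ∀ j ∈ sᶜ, -Real.log (sg μ (MEN_S (6 * M) j)).toReal ≤
        Real.log (32 * ((6 * M : ℕ) : ℝ)) := by
      intro j hj
      have h2 := Real.log_le_log (by positivity) (hout j (Finset.mem_compl.mp hj))
      rw [one_div, Real.log_inv] at h2
      linarith
    have h3 : 0 ≤ Real.log (32 * ((6 * M : ℕ) : ℝ)) := by
      apply Real.log_nonneg
      push_cast
      linarith
    calc ∑ j ∈ sᶜ, -Real.log (sg μ (MEN_S (6 * M) j)).toReal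
        ≤ ∑ j ∈ sᶜ, Real.log (32 * ((6 * M : ℕ) : ℝ)) := Finset.sum_le_sum h1
      _ = (sᶜ.card : ℝ) * Real.log (32 * ((6 * M : ℕ) : ℝ)) := by rw [Finset.sum_const, nsmul_eq_mul]
      _ ≤ 6 * M * Real.log (32 * ((6 * M : ℕ) : ℝ)) := by
        apply mul_le_mul_of_nonneg_right _ h3
        have h4 := Finset.card_le_univ sᶜ
        rw [Fintype.card_fin] at h4
        exact_mod_cast h4
  -- the logarithm of the determinant inequality
  have hlt := hα.lt
  have hdet2 : ∑ k ∈ Finset.range (6 * M), En α (Finset.range k) ≤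
      6 * M * Real.log 3 + ∑ j : Fin (6 * M), -Real.log (sg μ (MEN_S (6 * M) j)).toReal := by
    have h1 : 0 < (1 / 3 : ℝ) ^ (6 * M) * ∏ j : Fin (6 * M), (sg μ (MEN_S (6 * M) j)).toReal := by
      apply mul_pos (by positivity)
      exact Finset.prod_pos fun j _ => hpos j
    have h2 := Real.log_le_log h1 hdet
    rw [Real.log_mul (by positivity) (Finset.prod_pos fun j _ => hpos j).ne', Real.log_pow,
      Real.log_prod (fun j _ => (hpos j).ne'),
      Real.log_prod (fun k _ => (nu_pos hlt k).ne')] at h2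
    have h3 : ∀ k, Real.log (nu α k) = -En α (Finset.range k) := by
      intro k
      rw [nu_exp hlt, Real.log_exp]
    simp only [h3] at h2
    rw [Finset.sum_neg_distrib] at h2
    rw [Finset.sum_neg_distrib]
    have h4 : Real.log (1 / 3) = -Real.log 3 := by rw [one_div, Real.log_inv]
    rw [h4] at h2
    push_cast at h2
    linarith
  have hlow : 5 * (M : ℝ) * En α (Finset.range M) ≤
      ∑ k ∈ Finset.range (6 * M), En α (Finset.range k) := by
    have h1 : ∑ k ∈ Finset.Ico M (6 * M), En α (Finset.range k) ≤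
        ∑ k ∈ Finset.range (6 * M), En α (Finset.range k) := by
      apply Finset.sum_le_sum_of_subset_of_nonneg
      · intro k hk
        rw [Finset.mem_Ico] at hk
        exact Finset.mem_range.mpr hk.2
      · intro k _ _
        exact en_nonneg hlt _
    have h2 : ∑ k ∈ Finset.Ico M (6 * M), En α (Finset.range M) ≤
        ∑ k ∈ Finset.Ico M (6 * M), En α (Finset.range k) := by
      apply Finset.sum_le_sum
      intro k hk
      exact MEN_mono hlt (Finset.mem_Ico.mp hk).1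
    rw [Finset.sum_const, Nat.card_Ico, nsmul_eq_mul] at h2
    have h3 : ((6 * M - M : ℕ) : ℝ) = 5 * M := by
      rw [Nat.cast_sub (by omega)]
      push_cast
      ring
    rw [h3] at h2
    linarith
  linarith

theorem men_energy : ∃ C : ℝ, 0 < C ∧ ∀ (μ : Measure ℝ) (α : ℕ → ℂ), QM μ → Szego (sg μ) α →
    ∀ M : ℕ, En α (Finset.range M) ≤ C * Real.log (M + 2) ^ 2 := by
  refine ⟨1000, by norm_num, fun μ α hμ hα M => ?_⟩
  rcases Nat.eq_zero_or_pos M with h0 | hM
  · subst h0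
    unfold En
    rw [Finset.range_zero, Finset.sum_empty]
    positivity
  · exact MEN_num hM (MEN_main hμ hα hM)

end Pool.H52.MQ
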