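import Pool.Agent.H52.MQ.ASN
import Pool.Agent.H52.MQ.EXP
import Pool.Agent.H52.MQ.LOC
import Pool.Agent.H52.MQ.MEN

/-! Module ASB (project MP_935a4b_QM): choice of the levels m(w,Y).  Uses ASD, ASN, EXP (sel_choice), LOC (locb_exists), MEN, ARC (arc_disj), UCJ.
l = lX X n, L = 4l.  For k >= L choose B k from locb_exists (delta <= 1/22 <= 1/4); B k := 0 for k < L.
For b and k < X^86 let W = {x in T : x.2 = b, (x,k) not in iE}.  sel_choice with this W, R x = iR X n (x,k), N x = iN X n (x,k), e = eta/2 (asn_word: card), f m = av(g_(b,k) B m), g_(b,k) = sum over j in Jin l c d rho of gJ l j (c = cX X b k, d = cX X b (k+1)).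
 R x, R x' disjoint for x /= x' in W: a common m (as a real t) would make (x,k) exceptional (definition of iE).
 It gives m on the pairs (x,k), x in W; put all these together into m : Ix -> N (iG = union over b,k of the (x,k), x in W).
Sum over b, k: sum_{i in iG} N_i av(g_i B (m i)) <= (2/eta) sum_b sum_k sum_{m<n} av(g_(b,k) B m) <= (2/eta) * 2 * sum_{m<n} av(B m): for fixed b the sets Jin of different k are disjoint (asd_pair, arc_disj, rho > 0), so sum_k g_(b,k) <= sum_{j<4l} gJ l j = 1 on the circle (ucj_sum, ucj_nonneg)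
 (av is monotone and additive: circle averages of circle integrable functions; gJ continuous, B circle integrable and nonnegative).
 sum_{L <= m < n} av(B m) <= (11/delta^2) sum_m En(Ico (m-L) (m+L)) <= (11/delta^2) 2L En(range (n+L)) (each index k is counted at most 2L times; terms >= 0) <= (11/delta^2) 8 l C log(n+L+2)^2 (men_energy), log(n+L+2) <= 2 log(n+2) as L <= n.
4l <= m i: asn_main. -/

open MeasureTheory Set Polynomial
open scoped ENNReal ComplexConjugate

namespace Pool.H52.MQ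

theorem ASB_win (a : ℕ → ℝ) (ha : ∀ k, 0 ≤ a k) (L n : ℕ) :
    ∑ m ∈ Finset.Ico L n, ∑ k ∈ Finset.Ico (m - L) (m + L), a k ≤
      (2 * L : ℝ) * ∑ k ∈ Finset.range (n + L), a k := by
  have h1 : ∀ m ∈ Finset.Ico L n, ∑ k ∈ Finset.Ico (m - L) (m + L), a k =
      ∑ j ∈ Finset.range (2 * L), a (m - L + j) := by
    intro m hm
    rw [Finset.mem_Ico] at hm
    rw [Finset.sum_Ico_eq_sum_range, show m + L - (m - L) = 2 * L by omega]
  rw [Finset.sum_congr rfl h1, Finset.sum_comm]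
  have h2 : ∀ j ∈ Finset.range (2 * L), ∑ m ∈ Finset.Ico L n, a (m - L + j) ≤
      ∑ k ∈ Finset.range (n + L), a k := by
    intro j hj
    rw [Finset.mem_range] at hj
    have h3 : ∑ m ∈ Finset.Ico L n, a (m - L + j) =
        ∑ k ∈ (Finset.Ico L n).image (fun m => m - L + j), a k := by
      rw [Finset.sum_image]
      intro x hx y hy hxy
      simp only [Finset.coe_Ico, Set.mem_Ico] at hx hy
      have : x - L + j = y - L + j := hxy
      omega
    rw [h3]
    refine Finset.sum_le_sum_of_subset_of_nonneg ?_ fun k _ _ => ha k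
    intro k hk
    rw [Finset.mem_image] at hk
    obtain ⟨m, hm, rfl⟩ := hk
    rw [Finset.mem_Ico] at hm
    rw [Finset.mem_range]
    omega
  refine (Finset.sum_le_sum h2).trans ?_
  rw [Finset.sum_const, Finset.card_range, nsmul_eq_mul]
  push_cast
  exact le_refl _

open Classical in
/-- the words with half `b` which are not exceptional at `k` -/
noncomputable def ASB_W (X n : ℕ) (𝒯 : Finset (List Bool × Bool)) (b : Bool) (k : ℕ) :
    Finset (List Bool × Bool) :=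
  𝒯.filter (fun x => x.2 = b ∧ (x, k) ∉ iE X n 𝒯)

theorem ASB_arr (X n : ℕ) (𝒯 : Finset (List Bool × Bool)) (F : Ix → ℝ) :
    ∑ i ∈ iG X n 𝒯, F i = ∑ k ∈ Finset.range (X ^ 86), ∑ b : Bool,
      ∑ x ∈ ASB_W X n 𝒯 b k, F (x, k) := by
  classical
  have h1 : iG X n 𝒯 = (iS X 𝒯).filter (fun i => i ∉ iE X n 𝒯) := by
    ext i
    unfold iG
    rw [Finset.mem_sdiff, Finset.mem_filter]
  rw [h1, Finset.sum_filter]
  unfold iS
  rw [Finset.sum_product, Finset.sum_comm]
  refine Finset.sum_congr rfl fun k _ => ?_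
  rw [← Finset.sum_fiberwise 𝒯 (fun x => x.2)]
  refine Finset.sum_congr rfl fun b _ => ?_
  unfold ASB_W
  rw [← Finset.sum_filter, Finset.filter_filter]

theorem ASB_mem {X n : ℕ} {𝒯 : Finset (List Bool × Bool)} {b : Bool} {k : ℕ}
    {x : List Bool × Bool} (h : x ∈ ASB_W X n 𝒯 b k) :
    x ∈ 𝒯 ∧ x.2 = b ∧ (x, k) ∉ iE X n 𝒯 := by
  classical
  unfold ASB_W at h
  exact Finset.mem_filter.1 h

theorem ASB_dis {X n : ℕ} {𝒯 : Finset (List Bool × Bool)} {b : Bool} {k : ℕ} (hk : k < X ^ 86)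
    {x x' : List Bool × Bool} (h : x ∈ ASB_W X n 𝒯 b k) (h' : x' ∈ ASB_W X n 𝒯 b k)
    (hne : x ≠ x') : Disjoint (iR X n (x, k)) (iR X n (x', k)) := by
  classical
  obtain ⟨h1, h2, h3⟩ := ASB_mem h
  obtain ⟨h1', h2', -⟩ := ASB_mem h'
  rw [Finset.disjoint_left]
  intro m hm hm'
  unfold iR at hm hm'
  rw [Finset.mem_filter] at hm hm'
  apply h3
  unfold iE
  rw [Finset.mem_filter]
  refine ⟨?_, x', h1', ?_, hne.symm, (m : ℝ), hm.2.1, hm.2.2, hm'.2.1, hm'.2.2⟩
  · unfold iS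
    exact Finset.mk_mem_product h1 (Finset.mem_range.2 hk)
  · show x'.2 = x.2
    rw [h2, h2']

/-- the window function of the partition interval `k` -/
noncomputable def ASB_g (X l : ℕ) (b : Bool) (k : ℕ) (w : ℂ) : ℝ :=
  ∑ j ∈ Jin l (cX X b k) (cX X b (k + 1)) (rhoX X), gJ l j w

theorem ASB_g_nonneg (X l : ℕ) (b : Bool) (k : ℕ) (w : ℂ) : 0 ≤ ASB_g X l b k w :=
  Finset.sum_nonneg fun j _ => ucj_nonneg l j w

theorem ASB_g_cont (X l : ℕ) (b : Bool) (k : ℕ) : Continuous (ASB_g X l b k) := by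
  unfold ASB_g
  exact continuous_finsetSum _ fun j _ => ucj_cont l j

theorem ASB_g_sum {X l : ℕ} (hX : 1 ≤ X) (hl : 1 ≤ l) (b : Bool) {w : ℂ} (hw : ‖w‖ = 1) :
    ∑ k ∈ Finset.range (X ^ 86), ASB_g X l b k w ≤ 1 := by
  classical
  unfold ASB_g
  have hX' : (0 : ℝ) < X := by exact_mod_cast hX
  have hρ : 0 < rhoX X := by
    unfold rhoX
    positivity
  rw [← Finset.sum_biUnion]
  · rw [← ucj_sum l hl hw]
    refine Finset.sum_le_sum_of_subset_of_nonneg ?_ fun j _ _ => ucj_nonneg l j w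
    intro j hj
    rw [Finset.mem_biUnion] at hj
    obtain ⟨k, -, hk⟩ := hj
    exact arc_sub _ _ _ _ hk
  · intro k hk k' hk' hne
    have hk1 : k < X ^ 86 := Finset.mem_range.1 hk
    have hk2 : k' < X ^ 86 := Finset.mem_range.1 hk'
    obtain ⟨a1, a2, a3, -⟩ := asd_geom hX b hk1
    obtain ⟨b1, b2, b3, -⟩ := asd_geom hX b hk2
    exact arc_disj hρ (by linarith) (by linarith) (by linarith) (by linarith)
      (asd_pair hX b hne)

theorem ASB_fsum {X l : ℕ} (hX : 1 ≤ X) (hl : 1 ≤ l) (b : Bool) {B : ℂ → ℝ}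
    (hB : CircleIntegrable B 0 1) (hB0 : ∀ w, 0 ≤ B w) :
    ∑ k ∈ Finset.range (X ^ 86), av (fun w => ASB_g X l b k w * B w) ≤ av B := by
  rw [← LOC_av_sum (Finset.range (X ^ 86)) (fun k w => ASB_g X l b k w * B w)
    (fun k _ => LOC_ci hB (ASB_g_cont X l b k))]
  refine ucf_av_mono ?_ hB ?_
  · have h1 := LOC_ci (g := fun w => ∑ k ∈ Finset.range (X ^ 86), ASB_g X l b k w) hB
      (continuous_finsetSum _ fun k _ => ASB_g_cont X l b k)
    simp only [Finset.sum_mul] at h1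
    exact h1
  · intro w hw
    rw [← Finset.sum_mul]
    have h1 := mul_le_mul_of_nonneg_right (ASB_g_sum (X := X) hX hl b hw) (hB0 w)
    linarith

theorem asb_choice : ∃ C : ℝ, 1 ≤ C ∧ ∃ X0 : ℕ, ∀ X n : ℕ, X0 ≤ X → Par X n →
    ∀ (μ : Measure ℝ) (α : ℕ → ℂ), QM μ → Szego (sg μ) α →
    ∀ 𝒯 : Finset (List Bool × Bool), Tl X (X ^ 3) 𝒯 → ∀ δ : ℝ, 0 < δ → δ ≤ 1 / 22 →
    ∃ (m : Ix → ℕ) (B : ℕ → ℂ → ℝ),
      (∀ k, 4 * lX X n ≤ k → LocB (sg μ) α k (4 * lX X n) δ (B k)) ∧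
      (∀ i ∈ iG X n 𝒯, m i ∈ iR X n i ∧ 4 * lX X n ≤ m i) ∧
      ∑ i ∈ iG X n 𝒯, iN X n i * av (fun w =>
        (∑ j ∈ Jin (lX X n) (ic X i) (ie X i) (rhoX X), gJ (lX X n) j w) * B (m i) w) ≤
        C * lX X n * Real.log (n + 2) ^ 2 / (eX X * δ ^ 2) := by
  classical
  obtain ⟨C₀, hC₀, hmen⟩ := men_energy
  obtain ⟨X1, hX1⟩ := asn_l
  obtain ⟨X2, hX2, hword⟩ := asn_word
  obtain ⟨X3, hX3, hmain⟩ := asn_main
  refine ⟨1408 * C₀ + 1, by linarith, X1 + X2 + X3, ?_⟩
  intro X n hX hPar μ α hμ hα 𝒯 hT δ hδ hδ1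
  obtain ⟨hl1, -, -, hln, hn1⟩ := hX1 X n (by omega) hPar
  have hXp : 1 ≤ X := by omega
  have hword' := hword X n (X ^ 3) (by omega) hPar (Nat.pow_le_pow_right hXp (by norm_num)) 𝒯 hT
  have hmain' := hmain X n (by omega) hPar 𝒯 hT
  set l := lX X n with hl
  have he : 0 < eX X := by
    unfold eX
    have : (0 : ℝ) < X := by exact_mod_cast hXp
    positivity
  -- the functions B
  have hBex : ∀ k, ∃ B : ℂ → ℝ, (4 * l ≤ k → LocB (sg μ) α k (4 * l) δ B) ∧
      (k < 4 * l → B = fun _ => 0) := by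
    intro k
    by_cases hk : 4 * l ≤ k
    · obtain ⟨B, hB⟩ := locb_exists hα k (4 * l) hk δ hδ (by linarith)
      exact ⟨B, fun _ => hB, fun h => absurd hk (not_le.2 h)⟩
    · exact ⟨fun _ => 0, fun h => absurd h hk, fun _ => rfl⟩
  choose B hB1 hB2 using hBex
  have hBc : ∀ k, CircleIntegrable (B k) 0 1 := by
    intro k
    by_cases hk : 4 * l ≤ k
    · exact (hB1 k hk).cint
    · rw [hB2 k (not_le.1 hk)]
      exact ucf_ci_cont continuousOn_const
  have hBn : ∀ k w, 0 ≤ B k w := by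
    intro k w
    by_cases hk : 4 * l ≤ k
    · exact (hB1 k hk).nonneg w
    · rw [hB2 k (not_le.1 hk)]
  -- the selection
  set f : Bool → ℕ → ℕ → ℝ := fun b k m => av (fun w => ASB_g X l b k w * B m w) with hf
  have hf0 : ∀ b k m, 0 ≤ f b k m := fun b k m =>
    LOC_av_nonneg (LOC_ci (hBc m) (ASB_g_cont X l b k)) fun w _ =>
      mul_nonneg (ASB_g_nonneg X l b k w) (hBn m w)
  have hiS : ∀ b k x, k < X ^ 86 → x ∈ ASB_W X n 𝒯 b k → (x, k) ∈ iS X 𝒯 := by
    intro b k x hk hx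
    unfold iS
    exact Finset.mk_mem_product (ASB_mem hx).1 (Finset.mem_range.2 hk)
  have hsel : ∀ b k, ∃ m : List Bool × Bool → ℕ, k < X ^ 86 →
      (∀ x ∈ ASB_W X n 𝒯 b k, m x ∈ iR X n (x, k)) ∧
      ∑ x ∈ ASB_W X n 𝒯 b k, iN X n (x, k) * f b k (m x) ≤
        1 / (eX X / 2) * ∑ m ∈ Finset.range n, f b k m := by
    intro b k
    by_cases hk : k < X ^ 86
    · obtain ⟨m, hm1, hm2⟩ := sel_choice (ASB_W X n 𝒯 b k) n (fun x => iR X n (x, k))
        (fun x => iN X n (x, k)) (eX X / 2) (by positivity) (f b k) (hf0 b k)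
        (fun x hx => (hword' (x, k) (hiS b k x hk hx)).2.2.2.2.2.2.2.1)
        (fun x hx x' hx' hne => ASB_dis hk hx hx' hne)
        (fun x hx => (hword' (x, k) (hiS b k x hk hx)).2.2.2.2.2.2.1)
        (fun x hx => (hword' (x, k) (hiS b k x hk hx)).1)
      exact ⟨m, fun _ => ⟨hm1, hm2⟩⟩
    · exact ⟨fun _ => 0, fun h => absurd h hk⟩
  choose mm hmm using hsel
  refine ⟨fun i => mm i.1.2 i.2 i.1, B, hB1, ?_, ?_⟩
  · intro i hi
    have h1 : i ∈ iS X 𝒯 ∧ i ∉ iE X n 𝒯 := by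
      unfold iG at hi
      rwa [Finset.mem_sdiff] at hi
    obtain ⟨⟨x, k⟩, rfl⟩ : ∃ p : (List Bool × Bool) × ℕ, i = p := ⟨i, rfl⟩
    have h2 : x ∈ 𝒯 ∧ k < X ^ 86 := by
      have h3 := h1.1
      unfold iS at h3
      rw [Finset.mem_product, Finset.mem_range] at h3
      exact h3
    have h3 : x ∈ ASB_W X n 𝒯 x.2 k := by
      unfold ASB_W
      rw [Finset.mem_filter]
      exact ⟨h2.1, rfl, h1.2⟩
    have h4 := (hmm x.2 k h2.2).1 x h3
    exact ⟨h4, hmain' (x, k) h1.1 _ h4⟩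
  · rw [ASB_arr]
    -- first step
    have s1 : ∀ k ∈ Finset.range (X ^ 86), ∀ b : Bool,
        ∑ x ∈ ASB_W X n 𝒯 b k, iN X n (x, k) * av (fun w =>
          (∑ j ∈ Jin l (ic X (x, k)) (ie X (x, k)) (rhoX X), gJ l j w) *
            B (mm x.2 k x) w) ≤ 2 / eX X * ∑ m ∈ Finset.range n, f b k m := by
      intro k hk b
      have h1 := (hmm b k (Finset.mem_range.1 hk)).2
      rw [one_div_div] at h1
      refine le_trans (le_of_eq ?_) h1
      refine Finset.sum_congr rfl fun x hx => ?_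
      have hxb := (ASB_mem hx).2.1
      subst hxb
      rfl
    have s2 : ∑ k ∈ Finset.range (X ^ 86), ∑ b : Bool,
        ∑ x ∈ ASB_W X n 𝒯 b k, iN X n (x, k) * av (fun w =>
          (∑ j ∈ Jin l (ic X (x, k)) (ie X (x, k)) (rhoX X), gJ l j w) *
            B (mm x.2 k x) w) ≤
        ∑ k ∈ Finset.range (X ^ 86), ∑ b : Bool, 2 / eX X * ∑ m ∈ Finset.range n, f b k m :=
      Finset.sum_le_sum fun k hk => Finset.sum_le_sum fun b _ => s1 k hk b
    refine s2.trans ?_
    have s3 : ∑ k ∈ Finset.range (X ^ 86), ∑ b : Bool, 2 / eX X * ∑ m ∈ Finset.range n, f b k m =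
        2 / eX X * ∑ b : Bool, ∑ m ∈ Finset.range n, ∑ k ∈ Finset.range (X ^ 86), f b k m := by
      rw [Finset.sum_comm, Finset.mul_sum]
      refine Finset.sum_congr rfl fun b _ => ?_
      rw [← Finset.mul_sum, Finset.sum_comm]
    rw [s3]
    have s4 : ∑ b : Bool, ∑ m ∈ Finset.range n, ∑ k ∈ Finset.range (X ^ 86), f b k m ≤
        ∑ _b : Bool, ∑ m ∈ Finset.range n, av (B m) :=
      Finset.sum_le_sum fun b _ => Finset.sum_le_sum fun m _ =>
        ASB_fsum hXp hl1 b (hBc m) (hBn m)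
    have s5 : ∑ _b : Bool, ∑ m ∈ Finset.range n, av (B m) =
        2 * ∑ m ∈ Finset.range n, av (B m) := by
      rw [Finset.sum_const, Finset.card_univ, Fintype.card_bool, nsmul_eq_mul]
      norm_num
    rw [s5] at s4
    have s6 : ∑ m ∈ Finset.range n, av (B m) ≤
        11 / δ ^ 2 * ∑ m ∈ Finset.Ico (4 * l) n, ∑ k ∈ Finset.Ico (m - 4 * l) (m + 4 * l),
          -Real.log (1 - ‖α k‖ ^ 2) := by
      have h1 : ∑ m ∈ Finset.range n, av (B m) = ∑ m ∈ Finset.Ico (4 * l) n, av (B m) := by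
        refine (Finset.sum_subset ?_ ?_).symm
        · intro m hm
          rw [Finset.mem_Ico] at hm
          exact Finset.mem_range.2 hm.2
        · intro m hm hm'
          rw [Finset.mem_range] at hm
          rw [Finset.mem_Ico] at hm'
          rw [hB2 m (by omega)]
          exact ucf_av_const 0
      rw [h1, Finset.mul_sum]
      refine Finset.sum_le_sum fun m hm => ?_
      rw [Finset.mem_Ico] at hm
      refine (hB1 m hm.1).av_le.trans (le_of_eq ?_)
      unfold En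
      ring
    have hlog0 : ∀ k, 0 ≤ -Real.log (1 - ‖α k‖ ^ 2) := by
      intro k
      have h1 := hα.lt k
      have h2 : ‖α k‖ ^ 2 < 1 := by
        have := norm_nonneg (α k)
        nlinarith
      have h3 : 0 ≤ ‖α k‖ ^ 2 := by positivity
      have := Real.log_nonpos (x := 1 - ‖α k‖ ^ 2) (by linarith) (by linarith)
      linarith
    have s7 := ASB_win (fun k => -Real.log (1 - ‖α k‖ ^ 2)) hlog0 (4 * l) n
    have s8 : ∑ k ∈ Finset.range (n + 4 * l), -Real.log (1 - ‖α k‖ ^ 2) ≤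
        4 * C₀ * Real.log (n + 2) ^ 2 := by
      have h1 := hmen μ α hμ hα (n + 4 * l)
      refine h1.trans ?_
      have hn' : (1 : ℝ) ≤ n := by exact_mod_cast hn1
      have hln' : (4 * l : ℝ) ≤ n := by exact_mod_cast hln
      have h2 : Real.log (((n + 4 * l : ℕ) : ℝ) + 2) ≤ 2 * Real.log (n + 2) := by
        have h3 : 2 * Real.log ((n : ℝ) + 2) = Real.log (((n : ℝ) + 2) ^ 2) := by
          rw [Real.log_pow]
          norm_num
        rw [h3]
        apply Real.log_le_log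
        · positivity
        · push_cast
          nlinarith
      have h4 : 0 ≤ Real.log (((n + 4 * l : ℕ) : ℝ) + 2) := by
        apply Real.log_nonneg
        have : (0 : ℝ) ≤ ((n + 4 * l : ℕ) : ℝ) := Nat.cast_nonneg _
        linarith
      have h5 := pow_le_pow_left₀ h4 h2 2
      have h6 := mul_le_mul_of_nonneg_left h5 hC₀.le
      linarith
    have s9 : ∑ m ∈ Finset.range n, av (B m) ≤
        11 / δ ^ 2 * ((2 * (4 * l : ℕ) : ℝ) * (4 * C₀ * Real.log (n + 2) ^ 2)) := by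
      refine s6.trans ?_
      refine mul_le_mul_of_nonneg_left ?_ (by positivity)
      refine s7.trans ?_
      exact mul_le_mul_of_nonneg_left s8 (by positivity)
    have s10 : 2 / eX X * ∑ b : Bool, ∑ m ∈ Finset.range n, ∑ k ∈ Finset.range (X ^ 86), f b k m ≤
        2 / eX X * (2 * (11 / δ ^ 2 * ((2 * (4 * l : ℕ) : ℝ) *
          (4 * C₀ * Real.log (n + 2) ^ 2)))) := by
      refine mul_le_mul_of_nonneg_left ?_ (by positivity)
      linarith
    refine s10.trans ?_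
    have e1 : 2 / eX X * (2 * (11 / δ ^ 2 * ((2 * (4 * l : ℕ) : ℝ) *
          (4 * C₀ * Real.log (n + 2) ^ 2)))) =
        1408 * C₀ * l * Real.log (n + 2) ^ 2 / (eX X * δ ^ 2) := by
      push_cast
      field_simp
      ring
    rw [e1]
    refine div_le_div_of_nonneg_right ?_ (by positivity)
    have h1 : 0 ≤ (l : ℝ) * Real.log (n + 2) ^ 2 := by positivity
    nlinarith

end Pool.H52.MQ
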