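import Pool.Agent.H52.MQ.SBA

/-! Module SBM (project MP_935a4b_QM): mu restricted to a Stern-Brocot cell is 2^(-|w|) times the image of mu.
Uses SBA.
Proof of sbm_map.  Induction on w.  w = []: gam [] y = y on [0,1] (AA = y, DD = 1), cell [] = Icc 0 1; map of a restricted
measure under a function equal to id on the set (Measure.map_congr) = the restricted measure.
Step b :: w (say b = false).  Show for every measurable f : R -> ENNReal
  lintegral over cell (false::w) of f = (1/2)^(|w|+1) * lintegral over Icc 0 1 of f (gam (false::w) y).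
cell (false::w) is contained in cell w; apply the induction hypothesis to f * indicator (cell (false::w)):
  LHS = (1/2)^|w| * lintegral over Icc 0 1 of (f * ind)(gam w y) dmu(y), and for y in [0,1]: gam w y in cell (false::w) = gam w '' [0,1/2] iff
  y in [0,1/2] (injectivity; M_0 maps [0,1] onto [0,1/2] and sba_false).  So it is (1/2)^|w| * lintegral over Icc 0 (1/2) of f(gam w y) dmu(y).
Now apply hmu.self to F(y) = indicator (Icc 0 (1/2)) y * f(gam w y) (measurable: gam w is a quotient of affine functions):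
  = (1/2)^|w| * (1/2) * [ int F(y/(1+y)) dmu + int F(1/(2-y)) dmu ]; mu is carried by [0,1] (hmu.supp); for y in [0,1]: y/(1+y) in [0,1/2], so the first
  integral is the wanted one (sba_false); 1/(2-y) in [1/2,1], which meets Icc 0 (1/2) only at y = 0, a null set (noatom): second integral 0.
b = true: the same with [1/2,1] (cell (true::w) = gam w '' [1/2,1]; y/(1+y) >= 1/2 only for y = 1).
sbm_integral: S in [0,1]: gam w '' S is measurable (gam w is continuous injective on Icc 0 1: use MeasurableSet.image_of_continuousOn_injOn) and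
  integral over gam w '' S = integral of indicator wrt mu.restrict (cell w) = (1/2)^|w| * integral over Icc 0 1 of the indicator composed with gam w
  (integral_smul_measure, integral_map), and for y in [0,1]: gam w y in gam w '' S iff y in S. -/

open MeasureTheory Set
open scoped ENNReal

namespace Pool.H52.MQ

theorem sbm_meas (w : List Bool) : Measurable (gam w) := by
  unfold gam AA DD
  fun_prop

theorem sbm_ae {μ : Measure ℝ} (hμ : QM μ) : ∀ᵐ y ∂μ, y ∈ Ioo (0 : ℝ) 1 := by
  have h1 : ∀ᵐ y ∂μ, y ∈ Icc (0 : ℝ) 1 := by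
    rw [ae_iff]
    exact hμ.supp
  have h2 : ∀ a : ℝ, ∀ᵐ y ∂μ, y ≠ a := by
    intro a
    rw [ae_iff]
    simpa using hμ.noatom a
  filter_upwards [h1, h2 0, h2 1] with y hy h0 h1'
  exact ⟨lt_of_le_of_ne hy.1 (Ne.symm h0), lt_of_le_of_ne hy.2 h1'⟩

theorem sbm_restrict {μ : Measure ℝ} (hμ : QM μ) (f : ℝ → ℝ≥0∞) :
    ∫⁻ y in Icc (0 : ℝ) 1, f y ∂μ = ∫⁻ y, f y ∂μ := by
  rw [Measure.restrict_eq_self_of_ae_mem]
  filter_upwards [sbm_ae hμ] with y hy
  exact ⟨hy.1.le, hy.2.le⟩

theorem sbm_g0 {y : ℝ} (hy : y ∈ Icc (0 : ℝ) 1) : y / (1 + y) ∈ Icc (0 : ℝ) (1 / 2) := by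
  have h1 : (0 : ℝ) < 1 + y := by linarith [hy.1]
  refine ⟨div_nonneg hy.1 h1.le, ?_⟩
  rw [div_le_iff₀ h1]
  linarith [hy.2]

theorem sbm_g1 {y : ℝ} (hy : y ∈ Icc (0 : ℝ) 1) : 1 / (2 - y) ∈ Icc (1 / 2 : ℝ) 1 := by
  have h1 : (0 : ℝ) < 2 - y := by linarith [hy.2]
  refine ⟨?_, ?_⟩
  · rw [le_div_iff₀ h1]
    linarith [hy.1]
  · rw [div_le_iff₀ h1]
    linarith [hy.2]

theorem sbm_g0_surj {z : ℝ} (hz : z ∈ Icc (0 : ℝ) (1 / 2)) :
    ∃ y ∈ Icc (0 : ℝ) 1, y / (1 + y) = z := by
  have h1 : (0 : ℝ) < 1 - z := by linarith [hz.2]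
  refine ⟨z / (1 - z), ⟨div_nonneg hz.1 h1.le, ?_⟩, ?_⟩
  · rw [div_le_iff₀ h1]
    linarith [hz.2]
  · have h2 : 1 + z / (1 - z) = 1 / (1 - z) := by
      field_simp
      ring
    rw [h2]
    field_simp

theorem sbm_g1_surj {z : ℝ} (hz : z ∈ Icc (1 / 2 : ℝ) 1) :
    ∃ y ∈ Icc (0 : ℝ) 1, 1 / (2 - y) = z := by
  have h1 : (0 : ℝ) < z := by linarith [hz.1]
  refine ⟨2 - 1 / z, ⟨?_, ?_⟩, ?_⟩
  · have h2 : 1 / z ≤ 2 := by
      rw [div_le_iff₀ h1]
      linarith [hz.1]
    linarith
  · have h2 : 1 ≤ 1 / z := by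
      rw [le_div_iff₀ h1]
      linarith [hz.2]
    linarith
  · have h2 : 2 - (2 - 1 / z) = 1 / z := by ring
    rw [h2, one_div_one_div]

theorem sbm_cell_false (w : List Bool) : cell (false :: w) = gam w '' Icc 0 (1 / 2) := by
  rw [← sba_image]
  ext x
  constructor
  · rintro ⟨y, hy, rfl⟩
    exact ⟨y / (1 + y), sbm_g0 hy, (sba_false w hy).symm⟩
  · rintro ⟨z, hz, rfl⟩
    obtain ⟨y, hy, rfl⟩ := sbm_g0_surj hz
    exact ⟨y, hy, sba_false w hy⟩

theorem sbm_cell_true (w : List Bool) : cell (true :: w) = gam w '' Icc (1 / 2) 1 := by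
  rw [← sba_image]
  ext x
  constructor
  · rintro ⟨y, hy, rfl⟩
    exact ⟨1 / (2 - y), sbm_g1 hy, (sba_true w hy).symm⟩
  · rintro ⟨z, hz, rfl⟩
    obtain ⟨y, hy, rfl⟩ := sbm_g1_surj hz
    exact ⟨y, hy, sba_true w hy⟩

/-- membership in the image of a part of the unit interval -/
theorem sbm_mem {w : List Bool} {S : Set ℝ} (hS : S ⊆ Icc 0 1) {y : ℝ} (hy : y ∈ Icc (0 : ℝ) 1) :
    gam w y ∈ gam w '' S ↔ y ∈ S := by
  constructor
  · rintro ⟨z, hz, hzy⟩
    have h1 := (sba_mono w).injOn (hS hz) hy hzy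
    rwa [← h1]
  · intro h
    exact ⟨y, h, rfl⟩

/-- indicator of an image, composed with `gam w` -/
theorem sbm_ind {w : List Bool} {S : Set ℝ} (hS : S ⊆ Icc 0 1) {E : Type*} [Zero E] (f : ℝ → E)
    {y : ℝ} (hy : y ∈ Icc (0 : ℝ) 1) :
    (gam w '' S).indicator f (gam w y) = S.indicator (fun z => f (gam w z)) y := by
  by_cases h : y ∈ S
  · rw [indicator_of_mem h, indicator_of_mem ((sbm_mem hS hy).2 h)]
  · rw [indicator_of_notMem h, indicator_of_notMem (fun h' => h ((sbm_mem hS hy).1 h'))]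

theorem sbm_half (a : ℝ≥0∞) : a / 2 = 1 / 2 * a := by
  rw [ENNReal.div_eq_inv_mul, one_div]

theorem sbm_measSet (w : List Bool) : MeasurableSet (cell w) := measurableSet_Icc

/-- one step of the induction, common part -/
theorem sbm_step {μ : Measure ℝ} (hμ : QM μ) (b : Bool) (w : List Bool) {S : Set ℝ}
    (hS : S ⊆ Icc 0 1) (hcell : cell (b :: w) = gam w '' S)
    (ih : ∀ f : ℝ → ℝ≥0∞, Measurable f → ∫⁻ x in cell w, f x ∂μ =
      (1 / 2 : ℝ≥0∞) ^ w.length * ∫⁻ y in Icc (0 : ℝ) 1, f (gam w y) ∂μ)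
    (f : ℝ → ℝ≥0∞) (hf : Measurable f) :
    ∫⁻ x in cell (b :: w), f x ∂μ = (1 / 2 : ℝ≥0∞) ^ w.length *
      ∫⁻ y, S.indicator (fun z => f (gam w z)) y ∂μ := by
  have h1 : ∫⁻ x in cell (b :: w), f x ∂μ = ∫⁻ x in cell w, (cell (b :: w)).indicator f x ∂μ := by
    rw [lintegral_indicator (sbm_measSet _), Measure.restrict_restrict (sbm_measSet _),
      inter_eq_self_of_subset_left (sba_cell_cons b w)]
  rw [h1, ih _ (hf.indicator (sbm_measSet _)), hcell, ← sbm_restrict hμ]
  congr 1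
  refine setLIntegral_congr_fun measurableSet_Icc ?_
  intro y hy
  exact sbm_ind hS f hy

theorem sbm_lint {μ : Measure ℝ} (hμ : QM μ) (w : List Bool) : ∀ f : ℝ → ℝ≥0∞, Measurable f →
    ∫⁻ x in cell w, f x ∂μ =
      (1 / 2 : ℝ≥0∞) ^ w.length * ∫⁻ y in Icc (0 : ℝ) 1, f (gam w y) ∂μ := by
  induction w with
  | nil =>
    intro f _
    have h1 : cell [] = Icc (0 : ℝ) 1 := by
      simp [cell, lp, lq, rp, rq, sb]
    have h2 : ∀ y, gam [] y = y := by
      intro y
      simp [gam, AA, DD, lp, lq, rp, rq, sb]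
    rw [h1]
    simp [h2]
  | cons b w ih =>
    intro f hf
    have hfg : Measurable (fun z => f (gam w z)) := hf.comp (sbm_meas w)
    cases b with
    | false =>
      have hS : Icc (0 : ℝ) (1 / 2) ⊆ Icc 0 1 := Icc_subset_Icc le_rfl (by norm_num)
      rw [sbm_step hμ false w hS (sbm_cell_false w) ih f hf,
        hμ.self _ (hfg.indicator measurableSet_Icc)]
      have h1 : ∫⁻ y, (Icc (0 : ℝ) (1 / 2)).indicator (fun z => f (gam w z)) (y / (1 + y)) ∂μ =
          ∫⁻ y in Icc (0 : ℝ) 1, f (gam (false :: w) y) ∂μ := by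
        rw [sbm_restrict hμ]
        refine lintegral_congr_ae ?_
        filter_upwards [sbm_ae hμ] with y hy
        have hy' : y ∈ Icc (0 : ℝ) 1 := ⟨hy.1.le, hy.2.le⟩
        rw [indicator_of_mem (sbm_g0 hy'), sba_false w hy']
      have h2 : ∫⁻ y, (Icc (0 : ℝ) (1 / 2)).indicator (fun z => f (gam w z)) (1 / (2 - y)) ∂μ =
          0 := by
        rw [← lintegral_zero (μ := μ)]
        refine lintegral_congr_ae ?_
        filter_upwards [sbm_ae hμ] with y hy
        rw [indicator_of_notMem]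
        intro h
        have h3 : (0 : ℝ) < 2 - y := by linarith [hy.2]
        have h4 := h.2
        rw [div_le_div_iff₀ h3 (by norm_num)] at h4
        linarith [hy.1]
      rw [h1, h2, add_zero, List.length_cons, pow_succ, mul_assoc]
      exact congrArg _ (sbm_half _)
    | true =>
      have hS : Icc (1 / 2 : ℝ) 1 ⊆ Icc 0 1 := Icc_subset_Icc (by norm_num) le_rfl
      rw [sbm_step hμ true w hS (sbm_cell_true w) ih f hf,
        hμ.self _ (hfg.indicator measurableSet_Icc)]
      have h1 : ∫⁻ y, (Icc (1 / 2 : ℝ) 1).indicator (fun z => f (gam w z)) (1 / (2 - y)) ∂μ =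
          ∫⁻ y in Icc (0 : ℝ) 1, f (gam (true :: w) y) ∂μ := by
        rw [sbm_restrict hμ]
        refine lintegral_congr_ae ?_
        filter_upwards [sbm_ae hμ] with y hy
        have hy' : y ∈ Icc (0 : ℝ) 1 := ⟨hy.1.le, hy.2.le⟩
        rw [indicator_of_mem (sbm_g1 hy'), sba_true w hy']
      have h2 : ∫⁻ y, (Icc (1 / 2 : ℝ) 1).indicator (fun z => f (gam w z)) (y / (1 + y)) ∂μ =
          0 := by
        rw [← lintegral_zero (μ := μ)]
        refine lintegral_congr_ae ?_
        filter_upwards [sbm_ae hμ] with y hy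
        rw [indicator_of_notMem]
        intro h
        have h3 : (0 : ℝ) < 1 + y := by linarith [hy.1]
        have h4 := h.1
        rw [div_le_div_iff₀ (by norm_num) h3] at h4
        linarith [hy.2]
      rw [h1, h2, zero_add, List.length_cons, pow_succ, mul_assoc]
      exact congrArg _ (sbm_half _)

theorem sbm_map {μ : Measure ℝ} (hμ : QM μ) (w : List Bool) :
    μ.restrict (cell w) = (1 / 2 : ℝ≥0∞) ^ w.length • (μ.restrict (Icc 0 1)).map (gam w) := by
  refine Measure.ext_of_lintegral _ fun f hf => ?_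
  rw [lintegral_smul_measure, lintegral_map hf (sbm_meas w), smul_eq_mul]
  exact sbm_lint hμ w f hf

theorem sbm_integral {μ : Measure ℝ} (hμ : QM μ) (w : List Bool) {E : Type*} [NormedAddCommGroup E]
    [NormedSpace ℝ E] {S : Set ℝ} (hS : MeasurableSet S) (hS1 : S ⊆ Icc 0 1) {f : ℝ → E}
    (hf : StronglyMeasurable f) :
    ∫ x in gam w '' S, f x ∂μ = (1 / 2 : ℝ) ^ w.length • ∫ y in S, f (gam w y) ∂μ := by
  have hm : MeasurableSet (gam w '' S) :=
    hS.image_of_continuousOn_injOn ((sba_cont w).mono hS1) ((sba_mono w).injOn.mono hS1)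
  have hsub : gam w '' S ⊆ cell w := by
    rw [← sba_image]
    exact image_mono hS1
  have h1 : ∫ x in gam w '' S, f x ∂μ = ∫ x in cell w, (gam w '' S).indicator f x ∂μ := by
    rw [integral_indicator hm, Measure.restrict_restrict hm, inter_eq_self_of_subset_left hsub]
  have h2 : ∫ y in S, f (gam w y) ∂μ =
      ∫ y in Icc (0 : ℝ) 1, S.indicator (fun z => f (gam w z)) y ∂μ := by
    rw [integral_indicator hS, Measure.restrict_restrict hS, inter_eq_self_of_subset_left hS1]
  rw [h1, sbm_map hμ w, integral_smul_measure, h2,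
    integral_map (sbm_meas w).aemeasurable (hf.indicator hm).aestronglyMeasurable]
  congr 1
  · simp
  · refine setIntegral_congr_fun measurableSet_Icc ?_
    intro y hy
    exact sbm_ind hS1 f hy

end Pool.H52.MQ
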