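import Pool.Agent.H52.MQ.OPF
import Pool.Agent.H52.MQ.SBM
import Pool.Agent.H52.MQ.UCJ

/-! Module OPT (project MP_935a4b_QM): the final inequality for tiles.  Uses OPA, OPF, SBA, SBM, UCJ.
Index set of OPF: pairs (i,j), i in s, j in J i (Finset.sigma).  With Y_i = Ioo (c i) (d i), W = w i put
  G_(i,j)(x) = indicator of gam W '' Y_i at x times gJ l j (vp (gi x)),  gi x = (lq W * x - lp W)/((lq W * x - lp W) + (rp W - rq W * x)),
gi (gam W y) = y for y in [0,1] (sba_det).  Measurable (vp is continuous: arccos and exp; ucj_cont; gam W '' Y_i measurable: image of an open interval under the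
continuous strictly monotone gam W: it is Ioo (gam W c) (gam W d), opt_image).  0 <= G.  sum_(i,j) G <= 1: for x at most one i with x in gam (w i) '' Y_i, and sum_{j in J i} gJ <= sum_{j < 4l} gJ = 1
(ucj_sum, ucj_nonneg; |vp y| = 1).  t_(i,j) = gam W (e i), e i in [c i,d i]; on the support |x - t| = |gam y - gam e| = |y-e|/(DD DD) <= d i - c i <= eps (sba_diff, DD >= 1).
Double integral: apply sbm_integral (S = Y_i, extended to functions of x in gam W '' Y_i) to the inner and the outer integral: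
  int int G G (x-x')^2 KK^2 = (1/4)^|W| int_{Y_i} int_{Y_i} gJ gJ (gam y - gam y')^2 KK(gam y, gam y')^2 = int_{Y_i} int_{Y_i} gJ(vp y) gJ(vp y') (y-y')^2/(DD y * DD y')^2 * kap(y,y')^2. -/

open MeasureTheory Set Polynomial

namespace Pool.H52.MQ

theorem opt_image (w : List Bool) {c d : ℝ} (hc : 0 ≤ c) (hcd : c < d) (hd : d ≤ 1) :
    gam w '' Ioo c d = Ioo (gam w c) (gam w d) := by
  have hsub : Icc c d ⊆ Icc (0 : ℝ) 1 := Icc_subset_Icc hc hd
  have hc1 : c ∈ Icc (0 : ℝ) 1 := ⟨hc, (hcd.le.trans hd)⟩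
  have hd1 : d ∈ Icc (0 : ℝ) 1 := ⟨hc.trans hcd.le, hd⟩
  apply Subset.antisymm
  · rintro _ ⟨y, hy, rfl⟩
    have hy1 : y ∈ Icc (0 : ℝ) 1 := hsub (Ioo_subset_Icc_self hy)
    exact ⟨sba_mono w hc1 hy1 hy.1, sba_mono w hy1 hd1 hy.2⟩
  · exact intermediate_value_Ioo hcd.le ((sba_cont w).mono hsub)

theorem vp_cont : Continuous vp := by
  have h := Real.continuous_arccos
  unfold vp zz
  fun_prop

theorem vp_norm (y : ℝ) : ‖vp y‖ = 1 := by
  unfold vp zz
  rw [norm_pow, Complex.norm_exp_ofReal_mul_I, one_pow]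

/-- the inverse of `gam W` -/
noncomputable def opt_inv (W : List Bool) (x : ℝ) : ℝ :=
  (lq W * x - lp W) / ((lq W * x - lp W) + (rp W - rq W * x))

theorem opt_inv_gam (W : List Bool) {y : ℝ} (hy : y ∈ Icc (0 : ℝ) 1) :
    opt_inv W (gam W y) = y := by
  have hD := (sba_DD W hy).1
  have hD0 : DD W y ≠ 0 := by linarith
  have hdet : (rp W : ℝ) * lq W = lp W * rq W + 1 := by exact_mod_cast sba_det W
  have h1 : (lq W : ℝ) * gam W y - lp W = y / DD W y := by
    unfold gam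
    rw [eq_div_iff hD0, sub_mul, mul_assoc, div_mul_cancel₀ _ hD0]
    unfold AA DD
    linear_combination y * hdet
  have h2 : (rp W : ℝ) - rq W * gam W y = (1 - y) / DD W y := by
    unfold gam
    rw [eq_div_iff hD0, sub_mul, mul_assoc, div_mul_cancel₀ _ hD0]
    unfold AA DD
    linear_combination (1 - y) * hdet
  unfold opt_inv
  rw [h1, h2, ← add_div, add_sub_cancel, div_div_div_cancel_right₀ hD0, div_one]

theorem opt_inv_meas (W : List Bool) : Measurable (opt_inv W) := by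
  unfold opt_inv
  fun_prop

theorem opt_g_meas (l j : ℕ) (W : List Bool) :
    Measurable (fun x => gJ l j (vp (opt_inv W x))) :=
  ((ucj_cont l j).comp vp_cont).measurable.comp (opt_inv_meas W)

theorem opt_KK_cont (p : ℕ → ℝ[X]) (n : ℕ) : Continuous (fun q : ℝ × ℝ => KK p n q.1 q.2) := by
  unfold KK
  exact continuous_finsetSum _ fun k _ =>
    ((p k).continuous.comp continuous_fst).mul ((p k).continuous.comp continuous_snd)

/-- the integrand without the indicators -/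
noncomputable def opt_H (p : ℕ → ℝ[X]) (n l j : ℕ) (W : List Bool) (x x' : ℝ) : ℝ :=
  gJ l j (vp (opt_inv W x)) * gJ l j (vp (opt_inv W x')) * ((x - x') ^ 2 * KK p n x x' ^ 2)

theorem opt_H_meas (p : ℕ → ℝ[X]) (n l j : ℕ) (W : List Bool) :
    Measurable (fun q : ℝ × ℝ => opt_H p n l j W q.1 q.2) := by
  unfold opt_H
  have h1 := opt_g_meas l j W
  have h2 := (opt_KK_cont p n).measurable
  exact ((h1.comp measurable_fst).mul (h1.comp measurable_snd)).mul
    (((measurable_fst.sub measurable_snd).pow_const 2).mul (h2.pow_const 2))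

/-- the function `G` of a tile -/
noncomputable def opt_G (l : ℕ) (W : List Bool) (S : Set ℝ) (j : ℕ) : ℝ → ℝ :=
  (gam W '' S).indicator (fun x => gJ l j (vp (opt_inv W x)))

theorem opt_setMeas (W : List Bool) {S : Set ℝ} (hS : MeasurableSet S) (hS1 : S ⊆ Icc 0 1) :
    MeasurableSet (gam W '' S) :=
  hS.image_of_continuousOn_injOn ((sba_cont W).mono hS1) ((sba_mono W).injOn.mono hS1)

/-- transport of the double integral -/
theorem opt_double {μ : Measure ℝ} (hμ : QM μ) (p : ℕ → ℝ[X]) (n l j : ℕ) (W : List Bool)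
    {S : Set ℝ} (hS : MeasurableSet S) (hS1 : S ⊆ Icc 0 1) :
    ∫ x, ∫ x', opt_G l W S j x * opt_G l W S j x' * ((x - x') ^ 2 * KK p n x x' ^ 2) ∂μ ∂μ =
    ∫ y in S, ∫ y' in S, gJ l j (vp y) * gJ l j (vp y') *
        ((y - y') ^ 2 / (DD W y * DD W y') ^ 2 * kap p n W y y' ^ 2) ∂μ ∂μ := by
  have := hμ.prob
  have hm := opt_setMeas W hS hS1
  have e1 : ∀ x x', opt_G l W S j x * opt_G l W S j x' * ((x - x') ^ 2 * KK p n x x' ^ 2) =
      (gam W '' S).indicator (fun x => (gam W '' S).indicator (opt_H p n l j W x) x') x := by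
    intro x x'
    by_cases hx : x ∈ gam W '' S
    · by_cases hx' : x' ∈ gam W '' S
      · simp only [opt_G, opt_H, indicator_of_mem hx, indicator_of_mem hx']
      · simp only [opt_G, indicator_of_mem hx, indicator_of_notMem hx', mul_zero, zero_mul]
    · simp only [opt_G, indicator_of_notMem hx, zero_mul]
  have e2 : ∀ x, ∫ x', opt_G l W S j x * opt_G l W S j x' *
      ((x - x') ^ 2 * KK p n x x' ^ 2) ∂μ =
      (gam W '' S).indicator (fun x => ∫ x' in gam W '' S, opt_H p n l j W x x' ∂μ) x := by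
    intro x
    simp only [e1]
    by_cases hx : x ∈ gam W '' S
    · simp only [indicator_of_mem hx]
      rw [integral_indicator hm]
    · simp only [indicator_of_notMem hx, integral_zero]
  simp only [e2]
  rw [integral_indicator hm]
  have hHm := (opt_H_meas p n l j W).stronglyMeasurable
  have hf : StronglyMeasurable (fun x => ∫ x' in gam W '' S, opt_H p n l j W x x' ∂μ) :=
    hHm.integral_prod_right
  rw [sbm_integral hμ W hS hS1 hf]
  have e3 : ∀ x, ∫ x' in gam W '' S, opt_H p n l j W x x' ∂μ =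
      (1 / 2 : ℝ) ^ W.length • ∫ y' in S, opt_H p n l j W x (gam W y') ∂μ := by
    intro x
    refine sbm_integral hμ W hS hS1 ?_
    exact ((opt_H_meas p n l j W).comp measurable_prodMk_left).stronglyMeasurable
  simp only [e3, smul_eq_mul]
  rw [← integral_const_mul]
  refine setIntegral_congr_fun hS fun y hy => ?_
  rw [← integral_const_mul, ← integral_const_mul]
  refine setIntegral_congr_fun hS fun y' hy' => ?_
  have hd := sba_diff W (hS1 hy) (hS1 hy')
  simp only [opt_H, kap, opt_inv_gam W (hS1 hy), opt_inv_gam W (hS1 hy')]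
  rw [hd, div_pow]
  ring

theorem opt_loc {W : List Bool} {c d e ε x : ℝ} (hc : 0 ≤ c) (hd : d ≤ 1)
    (he : e ∈ Icc c d) (hε : d - c ≤ ε) (hx : x ∈ gam W '' Ioo c d) : |x - gam W e| ≤ ε := by
  obtain ⟨y, hy, rfl⟩ := hx
  have hy1 : y ∈ Icc (0 : ℝ) 1 := ⟨hc.trans hy.1.le, hy.2.le.trans hd⟩
  have he1 : e ∈ Icc (0 : ℝ) 1 := ⟨hc.trans he.1, he.2.trans hd⟩
  have h1 := (sba_DD W hy1).1
  have h2 := (sba_DD W he1).1
  have h3 : 1 ≤ DD W y * DD W e := one_le_mul_of_one_le_of_one_le h1 h2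
  rw [sba_diff W hy1 he1, abs_div, abs_of_nonneg (by linarith : 0 ≤ DD W y * DD W e)]
  have h4 : |y - e| ≤ d - c := by
    rw [abs_le]
    constructor <;> linarith [hy.1, hy.2, he.1, he.2]
  calc |y - e| / (DD W y * DD W e) ≤ |y - e| := div_le_self (abs_nonneg _) h3
    _ ≤ ε := h4.trans hε

theorem opt_tiles {μ : Measure ℝ} (hμ : QM μ) {p : ℕ → ℝ[X]} {a b : ℕ → ℝ} (hp : IsJacobi μ p a b)
    (n l : ℕ) (hl : 1 ≤ l) {ι : Type*} (s : Finset ι) (w : ι → List Bool) (c d e : ι → ℝ)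
    (J : ι → Finset ℕ) (v : ι → ℕ → ℝ) (ε : ℝ) (hε0 : 0 ≤ ε)
    (hc : ∀ i ∈ s, 0 ≤ c i) (hcd : ∀ i ∈ s, c i < d i) (hd : ∀ i ∈ s, d i ≤ 1)
    (he : ∀ i ∈ s, e i ∈ Icc (c i) (d i)) (hε : ∀ i ∈ s, d i - c i ≤ ε)
    (hdis : ∀ i ∈ s, ∀ i' ∈ s, i ≠ i' →
      Disjoint (gam (w i) '' Ioo (c i) (d i)) (gam (w i') '' Ioo (c i') (d i')))
    (hJ : ∀ i ∈ s, J i ⊆ Finset.range (4 * l)) (hv0 : ∀ i ∈ s, ∀ j ∈ J i, 0 ≤ v i j)
    (hv : ∀ i ∈ s, ∀ j ∈ J i, v i j ^ 2 ≤
      1 / 2 * ∫ y in Ioo (c i) (d i), ∫ y' in Ioo (c i) (d i), gJ l j (vp y) * gJ l j (vp y') *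
        ((y - y') ^ 2 / (DD (w i) y * DD (w i) y') ^ 2 * kap p (n + 1) (w i) y y' ^ 2) ∂μ ∂μ) :
    (4 * a (n + 1) - 1) ^ 2 ≤ 1 -
      16 * ∑ i ∈ s, √(gam (w i) (e i) * (1 - gam (w i) (e i))) * ∑ j ∈ J i, v i j + 8 * ε := by
  classical
  have hsub : ∀ i ∈ s, Ioo (c i) (d i) ⊆ Icc (0 : ℝ) 1 := fun i hi =>
    Ioo_subset_Icc_self.trans (Icc_subset_Icc (hc i hi) (hd i hi))
  have he1 : ∀ i ∈ s, e i ∈ Icc (0 : ℝ) 1 := fun i hi =>
    ⟨(hc i hi).trans (he i hi).1, (he i hi).2.trans (hd i hi)⟩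
  have key := opf_fin hμ hp n (s.sigma J)
    (fun q => opt_G l (w q.1) (Ioo (c q.1) (d q.1)) q.2) (fun q => gam (w q.1) (e q.1))
    (fun q => v q.1 q.2) ε hε0 ?_ ?_ ?_ ?_ ?_ ?_ ?_
  · rw [Finset.sum_sigma] at key
    simp only [← Finset.mul_sum] at key
    exact key
  · rintro ⟨i, j⟩ hq
    rw [Finset.mem_sigma] at hq
    exact (opt_g_meas l j (w i)).indicator (opt_setMeas _ measurableSet_Ioo (hsub i hq.1))
  · rintro ⟨i, j⟩ _ x
    exact indicator_nonneg (fun y _ => ucj_nonneg l j _) x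
  · intro x _
    rw [Finset.sum_sigma]
    by_cases hx : ∃ i ∈ s, x ∈ gam (w i) '' Ioo (c i) (d i)
    · obtain ⟨i, hi, hxi⟩ := hx
      rw [Finset.sum_eq_single i]
      · simp only [opt_G, indicator_of_mem hxi]
        calc ∑ j ∈ J i, gJ l j (vp (opt_inv (w i) x))
            ≤ ∑ j ∈ Finset.range (4 * l), gJ l j (vp (opt_inv (w i) x)) :=
              Finset.sum_le_sum_of_subset_of_nonneg (hJ i hi) fun j _ _ => ucj_nonneg l j _
          _ = 1 := ucj_sum l hl (vp_norm _)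
          _ ≤ 1 := le_rfl
      · intro i' hi' hne
        refine Finset.sum_eq_zero fun j _ => ?_
        have h1 : x ∉ gam (w i') '' Ioo (c i') (d i') := fun h2 =>
          (Set.disjoint_left.1 (hdis i' hi' i hi hne)) h2 hxi
        simp only [opt_G, indicator_of_notMem h1]
      · exact fun h => absurd hi h
    · simp only [not_exists, not_and] at hx
      rw [Finset.sum_eq_zero]
      · exact zero_le_one
      · intro i hi
        refine Finset.sum_eq_zero fun j _ => ?_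
        simp only [opt_G, indicator_of_notMem (hx i hi)]
  · rintro ⟨i, j⟩ hq
    rw [Finset.mem_sigma] at hq
    apply sba_cell (w i)
    rw [← sba_image]
    exact ⟨e i, he1 i hq.1, rfl⟩
  · rintro ⟨i, j⟩ hq x _ hne
    rw [Finset.mem_sigma] at hq
    have hx : x ∈ gam (w i) '' Ioo (c i) (d i) := by
      by_contra h
      exact hne (indicator_of_notMem h _)
    exact opt_loc (hc i hq.1) (hd i hq.1) (he i hq.1) (hε i hq.1) hx
  · rintro ⟨i, j⟩ hq
    rw [Finset.mem_sigma] at hq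
    exact hv0 i hq.1 j hq.2
  · rintro ⟨i, j⟩ hq
    rw [Finset.mem_sigma] at hq
    have h1 := hv i hq.1 j hq.2
    rw [← opt_double hμ p (n + 1) l j (w i) measurableSet_Ioo (hsub i hq.1)] at h1
    exact h1

end Pool.H52.MQ
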