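import Pool.Agent.H52.MQ.SBT
import Pool.Agent.H52.MQ.SBN
import Pool.Agent.H52.MQ.OPT

/-! Module ASD (project MP_935a4b_QM): parameters and the partition of the tiles.  Uses SBT (hf), SBN, OPT (opt_image), SBA.
X integer, eta = X^-85, each half tile is cut into X^86 intervals of length 1/(6 X^86), l = n/(4 X^86) (natural number division), rho = X^-87.
Index i = ((word, half), k).
* asd_geom: cX X b k = (1/3 or 1/2) + k/(6X^86), k+1 <= X^86.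
* asd_disj: same (w,b), k /= k': the intervals are disjoint and gam w is injective on [0,1]; different (w,b): Tl.disj, as Ioo is contained in hf b.
* asd_vol: hf b minus the union over k of the Ioo is finite (partition points), gam w of it is finite, so the two unions differ by a finite set. -/

open MeasureTheory Set
open scoped ENNReal

namespace Pool.H52.MQ

noncomputable section

/-- tile family: properties delivered by `tiles` with T = X -/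
structure Tl (X I : ℕ) (𝒯 : Finset (List Bool × Bool)) : Prop where
  hlow : ∀ x ∈ 𝒯, X ≤ hh x.1
  hup : ∀ x ∈ 𝒯, hh x.1 ≤ (I + 2) * X
  card : 𝒯.card ≤ 2 * X ^ 2 * I
  disj : ∀ x ∈ 𝒯, ∀ x' ∈ 𝒯, x ≠ x' → Disjoint (gam x.1 '' hf x.2) (gam x'.1 '' hf x'.2)
  vol : volume (Icc (0:ℝ) 1 \ ⋃ x ∈ 𝒯, gam x.1 '' hf x.2) ≤ ENNReal.ofReal (2 * X ^ 2 / I)

abbrev Ix := (List Bool × Bool) × ℕ

/-- partition points -/
def cX (X : ℕ) (b : Bool) (k : ℕ) : ℝ := (if b then 1 / 2 else 1 / 3) + k / (6 * (X:ℝ) ^ 86)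
/-- the parameter eta -/
def eX (X : ℕ) : ℝ := 1 / (X:ℝ) ^ 85
/-- l, a quarter of the Jackson degree -/
def lX (X n : ℕ) : ℕ := n / (4 * X ^ 86)
/-- margin -/
def rhoX (X : ℕ) : ℝ := 1 / (X:ℝ) ^ 87
def ic (X : ℕ) (i : Ix) : ℝ := cX X i.1.2 i.2
def ie (X : ℕ) (i : Ix) : ℝ := cX X i.1.2 (i.2 + 1)
def iN (X n : ℕ) (i : Ix) : ℝ := NN n i.1.1 (ic X i)
def ir (X n : ℕ) (i : Ix) : ℕ := ⌈eX X * iN X n i / 8⌉₊
def iS (X : ℕ) (𝒯 : Finset (List Bool × Bool)) : Finset Ix := 𝒯 ×ˢ Finset.range (X ^ 86)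
/-- range of admissible levels -/
def iR (X n : ℕ) (i : Ix) : Finset ℕ := by
  classical
  exact (Finset.range n).filter (fun m : ℕ => (1 - 4 * eX X) * iN X n i ≤ m ∧
    (m:ℝ) ≤ (1 - 3 * eX X) * iN X n i)
/-- exceptional pairs -/
def iE (X n : ℕ) (𝒯 : Finset (List Bool × Bool)) : Finset Ix := by
  classical
  exact (iS X 𝒯).filter (fun i : Ix => ∃ x' ∈ 𝒯, x'.2 = i.1.2 ∧ x' ≠ i.1 ∧ ∃ t : ℝ,
    (1 - 4 * eX X) * iN X n i ≤ t ∧ t ≤ (1 - 3 * eX X) * iN X n i ∧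
    (1 - 4 * eX X) * iN X n (x', i.2) ≤ t ∧ t ≤ (1 - 3 * eX X) * iN X n (x', i.2))
def iG (X n : ℕ) (𝒯 : Finset (List Bool × Bool)) : Finset Ix := by
  classical
  exact iS X 𝒯 \ iE X n 𝒯
/-- size condition -/
def Par (X n : ℕ) : Prop := X ^ 2000 ≤ n ∧ n ≤ (2 * X) ^ 2000

end

private theorem ASD_N {X : ℕ} (hX : 1 ≤ X) : (1:ℝ) ≤ (X:ℝ) ^ 86 := by
  have h : (1:ℝ) ≤ X := by exact_mod_cast hX
  exact one_le_pow₀ h

private theorem ASD_mono {X : ℕ} (hX : 1 ≤ X) (b : Bool) {k k' : ℕ} (h : k ≤ k') :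
    cX X b k ≤ cX X b k' := by
  have hN := ASD_N hX
  have h1 : (k:ℝ) ≤ k' := by exact_mod_cast h
  unfold cX
  have h2 : (k:ℝ) / (6 * (X:ℝ) ^ 86) ≤ k' / (6 * (X:ℝ) ^ 86) :=
    div_le_div_of_nonneg_right h1 (by linarith)
  linarith

private theorem ASD_bd {X : ℕ} (hX : 1 ≤ X) (b : Bool) {k : ℕ} (hk : k ≤ X ^ 86) :
    (if b then 1 / 2 else 1 / 3 : ℝ) ≤ cX X b k ∧
    cX X b k ≤ (if b then 1 / 2 else 1 / 3 : ℝ) + 1 / 6 := by
  have hN := ASD_N hX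
  have h1 : (k:ℝ) ≤ (X:ℝ) ^ 86 := by exact_mod_cast hk
  have h2 : 0 ≤ (k:ℝ) / (6 * (X:ℝ) ^ 86) := by positivity
  have h3 : (k:ℝ) / (6 * (X:ℝ) ^ 86) ≤ 1 / 6 := by
    rw [div_le_div_iff₀ (by linarith) (by norm_num)]
    linarith
  unfold cX
  constructor <;> linarith

theorem asd_geom {X : ℕ} (hX : 1 ≤ X) (b : Bool) {k : ℕ} (hk : k < X ^ 86) :
    1 / 3 ≤ cX X b k ∧ cX X b k < cX X b (k + 1) ∧ cX X b (k + 1) ≤ 2 / 3 ∧
    cX X b (k + 1) - cX X b k = 1 / (6 * (X:ℝ) ^ 86) ∧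
    cX X b (k + 1) - cX X b k ≤ eX X ∧
    Ioo (cX X b k) (cX X b (k + 1)) ⊆ hf b := by
  have hN := ASD_N hX
  have hX' : (1:ℝ) ≤ X := by exact_mod_cast hX
  have h1 := ASD_bd hX b hk.le
  have h2 := ASD_bd hX b (Nat.succ_le_of_lt hk)
  have hd : cX X b (k + 1) - cX X b k = 1 / (6 * (X:ℝ) ^ 86) := by
    unfold cX
    push_cast
    field_simp
    ring
  have hpos : 0 < 1 / (6 * (X:ℝ) ^ 86) := by positivity
  refine ⟨?_, by linarith, ?_, hd, ?_, ?_⟩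
  · refine le_trans ?_ h1.1
    split_ifs <;> norm_num
  · refine h2.2.trans ?_
    split_ifs <;> norm_num
  · rw [hd]
    unfold eX
    have h85 : (1:ℝ) ≤ (X:ℝ) ^ 85 := one_le_pow₀ hX'
    apply one_div_le_one_div_of_le (by linarith)
    have : (X:ℝ) ^ 85 ≤ (X:ℝ) ^ 86 := pow_le_pow_right₀ hX' (by norm_num)
    linarith
  · intro y hy
    unfold hf
    cases b
    · simp only [Bool.false_eq_true, if_false] at h1 h2 ⊢
      exact ⟨by linarith [hy.1, h1.1], by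
        have := hy.2
        have h3 := h2.2
        norm_num at h3
        linarith⟩
    · simp only [if_true] at h1 h2 ⊢
      exact ⟨by linarith [hy.1, h1.1], by
        have := hy.2
        have h3 := h2.2
        norm_num at h3
        linarith⟩

theorem asd_pair {X : ℕ} (hX : 1 ≤ X) (b : Bool) {k k' : ℕ} (h : k ≠ k') :
    Disjoint (Ioo (cX X b k) (cX X b (k + 1))) (Ioo (cX X b k') (cX X b (k' + 1))) := by
  rw [Set.disjoint_left]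
  rintro y ⟨h1, h2⟩ ⟨h3, h4⟩
  rcases lt_or_gt_of_ne h with h' | h'
  · have := ASD_mono hX b (Nat.succ_le_of_lt h')
    simp only [Nat.succ_eq_add_one] at this
    linarith
  · have := ASD_mono hX b (Nat.succ_le_of_lt h')
    simp only [Nat.succ_eq_add_one] at this
    linarith

private theorem ASD_sub01 {X : ℕ} (hX : 1 ≤ X) (b : Bool) {k : ℕ} (hk : k < X ^ 86) :
    Ioo (cX X b k) (cX X b (k + 1)) ⊆ Icc 0 1 := by
  obtain ⟨h1, _, h3, _⟩ := asd_geom hX b hk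
  intro y hy
  exact ⟨by linarith [hy.1], by linarith [hy.2]⟩

theorem asd_disj {X I : ℕ} (hX : 1 ≤ X) {𝒯 : Finset (List Bool × Bool)} (h : Tl X I 𝒯) :
    ∀ i ∈ iS X 𝒯, ∀ i' ∈ iS X 𝒯, i ≠ i' →
      Disjoint (gam i.1.1 '' Ioo (ic X i) (ie X i)) (gam i'.1.1 '' Ioo (ic X i') (ie X i')) := by
  rintro ⟨x, k⟩ hi ⟨x', k'⟩ hi' hne
  have hi2 : x ∈ 𝒯 ∧ k ∈ Finset.range (X ^ 86) := Finset.mem_product.mp hi
  have hi2' : x' ∈ 𝒯 ∧ k' ∈ Finset.range (X ^ 86) := Finset.mem_product.mp hi'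
  have hk : k < X ^ 86 := Finset.mem_range.mp hi2.2
  have hk' : k' < X ^ 86 := Finset.mem_range.mp hi2'.2
  simp only [ic, ie]
  by_cases hx : x = x'
  · subst hx
    have hkk : k ≠ k' := by
      rintro rfl
      exact hne rfl
    have h1 := asd_pair hX x.2 hkk
    rw [Set.disjoint_left] at h1 ⊢
    rintro z ⟨y, hy, rfl⟩ ⟨y', hy', e⟩
    have h2 : y' = y := (sba_mono x.1).injOn (ASD_sub01 hX x.2 hk' hy') (ASD_sub01 hX x.2 hk hy) e
    subst h2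
    exact h1 hy hy'
  · refine (h.disj x hi2.1 x' hi2'.1 hx).mono ?_ ?_
    · exact Set.image_mono (asd_geom hX x.2 hk).2.2.2.2.2
    · exact Set.image_mono (asd_geom hX x'.2 hk').2.2.2.2.2

private theorem ASD_part {X : ℕ} (hX : 1 ≤ X) (b : Bool) {y : ℝ} (hy : y ∈ hf b) :
    (∃ k < X ^ 86, y ∈ Ioo (cX X b k) (cX X b (k + 1))) ∨ ∃ k < X ^ 86, y = cX X b k := by
  have hN := ASD_N hX
  have hy2 : (if b then 1 / 2 else 1 / 3 : ℝ) < y ∧ y < (if b then 1 / 2 else 1 / 3 : ℝ) + 1 / 6 := by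
    unfold hf at hy
    cases b
    · simp only [Bool.false_eq_true, if_false] at hy ⊢
      refine ⟨hy.1, ?_⟩
      have := hy.2
      norm_num
      linarith
    · simp only [if_true] at hy ⊢
      refine ⟨hy.1, ?_⟩
      have := hy.2
      norm_num
      linarith
  obtain ⟨c0, hc0⟩ : ∃ c0 : ℝ, c0 = if b then 1 / 2 else 1 / 3 := ⟨_, rfl⟩
  rw [← hc0] at hy2
  set t : ℝ := (y - c0) * (6 * (X:ℝ) ^ 86) with ht
  have ht0 : 0 < t := by
    have : 0 < y - c0 := by linarith [hy2.1]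
    positivity
  have htN : t < (X:ℝ) ^ 86 := by
    have h1 : y - c0 < 1 / 6 := by linarith [hy2.2]
    have h2 : (y - c0) * (6 * (X:ℝ) ^ 86) < 1 / 6 * (6 * (X:ℝ) ^ 86) :=
      mul_lt_mul_of_pos_right h1 (by linarith)
    rw [ht]
    linarith
  have hyt : y = c0 + t / (6 * (X:ℝ) ^ 86) := by
    rw [ht]
    field_simp
    ring
  have hkN : ⌊t⌋₊ < X ^ 86 := by
    have h1 : (⌊t⌋₊ : ℝ) ≤ t := Nat.floor_le ht0.le
    have h2 : (⌊t⌋₊ : ℝ) < ((X ^ 86 : ℕ) : ℝ) := by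
      push_cast
      linarith
    exact_mod_cast h2
  rcases eq_or_lt_of_le (Nat.floor_le ht0.le) with h1 | h1
  · right
    refine ⟨⌊t⌋₊, hkN, ?_⟩
    unfold cX
    rw [← hc0, h1]
    exact hyt
  · left
    refine ⟨⌊t⌋₊, hkN, ?_, ?_⟩
    · unfold cX
      rw [← hc0, hyt]
      have : (⌊t⌋₊ : ℝ) / (6 * (X:ℝ) ^ 86) < t / (6 * (X:ℝ) ^ 86) :=
        div_lt_div_of_pos_right h1 (by linarith)
      linarith
    · unfold cX
      rw [← hc0, hyt]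
      have h2 : t < ((⌊t⌋₊ + 1 : ℕ) : ℝ) := by
        push_cast
        exact Nat.lt_floor_add_one t
      have : t / (6 * (X:ℝ) ^ 86) < ((⌊t⌋₊ + 1 : ℕ) : ℝ) / (6 * (X:ℝ) ^ 86) :=
        div_lt_div_of_pos_right h2 (by linarith)
      linarith

theorem asd_vol {X I : ℕ} (hX : 1 ≤ X) {𝒯 : Finset (List Bool × Bool)} (h : Tl X I 𝒯) :
    volume (Icc (0:ℝ) 1 \ ⋃ i ∈ iS X 𝒯, gam i.1.1 '' Ioo (ic X i) (ie X i)) ≤
      ENNReal.ofReal (2 * X ^ 2 / I) := by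
  classical
  refine le_trans ?_ h.vol
  set F : Set ℝ := ⋃ i ∈ iS X 𝒯, {gam i.1.1 (cX X i.1.2 i.2)} with hF
  have hFf : F.Finite := (iS X 𝒯).finite_toSet.biUnion fun i _ => Set.finite_singleton _
  have hF0 : volume F = 0 := hFf.measure_zero volume
  have hsub : (Icc (0:ℝ) 1 \ ⋃ i ∈ iS X 𝒯, gam i.1.1 '' Ioo (ic X i) (ie X i)) ⊆
      (Icc (0:ℝ) 1 \ ⋃ x ∈ 𝒯, gam x.1 '' hf x.2) ∪ F := by
    rintro z ⟨hz1, hz2⟩
    by_cases hz3 : z ∈ F
    · exact Or.inr hz3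
    · refine Or.inl ⟨hz1, fun hz4 => ?_⟩
      rw [Set.mem_iUnion₂] at hz4
      obtain ⟨x, hx, y, hy, rfl⟩ := hz4
      rcases ASD_part hX x.2 hy with ⟨k, hk, hk2⟩ | ⟨k, hk, hk2⟩
      · apply hz2
        rw [Set.mem_iUnion₂]
        exact ⟨(x, k), Finset.mem_product.mpr ⟨hx, Finset.mem_range.mpr hk⟩, y, hk2, rfl⟩
      · apply hz3
        rw [hF, Set.mem_iUnion₂]
        exact ⟨(x, k), Finset.mem_product.mpr ⟨hx, Finset.mem_range.mpr hk⟩, by rw [hk2]; rfl⟩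
  calc volume (Icc (0:ℝ) 1 \ ⋃ i ∈ iS X 𝒯, gam i.1.1 '' Ioo (ic X i) (ie X i))
      ≤ volume ((Icc (0:ℝ) 1 \ ⋃ x ∈ 𝒯, gam x.1 '' hf x.2) ∪ F) := measure_mono hsub
    _ ≤ volume (Icc (0:ℝ) 1 \ ⋃ x ∈ 𝒯, gam x.1 '' hf x.2) + volume F := measure_union_le _ _
    _ = volume (Icc (0:ℝ) 1 \ ⋃ x ∈ 𝒯, gam x.1 '' hf x.2) := by rw [hF0, add_zero]

end Pool.H52.MQ
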