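import Pool.Agent.H52.MQ.OPA
import Pool.Agent.H52.MQ.SBM

/-! Module OPC (project MP_935a4b_QM): comparison of the pulled back kernel with G.  Uses OPA, SBA, SBM.
kap y y' = 2^(-|w|) KK (gam w y) (gam w y').  Write g = gam w, N = |w|.
(1) int over Icc 0 1 of kap(y,y')^2 dmu(y') = 4^(-N) int_{[0,1]} KK(g y, g y')^2 dmu(y') = 2^(-N) int_{cell w} KK(g y, t)^2 dmu(t) (sbm_integral with S = Icc 0 1, sba_image)
    <= 2^(-N) int KK(g y,t)^2 dmu(t) = kap(y,y) (opa_sq).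
(2) I := int_{[0,1]} kap(y,y') G(y') dmu(y').  I - int_{[0,1]} kap(y,y')P(g y')dmu(y') has modulus <= eps int_{[0,1]} |kap(y,y')| dmu(y') = eps int_{cell w} |KK(g y,t)| dmu(t)   (h1);
    int_{[0,1]} kap(y,y')P(g y') dmu(y') = int_{cell w} KK(g y,t)P(t) dmu(t) = P(g y) - int_{(cell w)^c} KK(g y,t)P(t) dmu(t) (opa_repro), the last integral is <= eps int_{(cell w)^c} |KK(g y,t)| dmu(t) (h2; mu carried by [0,1]).
    Together |I - P(g y)| <= eps int |KK(g y,t)| dmu(t) <= eps sqrt(KK(g y,g y)) = eps sqrt(2^N kap(y,y)) (opa_abs), and |P(g y)-G(y)| <= eps (h1).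
(3) int |kap - G|^2 = int kap^2 - 2 Re int kap G + int |G|^2 (kap real) <= kap(y,y) - 2 Re G(y) + int|G|^2 + 2 eps + 2 eps sqrt(2^N kap(y,y)).
opc_int: int over Ioo c d of kap(y,y) = int over g '' Ioo c d of KK x x  (sbm_integral). -/

open MeasureTheory Set Polynomial
open scoped ENNReal ComplexConjugate

namespace Pool.H52.MQ

theorem opc_gam (w : List Bool) {t : ℝ} (ht : t ∈ Icc (0:ℝ) 1) : gam w t ∈ Icc (0:ℝ) 1 := by
  apply sba_cell w
  rw [← sba_image w]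
  exact mem_image_of_mem _ ht

theorem opc_ae {μ : Measure ℝ} (hμ : QM μ) : ∀ᵐ t ∂μ, t ∈ Icc (0:ℝ) 1 := by
  rw [ae_iff]
  exact hμ.supp

theorem opc_bdd {E : Type*} [NormedAddCommGroup E] {f : ℝ → E} (hf : Continuous f) :
    ∃ M : ℝ, 0 ≤ M ∧ ∀ t ∈ Icc (0:ℝ) 1, ‖f t‖ ≤ M := by
  obtain ⟨M, hM⟩ := isCompact_Icc.exists_bound_of_continuousOn (s := Icc (0:ℝ) 1) hf.continuousOn
  exact ⟨M, (norm_nonneg _).trans (hM 0 (left_mem_Icc.2 zero_le_one)), hM⟩

/-- integrals over the unit interval of functions of `gam w` -/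
theorem opc_tr {μ : Measure ℝ} (hμ : QM μ) (w : List Bool) {E : Type*} [NormedAddCommGroup E]
    [NormedSpace ℝ E] {f : ℝ → E} (hf : StronglyMeasurable f) :
    (1 / 2 : ℝ) ^ w.length • ∫ y in Icc (0:ℝ) 1, f (gam w y) ∂μ = ∫ x in cell w, f x ∂μ := by
  rw [← sbm_integral hμ w measurableSet_Icc subset_rfl hf, sba_image]

theorem opc_int1 {μ : Measure ℝ} (hμ : QM μ) (w : List Bool) {f : ℝ → ℝ} (hf : Continuous f) :
    IntegrableOn (fun y => f (gam w y)) (Icc 0 1) μ := by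
  obtain ⟨M, -, hM⟩ := opc_bdd hf
  refine (opa_intb hμ ?_ M fun x hx => hM _ (opc_gam w hx)).integrableOn
  exact (hf.measurable.comp (sbm_meas w)).aestronglyMeasurable

/-- the two errors in the comparison of `P` and `G` -/
theorem opc_rep {μ : Measure ℝ} (hμ : QM μ) {p : ℕ → ℝ[X]} {a b : ℕ → ℝ} (hp : IsJacobi μ p a b)
    (n : ℕ) (w : List Bool) {y : ℝ} (hy : y ∈ Icc (0:ℝ) 1) (G : ℝ → ℂ) (hG : Measurable G) (B : ℝ)
    (hB : ∀ t ∈ Icc (0:ℝ) 1, ‖G t‖ ≤ B) (P : ℂ[X]) (hP : P.natDegree < n) (ε : ℝ)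
    (h1 : ∀ t ∈ Icc (0:ℝ) 1, ‖P.eval (gam w t : ℂ) - G t‖ ≤ ε)
    (h2 : ∀ x ∈ Icc (0:ℝ) 1, x ∉ cell w → ‖P.eval (x : ℂ)‖ ≤ ε) :
    ‖∫ y' in Icc 0 1, (kap p n w y y' : ℂ) * G y' ∂μ - G y‖ ≤
      ε + ε * √(2 ^ w.length * kap p n w y y) := by
  have hε : 0 ≤ ε := (norm_nonneg _).trans (h1 y hy)
  obtain ⟨x0, hx0⟩ : ∃ x0 : ℝ, x0 = gam w y := ⟨_, rfl⟩
  have hKc : Continuous fun t => KK p n x0 t :=
    (opa_cont p n).comp (Continuous.prodMk_right x0)
  have hPc : Continuous fun t : ℝ => P.eval (t : ℂ) := P.continuous.comp Complex.continuous_ofReal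
  have hKPc : Continuous fun t : ℝ => (KK p n x0 t : ℂ) * P.eval (t : ℂ) :=
    (Complex.continuous_ofReal.comp hKc).mul hPc
  have hc0 : (0 : ℝ) < (1 / 2) ^ w.length := by positivity
  have hkap : ∀ y', kap p n w y y' = (1 / 2) ^ w.length * KK p n x0 (gam w y') := fun y' => by
    rw [hx0]
    rfl
  have hsq : √(2 ^ w.length * kap p n w y y) = √(KK p n x0 x0) := by
    congr 1
    rw [hkap, ← hx0, ← mul_assoc, ← mul_pow]
    norm_num
  -- the two parts
  have hkapm : Measurable fun y' => kap p n w y y' := by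
    simp only [hkap]
    exact measurable_const.mul (hKc.measurable.comp (sbm_meas w))
  obtain ⟨M, hM0, hM⟩ := opc_bdd hKc
  have hkapM : ∀ t ∈ Icc (0:ℝ) 1, |kap p n w y t| ≤ (1 / 2) ^ w.length * M := by
    intro t ht
    rw [hkap, abs_mul, abs_of_pos hc0]
    exact mul_le_mul_of_nonneg_left (hM _ (opc_gam w ht)) hc0.le
  have hPg : Measurable fun t : ℝ => P.eval (gam w t : ℂ) := hPc.measurable.comp (sbm_meas w)
  obtain ⟨MP, hMP0, hMP⟩ := opc_bdd hPc
  have iG : Integrable (fun y' => (kap p n w y y' : ℂ) * G y') μ := by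
    refine opa_intb hμ ?_ ((1 / 2) ^ w.length * M * B) ?_
    · exact ((Complex.measurable_ofReal.comp hkapm).mul hG).aestronglyMeasurable
    · intro t ht
      rw [norm_mul, Complex.norm_real, Real.norm_eq_abs]
      exact mul_le_mul (hkapM t ht) (hB t ht) (norm_nonneg _) (by positivity)
  have iP : Integrable (fun y' => (kap p n w y y' : ℂ) * P.eval (gam w y' : ℂ)) μ := by
    refine opa_intb hμ ?_ ((1 / 2) ^ w.length * M * MP) ?_
    · exact ((Complex.measurable_ofReal.comp hkapm).mul hPg).aestronglyMeasurable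
    · intro t ht
      rw [norm_mul, Complex.norm_real, Real.norm_eq_abs]
      exact mul_le_mul (hkapM t ht) (hMP _ (opc_gam w ht)) (norm_nonneg _) (by positivity)
  have hJ : ∫ y' in Icc 0 1, (kap p n w y y' : ℂ) * P.eval (gam w y' : ℂ) ∂μ =
      ∫ t in cell w, (KK p n x0 t : ℂ) * P.eval (t : ℂ) ∂μ := by
    rw [← opc_tr hμ w hKPc.stronglyMeasurable, ← integral_smul]
    refine setIntegral_congr_fun measurableSet_Icc fun y' _ => ?_
    simp only [hkap, Complex.real_smul]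
    push_cast
    ring
  have hA : ∫ y' in Icc 0 1, ε * |kap p n w y y'| ∂μ = ε * ∫ t in cell w, |KK p n x0 t| ∂μ := by
    rw [integral_const_mul, ← opc_tr hμ w hKc.abs.stronglyMeasurable, ← integral_smul]
    congr 1
    refine setIntegral_congr_fun measurableSet_Icc fun y' _ => ?_
    simp only [hkap, smul_eq_mul, abs_mul, abs_of_pos hc0]
  have e1 : ‖∫ y' in Icc 0 1, (kap p n w y y' : ℂ) * G y' ∂μ -
      ∫ y' in Icc 0 1, (kap p n w y y' : ℂ) * P.eval (gam w y' : ℂ) ∂μ‖ ≤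
      ε * ∫ t in cell w, |KK p n x0 t| ∂μ := by
    rw [← integral_sub iG.integrableOn iP.integrableOn, ← hA]
    refine norm_integral_le_of_norm_le ?_ ?_
    · refine ((opa_intb hμ (B := (1 / 2) ^ w.length * M) (f := fun y' => |kap p n w y y'|) ?_
        ?_).const_mul ε).integrableOn
      · exact hkapm.abs.aestronglyMeasurable
      · intro t ht
        rw [Real.norm_eq_abs, abs_abs]
        exact hkapM t ht
    · refine ae_restrict_of_forall_mem measurableSet_Icc fun t ht => ?_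
      rw [← mul_sub, norm_mul, Complex.norm_real, Real.norm_eq_abs, norm_sub_rev, mul_comm]
      exact mul_le_mul_of_nonneg_right (h1 t ht) (abs_nonneg _)
  have iKP : Integrable (fun t => (KK p n x0 t : ℂ) * P.eval (t : ℂ)) μ := opa_int hμ hKPc
  have iK : Integrable (fun t => |KK p n x0 t|) μ := opa_int hμ hKc.abs
  have e2 : ‖∫ t in cell w, (KK p n x0 t : ℂ) * P.eval (t : ℂ) ∂μ - P.eval (x0 : ℂ)‖ ≤
      ε * ∫ t in (cell w)ᶜ, |KK p n x0 t| ∂μ := by
    rw [← opa_repro hμ hp n P hP x0, ← integral_add_compl (sbm_measSet w) iKP, sub_add_cancel_left,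
      norm_neg, ← integral_const_mul]
    refine norm_integral_le_of_norm_le (iK.const_mul ε).integrableOn ?_
    filter_upwards [ae_restrict_of_ae (opc_ae hμ), ae_restrict_mem (sbm_measSet w).compl] with t h3 h4
    rw [norm_mul, Complex.norm_real, Real.norm_eq_abs, mul_comm]
    exact mul_le_mul_of_nonneg_right (h2 t h3 h4) (abs_nonneg _)
  have e3 : ‖P.eval (x0 : ℂ) - G y‖ ≤ ε := by
    rw [hx0]
    exact h1 y hy
  have e4 := opa_abs hμ hp n x0
  rw [← integral_add_compl (sbm_measSet w) iK] at e4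
  rw [hJ] at e1
  rw [hsq]
  have e5 : ∫ y' in Icc 0 1, (kap p n w y y' : ℂ) * G y' ∂μ - G y =
      (∫ y' in Icc 0 1, (kap p n w y y' : ℂ) * G y' ∂μ -
        ∫ t in cell w, (KK p n x0 t : ℂ) * P.eval (t : ℂ) ∂μ) +
      (∫ t in cell w, (KK p n x0 t : ℂ) * P.eval (t : ℂ) ∂μ - P.eval (x0 : ℂ)) +
      (P.eval (x0 : ℂ) - G y) := by ring
  rw [e5]
  refine (norm_add_le _ _).trans ?_
  have e6 := norm_add_le (∫ y' in Icc 0 1, (kap p n w y y' : ℂ) * G y' ∂μ -
        ∫ t in cell w, (KK p n x0 t : ℂ) * P.eval (t : ℂ) ∂μ)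
      (∫ t in cell w, (KK p n x0 t : ℂ) * P.eval (t : ℂ) ∂μ - P.eval (x0 : ℂ))
  have e7 := mul_le_mul_of_nonneg_left e4 hε
  linarith

theorem opc_kap2 {μ : Measure ℝ} (hμ : QM μ) {p : ℕ → ℝ[X]} {a b : ℕ → ℝ} (hp : IsJacobi μ p a b)
    (n : ℕ) (w : List Bool) (y : ℝ) :
    ∫ y' in Icc 0 1, kap p n w y y' ^ 2 ∂μ ≤ kap p n w y y := by
  obtain ⟨x0, hx0⟩ : ∃ x0 : ℝ, x0 = gam w y := ⟨_, rfl⟩
  have hKc : Continuous fun t => KK p n x0 t :=
    (opa_cont p n).comp (Continuous.prodMk_right x0)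
  have hK2 : Continuous fun t => KK p n x0 t ^ 2 := hKc.pow 2
  have hc0 : (0 : ℝ) < (1 / 2) ^ w.length := by positivity
  have hkap : ∀ y', kap p n w y y' = (1 / 2) ^ w.length * KK p n x0 (gam w y') := fun y' => by
    rw [hx0]
    rfl
  have h1 : ∫ y' in Icc 0 1, kap p n w y y' ^ 2 ∂μ =
      (1 / 2) ^ w.length * ∫ t in cell w, KK p n x0 t ^ 2 ∂μ := by
    rw [← opc_tr hμ w hK2.stronglyMeasurable, smul_eq_mul, ← integral_const_mul,
      ← integral_const_mul]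
    refine setIntegral_congr_fun measurableSet_Icc fun y' _ => ?_
    simp only [hkap]
    ring
  rw [h1, hkap, ← hx0, ← opa_sq hμ hp n x0]
  refine mul_le_mul_of_nonneg_left ?_ hc0.le
  refine setIntegral_le_integral (opa_int hμ hK2) ?_
  filter_upwards with t
  positivity

theorem opc_cmp {μ : Measure ℝ} (hμ : QM μ) {p : ℕ → ℝ[X]} {a b : ℕ → ℝ} (hp : IsJacobi μ p a b)
    (n : ℕ) (w : List Bool) {y : ℝ} (hy : y ∈ Icc (0:ℝ) 1) (G : ℝ → ℂ) (hG : Measurable G) (B : ℝ)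
    (hB : ∀ t ∈ Icc (0:ℝ) 1, ‖G t‖ ≤ B) (P : ℂ[X]) (hP : P.natDegree < n) (ε : ℝ)
    (h1 : ∀ t ∈ Icc (0:ℝ) 1, ‖P.eval (gam w t : ℂ) - G t‖ ≤ ε)
    (h2 : ∀ x ∈ Icc (0:ℝ) 1, x ∉ cell w → ‖P.eval (x : ℂ)‖ ≤ ε) :
    ∫ y' in Icc 0 1, ‖(kap p n w y y' : ℂ) - G y'‖ ^ 2 ∂μ ≤
      kap p n w y y - 2 * (G y).re + ∫ y' in Icc 0 1, ‖G y'‖ ^ 2 ∂μ +
        2 * ε + 2 * ε * √(2 ^ w.length * kap p n w y y) := by
  have hrep := opc_rep hμ hp n w hy G hG B hB P hP ε h1 h2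
  have hk2 := opc_kap2 hμ hp n w y
  have hc0 : (0 : ℝ) < (1 / 2) ^ w.length := by positivity
  have hKc : Continuous fun t => KK p n (gam w y) t :=
    (opa_cont p n).comp (Continuous.prodMk_right (gam w y))
  have hkapm : Measurable fun y' => kap p n w y y' :=
    measurable_const.mul (hKc.measurable.comp (sbm_meas w))
  obtain ⟨M, hM0, hM⟩ := opc_bdd hKc
  have hkapM : ∀ t ∈ Icc (0:ℝ) 1, |kap p n w y t| ≤ (1 / 2) ^ w.length * M := by
    intro t ht
    unfold kap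
    rw [abs_mul, abs_of_pos hc0]
    exact mul_le_mul_of_nonneg_left (hM _ (opc_gam w ht)) hc0.le
  have hB0 : 0 ≤ B := (norm_nonneg _).trans (hB y hy)
  have i1 : Integrable (fun y' => kap p n w y y' ^ 2) μ := by
    refine opa_intb hμ (hkapm.pow_const 2).aestronglyMeasurable (((1 / 2) ^ w.length * M) ^ 2) ?_
    intro t ht
    rw [norm_pow, Real.norm_eq_abs]
    exact pow_le_pow_left₀ (abs_nonneg _) (hkapM t ht) 2
  have i2 : Integrable (fun y' => (kap p n w y y' : ℂ) * G y') μ := by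
    refine opa_intb hμ ?_ ((1 / 2) ^ w.length * M * B) ?_
    · exact ((Complex.measurable_ofReal.comp hkapm).mul hG).aestronglyMeasurable
    · intro t ht
      rw [norm_mul, Complex.norm_real, Real.norm_eq_abs]
      exact mul_le_mul (hkapM t ht) (hB t ht) (norm_nonneg _) (by positivity)
  have i3 : Integrable (fun y' => ‖G y'‖ ^ 2) μ := by
    refine opa_intb hμ (hG.norm.pow_const 2).aestronglyMeasurable (B ^ 2) ?_
    intro t ht
    rw [norm_pow, norm_norm]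
    exact pow_le_pow_left₀ (norm_nonneg _) (hB t ht) 2
  have i2r : Integrable (fun y' => 2 * ((kap p n w y y' : ℂ) * G y').re) μ :=
    i2.re.const_mul 2
  have hpt : ∀ y', ‖(kap p n w y y' : ℂ) - G y'‖ ^ 2 =
      kap p n w y y' ^ 2 - 2 * ((kap p n w y y' : ℂ) * G y').re + ‖G y'‖ ^ 2 := by
    intro y'
    rw [← Complex.normSq_eq_norm_sq, ← Complex.normSq_eq_norm_sq, Complex.normSq_apply,
      Complex.normSq_apply]
    simp
    ring
  have e1 : ∫ y' in Icc 0 1, ‖(kap p n w y y' : ℂ) - G y'‖ ^ 2 ∂μ =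
      ∫ y' in Icc 0 1, kap p n w y y' ^ 2 ∂μ -
        2 * (∫ y' in Icc 0 1, (kap p n w y y' : ℂ) * G y' ∂μ).re +
          ∫ y' in Icc 0 1, ‖G y'‖ ^ 2 ∂μ := by
    have e2 : (∫ y' in Icc 0 1, (kap p n w y y' : ℂ) * G y' ∂μ).re =
        ∫ y' in Icc 0 1, ((kap p n w y y' : ℂ) * G y').re ∂μ :=
      (integral_re i2.integrableOn).symm
    simp only [hpt]
    have i12 : IntegrableOn (fun y' => kap p n w y y' ^ 2 -
        2 * ((kap p n w y y' : ℂ) * G y').re) (Icc 0 1) μ := i1.integrableOn.sub i2r.integrableOn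
    rw [integral_add i12 i3.integrableOn,
      integral_sub i1.integrableOn i2r.integrableOn, integral_const_mul, e2]
  rw [e1]
  have e3 := (abs_le.1 (Complex.abs_re_le_norm
    (∫ y' in Icc 0 1, (kap p n w y y' : ℂ) * G y' ∂μ - G y))).1
  rw [Complex.sub_re] at e3
  linarith

theorem opc_int {μ : Measure ℝ} (hμ : QM μ) (p : ℕ → ℝ[X]) (n : ℕ) (w : List Bool) {c d : ℝ}
    (hc : 0 ≤ c) (hd : d ≤ 1) : ∫ y in Ioo c d, kap p n w y y ∂μ =
      ∫ x in gam w '' Ioo c d, KK p n x x ∂μ := by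
  have hKc : Continuous fun t => KK p n t t :=
    (opa_cont p n).comp (continuous_id.prodMk continuous_id)
  have hsub : Ioo c d ⊆ Icc 0 1 := fun t ht => ⟨hc.trans ht.1.le, ht.2.le.trans hd⟩
  rw [sbm_integral hμ w measurableSet_Ioo hsub hKc.stronglyMeasurable, smul_eq_mul,
    ← integral_const_mul]
  rfl

end Pool.H52.MQ
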