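import Pool.Agent.H52.MQ.Defs

/-! Module SBV (project MP_935a4b_QM): covering estimates for disjoint intervals.  Mathlib only.
(a_i,b_i), i in s, pairwise disjoint open intervals in [0,1], the uncovered part U of [0,1] has volume <= v.
om_cover: om a b = arcsine probability of (a,b) = integral over (a,b) of 1/(pi sqrt(x(1-x))) dx; so 1 - sum om = arcsine measure of U.  For measurable U with volume <= v:
  split U at 1/2; on U n [0,1/2]: 1/(pi sqrt(x(1-x))) <= sqrt2/(pi sqrt x) and the integral of x^(-1/2) over a set of measure v' in [0,1/2] is <= integral over [0,v'] = 2 sqrt v'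
  (x^(-1/2) <= v'^(-1/2) off [0,v'], compare).  Total <= (2 sqrt2/pi)(sqrt v1 + sqrt v2) <= (2 sqrt 2/pi) sqrt 2 sqrt v <= 2 sqrt v.
sq_cover: integral over [0,1] of sqrt(x(1-x)) = pi/8 (area of a half disc of radius 1/2; e.g. via substitution or Mathlib area of disc / integral_sqrt_one_sub_sq), integrand <= 1/2. -/

open MeasureTheory Set
open scoped ENNReal

namespace Pool.H52.MQ

theorem SBV_split {ι : Type*} (s : Finset ι) (a b : ι → ℝ) (f : ℝ → ℝ)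
    (hf : IntegrableOn f (Icc 0 1))
    (ha : ∀ i ∈ s, 0 ≤ a i) (hab : ∀ i ∈ s, a i ≤ b i) (hb : ∀ i ∈ s, b i ≤ 1)
    (hdis : ∀ i ∈ s, ∀ j ∈ s, i ≠ j → Disjoint (Ioo (a i) (b i)) (Ioo (a j) (b j))) :
    ∑ i ∈ s, ∫ x in (a i)..(b i), f x =
      (∫ x in Icc (0:ℝ) 1, f x) - ∫ x in Icc (0:ℝ) 1 \ ⋃ i ∈ s, Ioo (a i) (b i), f x := by
  have hsub : (⋃ i ∈ s, Ioo (a i) (b i)) ⊆ Icc (0:ℝ) 1 := by
    intro x hx
    simp only [mem_iUnion, exists_prop] at hx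
    obtain ⟨i, hi, hx⟩ := hx
    exact ⟨(ha i hi).trans hx.1.le, hx.2.le.trans (hb i hi)⟩
  have hmeas : MeasurableSet (⋃ i ∈ s, Ioo (a i) (b i)) :=
    Finset.measurableSet_biUnion _ fun i _ => measurableSet_Ioo
  have h1 : ∫ x in ⋃ i ∈ s, Ioo (a i) (b i), f x = ∑ i ∈ s, ∫ x in Ioo (a i) (b i), f x := by
    refine integral_biUnion_finset s (fun i _ => measurableSet_Ioo) ?_ ?_
    · intro i hi j hj hij
      exact hdis i hi j hj hij
    · intro i hi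
      exact hf.mono_set ((subset_biUnion_of_mem (u := fun i => Ioo (a i) (b i)) hi).trans hsub)
  have h2 : ∀ i ∈ s, ∫ x in (a i)..(b i), f x = ∫ x in Ioo (a i) (b i), f x := by
    intro i hi
    rw [intervalIntegral.integral_of_le (hab i hi), integral_Ioc_eq_integral_Ioo]
  rw [Finset.sum_congr rfl h2, ← h1, setIntegral_sdiff hmeas hf hsub]
  ring

theorem SBV_int (v : ℝ) (hv : 0 ≤ v) : IntegrableOn (fun x : ℝ => (√x)⁻¹) (Ioc 0 v) ∧
    ∫ x in (0:ℝ)..v, (√x)⁻¹ = 2 * √v := by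
  have hc : ContinuousOn (fun x : ℝ => 2 * √x) (Icc 0 v) := by fun_prop
  have hd : ∀ x ∈ Ioo 0 v, HasDerivAt (fun x : ℝ => 2 * √x) ((√x)⁻¹) x := by
    intro x hx
    have h := (Real.hasDerivAt_sqrt hx.1.ne').const_mul 2
    have h0 : √x ≠ 0 := (Real.sqrt_pos.2 hx.1).ne'
    have h1 : 2 * (1 / (2 * √x)) = (√x)⁻¹ := by
      field_simp
    rw [h1] at h
    exact h
  have hint : IntegrableOn (fun x : ℝ => (√x)⁻¹) (Ioc 0 v) :=
    intervalIntegral.integrableOn_deriv_of_nonneg hc hd fun x _ => inv_nonneg.2 (Real.sqrt_nonneg x)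
  refine ⟨hint, ?_⟩
  rw [intervalIntegral.integral_eq_sub_of_hasDerivAt_of_le hv hc hd
    ((intervalIntegrable_iff_integrableOn_Ioc_of_le hv).2 hint)]
  simp

theorem SBV_inv (U : Set ℝ) (hU : MeasurableSet U) (hU1 : U ⊆ Icc 0 1) (v : ℝ) (hv : 0 < v)
    (hvol : volume U ≤ ENNReal.ofReal v) : ∫ x in U, (√x)⁻¹ ≤ 2 * √v := by
  obtain ⟨hi1, -⟩ := SBV_int 1 zero_le_one
  obtain ⟨hiv, hev⟩ := SBV_int v hv.le
  have hsv : 0 < √v := Real.sqrt_pos.2 hv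
  have hiU : IntegrableOn (fun x : ℝ => (√x)⁻¹) U :=
    ((integrableOn_Icc_iff_integrableOn_Ioc).2 hi1).mono_set hU1
  have hfin : volume U ≠ ⊤ := ne_top_of_le_ne_top ENNReal.ofReal_ne_top hvol
  have hcU : IntegrableOn (fun _ : ℝ => (√v)⁻¹) U := integrableOn_const hfin
  have hcv : IntegrableOn (fun _ : ℝ => (√v)⁻¹) (Ioc 0 v) :=
    integrableOn_const measure_Ioc_lt_top.ne
  have hd : IntegrableOn (fun x : ℝ => (√x)⁻¹ - (√v)⁻¹) U := hiU.sub hcU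
  have hdv : IntegrableOn (fun x : ℝ => (√x)⁻¹ - (√v)⁻¹) (Ioc 0 v) := hiv.sub hcv
  have hnn : ∀ x ∈ Ioc 0 v, 0 ≤ (√x)⁻¹ - (√v)⁻¹ := by
    intro x hx
    have := inv_anti₀ (Real.sqrt_pos.2 hx.1) (Real.sqrt_le_sqrt hx.2)
    linarith
  have h1 : ∫ x in U, ((√x)⁻¹ - (√v)⁻¹) ≤ ∫ x in Ioc 0 v, ((√x)⁻¹ - (√v)⁻¹) := by
    have h2 : ∫ x in U, ((√x)⁻¹ - (√v)⁻¹) ≤ ∫ x in U ∩ Ioc 0 v, ((√x)⁻¹ - (√v)⁻¹) := by
      rw [← integral_inter_add_sdiff (s := U) (t := Ioc 0 v) measurableSet_Ioc hd]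
      have h3 : ∫ x in U \ Ioc 0 v, ((√x)⁻¹ - (√v)⁻¹) ≤ 0 := by
        refine setIntegral_nonpos (hU.diff measurableSet_Ioc) ?_
        intro x hx
        rcases (hU1 hx.1).1.eq_or_lt with h0 | h0
        · rw [← h0, Real.sqrt_zero, inv_zero]
          have := inv_pos.2 hsv
          linarith
        · have h4 : v < x := by
            by_contra hcon
            exact hx.2 ⟨h0, not_lt.1 hcon⟩
          have := inv_anti₀ hsv (Real.sqrt_le_sqrt h4.le)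
          linarith
      linarith
    refine h2.trans ?_
    refine setIntegral_mono_set hdv ?_ (inter_subset_right.eventuallyLE)
    exact (ae_restrict_iff' measurableSet_Ioc).2 (Filter.Eventually.of_forall hnn)
  have h5 : ∫ x in U, ((√x)⁻¹ - (√v)⁻¹) = (∫ x in U, (√x)⁻¹) - (volume U).toReal * (√v)⁻¹ := by
    rw [integral_sub hiU hcU, setIntegral_const]
    rfl
  have h6 : ∫ x in Ioc 0 v, ((√x)⁻¹ - (√v)⁻¹) = 2 * √v - v * (√v)⁻¹ := by
    rw [integral_sub hiv hcv, setIntegral_const, ← intervalIntegral.integral_of_le hv.le, hev]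
    simp [Measure.real, hv.le]
  have h7 : (volume U).toReal ≤ v := ENNReal.toReal_le_of_le_ofReal hv.le hvol
  have h8 : (volume U).toReal * (√v)⁻¹ ≤ v * (√v)⁻¹ :=
    mul_le_mul_of_nonneg_right h7 (inv_nonneg.2 hsv.le)
  linarith

theorem SBV_inv2 (U : Set ℝ) (hU : MeasurableSet U) (hU1 : U ⊆ Icc 0 1) (v : ℝ) (hv : 0 < v)
    (hvol : volume U ≤ ENNReal.ofReal v) : ∫ x in U, (√(1 - x))⁻¹ ≤ 2 * √v := by
  have hmp : MeasurePreserving (fun x : ℝ => 1 - x) volume volume :=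
    Measure.measurePreserving_sub_left volume 1
  have hemb : MeasurableEmbedding (fun x : ℝ => 1 - x) := (MeasurableEquiv.subLeft (1:ℝ)).measurableEmbedding
  have hpp : (fun x : ℝ => 1 - x) ⁻¹' ((fun x : ℝ => 1 - x) ⁻¹' U) = U := by
    ext x
    simp
  have h1 := hmp.setIntegral_preimage_emb hemb (fun x => (√x)⁻¹) ((fun x : ℝ => 1 - x) ⁻¹' U)
  rw [hpp] at h1
  rw [h1]
  refine SBV_inv _ (hmp.measurable hU) ?_ v hv ?_
  · intro x hx
    obtain ⟨h2, h3⟩ := hU1 hx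
    exact ⟨by linarith, by linarith⟩
  · rw [hmp.measure_preimage hU.nullMeasurableSet]
    exact hvol

theorem SBV_dens : IntegrableOn (fun x : ℝ => (Real.pi * √(x * (1 - x)))⁻¹) (Icc 0 1) ∧
    ∀ a b : ℝ, 0 ≤ a → a ≤ b → b ≤ 1 → ∫ x in a..b, (Real.pi * √(x * (1 - x)))⁻¹ = om a b := by
  have hc : Continuous (fun x : ℝ => -Real.arccos (2 * x - 1) / Real.pi) := by
    have := Real.continuous_arccos
    fun_prop
  have hd : ∀ x ∈ Ioo (0:ℝ) 1, HasDerivAt (fun x : ℝ => -Real.arccos (2 * x - 1) / Real.pi)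
      ((Real.pi * √(x * (1 - x)))⁻¹) x := by
    intro x hx
    obtain ⟨hx0, hx1⟩ := hx
    have h1 : HasDerivAt (fun x : ℝ => 2 * x - 1) 2 x := by
      simpa using ((hasDerivAt_id x).const_mul 2).sub_const 1
    have h2 := (Real.hasDerivAt_arccos (x := 2 * x - 1) (by linarith) (by linarith)).comp x h1
    have h3 : HasDerivAt (fun x : ℝ => -Real.arccos (2 * x - 1) / Real.pi)
      (-(-(1 / √(1 - (2 * x - 1) ^ 2)) * 2) / Real.pi) x := (h2.neg).div_const Real.pi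
    have h4 : 1 - (2 * x - 1) ^ 2 = 2 ^ 2 * (x * (1 - x)) := by ring
    have h5 : 0 < x * (1 - x) := mul_pos hx0 (by linarith)
    have h6 : 0 < √(x * (1 - x)) := Real.sqrt_pos.2 h5
    have h7 : -(-(1 / √(1 - (2 * x - 1) ^ 2)) * 2) / Real.pi = (Real.pi * √(x * (1 - x)))⁻¹ := by
      rw [h4, Real.sqrt_mul (by norm_num : (0:ℝ) ≤ 2 ^ 2), Real.sqrt_sq (by norm_num)]
      have := Real.pi_pos
      field_simp
    rw [h7] at h3
    exact h3
  have hnn : ∀ x ∈ Ioo (0:ℝ) 1, 0 ≤ (Real.pi * √(x * (1 - x)))⁻¹ := fun x _ =>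
    inv_nonneg.2 (mul_nonneg Real.pi_pos.le (Real.sqrt_nonneg _))
  have hint : IntegrableOn (fun x : ℝ => (Real.pi * √(x * (1 - x)))⁻¹) (Ioc 0 1) :=
    intervalIntegral.integrableOn_deriv_of_nonneg hc.continuousOn hd hnn
  refine ⟨(integrableOn_Icc_iff_integrableOn_Ioc).2 hint, ?_⟩
  intro a b ha hab hb
  rw [intervalIntegral.integral_eq_sub_of_hasDerivAt_of_le hab hc.continuousOn
    (fun x hx => hd x ⟨ha.trans_lt hx.1, hx.2.trans_le hb⟩)
    ((intervalIntegrable_iff_integrableOn_Ioc_of_le hab).2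
      (hint.mono_set (Ioc_subset_Ioc ha hb)))]
  unfold om
  ring

theorem SBV_dens_le (U : Set ℝ) (hU : MeasurableSet U) (hU1 : U ⊆ Icc 0 1) (v : ℝ) (hv : 0 ≤ v)
    (hvol : volume U ≤ ENNReal.ofReal v) :
    ∫ x in U, (Real.pi * √(x * (1 - x)))⁻¹ ≤ 2 * √v := by
  rcases hv.eq_or_lt with h0 | h0
  · rw [← h0, ENNReal.ofReal_zero, nonpos_iff_eq_zero] at hvol
    rw [setIntegral_measure_zero _ hvol]
    positivity
  have hsv : 0 < √v := Real.sqrt_pos.2 h0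
  obtain ⟨hi, -⟩ := SBV_dens
  have hi1 : IntegrableOn (fun x : ℝ => (√x)⁻¹) (Icc 0 1) :=
    (integrableOn_Icc_iff_integrableOn_Ioc).2 (SBV_int 1 zero_le_one).1
  have hmp : MeasurePreserving (fun x : ℝ => 1 - x) volume volume :=
    Measure.measurePreserving_sub_left volume 1
  have hemb : MeasurableEmbedding (fun x : ℝ => 1 - x) := (MeasurableEquiv.subLeft (1:ℝ)).measurableEmbedding
  have hi2 : IntegrableOn (fun x : ℝ => (√(1 - x))⁻¹) (Icc 0 1) := by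
    have h1 := (hmp.integrableOn_comp_preimage hemb (f := fun x : ℝ => (√x)⁻¹) (s := Icc 0 1)).2 hi1
    have h2 : (fun x : ℝ => 1 - x) ⁻¹' (Icc (0:ℝ) 1) = Icc 0 1 := by
      ext x
      simp only [mem_preimage, mem_Icc]
      constructor
      · rintro ⟨h1, h2⟩
        exact ⟨by linarith, by linarith⟩
      · rintro ⟨h1, h2⟩
        exact ⟨by linarith, by linarith⟩
    rw [h2] at h1
    exact h1
  have hle : ∫ x in U, (Real.pi * √(x * (1 - x)))⁻¹ ≤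
      ∫ x in U, (Real.pi⁻¹ * (√x)⁻¹ + Real.pi⁻¹ * (√(1 - x))⁻¹) := by
    refine setIntegral_mono_on (hi.mono_set hU1)
      (((hi1.mono_set hU1).const_mul _).add ((hi2.mono_set hU1).const_mul _)) hU ?_
    intro x hx
    obtain ⟨hx0, hx1⟩ := hU1 hx
    have hp : 0 < Real.pi⁻¹ := inv_pos.2 Real.pi_pos
    rw [mul_inv, ← mul_add]
    refine mul_le_mul_of_nonneg_left ?_ hp.le
    rcases hx0.eq_or_lt with h1 | h1
    · rw [← h1]
      simp
    rcases hx1.eq_or_lt with h2 | h2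
    · rw [h2]
      simp
    have h3 : 0 < √x := Real.sqrt_pos.2 h1
    have h4 : 0 < √(1 - x) := Real.sqrt_pos.2 (by linarith)
    rw [Real.sqrt_mul hx0, mul_inv]
    have h5 : 1 ≤ √x + √(1 - x) := by
      have h6 : √x ^ 2 = x := Real.sq_sqrt hx0
      have h7 : √(1 - x) ^ 2 = 1 - x := Real.sq_sqrt (by linarith)
      nlinarith [mul_pos h3 h4]
    have h8 : (√x)⁻¹ + (√(1 - x))⁻¹ = (√x + √(1 - x)) * ((√x)⁻¹ * (√(1 - x))⁻¹) := by
      field_simp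
      ring
    rw [h8]
    exact le_mul_of_one_le_left (by positivity) h5
  have h9 : ∫ x in U, (Real.pi⁻¹ * (√x)⁻¹ + Real.pi⁻¹ * (√(1 - x))⁻¹) =
      Real.pi⁻¹ * (∫ x in U, (√x)⁻¹) + Real.pi⁻¹ * ∫ x in U, (√(1 - x))⁻¹ := by
    rw [integral_add ((hi1.mono_set hU1).const_mul _) ((hi2.mono_set hU1).const_mul _),
      integral_const_mul, integral_const_mul]
  have h10 := SBV_inv U hU hU1 v h0 hvol
  have h11 := SBV_inv2 U hU hU1 v h0 hvol
  have hp : 0 < Real.pi⁻¹ := inv_pos.2 Real.pi_pos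
  have h12 : Real.pi⁻¹ * 2 ≤ 1 := by
    rw [inv_mul_le_iff₀ Real.pi_pos, mul_one]
    exact Real.two_le_pi
  have h13 : Real.pi⁻¹ * (∫ x in U, (√x)⁻¹) ≤ √v := by
    calc Real.pi⁻¹ * (∫ x in U, (√x)⁻¹) ≤ Real.pi⁻¹ * (2 * √v) := mul_le_mul_of_nonneg_left h10 hp.le
      _ = (Real.pi⁻¹ * 2) * √v := by ring
      _ ≤ 1 * √v := mul_le_mul_of_nonneg_right h12 hsv.le
      _ = √v := one_mul _
  have h14 : Real.pi⁻¹ * (∫ x in U, (√(1 - x))⁻¹) ≤ √v := by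
    calc Real.pi⁻¹ * (∫ x in U, (√(1 - x))⁻¹) ≤ Real.pi⁻¹ * (2 * √v) :=
          mul_le_mul_of_nonneg_left h11 hp.le
      _ = (Real.pi⁻¹ * 2) * √v := by ring
      _ ≤ 1 * √v := mul_le_mul_of_nonneg_right h12 hsv.le
      _ = √v := one_mul _
  linarith

theorem om_cover {ι : Type*} (s : Finset ι) (a b : ι → ℝ) (v : ℝ) (hv : 0 ≤ v)
    (ha : ∀ i ∈ s, 0 ≤ a i) (hab : ∀ i ∈ s, a i ≤ b i) (hb : ∀ i ∈ s, b i ≤ 1)
    (hdis : ∀ i ∈ s, ∀ j ∈ s, i ≠ j → Disjoint (Ioo (a i) (b i)) (Ioo (a j) (b j)))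
    (hvol : volume (Icc (0:ℝ) 1 \ ⋃ i ∈ s, Ioo (a i) (b i)) ≤ ENNReal.ofReal v) :
    1 - 2 * √v ≤ ∑ i ∈ s, om (a i) (b i) := by
  obtain ⟨hi, hom⟩ := SBV_dens
  have h1 := SBV_split s a b _ hi ha hab hb hdis
  have h2 : ∑ i ∈ s, ∫ x in (a i)..(b i), (Real.pi * √(x * (1 - x)))⁻¹ = ∑ i ∈ s, om (a i) (b i) :=
    Finset.sum_congr rfl fun i hi' => hom _ _ (ha i hi') (hab i hi') (hb i hi')
  have h3 : ∫ x in Icc (0:ℝ) 1, (Real.pi * √(x * (1 - x)))⁻¹ = 1 := by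
    rw [integral_Icc_eq_integral_Ioc, ← intervalIntegral.integral_of_le zero_le_one,
      hom 0 1 le_rfl zero_le_one le_rfl]
    unfold om
    norm_num
  have hmeas : MeasurableSet (Icc (0:ℝ) 1 \ ⋃ i ∈ s, Ioo (a i) (b i)) :=
    measurableSet_Icc.diff (Finset.measurableSet_biUnion _ fun i _ => measurableSet_Ioo)
  have h4 := SBV_dens_le _ hmeas sdiff_subset v hv hvol
  rw [← h2, h1, h3]
  linarith

theorem SBV_sq_int : ∫ x in (0:ℝ)..1, √(x * (1 - x)) = Real.pi / 8 := by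
  have h1 : ∀ x : ℝ, √(x * (1 - x)) = (fun t : ℝ => √(1 - t ^ 2) / 2) (2 * x - 1) := by
    intro x
    have h2 : 1 - (2 * x - 1) ^ 2 = 2 ^ 2 * (x * (1 - x)) := by ring
    show √(x * (1 - x)) = √(1 - (2 * x - 1) ^ 2) / 2
    rw [h2, Real.sqrt_mul (by norm_num : (0:ℝ) ≤ 2 ^ 2), Real.sqrt_sq (by norm_num)]
    ring
  simp_rw [h1]
  rw [intervalIntegral.integral_comp_mul_sub (fun t : ℝ => √(1 - t ^ 2) / 2) (by norm_num)]
  rw [intervalIntegral.integral_div]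
  norm_num
  rw [integral_sqrt_one_sub_sq]
  ring

theorem sq_cover {ι : Type*} (s : Finset ι) (a b : ι → ℝ) (v : ℝ) (hv : 0 ≤ v)
    (ha : ∀ i ∈ s, 0 ≤ a i) (hab : ∀ i ∈ s, a i ≤ b i) (hb : ∀ i ∈ s, b i ≤ 1)
    (hdis : ∀ i ∈ s, ∀ j ∈ s, i ≠ j → Disjoint (Ioo (a i) (b i)) (Ioo (a j) (b j)))
    (hvol : volume (Icc (0:ℝ) 1 \ ⋃ i ∈ s, Ioo (a i) (b i)) ≤ ENNReal.ofReal v) :
    Real.pi / 8 - v / 2 ≤ ∑ i ∈ s, ∫ x in (a i)..(b i), √(x * (1 - x)) := by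
  have hc : Continuous (fun x : ℝ => √(x * (1 - x))) := by fun_prop
  have hi : IntegrableOn (fun x : ℝ => √(x * (1 - x))) (Icc 0 1) :=
    hc.continuousOn.integrableOn_Icc
  have h1 := SBV_split s a b _ hi ha hab hb hdis
  have h3 : ∫ x in Icc (0:ℝ) 1, √(x * (1 - x)) = Real.pi / 8 := by
    rw [integral_Icc_eq_integral_Ioc, ← intervalIntegral.integral_of_le zero_le_one, SBV_sq_int]
  have hmeas : MeasurableSet (Icc (0:ℝ) 1 \ ⋃ i ∈ s, Ioo (a i) (b i)) :=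
    measurableSet_Icc.diff (Finset.measurableSet_biUnion _ fun i _ => measurableSet_Ioo)
  have hfin : volume (Icc (0:ℝ) 1 \ ⋃ i ∈ s, Ioo (a i) (b i)) ≠ ⊤ :=
    ne_top_of_le_ne_top ENNReal.ofReal_ne_top hvol
  have h4 : ∫ x in Icc (0:ℝ) 1 \ ⋃ i ∈ s, Ioo (a i) (b i), √(x * (1 - x)) ≤
      ∫ x in Icc (0:ℝ) 1 \ ⋃ i ∈ s, Ioo (a i) (b i), (1 / 2 : ℝ) := by
    refine setIntegral_mono_on (hi.mono_set sdiff_subset) (integrableOn_const hfin) hmeas ?_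
    intro x _
    rw [Real.sqrt_le_left (by norm_num)]
    nlinarith [sq_nonneg (x - 1 / 2)]
  rw [setIntegral_const] at h4
  have h5 : (volume (Icc (0:ℝ) 1 \ ⋃ i ∈ s, Ioo (a i) (b i))).toReal ≤ v :=
    ENNReal.toReal_le_of_le_ofReal hv hvol
  rw [h1, h3]
  simp only [Measure.real, smul_eq_mul] at h4
  linarith

end Pool.H52.MQ
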