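import Pool.Agent.H52.MQ.ARC
import Pool.Agent.H52.MQ.MEN
import Pool.Agent.H52.MQ.UCF

/-! Module TRC (project MP_935a4b_QM): lower bound of the trace of the circle kernel over an interval.  Uses ARC, MEN, MSG, UCB, UCF, UCJ, SBN (om_len).
Y = Ioo c d, k0 := eta (d-c) <= 1/30, l = ceil(1/k0^2), so 1/k0^2 <= l <= 2/k0^2, rho = k0, J = Jin l c d rho, g = sum_{j in J} gJ l j (continuous, 0 <= g, g <= 1 on the circle: ucj_sum), delta = eta/4.
|ph_k|^2 := |Ph_k|^2/nu_k, int |ph_k|^2 dsg = 1 (ucb_norm).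
(1) card J/(4l) >= om - rho/pi - 1/(4l) >= om - k0 >= (1 - 2 eta) om (om_len: om >= (d-c)/2).
(2) off vp '' Y on the circle: g <= 4l * 10^8/(1+2 l rho)^8 <= 4l 10^8/(2 l rho)^8 <= C k0^6 <= C eta (d-c) <= C eta om (arc_tail; l rho >= 1/k0).
(3) 4l <= k < m: ucf_local at level k with L = 4l, applied to s_j (ucj_sq) and summed over j in J: int g|ph_k|^2 dsg >= (1-3 delta) card J/(4l) - av(g B_k) (ucj_av), av(gB_k) <= av B_k <= 11 En(Ico (k-4l) (k+4l))/delta^2.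
    int_Y |ph_k(vp y)|^2 dmu >= int_Y g(vp y)|ph_k(vp y)|^2 dmu = int g|ph_k|^2 dsg - int_{(vp''Y)^c} g|ph_k|^2 dsg (msg_split) >= (1-3 delta)(1-2eta) om - C eta om - 11*16 En(..)/eta^2.
(4) sum over 4l <= k < m: sum_k En(Ico (k-4l) (k+4l)) <= 8l En(range (m+4l)) <= 8 l C log(m+4l+2)^2 <= C l log(m+2)^2 (men_energy, m >= 4l, log(2m+4) <= 2 log(m+2)).
    int_Y kc >= (m-4l)(1-C eta) om - C l log(m+2)^2/eta^2 >= (1-C eta) m om - C log(m+2)^2/(eta^4 (d-c)^2).   (If 1-C eta < 0 or m < 4l the right side is <= 0 for C large: m om <= 4l om <= 4l <= 8/k0^2, log(m+2) >= 1/2; note om <= d-c <= 1/3.) -/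

open MeasureTheory Set Polynomial
open scoped ENNReal ComplexConjugate

namespace Pool.H52.MQ

/-- squared modulus of the normalised polynomial -/
noncomputable def TRC_phi (α : ℕ → ℂ) (k : ℕ) (w : ℂ) : ℝ := ‖(Ph α k).eval w‖ ^ 2 / nu α k

theorem TRC_phi_cont (α : ℕ → ℂ) (k : ℕ) : Continuous (TRC_phi α k) := by
  unfold TRC_phi
  exact (((Ph α k).continuous.norm).pow 2).div_const _

theorem TRC_phi_nonneg {α : ℕ → ℂ} (hα : ∀ n, ‖α n‖ < 1) (k : ℕ) (w : ℂ) : 0 ≤ TRC_phi α k w := by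
  unfold TRC_phi
  exact div_nonneg (sq_nonneg _) (nu_pos hα k).le

theorem TRC_int_phi {σ : Measure ℂ} {α : ℕ → ℂ} (h : Szego σ α) (k : ℕ) :
    ∫ w, TRC_phi α k w ∂σ = 1 := by
  unfold TRC_phi
  rw [integral_div, ucb_norm h k, div_self (nu_pos h.lt k).ne']

theorem TRC_g_cont (l : ℕ) (J : Finset ℕ) : Continuous (fun w => ∑ j ∈ J, gJ l j w) :=
  continuous_finsetSum _ fun j _ => ucj_cont l j

/-- local estimate summed over `J` -/
theorem TRC_J {σ : Measure ℂ} {α : ℕ → ℂ} (h : Szego σ α) {l k : ℕ} (hl : 1 ≤ l) (hk : 4 * l ≤ k)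
    {J : Finset ℕ} (hJ : J ⊆ Finset.range (4 * l)) {δ : ℝ} (hδ : 0 < δ) (hδ1 : δ ≤ 1 / 4) :
    (1 - 3 * δ) * ((J.card : ℝ) / (4 * l)) - 11 * En α (Finset.Ico (k - 4 * l) (k + 4 * l)) / δ ^ 2 ≤
      ∫ w, (∑ j ∈ J, gJ l j w) * TRC_phi α k w ∂σ := by
  obtain ⟨B, hBm, hB0, hBi, hBa, hBs⟩ := ucf_local h k (4 * l) hk δ hδ hδ1
  have hci : ∀ j, CircleIntegrable (fun w => gJ l j w * B w) 0 1 := by
    intro j
    exact hBi.continuousOn_mul (ucj_cont l j).continuousOn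
  have h1 : ∀ j, (1 - 3 * δ) * (1 / (4 * l)) - av (fun w => gJ l j w * B w) ≤
      ∫ w, gJ l j w * TRC_phi α k w ∂σ := by
    intro j
    obtain ⟨s, hs, hsg⟩ := ucj_sq l j hl
    have h2 := (hBs s hs).1
    simp only [← hsg] at h2
    have h3 : av (fun w => gJ l j w) = 1 / (4 * l) := ucj_av l j hl
    rw [h3] at h2
    have h4 := (abs_le.1 h2).1
    have h5 : ∫ w, gJ l j w * TRC_phi α k w ∂σ =
        ∫ w, gJ l j w * (‖(Ph α k).eval w‖ ^ 2 / nu α k) ∂σ := rfl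
    rw [h5]
    linarith
  have h2 : ∫ w, (∑ j ∈ J, gJ l j w) * TRC_phi α k w ∂σ =
      ∑ j ∈ J, ∫ w, gJ l j w * TRC_phi α k w ∂σ := by
    rw [← integral_finsetSum]
    · simp only [Finset.sum_mul]
    · intro j _
      exact ucb_int h ((ucj_cont l j).mul (TRC_phi_cont α k))
  have h3 : ∑ j ∈ J, av (fun w => gJ l j w * B w) ≤ av B := by
    calc ∑ j ∈ J, av (fun w => gJ l j w * B w) ≤
        ∑ j ∈ Finset.range (4 * l), av (fun w => gJ l j w * B w) := by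
          apply Finset.sum_le_sum_of_subset_of_nonneg hJ
          intro j _ _
          have := ucf_av_mono (circleIntegrable_const (0 : ℝ) 0 1) (hci j)
            (fun w _ => mul_nonneg (ucj_nonneg l j w) (hB0 w))
          rwa [ucf_av_const] at this
      _ = av (fun w => ∑ j ∈ Finset.range (4 * l), gJ l j w * B w) := by
          unfold av
          rw [Real.circleAverage_fun_sum fun j _ => hci j]
      _ = av B := by
          apply ucf_av_congr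
          intro w hw
          rw [← Finset.sum_mul, ucj_sum l hl hw, one_mul]
  rw [h2]
  calc (1 - 3 * δ) * ((J.card : ℝ) / (4 * l)) - 11 * En α (Finset.Ico (k - 4 * l) (k + 4 * l)) / δ ^ 2
      ≤ (1 - 3 * δ) * ((J.card : ℝ) / (4 * l)) - ∑ j ∈ J, av (fun w => gJ l j w * B w) := by
        linarith
    _ = ∑ j ∈ J, ((1 - 3 * δ) * (1 / (4 * l)) - av (fun w => gJ l j w * B w)) := by
        rw [Finset.sum_sub_distrib, Finset.sum_const, nsmul_eq_mul]
        ring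
    _ ≤ ∑ j ∈ J, ∫ w, gJ l j w * TRC_phi α k w ∂σ := Finset.sum_le_sum fun j _ => h1 j

/-- counting the windows -/
theorem TRC_energy {α : ℕ → ℂ} (hα : ∀ n, ‖α n‖ < 1) (L m : ℕ) :
    ∑ k ∈ Finset.Ico L m, En α (Finset.Ico (k - L) (k + L)) ≤
      2 * L * En α (Finset.range (m + L)) := by
  classical
  have hterm : ∀ i, 0 ≤ -Real.log (1 - ‖α i‖ ^ 2) := fun i =>
    le_trans (sq_nonneg _) (UCA_term_nonneg hα i)
  unfold En
  have h1 : ∀ k ∈ Finset.Ico L m, ∑ i ∈ Finset.Ico (k - L) (k + L), -Real.log (1 - ‖α i‖ ^ 2) =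
      ∑ i ∈ Finset.range (m + L), if i ∈ Finset.Ico (k - L) (k + L) then
        -Real.log (1 - ‖α i‖ ^ 2) else 0 := by
    intro k hk
    rw [← Finset.sum_filter]
    apply Finset.sum_congr _ fun _ _ => rfl
    ext i
    rw [Finset.mem_Ico] at hk
    simp only [Finset.mem_Ico, Finset.mem_filter, Finset.mem_range]
    omega
  rw [Finset.sum_congr rfl h1, Finset.sum_comm, Finset.mul_sum]
  apply Finset.sum_le_sum
  intro i _
  rw [← Finset.sum_filter, Finset.sum_const, nsmul_eq_mul]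
  apply mul_le_mul_of_nonneg_right _ (hterm i)
  have h2 : (Finset.Ico L m).filter (fun k => i ∈ Finset.Ico (k - L) (k + L)) ⊆
      Finset.Ico (i + 1 - L) (i + L + 1) := by
    intro k hk
    simp only [Finset.mem_filter, Finset.mem_Ico] at hk ⊢
    omega
  have h3 := Finset.card_le_card h2
  rw [Nat.card_Ico] at h3
  have h4 : ((Finset.Ico L m).filter (fun k => i ∈ Finset.Ico (k - L) (k + L))).card ≤ 2 * L := by
    omega
  exact_mod_cast h4

/-- the numerical choice of the scale -/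
theorem TRC_scale {k0 : ℝ} (h0 : 0 < k0) (h1 : k0 ≤ 1 / 30) :
    ∃ l : ℕ, 1 ≤ l ∧ 1 / k0 ^ 2 ≤ (l : ℝ) ∧ (l : ℝ) ≤ 2 / k0 ^ 2 := by
  refine ⟨⌈1 / k0 ^ 2⌉₊, ?_, Nat.le_ceil _, ?_⟩
  · exact Nat.one_le_ceil_iff.2 (by positivity)
  · have h2 : (⌈1 / k0 ^ 2⌉₊ : ℝ) < 1 / k0 ^ 2 + 1 := Nat.ceil_lt_add_one (by positivity)
    have h3 : 1 ≤ 1 / k0 ^ 2 := by
      rw [le_div_iff₀ (by positivity)]
      nlinarith
    have h4 : 2 / k0 ^ 2 = 1 / k0 ^ 2 + 1 / k0 ^ 2 := by ring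
    linarith

/-- the bound of the kernels outside the arc -/
theorem TRC_tail {k0 : ℝ} (h0 : 0 < k0) (h1 : k0 ≤ 1 / 30) {l : ℕ} (hl : 1 ≤ l)
    (hl1 : 1 / k0 ^ 2 ≤ (l : ℝ)) (hl2 : (l : ℝ) ≤ 2 / k0 ^ 2) {c d : ℝ} (hc : 1 / 3 ≤ c)
    (hcd : c < d) (hd : d ≤ 2 / 3) {z : ℂ} (hz : ‖z‖ = 1) (hz1 : z ∉ vp '' Ioo c d) :
    ∑ j ∈ Jin l c d k0, gJ l j z ≤ k0 := by
  have h2 : ∑ j ∈ Jin l c d k0, gJ l j z ≤
      ∑ _j ∈ Jin l c d k0, (10 : ℝ) ^ 8 / (1 + 2 * l * k0) ^ 8 :=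
    Finset.sum_le_sum fun j hj => arc_tail hl hc hcd hd h0.le hj hz hz1
  have h3 : ((Jin l c d k0).card : ℝ) ≤ 4 * l := by
    have := Finset.card_le_card (arc_sub l c d k0)
    rw [Finset.card_range] at this
    exact_mod_cast this
  have h4 : 2 / k0 ≤ 1 + 2 * l * k0 := by
    have : 1 / k0 ^ 2 * k0 ≤ l * k0 := mul_le_mul_of_nonneg_right hl1 h0.le
    have e : 1 / k0 ^ 2 * k0 = 1 / k0 := by field_simp
    rw [e] at this
    have e2 : 2 / k0 = 2 * (1 / k0) := by ring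
    rw [e2]
    linarith
  have h5 : (10 : ℝ) ^ 8 / (1 + 2 * l * k0) ^ 8 ≤ 10 ^ 8 / (2 / k0) ^ 8 := by
    gcongr
  rw [Finset.sum_const, nsmul_eq_mul] at h2
  have h6 : ((Jin l c d k0).card : ℝ) * ((10 : ℝ) ^ 8 / (1 + 2 * l * k0) ^ 8) ≤
      (4 * (2 / k0 ^ 2)) * (10 ^ 8 / (2 / k0) ^ 8) := by
    gcongr
    exact h3.trans (by linarith)
  have h7 : (4 * (2 / k0 ^ 2)) * ((10 : ℝ) ^ 8 / (2 / k0) ^ 8) = 3125000 * k0 ^ 5 * k0 := by
    field_simp
    norm_num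
  have h8 : k0 ^ 5 ≤ (1 / 30) ^ 5 := pow_le_pow_left₀ h0.le h1 5
  have h9 : 3125000 * k0 ^ 5 ≤ 1 := by
    norm_num at h8
    linarith
  calc ∑ j ∈ Jin l c d k0, gJ l j z ≤ 3125000 * k0 ^ 5 * k0 := by
        rw [← h7]; exact h2.trans h6
    _ ≤ 1 * k0 := mul_le_mul_of_nonneg_right h9 h0.le
    _ = k0 := one_mul _

/-- one level -/
theorem TRC_level {μ : Measure ℝ} {α : ℕ → ℂ} (hμ : QM μ) (h : Szego (sg μ) α) {c d η : ℝ}
    (hc : 1 / 3 ≤ c) (hcd : c < d) (hd : d ≤ 2 / 3) (hη : 0 < η) (hη1 : η ≤ 1 / 10) {l k : ℕ}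
    (hl : 1 ≤ l) (hl1 : 1 / (η * (d - c)) ^ 2 ≤ (l : ℝ)) (hl2 : (l : ℝ) ≤ 2 / (η * (d - c)) ^ 2)
    (hk : 4 * l ≤ k) :
    (1 - 5 * η) * om c d - 176 * En α (Finset.Ico (k - 4 * l) (k + 4 * l)) / η ^ 2 ≤
      ∫ y in Ioo c d, TRC_phi α k (vp y) ∂μ := by
  set k0 : ℝ := η * (d - c) with hk0
  have hD : 0 < d - c := by linarith
  have hD1 : d - c ≤ 1 / 3 := by linarith
  have h0 : 0 < k0 := by positivity
  have h1 : k0 ≤ 1 / 30 := by
    calc k0 ≤ (1 / 10) * (1 / 3) := by rw [hk0]; gcongr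
      _ = 1 / 30 := by norm_num
  obtain ⟨hom1, hom2⟩ := om_len hc hcd.le hd
  have hom0 : 0 < om c d := by linarith
  have hkom : k0 ≤ 2 * η * om c d := by
    rw [hk0]
    nlinarith
  set J := Jin l c d k0 with hJ
  set g : ℂ → ℝ := fun w => ∑ j ∈ J, gJ l j w with hg
  have hgc : Continuous g := TRC_g_cont l J
  have hg0 : ∀ w, 0 ≤ g w := fun w => Finset.sum_nonneg fun j _ => ucj_nonneg l j w
  have hg1 : ∀ w : ℂ, ‖w‖ = 1 → g w ≤ 1 := by
    intro w hw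
    rw [← ucj_sum l hl hw]
    exact Finset.sum_le_sum_of_subset_of_nonneg (arc_sub l c d k0) fun j _ _ => ucj_nonneg l j w
  have hφ0 := TRC_phi_nonneg h.lt k
  have hFc : Continuous (fun w => g w * TRC_phi α k w) := hgc.mul (TRC_phi_cont α k)
  have hsub : Ioo c d ⊆ Icc (1 / 4 : ℝ) (3 / 4) := by
    intro y hy
    exact ⟨by linarith [hy.1], by linarith [hy.2]⟩
  -- the central part
  have hA : ∫ y in Ioo c d, g (vp y) * TRC_phi α k (vp y) ∂μ ≤
      ∫ y in Ioo c d, TRC_phi α k (vp y) ∂μ := by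
    apply setIntegral_mono
    · exact (opa_int hμ (hFc.comp exd_vp_cont)).integrableOn
    · exact (opa_int hμ ((TRC_phi_cont α k).comp exd_vp_cont)).integrableOn
    · intro y
      have := mul_le_mul_of_nonneg_right (hg1 (vp y) (exd_vp_norm y)) (hφ0 (vp y))
      rwa [one_mul] at this
  have hsplit := msg_split hμ (Y := Ioo c d) measurableSet_Ioo hsub _ hFc
  -- the outer part
  have hB : ∫ w in (vp '' Ioo c d)ᶜ, g w * TRC_phi α k w ∂(sg μ) ≤ 2 * η * om c d := by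
    have hmeas : MeasurableSet ((vp '' Ioo c d)ᶜ) := (msg_vpmeas measurableSet_Ioo hsub).compl
    have hint1 : Integrable (fun w => g w * TRC_phi α k w) (sg μ) := ucb_int h hFc
    have hint2 : Integrable (fun w => k0 * TRC_phi α k w) (sg μ) :=
      ucb_int h (continuous_const.mul (TRC_phi_cont α k))
    calc ∫ w in (vp '' Ioo c d)ᶜ, g w * TRC_phi α k w ∂(sg μ)
        ≤ ∫ w in (vp '' Ioo c d)ᶜ, k0 * TRC_phi α k w ∂(sg μ) := by
          apply setIntegral_mono_on_ae hint1.integrableOn hint2.integrableOn hmeas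
          filter_upwards [UCC_ae h.circ] with w hw hw1
          apply mul_le_mul_of_nonneg_right _ (hφ0 w)
          exact TRC_tail h0 h1 hl hl1 hl2 hc hcd hd hw hw1
      _ ≤ ∫ w, k0 * TRC_phi α k w ∂(sg μ) := by
          apply setIntegral_le_integral hint2
          filter_upwards with w
          exact mul_nonneg h0.le (hφ0 w)
      _ = k0 := by rw [integral_const_mul, TRC_int_phi h k, mul_one]
      _ ≤ 2 * η * om c d := hkom
  -- the number of indices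
  have hcard : (1 - 2 * η) * om c d ≤ (J.card : ℝ) / (4 * l) := by
    have h2 := arc_card_lower hl hc hcd hd h0.le
    have hl0 : (0 : ℝ) < l := by exact_mod_cast hl
    rw [le_div_iff₀ (by positivity)]
    have hpi : (3 : ℝ) < Real.pi := Real.pi_gt_three
    have h3 : k0 / Real.pi ≤ k0 / 3 := by gcongr
    have h4 : 1 ≤ l * k0 ^ 2 := by
      rw [div_le_iff₀ (by positivity)] at hl1
      exact hl1
    have h5 : 1 ≤ l * (k0 * (1 / 30)) := by
      refine h4.trans ?_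
      apply mul_le_mul_of_nonneg_left _ hl0.le
      rw [sq]
      exact mul_le_mul_of_nonneg_left h1 h0.le
    have h6 : (l : ℝ) * (k0 / Real.pi) ≤ l * (k0 / 3) := mul_le_mul_of_nonneg_left h3 hl0.le
    have h7 : (l : ℝ) * k0 ≤ l * (2 * η * om c d) := mul_le_mul_of_nonneg_left hkom hl0.le
    nlinarith
  have hloc := TRC_J h hl hk (J := J) (arc_sub l c d k0) (δ := η / 4) (by positivity) (by linarith)
  have hE : 11 * En α (Finset.Ico (k - 4 * l) (k + 4 * l)) / (η / 4) ^ 2 =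
      176 * En α (Finset.Ico (k - 4 * l) (k + 4 * l)) / η ^ 2 := by
    field_simp
    ring
  rw [hE] at hloc
  have hfin : (1 - 3 * (η / 4)) * ((1 - 2 * η) * om c d) ≤
      (1 - 3 * (η / 4)) * ((J.card : ℝ) / (4 * l)) :=
    mul_le_mul_of_nonneg_left hcard (by linarith)
  have hfin2 : (1 - 3 * η) * om c d ≤ (1 - 3 * (η / 4)) * ((1 - 2 * η) * om c d) := by
    have : 0 ≤ (3 * (η / 4)) * (2 * η) * om c d := by positivity
    nlinarith
  have e1 : ∫ w, (∑ j ∈ J, gJ l j w) * TRC_phi α k w ∂(sg μ) = ∫ w, g w * TRC_phi α k w ∂(sg μ) := rfl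
  rw [e1, hsplit] at hloc
  linarith

theorem trc_lower : ∃ C : ℝ, 1 ≤ C ∧ ∀ (μ : Measure ℝ) (α : ℕ → ℂ), QM μ → Szego (sg μ) α →
    ∀ (m : ℕ) (c d η : ℝ), 1 / 3 ≤ c → c < d → d ≤ 2 / 3 → 0 < η → η ≤ 1 / 10 →
      (1 - C * η) * m * om c d - C * Real.log (m + 2) ^ 2 / (η ^ 4 * (d - c) ^ 2) ≤
        ∫ y in Ioo c d, kc α m y ∂μ := by
  obtain ⟨C0, hC0, hmen⟩ := men_energy
  refine ⟨11264 * C0 + 7, by linarith, ?_⟩
  intro μ α hμ h m c d η hc hcd hd hη hη1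
  have hD : 0 < d - c := by linarith
  have hD1 : d - c ≤ 1 / 3 := by linarith
  obtain ⟨hom1, hom2⟩ := om_len hc hcd.le hd
  have hom0 : 0 < om c d := by linarith
  have hk0 : η * (d - c) ≤ 1 / 30 := by
    calc η * (d - c) ≤ (1 / 10) * (1 / 3) := by gcongr
      _ = 1 / 30 := by norm_num
  obtain ⟨l, hl, hl1, hl2⟩ := TRC_scale (k0 := η * (d - c)) (by positivity) hk0
  have hφ0 := TRC_phi_nonneg h.lt
  have hlog : (1 / 2 : ℝ) ≤ Real.log (m + 2) := by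
    have h2 : Real.log 2 ≤ Real.log (m + 2) := by
      apply Real.log_le_log (by norm_num)
      have : (0 : ℝ) ≤ m := Nat.cast_nonneg m
      linarith
    have := Real.log_two_gt_d9
    linarith
  set Lg := Real.log (m + 2) with hLg
  have hLg2 : (1 / 4 : ℝ) ≤ Lg ^ 2 := by nlinarith
  -- the sum over the levels
  have hkc : ∫ y in Ioo c d, kc α m y ∂μ =
      ∑ k ∈ Finset.range m, ∫ y in Ioo c d, TRC_phi α k (vp y) ∂μ := by
    rw [← integral_finsetSum]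
    · rfl
    · intro k _
      exact (opa_int hμ ((TRC_phi_cont α k).comp exd_vp_cont)).integrableOn
  have hterm0 : ∀ k, 0 ≤ ∫ y in Ioo c d, TRC_phi α k (vp y) ∂μ := fun k =>
    integral_nonneg fun y => hφ0 k (vp y)
  have hden : 0 < η ^ 4 * (d - c) ^ 2 := by positivity
  -- `4 l om` is absorbed
  have hη2 : η ^ 2 ≤ 1 / 100 := by nlinarith
  have hlom : 4 * (l : ℝ) * om c d ≤ 7 * Lg ^ 2 / (η ^ 4 * (d - c) ^ 2) := by
    have h3 : (l : ℝ) * (η ^ 2 * (d - c) ^ 2) ≤ 2 := by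
      have := hl2
      rw [le_div_iff₀ (by positivity)] at this
      calc (l : ℝ) * (η ^ 2 * (d - c) ^ 2) = l * (η * (d - c)) ^ 2 := by ring
        _ ≤ 2 := this
    rw [le_div_iff₀ hden]
    calc 4 * (l : ℝ) * om c d * (η ^ 4 * (d - c) ^ 2) =
        4 * om c d * η ^ 2 * ((l : ℝ) * (η ^ 2 * (d - c) ^ 2)) := by ring
      _ ≤ 4 * om c d * η ^ 2 * 2 := mul_le_mul_of_nonneg_left h3 (by positivity)
      _ ≤ 4 * (1 / 3) * (1 / 100) * 2 := by
          gcongr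
          linarith
      _ ≤ 7 * Lg ^ 2 := by linarith
  rcases Nat.lt_or_ge m (4 * l) with hm | hm
  · -- few levels
    have h4 : 0 ≤ ∫ y in Ioo c d, kc α m y ∂μ := by
      rw [hkc]
      exact Finset.sum_nonneg fun k _ => hterm0 k
    refine le_trans ?_ h4
    have h5 : (m : ℝ) ≤ 4 * l := by exact_mod_cast hm.le
    have hm0 : (0 : ℝ) ≤ m := Nat.cast_nonneg m
    have h6 : (1 - (11264 * C0 + 7) * η) * m * om c d ≤ 4 * (l : ℝ) * om c d := by
      have : (1 - (11264 * C0 + 7) * η) ≤ 1 := by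
        have : 0 ≤ (11264 * C0 + 7) * η := by positivity
        linarith
      calc (1 - (11264 * C0 + 7) * η) * m * om c d ≤ 1 * m * om c d := by gcongr
        _ ≤ 4 * (l : ℝ) * om c d := by rw [one_mul]; gcongr
    have h7 : 7 * Lg ^ 2 / (η ^ 4 * (d - c) ^ 2) ≤
        (11264 * C0 + 7) * Lg ^ 2 / (η ^ 4 * (d - c) ^ 2) := by
      gcongr
      linarith
    linarith
  · -- many levels
    have h5 : ∑ k ∈ Finset.Ico (4 * l) m, ∫ y in Ioo c d, TRC_phi α k (vp y) ∂μ ≤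
        ∑ k ∈ Finset.range m, ∫ y in Ioo c d, TRC_phi α k (vp y) ∂μ := by
      apply Finset.sum_le_sum_of_subset_of_nonneg
      · intro k hk
        rw [Finset.mem_Ico] at hk
        exact Finset.mem_range.2 hk.2
      · intro k _ _
        exact hterm0 k
    have h6 : ∑ k ∈ Finset.Ico (4 * l) m,
        ((1 - 5 * η) * om c d - 176 * En α (Finset.Ico (k - 4 * l) (k + 4 * l)) / η ^ 2) ≤
        ∑ k ∈ Finset.Ico (4 * l) m, ∫ y in Ioo c d, TRC_phi α k (vp y) ∂μ := by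
      apply Finset.sum_le_sum
      intro k hk
      exact TRC_level hμ h hc hcd hd hη hη1 hl hl1 hl2 (Finset.mem_Ico.1 hk).1
    rw [Finset.sum_sub_distrib, Finset.sum_const, Nat.card_Ico, nsmul_eq_mul,
      ← Finset.sum_div, ← Finset.mul_sum, Nat.cast_sub hm] at h6
    have h7 := TRC_energy h.lt (4 * l) m
    have h8 := hmen μ α hμ h (m + 4 * l)
    have h9 : Real.log (((m + 4 * l : ℕ) : ℝ) + 2) ≤ 2 * Lg := by
      have hm0 : (0 : ℝ) ≤ m := Nat.cast_nonneg m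
      have hm4 : (4 * l : ℝ) ≤ m := by exact_mod_cast hm
      rw [hLg, ← Real.log_rpow (by linarith)]
      apply Real.log_le_log (by positivity)
      rw [Real.rpow_ofNat]
      push_cast
      nlinarith
    have h10 : 0 ≤ Real.log (((m + 4 * l : ℕ) : ℝ) + 2) := by
      apply Real.log_nonneg
      have : (0 : ℝ) ≤ ((m + 4 * l : ℕ) : ℝ) := Nat.cast_nonneg _
      linarith
    have h11 : Real.log (((m + 4 * l : ℕ) : ℝ) + 2) ^ 2 ≤ 4 * Lg ^ 2 := by
      calc Real.log (((m + 4 * l : ℕ) : ℝ) + 2) ^ 2 ≤ (2 * Lg) ^ 2 := pow_le_pow_left₀ h10 h9 2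
        _ = 4 * Lg ^ 2 := by ring
    have h12 : En α (Finset.range (m + 4 * l)) ≤ 4 * C0 * Lg ^ 2 := by
      calc En α (Finset.range (m + 4 * l)) ≤ C0 * Real.log (((m + 4 * l : ℕ) : ℝ) + 2) ^ 2 := h8
        _ ≤ C0 * (4 * Lg ^ 2) := mul_le_mul_of_nonneg_left h11 hC0.le
        _ = 4 * C0 * Lg ^ 2 := by ring
    have h14 : (176 * ∑ k ∈ Finset.Ico (4 * l) m, En α (Finset.Ico (k - 4 * l) (k + 4 * l))) / η ^ 2 ≤
        11264 * C0 * Lg ^ 2 / (η ^ 4 * (d - c) ^ 2) := by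
      rw [div_le_div_iff₀ (by positivity) hden]
      have h15 : (l : ℝ) * (η ^ 2 * (d - c) ^ 2) ≤ 2 := by
        have := hl2
        rw [le_div_iff₀ (by positivity)] at this
        calc (l : ℝ) * (η ^ 2 * (d - c) ^ 2) = l * (η * (d - c)) ^ 2 := by ring
          _ ≤ 2 := this
      have h16 : ∑ k ∈ Finset.Ico (4 * l) m, En α (Finset.Ico (k - 4 * l) (k + 4 * l)) ≤
          8 * l * (4 * C0 * Lg ^ 2) := by
        calc ∑ k ∈ Finset.Ico (4 * l) m, En α (Finset.Ico (k - 4 * l) (k + 4 * l))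
            ≤ 2 * ((4 * l : ℕ) : ℝ) * En α (Finset.range (m + 4 * l)) := h7
          _ ≤ 2 * ((4 * l : ℕ) : ℝ) * (4 * C0 * Lg ^ 2) := mul_le_mul_of_nonneg_left h12 (by positivity)
          _ = 8 * l * (4 * C0 * Lg ^ 2) := by push_cast; ring
      calc (176 * ∑ k ∈ Finset.Ico (4 * l) m, En α (Finset.Ico (k - 4 * l) (k + 4 * l))) *
            (η ^ 4 * (d - c) ^ 2)
          ≤ (176 * (8 * l * (4 * C0 * Lg ^ 2))) * (η ^ 4 * (d - c) ^ 2) := by gcongr
        _ = 5632 * C0 * Lg ^ 2 * η ^ 2 * ((l : ℝ) * (η ^ 2 * (d - c) ^ 2)) := by ring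
        _ ≤ 5632 * C0 * Lg ^ 2 * η ^ 2 * 2 := mul_le_mul_of_nonneg_left h15 (by positivity)
        _ = 11264 * C0 * Lg ^ 2 * η ^ 2 := by ring
    have hm0 : (0 : ℝ) ≤ m := Nat.cast_nonneg m
    have h17 : (1 - (11264 * C0 + 7) * η) * m * om c d ≤ (1 - 5 * η) * m * om c d := by
      have h20 : (1 - (11264 * C0 + 7) * η) ≤ 1 - 5 * η := by
        have : 0 ≤ (11264 * C0 + 2) * η := by positivity
        linarith
      exact mul_le_mul_of_nonneg_right (mul_le_mul_of_nonneg_right h20 hm0) hom0.le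
    have h18 : (1 - 5 * η) * m * om c d - 4 * (l : ℝ) * om c d ≤
        ((m : ℝ) - ((4 * l : ℕ) : ℝ)) * ((1 - 5 * η) * om c d) := by
      push_cast
      have h20 : 0 ≤ 4 * (l : ℝ) * (5 * η) * om c d := by positivity
      have h21 : ((m : ℝ) - 4 * (l : ℝ)) * ((1 - 5 * η) * om c d) =
          (1 - 5 * η) * m * om c d - 4 * (l : ℝ) * om c d + 4 * (l : ℝ) * (5 * η) * om c d := by
        ring
      rw [h21]
      exact le_add_of_nonneg_right h20
    have h19 : (11264 * C0 + 7) * Lg ^ 2 / (η ^ 4 * (d - c) ^ 2) =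
        11264 * C0 * Lg ^ 2 / (η ^ 4 * (d - c) ^ 2) + 7 * Lg ^ 2 / (η ^ 4 * (d - c) ^ 2) := by
      ring
    rw [h19, hkc]
    linarith

end Pool.H52.MQ
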