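import Pool.Agent.H52.MQ.EXD
import Pool.Agent.H52.MQ.OPC
import Pool.Agent.H52.MQ.OPT
import Pool.Agent.H52.MQ.TRC
import Pool.Agent.H52.MQ.SBV

/-! Module EXC (project MP_935a4b_QM): total excess.  Uses EXD, OPA, OPC (opc_int), OPT (opt_image), TRC, SBN (nn_var, rs_om, om_len), SBV (om_cover).
Y_i = Ioo (c i) (d i), N_i = NN n (w i) (c i).
(1) sum_i int_{Y_i} kap(y,y) dmu = sum_i int_{gam (w i) '' Y_i} KK x x dmu (opc_int) <= int KK x x dmu = n (disjoint images, KK x x >= 0, opa_diag).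
(2) trc_lower (eta <= 1/100): int_{Y_i} kc >= (1-C eta) m_i om_i - C log(m_i+2)^2/(eta^4 (d_i-c_i)^2), m_i >= (1-4 eta) N_i.
    rs_om at y = c_i: n om(gam c_i, gam d_i) <= (1+C eta) N_i om_i (d_i-c_i <= eta), and sum_i om(gam c_i, gam d_i) >= 1 - 2 sqrt v (om_cover; opt_image).
    So if 1-C eta >= 0: sum_i (1-C eta)(1-4 eta) N_i om_i >= (1-C eta)(1-4 eta)/(1+C eta) n (1-2 sqrt v) >= n (1 - C' eta - 2 sqrt v).   If 1-C eta < 0 the claim follows from kc >= 0: the right side is >= C eta n >= n for C large.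
(3) exq <= kap - kc + tau (1+kap) on Y_i; integrate (exd_cont, continuity of kc and of y -> kap y y on [0,1]; mu(Y_i) <= 1) and sum:
    sum int exq <= n - [n(1-C' eta-2 sqrt v) - sum C log^2/(..)] + tau (card s + n). -/

open MeasureTheory Set Polynomial
open scoped ENNReal ComplexConjugate

namespace Pool.H52.MQ

private lemma EXC_intOn {μ : Measure ℝ} (hμ : QM μ) {f : ℝ → ℝ} (hf : ContinuousOn f (Icc 0 1)) {c d : ℝ}
    (hc : 0 ≤ c) (hd : d ≤ 1) : IntegrableOn f (Ioo c d) μ := by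
  have := hμ.prob
  have h1 : IntegrableOn f (Icc 0 1) μ := hf.integrableOn_compact isCompact_Icc
  exact h1.mono_set (fun x hx => ⟨hc.trans hx.1.le, hx.2.le.trans hd⟩)

private lemma EXC_kap (p : ℕ → ℝ[X]) (n : ℕ) (w : List Bool) :
    ContinuousOn (fun y => kap p n w y y) (Icc 0 1) := by
  have h1 := exd_kap_cont p n w
  refine ContinuousOn.comp (g := fun z : ℝ × ℝ => kap p n w z.1 z.2) (f := fun y : ℝ => (y, y)) h1
    (continuous_id.prodMk continuous_id).continuousOn (fun y hy => ⟨hy, hy⟩)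

private lemma EXC_sum_kap {μ : Measure ℝ} (hμ : QM μ) {p : ℕ → ℝ[X]} {a b : ℕ → ℝ} (hp : IsJacobi μ p a b)
    (n : ℕ) {ι : Type} (s : Finset ι) (w : ι → List Bool) (c d : ι → ℝ)
    (hcd : ∀ i ∈ s, 0 ≤ c i ∧ c i < d i ∧ d i ≤ 1)
    (hdis : ∀ i ∈ s, ∀ i' ∈ s, i ≠ i' →
        Disjoint (gam (w i) '' Ioo (c i) (d i)) (gam (w i') '' Ioo (c i') (d i'))) :
    ∑ i ∈ s, ∫ y in Ioo (c i) (d i), kap p n (w i) y y ∂μ ≤ n := by
  have hKc : Continuous (fun x => KK p n x x) := (opa_cont p n).comp (continuous_id.prodMk continuous_id)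
  have hKi : Integrable (fun x => KK p n x x) μ := opa_int hμ hKc
  have h1 : ∀ i ∈ s, ∫ y in Ioo (c i) (d i), kap p n (w i) y y ∂μ =
      ∫ x in gam (w i) '' Ioo (c i) (d i), KK p n x x ∂μ := fun i hi =>
    opc_int hμ p n (w i) (hcd i hi).1 (hcd i hi).2.2
  rw [Finset.sum_congr rfl h1, ← integral_biUnion_finset s]
  · refine (setIntegral_le_integral hKi (Filter.Eventually.of_forall fun x => opa_nonneg p n x)).trans ?_
    rw [opa_diag hμ hp n]
  · intro i hi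
    rw [opt_image (w i) (hcd i hi).1 (hcd i hi).2.1 (hcd i hi).2.2]
    exact measurableSet_Ioo
  · intro i hi i' hi' hne
    exact hdis i hi i' hi' hne
  · intro i hi
    exact hKi.integrableOn

theorem exc_total : ∃ C : ℝ, 1 ≤ C ∧ ∀ (μ : Measure ℝ) (p : ℕ → ℝ[X]) (a b : ℕ → ℝ) (α : ℕ → ℂ),
    QM μ → IsJacobi μ p a b → Szego (sg μ) α →
    ∀ (n : ℕ) (ι : Type) (s : Finset ι) (w : ι → List Bool) (c d : ι → ℝ) (m r : ι → ℕ) (η τ v : ℝ),
      1 ≤ n → 0 < η → η ≤ 1 / 100 → 0 ≤ τ → 0 ≤ v →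
      (∀ i ∈ s, 1 / 3 ≤ c i ∧ c i < d i ∧ d i ≤ 2 / 3 ∧ d i - c i ≤ η) →
      (∀ i ∈ s, ∀ i' ∈ s, i ≠ i' →
        Disjoint (gam (w i) '' Ioo (c i) (d i)) (gam (w i') '' Ioo (c i') (d i'))) →
      volume (Icc (0:ℝ) 1 \ ⋃ i ∈ s, gam (w i) '' Ioo (c i) (d i)) ≤ ENNReal.ofReal v →
      (∀ i ∈ s, (1 - 4 * η) * NN n (w i) (c i) ≤ m i) →
      (∀ i ∈ s, ∀ y ∈ Ioo (c i) (d i), exq μ p α n (m i) (r i) (w i) y ≤
        kap p n (w i) y y - kc α (m i) y + τ * (1 + kap p n (w i) y y)) →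
      ∑ i ∈ s, ∫ y in Ioo (c i) (d i), exq μ p α n (m i) (r i) (w i) y ∂μ ≤
        C * (η + √v) * n + τ * (s.card + n) +
          ∑ i ∈ s, C * Real.log (m i + 2) ^ 2 / (η ^ 4 * (d i - c i) ^ 2) := by
  obtain ⟨C1, hC1, htr⟩ := trc_lower
  obtain ⟨C2, hC2, hrs⟩ := rs_om
  refine ⟨C1 + C2 + 4, by linarith, ?_⟩
  intro μ p a b α hμ hp hα n ι s w c d m r η τ v hn hη hη1 hτ hv hcd hdis hvol hm hex
  have := hμ.prob
  have hn0 : (0 : ℝ) < n := by exact_mod_cast hn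
  have hcd' : ∀ i ∈ s, 0 ≤ c i ∧ c i < d i ∧ d i ≤ 1 := fun i hi =>
    ⟨by linarith [(hcd i hi).1], (hcd i hi).2.1, by linarith [(hcd i hi).2.2.1]⟩
  have hsv : 0 ≤ √v := Real.sqrt_nonneg v
  set κ : ι → ℝ := fun i => ∫ y in Ioo (c i) (d i), kap p n (w i) y y ∂μ with hκ
  set k : ι → ℝ := fun i => ∫ y in Ioo (c i) (d i), kc α (m i) y ∂μ with hk
  set I : ι → ℝ := fun i => ∫ y in Ioo (c i) (d i), exq μ p α n (m i) (r i) (w i) y ∂μ with hI
  set er : ι → ℝ := fun i => Real.log (m i + 2) ^ 2 / (η ^ 4 * (d i - c i) ^ 2) with her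
  have her0 : ∀ i ∈ s, 0 ≤ er i := by
    intro i hi
    simp only [her]
    positivity
  -- (A)
  have hA : ∀ i ∈ s, I i ≤ κ i - k i + τ * (1 + κ i) := by
    intro i hi
    obtain ⟨h0, h1, h2⟩ := hcd' i hi
    have e1 : IntegrableOn (fun y => exq μ p α n (m i) (r i) (w i) y) (Ioo (c i) (d i)) μ :=
      EXC_intOn hμ (exd_cont hμ p α n (m i) (r i) (w i)) h0 h2
    have e2 : IntegrableOn (fun y => kap p n (w i) y y) (Ioo (c i) (d i)) μ :=
      EXC_intOn hμ (EXC_kap p n (w i)) h0 h2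
    have e3 : IntegrableOn (fun y => kc α (m i) y) (Ioo (c i) (d i)) μ :=
      EXC_intOn hμ (exd_kc_cont α (m i)).continuousOn h0 h2
    have e4 : IntegrableOn (fun _ : ℝ => (1 : ℝ)) (Ioo (c i) (d i)) μ :=
      EXC_intOn hμ continuousOn_const h0 h2
    have e5 : I i ≤ ∫ y in Ioo (c i) (d i), (kap p n (w i) y y - kc α (m i) y +
        τ * (1 + kap p n (w i) y y)) ∂μ := by
      refine setIntegral_mono_on e1 ((e2.sub e3).add ((e4.add e2).const_mul τ)) measurableSet_Ioo ?_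
      intro y hy
      exact hex i hi y hy
    refine e5.trans ?_
    have e6 : ∫ y in Ioo (c i) (d i), (kap p n (w i) y y - kc α (m i) y +
        τ * (1 + kap p n (w i) y y)) ∂μ = κ i - k i + τ * (μ.real (Ioo (c i) (d i)) + κ i) := by
      have f1 : IntegrableOn (fun y => kap p n (w i) y y - kc α (m i) y) (Ioo (c i) (d i)) μ := e2.sub e3
      have f2 : IntegrableOn (fun y => τ * (1 + kap p n (w i) y y)) (Ioo (c i) (d i)) μ :=
        (e4.add e2).const_mul τ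
      rw [integral_add f1 f2, integral_sub e2 e3, integral_const_mul, integral_add e4 e2]
      simp [hκ, hk]
    rw [e6]
    have e7 : μ.real (Ioo (c i) (d i)) ≤ 1 := measureReal_le_one
    have e8 : τ * (μ.real (Ioo (c i) (d i)) + κ i) ≤ τ * (1 + κ i) :=
      mul_le_mul_of_nonneg_left (by linarith) hτ
    linarith
  -- (B)
  have hB : ∑ i ∈ s, κ i ≤ n := EXC_sum_kap hμ hp n s w c d hcd' hdis
  have hk0 : ∀ i ∈ s, 0 ≤ k i := by
    intro i hi
    exact setIntegral_nonneg measurableSet_Ioo (fun y _ => exd_kc_nonneg hα.lt (m i) y)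
  have hsum : ∑ i ∈ s, I i ≤ n - ∑ i ∈ s, k i + τ * (s.card + n) := by
    have h1 : ∑ i ∈ s, I i ≤ ∑ i ∈ s, (κ i - k i + τ * (1 + κ i)) := Finset.sum_le_sum hA
    have h2 : ∑ i ∈ s, (κ i - k i + τ * (1 + κ i)) =
        ∑ i ∈ s, κ i - ∑ i ∈ s, k i + τ * (s.card + ∑ i ∈ s, κ i) := by
      rw [Finset.sum_add_distrib, Finset.sum_sub_distrib, ← Finset.mul_sum, Finset.sum_add_distrib]
      simp
    rw [h2] at h1
    have h3 : τ * (s.card + ∑ i ∈ s, κ i) ≤ τ * (s.card + n) :=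
      mul_le_mul_of_nonneg_left (by linarith) hτ
    linarith
  have herr : ∑ i ∈ s, (C1 + C2 + 4) * Real.log (m i + 2) ^ 2 / (η ^ 4 * (d i - c i) ^ 2) =
      (C1 + C2 + 4) * ∑ i ∈ s, er i := by
    rw [Finset.mul_sum]
    refine Finset.sum_congr rfl fun i _ => ?_
    simp only [her]
    rw [mul_div_assoc]
  rw [herr]
  have hers : 0 ≤ ∑ i ∈ s, er i := Finset.sum_nonneg her0
  refine hsum.trans ?_
  suffices hmain : (n : ℝ) - ∑ i ∈ s, k i ≤ (C1 + C2 + 4) * (η + √v) * n + (C1 + C2 + 4) * ∑ i ∈ s, er i by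
    linarith
  rcases le_or_gt (C1 * η) 1 with hcase | hcase
  · -- main case
    have hC : ∀ i ∈ s, (1 - C1 * η) * (1 - 4 * η) * (NN n (w i) (c i) * om (c i) (d i)) - C1 * er i ≤ k i := by
      intro i hi
      obtain ⟨h0, h1, h2, h3⟩ := hcd i hi
      have h4 := htr μ α hμ hα (m i) (c i) (d i) η h0 h1 h2 hη (by linarith)
      have h5 : 0 ≤ om (c i) (d i) := by
        have := (om_len h0 h1.le h2).1
        linarith
      have h6 : (1 - 4 * η) * NN n (w i) (c i) * om (c i) (d i) ≤ m i * om (c i) (d i) :=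
        mul_le_mul_of_nonneg_right (hm i hi) h5
      have h7 := mul_le_mul_of_nonneg_left h6 (sub_nonneg.2 hcase)
      have h8 : C1 * Real.log (m i + 2) ^ 2 / (η ^ 4 * (d i - c i) ^ 2) = C1 * er i := by
        simp only [her]; rw [mul_div_assoc]
      rw [h8] at h4
      simp only [hk]
      nlinarith
    have hD : ∀ i ∈ s, (n : ℝ) * om (gam (w i) (c i)) (gam (w i) (d i)) ≤
        (1 + C2 * η) * (NN n (w i) (c i) * om (c i) (d i)) := by
      intro i hi
      obtain ⟨h0, h1, h2, h3⟩ := hcd i hi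
      have h4 := hrs n (w i) (c i) (d i) (c i) h0 h1 h2 ⟨le_rfl, h1.le⟩
      have h5 : 0 ≤ om (c i) (d i) := by
        have := (om_len h0 h1.le h2).1
        linarith
      have h6 : 0 ≤ NN n (w i) (c i) := by
        have h7 := (nn_bounds n (w i) (y := c i) ⟨h0, by linarith⟩).2.2.2.2.2.2.1
        exact le_trans (by positivity) h7
      have h7 : 0 ≤ NN n (w i) (c i) * om (c i) (d i) := mul_nonneg h6 h5
      have h8 : (1 + C2 * (d i - c i)) * (NN n (w i) (c i) * om (c i) (d i)) ≤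
          (1 + C2 * η) * (NN n (w i) (c i) * om (c i) (d i)) := by
        apply mul_le_mul_of_nonneg_right _ h7
        have := mul_le_mul_of_nonneg_left h3 (by linarith : (0 : ℝ) ≤ C2)
        linarith
      nlinarith
    have hE : 1 - 2 * √v ≤ ∑ i ∈ s, om (gam (w i) (c i)) (gam (w i) (d i)) := by
      have himg : ∀ i ∈ s, gam (w i) '' Ioo (c i) (d i) = Ioo (gam (w i) (c i)) (gam (w i) (d i)) := fun i hi =>
        opt_image (w i) (hcd' i hi).1 (hcd' i hi).2.1 (hcd' i hi).2.2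
      refine om_cover s _ _ v hv ?_ ?_ ?_ ?_ ?_
      · intro i hi
        exact (opc_gam (w i) ⟨(hcd' i hi).1, (hcd' i hi).2.1.le.trans (hcd' i hi).2.2⟩).1
      · intro i hi
        exact (sba_mono (w i)).monotoneOn ⟨(hcd' i hi).1, (hcd' i hi).2.1.le.trans (hcd' i hi).2.2⟩
          ⟨(hcd' i hi).1.trans (hcd' i hi).2.1.le, (hcd' i hi).2.2⟩ (hcd' i hi).2.1.le
      · intro i hi
        exact (opc_gam (w i) ⟨(hcd' i hi).1.trans (hcd' i hi).2.1.le, (hcd' i hi).2.2⟩).2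
      · intro i hi i' hi' hne
        rw [← himg i hi, ← himg i' hi']
        exact hdis i hi i' hi' hne
      · have : (⋃ i ∈ s, Ioo (gam (w i) (c i)) (gam (w i) (d i))) = ⋃ i ∈ s, gam (w i) '' Ioo (c i) (d i) := by
          refine iUnion₂_congr fun i hi => (himg i hi).symm
        rw [this]
        exact hvol
    -- sums
    set Z := ∑ i ∈ s, NN n (w i) (c i) * om (c i) (d i) with hZ
    have hCs : (1 - C1 * η) * (1 - 4 * η) * Z - C1 * ∑ i ∈ s, er i ≤ ∑ i ∈ s, k i := by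
      have := Finset.sum_le_sum hC
      rw [Finset.sum_sub_distrib, ← Finset.mul_sum, ← Finset.mul_sum] at this
      exact this
    have hDs : (n : ℝ) * (1 - 2 * √v) ≤ (1 + C2 * η) * Z := by
      have h1 := Finset.sum_le_sum hD
      rw [← Finset.mul_sum, ← Finset.mul_sum] at h1
      exact (mul_le_mul_of_nonneg_left hE hn0.le).trans h1
    set Y := (1 - C1 * η) * (1 - 4 * η) / (1 + C2 * η) with hY
    have hC2η : 0 < 1 + C2 * η := by positivity
    have hX0 : 0 ≤ (1 - C1 * η) * (1 - 4 * η) := mul_nonneg (sub_nonneg.2 hcase) (by linarith)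
    have hC1η : 0 < C1 * η := by positivity
    have hC2η' : 0 < C2 * η := by positivity
    have hX1 : (1 - C1 * η) * (1 - 4 * η) ≤ 1 := by
      apply mul_le_one₀ (by linarith) (by linarith) (by linarith)
    have hY0 : 0 ≤ Y := div_nonneg hX0 hC2η.le
    have hY1 : Y ≤ 1 := by
      rw [hY, div_le_one hC2η]; linarith
    have hYl : 1 - (C1 + C2 + 4) * η ≤ Y := by
      rw [hY, le_div_iff₀ hC2η]
      nlinarith [mul_pos hC1η hη, mul_pos hC2η' hη, mul_pos hC2η' hC1η]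
    have h1 : Y * (n * (1 - 2 * √v)) ≤ (1 - C1 * η) * (1 - 4 * η) * Z := by
      have := mul_le_mul_of_nonneg_left hDs hY0
      have e : Y * ((1 + C2 * η) * Z) = (1 - C1 * η) * (1 - 4 * η) * Z := by
        rw [hY]; field_simp
      linarith
    have h2 : (1 - (C1 + C2 + 4) * η - 2 * √v) ≤ Y * (1 - 2 * √v) := by
      nlinarith [mul_nonneg (sub_nonneg.2 hY1) hsv]
    have h3 := mul_le_mul_of_nonneg_left h2 hn0.le
    have h4 : 0 ≤ √v * n := by positivity
    have h5 : 0 ≤ (C2 + 4) * ∑ i ∈ s, er i := mul_nonneg (by linarith) hers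
    have h6 : 0 ≤ (C1 + C2 + 2) * (√v * n) := mul_nonneg (by linarith) h4
    nlinarith
  · have h1 : 0 ≤ ∑ i ∈ s, k i := Finset.sum_nonneg hk0
    have h2 : (1 : ℝ) ≤ (C1 + C2 + 4) * (η + √v) := by
      have : 0 ≤ (C2 + 4) * η := by positivity
      have : 0 ≤ (C1 + C2 + 4) * √v := mul_nonneg (by linarith) hsv
      nlinarith
    have h3 := mul_le_mul_of_nonneg_right h2 hn0.le
    have h4 : 0 ≤ (C1 + C2 + 4) * ∑ i ∈ s, er i := mul_nonneg (by linarith) hers
    linarith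

end Pool.H52.MQ
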