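import Pool.Agent.H44.P5.N
import Pool.Agent.H44.P5.Q
import Pool.Agent.H44.P5.M
import Pool.Agent.H44.P5.R
import Pool.Agent.H52.MQ.SBM

/-! Block P5 (project MP_935a4b_QM), block PI helper44: TRANSFER LEMMA by contour shift.
Paper proof: Section 4 of team-store H52_935a4b.md (with r any integer between eta N/16 and eta N/4, N = NN n w y0;
2 r b^2 is then at most eta n |tau| / 8 because N lam0 <= n/2 and lam0 |tau| <= 1/40).
P = Fourier truncation of a sharp window of radius S = 0.015 eta/lam0 about th0 (circle Cauchy formula for the remainder);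
near the two end points of the window it is compared with the window of radius 2 S. -/

open MeasureTheory Set Polynomial
open scoped ENNReal ComplexConjugate

namespace Pool.H52.MQ

private lemma p5_zz_norm (y : ℝ) : ‖zz y‖ = 1 := by
  unfold zz
  exact Complex.norm_exp_ofReal_mul_I _

private lemma p5_vp_norm (y : ℝ) : ‖vp y‖ = 1 := by
  unfold vp
  rw [norm_pow, p5_zz_norm, one_pow]

/-- window data -/
private lemma p5_core (w : List Bool) {n : ℕ} {y0 η : ℝ} {m r : ℕ} {M : ℝ} {f : ℂ[X]} (hn : 1 ≤ n)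
    (hy : y0 ∈ Icc (1 / 3 : ℝ) (2 / 3)) (hη : 0 < η) (hη1 : η ≤ 1 / 100) (hm : 1 ≤ m)
    (hmN : (m : ℝ) ≤ (1 - 2 * η) * NN n w y0)
    (hr1 : η * NN n w y0 / 16 ≤ r) (hr2 : (r : ℝ) ≤ η * NN n w y0 / 4)
    (hf : f.natDegree ≤ m - 1) (hM : 0 ≤ M) (hfM : ∀ z : ℂ, ‖z‖ = 1 → ‖f.eval z‖ ≤ M)
    {S : ℝ} (hS1 : 15 / 1000 * η ≤ lam w y0 * S) (hS2 : lam w y0 * S ≤ 3 / 100 * η)
    {θ : ℝ} (hθ : θ ∈ Icc 0 Real.pi) (hd : S / 4 ≤ |(|θ - p5t w y0| - S)|) :
    (|θ - p5t w y0| < S → ‖p5S (p5F w y0 m r f) (p5t w y0) S n θ - p5F w y0 m r f θ‖ ≤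
      1080 * lam w y0 * (M * Real.exp (-(η ^ 3 * NN n w y0 / 4000000)))) ∧
    (S < |θ - p5t w y0| → ‖p5S (p5F w y0 m r f) (p5t w y0) S n θ‖ ≤
      1080 * lam w y0 * (M * Real.exp (-(η ^ 3 * NN n w y0 / 4000000)))) := by
  obtain ⟨-, -, -, hlam, -, -, -⟩ := p5a_basic w hy
  obtain ⟨ht0, ht1, -, -, hsin⟩ := p5a_th w hy
  set l := lam w y0 with hl
  set t0 := p5t w y0 with htt
  have hlpos : 0 < l := by linarith
  have hSpos : 0 < S := by
    by_contra h
    have : l * S ≤ 0 := mul_nonpos_of_nonneg_of_nonpos hlpos.le (not_lt.1 h)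
    nlinarith
  have hsinpos : 0 < Real.sin t0 := Real.sin_pos_of_pos_of_lt_pi ht0 ht1
  have h1 : Real.sin t0 ≤ t0 := Real.sin_le ht0.le
  have h2 : Real.sin t0 ≤ Real.pi - t0 := by
    rw [← Real.sin_pi_sub]; exact Real.sin_le (by linarith)
  have h3 : 2 / (9 * l) ≤ t0 := hsin.trans h1
  have h4 : 2 / (9 * l) ≤ Real.pi - t0 := hsin.trans h2
  have hR : 1 / (1000 * l) ≤ 2 / (9 * l) := by
    rw [div_le_div_iff₀ (by positivity) (by positivity)]; nlinarith
  have hSR : S < 1 / (1000 * l) := by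
    rw [lt_div_iff₀ (by positivity)]; nlinarith
  have hS' : S ≤ (1 / 2) * (2 / (9 * l)) := by
    have e : (1 / 2) * (2 / (9 * l)) = 1 / (9 * l) := by field_simp
    rw [e, le_div_iff₀ (by positivity)]; nlinarith
  have hρ : 0 < S * Real.sin t0 / 40 := by positivity
  have hF := p5m_diff w hy m r f
  have hc : ∀ ζ : ℂ, ‖ζ - t0‖ = S → S * Real.sin t0 / 40 ≤ ‖Complex.cos ζ - (Real.cos θ : ℂ)‖ := by
    intro ζ hζ
    exact p5k_low ht0 ht1 hSpos (by linarith) (by linarith) hθ hd hζ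
  have hb : ∀ ζ : ℂ, ‖ζ - t0‖ = S → ‖p5F w y0 m r f ζ‖ * Real.exp (-((n - 1 : ℝ) * |ζ.im|)) ≤
      3 * M * Real.exp (-(η ^ 3 * NN n w y0 / 4000000)) := by
    intro ζ hζ
    have h5 := p5m_circle w hn hy hη hη1 hm hmN hr1 hr2 hf hM hfM (s := ζ - t0)
      (by rw [hζ]; exact hS1) (by rw [hζ]; exact hS2)
    rw [← htt] at h5
    have e1 : (t0 : ℂ) + (ζ - t0) = ζ := by ring
    have e2 : (ζ - t0).im = ζ.im := by simp
    rw [e1, e2] at h5
    exact h5
  have hbound : 2 * S * (3 * M * Real.exp (-(η ^ 3 * NN n w y0 / 4000000))) / (S * Real.sin t0 / 40) ≤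
      1080 * l * (M * Real.exp (-(η ^ 3 * NN n w y0 / 4000000))) := by
    rw [div_le_iff₀ hρ]
    have e := Real.exp_pos (-(η ^ 3 * NN n w y0 / 4000000))
    have h6 : 2 ≤ 9 * l * Real.sin t0 := by
      have := mul_le_mul_of_nonneg_left hsin (show 0 ≤ 9 * l by positivity)
      rwa [mul_div_cancel₀ _ (by positivity : (9 * l) ≠ 0)] at this
    have h7 : 0 ≤ S * (M * Real.exp (-(η ^ 3 * NN n w y0 / 4000000))) := by positivity
    have h8 := mul_le_mul_of_nonneg_left h6 h7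
    nlinarith
  refine ⟨fun h => ?_, fun h => ?_⟩
  · exact (p5n_in hn hSpos hSR (hR.trans h3) (hR.trans h4) hF hρ hc hb h).trans hbound
  · exact (p5n_out hn hSpos hSR (hR.trans h3) (hR.trans h4) hF hρ hc hb hθ h).trans hbound

theorem p5_transfer : ∃ c C : ℝ, 0 < c ∧ 0 < C ∧
    ∀ (w : List Bool) (n : ℕ) (y0 η : ℝ) (m r : ℕ) (M : ℝ) (f : ℂ[X]),
      1 ≤ n → y0 ∈ Icc (1 / 3 : ℝ) (2 / 3) → 0 < η → η ≤ 1 / 100 → 1 ≤ m →
      (m : ℝ) ≤ (1 - 2 * η) * NN n w y0 →
      η * NN n w y0 / 16 ≤ r → (r : ℝ) ≤ η * NN n w y0 / 4 →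
      f.natDegree ≤ m - 1 → 0 ≤ M → (∀ z : ℂ, ‖z‖ = 1 → ‖f.eval z‖ ≤ M) →
      ∃ P : ℂ[X], P.natDegree < n ∧
        (∀ y ∈ Icc (0 : ℝ) 1, ‖P.eval (gam w y : ℂ) -
            zz y ^ (-((m : ℤ) - 1)) * f.eval (vp y) * (Qf r y0 y : ℂ)‖ ≤
          C * M * n ^ 3 * lam w y0 ^ 2 / η ^ 4 * Real.exp (-c * η ^ 3 * NN n w y0)) ∧
        (∀ x ∈ Icc (0 : ℝ) 1, x ∉ cell w → ‖P.eval (x : ℂ)‖ ≤
          C * M * n ^ 3 * lam w y0 ^ 2 / η ^ 4 * Real.exp (-c * η ^ 3 * NN n w y0)) := by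
  refine ⟨1 / 4000000, 5000, by norm_num, by norm_num, ?_⟩
  intro w n y0 η m r M f hn hy hη hη1 hm hmN hr1 hr2 hf hM hfM
  obtain ⟨-, -, -, hlam, -, -, -⟩ := p5a_basic w hy
  obtain ⟨ht0, ht1, -, -, hsin⟩ := p5a_th w hy
  have hcore := @p5_core w n y0 η m r M f hn hy hη hη1 hm hmN hr1 hr2 hf hM hfM
  set l := lam w y0 with hl
  set t0 := p5t w y0 with htt
  set N := NN n w y0 with hN
  have hlpos : 0 < l := by linarith
  set E := Real.exp (-(η ^ 3 * N / 4000000)) with hE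
  have hEpos : 0 < E := Real.exp_pos _
  have hE' : Real.exp (-(1 / 4000000) * η ^ 3 * N) = E := by
    rw [hE]; congr 1; ring
  rw [hE']
  have hn1 : (1 : ℝ) ≤ n := by exact_mod_cast hn
  -- the final bound
  have hfinal : (2 * n + 1080 * l + 1) * (M * E) ≤ 5000 * M * n ^ 3 * l ^ 2 / η ^ 4 * E := by
    have e1 : 5000 * M * (n : ℝ) ^ 3 * l ^ 2 / η ^ 4 * E = 5000 * n ^ 3 * l ^ 2 / η ^ 4 * (M * E) := by ring
    rw [e1]
    apply mul_le_mul_of_nonneg_right _ (by positivity)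
    have hη4 : η ^ 4 ≤ 1 := pow_le_one₀ hη.le (by linarith)
    have h1 : 5000 * (n : ℝ) ^ 3 * l ^ 2 ≤ 5000 * n ^ 3 * l ^ 2 / η ^ 4 := by
      rw [le_div_iff₀ (by positivity)]
      have : 0 ≤ 5000 * (n : ℝ) ^ 3 * l ^ 2 := by positivity
      nlinarith
    refine le_trans ?_ h1
    have hn3 : (n : ℝ) ≤ n ^ 3 := by nlinarith [sq_nonneg ((n : ℝ) - 1)]
    have h2 : (1 : ℝ) ≤ n ^ 3 := le_trans hn1 hn3
    have hl2 : 4 / 81 ≤ l ^ 2 := by nlinarith
    have hl1 : l ≤ 9 / 2 * l ^ 2 := by nlinarith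
    have h3 : 2 * (n : ℝ) ≤ 81 / 2 * (n ^ 3 * l ^ 2) := by
      have : (n : ℝ) ^ 3 * (4 / 81) ≤ n ^ 3 * l ^ 2 := mul_le_mul_of_nonneg_left hl2 (by positivity)
      nlinarith
    have h4 : l ≤ 9 / 2 * (n ^ 3 * l ^ 2) := by
      have : l ^ 2 ≤ n ^ 3 * l ^ 2 := by
        have := mul_le_mul_of_nonneg_right h2 (sq_nonneg l)
        linarith
      linarith
    have h5 : (1 : ℝ) ≤ 81 / 4 * (n ^ 3 * l ^ 2) := by
      have : (1 : ℝ) * (4 / 81) ≤ n ^ 3 * l ^ 2 := mul_le_mul h2 hl2 (by norm_num) (by positivity)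
      linarith
    nlinarith
  set F := p5F w y0 m r f with hFdef
  set S : ℝ := 15 / 1000 * η / l with hSdef
  have hSpos : 0 < S := by positivity
  have hlS : l * S = 15 / 1000 * η := by rw [hSdef]; field_simp
  have hlS' : l * (2 * S) = 3 / 100 * η := by
    have : l * (2 * S) = 2 * (l * S) := by ring
    rw [this, hlS]; ring
  -- continuity of F on real intervals
  have hcont : ContinuousOn (fun φ : ℝ => F φ) (Icc (t0 - 2 * S) (t0 + 2 * S)) := by
    have h1 := (p5m_diff w hy m r f).continuousOn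
    refine h1.comp Complex.continuous_ofReal.continuousOn ?_
    intro φ hφ
    rw [Metric.mem_ball, Complex.dist_eq, ← htt, ← Complex.ofReal_sub, Complex.norm_real, Real.norm_eq_abs]
    have h2 : |φ - t0| ≤ 2 * S := abs_le.2 ⟨by linarith [hφ.1], by linarith [hφ.2]⟩
    refine lt_of_le_of_lt h2 ?_
    rw [lt_div_iff₀ (by positivity)]
    nlinarith
  have hcontS : ContinuousOn (fun φ : ℝ => F φ) (Icc (t0 - S) (t0 + S)) :=
    hcont.mono (Icc_subset_Icc (by linarith) (by linarith))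
  obtain ⟨P, hPdeg, hP⟩ := p5q_poly hn hSpos.le hcontS
  -- real bound of F
  have hFreal : ∀ φ : ℝ, 1 / 100 * η ≤ l * |φ - t0| → l * |φ - t0| ≤ 3 / 100 * η → ‖F φ‖ ≤ M * E := by
    intro φ h1 h2
    have h3 := p5m_real w hn hy hη hη1 hm hr1 hf hM hfM (s := φ - t0) h1 h2
    rw [← htt] at h3
    have e1 : t0 + (φ - t0) = φ := by ring
    rw [e1] at h3
    exact h3
  -- outside
  have hout : ∀ θ ∈ Icc 0 Real.pi, 5 / 4 * S ≤ |θ - t0| → ‖p5S F t0 S n θ‖ ≤ 1080 * l * (M * E) := by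
    intro θ hθ h
    refine (hcore (S := S) hlS.ge (by linarith) hθ ?_).2 (by linarith)
    rw [abs_of_nonneg (by linarith)]; linarith
  -- inside
  have hin : ∀ θ ∈ Icc 0 Real.pi, |θ - t0| < 5 / 4 * S →
      ‖p5S F t0 S n θ - F θ‖ ≤ (2 * n + 1080 * l) * (M * E) := by
    intro θ hθ h
    have hME : 0 ≤ M * E := by positivity
    rcases le_or_gt (|θ - t0|) (3 / 4 * S) with h1 | h1
    · have h2 := (hcore (S := S) hlS.ge (by linarith) hθ (by
        rw [abs_of_nonpos (by linarith)]; linarith)).1 (by linarith)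
      refine h2.trans ?_
      have : 0 ≤ 2 * (n : ℝ) * (M * E) := by positivity
      nlinarith
    · have h2 := (hcore (S := 2 * S) (by linarith) (by linarith) hθ (by
        rw [abs_of_nonpos (by linarith)]; linarith)).1 (by linarith)
      have h3 := p5q_diff (F := F) (t0 := t0) (S := S) (S' := 2 * S) (δ := M * E) hn hSpos.le (by linarith) hcont
        (fun φ h4 h5 => hFreal φ (by nlinarith) (by nlinarith)) θ
      have h6 : 2 * (n : ℝ) * (2 * S - S) * (M * E) ≤ 2 * n * (M * E) := by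
        have h7 : 2 * S - S ≤ 1 := by
          have : S ≤ 1 := by
            rw [hSdef, div_le_one hlpos]; linarith
          linarith
        have h8 : 0 ≤ 2 * (n : ℝ) * (M * E) := by positivity
        nlinarith
      have h9 : p5S F t0 S n θ - F θ = -(p5S F t0 (2 * S) n θ - p5S F t0 S n θ) + (p5S F t0 (2 * S) n θ - F θ) := by
        ring
      rw [h9]
      refine (norm_add_le _ _).trans ?_
      rw [norm_neg]
      nlinarith
  -- change of variable
  have hx : ∀ x ∈ Icc (0 : ℝ) 1, (1 - Real.cos (Real.arccos (1 - 2 * x))) / 2 = x := by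
    intro x hx
    rw [Real.cos_arccos (by linarith [hx.2]) (by linarith [hx.1])]; ring
  have hPx : ∀ x ∈ Icc (0 : ℝ) 1, P.eval (x : ℂ) = p5S F t0 S n (Real.arccos (1 - 2 * x)) := by
    intro x hx'
    rw [← hP, hx x hx']
  have hθmem : ∀ x : ℝ, Real.arccos (1 - 2 * x) ∈ Icc 0 Real.pi := fun x =>
    ⟨Real.arccos_nonneg _, Real.arccos_le_pi _⟩
  refine ⟨P, hPdeg, ?_, ?_⟩
  · intro y hy1
    refine le_trans ?_ hfinal
    have hgx : gam w y ∈ Icc (0 : ℝ) 1 := by
      apply sba_cell w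
      rw [← sba_image]
      exact ⟨y, hy1, rfl⟩
    rw [hPx _ hgx]
    have hME : 0 ≤ M * E := by positivity
    have hQ0 : 0 ≤ 1 - (y - y0) ^ 2 := by nlinarith [hy1.1, hy1.2, hy.1, hy.2]
    have hGQ : F (Real.arccos (1 - 2 * gam w y) : ℝ) =
        zz y ^ (-((m : ℤ) - 1)) * f.eval (vp y) * (Qf r y0 y : ℂ) := by
      rw [hFdef]
      unfold p5F
      rw [p5r_inv w hy hy1]
      have e1 : (y0 : ℂ) + ((y : ℂ) - y0) = y := by ring
      rw [e1, p5z_Greal m f hy1]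
      unfold Qf
      push_cast
      ring
    rcases lt_or_ge (|Real.arccos (1 - 2 * gam w y) - t0|) (5 / 4 * S) with h | h
    · rw [← hGQ]
      refine (hin _ (hθmem _) h).trans ?_
      nlinarith
    · have h1 := hout _ (hθmem _) h
      have h2 : 5 / 1000 * η ≤ |y - y0| := by
        refine p5r_far w hy hy1 hη hη1 ?_
        rw [← hl, ← htt]
        nlinarith
      have h3 : ‖zz y ^ (-((m : ℤ) - 1)) * f.eval (vp y) * (Qf r y0 y : ℂ)‖ ≤ M * E := by
        rw [norm_mul, norm_mul, norm_zpow, p5_zz_norm, one_zpow, one_mul, Complex.norm_real, Real.norm_eq_abs]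
        have h4 : |Qf r y0 y| ≤ E := by
          unfold Qf
          rw [abs_of_nonneg (pow_nonneg hQ0 r)]
          have h5 : 1 - (y - y0) ^ 2 ≤ Real.exp (-(y - y0) ^ 2) := by
            have := Real.add_one_le_exp (-(y - y0) ^ 2)
            linarith
          refine (pow_le_pow_left₀ hQ0 h5 r).trans ?_
          rw [← Real.exp_nat_mul, hE, Real.exp_le_exp]
          have h6 : (5 / 1000 * η) ^ 2 ≤ (y - y0) ^ 2 := by
            rw [← sq_abs (y - y0)]
            exact pow_le_pow_left₀ (by positivity) h2 2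
          have hN0 : 0 ≤ N := by
            by_contra hc
            have h7 : (m : ℝ) ≤ 0 := hmN.trans (mul_nonpos_of_nonneg_of_nonpos (by linarith) (not_le.1 hc).le)
            have h8 : (1 : ℝ) ≤ m := by exact_mod_cast hm
            linarith
          have h7 : η * N / 16 * (5 / 1000 * η) ^ 2 ≤ r * (y - y0) ^ 2 :=
            mul_le_mul hr1 h6 (by positivity) (by positivity)
          have h8 : η ^ 3 * N / 4000000 ≤ η * N / 16 * (5 / 1000 * η) ^ 2 := by
            have : 0 ≤ η ^ 3 * N := by positivity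
            nlinarith
          linarith
        exact mul_le_mul (hfM _ (p5_vp_norm y)) h4 (abs_nonneg _) hM
      refine (norm_sub_le _ _).trans ?_
      have h4 : 0 ≤ 2 * (n : ℝ) * (M * E) := by positivity
      nlinarith
  · intro x hx1 hxc
    refine le_trans ?_ hfinal
    rw [hPx _ hx1]
    have h1 := p5r_out w hy hx1 hxc
    rw [← hl, ← htt] at h1
    have h2 : 5 / 4 * S ≤ |Real.arccos (1 - 2 * x) - t0| := by
      by_contra hc
      have := mul_lt_mul_of_pos_left (not_le.1 hc) hlpos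
      nlinarith
    refine (hout _ (hθmem _) h2).trans ?_
    have h4 : 0 ≤ (2 * (n : ℝ) + 1) * (M * E) := by positivity
    nlinarith

end Pool.H52.MQ
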