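import Pool.Agent.H52.MQ.EXD
import Pool.Agent.H52.MQ.OPC
import Pool.Agent.H52.MQ.P5
import Pool.Agent.H52.MQ.UCB
import Pool.Agent.H52.MQ.MSG
import Pool.Agent.H52.MQ.SBN

/-! Module OPI (project MP_935a4b_QM): bound of the excess density.  Uses EXD, OPC, P5, UCB, MSG, SBN.
Fix y, w0 = vp y, G(y') = Khat(y',y) Qf r y y', E = En(range n), S = exp(2 sqrt(nE)+E).
(1) f(w') := sum_{k<m} Ph_k(w') * (zz y^(m-1) conj(Ph_k(w0))/nu_k), a polynomial of degree <= m-1; f(vp y') zz y'^(-(m-1)) = Khat(y',y); |f| <= m S =: M on the circle (exd_sup, m <= n).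
    p5_transfer gives P, natDegree P < n, with eps = C M n^3 lam^2 eta^-4 exp(-c eta^3 NN).
(2) opc_cmp with this G (continuous, bounded by M on [0,1] as 0 <= Q <= 1), G(y) = kc y (exd_khat_diag, Q(y) = 1):
    exq <= kap - 2 kc + int_{[0,1]} |G|^2 + 2 eps + 2 eps sqrt(2^|w| kap).
(3) int_{[0,1]} |G|^2 dmu <= int_{Icc (1/4) (3/4)} |Kc(vp y', w0)|^2 dmu(y') + int_{rest} M^2 Q^2; first integral <= int |Kc(w',w0)|^2 d(sg mu) = kc y (msg_split with F = |Kc(.,w0)|^2 >= 0 and ucb_kernel);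
    second: |y'-y| >= 1/12 there, Q <= (1-1/144)^r <= exp(-r/144), so <= M^2 exp(-r/72).
(4) r >= eta NN/16, so exp(-r/72) <= exp(-eta NN/1152) <= exp(-c eta^3 NN) if c <= 1 (c can be decreased; eta <= 1/100).  lam <= DD^2/2 <= hh^2 (nn_bounds, sba_DD), 2^|w| <= 2^hh, sqrt(kap) <= (1+kap), 1 <= n, 1 <= hh.
    So exq <= kap - kc + [M^2 exp(-r/72) + 4 eps 2^|w|] (1+kap), and the bracket is <= C' n^5 hh^4 2^hh eta^-4 exp(4 sqrt(nE)+2E-c eta^3 NN). -/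

open MeasureTheory Set Polynomial
open scoped ENNReal ComplexConjugate

namespace Pool.H52.MQ

private theorem OPI_sq {x : ℝ} (h : 0 ≤ x) : x ≤ (1 + x) ^ 2 := by nlinarith

private theorem OPI_fin {A ε L k X C0 q : ℝ} (hA0 : 0 ≤ A) (hε0 : 0 ≤ ε) (hL : 1 ≤ L)
    (hk : 0 ≤ k) (hAX : A ≤ X) (hεX : ε * L ≤ C0 * X) (hsq : q ≤ L * (1 + k)) :
    A + 2 * ε + 2 * ε * q ≤ (1 + 4 * C0) * X * (1 + k) := by
  have e1 : 2 * ε * q ≤ 2 * ε * (L * (1 + k)) := mul_le_mul_of_nonneg_left hsq (by positivity)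
  have e2 : 2 * ε ≤ 2 * ε * (L * (1 + k)) := by
    have : (1:ℝ) ≤ L * (1 + k) := by nlinarith
    nlinarith
  have e3 : A ≤ X * (1 + k) := by nlinarith
  have e4 : (ε * L) * (1 + k) ≤ (C0 * X) * (1 + k) :=
    mul_le_mul_of_nonneg_right hεX (by linarith)
  nlinarith

private theorem OPI_khat_cont (α : ℕ → ℂ) (m : ℕ) (y : ℝ) :
    Continuous (fun y' : ℝ => Khat α m y' y) := by
  have h := exd_khat_cont α m
  generalize Khat α m = K at h ⊢
  have e0 : Continuous (fun y' : ℝ => ((y', y) : ℝ × ℝ)) := by fun_prop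
  exact h.comp e0

private theorem OPI_en_mono {α : ℕ → ℂ} (hα : ∀ n, ‖α n‖ < 1) {m n : ℕ} (h : m ≤ n) :
    En α (Finset.range m) ≤ En α (Finset.range n) := by
  unfold En
  refine Finset.sum_le_sum_of_subset_of_nonneg (Finset.range_subset_range.2 h) fun k _ _ => ?_
  have := en_nonneg hα {k}
  simpa [En] using this

private theorem OPI_loc {r : ℕ} {y t : ℝ} (hy : y ∈ Icc (1 / 3 : ℝ) (2 / 3))
    (ht : t ∈ Icc (0:ℝ) 1) (hin : t ∉ Icc (1 / 4 : ℝ) (3 / 4)) :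
    Qf r y t ^ 2 ≤ Real.exp (-(r : ℝ) / 72) := by
  have e0 : 1 / 144 ≤ (t - y) ^ 2 := by
    by_cases h : t < 1 / 4
    · nlinarith [hy.1]
    · have h' : 3 / 4 < t := by
        by_contra hcon
        exact hin ⟨not_lt.1 h, not_lt.1 hcon⟩
      nlinarith [hy.2]
  have e1 : (t - y) ^ 2 ≤ 1 := by
    rw [sq_le_one_iff_abs_le_one, abs_le]
    constructor <;> linarith [ht.1, ht.2, hy.1, hy.2]
  have e2 : 1 - (t - y) ^ 2 ≤ Real.exp (-(1 / 144 : ℝ)) := by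
    have := Real.add_one_le_exp (-(1 / 144 : ℝ))
    linarith
  have e3 : Qf r y t ≤ Real.exp (-(1 / 144 : ℝ)) ^ r := pow_le_pow_left₀ (by linarith) e2 r
  have e4 : 0 ≤ Qf r y t := pow_nonneg (by linarith) _
  have e5 : (Real.exp (-(1 / 144 : ℝ)) ^ r) ^ 2 = Real.exp (-(r : ℝ) / 72) := by
    rw [← pow_mul, ← Real.exp_nat_mul]
    congr 1
    push_cast
    ring
  rw [← e5]
  exact pow_le_pow_left₀ e4 e3 2

private theorem OPI_old : ∃ c C : ℝ, 0 < c ∧ 0 < C ∧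
    ∀ (μ : Measure ℝ) (p : ℕ → ℝ[X]) (a b : ℕ → ℝ) (α : ℕ → ℂ), QM μ → IsJacobi μ p a b →
      Szego (sg μ) α → ∀ (w : List Bool) (n m r : ℕ) (y η : ℝ),
      1 ≤ n → y ∈ Icc (1 / 3 : ℝ) (2 / 3) → 0 < η → η ≤ 1 / 100 → 1 ≤ m → m ≤ n →
      (m : ℝ) ≤ (1 - 2 * η) * NN n w y →
      η * NN n w y / 16 ≤ r → (r : ℝ) ≤ η * NN n w y / 4 →
      exq μ p α n m r w y ≤ kap p n w y y - kc α m y +
        C * n ^ 5 * hh w ^ 4 * 2 ^ hh w / η ^ 4 *
          Real.exp (4 * √(n * En α (Finset.range n)) + 2 * En α (Finset.range n) -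
            c * η ^ 3 * NN n w y) * (1 + kap p n w y y) := by
  obtain ⟨c0, C0, hc0, hC0, hP5⟩ := p5_transfer
  refine ⟨min c0 1, 1 + 4 * C0, lt_min hc0 one_pos, by positivity, ?_⟩
  intro μ p a b α hμ hp hS w n m r y η hn hy hη hη' hm hmn hmN hr1 hr2
  have hμp := hμ.prob
  have hα := hS.lt
  have hy01 : y ∈ Icc (0:ℝ) 1 := ⟨by linarith [hy.1], by linarith [hy.2]⟩
  set E := En α (Finset.range n) with hE
  have hE0 : 0 ≤ E := en_nonneg hα _
  set S := Real.exp (2 * √(n * E) + E) with hSdef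
  have hS1 : 1 ≤ S := Real.one_le_exp (by positivity)
  have hn1 : (1:ℝ) ≤ n := by exact_mod_cast hn
  have hM0 : (0:ℝ) ≤ n * S := by positivity
  have hK : ∀ w' : ℂ, ‖w'‖ = 1 → ‖Kc α m w' (vp y)‖ ≤ n * S := by
    intro w' hw'
    refine (exd_sup hα m (exd_vp_norm y) hw').trans ?_
    have hmr : (m : ℝ) ≤ n := by exact_mod_cast hmn
    have hEm : En α (Finset.range m) ≤ E := OPI_en_mono hα hmn
    have hEm0 : 0 ≤ En α (Finset.range m) := en_nonneg hα _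
    have h3 : √(m * En α (Finset.range m)) ≤ √(n * E) :=
      Real.sqrt_le_sqrt (mul_le_mul hmr hEm hEm0 (by positivity))
    exact mul_le_mul hmr (Real.exp_le_exp.2 (by linarith)) (Real.exp_pos _).le (by positivity)
  set f : ℂ[X] := ∑ k ∈ Finset.range m,
    C (zz y ^ ((m : ℤ) - 1) * conj ((Ph α k).eval (vp y)) / (nu α k : ℂ)) * Ph α k with hf
  have hfe : ∀ w', f.eval w' = zz y ^ ((m : ℤ) - 1) * Kc α m w' (vp y) := by
    intro w'
    simp only [hf, Kc, eval_finsetSum, eval_mul, eval_C, Finset.mul_sum]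
    refine Finset.sum_congr rfl fun k _ => ?_
    ring
  have hfd : f.natDegree ≤ m - 1 := by
    refine natDegree_sum_le_of_forall_le _ _ fun k hk => ?_
    refine (natDegree_C_mul_le _ _).trans ?_
    rw [(uca_deg α k).2.1]
    have := Finset.mem_range.1 hk
    omega
  obtain ⟨P, hPd, h1, h2⟩ := hP5 w n y η m r (n * S) f hn hy hη hη' hm hmN hr1 hr2 hfd hM0 (by
    intro z hz
    rw [hfe, norm_mul, norm_zpow, exd_zz_norm, one_zpow, one_mul]
    exact hK z hz)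
  set ε := C0 * (n * S) * n ^ 3 * lam w y ^ 2 / η ^ 4 * Real.exp (-c0 * η ^ 3 * NN n w y) with hε
  set G : ℝ → ℂ := fun y' => Khat α m y' y * (Qf r y y' : ℂ) with hG
  have hQc : Continuous (fun y' : ℝ => Qf r y y') := by
    unfold Qf
    fun_prop
  have hGc : Continuous G := by
    exact (OPI_khat_cont α m y).mul (Complex.continuous_ofReal.comp hQc)
  have hGe : ∀ t, zz t ^ (-((m : ℤ) - 1)) * f.eval (vp t) * (Qf r y t : ℂ) = G t := by
    intro t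
    simp only [hG, hfe, Khat]
    ring
  have hQ01 : ∀ t ∈ Icc (0:ℝ) 1, 0 ≤ Qf r y t ∧ Qf r y t ≤ 1 := by
    intro t ht
    have e1 : (t - y) ^ 2 ≤ 1 := by
      rw [sq_le_one_iff_abs_le_one, abs_le]
      constructor <;> linarith [ht.1, ht.2, hy01.1, hy01.2]
    have e2 : 0 ≤ (t - y) ^ 2 := sq_nonneg _
    exact ⟨pow_nonneg (by linarith) _, pow_le_one₀ (by linarith) (by linarith)⟩
  have hGn : ∀ t ∈ Icc (0:ℝ) 1, ‖G t‖ = ‖Kc α m (vp t) (vp y)‖ * Qf r y t := by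
    intro t ht
    simp only [hG]
    rw [norm_mul, exd_khat_norm, Complex.norm_real, Real.norm_eq_abs, abs_of_nonneg (hQ01 t ht).1]
  have hGb : ∀ t ∈ Icc (0:ℝ) 1, ‖G t‖ ≤ n * S := by
    intro t ht
    rw [hGn t ht]
    calc ‖Kc α m (vp t) (vp y)‖ * Qf r y t ≤ (n * S) * 1 :=
          mul_le_mul (hK _ (exd_vp_norm t)) (hQ01 t ht).2 (hQ01 t ht).1 hM0
      _ = n * S := mul_one _
  have hcmp := opc_cmp hμ hp n w hy01 G hGc.measurable (n * S) hGb P hPd ε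
    (fun t ht => by rw [← hGe t]; exact h1 t ht) h2
  have hGy : (G y).re = kc α m y := by
    simp only [hG]
    rw [exd_khat_diag]
    simp [Qf]
  -- the integral of |G|^2
  have hFc : Continuous (fun w' : ℂ => ‖Kc α m w' (vp y)‖ ^ 2) := by
    have e1 : Continuous (fun w' : ℂ => Kc α m w' (vp y)) := by
      unfold Kc
      refine continuous_finsetSum _ fun k _ => ?_
      exact ((Ph α k).continuous.mul continuous_const).div_const _
    exact e1.norm.pow 2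
  set A := (n * S) ^ 2 * Real.exp (-(r : ℝ) / 72) with hA
  have hA0 : 0 ≤ A := by positivity
  have hpt : ∀ t ∈ Icc (0:ℝ) 1, ‖G t‖ ^ 2 ≤
      (Icc (1 / 4 : ℝ) (3 / 4)).indicator (fun t => ‖Kc α m (vp t) (vp y)‖ ^ 2) t + A := by
    intro t ht
    rw [hGn t ht, mul_pow]
    obtain ⟨q0, q1⟩ := hQ01 t ht
    by_cases hin : t ∈ Icc (1 / 4 : ℝ) (3 / 4)
    · rw [Set.indicator_of_mem hin]
      have e1 : Qf r y t ^ 2 ≤ 1 := pow_le_one₀ q0 q1
      have e2 : 0 ≤ ‖Kc α m (vp t) (vp y)‖ ^ 2 := by positivity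
      exact (mul_le_of_le_one_right e2 e1).trans (le_add_of_nonneg_right hA0)
    · rw [Set.indicator_of_notMem hin, zero_add]
      have e1 : ‖Kc α m (vp t) (vp y)‖ ^ 2 ≤ (n * S) ^ 2 :=
        pow_le_pow_left₀ (norm_nonneg _) (hK _ (exd_vp_norm t)) 2
      have e2 : Qf r y t ^ 2 ≤ Real.exp (-(r : ℝ) / 72) := OPI_loc hy ht hin
      exact mul_le_mul e1 e2 (by positivity) (by positivity)
  have hint : ∫ y' in Icc 0 1, ‖G y'‖ ^ 2 ∂μ ≤ kc α m y + A := by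
    have i1 : IntegrableOn (fun t => ‖G t‖ ^ 2) (Icc 0 1) μ :=
      (hGc.norm.pow 2).continuousOn.integrableOn_compact isCompact_Icc
    have hvc : Continuous (fun t : ℝ => ‖Kc α m (vp t) (vp y)‖ ^ 2) := hFc.comp exd_vp_cont
    have i2 : IntegrableOn ((Icc (1 / 4 : ℝ) (3 / 4)).indicator
        (fun t => ‖Kc α m (vp t) (vp y)‖ ^ 2)) (Icc 0 1) μ :=
      IntegrableOn.indicator (hvc.continuousOn.integrableOn_compact isCompact_Icc)
        measurableSet_Icc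
    have i3 : IntegrableOn (fun _ : ℝ => A) (Icc 0 1) μ := integrableOn_const (by simp)
    calc ∫ y' in Icc 0 1, ‖G y'‖ ^ 2 ∂μ
        ≤ ∫ t in Icc 0 1, ((Icc (1 / 4 : ℝ) (3 / 4)).indicator
          (fun t => ‖Kc α m (vp t) (vp y)‖ ^ 2) t + A) ∂μ :=
          setIntegral_mono_on i1 (i2.add i3) measurableSet_Icc hpt
      _ = ∫ t in Icc 0 1, (Icc (1 / 4 : ℝ) (3 / 4)).indicator
          (fun t => ‖Kc α m (vp t) (vp y)‖ ^ 2) t ∂μ + ∫ _ in Icc (0:ℝ) 1, A ∂μ :=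
          integral_add i2 i3
      _ ≤ kc α m y + A := by
          refine add_le_add ?_ ?_
          · rw [setIntegral_indicator measurableSet_Icc]
            have e1 : Icc (0:ℝ) 1 ∩ Icc (1 / 4) (3 / 4) = Icc (1 / 4) (3 / 4) :=
              Set.inter_eq_right.2 (Icc_subset_Icc (by norm_num) (by norm_num))
            rw [e1]
            refine (msg_lower hμ measurableSet_Icc subset_rfl _ hFc
              (fun w' => by positivity)).trans ?_
            rw [ucb_kernel hS]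
            exact le_rfl
          · rw [setIntegral_const, smul_eq_mul]
            exact mul_le_of_le_one_left hA0 measureReal_le_one
  -- final estimate
  have hkap := exd_kap_nonneg p n w y
  have hexq : exq μ p α n m r w y ≤ kap p n w y y - kc α m y + A + 2 * ε +
      2 * ε * √(2 ^ w.length * kap p n w y y) := by
    have e1 : exq μ p α n m r w y = ∫ y' in Icc 0 1, ‖(kap p n w y y' : ℂ) - G y'‖ ^ 2 ∂μ := rfl
    rw [e1]
    rw [hGy] at hcmp
    linarith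
  obtain ⟨-, hl1, hl2, -, -, -, hNlow, -, -⟩ := nn_bounds n w hy
  obtain ⟨hD1, hD2, -, -⟩ := sba_DD w hy01
  have hN0 : 0 ≤ NN n w y := by
    refine le_trans ?_ hNlow
    positivity
  have hlen := sba_len w
  have hh1 : (1:ℝ) ≤ hh w := by
    have : 1 ≤ hh w := by omega
    exact_mod_cast this
  set X := (n : ℝ) ^ 5 * hh w ^ 4 * 2 ^ hh w / η ^ 4 *
    Real.exp (4 * √(n * E) + 2 * E - min c0 1 * η ^ 3 * NN n w y) with hX
  have hSS : S ^ 2 = Real.exp (4 * √(n * E) + 2 * E) := by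
    rw [hSdef, ← Real.exp_nat_mul]
    congr 1
    push_cast
    ring
  set T := Real.exp (-(min c0 1 * η ^ 3 * NN n w y)) with hT
  have hXe : X = (n : ℝ) ^ 5 * hh w ^ 4 * 2 ^ hh w / η ^ 4 * (S ^ 2 * T) := by
    rw [hX, hSS, hT, ← Real.exp_add]
    congr 2
  have hη3 : 0 < η ^ 3 := by positivity
  have hT1 : Real.exp (-c0 * η ^ 3 * NN n w y) ≤ T := by
    rw [hT]
    apply Real.exp_le_exp.2
    have e1 : min c0 1 * (η ^ 3 * NN n w y) ≤ c0 * (η ^ 3 * NN n w y) :=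
      mul_le_mul_of_nonneg_right (min_le_left _ _) (by positivity)
    have e2 : -c0 * η ^ 3 * NN n w y = -(c0 * (η ^ 3 * NN n w y)) := by ring
    rw [e2, mul_assoc]
    exact neg_le_neg e1
  have hT2 : Real.exp (-(r : ℝ) / 72) ≤ T := by
    rw [hT]
    apply Real.exp_le_exp.2
    have e1 : min c0 1 * (η ^ 3 * NN n w y) ≤ 1 * (η ^ 3 * NN n w y) :=
      mul_le_mul_of_nonneg_right (min_le_right _ _) (by positivity)
    have e2 : η ^ 3 * NN n w y ≤ (1 / 10000) * (η * NN n w y) := by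
      have e3 : η ^ 2 ≤ 1 / 10000 := by
        have e7 := pow_le_pow_left₀ hη.le hη' 2
        norm_num at e7
        linarith
      have e4 : η ^ 3 * NN n w y = η ^ 2 * (η * NN n w y) := by ring
      rw [e4]
      exact mul_le_mul_of_nonneg_right e3 (by positivity)
    have e5 : 0 ≤ η * NN n w y := by positivity
    have e6 : min c0 1 * η ^ 3 * NN n w y = min c0 1 * (η ^ 3 * NN n w y) := by ring
    rw [e6]
    linarith
  have hT0 : 0 < T := Real.exp_pos _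
  have hη4 : 0 < η ^ 4 := by positivity
  have hη41 : η ^ 4 ≤ 1 := pow_le_one₀ hη.le (by linarith)
  have h2w : (2:ℝ) ^ w.length ≤ 2 ^ hh w := pow_le_pow_right₀ (by norm_num) (by omega)
  have h2w1 : (1:ℝ) ≤ 2 ^ w.length := one_le_pow₀ (by norm_num)
  have hlam4 : lam w y ^ 2 ≤ (hh w : ℝ) ^ 4 := by
    have e1 : lam w y ≤ (hh w : ℝ) ^ 2 := by
      have e2 : DD w y ^ 2 ≤ (hh w : ℝ) ^ 2 := pow_le_pow_left₀ (by linarith) hD2 2
      have e4 : (0:ℝ) ≤ (hh w : ℝ) ^ 2 := sq_nonneg _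
      linarith
    have e3 := pow_le_pow_left₀ (by linarith : (0:ℝ) ≤ lam w y) e1 2
    calc lam w y ^ 2 ≤ ((hh w : ℝ) ^ 2) ^ 2 := e3
      _ = (hh w : ℝ) ^ 4 := by ring
  have hhh4 : (1:ℝ) ≤ (hh w : ℝ) ^ 4 := one_le_pow₀ hh1
  have hS2 : S ≤ S ^ 2 := le_self_pow₀ hS1 (by norm_num)
  have hAX : A ≤ X := by
    rw [hXe, hA, mul_pow]
    have e1 : (n:ℝ) ^ 2 ≤ (n:ℝ) ^ 5 * hh w ^ 4 * 2 ^ hh w / η ^ 4 := by
      rw [le_div_iff₀ hη4]
      have e2 : (n:ℝ) ^ 2 ≤ (n:ℝ) ^ 5 := pow_le_pow_right₀ hn1 (by norm_num)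
      calc (n:ℝ) ^ 2 * η ^ 4 ≤ (n:ℝ) ^ 5 * 1 := mul_le_mul e2 hη41 hη4.le (by positivity)
        _ ≤ (n:ℝ) ^ 5 * (hh w ^ 4 * 2 ^ hh w) := by
            apply mul_le_mul_of_nonneg_left _ (by positivity)
            exact one_le_mul_of_one_le_of_one_le hhh4 (h2w1.trans h2w)
        _ = (n:ℝ) ^ 5 * hh w ^ 4 * 2 ^ hh w := by ring
    calc (n:ℝ) ^ 2 * S ^ 2 * Real.exp (-(r : ℝ) / 72) = (n:ℝ) ^ 2 *
          (S ^ 2 * Real.exp (-(r : ℝ) / 72)) := by ring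
      _ ≤ ((n : ℝ) ^ 5 * hh w ^ 4 * 2 ^ hh w / η ^ 4) * (S ^ 2 * T) := by
          apply mul_le_mul e1 _ (by positivity) (by positivity)
          exact mul_le_mul_of_nonneg_left hT2 (by positivity)
  have hεX : ε * 2 ^ w.length ≤ C0 * X := by
    rw [hXe, hε]
    have e1 : C0 * (n * S) * n ^ 3 * lam w y ^ 2 / η ^ 4 * Real.exp (-c0 * η ^ 3 * NN n w y) *
        2 ^ w.length = (C0 / η ^ 4) * ((n:ℝ) ^ 4 * lam w y ^ 2 * 2 ^ w.length * (S *
          Real.exp (-c0 * η ^ 3 * NN n w y))) := by ring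
    have e2 : C0 * ((n : ℝ) ^ 5 * hh w ^ 4 * 2 ^ hh w / η ^ 4 * (S ^ 2 * T)) =
        (C0 / η ^ 4) * ((n:ℝ) ^ 5 * hh w ^ 4 * 2 ^ hh w * (S ^ 2 * T)) := by ring
    rw [e1, e2]
    apply mul_le_mul_of_nonneg_left _ (by positivity)
    have e3 : (n:ℝ) ^ 4 ≤ (n:ℝ) ^ 5 := pow_le_pow_right₀ hn1 (by norm_num)
    have e4 : (n:ℝ) ^ 4 * lam w y ^ 2 ≤ (n:ℝ) ^ 5 * hh w ^ 4 :=
      mul_le_mul e3 hlam4 (by positivity) (by positivity)
    have e5 : (n:ℝ) ^ 4 * lam w y ^ 2 * 2 ^ w.length ≤ (n:ℝ) ^ 5 * hh w ^ 4 * 2 ^ hh w :=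
      mul_le_mul e4 h2w (by positivity) (by positivity)
    have e6 : S * Real.exp (-c0 * η ^ 3 * NN n w y) ≤ S ^ 2 * T :=
      mul_le_mul hS2 hT1 (Real.exp_pos _).le (by positivity)
    exact mul_le_mul e5 e6 (by positivity) (by positivity)
  have hε0 : 0 ≤ ε := by rw [hε]; positivity
  have hsq : √(2 ^ w.length * kap p n w y y) ≤ 2 ^ w.length * (1 + kap p n w y y) := by
    apply Real.sqrt_le_iff.2
    refine ⟨by positivity, ?_⟩
    have e1 : (2:ℝ) ^ w.length ≤ (2 ^ w.length) ^ 2 := le_self_pow₀ h2w1 (by norm_num)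
    have e2 : kap p n w y y ≤ (1 + kap p n w y y) ^ 2 := OPI_sq hkap
    calc (2:ℝ) ^ w.length * kap p n w y y ≤ (2 ^ w.length) ^ 2 * (1 + kap p n w y y) ^ 2 :=
          mul_le_mul e1 e2 hkap (by positivity)
      _ = _ := by ring
  have hfin : A + 2 * ε + 2 * ε * √(2 ^ w.length * kap p n w y y) ≤
      (1 + 4 * C0) * X * (1 + kap p n w y y) := by
    exact OPI_fin hA0 hε0 h2w1 hkap hAX hεX hsq
  have hgoal : (1 + 4 * C0) * n ^ 5 * hh w ^ 4 * 2 ^ hh w / η ^ 4 *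
      Real.exp (4 * √(n * E) + 2 * E - min c0 1 * η ^ 3 * NN n w y) * (1 + kap p n w y y) =
      (1 + 4 * C0) * X * (1 + kap p n w y y) := by
    rw [hX]
    ring
  rw [hgoal]
  linarith

theorem opi_ex : ∃ c C : ℝ, 0 < c ∧ 0 < C ∧
    ∀ (μ : Measure ℝ) (p : ℕ → ℝ[X]) (a b : ℕ → ℝ) (α : ℕ → ℂ), QM μ → IsJacobi μ p a b →
      Szego (sg μ) α → ∀ (w : List Bool) (n m r : ℕ) (y η : ℝ),
      1 ≤ n → y ∈ Icc (1 / 3 : ℝ) (2 / 3) → 0 < η → η ≤ 1 / 100 → 1 ≤ m → m ≤ n →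
      (m : ℝ) ≤ (1 - 2 * η) * NN n w y →
      η * NN n w y / 16 ≤ r → (r : ℝ) ≤ η * NN n w y / 4 →
      exq μ p α n m r w y ≤ kap p n w y y - kc α m y +
        C * ((n : ℝ) * hh w / η) ^ 12 * 2 ^ hh w *
          Real.exp (4 * √(n * En α (Finset.range n)) + 2 * En α (Finset.range n) -
            c * η ^ 3 * NN n w y) * (1 + kap p n w y y) := by
  obtain ⟨c, C, hc, hC, h⟩ := OPI_old
  refine ⟨c, C, hc, hC, ?_⟩
  intro μ p a b α hμ hp hS w n m r y η hn hy hη hη' hm hmn hmN hr1 hr2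
  refine (h μ p a b α hμ hp hS w n m r y η hn hy hη hη' hm hmn hmN hr1 hr2).trans ?_
  have hkap := exd_kap_nonneg p n w y
  have hn1 : (1:ℝ) ≤ n := by exact_mod_cast hn
  have hh1 : (1:ℝ) ≤ hh w := by
    have h1 := sba_len w
    have : 1 ≤ hh w := by omega
    exact_mod_cast this
  have hi : 1 ≤ 1 / η := by
    rw [le_div_iff₀ hη]
    linarith
  have e0 : (n : ℝ) ^ 5 * hh w ^ 4 / η ^ 4 ≤ ((n : ℝ) * hh w / η) ^ 12 := by
    have e1 : (n : ℝ) ^ 5 * hh w ^ 4 / η ^ 4 = (n : ℝ) ^ 5 * hh w ^ 4 * (1 / η) ^ 4 := by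
      rw [one_div, inv_pow, div_eq_mul_inv]
    have e2 : ((n : ℝ) * hh w / η) ^ 12 = (n : ℝ) ^ 12 * hh w ^ 12 * (1 / η) ^ 12 := by
      rw [div_eq_mul_one_div, mul_pow, mul_pow]
    rw [e1, e2]
    have a1 : (n : ℝ) ^ 5 ≤ (n : ℝ) ^ 12 := pow_le_pow_right₀ hn1 (by norm_num)
    have a2 : (hh w : ℝ) ^ 4 ≤ (hh w : ℝ) ^ 12 := pow_le_pow_right₀ hh1 (by norm_num)
    have a3 : (1 / η) ^ 4 ≤ (1 / η) ^ 12 := pow_le_pow_right₀ hi (by norm_num)
    exact mul_le_mul (mul_le_mul a1 a2 (by positivity) (by positivity)) a3 (by positivity)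
      (by positivity)
  have e3 : C * n ^ 5 * hh w ^ 4 * 2 ^ hh w / η ^ 4 *
      Real.exp (4 * √(n * En α (Finset.range n)) + 2 * En α (Finset.range n) -
        c * η ^ 3 * NN n w y) * (1 + kap p n w y y) =
      ((n : ℝ) ^ 5 * hh w ^ 4 / η ^ 4) * (C * 2 ^ hh w *
      Real.exp (4 * √(n * En α (Finset.range n)) + 2 * En α (Finset.range n) -
        c * η ^ 3 * NN n w y) * (1 + kap p n w y y)) := by ring
  have e4 : C * ((n : ℝ) * hh w / η) ^ 12 * 2 ^ hh w *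
      Real.exp (4 * √(n * En α (Finset.range n)) + 2 * En α (Finset.range n) -
        c * η ^ 3 * NN n w y) * (1 + kap p n w y y) =
      ((n : ℝ) * hh w / η) ^ 12 * (C * 2 ^ hh w *
      Real.exp (4 * √(n * En α (Finset.range n)) + 2 * En α (Finset.range n) -
        c * η ^ 3 * NN n w y) * (1 + kap p n w y y)) := by ring
  rw [e3, e4]
  have e5 : 0 ≤ C * 2 ^ hh w *
      Real.exp (4 * √(n * En α (Finset.range n)) + 2 * En α (Finset.range n) -
        c * η ^ 3 * NN n w y) * (1 + kap p n w y y) := by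
    have : 0 ≤ 1 + kap p n w y y := by linarith
    positivity
  have e6 := mul_le_mul_of_nonneg_right e0 e5
  linarith

end Pool.H52.MQ
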