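import Pool.Agent.H52.MQ.AST
import Pool.Agent.H52.MQ.EXC
import Pool.Agent.H52.MQ.OPI

/-! Module ASE (project MP_935a4b_QM): total excess with the chosen parameters: <= C eta n.  Uses ASD, ASN, AST, EXC, OPI, MEN.
Apply exc_total with s = iS X T (Tl X (X^174) T), w i = i.1.1, c = ic X, d = ie X, r = ir X n, eta = eX X, tau = 1/n, v = 2 X^2/X^174 = 2 X^-172.
hypotheses: asd_geom, asd_disj, asd_vol; m i in iR (asn_word: 1 <= m, m < n, m <= (1-3eta) iN <= (1-2 eta) NN y, conditions on ir).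
exq bound: opi_ex at y in Ioo (ic) (ie) (inside [1/3,2/3]), E = En(range n) <= C' log(n+2)^2 (men_energy), then ast_tau (hh <= 2X^175): the coefficient of (1+kap) is <= 1/n = tau; kap >= 0.
Result: sum <= C (eta + sqrt(2) X^-86) n + (1/n)(card s + n) + card s * C log(n+2)^2 X^340 * 36 X^172   (m_i <= n, d-c = 1/(6X^86)).
card s <= 2 X^2 X^174 X^86 = 2 X^262 <= n, so the second term is <= 2 <= eta n; third: <= 72 C X^774 log(n+2)^2 <= eta n = n X^-85 since n >= X^2000 and log(n+2)^2 <= C X (asn_log).  sqrt(2) X^-86 <= 2 eta. -/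

open MeasureTheory Set Polynomial
open scoped ENNReal

namespace Pool.H52.MQ

private theorem ASE_eta {X : ℕ} (hX : 4 ≤ X) : 0 < eX X ∧ eX X ≤ 1 / 100 := by
  have hx : (4 : ℝ) ≤ X := by exact_mod_cast hX
  unfold eX
  refine ⟨by positivity, ?_⟩
  apply one_div_le_one_div_of_le (by norm_num)
  calc (100 : ℝ) ≤ 4 ^ 4 := by norm_num
    _ ≤ (X : ℝ) ^ 4 := pow_le_pow_left₀ (by norm_num) hx 4
    _ ≤ (X : ℝ) ^ 85 := pow_le_pow_right₀ (by linarith) (by norm_num)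

private theorem ASE_sqrt {X : ℕ} (hX : 4 ≤ X) :
    √(2 * (X : ℝ) ^ 2 / ((X ^ 174 : ℕ) : ℝ)) ≤ 2 * eX X := by
  have hx : (4 : ℝ) ≤ X := by exact_mod_cast hX
  unfold eX
  apply Real.sqrt_le_iff.2
  refine ⟨by positivity, ?_⟩
  have h1 : ((X ^ 174 : ℕ) : ℝ) = (X : ℝ) ^ 174 := by push_cast; rfl
  rw [h1]
  have h2 : (2 * (1 / (X : ℝ) ^ 85)) ^ 2 = 4 / (X : ℝ) ^ 170 := by
    rw [mul_pow, div_pow, one_pow, ← pow_mul]
    norm_num
    ring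
  rw [h2, div_le_div_iff₀ (by positivity) (by positivity)]
  have h3 : (X : ℝ) ^ 174 = (X : ℝ) ^ 172 * X ^ 2 := by rw [← pow_add]
  have h4 : 2 * (X : ℝ) ^ 2 * (X : ℝ) ^ 170 = 2 * (X : ℝ) ^ 172 := by
    rw [mul_assoc, ← pow_add]
  rw [h3, h4]
  have h5 : 0 < (X : ℝ) ^ 172 := by positivity
  nlinarith [mul_le_mul_of_nonneg_left (by nlinarith : (1 : ℝ) ≤ X ^ 2) h5.le]

private theorem ASE_second {X : ℕ} (hX : 4 ≤ X) {N c : ℝ} (hN : (X : ℝ) ^ 2000 ≤ N)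
    (hc : c ≤ 2 * (X : ℝ) ^ 262) : 1 / N * (c + N) ≤ 1 * (eX X * N) := by
  have hx : (4 : ℝ) ≤ X := by exact_mod_cast hX
  have hN0 : 0 < N := lt_of_lt_of_le (by positivity) hN
  have h1 : 2 * (X : ℝ) ^ 262 ≤ N := by
    have e1 : (X : ℝ) ^ 263 ≤ (X : ℝ) ^ 2000 := pow_le_pow_right₀ (by linarith) (by norm_num)
    have e2 : (X : ℝ) ^ 263 = (X : ℝ) ^ 262 * X := pow_succ _ _
    have e3 : 0 < (X : ℝ) ^ 262 := by positivity
    nlinarith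
  have h2 : 2 * (X : ℝ) ^ 85 ≤ N := by
    have e1 : (X : ℝ) ^ 86 ≤ (X : ℝ) ^ 2000 := pow_le_pow_right₀ (by linarith) (by norm_num)
    have e2 : (X : ℝ) ^ 86 = (X : ℝ) ^ 85 * X := pow_succ _ _
    have e3 : 0 < (X : ℝ) ^ 85 := by positivity
    nlinarith
  have h3 : 1 / N * (c + N) ≤ 2 := by
    rw [one_div_mul_eq_div, div_le_iff₀ hN0]
    linarith
  have h4 : 2 ≤ eX X * N := by
    unfold eX
    rw [one_div_mul_eq_div, le_div_iff₀ (by positivity)]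
    exact h2
  linarith

private theorem ASE_third {X : ℕ} (hX : 4 ≤ X) {N c L Cx C3 : ℝ} (hN : (X : ℝ) ^ 2000 ≤ N)
    (hCx : 1 ≤ Cx) (hC3 : 1 ≤ C3) (hc : c ≤ 2 * (X : ℝ) ^ 262) (hL0 : 0 ≤ L)
    (hL : L ≤ C3 * Real.log X) :
    c * (Cx * L ^ 2 / (eX X ^ 4 * (1 / (6 * (X : ℝ) ^ 86)) ^ 2)) ≤
      72 * Cx * C3 ^ 2 * (eX X * N) := by
  have hx : (4 : ℝ) ≤ X := by exact_mod_cast hX
  have hL2 : L ^ 2 ≤ C3 ^ 2 * (X : ℝ) ^ 2 := by
    rw [← mul_pow]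
    apply pow_le_pow_left₀ hL0
    refine hL.trans (mul_le_mul_of_nonneg_left ?_ (by linarith))
    have := Real.log_le_sub_one_of_pos (by linarith : (0 : ℝ) < X)
    linarith
  have e0 : eX X ^ 4 * (1 / (6 * (X : ℝ) ^ 86)) ^ 2 = 1 / (36 * (X : ℝ) ^ 512) := by
    unfold eX
    rw [div_pow, div_pow, mul_pow, one_pow, one_pow, ← pow_mul, ← pow_mul, div_mul_div_comm,
      mul_one]
    congr 1
    rw [← mul_assoc, mul_comm ((X : ℝ) ^ (85 * 4)), mul_assoc, ← pow_add]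
    norm_num
  have e1 : c * (Cx * L ^ 2 / (eX X ^ 4 * (1 / (6 * (X : ℝ) ^ 86)) ^ 2)) =
      c * (Cx * L ^ 2 * (36 * (X : ℝ) ^ 512)) := by
    rw [e0, div_div_eq_mul_div, div_one]
  rw [e1]
  have h1 : c * (Cx * L ^ 2 * (36 * (X : ℝ) ^ 512)) ≤
      (2 * (X : ℝ) ^ 262) * (Cx * (C3 ^ 2 * (X : ℝ) ^ 2) * (36 * (X : ℝ) ^ 512)) := by
    refine mul_le_mul hc ?_ (by positivity) (by positivity)
    refine mul_le_mul_of_nonneg_right ?_ (by positivity)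
    exact mul_le_mul_of_nonneg_left hL2 (by linarith)
  refine h1.trans ?_
  have h2 : (2 * (X : ℝ) ^ 262) * (Cx * (C3 ^ 2 * (X : ℝ) ^ 2) * (36 * (X : ℝ) ^ 512)) =
      72 * Cx * C3 ^ 2 * (X : ℝ) ^ 776 := by
    have : (X : ℝ) ^ 776 = (X : ℝ) ^ 262 * (X : ℝ) ^ 2 * (X : ℝ) ^ 512 := by
      rw [← pow_add, ← pow_add]
    rw [this]
    ring
  rw [h2]
  refine mul_le_mul_of_nonneg_left ?_ (by positivity)
  unfold eX
  rw [one_div_mul_eq_div, le_div_iff₀ (by positivity), ← pow_add]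
  exact (pow_le_pow_right₀ (by linarith) (by norm_num)).trans hN

private theorem ASE_card {X : ℕ} {𝒯 : Finset (List Bool × Bool)} (hT : Tl X (X ^ 174) 𝒯) :
    ((iS X 𝒯).card : ℝ) ≤ 2 * (X : ℝ) ^ 262 := by
  have h1 : (iS X 𝒯).card = 𝒯.card * X ^ 86 := by
    unfold iS
    rw [Finset.card_product, Finset.card_range]
  have h2 : (iS X 𝒯).card ≤ 2 * X ^ 262 := by
    rw [h1]
    refine (Nat.mul_le_mul_right _ hT.card).trans (le_of_eq ?_)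
    rw [mul_assoc, mul_assoc, ← pow_add, ← pow_add]
  exact_mod_cast h2

theorem ase_total : ∃ C : ℝ, 1 ≤ C ∧ ∃ X0 : ℕ, ∀ X n : ℕ, X0 ≤ X → Par X n →
    ∀ (μ : Measure ℝ) (p : ℕ → ℝ[X]) (a b : ℕ → ℝ) (α : ℕ → ℂ),
      QM μ → IsJacobi μ p a b → Szego (sg μ) α →
      ∀ 𝒯 : Finset (List Bool × Bool), Tl X (X ^ 174) 𝒯 →
      ∀ m : Ix → ℕ, (∀ i ∈ iS X 𝒯, m i ∈ iR X n i) →
      ∑ i ∈ iS X 𝒯, ∫ y in Ioo (ic X i) (ie X i), exq μ p α n (m i) (ir X n i) i.1.1 y ∂μ ≤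
        C * eX X * n := by
  obtain ⟨Cx, hCx, hexc⟩ := exc_total
  obtain ⟨c, C0, hc, hC0, hopi⟩ := opi_ex
  obtain ⟨C', hC', hmen⟩ := men_energy
  obtain ⟨X1, hast⟩ := ast_tau c C0 C' hc hC0 hC'
  obtain ⟨X2, hX2, hasn⟩ := asn_word
  obtain ⟨C3, hC3, hlog⟩ := asn_log
  refine ⟨3 * Cx + 1 + 72 * Cx * C3 ^ 2, by nlinarith [sq_nonneg C3], max X1 X2, ?_⟩
  intro X n hX hP μ p a b α hμ hp hα 𝒯 hT m hm
  have hX1 : X1 ≤ X := (le_max_left _ _).trans hX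
  have hX2' : X2 ≤ X := (le_max_right _ _).trans hX
  have hX4 : 4 ≤ X := hX2.trans hX2'
  have hXpos : 1 ≤ X := by omega
  obtain ⟨hη, hη1⟩ := ASE_eta hX4
  obtain ⟨hL, hn1, hL1⟩ := hlog X n (by omega) hP
  have hN : (X : ℝ) ^ 2000 ≤ n := by exact_mod_cast hP.1
  have hcard := ASE_card hT
  have hn0 : (0 : ℝ) < n := by exact_mod_cast (by omega : 0 < n)
  have hword := hasn X n (X ^ 174) hX2' hP le_rfl 𝒯 hT
  have hk : ∀ i ∈ iS X 𝒯, i.2 < X ^ 86 := fun i hi =>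
    Finset.mem_range.1 (Finset.mem_product.1 hi).2
  have hgeom : ∀ i ∈ iS X 𝒯, 1 / 3 ≤ ic X i ∧ ic X i < ie X i ∧ ie X i ≤ 2 / 3 ∧
      ie X i - ic X i = 1 / (6 * (X : ℝ) ^ 86) ∧ ie X i - ic X i ≤ eX X := by
    intro i hi
    obtain ⟨g1, g2, g3, g4, g5, -⟩ := asd_geom hXpos i.1.2 (hk i hi)
    exact ⟨g1, g2, g3, g4, g5⟩
  have hE0 : 0 ≤ En α (Finset.range n) := en_nonneg hα.lt _
  have hE1 := hmen μ α hμ hα n
  have hmain := hexc μ p a b α hμ hp hα n Ix (iS X 𝒯) (fun i => i.1.1) (fun i => ic X i)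
    (fun i => ie X i) m (fun i => ir X n i) (eX X) (1 / n)
    (2 * (X : ℝ) ^ 2 / ((X ^ 174 : ℕ) : ℝ)) hn1 hη hη1 (by positivity) (by positivity)
    (fun i hi => ⟨(hgeom i hi).1, (hgeom i hi).2.1, (hgeom i hi).2.2.1, (hgeom i hi).2.2.2.2⟩)
    (asd_disj hXpos hT) (asd_vol hXpos hT)
    (fun i hi => ((hword i hi).2.2.2.2.2.2.2.2 (m i) (hm i hi)).2.1)
    (by
      intro i hi y hy
      obtain ⟨w1, w2, w3, w4, w5, w6, w7, w8, w9⟩ := hword i hi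
      obtain ⟨m1, m2, m3⟩ := w9 (m i) (hm i hi)
      have hyI : y ∈ Icc (ic X i) (ie X i) := ⟨hy.1.le, hy.2.le⟩
      obtain ⟨v1, v2, v3⟩ := w5 y hyI
      have hy3 : y ∈ Icc (1 / 3 : ℝ) (2 / 3) :=
        ⟨(hgeom i hi).1.trans hyI.1, hyI.2.trans (hgeom i hi).2.2.1⟩
      have hmn : m i ≤ n := (Finset.mem_range.1 (w8 (hm i hi))).le
      have h1 := hopi μ p a b α hμ hp hα i.1.1 n (m i) (ir X n i) y (eX X) hn1 hy3 hη hη1 m1 hmn
        (m3.trans v1) v2 v3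
      have h2 := hast X n hX1 hP i.1.1 y (En α (Finset.range n)) hy3 w4 hE0 hE1
      refine h1.trans ?_
      have h3 := exd_kap_nonneg p n i.1.1 y
      have h4 := mul_le_mul_of_nonneg_right h2 (by linarith : 0 ≤ 1 + kap p n i.1.1 y y)
      linarith)
  refine hmain.trans ?_
  have hs1 := ASE_sqrt hX4
  have hs2 := ASE_second hX4 hN hcard
  have hs3 : ∑ i ∈ iS X 𝒯, Cx * Real.log (m i + 2) ^ 2 / (eX X ^ 4 * (ie X i - ic X i) ^ 2) ≤
      72 * Cx * C3 ^ 2 * (eX X * n) := by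
    refine le_trans ?_ (ASE_third hX4 hN hCx hC3 hcard (by linarith) hL)
    rw [← nsmul_eq_mul]
    refine Finset.sum_le_card_nsmul _ _ _ ?_
    intro i hi
    rw [(hgeom i hi).2.2.2.1]
    have hmn : m i ≤ n := (Finset.mem_range.1 ((hword i hi).2.2.2.2.2.2.2.1 (hm i hi))).le
    have hmn' : (m i : ℝ) ≤ n := by exact_mod_cast hmn
    have hm0 : (0 : ℝ) ≤ m i := Nat.cast_nonneg _
    have h1 : Real.log (m i + 2) ≤ Real.log (n + 2) := Real.log_le_log (by linarith) (by linarith)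
    have h2 : 0 ≤ Real.log (m i + 2) := Real.log_nonneg (by linarith)
    have h3 : Real.log (m i + 2) ^ 2 ≤ Real.log (n + 2) ^ 2 := pow_le_pow_left₀ h2 h1 2
    refine div_le_div_of_nonneg_right ?_ (by positivity)
    exact mul_le_mul_of_nonneg_left h3 (by linarith)
  have hs4 : Cx * (eX X + √(2 * (X : ℝ) ^ 2 / ((X ^ 174 : ℕ) : ℝ))) * n ≤
      3 * Cx * (eX X * n) := by
    have e1 : Cx * (eX X + √(2 * (X : ℝ) ^ 2 / ((X ^ 174 : ℕ) : ℝ))) ≤ Cx * (3 * eX X) :=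
      mul_le_mul_of_nonneg_left (by linarith) (by linarith)
    have e2 := mul_le_mul_of_nonneg_right e1 hn0.le
    linarith
  linarith

end Pool.H52.MQ
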