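import Pool.Agent.H52.MQ.ASD
import Pool.Agent.H52.MQ.SBV
import Pool.Agent.H52.MQ.EXP

/-! Module ASM (project MP_935a4b_QM): main term and exceptional set.  Uses ASD, SBN (rs_sq, nn_var), SBV (sq_cover), EXP (exp_pair), OPT (opt_image), SBA.
T family with Tl X (X^3) T.  c = ic X i, d = ie X i, d - c = 1/(6 X^86), D = DD w c.
* asm_main: sq_cover with a = gam c, b = gam d, v = 2X^2/X^3 = 2/X: sum int_{gam c}^{gam d} sqrt(x(1-x)) >= pi/8 - 1/X.  rs_sq (y = c): each term is <= (1+C(d-c)) sqrt(gam c (1-gam c)) (d-c)/D^2.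
  So sum sqrt(..)(d-c)/D^2 >= (pi/8-1/X)/(1+C X^-86) >= pi/8 - C'/X.
* asm_inv: sum 1/D^2 <= 12 X^86: the images gam '' Ioo c d are disjoint intervals in [0,1] of length (d-c)/(D DD w d) (sba_diff) and DD w d <= (1+3(d-c)) D (nn_var) <= 2 D, so (d-c) sum 1/(2D^2) <= 1.
* asm_exc: E = iE X n T.  For i = ((w,b),k) in E there is w' /= w with (w',b) in T and the four inequalities of exp_pair at c_k = cX X b k.  So E is contained in the union over b and pairs (w,w'), of {((w,b),k) : k in S(b,w,w')};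
  words are nonempty since hh >= X >= 3 > 2 = hh [].  exp_pair with H = (X^3+2)X <= 2X^4 (X >= 2), eta = X^-85: sum_k 1/(6X^86) <= C X^(-85/4) 2X^4 <= 2C X^-17.
  Number of triples (b,w,w') <= (card T)^2 <= 4 X^10.  So card E/(6X^86) <= 8C X^-7. -/

open MeasureTheory Set
open scoped ENNReal

namespace Pool.H52.MQ

private theorem ASM_idx {X I : ℕ} (hX : 1 ≤ X) {𝒯 : Finset (List Bool × Bool)} {i : Ix}
    (hi : i ∈ iS X 𝒯) : i.1 ∈ 𝒯 ∧ i.2 < X ^ 86 ∧ 1 / 3 ≤ ic X i ∧ ic X i < ie X i ∧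
    ie X i ≤ 2 / 3 ∧ ie X i - ic X i = 1 / (6 * (X:ℝ) ^ 86) ∧ 0 * I = 0 := by
  have hi2 : i.1 ∈ 𝒯 ∧ i.2 ∈ Finset.range (X ^ 86) := Finset.mem_product.mp hi
  have hk : i.2 < X ^ 86 := Finset.mem_range.mp hi2.2
  obtain ⟨h1, h2, h3, h4, _⟩ := asd_geom hX i.1.2 hk
  exact ⟨hi2.1, hk, h1, h2, h3, h4, by simp⟩

private theorem ASM_gam0 (w : List Bool) {y : ℝ} (hy : y ∈ Icc (0:ℝ) 1) : 0 ≤ gam w y := by
  obtain ⟨h1, _, h3, _⟩ := sba_DD w hy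
  exact div_nonneg h3 (by linarith)

private theorem ASM_gam1 (w : List Bool) {y : ℝ} (hy : y ∈ Icc (0:ℝ) 1) : gam w y ≤ 1 := by
  obtain ⟨h1, _, _, h4⟩ := sba_DD w hy
  unfold gam
  rw [div_le_one (by linarith)]
  unfold BB at h4
  linarith

private theorem ASM_dis {X I : ℕ} (hX : 1 ≤ X) {𝒯 : Finset (List Bool × Bool)} (h : Tl X I 𝒯) :
    ∀ i ∈ iS X 𝒯, ∀ i' ∈ iS X 𝒯, i ≠ i' →
      Disjoint (Ioo (gam i.1.1 (ic X i)) (gam i.1.1 (ie X i)))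
        (Ioo (gam i'.1.1 (ic X i')) (gam i'.1.1 (ie X i'))) := by
  intro i hi i' hi' hne
  obtain ⟨_, _, h1, h2, h3, _⟩ := ASM_idx (I := 0) hX hi
  obtain ⟨_, _, k1, k2, k3, _⟩ := ASM_idx (I := 0) hX hi'
  have h4 := asd_disj hX h i hi i' hi' hne
  rwa [opt_image i.1.1 (by linarith) h2 (by linarith),
    opt_image i'.1.1 (by linarith) k2 (by linarith)] at h4

theorem asm_main : ∃ C : ℝ, 1 ≤ C ∧ ∀ X : ℕ, 3 ≤ X → ∀ 𝒯 : Finset (List Bool × Bool),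
    Tl X (X ^ 3) 𝒯 → Real.pi / 8 - C / X ≤ ∑ i ∈ iS X 𝒯,
      √(gam i.1.1 (ic X i) * (1 - gam i.1.1 (ic X i))) *
        (1 / (6 * (X:ℝ) ^ 86)) / DD i.1.1 (ic X i) ^ 2 := by
  obtain ⟨C₀, hC₀, hrs⟩ := rs_sq
  refine ⟨1 + C₀, by linarith, ?_⟩
  intro X hX3 𝒯 hT
  have hX : 1 ≤ X := by omega
  have hXr : (3:ℝ) ≤ X := by exact_mod_cast hX3
  have hX0 : (0:ℝ) < X := by linarith
  set S : ℝ := ∑ i ∈ iS X 𝒯, √(gam i.1.1 (ic X i) * (1 - gam i.1.1 (ic X i))) *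
        (1 / (6 * (X:ℝ) ^ 86)) / DD i.1.1 (ic X i) ^ 2 with hS
  set δ : ℝ := 1 / (6 * (X:ℝ) ^ 86) with hδ
  have hδ0 : 0 < δ := by positivity
  have hδX : δ ≤ 1 / X := by
    rw [hδ]
    apply one_div_le_one_div_of_le hX0
    have h1 : (X:ℝ) ^ 1 ≤ (X:ℝ) ^ 86 := pow_le_pow_right₀ (by linarith) (by norm_num)
    have h2 : (0:ℝ) < (X:ℝ) ^ 86 := by positivity
    rw [pow_one] at h1
    linarith
  have hcov := sq_cover (iS X 𝒯) (fun i => gam i.1.1 (ic X i)) (fun i => gam i.1.1 (ie X i))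
    (2 * (X:ℝ) ^ 2 / ((X ^ 3 : ℕ) : ℝ)) (by positivity)
    (fun i hi => by
      obtain ⟨_, _, h1, h2, h3, _⟩ := ASM_idx (I := 0) hX hi
      exact ASM_gam0 _ ⟨by linarith, by linarith⟩)
    (fun i hi => by
      obtain ⟨_, _, h1, h2, h3, _⟩ := ASM_idx (I := 0) hX hi
      exact (sba_mono i.1.1 ⟨by linarith, by linarith⟩ ⟨by linarith, by linarith⟩ h2).le)
    (fun i hi => by
      obtain ⟨_, _, h1, h2, h3, _⟩ := ASM_idx (I := 0) hX hi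
      exact ASM_gam1 _ ⟨by linarith, by linarith⟩)
    (fun i hi i' hi' hne => ASM_dis hX hT i hi i' hi' hne)
    (by
      have h1 := asd_vol hX hT
      have h2 : (⋃ i ∈ iS X 𝒯, gam i.1.1 '' Ioo (ic X i) (ie X i)) =
          ⋃ i ∈ iS X 𝒯, Ioo (gam i.1.1 (ic X i)) (gam i.1.1 (ie X i)) := by
        refine Set.iUnion₂_congr ?_
        intro i hi
        obtain ⟨_, _, h1, h2, h3, _⟩ := ASM_idx (I := 0) hX hi
        exact opt_image i.1.1 (by linarith) h2 (by linarith)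
      rw [h2] at h1
      exact h1)
  have hv : 2 * (X:ℝ) ^ 2 / ((X ^ 3 : ℕ) : ℝ) / 2 = 1 / X := by
    push_cast
    field_simp
  rw [hv] at hcov
  have hle : ∑ i ∈ iS X 𝒯, ∫ x in (gam i.1.1 (ic X i))..(gam i.1.1 (ie X i)), √(x * (1 - x)) ≤
      (1 + C₀ * δ) * S := by
    rw [hS, Finset.mul_sum]
    refine Finset.sum_le_sum fun i hi => ?_
    obtain ⟨_, _, h1, h2, h3, h4, _⟩ := ASM_idx (I := 0) hX hi
    have h5 := hrs i.1.1 (ic X i) (ie X i) (ic X i) h1 h2 h3 ⟨le_rfl, h2.le⟩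
    rw [h4, ← hδ] at h5
    refine h5.trans (le_of_eq ?_)
    ring
  have hS0 : 0 ≤ S := by
    rw [hS]
    refine Finset.sum_nonneg fun i hi => ?_
    positivity
  have h1 : Real.pi / 8 - 1 / X ≤ (1 + C₀ * δ) * S := hcov.trans hle
  have hC0X : (1 + C₀) / X = 1 / X + C₀ * (1 / X) := by ring
  rw [hC0X]
  have h1X : 0 < 1 / (X:ℝ) := by positivity
  have hpi : Real.pi / 8 ≤ 1 := by linarith [Real.pi_le_four]
  by_cases hS1 : S ≤ 1
  · have h2 : C₀ * δ * S ≤ C₀ * (1 / X) := by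
      have h3 : C₀ * δ * S ≤ C₀ * δ * 1 := mul_le_mul_of_nonneg_left hS1 (by positivity)
      have h4 : C₀ * δ ≤ C₀ * (1 / X) := mul_le_mul_of_nonneg_left hδX (by linarith)
      linarith
    linarith
  · push Not at hS1
    have h2 : 0 ≤ C₀ * (1 / (X:ℝ)) := by positivity
    linarith

theorem asm_inv {X I : ℕ} (hX : 1 ≤ X) {𝒯 : Finset (List Bool × Bool)} (h : Tl X I 𝒯) :
    ∑ i ∈ iS X 𝒯, 1 / DD i.1.1 (ic X i) ^ 2 ≤ 12 * (X:ℝ) ^ 86 := by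
  have hX0 : (0:ℝ) < X := by exact_mod_cast hX
  have hsp := SBV_split (iS X 𝒯) (fun i => gam i.1.1 (ic X i)) (fun i => gam i.1.1 (ie X i))
    (fun _ => (1:ℝ)) (integrableOn_const (by simp))
    (fun i hi => by
      obtain ⟨_, _, h1, h2, h3, _⟩ := ASM_idx (I := 0) hX hi
      exact ASM_gam0 _ ⟨by linarith, by linarith⟩)
    (fun i hi => by
      obtain ⟨_, _, h1, h2, h3, _⟩ := ASM_idx (I := 0) hX hi
      exact (sba_mono i.1.1 ⟨by linarith, by linarith⟩ ⟨by linarith, by linarith⟩ h2).le)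
    (fun i hi => by
      obtain ⟨_, _, h1, h2, h3, _⟩ := ASM_idx (I := 0) hX hi
      exact ASM_gam1 _ ⟨by linarith, by linarith⟩)
    (fun i hi i' hi' hne => ASM_dis hX h i hi i' hi' hne)
  have h1 : (∫ x in Icc (0:ℝ) 1, (1:ℝ)) = 1 := by simp
  have h2 : 0 ≤ ∫ x in Icc (0:ℝ) 1 \ ⋃ i ∈ iS X 𝒯,
      Ioo (gam i.1.1 (ic X i)) (gam i.1.1 (ie X i)), (1:ℝ) := by
    exact integral_nonneg fun _ => zero_le_one
  rw [h1] at hsp
  have h3 : ∑ i ∈ iS X 𝒯, (gam i.1.1 (ie X i) - gam i.1.1 (ic X i)) ≤ 1 := by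
    have h4 : ∑ i ∈ iS X 𝒯, ∫ _ in (gam i.1.1 (ic X i))..(gam i.1.1 (ie X i)), (1:ℝ) =
        ∑ i ∈ iS X 𝒯, (gam i.1.1 (ie X i) - gam i.1.1 (ic X i)) := by
      refine Finset.sum_congr rfl fun i _ => ?_
      simp
    rw [← h4]
    linarith
  have h5 : ∑ i ∈ iS X 𝒯, 1 / (12 * (X:ℝ) ^ 86) * (1 / DD i.1.1 (ic X i) ^ 2) ≤ 1 := by
    refine le_trans (Finset.sum_le_sum fun i hi => ?_) h3
    obtain ⟨_, _, k1, k2, k3, k4, _⟩ := ASM_idx (I := 0) hX hi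
    have hc : ic X i ∈ Icc (0:ℝ) 1 := ⟨by linarith, by linarith⟩
    have hd : ie X i ∈ Icc (0:ℝ) 1 := ⟨by linarith, by linarith⟩
    rw [sba_diff _ hd hc, k4]
    have hDc := (sba_DD i.1.1 hc).1
    have hDd := (sba_DD i.1.1 hd).1
    have hD : DD i.1.1 (ie X i) ≤ 2 * DD i.1.1 (ic X i) := by
      unfold DD
      have q1 : (0:ℝ) ≤ lq i.1.1 := Nat.cast_nonneg _
      have q2 : (0:ℝ) ≤ rq i.1.1 := Nat.cast_nonneg _
      have e1 : (lq i.1.1 : ℝ) * (1 - ie X i) ≤ lq i.1.1 * (2 * (1 - ic X i)) :=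
        mul_le_mul_of_nonneg_left (by linarith) q1
      have e2 : (rq i.1.1 : ℝ) * ie X i ≤ rq i.1.1 * (2 * ic X i) :=
        mul_le_mul_of_nonneg_left (by linarith) q2
      linarith
    have hX86 : (0:ℝ) < (X:ℝ) ^ 86 := by positivity
    rw [div_div, one_div_mul_one_div]
    apply one_div_le_one_div_of_le
    · positivity
    · calc 6 * (X:ℝ) ^ 86 * (DD i.1.1 (ie X i) * DD i.1.1 (ic X i))
          ≤ 6 * (X:ℝ) ^ 86 * (2 * DD i.1.1 (ic X i) * DD i.1.1 (ic X i)) :=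
            mul_le_mul_of_nonneg_left (mul_le_mul_of_nonneg_right hD (by linarith)) (by positivity)
        _ = 12 * (X:ℝ) ^ 86 * DD i.1.1 (ic X i) ^ 2 := by ring
  rw [← Finset.mul_sum] at h5
  have hX86 : (0:ℝ) < 12 * (X:ℝ) ^ 86 := by positivity
  rw [one_div, inv_mul_le_iff₀ hX86] at h5
  linarith

private theorem ASM_root {X : ℕ} (hX : 1 ≤ X) : eX X ^ (1 / 4 : ℝ) ≤ 1 / (X:ℝ) ^ 21 := by
  have hX1 : (1:ℝ) ≤ X := by exact_mod_cast hX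
  have h1 : eX X ≤ (1 / (X:ℝ) ^ 21) ^ 4 := by
    unfold eX
    rw [div_pow, one_pow, ← pow_mul]
    apply one_div_le_one_div_of_le (by positivity)
    exact pow_le_pow_right₀ hX1 (by norm_num)
  have h0 : 0 ≤ eX X := by unfold eX; positivity
  have h2 : eX X ^ (1 / 4 : ℝ) ≤ ((1 / (X:ℝ) ^ 21) ^ 4) ^ (1 / 4 : ℝ) :=
    Real.rpow_le_rpow h0 h1 (by norm_num)
  have h3 : ((1 / (X:ℝ) ^ 21) ^ 4) ^ (1 / 4 : ℝ) = 1 / (X:ℝ) ^ 21 := by
    have h4 := Real.pow_rpow_inv_natCast (x := 1 / (X:ℝ) ^ 21) (n := 4) (by positivity) (by norm_num)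
    rw [← h4]
    congr 1
    · rw [h4]
    · norm_num
  rwa [h3] at h2

theorem asm_exc : ∃ C : ℝ, 1 ≤ C ∧ ∀ X n : ℕ, 3 ≤ X → 1 ≤ n → ∀ 𝒯 : Finset (List Bool × Bool),
    Tl X (X ^ 3) 𝒯 → ((iE X n 𝒯).card : ℝ) / (6 * (X:ℝ) ^ 86) ≤ C / (X:ℝ) ^ 7 := by
  classical
  obtain ⟨C₀, hC₀, hexp⟩ := exp_pair
  refine ⟨8 * C₀, by linarith, ?_⟩
  intro X n hX3 hn 𝒯 hT
  have hX : 1 ≤ X := by omega
  have hXr : (3:ℝ) ≤ X := by exact_mod_cast hX3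
  have hX0 : (0:ℝ) < X := by linarith
  set P : (List Bool × Bool) → (List Bool × Bool) → ℕ → Prop := fun x x' k =>
    x'.2 = x.2 ∧ x' ≠ x ∧ ∃ t : ℝ,
    (1 - 4 * eX X) * iN X n (x, k) ≤ t ∧ t ≤ (1 - 3 * eX X) * iN X n (x, k) ∧
    (1 - 4 * eX X) * iN X n (x', k) ≤ t ∧ t ≤ (1 - 3 * eX X) * iN X n (x', k) with hP
  set T : (List Bool × Bool) × (List Bool × Bool) → Finset ℕ := fun q =>
    (Finset.range (X ^ 86)).filter (fun k => P q.1 q.2 k) with hTdef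
  have hsub : iE X n 𝒯 ⊆ (𝒯 ×ˢ 𝒯).biUnion (fun q => (T q).image (fun k => ((q.1, k) : Ix))) := by
    intro i hi
    unfold iE at hi
    rw [Finset.mem_filter] at hi
    obtain ⟨hi1, x', hx', h1, h2, t, h3⟩ := hi
    obtain ⟨hi2, hk, _⟩ := ASM_idx (I := 0) hX hi1
    rw [Finset.mem_biUnion]
    refine ⟨(i.1, x'), Finset.mem_product.mpr ⟨hi2, hx'⟩, ?_⟩
    rw [Finset.mem_image]
    refine ⟨i.2, ?_, rfl⟩
    rw [hTdef]
    simp only
    rw [Finset.mem_filter]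
    exact ⟨Finset.mem_range.mpr hk, h1, h2, t, h3⟩
  have hcard : (iE X n 𝒯).card ≤ ∑ q ∈ 𝒯 ×ˢ 𝒯, (T q).card := by
    refine (Finset.card_le_card hsub).trans (Finset.card_biUnion_le.trans ?_)
    exact Finset.sum_le_sum fun q _ => Finset.card_image_le
  -- one pair
  have hXX : (0:ℝ) < 6 * (X:ℝ) ^ 86 := by positivity
  have hη0 : 0 < eX X := by unfold eX; positivity
  have hη1 : eX X ≤ 1 / 100 := by
    unfold eX
    apply one_div_le_one_div_of_le (by norm_num)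
    have h1 : (3:ℝ) ^ 5 ≤ (X:ℝ) ^ 5 := pow_le_pow_left₀ (by norm_num) hXr 5
    have h2 : (X:ℝ) ^ 5 ≤ (X:ℝ) ^ 85 := pow_le_pow_right₀ (by linarith) (by norm_num)
    norm_num at h1
    linarith
  have hhX : ∀ x ∈ 𝒯, (hh x.1 : ℝ) ≤ 2 * (X:ℝ) ^ 4 ∧ x.1 ≠ [] := by
    intro x hx
    constructor
    · have h1 : hh x.1 ≤ (X ^ 3 + 2) * X := hT.hup x hx
      have h2 : (hh x.1 : ℝ) ≤ ((X:ℝ) ^ 3 + 2) * X := by exact_mod_cast h1
      have h3 : ((X:ℝ) ^ 3 + 2) * X = (X:ℝ) ^ 4 + 2 * X := by ring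
      have h4 : (X:ℝ) ^ 1 * 27 ≤ (X:ℝ) ^ 4 := by
        have h5 : (3:ℝ) ^ 3 ≤ (X:ℝ) ^ 3 := pow_le_pow_left₀ (by norm_num) hXr 3
        have h6 : (X:ℝ) ^ 4 = (X:ℝ) ^ 1 * (X:ℝ) ^ 3 := by ring
        rw [h6]
        norm_num at h5 ⊢
        exact mul_le_mul_of_nonneg_left h5 hX0.le
      rw [pow_one] at h4
      linarith
    · intro h0
      have h1 := hT.hlow x hx
      rw [h0] at h1
      have h2 : hh ([] : List Bool) = 2 := rfl
      omega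
  have hone : ∀ q ∈ 𝒯 ×ˢ 𝒯, ((T q).card : ℝ) / (6 * (X:ℝ) ^ 86) ≤ 2 * C₀ / (X:ℝ) ^ 17 := by
    intro q hq
    have hq1 := Finset.mem_product.mp hq
    by_cases hne : (T q) = ∅
    · rw [hne]
      simp only [Finset.card_empty, Nat.cast_zero, zero_div]
      positivity
    · obtain ⟨k₀, hk₀⟩ := Finset.nonempty_iff_ne_empty.mpr hne
      have hP0 : P q.1 q.2 k₀ := (Finset.mem_filter.mp hk₀).2
      have hb : q.2.2 = q.1.2 := hP0.1
      have hw : q.1.1 ≠ q.2.1 := by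
        intro he
        exact hP0.2.1 (Prod.ext he.symm hb)
      have h1 := hexp n q.1.1 q.2.1 (2 * (X:ℝ) ^ 4) (eX X) (T q) (fun k => cX X q.1.2 k)
        (fun k => cX X q.1.2 (k + 1)) hn hw (hhX _ hq1.1).2 (hhX _ hq1.2).2 (hhX _ hq1.1).1
        (hhX _ hq1.2).1 hη0 hη1
        (fun k hk => by
          have hk1 : k < X ^ 86 := Finset.mem_range.mp (Finset.mem_filter.mp hk).1
          obtain ⟨g1, g2, g3, _, g5, _⟩ := asd_geom hX q.1.2 hk1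
          exact ⟨g1, g2, g3, g5⟩)
        (fun k _ k' _ hkk => asd_pair hX q.1.2 hkk)
        (fun k hk => by
          have hPk : P q.1 q.2 k := (Finset.mem_filter.mp hk).2
          obtain ⟨p1, p2, t, p3, p4, p5, p6⟩ := hPk
          refine ⟨t, p3, p4, ?_, ?_⟩
          · have : iN X n (q.2, k) = NN n q.2.1 (cX X q.1.2 k) := by
              unfold iN ic
              rw [hb]
            rw [← this]
            exact p5
          · have : iN X n (q.2, k) = NN n q.2.1 (cX X q.1.2 k) := by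
              unfold iN ic
              rw [hb]
            rw [← this]
            exact p6)
      have h2 : ∑ k ∈ T q, (cX X q.1.2 (k + 1) - cX X q.1.2 k) =
          ((T q).card : ℝ) / (6 * (X:ℝ) ^ 86) := by
        rw [Finset.sum_congr rfl (fun k hk => by
          have hk1 : k < X ^ 86 := Finset.mem_range.mp (Finset.mem_filter.mp hk).1
          exact (asd_geom hX q.1.2 hk1).2.2.2.1)]
        rw [Finset.sum_const, nsmul_eq_mul]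
        ring
      rw [h2] at h1
      refine h1.trans ?_
      have h3 := ASM_root hX
      have h4 : C₀ * eX X ^ (1 / 4 : ℝ) * (2 * (X:ℝ) ^ 4) ≤ C₀ * (1 / (X:ℝ) ^ 21) * (2 * (X:ℝ) ^ 4) :=
        mul_le_mul_of_nonneg_right (mul_le_mul_of_nonneg_left h3 (by linarith)) (by positivity)
      refine h4.trans (le_of_eq ?_)
      field_simp
  have hcT : ((𝒯 ×ˢ 𝒯).card : ℝ) ≤ 4 * (X:ℝ) ^ 10 := by
    rw [Finset.card_product]
    have h1 : 𝒯.card ≤ 2 * X ^ 2 * X ^ 3 := hT.card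
    have h2 : (𝒯.card : ℝ) ≤ 2 * (X:ℝ) ^ 5 := by
      have h3 : 2 * X ^ 2 * X ^ 3 = 2 * X ^ 5 := by ring
      rw [h3] at h1
      exact_mod_cast h1
    push_cast
    calc (𝒯.card : ℝ) * 𝒯.card ≤ (2 * (X:ℝ) ^ 5) * (2 * (X:ℝ) ^ 5) :=
          mul_le_mul h2 h2 (Nat.cast_nonneg _) (by positivity)
      _ = 4 * (X:ℝ) ^ 10 := by ring
  have hcard' : ((iE X n 𝒯).card : ℝ) ≤ ∑ q ∈ 𝒯 ×ˢ 𝒯, ((T q).card : ℝ) := by
    exact_mod_cast hcard
  calc ((iE X n 𝒯).card : ℝ) / (6 * (X:ℝ) ^ 86)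
      ≤ (∑ q ∈ 𝒯 ×ˢ 𝒯, ((T q).card : ℝ)) / (6 * (X:ℝ) ^ 86) :=
        div_le_div_of_nonneg_right hcard' hXX.le
    _ = ∑ q ∈ 𝒯 ×ˢ 𝒯, ((T q).card : ℝ) / (6 * (X:ℝ) ^ 86) := by rw [Finset.sum_div]
    _ ≤ ∑ q ∈ 𝒯 ×ˢ 𝒯, 2 * C₀ / (X:ℝ) ^ 17 := Finset.sum_le_sum hone
    _ = ((𝒯 ×ˢ 𝒯).card : ℝ) * (2 * C₀ / (X:ℝ) ^ 17) := by
        rw [Finset.sum_const, nsmul_eq_mul]
    _ ≤ (4 * (X:ℝ) ^ 10) * (2 * C₀ / (X:ℝ) ^ 17) :=
        mul_le_mul_of_nonneg_right hcT (by positivity)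
    _ = 8 * C₀ / (X:ℝ) ^ 7 := by
        field_simp
        ring

end Pool.H52.MQ
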