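import Pool.Agent.H52.MQ.ASE
import Pool.Agent.H52.MQ.ASM
import Pool.Agent.H52.MQ.ASB

/-! Module ASF (project MP_935a4b_QM): the final inequality.  Uses everything above.
Let n >= 1 (so KK p n, a n with n = n'+1), X >= X0, delta in (0,1/22].  tiles X gives the monotone family F; T1 = F (X^3), T2 = F (X^174), T1 inside T2 (Monotone, X^3 <= X^174); Tl X (X^3) T1 and Tl X (X^174) T2.
msg_szego: alpha.  asb_choice (T1): m, B.  Extend m to iS X T2: on i not in iG X n T1 take any element of iR X n i (nonempty: asn_word, card >= eta N/2 > 0).  ase_total: sum_{iS X T2} int exq <= C eta n; since exq >= 0 the sum over iG X n T1 (a subset of iS X T2) is also <= C eta n.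
For i in G := iG X n T1 apply loc_good with m i, r = ir X n i, l = lX X n, c = ic, d = ie, rho = rhoX X, s0_i = min(2 sqrt(c(1-c)), 2 sqrt(d(1-d))) (>= 2 sqrt(2)/3 >= 1/2), Dm_i = (1+3(d-c)) DD w c (nn_var), asn_tail: Jg_i, with
 bad_i := card Jin - card Jg <= (4l/delta) av(g_i B(m i)) + (C/delta^2) int exq.
opt_tiles (level n = n'+1, s = G, e i = c i, eps = 1/(6X^86), J i = Jg_i, v i j = (1-22 delta) s0_i/(16 l Dm_i^2)):  (4 a_n - 1)^2 <= 1 - 16 S + 8/(6X^86),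
 S = sum_{i in G} sqrt(x_i(1-x_i)) card(Jg_i) (1-22 delta) s0_i/(16 l Dm_i^2),  x_i = gam w c.
card Jg_i >= 4 l om_i - 4 l rho/pi - 1 - bad_i (arc_card_lower).  With q = d-c = 1/(6X^86):
 s0_i om_i >= (2/pi) q s0_i/S_i (arc_om, S_i = max over [c,d] of 2 sqrt(t(1-t)) <= s0_i + 2q-ish <= s0_i (1+8q): |d/dt 2 sqrt(t(1-t))| = |1-2t|/sqrt(t(1-t)) <= 1 on [1/3,2/3]), 1/Dm_i^2 >= (1-6q)/D_i^2.
 main part: sum_{i in G} sqrt(x(1-x)) (1-22 delta)/(4 D_i^2) (2/pi) q (1-20 q) = (1-22 delta)(1-20q)(1/(2pi)) sum_{i in G} sqrt(x(1-x)) q/D_i^2 >= (1-22 delta)(1-20q)(1/(2 pi))(pi/8 - C/X - C/X^7)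
   (asm_main; the sum over iE is <= (1/2) q card iE <= C/X^7 since D >= 1, asm_exc).
 losses: sum_{i} (1/2)(1/(16 l D_i^2))(4 l rho/pi + 1 + bad_i) <= (rho/8 + 1/(32 l)) 12 X^86 (asm_inv) + (1/(32 l)) sum bad_i/D_i^2;
   rho X^86 = 1/X, X^86/l <= 8 X^172/n <= 1/X;
   sum (1/(l D_i^2)) (4l/delta) av(g_iB(m i)) <= (4/delta)(11/(10 n)) sum N_i av(..) (nn_bounds: n <= (11/10) D^2 N) <= (5/(delta n)) C l log(n+2)^2/(eta delta^2) <= C log(n+2)^2/(X delta^3)   (l <= n/(4X^86), eta = X^-85);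
   sum (1/(l D_i^2)) (C/delta^2) int exq <= (9/X^2)(8X^86/n)(C/delta^2) C eta n = C/(X delta^2)   (D >= hh/3 >= X/3 by nn_bounds; l >= n/(8X^86)).
Total: 16 S >= (1-22 delta) - C_delta log(n+2)^2/X  (log(n+2) >= 1: asn_log).  So (4a_n-1)^2 <= 22 delta + C_delta log(n+2)^2/X. -/

open MeasureTheory Set Polynomial
open scoped ENNReal ComplexConjugate

namespace Pool.H52.MQ

private theorem ASF_term {δ q D Dm s0 om sx l ρ bad J : ℝ} (hδ : 0 < δ) (hδ1 : δ ≤ 1 / 22) (hq : 0 < q)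
    (hq1 : q ≤ 1 / 100) (hD : 1 ≤ D) (hDm : Dm = (1 + 3 * q) * D) (hs0 : 1 / 2 ≤ s0) (hs1 : s0 ≤ 1)
    (hom : 2 * q ≤ Real.pi * (s0 + q) * om) (hsx0 : 0 ≤ sx) (hsx : sx ≤ 1 / 2) (hl : 1 ≤ l)
    (hρ : 0 ≤ ρ) (hbad : 0 ≤ bad) (hJ : 4 * l * (om - ρ / Real.pi) - 1 - bad ≤ J) :
    (1 - 22 * δ) * (1 - 20 * q) / (2 * Real.pi) * (sx * q / D ^ 2) -
      (4 * l * ρ / Real.pi + 1 + bad) / (32 * l * D ^ 2) ≤
      sx * (J * ((1 - 22 * δ) * s0 / (16 * l * Dm ^ 2))) := by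
  have hpi := Real.pi_pos
  have hom0 : 0 < om := by
    by_contra h
    push Not at h
    have : Real.pi * (s0 + q) * om ≤ 0 := mul_nonpos_of_nonneg_of_nonpos (by positivity) h
    linarith
  have hd0 : 0 ≤ 1 - 22 * δ := by linarith
  have hDm0 : 0 < Dm := by rw [hDm]; positivity
  have hDmD : D ≤ Dm := by rw [hDm]; nlinarith
  set K := (1 - 22 * δ) * s0 / (16 * l * Dm ^ 2) with hK
  have hK0 : 0 ≤ K := by positivity
  have h1 : sx * (K * (4 * l * (om - ρ / Real.pi) - 1 - bad)) ≤ sx * (J * K) := by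
    apply mul_le_mul_of_nonneg_left _ hsx0
    rw [mul_comm J K]
    exact mul_le_mul_of_nonneg_left hJ hK0
  refine le_trans ?_ h1
  have h2 : sx * (K * (4 * l * (om - ρ / Real.pi) - 1 - bad)) =
      sx * (K * (4 * l * om)) - sx * K * (4 * l * ρ / Real.pi + 1 + bad) := by
    field_simp
    ring
  rw [h2]
  apply sub_le_sub
  · -- main part
    have e1 : sx * (K * (4 * l * om)) = sx * (1 - 22 * δ) * (s0 * om / (4 * Dm ^ 2)) := by
      rw [hK]; field_simp; ring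
    have e2 : (1 - 22 * δ) * (1 - 20 * q) / (2 * Real.pi) * (sx * q / D ^ 2) =
        sx * (1 - 22 * δ) * ((1 - 20 * q) * q / (2 * Real.pi * D ^ 2)) := by
      field_simp
    rw [e1, e2]
    apply mul_le_mul_of_nonneg_left _ (by positivity)
    rw [div_le_div_iff₀ (by positivity) (by positivity), hDm]
    have h3 : 2 * q ≤ Real.pi * (s0 * om) * (1 + 2 * q) := by
      refine hom.trans ?_
      have : (s0 + q) ≤ s0 * (1 + 2 * q) := by nlinarith
      calc Real.pi * (s0 + q) * om ≤ Real.pi * (s0 * (1 + 2 * q)) * om := by gcongr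
        _ = _ := by ring
    have h4 : (1 - 20 * q) * (1 + 3 * q) ^ 2 * (1 + 2 * q) ≤ 1 := by
      nlinarith [mul_pos hq hq, mul_pos (mul_pos hq hq) hq, mul_pos (mul_pos hq hq) (mul_pos hq hq)]
    have h5 : 2 * q * ((1 - 20 * q) * (1 + 3 * q) ^ 2) ≤ Real.pi * (s0 * om) := by
      have h6 : 2 * q * ((1 - 20 * q) * (1 + 3 * q) ^ 2) * (1 + 2 * q) ≤
          Real.pi * (s0 * om) * (1 + 2 * q) := by nlinarith
      exact le_of_mul_le_mul_right h6 (by positivity)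
    have h7 : 0 < D ^ 2 := by positivity
    nlinarith [mul_le_mul_of_nonneg_left h5 (by positivity : 0 ≤ 2 * D ^ 2)]
  · have h3 : sx * K ≤ 1 / (32 * l * D ^ 2) := by
      have : K ≤ 1 / (16 * l * D ^ 2) := by
        rw [hK]
        apply div_le_div₀ (by norm_num) _ (by positivity)
        · have : D ^ 2 ≤ Dm ^ 2 := by gcongr
          nlinarith
        · nlinarith
      calc sx * K ≤ 1 / 2 * (1 / (16 * l * D ^ 2)) := by gcongr
        _ = _ := by field_simp; norm_num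
    calc sx * K * (4 * l * ρ / Real.pi + 1 + bad) ≤ 1 / (32 * l * D ^ 2) * (4 * l * ρ / Real.pi + 1 + bad) := by
          gcongr
      _ = _ := by ring

private theorem ASF_sqrt {c t q : ℝ} (hc : 1 / 3 ≤ c) (hc' : c ≤ 2 / 3) (ht : 1 / 3 ≤ t) (ht' : t ≤ 2 / 3)
    (hq : 0 ≤ q) (h : |t - c| ≤ q) : 2 * √(t * (1 - t)) ≤ 2 * √(c * (1 - c)) + q := by
  have hB : 2 / 9 ≤ c * (1 - c) := by nlinarith
  have hsB : 1 / 3 ≤ √(c * (1 - c)) := by
    apply Real.le_sqrt_of_sq_le; linarith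
  have hsq := Real.sq_sqrt (show 0 ≤ c * (1 - c) by linarith)
  have key : √(t * (1 - t)) ≤ √(c * (1 - c)) + q / 2 := by
    apply Real.sqrt_le_iff.2
    refine ⟨by positivity, ?_⟩
    have h1 : t * (1 - t) - c * (1 - c) ≤ q * (1 / 3) := by
      have : t * (1 - t) - c * (1 - c) = (t - c) * (1 - t - c) := by ring
      rw [this]
      have h2 : |1 - t - c| ≤ 1 / 3 := by rw [abs_le]; constructor <;> linarith
      calc (t - c) * (1 - t - c) ≤ |(t - c) * (1 - t - c)| := le_abs_self _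
        _ = |t - c| * |1 - t - c| := abs_mul _ _
        _ ≤ q * (1 / 3) := by gcongr
    nlinarith
  linarith

set_option exponentiation.threshold 3000 in
private theorem ASF_par {X n : ℕ} (hX : 1 ≤ X) (h : Par X n) : (X:ℝ) ^ 173 ≤ n := by
  have h1 : X ^ 173 ≤ X ^ 2000 := Nat.pow_le_pow_right hX (by norm_num)
  have h2 : X ^ 173 ≤ n := h1.trans h.1
  exact_mod_cast h2

private theorem ASF_av {f : ℂ → ℝ} (hf : ∀ w, 0 ≤ f w) : 0 ≤ av f := by
  unfold av Real.circleAverage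
  rw [smul_eq_mul]
  apply mul_nonneg (by positivity)
  apply intervalIntegral.integral_nonneg (by positivity)
  intro t _
  exact hf _

private theorem ASF_final {δ q K S Xr L C1 C2 R5 R6 M y l1 l2 l3 : ℝ} (hδ : 0 < δ) (hδ1 : δ ≤ 1 / 22)
    (hX : 4 ≤ Xr) (hq0 : 0 < q) (hq1 : q ≤ 1 / 100) (hqX : q ≤ 1 / (6 * Xr)) (hL : 1 ≤ L) (hC1 : 1 ≤ C1)
    (hC2 : 1 ≤ C2) (hR5 : 0 ≤ R5) (hR6 : 0 ≤ R6)
    (hK : K = (1 - 22 * δ) * (1 - 20 * q) / (2 * Real.pi))
    (hM : Real.pi / 8 - C1 / Xr - C2 / Xr ≤ M) (hl1 : l1 ≤ 7 / 2 / Xr) (hl2 : l2 ≤ R5 * (L ^ 2 / Xr))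
    (hl3 : l3 ≤ R6 / Xr) (hS : K * M - l1 - l2 - l3 ≤ S) (hy : y ≤ 1 - 16 * S + 8 * q) :
    y ≤ 22 * δ + (16 * (C1 + C2 + 10 + R5 + R6) + 10) * L ^ 2 / Xr := by
  have hpi := Real.pi_pos
  have hpi3 := Real.pi_gt_three
  have hK0 : 0 ≤ K := by
    rw [hK]
    apply div_nonneg (mul_nonneg (by linarith) (by linarith)) (by positivity)
  have hK1 : K ≤ 1 / 6 := by
    rw [hK, div_le_div_iff₀ (by positivity) (by norm_num)]
    nlinarith
  have hKpi : (1 - 22 * δ) - 20 * q ≤ 16 * (K * (Real.pi / 8)) := by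
    have : 16 * (K * (Real.pi / 8)) = (1 - 22 * δ) * (1 - 20 * q) := by
      rw [hK]; field_simp; ring
    rw [this]
    nlinarith
  have hXp : 0 < Xr := by linarith
  set u := 1 / Xr with hu
  have hu0 : 0 < u := by positivity
  have e1 : C1 / Xr = C1 * u := by rw [hu]; ring
  have e2 : C2 / Xr = C2 * u := by rw [hu]; ring
  have e3 : 7 / 2 / Xr = 7 / 2 * u := by rw [hu]; ring
  have e4 : L ^ 2 / Xr = L ^ 2 * u := by rw [hu]; ring
  have e5 : R6 / Xr = R6 * u := by rw [hu]; ring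
  have e6 : 1 / (6 * Xr) = u / 6 := by rw [hu]; field_simp
  have e7 : (16 * (C1 + C2 + 10 + R5 + R6) + 10) * L ^ 2 / Xr =
      (16 * (C1 + C2 + 10 + R5 + R6) + 10) * (L ^ 2 * u) := by rw [hu]; ring
  rw [e1, e2] at hM
  rw [e3] at hl1
  rw [e4] at hl2
  rw [e5] at hl3
  rw [e6] at hqX
  rw [e7]
  have hL2 : 1 ≤ L ^ 2 := one_le_pow₀ hL
  have hLu : u ≤ L ^ 2 * u := by nlinarith
  have h1 : K * (Real.pi / 8) - 1 / 6 * (C1 * u + C2 * u) ≤ K * M := by
    have : K * (Real.pi / 8 - C1 * u - C2 * u) ≤ K * M := mul_le_mul_of_nonneg_left hM hK0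
    have h2 : K * (C1 * u + C2 * u) ≤ 1 / 6 * (C1 * u + C2 * u) :=
      mul_le_mul_of_nonneg_right hK1 (by positivity)
    nlinarith
  have h3 : (C1 + C2 + 10 + R6) * u ≤ (C1 + C2 + 10 + R6) * (L ^ 2 * u) :=
    mul_le_mul_of_nonneg_left hLu (by positivity)
  nlinarith

private theorem ASF_loss1 {X : ℕ} {l ρ N : ℝ} (hXr : (4:ℝ) ≤ X) (hl : 1 ≤ l)
    (hlow : N / (8 * (X:ℝ) ^ 86) ≤ l) (h173 : (X:ℝ) ^ 173 ≤ N) (hN : 0 < N) (hρ : ρ = rhoX X) :
    (4 * l * ρ / Real.pi + 1) / (32 * l) * (12 * (X:ℝ) ^ 86) ≤ 7 / 2 / (X:ℝ) := by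
  have hpi := Real.pi_pos
  have hpi3 := Real.pi_gt_three
  have hX0 : (0:ℝ) < X := by linarith
  have e1 : (4 * l * ρ / Real.pi + 1) / (32 * l) * (12 * (X:ℝ) ^ 86) =
      3 / (2 * Real.pi) * (ρ * (X:ℝ) ^ 86) + 3 / 8 * ((X:ℝ) ^ 86 / l) := by
    field_simp
    ring
  have e2 : ρ * (X:ℝ) ^ 86 = 1 / X := by
    rw [hρ]; unfold rhoX
    rw [show (X:ℝ) ^ 87 = (X:ℝ) ^ 86 * X by ring]
    field_simp
  have e3 : (X:ℝ) ^ 86 / l ≤ 8 / X := by
    rw [div_le_div_iff₀ (by linarith) hX0]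
    rw [div_le_iff₀ (by positivity)] at hlow
    have : (X:ℝ) ^ 86 * X * (X:ℝ) ^ 86 ≤ 8 * l * (X:ℝ) ^ 86 := by
      calc (X:ℝ) ^ 86 * X * (X:ℝ) ^ 86 = (X:ℝ) ^ 173 := by ring
        _ ≤ N := h173
        _ ≤ l * (8 * (X:ℝ) ^ 86) := hlow
        _ = _ := by ring
    exact le_of_mul_le_mul_right this (by positivity)
  have e4 : 3 / (2 * Real.pi) ≤ 1 / 2 := by
    rw [div_le_div_iff₀ (by positivity) (by norm_num)]; linarith
  rw [e1, e2]
  have e5 : 3 / (2 * Real.pi) * (1 / (X:ℝ)) ≤ 1 / 2 * (1 / X) :=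
    mul_le_mul_of_nonneg_right e4 (by positivity)
  have e6 : 1 / 2 * (1 / (X:ℝ)) + 3 / 8 * (8 / X) = 7 / 2 / X := by field_simp; norm_num
  linarith

private theorem ASF_loss2 {δ C5 l L N η : ℝ} {X : ℕ} (hδ : 0 < δ) (hXr : (4:ℝ) ≤ X) (hC : 1 ≤ C5)
    (hlup : l ≤ N / (4 * (X:ℝ) ^ 86)) (hN : 0 < N) (hη : η = eX X) :
    11 / (80 * δ * N) * (C5 * l * L ^ 2 / (η * δ ^ 2)) ≤ C5 / δ ^ 3 * (L ^ 2 / X) := by
  have hX0 : (0:ℝ) < X := by linarith
  have e1 : 11 / (80 * δ * N) * (C5 * l * L ^ 2 / (η * δ ^ 2)) =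
      l * (11 * C5 * L ^ 2 * (X:ℝ) ^ 85 / (80 * N * δ ^ 3)) := by
    rw [hη]; unfold eX
    field_simp
  rw [e1]
  refine (mul_le_mul_of_nonneg_right hlup (by positivity)).trans ?_
  have e2 : N / (4 * (X:ℝ) ^ 86) * (11 * C5 * L ^ 2 * (X:ℝ) ^ 85 / (80 * N * δ ^ 3)) =
      11 / 320 * (C5 / δ ^ 3 * (L ^ 2 / X)) := by
    rw [show (X:ℝ) ^ 86 = (X:ℝ) ^ 85 * X by ring]
    field_simp
    ring
  rw [e2]
  have : 0 ≤ C5 / δ ^ 3 * (L ^ 2 / X) := by positivity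
  linarith

private theorem ASF_loss3 {δ C4 C6 l N η : ℝ} {X : ℕ} (hδ : 0 < δ) (hXr : (4:ℝ) ≤ X) (hC4 : 1 ≤ C4)
    (hC6 : 1 ≤ C6) (hl : 1 ≤ l) (hlow : N / (8 * (X:ℝ) ^ 86) ≤ l) (hN : 0 < N) (hη : η = eX X) :
    C4 / δ ^ 2 * (9 / (32 * l * (X:ℝ) ^ 2)) * (C6 * η * N) ≤ 9 * C4 * C6 / δ ^ 2 / X := by
  have hX0 : (0:ℝ) < X := by linarith
  have hNl : N ≤ l * (8 * (X:ℝ) ^ 86) := by
    rwa [div_le_iff₀ (by positivity)] at hlow
  have e1 : C4 / δ ^ 2 * (9 / (32 * l * (X:ℝ) ^ 2)) * (C6 * η * N) =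
      N * (9 * C4 * C6 / (δ ^ 2 * 32 * l * (X:ℝ) ^ 2 * (X:ℝ) ^ 85)) := by
    rw [hη]; unfold eX
    field_simp
  rw [e1]
  refine (mul_le_mul_of_nonneg_right hNl (by positivity)).trans ?_
  have e2 : l * (8 * (X:ℝ) ^ 86) * (9 * C4 * C6 / (δ ^ 2 * 32 * l * (X:ℝ) ^ 2 * (X:ℝ) ^ 85)) =
      1 / 4 * (9 * C4 * C6 / δ ^ 2 / X) := by
    rw [show (X:ℝ) ^ 86 = (X:ℝ) ^ 85 * X by ring]
    field_simp
    norm_num
  rw [e2]
  have : 0 ≤ 9 * C4 * C6 / δ ^ 2 / X := by positivity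
  linarith

/-- the sum over the good indices, real arithmetic part (module ASF) -/
theorem asf_ineq (δ : ℝ) (hδ : 0 < δ) (hδ1 : δ ≤ 1 / 22) : ∃ C : ℝ, 1 ≤ C ∧ ∃ X0 : ℕ,
    ∀ X n : ℕ, X0 ≤ X → Par X n → ∀ (μ : Measure ℝ) (p : ℕ → ℝ[X]) (a b : ℕ → ℝ),
      QM μ → IsJacobi μ p a b → (4 * a n - 1) ^ 2 ≤ 22 * δ + C * Real.log (n + 2) ^ 2 / X := by
  obtain ⟨C1, hC1, hmain⟩ := asm_main
  obtain ⟨C2, hC2, hexc⟩ := asm_exc
  obtain ⟨C4, hC4, hloc⟩ := loc_good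
  obtain ⟨C5, hC5, X5, hasb⟩ := asb_choice
  obtain ⟨C6, hC6, X6, hase⟩ := ase_total
  obtain ⟨Xl, hXl⟩ := asn_l
  obtain ⟨Xw, hXw4, hXw⟩ := asn_word
  obtain ⟨Xt, hXt⟩ := asn_tail δ C4 hδ (by linarith)
  obtain ⟨Cl, hCl, hlog⟩ := asn_log
  obtain ⟨Cv, hCv, hnv⟩ := nn_var
  -- constants of the final bound
  refine ⟨16 * (C1 + C2 + 10 + C5 / δ ^ 3 + 9 * C4 * C6 / δ ^ 2) + 10, ?_,
    max (max X5 X6) (max (max Xl Xw) (max Xt 4)), ?_⟩
  · have : 0 ≤ C5 / δ ^ 3 := by positivity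
    have : 0 ≤ 9 * C4 * C6 / δ ^ 2 := by positivity
    linarith
  intro X n hX hPar μ p a b hμ hp
  simp only [max_le_iff] at hX
  obtain ⟨⟨hX5, hX6⟩, ⟨hXl', hXw'⟩, hXt', hX4⟩ := hX
  obtain ⟨hl1, hllow, hlup, hl4n, hn1⟩ := hXl X n hXl' hPar
  obtain ⟨htail, hrm⟩ := hXt X n hXt' hPar
  obtain ⟨hlogX, -, hlog1⟩ := hlog X n (by omega) hPar
  obtain ⟨F, hmono, hF⟩ := tiles X (by omega)
  have hXpos : (0:ℝ) < X := by
    have : 0 < X := by omega
    exact_mod_cast this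
  have hXr : (4:ℝ) ≤ X := by exact_mod_cast hX4
  have hT1 : Tl X (X ^ 3) (F (X ^ 3)) := by
    obtain ⟨h1, h2, h3, h4⟩ := hF (X ^ 3) (Nat.one_le_pow _ _ (by omega))
    exact ⟨fun x hx => (h1 x hx).1, fun x hx => (h1 x hx).2, h2, h3, h4⟩
  have hT2 : Tl X (X ^ 174) (F (X ^ 174)) := by
    obtain ⟨h1, h2, h3, h4⟩ := hF (X ^ 174) (Nat.one_le_pow _ _ (by omega))
    exact ⟨fun x hx => (h1 x hx).1, fun x hx => (h1 x hx).2, h2, h3, h4⟩
  have hsub : F (X ^ 3) ⊆ F (X ^ 174) := hmono (Nat.pow_le_pow_right (by omega) (by norm_num))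
  have hiS : iS X (F (X ^ 3)) ⊆ iS X (F (X ^ 174)) := by
    unfold iS
    exact Finset.product_subset_product_left hsub
  set T1 := F (X ^ 3) with hT1def
  set T2 := F (X ^ 174) with hT2def
  have hGS : iG X n T1 ⊆ iS X T1 := by
    classical
    unfold iG
    exact Finset.sdiff_subset
  obtain ⟨α, hα⟩ := msg_szego hμ
  obtain ⟨m, B, hB, hm, hmsum⟩ := hasb X n hX5 hPar μ α hμ hα T1 hT1 δ hδ hδ1
  -- extension of m
  have hwordS2 := hXw X n (X ^ 174) hXw' hPar le_rfl T2 hT2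
  have hne : ∀ i ∈ iS X T2, (iR X n i).Nonempty := by
    intro i hi
    obtain ⟨h1, -, -, -, -, -, h7, -, -⟩ := hwordS2 i hi
    rw [← Finset.card_pos]
    have : 0 < ((iR X n i).card : ℝ) := by
      refine lt_of_lt_of_le ?_ h7
      have : 0 < eX X := by unfold eX; positivity
      positivity
    exact_mod_cast this
  have hext : ∃ m' : Ix → ℕ, (∀ i ∈ iG X n T1, m' i = m i) ∧ ∀ i ∈ iS X T2, m' i ∈ iR X n i := by
    classical
    refine ⟨fun i => if i ∈ iG X n T1 then m i else if h : (iR X n i).Nonempty then h.choose else 0,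
      ?_, ?_⟩
    · intro i hi; simp [hi]
    · intro i hi
      by_cases hG : i ∈ iG X n T1
      · simp only [hG, if_true]; exact (hm i hG).1
      · simp only [hG, if_false, dif_pos (hne i hi)]; exact (hne i hi).choose_spec
  obtain ⟨m', hm'1, hm'2⟩ := hext
  have hexcess := hase X n hX6 hPar μ p a b α hμ hp hα T2 hT2 m' hm'2
  have hexG : ∑ i ∈ iG X n T1, ∫ y in Ioo (ic X i) (ie X i), exq μ p α n (m i) (ir X n i) i.1.1 y ∂μ ≤
      C6 * eX X * n := by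
    refine le_trans ?_ hexcess
    calc _ = ∑ i ∈ iG X n T1, ∫ y in Ioo (ic X i) (ie X i), exq μ p α n (m' i) (ir X n i) i.1.1 y ∂μ := by
          apply Finset.sum_congr rfl
          intro i hi
          rw [hm'1 i hi]
      _ ≤ _ := by
          apply Finset.sum_le_sum_of_subset_of_nonneg (hGS.trans hiS)
          intro i _ _
          exact integral_nonneg (fun y => exd_nonneg μ p α n (m' i) (ir X n i) i.1.1 y)
  -- abbreviations
  set q : ℝ := 1 / (6 * (X:ℝ) ^ 86) with hq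
  have hX86 : (X:ℝ) ≤ (X:ℝ) ^ 86 := by
    calc (X:ℝ) = (X:ℝ) ^ 1 := (pow_one _).symm
      _ ≤ (X:ℝ) ^ 86 := pow_le_pow_right₀ (by linarith) (by norm_num)
  have hX86' : (4:ℝ) ^ 86 ≤ (X:ℝ) ^ 86 := pow_le_pow_left₀ (by norm_num) hXr 86
  have hq0 : 0 < q := by positivity
  have hq1 : q ≤ 1 / 100 := by
    rw [hq]
    apply one_div_le_one_div_of_le (by norm_num)
    have : (100:ℝ) ≤ 6 * 4 ^ 86 := by norm_num
    linarith
  have hqX : q ≤ 1 / (6 * X) := by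
    rw [hq]
    apply one_div_le_one_div_of_le (by positivity)
    linarith
  have hgeom : ∀ i ∈ iS X T1, 1 / 3 ≤ ic X i ∧ ic X i < ie X i ∧ ie X i ≤ 2 / 3 ∧
      ie X i - ic X i = q := by
    intro i hi
    have hk : i.2 < X ^ 86 := by
      unfold iS at hi
      simpa using (Finset.mem_product.1 hi).2
    obtain ⟨h1, h2, h3, h4, -, -⟩ := asd_geom (by omega : 1 ≤ X) i.1.2 hk
    exact ⟨h1, h2, h3, h4⟩
  set l := lX X n with hldef
  set ρ := rhoX X with hρdef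
  have hρ0 : 0 < ρ := by rw [hρdef]; unfold rhoX; positivity
  have hlpos : (1:ℝ) ≤ l := by exact_mod_cast hl1
  -- local data
  set A : Ix → ℝ := fun i => av (fun w => (∑ j ∈ Jin l (ic X i) (ie X i) ρ, gJ l j w) * B (m i) w) with hA
  set E : Ix → ℝ := fun i => ∫ y in Ioo (ic X i) (ie X i), exq μ p α n (m i) (ir X n i) i.1.1 y ∂μ with hE
  set s0 : Ix → ℝ := fun i => min (2 * √(ic X i * (1 - ic X i))) (2 * √(ie X i * (1 - ie X i))) with hs0def
  set D : Ix → ℝ := fun i => DD i.1.1 (ic X i) with hDdef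
  have hlocG : ∀ i ∈ iG X n T1, ∃ Jg ⊆ Jin l (ic X i) (ie X i) ρ,
      ((Jin l (ic X i) (ie X i) ρ).card : ℝ) - Jg.card ≤ 4 * l / δ * A i + C4 / δ ^ 2 * E i ∧
      ∀ j ∈ Jg, ((1 - 22 * δ) * s0 i / (16 * l * ((1 + 3 * q) * D i) ^ 2)) ^ 2 ≤
          1 / 2 * ∫ y in Ioo (ic X i) (ie X i), ∫ y' in Ioo (ic X i) (ie X i),
            gJ l j (vp y) * gJ l j (vp y') *
            ((y - y') ^ 2 / (DD i.1.1 y * DD i.1.1 y') ^ 2 * kap p n i.1.1 y y' ^ 2) ∂μ ∂μ := by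
    intro i hi
    have hiS1 := hGS hi
    obtain ⟨h1, h2, h3, h4⟩ := hgeom i hiS1
    obtain ⟨w1, w2, w3, w4, w5, w6, w7, w8, w9⟩ := hwordS2 i (hiS hiS1)
    obtain ⟨hmR, hm4⟩ := hm i hi
    have hmn : m i ≤ n := by
      have := Finset.mem_range.1 (w8 hmR)
      omega
    apply hloc μ p α hμ hα n (m i) (ir X n i) l i.1.1 (ic X i) (ie X i) ρ (s0 i)
      ((1 + 3 * q) * D i) δ (B (m i)) hl1 hm4 h1 h2 h3 hρ0.le hδ hδ1
    · have e1 : (1:ℝ) / 4 ≤ √(ic X i * (1 - ic X i)) := by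
        apply Real.le_sqrt_of_sq_le; nlinarith
      have e2 : (1:ℝ) / 4 ≤ √(ie X i * (1 - ie X i)) := by
        apply Real.le_sqrt_of_sq_le; nlinarith
      simp only [hs0def]
      exact le_min (by linarith) (by linarith)
    · exact min_le_left _ _
    · exact min_le_right _ _
    · intro y hy
      have hc13 : ic X i ∈ Icc (1/3:ℝ) (2/3) := ⟨h1, by linarith⟩
      have hy13 : y ∈ Icc (1/3:ℝ) (2/3) := ⟨by linarith [hy.1], by linarith [hy.2]⟩
      have e1 := (hnv n i.1.1 (ic X i) y hc13 hy13).2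
      have e2 : |y - ic X i| ≤ q := by
        rw [abs_of_nonneg (by linarith [hy.1])]; linarith [hy.2]
      have e3 : 0 ≤ DD i.1.1 (ic X i) := by
        have := (sba_DD i.1.1 (y := ic X i) ⟨by linarith, by linarith⟩).1
        linarith
      have e4 := (abs_le.1 e1).2
      have e5 : 3 * |y - ic X i| * DD i.1.1 (ic X i) ≤ 3 * q * DD i.1.1 (ic X i) :=
        mul_le_mul_of_nonneg_right (by linarith) e3
      simp only [hDdef]
      linarith
    · exact htail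
    · exact hrm (ir X n i) (m i) w6 hmn
    · exact hB (m i) hm4
  choose! J hJsub hJcard hJv using hlocG
  obtain ⟨n', rfl⟩ : ∃ n', n = n' + 1 := ⟨n - 1, by omega⟩
  set v : Ix → ℝ := fun i => (1 - 22 * δ) * s0 i / (16 * l * ((1 + 3 * q) * D i) ^ 2) with hv
  have hd22 : 0 ≤ 1 - 22 * δ := by linarith
  have hfin := opt_tiles hμ hp n' l hl1 (iG X (n' + 1) T1) (fun i => i.1.1) (ic X) (ie X) (ic X) J
    (fun i _ => v i) q hq0.le
    (fun i hi => by linarith [(hgeom i (hGS hi)).1])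
    (fun i hi => (hgeom i (hGS hi)).2.1)
    (fun i hi => by linarith [(hgeom i (hGS hi)).2.2.1])
    (fun i hi => ⟨le_rfl, (hgeom i (hGS hi)).2.1.le⟩)
    (fun i hi => (hgeom i (hGS hi)).2.2.2.le)
    (fun i hi i' hi' hne' => asd_disj (by omega) hT1 i (hGS hi) i' (hGS hi') hne')
    (fun i hi => (hJsub i hi).trans (arc_sub _ _ _ _))
    (fun i hi j hj => by
      simp only [hv, hs0def]
      have : 0 ≤ min (2 * √(ic X i * (1 - ic X i))) (2 * √(ie X i * (1 - ie X i))) :=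
        le_min (by positivity) (by positivity)
      positivity)
    (fun i hi j hj => hJv i hi j hj)
  have hn : (0:ℝ) < ((n' + 1 : ℕ) : ℝ) := by positivity
  set G := iG X (n' + 1) T1 with hGdef
  set bad : Ix → ℝ := fun i => 4 * l / δ * A i + C4 / δ ^ 2 * E i with hbad
  set sx : Ix → ℝ := fun i => √(gam i.1.1 (ic X i) * (1 - gam i.1.1 (ic X i))) with hsx
  have hsx0 : ∀ i, 0 ≤ sx i := fun i => Real.sqrt_nonneg _
  have hsx1 : ∀ i, sx i ≤ 1 / 2 := by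
    intro i
    simp only [hsx]
    apply Real.sqrt_le_iff.2
    refine ⟨by norm_num, ?_⟩
    nlinarith [sq_nonneg (gam i.1.1 (ic X i) - 1 / 2)]
  have hD1 : ∀ i ∈ iS X T1, 1 ≤ D i := by
    intro i hi
    obtain ⟨h1, h2, h3, h4⟩ := hgeom i hi
    exact (sba_DD i.1.1 (y := ic X i) ⟨by linarith, by linarith⟩).1
  have hA0 : ∀ i ∈ G, 0 ≤ A i := by
    intro i hi
    obtain ⟨hmR, hm4⟩ := hm i hi
    apply ASF_av
    intro w
    exact mul_nonneg (Finset.sum_nonneg (fun j _ => ucj_nonneg l j w)) ((hB (m i) hm4).nonneg w)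
  have hE0 : ∀ i, 0 ≤ E i := fun i =>
    integral_nonneg (fun y => exd_nonneg μ p α (n' + 1) (m i) (ir X (n' + 1) i) i.1.1 y)
  have hterm : ∀ i ∈ G, (1 - 22 * δ) * (1 - 20 * q) / (2 * Real.pi) * (sx i * q / D i ^ 2) -
      (4 * l * ρ / Real.pi + 1 + bad i) / (32 * l * D i ^ 2) ≤ sx i * ((J i).card * v i) := by
    intro i hi
    have hiS1 := hGS hi
    obtain ⟨h1, h2, h3, h4⟩ := hgeom i hiS1
    have e1 : (1:ℝ) / 4 ≤ √(ic X i * (1 - ic X i)) := by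
      apply Real.le_sqrt_of_sq_le; nlinarith
    have e2 : (1:ℝ) / 4 ≤ √(ie X i * (1 - ie X i)) := by
      apply Real.le_sqrt_of_sq_le; nlinarith
    have e3 : √(ic X i * (1 - ic X i)) ≤ 1 / 2 := by
      apply Real.sqrt_le_iff.2
      refine ⟨by norm_num, ?_⟩
      nlinarith [sq_nonneg (ic X i - 1 / 2)]
    apply ASF_term hδ hδ1 hq0 hq1 (hD1 i hiS1) rfl (s0 := s0 i) (om := om (ic X i) (ie X i))
    · simp only [hs0def]
      exact le_min (by linarith) (by linarith)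
    · simp only [hs0def]
      exact (min_le_left _ _).trans (by linarith)
    · have := arc_om (c := ic X i) (d := ie X i) (S := s0 i + q) (by linarith) h2.le (by linarith)
        (by
          intro t ht
          have f1 := ASF_sqrt (c := ic X i) (t := t) (q := q) h1 (by linarith) (by linarith [ht.1])
            (by linarith [ht.2]) hq0.le (by rw [abs_of_nonneg (by linarith [ht.1])]; linarith [ht.2])
          have f2 := ASF_sqrt (c := ie X i) (t := t) (q := q) (by linarith) h3 (by linarith [ht.1])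
            (by linarith [ht.2]) hq0.le (by rw [abs_of_nonpos (by linarith [ht.2])]; linarith [ht.1])
          have f3 : 2 * √(t * (1 - t)) - q ≤ s0 i := by
            simp only [hs0def]
            exact le_min (by linarith) (by linarith)
          linarith)
      rw [h4] at this
      exact this
    · exact hsx0 i
    · exact hsx1 i
    · exact hlpos
    · exact hρ0.le
    · have f1 := hJcard i hi
      have f2 : ((J i).card : ℝ) ≤ ((Jin l (ic X i) (ie X i) ρ).card : ℝ) := by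
        exact_mod_cast Finset.card_le_card (hJsub i hi)
      simp only [hbad]
      linarith
    · have f1 := hJcard i hi
      have f2 := arc_card_lower hl1 h1 h2 h3 hρ0.le
      simp only [hbad]
      linarith
  have hSsum : ∑ i ∈ G, √(gam i.1.1 (ic X i) * (1 - gam i.1.1 (ic X i))) * ∑ j ∈ J i, v i =
      ∑ i ∈ G, sx i * ((J i).card * v i) := by
    apply Finset.sum_congr rfl
    intro i _
    rw [Finset.sum_const, nsmul_eq_mul]
  rw [hSsum] at hfin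
  -- main sum
  have hEsub : iE X (n' + 1) T1 ⊆ iS X T1 := by
    classical
    unfold iE
    exact Finset.filter_subset _ _
  have hmainG : Real.pi / 8 - C1 / X - C2 / X ≤ ∑ i ∈ G, sx i * q / D i ^ 2 := by
    classical
    have f1 := hmain X (by omega) T1 hT1
    have f2 : ∑ i ∈ iS X T1 \ iE X (n' + 1) T1, sx i * q / D i ^ 2 +
        ∑ i ∈ iE X (n' + 1) T1, sx i * q / D i ^ 2 = ∑ i ∈ iS X T1, sx i * q / D i ^ 2 :=
      Finset.sum_sdiff hEsub
    have f3 : ∑ i ∈ iE X (n' + 1) T1, sx i * q / D i ^ 2 ≤ C2 / X := by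
      have g1 : ∑ i ∈ iE X (n' + 1) T1, sx i * q / D i ^ 2 ≤ ∑ i ∈ iE X (n' + 1) T1, q := by
        apply Finset.sum_le_sum
        intro i hi
        have hD := hD1 i (hEsub hi)
        rw [div_le_iff₀ (by positivity)]
        have : 1 ≤ D i ^ 2 := one_le_pow₀ hD
        nlinarith [hsx1 i, hsx0 i]
      rw [Finset.sum_const, nsmul_eq_mul] at g1
      have g2 := hexc X (n' + 1) (by omega) (by omega) T1 hT1
      have g3 : C2 / (X:ℝ) ^ 7 ≤ C2 / X := by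
        apply div_le_div_of_nonneg_left (by linarith) hXpos
        calc (X:ℝ) = (X:ℝ) ^ 1 := (pow_one _).symm
          _ ≤ (X:ℝ) ^ 7 := pow_le_pow_right₀ (by linarith) (by norm_num)
      have g4 : ((iE X (n' + 1) T1).card : ℝ) * q = ((iE X (n' + 1) T1).card : ℝ) / (6 * (X:ℝ) ^ 86) := by
        rw [hq]; ring
      linarith
    have f4 : G = iS X T1 \ iE X (n' + 1) T1 := by
      rw [hGdef]; unfold iG
      ext i; simp
    rw [f4]
    have f5 : ∑ i ∈ iS X T1, √(gam i.1.1 (ic X i) * (1 - gam i.1.1 (ic X i))) *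
        (1 / (6 * (X:ℝ) ^ 86)) / DD i.1.1 (ic X i) ^ 2 = ∑ i ∈ iS X T1, sx i * q / D i ^ 2 := rfl
    rw [f5] at f1
    linarith
  have hinv : ∑ i ∈ G, 1 / D i ^ 2 ≤ 12 * (X:ℝ) ^ 86 := by
    refine le_trans ?_ (asm_inv (by omega) hT1)
    apply Finset.sum_le_sum_of_subset_of_nonneg hGS
    intro i _ _
    positivity
  have h173 := ASF_par (by omega : 1 ≤ X) hPar
  have hpi := Real.pi_pos
  have hpi3 := Real.pi_gt_three
  have hloss1 : ∑ i ∈ G, (4 * (l:ℝ) * ρ / Real.pi + 1) / (32 * l * D i ^ 2) ≤ 7 / 2 / (X:ℝ) := by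
    have f1 : ∑ i ∈ G, (4 * (l:ℝ) * ρ / Real.pi + 1) / (32 * l * D i ^ 2) =
        (4 * (l:ℝ) * ρ / Real.pi + 1) / (32 * l) * ∑ i ∈ G, 1 / D i ^ 2 := by
      rw [Finset.mul_sum]
      apply Finset.sum_congr rfl
      intro i _
      rw [div_mul_div_comm, mul_one]
    rw [f1]
    refine (mul_le_mul_of_nonneg_left hinv (by positivity)).trans ?_
    exact ASF_loss1 hXr hlpos hllow h173 hn hρdef
  have hloss2 : ∑ i ∈ G, (4 * l / δ * A i) / (32 * l * D i ^ 2) ≤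
      C5 / δ ^ 3 * (Real.log (((n' + 1 : ℕ) : ℝ) + 2) ^ 2 / X) := by
    have f1 : ∑ i ∈ G, (4 * l / δ * A i) / (32 * l * D i ^ 2) ≤
        11 / (80 * δ * ((n' + 1 : ℕ) : ℝ)) * ∑ i ∈ G, iN X (n' + 1) i * A i := by
      rw [Finset.mul_sum]
      apply Finset.sum_le_sum
      intro i hi
      have hiS1 := hGS hi
      obtain ⟨h1, h2, h3, h4⟩ := hgeom i hiS1
      have hD := hD1 i hiS1
      have hA := hA0 i hi
      obtain ⟨-, -, -, -, -, -, -, g8, -⟩ := nn_bounds (n' + 1) i.1.1 (y := ic X i) ⟨h1, by linarith⟩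
      have g9 : ((n' + 1 : ℕ) : ℝ) ≤ 11 / 10 * (D i ^ 2 * iN X (n' + 1) i) := g8
      have hD0 : 0 < D i := by linarith
      have g10 : (4 * l / δ * A i) / (32 * l * D i ^ 2) = A i * (1 / (8 * δ * D i ^ 2)) := by
        field_simp; ring
      have g11 : 11 / (80 * δ * ((n' + 1 : ℕ) : ℝ)) * (iN X (n' + 1) i * A i) =
          A i * (11 * iN X (n' + 1) i / (80 * δ * ((n' + 1 : ℕ) : ℝ))) := by
        field_simp
      rw [g10, g11]
      apply mul_le_mul_of_nonneg_left _ hA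
      rw [div_le_div_iff₀ (by positivity) (by positivity)]
      nlinarith
    refine f1.trans ((mul_le_mul_of_nonneg_left hmsum (by positivity)).trans ?_)
    exact ASF_loss2 hδ hXr hC5 hlup hn rfl
  have hloss3 : ∑ i ∈ G, (C4 / δ ^ 2 * E i) / (32 * l * D i ^ 2) ≤ 9 * C4 * C6 / δ ^ 2 / X := by
    have f1 : ∑ i ∈ G, (C4 / δ ^ 2 * E i) / (32 * l * D i ^ 2) ≤
        C4 / δ ^ 2 * (9 / (32 * l * (X:ℝ) ^ 2)) * ∑ i ∈ G, E i := by
      rw [Finset.mul_sum]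
      apply Finset.sum_le_sum
      intro i hi
      have hiS1 := hGS hi
      obtain ⟨h1, h2, h3, h4⟩ := hgeom i hiS1
      obtain ⟨g1, -, -, -, -, -, -, -, -⟩ := nn_bounds (n' + 1) i.1.1 (y := ic X i) ⟨h1, by linarith⟩
      have g2 : (X:ℝ) ≤ hh i.1.1 := by
        have hx : i.1 ∈ T1 := by
          unfold iS at hiS1
          exact (Finset.mem_product.1 hiS1).1
        exact_mod_cast hT1.hlow i.1 hx
      have g3 : (X:ℝ) / 3 ≤ D i := by
        have : (X:ℝ) / 3 ≤ (hh i.1.1 : ℝ) / 3 := by linarith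
        exact this.trans g1
      have hD0 : 0 < D i := by linarith
      have g4 : (X:ℝ) ^ 2 / 9 ≤ D i ^ 2 := by nlinarith
      have g5 : (C4 / δ ^ 2 * E i) / (32 * l * D i ^ 2) =
          (C4 / δ ^ 2 * E i) * (1 / (32 * l * D i ^ 2)) := by ring
      have g6 : C4 / δ ^ 2 * (9 / (32 * l * (X:ℝ) ^ 2)) * E i =
          (C4 / δ ^ 2 * E i) * (9 / (32 * l * (X:ℝ) ^ 2)) := by ring
      rw [g5, g6]
      apply mul_le_mul_of_nonneg_left _ (mul_nonneg (by positivity) (hE0 i))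
      rw [div_le_div_iff₀ (by positivity) (by positivity)]
      nlinarith
    refine f1.trans ((mul_le_mul_of_nonneg_left hexG (by positivity)).trans ?_)
    exact ASF_loss3 hδ hXr hC4 hC6 hlpos hllow hn rfl
  have hStot : (1 - 22 * δ) * (1 - 20 * q) / (2 * Real.pi) * (∑ i ∈ G, sx i * q / D i ^ 2) -
      (∑ i ∈ G, (4 * (l:ℝ) * ρ / Real.pi + 1) / (32 * l * D i ^ 2)) -
      (∑ i ∈ G, (4 * l / δ * A i) / (32 * l * D i ^ 2)) -
      (∑ i ∈ G, (C4 / δ ^ 2 * E i) / (32 * l * D i ^ 2)) ≤ ∑ i ∈ G, sx i * ((J i).card * v i) := by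
    rw [Finset.mul_sum, ← Finset.sum_sub_distrib, ← Finset.sum_sub_distrib, ← Finset.sum_sub_distrib]
    apply Finset.sum_le_sum
    intro i hi
    refine le_trans (le_of_eq ?_) (hterm i hi)
    simp only [hbad]
    ring
  exact ASF_final hδ hδ1 hXr hq0 hq1 hqX hlog1 hC1 hC2 (by positivity) (by positivity) rfl hmainG
    hloss1 hloss2 hloss3 hStot hfin

end Pool.H52.MQ
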