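import Pool.Agent.H52.MQ.QMA

/-! Module QMB (project MP_935a4b_QM): the measure with distribution function qmark.  Uses QMA.
* qmb_exists: StieltjesFunction of F(x) = qmark (max 0 (min x 1)) (monotone, continuous: qma_mono, qma_cont); measure of Icc 0 x = F x - leftLim F 0 = qmark x (F continuous, F = 0 for x <= 0); total mass 1 (limits 0 and 1).
* qmb_qm: IsMink mu implies QM mu.  supp: mu (Icc 0 1) = 1.  noatom: x outside [0,1] by supp; x in [0,1]: {x} inside Icc 0 x minus Icc 0 x' for x' < x, x' -> x, mass qmark x - qmark x' -> 0; x = 0: mu(Icc 0 0) = qmark 0 = 0.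
  self: it is enough that mu = (1/2) (map M0 mu + map M1 mu) =: mu', M0 y = y/(1+y), M1 y = 1/(2-y) (lintegral_map, measurable).  Both are probability measures carried by [0,1] (M0, M1 map [0,1] into [0,1]); compare on Iic x (Measure.ext_of_Iic):
  x < 0: both 0.  x >= 1: both 1.  0 <= x <= 1/2: for y in [0,1]: M0 y <= x iff y <= x/(1-x);  M1 y <= x only for y = 0 (x = 1/2), mass 0.  So mu' (Iic x) = qmark(x/(1-x))/2 = qmark x (qma_half at x/(1-x)).
  1/2 <= x <= 1: M0 y <= x always, M1 y <= x iff y <= 2-1/x: mu' (Iic x) = (1 + qmark(2-1/x))/2 = qmark x (qma_double). -/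

open MeasureTheory Set
open scoped ENNReal

namespace Pool.H52.MQ

/-- mu is the Minkowski question mark measure: the probability measure with distribution function qmark. -/
structure IsMink (μ : Measure ℝ) : Prop where
  prob : IsProbabilityMeasure μ
  cdf : ∀ x ∈ Icc (0:ℝ) 1, μ (Icc 0 x) = ENNReal.ofReal (qmark x)

theorem qmb_clamp (x : ℝ) : max 0 (min x 1) ∈ Icc (0 : ℝ) 1 :=
  ⟨le_max_left _ _, max_le zero_le_one (min_le_right _ _)⟩

theorem qmb_cont : Continuous (fun x : ℝ => qmark (max 0 (min x 1))) :=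
  qma_cont.comp_continuous (by fun_prop) qmb_clamp

theorem qmb_mono : Monotone (fun x : ℝ => qmark (max 0 (min x 1))) := by
  intro x y hxy
  exact qma_mono (qmb_clamp x) (qmb_clamp y) (max_le_max le_rfl (min_le_min hxy le_rfl))

theorem qmb_exists : ∃ μ : Measure ℝ, IsMink μ := by
  let F : StieltjesFunction ℝ :=
    { toFun := fun x => qmark (max 0 (min x 1))
      mono' := qmb_mono
      right_continuous' := fun x => qmb_cont.continuousWithinAt }
  have hF : ∀ x, F x = qmark (max 0 (min x 1)) := fun x => rfl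
  refine ⟨F.measure, ?_, ?_⟩
  · apply F.isProbabilityMeasure
    · refine tendsto_const_nhds.congr' ?_
      filter_upwards [Filter.eventually_le_atBot (0 : ℝ)] with x hx
      rw [hF, min_eq_left (hx.trans zero_le_one), max_eq_left hx, qma_zero]
    · refine tendsto_const_nhds.congr' ?_
      filter_upwards [Filter.eventually_ge_atTop (1 : ℝ)] with x hx
      rw [hF, min_eq_right hx, max_eq_right zero_le_one, qma_one]
  · intro x hx
    have h0 : Function.leftLim F 0 = 0 := by
      have h1 : ContinuousWithinAt F (Iic 0) 0 := qmb_cont.continuousWithinAt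
      rw [h1.leftLim_eq, hF, min_eq_left zero_le_one, max_self, qma_zero]
    rw [F.measure_Icc, h0, hF, min_eq_left hx.2, max_eq_right hx.1, sub_zero]

theorem qmb_supp {μ : Measure ℝ} (h : IsMink μ) : μ (Icc 0 1)ᶜ = 0 := by
  haveI := h.prob
  rw [prob_compl_eq_zero_iff measurableSet_Icc, h.cdf 1 (right_mem_Icc.2 zero_le_one), qma_one,
    ENNReal.ofReal_one]

/-- only the part in `[0,1]` counts -/
theorem qmb_inter {μ : Measure ℝ} (h : IsMink μ) (s : Set ℝ) : μ s = μ (s ∩ Icc 0 1) :=
  (measure_inter_conull (qmb_supp h)).symm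

theorem qmb_noatom {μ : Measure ℝ} (h : IsMink μ) (x : ℝ) : μ {x} = 0 := by
  haveI := h.prob
  by_cases hx : x ∈ Icc (0 : ℝ) 1
  · rcases hx.1.eq_or_lt with h0 | h0
    · subst h0
      have h1 := h.cdf 0 hx
      rw [Icc_self, qma_zero, ENNReal.ofReal_zero] at h1
      exact h1
    · have hq := (qma_bd hx).1
      have key : ∀ y ∈ Ico 0 x, (μ {x}).toReal + qmark y ≤ qmark x := by
        intro y hy
        have hy' : y ∈ Icc (0 : ℝ) 1 := ⟨hy.1, hy.2.le.trans hx.2⟩
        have hqy := (qma_bd hy').1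
        have h1 : μ {x} + μ (Icc 0 y) ≤ μ (Icc 0 x) := by
          rw [← measure_union _ measurableSet_Icc]
          · apply measure_mono
            rintro z (hz | hz)
            · rw [mem_singleton_iff.1 hz]
              exact ⟨hx.1, le_rfl⟩
            · exact ⟨hz.1, hz.2.trans hy.2.le⟩
          · rw [disjoint_singleton_left]
            intro hz
            exact absurd hz.2 (not_le.2 hy.2)
        rw [h.cdf y hy', h.cdf x hx] at h1
        have h2 := ENNReal.toReal_mono ENNReal.ofReal_ne_top h1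
        rw [ENNReal.toReal_add (measure_ne_top _ _) ENNReal.ofReal_ne_top,
          ENNReal.toReal_ofReal hqy, ENNReal.toReal_ofReal hq] at h2
        exact h2
      have hne : (nhdsWithin x (Ico 0 x)).NeBot := by
        rw [← mem_closure_iff_nhdsWithin_neBot, closure_Ico h0.ne]
        exact right_mem_Icc.2 h0.le
      have hc : ContinuousWithinAt qmark (Ico 0 x) x :=
        (qma_cont x hx).mono fun y hy => ⟨hy.1, hy.2.le.trans hx.2⟩
      have ht : Filter.Tendsto (fun y => (μ {x}).toReal + qmark y) (nhdsWithin x (Ico 0 x))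
          (nhds ((μ {x}).toReal + qmark x)) := hc.tendsto.const_add _
      have h3 : (μ {x}).toReal + qmark x ≤ qmark x := by
        refine le_of_tendsto ht ?_
        filter_upwards [self_mem_nhdsWithin] with y hy
        exact key y hy
      have h4 : (μ {x}).toReal = 0 := le_antisymm (by linarith) ENNReal.toReal_nonneg
      exact (ENNReal.toReal_eq_zero_iff _).1 h4 |>.resolve_right (measure_ne_top _ _)
  · exact measure_mono_null (fun y hy => by
      rw [mem_singleton_iff.1 hy]
      exact hx) (qmb_supp h)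

theorem qmb_Iic {μ : Measure ℝ} (h : IsMink μ) {x : ℝ} (hx : x ∈ Icc (0 : ℝ) 1) :
    μ (Iic x) = ENNReal.ofReal (qmark x) := by
  rw [← h.cdf x hx, qmb_inter h (Iic x)]
  congr 1
  ext y
  constructor
  · rintro ⟨h1, h2⟩
    exact ⟨h2.1, h1⟩
  · rintro ⟨h1, h2⟩
    exact ⟨h2, h1, le_trans h2 hx.2⟩

theorem qmb_null {μ : Measure ℝ} (h : IsMink μ) {s : Set ℝ} (hs : ∀ y ∈ Icc (0 : ℝ) 1, y ∉ s) :
    μ s = 0 := by
  rw [qmb_inter h, show s ∩ Icc 0 1 = ∅ from ?_, measure_empty]
  ext y
  simp only [mem_inter_iff, mem_empty_iff_false, iff_false]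
  rintro ⟨h1, h2⟩
  exact hs y h2 h1

theorem qmb_full {μ : Measure ℝ} (h : IsMink μ) {s : Set ℝ} (hs : ∀ y ∈ Icc (0 : ℝ) 1, y ∈ s) :
    μ s = 1 := by
  have h1 := h.cdf 1 (right_mem_Icc.2 zero_le_one)
  rw [qma_one, ENNReal.ofReal_one] at h1
  rw [qmb_inter h, show s ∩ Icc 0 1 = Icc 0 1 from inter_eq_right.2 hs, h1]

theorem qmb_part {μ : Measure ℝ} (h : IsMink μ) {s : Set ℝ} {x : ℝ} (hx : x ∈ Icc (0 : ℝ) 1)
    (hs : ∀ y ∈ Icc (0 : ℝ) 1, y ∈ s ↔ y ≤ x) : μ s = ENNReal.ofReal (qmark x) := by
  rw [← qmb_Iic h hx, qmb_inter h s, qmb_inter h (Iic x)]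
  congr 1
  ext y
  constructor
  · rintro ⟨h1, h2⟩
    exact ⟨(hs y h2).1 h1, h2⟩
  · rintro ⟨h1, h2⟩
    exact ⟨(hs y h2).2 h1, h2⟩

theorem qmb_meas0 : Measurable (fun y : ℝ => y / (1 + y)) :=
  measurable_id.div (measurable_const.add measurable_id)

theorem qmb_meas1 : Measurable (fun y : ℝ => 1 / (2 - y)) :=
  measurable_const.div (measurable_const.sub measurable_id)

theorem qmb_selfm {μ : Measure ℝ} (h : IsMink μ) :
    μ = (2 : ℝ≥0∞)⁻¹ • (μ.map (fun y : ℝ => y / (1 + y)) + μ.map (fun y : ℝ => 1 / (2 - y))) := by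
  haveI := h.prob
  refine Measure.ext_of_Iic _ _ fun x => ?_
  rw [Measure.smul_apply, Measure.add_apply, Measure.map_apply qmb_meas0 measurableSet_Iic,
    Measure.map_apply qmb_meas1 measurableSet_Iic, smul_eq_mul]
  have two : (2 : ℝ≥0∞)⁻¹ * (1 + 1) = 1 := by
    rw [one_add_one_eq_two]
    exact ENNReal.inv_mul_cancel two_ne_zero ENNReal.ofNat_ne_top
  have half : ∀ q : ℝ, (2 : ℝ≥0∞)⁻¹ * ENNReal.ofReal q = ENNReal.ofReal (q / 2) := by
    intro q
    rw [div_eq_inv_mul, ENNReal.ofReal_mul (by norm_num), ENNReal.ofReal_inv_of_pos two_pos,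
      ENNReal.ofReal_ofNat]
  rcases lt_or_ge x 0 with hx0 | hx0
  · rw [qmb_null h, qmb_null h, qmb_null h, add_zero, mul_zero]
    · intro y hy hy2
      have h1 : 1 / (2 - y) ≤ x := hy2
      have h2 : 0 < 1 / (2 - y) := by
        have : 0 < 2 - y := by linarith [hy.2]
        positivity
      linarith
    · intro y hy hy2
      have h1 : y / (1 + y) ≤ x := hy2
      have h2 : 0 ≤ y / (1 + y) := by
        have := hy.1
        positivity
      linarith
    · intro y hy hy2
      have h1 : y ≤ x := hy2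
      linarith [hy.1]
  rcases le_or_gt 1 x with hx1 | hx1
  · rw [qmb_full h, qmb_full h, qmb_full h, two]
    · intro y hy
      show 1 / (2 - y) ≤ x
      refine le_trans ?_ hx1
      rw [div_le_one (by linarith [hy.2])]
      linarith [hy.2]
    · intro y hy
      show y / (1 + y) ≤ x
      refine le_trans ?_ hx1
      rw [div_le_one (by linarith [hy.1])]
      linarith
    · intro y hy
      exact hy.2.trans hx1
  rw [qmb_Iic h ⟨hx0, hx1.le⟩]
  rcases lt_or_ge x (1 / 2) with hx2 | hx2
  · -- `x < 1/2`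
    have h1x : 0 < 1 - x := by linarith
    have hz : x / (1 - x) ∈ Icc (0 : ℝ) 1 := by
      refine ⟨by positivity, ?_⟩
      rw [div_le_one h1x]
      linarith
    rw [qmb_part h hz (s := (fun y : ℝ => y / (1 + y)) ⁻¹' Iic x), qmb_null h, add_zero, half]
    · have h3 := qma_half hz
      rw [show x / (1 - x) / (1 + x / (1 - x)) = x by field_simp; ring] at h3
      rw [h3]
    · intro y hy hy2
      have h1 : 1 / (2 - y) ≤ x := hy2
      have h2 : 1 / 2 ≤ 1 / (2 - y) := by
        apply one_div_le_one_div_of_le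
        · linarith [hy.2]
        · linarith [hy.1]
      linarith
    · intro y hy
      show y / (1 + y) ≤ x ↔ y ≤ x / (1 - x)
      rw [div_le_iff₀ (by linarith [hy.1]), le_div_iff₀ h1x]
      constructor <;> intro hh <;> nlinarith
  · -- `1/2 ≤ x`
    have hxp : 0 < x := by linarith
    have hz : 2 - 1 / x ∈ Icc (0 : ℝ) 1 := by
      constructor
      · rw [sub_nonneg, div_le_iff₀ hxp]
        linarith
      · have : 1 ≤ 1 / x := by
          rw [le_div_iff₀ hxp]
          linarith
        linarith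
    rw [qmb_full h, qmb_part h hz (s := (fun y : ℝ => 1 / (2 - y)) ⁻¹' Iic x)]
    · have h3 := qma_double hz
      rw [show 1 / (2 - (2 - 1 / x)) = x by field_simp; ring] at h3
      rw [h3, ← half, ENNReal.ofReal_add zero_le_one (qma_bd hz).1, ENNReal.ofReal_one]
    · intro y hy
      show 1 / (2 - y) ≤ x ↔ y ≤ 2 - 1 / x
      have h2y : 0 < 2 - y := by linarith [hy.2]
      rw [div_le_iff₀ h2y, le_sub_comm, div_le_iff₀ hxp]
      constructor <;> intro hh <;> nlinarith
    · intro y hy
      show y / (1 + y) ≤ x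
      refine le_trans ?_ hx2
      rw [div_le_div_iff₀ (by linarith [hy.1]) two_pos]
      linarith [hy.2]

theorem qmb_qm {μ : Measure ℝ} (h : IsMink μ) : QM μ := by
  refine ⟨h.prob, qmb_supp h, qmb_noatom h, ?_⟩
  intro f hf
  conv_lhs => rw [qmb_selfm h]
  rw [lintegral_smul_measure, lintegral_add_measure, lintegral_map hf qmb_meas0,
    lintegral_map hf qmb_meas1, smul_eq_mul, ENNReal.div_eq_inv_mul]

end Pool.H52.MQ
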