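import Pool.Agent.H52.MQ.OPA

/-! Module QMC (project MP_935a4b_QM): existence of the orthonormal polynomials.  Uses opa_int only.
mu probability, carried by [0,1], no atoms: a nonzero real polynomial P has finitely many zeros (null set), so int P^2 dmu > 0.
Monic orthogonal polynomials by recursion on pairs (P_n, P_{n+1}): P_0 = 1, N_n = int P_n^2 > 0, b_n = int x P_n^2 / N_n, P_1 = X - b_0, P_{n+2} = (X - b_{n+1}) P_{n+1} - (N_{n+1}/N_n) P_n.
Induction: P_n monic of degree n; int P_{n+1} P_j = 0 for j <= n: for P_{n+2} and j <= n+1: int P_{n+2}P_{n+1} = int x P_{n+1}^2 - b N = 0 - 0; j = n: int x P_{n+1}P_n - N_{n+1} = 0 since x P_n = P_{n+1} + (lower degree, a combination of P_0..P_n);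
 j < n: int P_{n+1} (x P_j) = 0 (degree <= n).  It is convenient to carry: int P_{n} R = 0 for every R of degree < n.
p_n = P_n/sqrt(N_n), a_{n+1} = sqrt(N_{n+1}/N_n) (a 0 arbitrary), b_n as above: rec0, recs follow by dividing. -/

open MeasureTheory Set Polynomial

namespace Pool.H52.MQ

/-- the inner product of two polynomials -/
noncomputable def qmc_I (μ : Measure ℝ) (P Q : ℝ[X]) : ℝ := ∫ x, P.eval x * Q.eval x ∂μ

theorem qmc_int {μ : Measure ℝ} (hμ : QM μ) (P Q : ℝ[X]) :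
    Integrable (fun x => P.eval x * Q.eval x) μ :=
  opa_int hμ (P.continuous.mul Q.continuous)

theorem qmc_I_comm {μ : Measure ℝ} (P Q : ℝ[X]) : qmc_I μ P Q = qmc_I μ Q P := by
  unfold qmc_I
  congr 1
  ext x
  ring

theorem qmc_I_add {μ : Measure ℝ} (hμ : QM μ) (P Q R : ℝ[X]) :
    qmc_I μ P (Q + R) = qmc_I μ P Q + qmc_I μ P R := by
  unfold qmc_I
  rw [← integral_add (qmc_int hμ P Q) (qmc_int hμ P R)]
  congr 1
  ext x
  rw [eval_add]
  ring

theorem qmc_I_sub {μ : Measure ℝ} (hμ : QM μ) (P Q R : ℝ[X]) :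
    qmc_I μ P (Q - R) = qmc_I μ P Q - qmc_I μ P R := by
  unfold qmc_I
  rw [← integral_sub (qmc_int hμ P Q) (qmc_int hμ P R)]
  congr 1
  ext x
  rw [eval_sub]
  ring

theorem qmc_I_C {μ : Measure ℝ} (c : ℝ) (P Q : ℝ[X]) :
    qmc_I μ P (C c * Q) = c * qmc_I μ P Q := by
  unfold qmc_I
  rw [← integral_const_mul]
  congr 1
  ext x
  rw [eval_mul, eval_C]
  ring

theorem qmc_I_mul {μ : Measure ℝ} (S P Q : ℝ[X]) :
    qmc_I μ (S * P) Q = qmc_I μ P (S * Q) := by
  unfold qmc_I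
  congr 1
  ext x
  rw [eval_mul, eval_mul]
  ring

theorem qmc_I_pos {μ : Measure ℝ} (hμ : QM μ) {P : ℝ[X]} (hP : P ≠ 0) : 0 < qmc_I μ P P := by
  unfold qmc_I
  rw [integral_pos_iff_support_of_nonneg (fun x => mul_self_nonneg _) (qmc_int hμ P P)]
  have hprob := hμ.prob
  have hroots : μ ({x | P.eval x = 0}) = 0 := by
    have hfin : ({x : ℝ | P.eval x = 0}).Finite := by
      refine (P.roots.toFinset.finite_toSet).subset ?_
      intro x hx
      simp only [Finset.mem_coe, Multiset.mem_toFinset]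
      exact (mem_roots hP).2 hx
    rw [← Set.biUnion_of_singleton {x : ℝ | P.eval x = 0}]
    exact (measure_biUnion_null_iff hfin.countable).2 fun x _ => hμ.noatom x
  have hset : (Function.support fun x => P.eval x * P.eval x) = {x | P.eval x = 0}ᶜ := by
    ext x
    simp [Function.mem_support]
  rw [hset]
  have hm : MeasurableSet {x : ℝ | P.eval x = 0} :=
    (isClosed_eq P.continuous continuous_const).measurableSet
  rw [prob_compl_eq_one_sub hm, hroots]
  simp

/-- the coefficient b of a polynomial -/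
noncomputable def qmc_B (μ : Measure ℝ) (P : ℝ[X]) : ℝ := qmc_I μ P (X * P) / qmc_I μ P P

/-- the pairs (P_n, P_(n+1)) -/
noncomputable def qmc_pair (μ : Measure ℝ) : ℕ → ℝ[X] × ℝ[X]
  | 0 => (1, X - C (qmc_B μ 1))
  | n + 1 => ((qmc_pair μ n).2, (X - C (qmc_B μ (qmc_pair μ n).2)) * (qmc_pair μ n).2
      - C (qmc_I μ (qmc_pair μ n).2 (qmc_pair μ n).2 / qmc_I μ (qmc_pair μ n).1 (qmc_pair μ n).1)
        * (qmc_pair μ n).1)

/-- monic orthogonal polynomials -/
noncomputable def qmc_P (μ : Measure ℝ) (n : ℕ) : ℝ[X] := (qmc_pair μ n).1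

/-- squared norms -/
noncomputable def qmc_N (μ : Measure ℝ) (n : ℕ) : ℝ := qmc_I μ (qmc_P μ n) (qmc_P μ n)

theorem qmc_P0 (μ : Measure ℝ) : qmc_P μ 0 = 1 := rfl

theorem qmc_P1 (μ : Measure ℝ) : qmc_P μ 1 = X - C (qmc_B μ (qmc_P μ 0)) := rfl

theorem qmc_P2 (μ : Measure ℝ) (n : ℕ) : qmc_P μ (n + 2) =
    (X - C (qmc_B μ (qmc_P μ (n + 1)))) * qmc_P μ (n + 1)
      - C (qmc_N μ (n + 1) / qmc_N μ n) * qmc_P μ n := rfl

theorem qmc_monic (μ : Measure ℝ) : ∀ n, (qmc_P μ n).Monic ∧ (qmc_P μ n).natDegree = n := by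
  have key : ∀ n, ((qmc_P μ n).Monic ∧ (qmc_P μ n).natDegree = n) ∧
      ((qmc_P μ (n + 1)).Monic ∧ (qmc_P μ (n + 1)).natDegree = n + 1) := by
    intro n
    induction n with
    | zero =>
      refine ⟨⟨?_, ?_⟩, ?_, ?_⟩
      · rw [qmc_P0]; exact monic_one
      · rw [qmc_P0]; exact natDegree_one
      · rw [qmc_P1]; exact monic_X_sub_C _
      · rw [qmc_P1]; exact natDegree_X_sub_C _
    | succ n ih =>
      refine ⟨ih.2, ?_⟩
      obtain ⟨⟨h1, h2⟩, h3, h4⟩ := ih
      have hm : ((X - C (qmc_B μ (qmc_P μ (n + 1)))) * qmc_P μ (n + 1)).Monic :=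
        (monic_X_sub_C _).mul h3
      have hd : ((X - C (qmc_B μ (qmc_P μ (n + 1)))) * qmc_P μ (n + 1)).natDegree = n + 2 := by
        rw [(monic_X_sub_C _).natDegree_mul h3, natDegree_X_sub_C, h4]
        ring
      have hl : (C (qmc_N μ (n + 1) / qmc_N μ n) * qmc_P μ n).natDegree < n + 2 := by
        refine lt_of_le_of_lt (natDegree_C_mul_le _ _) ?_
        rw [h2]
        omega
      have hl' : (C (qmc_N μ (n + 1) / qmc_N μ n) * qmc_P μ n).natDegree <
          ((X - C (qmc_B μ (qmc_P μ (n + 1)))) * qmc_P μ (n + 1)).natDegree := by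
        rw [hd]; exact hl
      show (qmc_P μ (n + 2)).Monic ∧ (qmc_P μ (n + 2)).natDegree = n + 2
      rw [qmc_P2]
      refine ⟨hm.sub_of_left (degree_lt_degree hl'), ?_⟩
      rw [natDegree_sub_eq_left_of_natDegree_lt hl', hd]
  exact fun n => (key n).1

theorem qmc_ne (μ : Measure ℝ) (n : ℕ) : qmc_P μ n ≠ 0 := (qmc_monic μ n).1.ne_zero

theorem qmc_deg (μ : Measure ℝ) (n : ℕ) : (qmc_P μ n).degree = n := by
  rw [degree_eq_natDegree (qmc_ne μ n), (qmc_monic μ n).2]

theorem qmc_Npos {μ : Measure ℝ} (hμ : QM μ) (n : ℕ) : 0 < qmc_N μ n :=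
  qmc_I_pos hμ (qmc_ne μ n)

/-- splitting off the leading term -/
theorem qmc_split (μ : Measure ℝ) (n : ℕ) (R : ℝ[X]) (hR : R.degree < ((n + 1 : ℕ) : WithBot ℕ)) :
    ∃ (c : ℝ) (S : ℝ[X]), S.degree < (n : WithBot ℕ) ∧ R = C c * qmc_P μ n + S := by
  refine ⟨R.coeff n, R - C (R.coeff n) * qmc_P μ n, ?_, by ring⟩
  rw [degree_lt_iff_coeff_zero]
  intro m hm
  rw [degree_lt_iff_coeff_zero] at hR
  rcases Nat.lt_or_ge n m with h | h
  · have h0 : (qmc_P μ n).coeff m = 0 := by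
      apply coeff_eq_zero_of_natDegree_lt
      rw [(qmc_monic μ n).2]
      exact h
    rw [coeff_sub, coeff_C_mul, hR m h, h0, mul_zero, sub_zero]
  · have hmn : m = n := le_antisymm h hm
    subst hmn
    have h1 : (qmc_P μ m).coeff m = 1 := by
      have h2 := (qmc_monic μ m).1.coeff_natDegree
      rwa [(qmc_monic μ m).2] at h2
    rw [coeff_sub, coeff_C_mul, h1, mul_one, sub_self]

theorem qmc_xP {μ : Measure ℝ} (hμ : QM μ) {P : ℝ[X]} (hP : P ≠ 0) :
    qmc_I μ P ((X - C (qmc_B μ P)) * P) = 0 := by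
  rw [sub_mul, qmc_I_sub hμ, qmc_I_C]
  unfold qmc_B
  have := (qmc_I_pos hμ hP).ne'
  field_simp
  ring

theorem qmc_orth {μ : Measure ℝ} (hμ : QM μ) : ∀ n : ℕ, ∀ R : ℝ[X], R.degree < (n : WithBot ℕ) →
    qmc_I μ (qmc_P μ n) R = 0 := by
  have key : ∀ n : ℕ, (∀ R : ℝ[X], R.degree < (n : WithBot ℕ) → qmc_I μ (qmc_P μ n) R = 0) ∧
      (∀ R : ℝ[X], R.degree < ((n + 1 : ℕ) : WithBot ℕ) → qmc_I μ (qmc_P μ (n + 1)) R = 0) := by
    intro n
    induction n with
    | zero =>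
      have h0 : ∀ R : ℝ[X], R.degree < ((0 : ℕ) : WithBot ℕ) → qmc_I μ (qmc_P μ 0) R = 0 := by
        intro R hR
        have : R = 0 := by
          rw [← degree_eq_bot]
          by_contra hne
          have h1 : (0 : WithBot ℕ) ≤ R.degree := zero_le_degree_iff.2 (fun h => hne (by
            rw [h]; exact degree_zero))
          exact absurd hR (not_lt.2 (by exact_mod_cast h1))
        rw [this]
        unfold qmc_I
        simp
      refine ⟨h0, ?_⟩
      intro R hR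
      obtain ⟨c, S, hS, rfl⟩ := qmc_split μ 0 R hR
      have hS0 : S = 0 := by
        rw [← degree_eq_bot]
        by_contra hne
        have h1 : (0 : WithBot ℕ) ≤ S.degree := zero_le_degree_iff.2 (fun h => hne (by
          rw [h]; exact degree_zero))
        exact absurd hS (not_lt.2 (by exact_mod_cast h1))
      rw [hS0, add_zero, qmc_I_C]
      have h2 : qmc_I μ (qmc_P μ (0 + 1)) (qmc_P μ 0) = 0 := by
        have h3 := qmc_xP hμ (qmc_ne μ 0)
        rw [qmc_I_comm]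
        have h4 : qmc_P μ (0 + 1) = (X - C (qmc_B μ (qmc_P μ 0))) * qmc_P μ 0 := by
          rw [zero_add, qmc_P1, qmc_P0, mul_one]
        rw [h4]
        exact h3
      rw [h2, mul_zero]
    | succ n ih =>
      refine ⟨ih.2, ?_⟩
      obtain ⟨hn, hn1⟩ := ih
      -- the three pieces
      have hsymm : ∀ R : ℝ[X], qmc_I μ (qmc_P μ (n + 2)) R =
          qmc_I μ (qmc_P μ (n + 1)) ((X - C (qmc_B μ (qmc_P μ (n + 1)))) * R)
            - qmc_N μ (n + 1) / qmc_N μ n * qmc_I μ (qmc_P μ n) R := by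
        intro R
        rw [qmc_I_comm, qmc_P2, qmc_I_sub hμ, qmc_I_C, qmc_I_comm R, qmc_I_mul,
          qmc_I_comm R (qmc_P μ n)]
      have e1 : qmc_I μ (qmc_P μ (n + 2)) (qmc_P μ (n + 1)) = 0 := by
        rw [hsymm, qmc_xP hμ (qmc_ne μ (n + 1)), qmc_I_comm (qmc_P μ n),
          hn1 (qmc_P μ n) (by rw [qmc_deg]; exact_mod_cast Nat.lt_succ_self n)]
        ring
      have e2 : qmc_I μ (qmc_P μ (n + 2)) (qmc_P μ n) = 0 := by
        rw [hsymm]
        have hdeg : ((X - C (qmc_B μ (qmc_P μ (n + 1)))) * qmc_P μ n).degree <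
            ((n + 1 + 1 : ℕ) : WithBot ℕ) := by
          rw [degree_mul, degree_X_sub_C, qmc_deg]
          have : (1 : WithBot ℕ) + (n : WithBot ℕ) = ((1 + n : ℕ) : WithBot ℕ) := by push_cast; rfl
          rw [this]
          exact_mod_cast (by omega : 1 + n < n + 1 + 1)
        obtain ⟨c, S, hS, hcS⟩ := qmc_split μ (n + 1) _ hdeg
        have hc : c = 1 := by
          have h1 := congrArg (fun Q : ℝ[X] => Q.coeff (n + 1)) hcS
          simp only [coeff_add, coeff_C_mul] at h1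
          have h2 : (qmc_P μ (n + 1)).coeff (n + 1) = 1 := by
            have h2 := (qmc_monic μ (n + 1)).1.coeff_natDegree
            rwa [(qmc_monic μ (n + 1)).2] at h2
          have h3 : S.coeff (n + 1) = 0 := by
            rw [degree_lt_iff_coeff_zero] at hS
            exact hS (n + 1) le_rfl
          have h4 : ((X - C (qmc_B μ (qmc_P μ (n + 1)))) * qmc_P μ n).coeff (n + 1) = 1 := by
            have hm := (monic_X_sub_C (qmc_B μ (qmc_P μ (n + 1)))).mul (qmc_monic μ n).1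
            have hd : ((X - C (qmc_B μ (qmc_P μ (n + 1)))) * qmc_P μ n).natDegree = n + 1 := by
              rw [(monic_X_sub_C _).natDegree_mul (qmc_monic μ n).1, natDegree_X_sub_C,
                (qmc_monic μ n).2]
              ring
            have h5 := hm.coeff_natDegree
            rwa [hd] at h5
          rw [h4, h2, h3] at h1
          linarith
        rw [hcS, qmc_I_add hμ, qmc_I_C, hn1 S hS, hc]
        have hN := (qmc_Npos hμ n).ne'
        show 1 * qmc_N μ (n + 1) + 0 - qmc_N μ (n + 1) / qmc_N μ n * qmc_N μ n = 0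
        field_simp
        ring
      have e3 : ∀ T : ℝ[X], T.degree < (n : WithBot ℕ) → qmc_I μ (qmc_P μ (n + 2)) T = 0 := by
        intro T hT
        rw [hsymm, hn T hT, hn1, mul_zero, sub_zero]
        rw [degree_mul, degree_X_sub_C]
        rw [degree_lt_iff_coeff_zero] at hT
        by_cases hT0 : T = 0
        · rw [hT0, degree_zero, WithBot.add_bot]
          exact WithBot.bot_lt_coe _
        · rw [degree_eq_natDegree hT0]
          have h6 : T.natDegree < n := by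
            by_contra hcon
            exact (leadingCoeff_ne_zero.2 hT0) (hT T.natDegree (not_lt.1 hcon))
          have : (1 : WithBot ℕ) + (T.natDegree : WithBot ℕ) = ((1 + T.natDegree : ℕ) : WithBot ℕ) := by
            push_cast; rfl
          rw [this]
          exact_mod_cast (by omega : 1 + T.natDegree < n + 1)
      intro R hR
      obtain ⟨c, S, hS, rfl⟩ := qmc_split μ (n + 1) R hR
      obtain ⟨d, T, hT, rfl⟩ := qmc_split μ n S hS
      show qmc_I μ (qmc_P μ (n + 2)) _ = 0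
      rw [qmc_I_add hμ, qmc_I_add hμ, qmc_I_C, qmc_I_C, e1, e2, e3 T hT]
      ring
  exact fun n => (key n).1

theorem qmc_jacobi {μ : Measure ℝ} (hμ : QM μ) :
    ∃ (p : ℕ → ℝ[X]) (a b : ℕ → ℝ), IsJacobi μ p a b := by
  have hs : ∀ n, 0 < √(qmc_N μ n) := fun n => Real.sqrt_pos.2 (qmc_Npos hμ n)
  have hs2 : ∀ n, √(qmc_N μ n) * √(qmc_N μ n) = qmc_N μ n := fun n =>
    Real.mul_self_sqrt (qmc_Npos hμ n).le
  refine ⟨fun n => C (1 / √(qmc_N μ n)) * qmc_P μ n,
    fun n => √(qmc_N μ n) / √(qmc_N μ (n - 1)), fun n => qmc_B μ (qmc_P μ n), ?_⟩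
  constructor
  · intro n
    show (C (1 / √(qmc_N μ n)) * qmc_P μ n).natDegree = n
    rw [natDegree_C_mul (one_div_ne_zero (hs n).ne'), (qmc_monic μ n).2]
  · intro n
    show 0 < (C (1 / √(qmc_N μ n)) * qmc_P μ n).leadingCoeff
    rw [leadingCoeff_mul, leadingCoeff_C, (qmc_monic μ n).1.leadingCoeff, mul_one]
    exact one_div_pos.2 (hs n)
  · intro m n
    have h1 : ∀ m n, ∫ x, (C (1 / √(qmc_N μ m)) * qmc_P μ m).eval x *
        (C (1 / √(qmc_N μ n)) * qmc_P μ n).eval x ∂μ =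
        1 / √(qmc_N μ n) * (1 / √(qmc_N μ m) * qmc_I μ (qmc_P μ m) (qmc_P μ n)) := by
      intro m n
      have h2 : ∫ x, (C (1 / √(qmc_N μ m)) * qmc_P μ m).eval x *
        (C (1 / √(qmc_N μ n)) * qmc_P μ n).eval x ∂μ =
        qmc_I μ (C (1 / √(qmc_N μ m)) * qmc_P μ m) (C (1 / √(qmc_N μ n)) * qmc_P μ n) := rfl
      rw [h2, qmc_I_C, qmc_I_comm, qmc_I_C, qmc_I_comm]
    show ∫ x, (C (1 / √(qmc_N μ m)) * qmc_P μ m).eval x *
        (C (1 / √(qmc_N μ n)) * qmc_P μ n).eval x ∂μ = _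
    rw [h1]
    rcases lt_trichotomy m n with h | h | h
    · rw [if_neg h.ne, qmc_I_comm, qmc_orth hμ n (qmc_P μ m) (by rw [qmc_deg]; exact_mod_cast h)]
      ring
    · subst h
      rw [if_pos rfl]
      show 1 / √(qmc_N μ m) * (1 / √(qmc_N μ m) * qmc_N μ m) = 1
      have h3 := hs2 m
      have h4 := (hs m).ne'
      field_simp
      nlinarith [h3]
    · rw [if_neg h.ne', qmc_orth hμ m (qmc_P μ n) (by rw [qmc_deg]; exact_mod_cast h)]
      ring
  · intro n
    show 0 < √(qmc_N μ (n + 1)) / √(qmc_N μ (n + 1 - 1))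
    exact div_pos (hs _) (hs _)
  · show X * (C (1 / √(qmc_N μ 0)) * qmc_P μ 0) =
      C (√(qmc_N μ 1) / √(qmc_N μ (1 - 1))) * (C (1 / √(qmc_N μ 1)) * qmc_P μ 1)
        + C (qmc_B μ (qmc_P μ 0)) * (C (1 / √(qmc_N μ 0)) * qmc_P μ 0)
    have h1 : C (√(qmc_N μ 1) / √(qmc_N μ (1 - 1))) * (C (1 / √(qmc_N μ 1)) * qmc_P μ 1) =
        C (1 / √(qmc_N μ 0)) * qmc_P μ 1 := by
      rw [← mul_assoc, ← C_mul]
      congr 2
      have h4 := (hs 1).ne'
      simp only [Nat.sub_self]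
      field_simp
    rw [h1, qmc_P1, qmc_P0]
    ring
  · intro n
    show X * (C (1 / √(qmc_N μ (n + 1))) * qmc_P μ (n + 1)) =
      C (√(qmc_N μ (n + 2)) / √(qmc_N μ (n + 2 - 1))) *
        (C (1 / √(qmc_N μ (n + 2))) * qmc_P μ (n + 2))
        + C (qmc_B μ (qmc_P μ (n + 1))) * (C (1 / √(qmc_N μ (n + 1))) * qmc_P μ (n + 1))
        + C (√(qmc_N μ (n + 1)) / √(qmc_N μ (n + 1 - 1))) * (C (1 / √(qmc_N μ n)) * qmc_P μ n)
    have h1 : C (√(qmc_N μ (n + 2)) / √(qmc_N μ (n + 2 - 1))) *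
        (C (1 / √(qmc_N μ (n + 2))) * qmc_P μ (n + 2)) =
        C (1 / √(qmc_N μ (n + 1))) * qmc_P μ (n + 2) := by
      rw [← mul_assoc, ← C_mul]
      congr 2
      have h4 := (hs (n + 2)).ne'
      have h5 : n + 2 - 1 = n + 1 := rfl
      rw [h5]
      field_simp
    have h2 : C (√(qmc_N μ (n + 1)) / √(qmc_N μ (n + 1 - 1))) *
        (C (1 / √(qmc_N μ n)) * qmc_P μ n) =
        C (1 / √(qmc_N μ (n + 1))) * (C (qmc_N μ (n + 1) / qmc_N μ n) * qmc_P μ n) := by
      rw [← mul_assoc, ← mul_assoc, ← C_mul, ← C_mul]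
      congr 2
      have h4 := (hs (n + 1)).ne'
      have h5 : n + 1 - 1 = n := rfl
      have h6 := (hs n).ne'
      have h7 := (qmc_Npos hμ n).ne'
      rw [h5]
      have e1 := hs2 n
      have e2 := hs2 (n + 1)
      rw [div_mul_div_comm, div_mul_div_comm, mul_one, one_mul, div_eq_div_iff (mul_ne_zero h6 h6)
        (mul_ne_zero h4 h7), e1]
      generalize √(qmc_N μ (n + 1)) = t at *
      rw [← e2]
      ring
    rw [h1, h2, qmc_P2]
    ring

end Pool.H52.MQ
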