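import Pool.Agent.H52.MQ.ASF
import Pool.Agent.H52.MQ.QMB
import Pool.Agent.H52.MQ.QMC

/-! Module ASL (project MP_935a4b_QM): the limit.  Uses ASF (asf_ineq), ASN (asn_log).
For n >= 1 let X be the largest natural number with X^2000 <= n (Nat.findGreatest or floor of the root); X >= 1, n < (X+1)^2000 <= (2X)^2000, so Par X n, and X -> infinity as n -> infinity (X0^2000 <= n implies X >= X0).
asf_ineq: (4 a n - 1)^2 <= 22 delta + C log(n+2)^2/X <= 22 delta + C' (log X)^2/X (asn_log), and (log X)^2/X -> 0.  So limsup (4a_n-1)^2 <= 22 delta for every delta in (0,1/22]; hence a_n -> 1/4.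
liminf = limsup = (1/4)^2 = 1/16 (Filter.Tendsto.liminf_eq, limsup_eq). -/

open MeasureTheory Set Polynomial Filter
open scoped ENNReal ComplexConjugate Topology

namespace Pool.H52.MQ

theorem ASL_root (K n : ℕ) (hK : K ≠ 0) : ∃ X : ℕ, X ^ K ≤ n ∧ n < (X + 1) ^ K := by
  classical
  have h : ∃ Y : ℕ, n < Y ^ K := ⟨n + 1, (Nat.lt_succ_self n).trans_le (Nat.le_self_pow hK _)⟩
  obtain ⟨Y, hY⟩ : ∃ Y, Y = Nat.find h := ⟨_, rfl⟩
  have h1 : n < Y ^ K := by rw [hY]; exact Nat.find_spec h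
  have h0 : Y ≠ 0 := by
    intro h0
    rw [h0, zero_pow hK] at h1
    exact Nat.not_lt_zero _ h1
  refine ⟨Y - 1, ?_, ?_⟩
  · by_contra hcon
    have h2 : Y - 1 < Nat.find h := by rw [← hY]; omega
    exact Nat.find_min h h2 (not_le.1 hcon)
  · rw [Nat.sub_add_cancel (Nat.one_le_iff_ne_zero.2 h0)]
    exact h1

theorem ASL_par {n X0 : ℕ} (h0 : 1 ≤ X0) (h : X0 ^ 2000 ≤ n) : ∃ X : ℕ, X0 ≤ X ∧ Par X n := by
  have hK : (2000 : ℕ) ≠ 0 := by norm_num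
  obtain ⟨X, h1, h2⟩ := ASL_root 2000 n hK
  have h3 : X0 ≤ X := by
    have h4 : X0 ^ 2000 < (X + 1) ^ 2000 := h.trans_lt h2
    have h5 := lt_of_pow_lt_pow_left₀ 2000 (Nat.zero_le _) h4
    omega
  refine ⟨X, h3, h1, h2.le.trans ?_⟩
  exact Nat.pow_le_pow_left (by omega) 2000

theorem ASL_lim (c : ℝ) {ε : ℝ} (hε : 0 < ε) :
    ∃ X1 : ℕ, ∀ X : ℕ, X1 ≤ X → c * (Real.log X ^ 2 / X) < ε := by
  have h1 : Tendsto (fun x : ℝ => Real.log x ^ 2 / x) atTop (𝓝 0) :=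
    (Real.isLittleO_pow_log_id_atTop (n := 2)).tendsto_div_nhds_zero
  have h2 : Tendsto (fun X : ℕ => c * (Real.log X ^ 2 / X)) atTop (𝓝 (c * 0)) :=
    (h1.comp tendsto_natCast_atTop_atTop).const_mul c
  rw [mul_zero] at h2
  exact Filter.eventually_atTop.1 (h2.eventually (gt_mem_nhds hε))

theorem nevai {μ : Measure ℝ} (hμ : QM μ) {p : ℕ → ℝ[X]} {a b : ℕ → ℝ} (hp : IsJacobi μ p a b) :
    Tendsto a atTop (𝓝 (1 / 4)) := by
  rw [Metric.tendsto_atTop]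
  intro ε hε
  obtain ⟨δ, hδd⟩ : ∃ δ : ℝ, δ = min (1 / 22) (8 * ε ^ 2 / 22) := ⟨_, rfl⟩
  have hε2 : 0 < ε ^ 2 := by positivity
  have hδ : 0 < δ := by rw [hδd]; exact lt_min (by norm_num) (by linarith)
  have hδ1 : δ ≤ 1 / 22 := by rw [hδd]; exact min_le_left _ _
  have hδ2 : 22 * δ ≤ 8 * ε ^ 2 := by
    have : δ ≤ 8 * ε ^ 2 / 22 := by rw [hδd]; exact min_le_right _ _
    linarith
  obtain ⟨C, hC, X0, hX0⟩ := asf_ineq δ hδ hδ1
  obtain ⟨C1, hC1, hlog⟩ := asn_log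
  obtain ⟨X1, hX1⟩ := ASL_lim (C * C1 ^ 2) (ε := 8 * ε ^ 2) (by linarith)
  obtain ⟨X2, hX2⟩ : ∃ X2 : ℕ, X2 = max (max X0 X1) 2 := ⟨_, rfl⟩
  have h2 : 2 ≤ X2 := by rw [hX2]; exact le_max_right _ _
  have h0 : X0 ≤ X2 := by rw [hX2]; exact (le_max_left _ _).trans (le_max_left _ _)
  have h1 : X1 ≤ X2 := by rw [hX2]; exact (le_max_right _ _).trans (le_max_left _ _)
  refine ⟨X2 ^ 2000, fun n hn => ?_⟩
  obtain ⟨X, hX, hpar⟩ := ASL_par (by omega) hn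
  have h3 := hX0 X n (h0.trans hX) hpar μ p a b hμ hp
  obtain ⟨h4, -, h5⟩ := hlog X n (h2.trans hX) hpar
  have h6 := hX1 X (h1.trans hX)
  have hXpos : (0:ℝ) < X := by
    have : 0 < X := by omega
    exact_mod_cast this
  have h7 : Real.log (n + 2) ^ 2 ≤ (C1 * Real.log X) ^ 2 :=
    pow_le_pow_left₀ (by linarith) h4 2
  have h8 : C * Real.log (n + 2) ^ 2 / X ≤ C * C1 ^ 2 * (Real.log X ^ 2 / X) := by
    have h9 : C * C1 ^ 2 * (Real.log X ^ 2 / X) = C * (C1 * Real.log X) ^ 2 / X := by ring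
    rw [h9]
    apply div_le_div_of_nonneg_right _ hXpos.le
    exact mul_le_mul_of_nonneg_left h7 (by linarith)
  have h10 : (4 * a n - 1) ^ 2 < (4 * ε) ^ 2 := by
    calc (4 * a n - 1) ^ 2 ≤ 22 * δ + C * Real.log (n + 2) ^ 2 / X := h3
      _ < (4 * ε) ^ 2 := by rw [mul_pow]; linarith
  have h11 := abs_lt_of_sq_lt_sq h10 (by linarith)
  rw [Real.dist_eq, abs_lt]
  have h12 := abs_lt.1 h11
  constructor <;> linarith [h12.1, h12.2]

theorem nevai_mink {μ : Measure ℝ} (hμ : IsMink μ) :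
    (∃ (p : ℕ → ℝ[X]) (a b : ℕ → ℝ), IsJacobi μ p a b) ∧
    ∀ (p : ℕ → ℝ[X]) (a b : ℕ → ℝ), IsJacobi μ p a b →
      Tendsto a atTop (𝓝 (1 / 4)) ∧
      liminf (fun n => a n ^ 2) atTop = 1 / 16 ∧ limsup (fun n => a n ^ 2) atTop = 1 / 16 := by
  refine ⟨qmc_jacobi (qmb_qm hμ), ?_⟩
  intro p a b hp
  have h := nevai (qmb_qm hμ) hp
  have h2 : Tendsto (fun n => a n ^ 2) atTop (𝓝 (1 / 16)) := by
    have h3 := h.pow 2
    norm_num at h3 ⊢
    exact h3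
  exact ⟨h, h2.liminf_eq, h2.limsup_eq⟩

end Pool.H52.MQ
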