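import Pool.Agent.H52.MQ.ASD

/-! Module ASN (project MP_935a4b_QM): numerical facts on the parameters.  Uses ASD (definitions, asd_geom), SBN (nn_bounds, nn_var), SBA.
Par X n: X^2000 <= n <= (2X)^2000.  Let i = ((w,b),k) in iS X T with Tl X I T, c = ic X i in [1/3,2/3] (asd_geom), N = iN X n i = NN n w c, eta = X^-85, hh w >= X >= 4.
* N <= 7 n/hh^(3/2) <= (7/8) n.   N >= (9/10) n/DD^2 >= (9/10) n/((I+2)X)^2: for I <= X^174: >= n/(5 X^350) ((X^174+2)X <= (10/9)^(1/2)... for X large); for I <= X^3: N >= n/(5 X^8).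
* y in Icc c (ie X i): |NN n w y - N| <= C (1/(6X^86)) N <= (eta/10) N once X >= C (nn_var).  Hence (1-3 eta) N <= (1-2 eta) NN n w y, and eta NN y/16 <= ceil(eta N/8) <= eta N/8 + 1 <= eta NN y/4 as eta N >= X^-85 X^2000/(5 X^350) is huge.
* iR: contains at least eta N - 1 >= eta N/2 integers of [(1-4eta)N,(1-3eta)N], all < n as N <= 7n/8; if I <= X^3 they are >= (1-4eta) n/(5X^8) >= 4 l (4 l <= n/X^86).
* lX: n/(8X^86) <= l <= n/(4X^86), l >= 1.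
* asn_tail, asn_r: 10^8/(1+2 l rho)^8 <= delta/(4l): (2 l rho)^8 >= (X^(2000-86-87)/4)^8 while 4l*10^8/delta <= n 10^8/delta; more precisely (2 l rho)^8 >= (n/(4X^173))^8 and (n/(4X^173))^7 >= 4^? ... n^7 >= X^14000: fine for X >= X0(delta).
  C r^2 m <= delta^2 l^4: r <= n, m <= n, n^3 C <= delta^2 n^4/(8X^86)^4 iff C 8^4 X^344/delta^2 <= n. -/

open MeasureTheory Set
open scoped ENNReal

namespace Pool.H52.MQ

private theorem ASN_n {X n : ℕ} (h : Par X n) : (X:ℝ) ^ 2000 ≤ n := by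
  exact_mod_cast h.1

private theorem ASN_big {X n : ℕ} {K : ℝ} {a : ℕ} (hX : 1 ≤ X) (h : Par X n) (hK : K ≤ X)
    (ha : a + 1 ≤ 2000) : K * (X:ℝ) ^ a ≤ n := by
  have hX1 : (1:ℝ) ≤ X := by exact_mod_cast hX
  calc K * (X:ℝ) ^ a ≤ X * (X:ℝ) ^ a := mul_le_mul_of_nonneg_right hK (by positivity)
    _ = (X:ℝ) ^ (a + 1) := by rw [pow_succ, mul_comm]
    _ ≤ (X:ℝ) ^ 2000 := pow_le_pow_right₀ hX1 ha
    _ ≤ n := ASN_n h

private theorem ASN_l {X n : ℕ} (hX : 8 ≤ X) (h : Par X n) :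
    1 ≤ lX X n ∧ (n:ℝ) / (8 * (X:ℝ) ^ 86) ≤ lX X n ∧ (lX X n : ℝ) ≤ n / (4 * (X:ℝ) ^ 86) ∧
    4 * lX X n ≤ n ∧ 1 ≤ n := by
  have hX1 : (1:ℝ) ≤ X := by exact_mod_cast (by omega : 1 ≤ X)
  have hp : (0:ℝ) < (X:ℝ) ^ 86 := by positivity
  have hp1 : (1:ℝ) ≤ (X:ℝ) ^ 86 := one_le_pow₀ hX1
  have h8 : 8 * (X:ℝ) ^ 86 ≤ n := ASN_big (by omega) h (by exact_mod_cast hX) (by norm_num)
  have hn1 : (1:ℝ) ≤ n := by linarith
  have hn : 1 ≤ n := by exact_mod_cast hn1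
  have hkpos : 0 < 4 * X ^ 86 := by positivity
  have hup : (lX X n : ℝ) ≤ n / (4 * (X:ℝ) ^ 86) := by
    unfold lX
    have := Nat.cast_div_le (m := n) (n := 4 * X ^ 86) (α := ℝ)
    push_cast at this
    exact this
  have hlt : n < (lX X n + 1) * (4 * X ^ 86) := by
    unfold lX
    exact (Nat.div_lt_iff_lt_mul hkpos).1 (Nat.lt_succ_self _)
  have hlt' : (n:ℝ) < (lX X n + 1) * (4 * (X:ℝ) ^ 86) := by exact_mod_cast hlt
  have hlow : (n:ℝ) / (8 * (X:ℝ) ^ 86) ≤ lX X n := by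
    rw [div_le_iff₀ (by positivity)]
    linarith
  have h1l : (1:ℝ) ≤ lX X n := by
    refine le_trans ?_ hlow
    rw [le_div_iff₀ (by positivity)]
    linarith
  have h4l : (4:ℝ) * lX X n ≤ n := by
    have : (n:ℝ) / (4 * (X:ℝ) ^ 86) ≤ n / 4 := by
      apply div_le_div_of_nonneg_left (by linarith) (by norm_num)
      linarith
    linarith
  exact ⟨by exact_mod_cast h1l, hlow, hup, by exact_mod_cast h4l, hn⟩

theorem asn_l : ∃ X0 : ℕ, ∀ X n : ℕ, X0 ≤ X → Par X n →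
    1 ≤ lX X n ∧ (n:ℝ) / (8 * (X:ℝ) ^ 86) ≤ lX X n ∧ (lX X n : ℝ) ≤ n / (4 * (X:ℝ) ^ 86) ∧
    4 * lX X n ≤ n ∧ 1 ≤ n := ⟨8, fun _ _ hX h => ASN_l hX h⟩

private theorem ASN_mem {X : ℕ} {𝒯 : Finset (List Bool × Bool)} {i : Ix} (h : i ∈ iS X 𝒯) :
    i.1 ∈ 𝒯 ∧ i.2 < X ^ 86 := by
  unfold iS at h
  rw [Finset.mem_product, Finset.mem_range] at h
  exact h

/-- lower bound for the local degree -/
private theorem ASN_N {X n : ℕ} (hX : 8 ≤ X) (h : Par X n) {w : List Bool} {y H : ℝ}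
    (hy : y ∈ Icc (1/3:ℝ) (2/3)) (hw : X ≤ hh w) (hH : (hh w : ℝ) ≤ H) :
    0 < NN n w y ∧ NN n w y ≤ 7 / 8 * n ∧ 9 / 10 * n / H ^ 2 ≤ NN n w y := by
  obtain ⟨h1, _, _, _, _, h6, h7, _, _⟩ := nn_bounds n w hy
  obtain ⟨d1, d2, _, _⟩ := sba_DD w (y := y) ⟨by linarith [hy.1], by linarith [hy.2]⟩
  have hn : (1:ℝ) ≤ n := by exact_mod_cast (ASN_l hX h).2.2.2.2
  have hD : DD w y ≤ H := d2.trans hH
  have hlow : 9 / 10 * n / H ^ 2 ≤ NN n w y := by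
    refine le_trans ?_ h7
    apply div_le_div_of_nonneg_left (by linarith) (by positivity)
    exact pow_le_pow_left₀ (by linarith) hD 2
  have hH0 : 0 < H := by linarith
  refine ⟨lt_of_lt_of_le (by positivity) hlow, ?_, hlow⟩
  refine h6.trans ?_
  have h4 : (4:ℝ) ≤ hh w := by
    have : 4 ≤ hh w := by omega
    exact_mod_cast this
  have h5 : (8:ℝ) ≤ (hh w : ℝ) ^ (3 / 2 : ℝ) := by
    calc (8:ℝ) = (4:ℝ) ^ (3 / 2 : ℝ) := by
          rw [show (4:ℝ) = 2 ^ (2:ℝ) by norm_num, ← Real.rpow_mul (by norm_num)]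
          norm_num
      _ ≤ _ := Real.rpow_le_rpow (by norm_num) h4 (by norm_num)
  rw [div_le_iff₀ (by linarith)]
  nlinarith

private theorem ASN_e {X : ℕ} (hX : 8 ≤ X) : 0 < eX X ∧ eX X ≤ 1 / 8 := by
  have hX1 : (8:ℝ) ≤ X := by exact_mod_cast hX
  unfold eX
  refine ⟨by positivity, ?_⟩
  apply one_div_le_one_div_of_le (by norm_num)
  calc (8:ℝ) ≤ X := hX1
    _ = (X:ℝ) ^ 1 := (pow_one _).symm
    _ ≤ (X:ℝ) ^ 85 := pow_le_pow_right₀ (by linarith) (by norm_num)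

private theorem ASN_H {X I h : ℕ} (hX : 8 ≤ X) (hI : I ≤ X ^ 174) (hh' : h ≤ (I + 2) * X) :
    (h : ℝ) ≤ 2 * (X:ℝ) ^ 175 := by
  have h1 : h ≤ 2 * X ^ 175 := by
    have h2 : 2 ≤ X ^ 174 := by
      calc 2 ≤ X := by omega
        _ = X ^ 1 := (pow_one _).symm
        _ ≤ X ^ 174 := Nat.pow_le_pow_right (by omega) (by norm_num)
    calc h ≤ (I + 2) * X := hh'
      _ ≤ (X ^ 174 + X ^ 174) * X := Nat.mul_le_mul_right _ (by omega)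
      _ = 2 * X ^ 175 := by rw [show (175:ℕ) = 174 + 1 by norm_num, pow_succ]; ring
  exact_mod_cast h1

private theorem ASN_H3 {X h : ℕ} (hX : 8 ≤ X) (hh' : h ≤ (X ^ 3 + 2) * X) :
    (h : ℝ) ≤ 2 * (X:ℝ) ^ 4 := by
  have h1 : h ≤ 2 * X ^ 4 := by
    have h2 : 2 ≤ X ^ 3 := by
      calc 2 ≤ X := by omega
        _ = X ^ 1 := (pow_one _).symm
        _ ≤ X ^ 3 := Nat.pow_le_pow_right (by omega) (by norm_num)
    calc h ≤ (X ^ 3 + 2) * X := hh'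
      _ ≤ (X ^ 3 + X ^ 3) * X := Nat.mul_le_mul_right _ (by omega)
      _ = 2 * X ^ 4 := by ring
  exact_mod_cast h1

private theorem ASN_iR {X n : ℕ} {i : Ix} {m : ℕ} : m ∈ iR X n i ↔ m < n ∧
    (1 - 4 * eX X) * iN X n i ≤ m ∧ (m:ℝ) ≤ (1 - 3 * eX X) * iN X n i := by
  unfold iR
  simp only [Finset.mem_filter, Finset.mem_range]

/-- real inequalities -/
private theorem ASN_real {e N M : ℝ} (he : 0 < e) (he1 : e ≤ 1 / 8) (hN : 0 < N)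
    (hM : |M - N| ≤ e / 10 * N) (heN : 100 ≤ e * N) :
    (1 - 3 * e) * N ≤ (1 - 2 * e) * M ∧ e * M / 16 ≤ e * N / 8 ∧ e * N / 8 + 1 ≤ e * M / 4 := by
  obtain ⟨h1, h2⟩ := abs_le.1 hM
  have h3 : (1 - e / 10) * N ≤ M := by linarith
  have h4 : M ≤ (1 + e / 10) * N := by linarith
  have heN0 : 0 < e * N := mul_pos he hN
  refine ⟨?_, ?_, ?_⟩
  · have h5 : (1 - 2 * e) * ((1 - e / 10) * N) ≤ (1 - 2 * e) * M :=
      mul_le_mul_of_nonneg_left h3 (by linarith)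
    have h6 : (1 - 2 * e) * ((1 - e / 10) * N) = (1 - 3 * e) * N + (9 / 10) * (e * N) + e * (e * N) / 5 := by
      ring
    have h7 : 0 ≤ e * (e * N) := by positivity
    linarith
  · have h5 : e * M ≤ e * ((1 + e / 10) * N) := mul_le_mul_of_nonneg_left h4 he.le
    have h6 : e * ((1 + e / 10) * N) = e * N + e * (e * N) / 10 := by ring
    have h7 : e * (e * N) ≤ 1 * (e * N) := mul_le_mul_of_nonneg_right (by linarith) heN0.le
    linarith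
  · have h5 : e * ((1 - e / 10) * N) ≤ e * M := mul_le_mul_of_nonneg_left h3 he.le
    have h6 : e * ((1 - e / 10) * N) = e * N - e * (e * N) / 10 := by ring
    have h7 : e * (e * N) ≤ 1 / 8 * (e * N) := mul_le_mul_of_nonneg_right he1 heN0.le
    linarith

private theorem ASN_card {a b : ℝ} (ha : 0 ≤ a) (hab : a ≤ b) {n : ℕ} (hb : b < n) (S : Finset ℕ)
    (hS : ∀ m : ℕ, m < n → a ≤ m → (m:ℝ) ≤ b → m ∈ S) : b - a - 1 ≤ S.card := by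
  have hb0 : 0 ≤ b := ha.trans hab
  have h1 : Finset.Icc ⌈a⌉₊ ⌊b⌋₊ ⊆ S := by
    intro m hm
    rw [Finset.mem_Icc] at hm
    have h2 : a ≤ m := (Nat.le_ceil a).trans (by exact_mod_cast hm.1)
    have h3 : (m:ℝ) ≤ b := le_trans (by exact_mod_cast hm.2) (Nat.floor_le hb0)
    exact hS m (by exact_mod_cast h3.trans_lt hb) h2 h3
  have h2 := Finset.card_le_card h1
  rw [Nat.card_Icc] at h2
  have h3 : (⌈a⌉₊ : ℝ) < a + 1 := Nat.ceil_lt_add_one ha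
  have h4 : b < ⌊b⌋₊ + 1 := Nat.lt_floor_add_one b
  have h5 : ((⌊b⌋₊ + 1 : ℕ) : ℝ) ≤ ((⌊b⌋₊ + 1 - ⌈a⌉₊ : ℕ) : ℝ) + ⌈a⌉₊ := by
    have : ⌊b⌋₊ + 1 ≤ (⌊b⌋₊ + 1 - ⌈a⌉₊) + ⌈a⌉₊ := by omega
    exact_mod_cast this
  have h6 : ((⌊b⌋₊ + 1 - ⌈a⌉₊ : ℕ) : ℝ) ≤ S.card := by exact_mod_cast h2
  push_cast at h5
  linarith

theorem asn_word : ∃ X0 : ℕ, 4 ≤ X0 ∧ ∀ X n I : ℕ, X0 ≤ X → Par X n → I ≤ X ^ 174 →
    ∀ (𝒯 : Finset (List Bool × Bool)), Tl X I 𝒯 → ∀ i ∈ iS X 𝒯,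
      0 < iN X n i ∧ iN X n i ≤ 7 / 8 * n ∧ (n:ℝ) / (5 * (X:ℝ) ^ 350) ≤ iN X n i ∧
      (hh i.1.1 : ℝ) ≤ 2 * (X:ℝ) ^ 175 ∧
      (∀ y ∈ Icc (ic X i) (ie X i), (1 - 3 * eX X) * iN X n i ≤ (1 - 2 * eX X) * NN n i.1.1 y ∧
        eX X * NN n i.1.1 y / 16 ≤ ir X n i ∧ (ir X n i : ℝ) ≤ eX X * NN n i.1.1 y / 4) ∧
      (ir X n i : ℝ) ≤ n ∧
      eX X / 2 * iN X n i ≤ (iR X n i).card ∧ iR X n i ⊆ Finset.range n ∧
      (∀ m ∈ iR X n i, 1 ≤ m ∧ (1 - 4 * eX X) * iN X n i ≤ m ∧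
        (m:ℝ) ≤ (1 - 3 * eX X) * iN X n i) := by
  obtain ⟨C, hC, hvar⟩ := nn_var
  refine ⟨max 1000 ⌈2 * C⌉₊, le_trans (by norm_num) (le_max_left _ _), ?_⟩
  intro X n I hX0 hP hI 𝒯 hT i hi
  have hX1000 : 1000 ≤ X := (le_max_left _ _).trans hX0
  have hX8 : 8 ≤ X := by omega
  have hXC : 2 * C ≤ X := (Nat.le_ceil _).trans (by exact_mod_cast (le_max_right _ _).trans hX0)
  obtain ⟨hiT, hik⟩ := ASN_mem hi
  have hXr : (1000:ℝ) ≤ X := by exact_mod_cast hX1000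
  have hX1 : (1:ℝ) ≤ X := by linarith
  obtain ⟨g1, g2, g3, g4, g5, g6⟩ := asd_geom (X := X) (by omega) i.1.2 hik
  have hc : ic X i ∈ Icc (1/3:ℝ) (2/3) := ⟨g1, (g2.le).trans g3⟩
  have hw1 : X ≤ hh i.1.1 := hT.hlow i.1 hiT
  have hw2 : (hh i.1.1 : ℝ) ≤ 2 * (X:ℝ) ^ 175 := ASN_H hX8 hI (hT.hup i.1 hiT)
  obtain ⟨N1, N2, N3⟩ := ASN_N hX8 hP hc hw1 hw2
  have hN : NN n i.1.1 (ic X i) = iN X n i := rfl
  rw [hN] at N1 N2 N3
  obtain ⟨e0, e1⟩ := ASN_e hX8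
  have hn0 : (0:ℝ) < n := by
    have : (1:ℝ) ≤ n := by exact_mod_cast (ASN_l hX8 hP).2.2.2.2
    linarith
  have hlow : (n:ℝ) / (5 * (X:ℝ) ^ 350) ≤ iN X n i := by
    refine le_trans ?_ N3
    have h1 : (2 * (X:ℝ) ^ 175) ^ 2 = 4 * (X:ℝ) ^ 350 := by
      rw [mul_pow, ← pow_mul]
      norm_num
    rw [h1, div_le_div_iff₀ (by positivity) (by positivity)]
    have : 0 < (n:ℝ) * (X:ℝ) ^ 350 := by positivity
    linarith
  have hebig : 100 ≤ eX X * iN X n i := by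
    have h1 : 500 * (X:ℝ) ^ 435 ≤ n := ASN_big (by omega) hP (by linarith) (by norm_num)
    have h2 : eX X * (n / (5 * (X:ℝ) ^ 350)) = n / (5 * (X:ℝ) ^ 435) := by
      unfold eX
      rw [show (435:ℕ) = 85 + 350 by norm_num, pow_add]
      field_simp
    have h3 : 100 ≤ (n:ℝ) / (5 * (X:ℝ) ^ 435) := by
      rw [le_div_iff₀ (by positivity)]
      linarith
    rw [← h2] at h3
    exact h3.trans (mul_le_mul_of_nonneg_left hlow e0.le)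
  have hceil1 : eX X * iN X n i / 8 ≤ ir X n i := Nat.le_ceil _
  have hceil2 : (ir X n i : ℝ) ≤ eX X * iN X n i / 8 + 1 :=
    (Nat.ceil_lt_add_one (by positivity)).le
  have hn100 : (100:ℝ) ≤ n := by
    have h1 : eX X * iN X n i ≤ 1 * iN X n i := mul_le_mul_of_nonneg_right (by linarith) N1.le
    linarith
  refine ⟨N1, N2, hlow, hw2, ?_, ?_, ?_, Finset.filter_subset _ _, ?_⟩
  · intro y hy
    have hie : ie X i = cX X i.1.2 (i.2 + 1) := rfl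
    have hic : ic X i = cX X i.1.2 i.2 := rfl
    have hy' : y ∈ Icc (1/3:ℝ) (2/3) := ⟨hc.1.trans hy.1, hy.2.trans g3⟩
    have hv := (hvar n i.1.1 (ic X i) y hc hy').1
    rw [hN] at hv
    have h1 : |y - ic X i| ≤ 1 / (6 * (X:ℝ) ^ 86) := by
      rw [abs_of_nonneg (by linarith [hy.1]), ← g4, ← hie, ← hic]
      linarith [hy.2]
    have h2 : C * |y - ic X i| ≤ eX X / 10 := by
      have h3 : C * |y - ic X i| ≤ C * (1 / (6 * (X:ℝ) ^ 86)) :=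
        mul_le_mul_of_nonneg_left h1 (by linarith)
      refine h3.trans ?_
      unfold eX
      rw [show (86:ℕ) = 85 + 1 by norm_num, pow_succ, mul_one_div, div_div,
        div_le_div_iff₀ (by positivity) (by positivity)]
      have h4 : 0 < (X:ℝ) ^ 85 := by positivity
      nlinarith
    have h5 : |NN n i.1.1 y - iN X n i| ≤ eX X / 10 * iN X n i :=
      hv.trans (mul_le_mul_of_nonneg_right h2 N1.le)
    obtain ⟨r1, r2, r3⟩ := ASN_real e0 e1 N1 h5 hebig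
    exact ⟨r1, r2.trans hceil1, hceil2.trans r3⟩
  · have h1 : eX X * iN X n i ≤ 1 * iN X n i := mul_le_mul_of_nonneg_right (by linarith) N1.le
    linarith
  · have h1 := ASN_card (a := (1 - 4 * eX X) * iN X n i) (b := (1 - 3 * eX X) * iN X n i)
      (mul_nonneg (by linarith) N1.le)
      (mul_le_mul_of_nonneg_right (by linarith) N1.le) (n := n) ?_ (iR X n i)
      (fun m h2 h3 h4 => ASN_iR.2 ⟨h2, h3, h4⟩)
    · have h2 : (1 - 3 * eX X) * iN X n i - (1 - 4 * eX X) * iN X n i - 1 = eX X * iN X n i - 1 := by ring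
      rw [h2] at h1
      linarith
    · have h2 : 0 < eX X * iN X n i := mul_pos e0 N1
      linarith
  · intro m hm
    obtain ⟨h1, h2, h3⟩ := ASN_iR.1 hm
    refine ⟨?_, h2, h3⟩
    have h4 : 0 < (1 - 4 * eX X) * iN X n i := mul_pos (by linarith) N1
    have h5 : (0:ℝ) < m := by linarith
    exact_mod_cast h5

theorem asn_main : ∃ X0 : ℕ, 4 ≤ X0 ∧ ∀ X n : ℕ, X0 ≤ X → Par X n →
    ∀ (𝒯 : Finset (List Bool × Bool)), Tl X (X ^ 3) 𝒯 → ∀ i ∈ iS X 𝒯,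
      ∀ m ∈ iR X n i, 4 * lX X n ≤ m := by
  refine ⟨16, by norm_num, ?_⟩
  intro X n hX hP 𝒯 hT i hi m hm
  have hX8 : 8 ≤ X := by omega
  obtain ⟨hiT, hik⟩ := ASN_mem hi
  have hXr : (16:ℝ) ≤ X := by exact_mod_cast hX
  have hX1 : (1:ℝ) ≤ X := by linarith
  obtain ⟨g1, g2, g3, g4, g5, g6⟩ := asd_geom (X := X) (by omega) i.1.2 hik
  have hc : ic X i ∈ Icc (1/3:ℝ) (2/3) := ⟨g1, (g2.le).trans g3⟩
  have hw1 : X ≤ hh i.1.1 := hT.hlow i.1 hiT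
  have hw2 : (hh i.1.1 : ℝ) ≤ 2 * (X:ℝ) ^ 4 := ASN_H3 hX8 (hT.hup i.1 hiT)
  obtain ⟨N1, N2, N3⟩ := ASN_N hX8 hP hc hw1 hw2
  have hN : NN n i.1.1 (ic X i) = iN X n i := rfl
  rw [hN] at N1 N2 N3
  obtain ⟨e0, e1⟩ := ASN_e hX8
  obtain ⟨_, _, l3, _, l5⟩ := ASN_l hX8 hP
  have hn0 : (0:ℝ) < n := by exact_mod_cast l5
  obtain ⟨_, h2, _⟩ := ASN_iR.1 hm
  have h3 : (n:ℝ) / (10 * (X:ℝ) ^ 8) ≤ (1 - 4 * eX X) * iN X n i := by
    have h4 : (n:ℝ) / (5 * (X:ℝ) ^ 8) ≤ iN X n i := by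
      refine le_trans ?_ N3
      rw [div_le_div_iff₀ (by positivity) (by positivity)]
      have h5 : (2 * (X:ℝ) ^ 4) ^ 2 = 4 * (X:ℝ) ^ 8 := by ring
      rw [h5]
      have : 0 < (n:ℝ) * (X:ℝ) ^ 8 := by positivity
      linarith
    have h6 : 1 / 2 * iN X n i ≤ (1 - 4 * eX X) * iN X n i :=
      mul_le_mul_of_nonneg_right (by linarith) N1.le
    have h7 : (n:ℝ) / (10 * (X:ℝ) ^ 8) = 1 / 2 * (n / (5 * (X:ℝ) ^ 8)) := by
      field_simp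
      ring
    rw [h7]
    linarith
  have h8 : (4:ℝ) * lX X n ≤ n / (10 * (X:ℝ) ^ 8) := by
    have h9 : (4:ℝ) * (n / (4 * (X:ℝ) ^ 86)) = n / (X:ℝ) ^ 86 := by
      field_simp
    have h10 : (n:ℝ) / (X:ℝ) ^ 86 ≤ n / (10 * (X:ℝ) ^ 8) := by
      apply div_le_div_of_nonneg_left hn0.le (by positivity)
      calc 10 * (X:ℝ) ^ 8 ≤ X * (X:ℝ) ^ 8 := mul_le_mul_of_nonneg_right (by linarith) (by positivity)
        _ = (X:ℝ) ^ 9 := by ring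
        _ ≤ (X:ℝ) ^ 86 := pow_le_pow_right₀ hX1 (by norm_num)
    linarith
  have h11 : (4:ℝ) * lX X n ≤ m := h8.trans (h3.trans h2)
  exact_mod_cast h11

theorem asn_tail (δ C : ℝ) (hδ : 0 < δ) (hC : 0 < C) : ∃ X0 : ℕ, ∀ X n : ℕ, X0 ≤ X → Par X n →
    10 ^ 8 / (1 + 2 * (lX X n : ℝ) * rhoX X) ^ 8 ≤ δ / (4 * lX X n) ∧
    ∀ r m : ℕ, (r:ℝ) ≤ n → m ≤ n → C * ((r:ℝ) ^ 2 * m) ≤ δ ^ 2 * (lX X n : ℝ) ^ 4 := by
  refine ⟨max 8 (max ⌈16 * 10 ^ 8 / δ⌉₊ ⌈4096 * C / δ ^ 2⌉₊), ?_⟩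
  intro X n hX0 hP
  have hX8 : 8 ≤ X := (le_max_left _ _).trans hX0
  have hXa : 16 * 10 ^ 8 / δ ≤ X :=
    (Nat.le_ceil _).trans (by exact_mod_cast (le_max_left _ _).trans ((le_max_right _ _).trans hX0))
  have hXb : 4096 * C / δ ^ 2 ≤ X :=
    (Nat.le_ceil _).trans (by exact_mod_cast (le_max_right _ _).trans ((le_max_right _ _).trans hX0))
  obtain ⟨l1, l2, l3, l4, l5⟩ := ASN_l hX8 hP
  have hX1 : (8:ℝ) ≤ X := by exact_mod_cast hX8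
  have hn1 : (1:ℝ) ≤ n := by exact_mod_cast l5
  have hl1 : (1:ℝ) ≤ lX X n := by exact_mod_cast l1
  have hl4 : (4:ℝ) * lX X n ≤ n := by exact_mod_cast l4
  have ha : 16 * 10 ^ 8 / δ * (X:ℝ) ^ 346 ≤ n := ASN_big (by omega) hP hXa (by norm_num)
  have hb : 4096 * C / δ ^ 2 * (X:ℝ) ^ 344 ≤ n := ASN_big (by omega) hP hXb (by norm_num)
  have hc : 4 * (X:ℝ) ^ 173 ≤ n := ASN_big (by omega) hP (by linarith) (by norm_num)
  constructor
  · set t : ℝ := n / (4 * (X:ℝ) ^ 173) with ht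
    have ht1 : 1 ≤ t := by
      rw [ht, le_div_iff₀ (by positivity)]
      linarith
    have h1 : t ≤ 1 + 2 * (lX X n : ℝ) * rhoX X := by
      have h2 : t = 2 * (n / (8 * (X:ℝ) ^ 86)) * rhoX X := by
        unfold rhoX
        rw [ht, show (173:ℕ) = 86 + 87 by norm_num, pow_add]
        field_simp
        norm_num
      have h3 : 0 ≤ rhoX X := by unfold rhoX; positivity
      have h4 : 2 * (n / (8 * (X:ℝ) ^ 86)) * rhoX X ≤ 2 * (lX X n : ℝ) * rhoX X :=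
        mul_le_mul_of_nonneg_right (by linarith) h3
      linarith
    have h5 : t ^ 2 ≤ (1 + 2 * (lX X n : ℝ) * rhoX X) ^ 8 :=
      calc t ^ 2 ≤ t ^ 8 := pow_le_pow_right₀ ht1 (by norm_num)
        _ ≤ _ := pow_le_pow_left₀ (by linarith) h1 8
    have h6 : t ^ 2 = n ^ 2 / (16 * (X:ℝ) ^ 346) := by
      rw [ht, div_pow, mul_pow, ← pow_mul]
      norm_num
    have h7 : 10 ^ 8 * n ≤ δ * t ^ 2 := by
      rw [h6]
      have h8 : 16 * 10 ^ 8 * (X:ℝ) ^ 346 ≤ δ * n := by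
        have h9 := mul_le_mul_of_nonneg_left ha hδ.le
        have h10 : δ * (16 * 10 ^ 8 / δ * (X:ℝ) ^ 346) = 16 * 10 ^ 8 * (X:ℝ) ^ 346 := by
          field_simp
        rwa [h10] at h9
      rw [mul_div_assoc', le_div_iff₀ (by positivity)]
      calc 10 ^ 8 * (n:ℝ) * (16 * (X:ℝ) ^ 346) = n * (16 * 10 ^ 8 * (X:ℝ) ^ 346) := by ring
        _ ≤ n * (δ * n) := mul_le_mul_of_nonneg_left h8 (by linarith)
        _ = δ * n ^ 2 := by ring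
    rw [div_le_div_iff₀ (lt_of_lt_of_le (by positivity) h5) (by linarith)]
    calc 10 ^ 8 * (4 * (lX X n : ℝ)) ≤ 10 ^ 8 * n := by linarith
      _ ≤ δ * t ^ 2 := h7
      _ ≤ δ * (1 + 2 * (lX X n : ℝ) * rhoX X) ^ 8 := mul_le_mul_of_nonneg_left h5 hδ.le
  · intro r m hr hm
    have hm' : (m:ℝ) ≤ n := by exact_mod_cast hm
    have h1 : (r:ℝ) ^ 2 * m ≤ n ^ 2 * n :=
      mul_le_mul (pow_le_pow_left₀ (Nat.cast_nonneg _) hr 2) hm' (Nat.cast_nonneg _) (by positivity)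
    have h2 : ((n:ℝ) / (8 * (X:ℝ) ^ 86)) ^ 4 ≤ (lX X n : ℝ) ^ 4 :=
      pow_le_pow_left₀ (by positivity) l2 4
    have h3 : ((n:ℝ) / (8 * (X:ℝ) ^ 86)) ^ 4 = n ^ 4 / (4096 * (X:ℝ) ^ 344) := by
      rw [div_pow, mul_pow, ← pow_mul]
      norm_num
    rw [h3] at h2
    have h4 : 4096 * C * (X:ℝ) ^ 344 ≤ δ ^ 2 * n := by
      have h9 := mul_le_mul_of_nonneg_left hb (by positivity : 0 ≤ δ ^ 2)
      have h10 : δ ^ 2 * (4096 * C / δ ^ 2 * (X:ℝ) ^ 344) = 4096 * C * (X:ℝ) ^ 344 := by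
        field_simp
      rwa [h10] at h9
    calc C * ((r:ℝ) ^ 2 * m) ≤ C * (n ^ 2 * n) := mul_le_mul_of_nonneg_left h1 hC.le
      _ ≤ δ ^ 2 * (n ^ 4 / (4096 * (X:ℝ) ^ 344)) := by
          rw [mul_div_assoc', le_div_iff₀ (by positivity)]
          calc C * ((n:ℝ) ^ 2 * n) * (4096 * (X:ℝ) ^ 344) = n ^ 3 * (4096 * C * (X:ℝ) ^ 344) := by ring
            _ ≤ n ^ 3 * (δ ^ 2 * n) := mul_le_mul_of_nonneg_left h4 (by positivity)
            _ = δ ^ 2 * n ^ 4 := by ring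
      _ ≤ δ ^ 2 * (lX X n : ℝ) ^ 4 := mul_le_mul_of_nonneg_left h2 (by positivity)

theorem asn_log : ∃ C : ℝ, 1 ≤ C ∧ ∀ X n : ℕ, 2 ≤ X → Par X n →
    Real.log (n + 2) ≤ C * Real.log X ∧ 1 ≤ n ∧ 1 ≤ Real.log (n + 2) := by
  refine ⟨4002, by norm_num, ?_⟩
  intro X n hX hP
  have hX2 : (2:ℝ) ≤ X := by exact_mod_cast hX
  have hn1 : (1:ℝ) ≤ n := (one_le_pow₀ (by linarith)).trans (ASN_n hP)
  have hup : (n:ℝ) ≤ (2 * (X:ℝ)) ^ 2000 := by exact_mod_cast hP.2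
  have h1 : (n:ℝ) + 2 ≤ (2 * (X:ℝ)) ^ 2001 := by
    have h2 : (2:ℝ) ≤ (2 * (X:ℝ)) ^ 2000 := by
      calc (2:ℝ) ≤ (2 * (X:ℝ)) ^ 1 := by rw [pow_one]; linarith
        _ ≤ _ := pow_le_pow_right₀ (by linarith) (by norm_num)
    rw [pow_succ]
    generalize (2 * (X:ℝ)) ^ 2000 = Q at hup h2
    nlinarith
  refine ⟨?_, by exact_mod_cast hn1, ?_⟩
  · calc Real.log (n + 2) ≤ Real.log ((2 * (X:ℝ)) ^ 2001) := Real.log_le_log (by linarith) h1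
      _ = 2001 * Real.log (2 * X) := by rw [Real.log_pow]; norm_num
      _ ≤ 2001 * (2 * Real.log X) := by
          have : Real.log (2 * X) ≤ Real.log ((X:ℝ) ^ 2) :=
            Real.log_le_log (by linarith) (by nlinarith)
          rw [Real.log_pow] at this
          push_cast at this
          linarith
      _ = 4002 * Real.log X := by ring
  · rw [Real.le_log_iff_exp_le (by linarith)]
    have := Real.exp_one_lt_d9
    linarith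

end Pool.H52.MQ
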