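import Pool.Agent.H52.MQ.ASN

/-! Module AST (project MP_935a4b_QM): the exponentially small error.  Uses definitions of ASD, and SBN (nn_bounds).
X^2000 <= n <= (2X)^2000, eta = X^-85, hh w <= 2 X^175, 0 <= E <= C' log(n+2)^2, y in [1/3,2/3], N = NN n w y >= (9/10) n/DD^2 >= (9/10) n/(4 X^350) (sba_DD: DD <= hh).
c eta^3 N >= c (9/40) n X^(-255-350) >= c' n X^(-605).  Claim: prefactor * exp(4 sqrt(nE)+2E - c eta^3 N) <= 1/n for X >= X0.
Take logarithms: log C + 12 log(n * 2X^175 * X^85) + 2 X^175 log 2 + 4 sqrt(C' n) log(n+2) + 2C' log(n+2)^2 + log n <= c' n X^(-605).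
Everything on the left is <= K sqrt(n) log(n+2)^2 + K X^175 <= K' sqrt(n) X (as X^175 <= sqrt n and log(n+2)^2 <= K'' X, asn_log), and sqrt(n) >= X^1000, so the right side is c' sqrt(n) sqrt(n) X^(-605) >= c' sqrt(n) X^395. -/

open MeasureTheory Set

namespace Pool.H52.MQ

private theorem ast_key (c C C' K0 x s L h E N nn : ℝ) (hc : 0 < c) (hC : 0 < C) (hC' : 0 < C')
    (hx1 : 2 ≤ x) (hs : x ^ 1000 ≤ s) (hnn : nn = s ^ 2) (hL1 : 1 ≤ L)
    (hL : L ≤ K0 * x) (h0 : 0 ≤ h) (hh : h ≤ 2 * x ^ 175)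
    (hE0 : 0 ≤ E) (hE : E ≤ C' * L ^ 2) (hN : 9 / 10 * nn / (4 * x ^ 350) ≤ N)
    (hbig : (C + 27 + 4 * √C' + 2 * C') * K0 ^ 2 * 40 ≤ 9 * c * x) :
    C + 24 * L + h + (4 * √(nn * E) + 2 * E - c * (1 / x ^ 85) ^ 3 * N) ≤ - L := by
  have hx0 : 0 < x := by linarith
  have hx1' : 1 ≤ x := by linarith
  have hs1 : 1 ≤ s := le_trans (one_le_pow₀ hx1') hs
  have hs0 : 0 < s := by linarith
  have hsq : 0 ≤ √C' := Real.sqrt_nonneg _
  have hL0 : 0 < L := by linarith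
  have hL2 : L ≤ L ^ 2 := by nlinarith
  have h1L2 : 1 ≤ L ^ 2 := by nlinarith
  have hK : 0 ≤ C + 27 + 4 * √C' + 2 * C' := by positivity
  -- the square root
  have hsqrt : √(nn * E) ≤ s * (√C' * L) := by
    have e1 : nn * E ≤ (s * (√C' * L)) ^ 2 := by
      rw [hnn]
      have : (s * (√C' * L)) ^ 2 = s ^ 2 * (C' * L ^ 2) := by
        rw [mul_pow, mul_pow, Real.sq_sqrt hC'.le]
      rw [this]
      exact mul_le_mul_of_nonneg_left hE (by positivity)
    calc √(nn * E) ≤ √((s * (√C' * L)) ^ 2) := Real.sqrt_le_sqrt e1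
      _ = s * (√C' * L) := Real.sqrt_sq (by positivity)
  have hx175 : x ^ 175 ≤ s := le_trans (pow_le_pow_right₀ hx1' (by norm_num)) hs
  have hh' : h ≤ 2 * s := by linarith
  -- left side
  have hleft : C + 24 * L + h + 4 * √(nn * E) + 2 * E + L
      ≤ s * ((C + 27 + 4 * √C' + 2 * C') * L ^ 2) := by
    have t1 : C ≤ s * (C * L ^ 2) := by
      have : 1 ≤ s * L ^ 2 := by nlinarith
      nlinarith
    have t2 : 25 * L ≤ s * (25 * L ^ 2) := by nlinarith
    have t3 : h ≤ s * (2 * L ^ 2) := by nlinarith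
    have t4 : 4 * √(nn * E) ≤ s * (4 * √C' * L ^ 2) := by
      calc 4 * √(nn * E) ≤ 4 * (s * (√C' * L)) := by linarith
        _ = s * (4 * √C') * L := by ring
        _ ≤ s * (4 * √C') * L ^ 2 := mul_le_mul_of_nonneg_left hL2 (by positivity)
        _ = s * (4 * √C' * L ^ 2) := by ring
    have t5 : 2 * E ≤ s * (2 * C' * L ^ 2) := by
      have : 0 ≤ C' * L ^ 2 := by positivity
      nlinarith
    calc C + 24 * L + h + 4 * √(nn * E) + 2 * E + L
        = C + 25 * L + h + 4 * √(nn * E) + 2 * E := by ring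
      _ ≤ s * (C * L ^ 2) + s * (25 * L ^ 2) + s * (2 * L ^ 2) + s * (4 * √C' * L ^ 2)
          + s * (2 * C' * L ^ 2) := by linarith
      _ = s * ((C + 27 + 4 * √C' + 2 * C') * L ^ 2) := by ring
  have hL2x : L ^ 2 ≤ K0 ^ 2 * x ^ 2 := by
    calc L ^ 2 ≤ (K0 * x) ^ 2 := pow_le_pow_left₀ hL0.le hL 2
      _ = K0 ^ 2 * x ^ 2 := by ring
  have hmid : s * ((C + 27 + 4 * √C' + 2 * C') * L ^ 2) ≤ 9 * c / 40 * s * x ^ 395 := by
    have e1 : (C + 27 + 4 * √C' + 2 * C') * L ^ 2 ≤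
        (C + 27 + 4 * √C' + 2 * C') * (K0 ^ 2 * x ^ 2) := mul_le_mul_of_nonneg_left hL2x hK
    have e2 : (C + 27 + 4 * √C' + 2 * C') * (K0 ^ 2 * x ^ 2) ≤ 9 * c / 40 * x * x ^ 2 := by
      have : 0 ≤ x ^ 2 := by positivity
      nlinarith
    have e3 : x * x ^ 2 ≤ x ^ 395 := by
      calc x * x ^ 2 = x ^ 3 := by ring
        _ ≤ x ^ 395 := pow_le_pow_right₀ hx1' (by norm_num)
    have e4 : 9 * c / 40 * x * x ^ 2 ≤ 9 * c / 40 * x ^ 395 := by
      have : 0 ≤ 9 * c / 40 := by positivity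
      calc 9 * c / 40 * x * x ^ 2 = 9 * c / 40 * (x * x ^ 2) := by ring
        _ ≤ 9 * c / 40 * x ^ 395 := mul_le_mul_of_nonneg_left e3 this
    calc s * ((C + 27 + 4 * √C' + 2 * C') * L ^ 2)
        ≤ s * (9 * c / 40 * x ^ 395) := mul_le_mul_of_nonneg_left (by linarith) hs0.le
      _ = 9 * c / 40 * s * x ^ 395 := by ring
  have hright : 9 * c / 40 * s * x ^ 395 ≤ c * (1 / x ^ 85) ^ 3 * N := by
    have e0 : 0 < c * (1 / x ^ 85) ^ 3 := by positivity
    calc 9 * c / 40 * s * x ^ 395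
        ≤ 9 * c / 40 * s * (s / x ^ 605) := by
          apply mul_le_mul_of_nonneg_left _ (by positivity)
          rw [le_div_iff₀ (by positivity)]
          calc x ^ 395 * x ^ 605 = x ^ 1000 := by rw [← pow_add]
            _ ≤ s := hs
      _ = c * (1 / x ^ 85) ^ 3 * (9 / 10 * nn / (4 * x ^ 350)) := by
          rw [hnn]
          have : x ^ 605 = (x ^ 85) ^ 3 * x ^ 350 := by rw [← pow_mul, ← pow_add]
          rw [this]
          field_simp
          ring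
      _ ≤ c * (1 / x ^ 85) ^ 3 * N := mul_le_mul_of_nonneg_left hN e0.le
  linarith

theorem ast_tau (c C C' : ℝ) (hc : 0 < c) (hC : 0 < C) (hC' : 0 < C') :
    ∃ X0 : ℕ, ∀ X n : ℕ, X0 ≤ X → Par X n → ∀ (w : List Bool) (y E : ℝ),
      y ∈ Icc (1/3:ℝ) (2/3) → (hh w : ℝ) ≤ 2 * (X:ℝ) ^ 175 → 0 ≤ E →
      E ≤ C' * Real.log (n + 2) ^ 2 →
      C * ((n:ℝ) * hh w / eX X) ^ 12 * 2 ^ hh w *
        Real.exp (4 * √(n * E) + 2 * E - c * eX X ^ 3 * NN n w y) ≤ 1 / n := by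
  obtain ⟨K0, hK0, hlogs⟩ := asn_log
  obtain ⟨X1, hX1⟩ := exists_nat_ge ((C + 27 + 4 * √C' + 2 * C') * K0 ^ 2 * 40 / (9 * c))
  refine ⟨max 2 X1, fun X n hX hPar w y E hy hhw hE0 hE => ?_⟩
  have hX2 : 2 ≤ X := le_trans (le_max_left _ _) hX
  have hXX1 : X1 ≤ X := le_trans (le_max_right _ _) hX
  obtain ⟨hlog1, hn1, hlog2⟩ := hlogs X n hX2 hPar
  set x : ℝ := (X : ℝ) with hx
  have hx2 : (2 : ℝ) ≤ x := by rw [hx]; exact_mod_cast hX2
  have hx0 : 0 < x := by linarith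
  have hx1 : 1 ≤ x := by linarith
  have hnr : (1 : ℝ) ≤ n := by exact_mod_cast hn1
  have hn0 : (0 : ℝ) < n := by linarith
  set L : ℝ := Real.log (n + 2) with hLdef
  have hLx : L ≤ K0 * x := by
    calc L ≤ K0 * Real.log x := hlog1
      _ ≤ K0 * x := by
          apply mul_le_mul_of_nonneg_left _ (by linarith)
          have := Real.log_le_sub_one_of_pos hx0
          linarith
  have hlogn : Real.log n ≤ L := by
    rw [hLdef]
    exact Real.log_le_log hn0 (by linarith)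
  have hnx : x ^ 2000 ≤ (n : ℝ) := by
    rw [hx]; exact_mod_cast hPar.1
  have hs : x ^ 1000 ≤ √(n : ℝ) := by
    apply Real.le_sqrt_of_sq_le
    calc (x ^ 1000) ^ 2 = x ^ 2000 := by rw [← pow_mul]
      _ ≤ (n : ℝ) := hnx
  have hsq : (n : ℝ) = √(n : ℝ) ^ 2 := (Real.sq_sqrt hn0.le).symm
  have hh0 : (0 : ℝ) ≤ hh w := Nat.cast_nonneg _
  have hbig : (C + 27 + 4 * √C' + 2 * C') * K0 ^ 2 * 40 ≤ 9 * c * x := by
    have h1 : (C + 27 + 4 * √C' + 2 * C') * K0 ^ 2 * 40 / (9 * c) ≤ x := by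
      refine hX1.trans ?_
      rw [hx]; exact_mod_cast hXX1
    rw [div_le_iff₀ (by positivity)] at h1
    linarith
  have hNN : 9 / 10 * (n : ℝ) / (4 * x ^ 350) ≤ NN n w y := by
    have h1 := (nn_bounds n w hy).2.2.2.2.2.2.1
    obtain ⟨d1, d2, -, -⟩ := sba_DD w (y := y) ⟨by linarith [hy.1], by linarith [hy.2]⟩
    refine le_trans ?_ h1
    apply div_le_div_of_nonneg_left (by positivity) (by positivity)
    calc DD w y ^ 2 ≤ (2 * x ^ 175) ^ 2 := pow_le_pow_left₀ (by linarith) (d2.trans hhw) 2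
      _ = 4 * x ^ 350 := by rw [mul_pow, ← pow_mul]; norm_num
  have hkey := ast_key c C C' K0 x (√(n : ℝ)) L (hh w) E (NN n w y) n hc hC hC' hx2 hs hsq hlog2
    hLx hh0 hhw hE0 hE hNN hbig
  -- prefactors
  have hCexp : C ≤ Real.exp C := by
    have := Real.add_one_le_exp C
    linarith
  have heta : eX X = 1 / x ^ 85 := rfl
  have hpre : ((n:ℝ) * hh w / eX X) ^ 12 ≤ Real.exp (24 * L) := by
    have e1 : (n:ℝ) * hh w / eX X ≤ (n : ℝ) ^ 2 := by
      rw [heta, div_div_eq_mul_div, div_one]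
      have h260 : 2 * x ^ 260 ≤ (n : ℝ) := by
        calc 2 * x ^ 260 ≤ x * x ^ 260 := mul_le_mul_of_nonneg_right hx2 (by positivity)
          _ = x ^ 261 := by ring
          _ ≤ x ^ 2000 := pow_le_pow_right₀ hx1 (by norm_num)
          _ ≤ (n : ℝ) := hnx
      calc (n:ℝ) * hh w * x ^ 85 ≤ n * (2 * x ^ 175) * x ^ 85 := by
            apply mul_le_mul_of_nonneg_right _ (by positivity)
            exact mul_le_mul_of_nonneg_left hhw hn0.le
        _ = n * (2 * x ^ 260) := by ring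
        _ ≤ n * n := mul_le_mul_of_nonneg_left h260 hn0.le
        _ = (n : ℝ) ^ 2 := by ring
    have e0 : 0 ≤ (n:ℝ) * hh w / eX X := by
      rw [heta]; positivity
    calc ((n:ℝ) * hh w / eX X) ^ 12 ≤ ((n : ℝ) ^ 2) ^ 12 := pow_le_pow_left₀ e0 e1 12
      _ = (n : ℝ) ^ 24 := by rw [← pow_mul]
      _ = Real.exp (Real.log n) ^ 24 := by rw [Real.exp_log hn0]
      _ = Real.exp (24 * Real.log n) := by rw [← Real.exp_nat_mul]; norm_num
      _ ≤ Real.exp (24 * L) := Real.exp_le_exp.2 (by linarith)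
  have htwo : (2 : ℝ) ^ hh w ≤ Real.exp (hh w) := by
    have e2 : (2 : ℝ) ≤ Real.exp 1 := by
      have := Real.add_one_le_exp (1 : ℝ)
      linarith
    calc (2 : ℝ) ^ hh w ≤ Real.exp 1 ^ hh w := pow_le_pow_left₀ (by norm_num) e2 _
      _ = Real.exp (hh w) := by rw [← Real.exp_nat_mul, mul_one]
  have hp0 : 0 ≤ ((n:ℝ) * hh w / eX X) ^ 12 := by
    have : 0 ≤ (n:ℝ) * hh w / eX X := by rw [heta]; positivity
    positivity
  calc C * ((n:ℝ) * hh w / eX X) ^ 12 * 2 ^ hh w *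
        Real.exp (4 * √(n * E) + 2 * E - c * eX X ^ 3 * NN n w y)
      ≤ Real.exp C * Real.exp (24 * L) * Real.exp (hh w) *
        Real.exp (4 * √(n * E) + 2 * E - c * eX X ^ 3 * NN n w y) := by
        apply mul_le_mul_of_nonneg_right _ (Real.exp_pos _).le
        apply mul_le_mul _ htwo (by positivity) (by positivity)
        exact mul_le_mul hCexp hpre hp0 (Real.exp_pos _).le
    _ = Real.exp (C + 24 * L + hh w
        + (4 * √(n * E) + 2 * E - c * (1 / x ^ 85) ^ 3 * NN n w y)) := by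
        rw [Real.exp_add, Real.exp_add, Real.exp_add, heta]
    _ ≤ Real.exp (-L) := Real.exp_le_exp.2 hkey
    _ ≤ Real.exp (- Real.log n) := Real.exp_le_exp.2 (by linarith)
    _ = 1 / n := by rw [Real.exp_neg, Real.exp_log hn0, one_div]

end Pool.H52.MQ
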