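import Mathlib

/-! MP_935a4b_an, project MP_935a4b_QM (PI helper52): definitions.
Paper proof: team-store H52_935a4b.md -/

open MeasureTheory Set Polynomial
open scoped ENNReal ComplexConjugate

namespace Pool.H52.MQ

noncomputable section

/-! ### The question mark function -/

/-- Gauss map: fractional part of 1/x (0 for x = 0). -/
def gauss (x : ℝ) : ℝ := Int.fract x⁻¹

/-- continued fraction digits of x : dig x k = c_(k+1). -/
def dig (x : ℝ) (k : ℕ) : ℕ := ⌊(gauss^[k] x)⁻¹⌋₊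

/-- k-th term of the series of the question mark function; 0 when the expansion has stopped. -/
def qterm (x : ℝ) (k : ℕ) : ℝ :=
  if gauss^[k] x = 0 then 0
  else (-1) ^ k * (1 / 2) ^ (∑ i ∈ Finset.range (k + 1), dig x i)

/-- Minkowski question mark function on [0,1]. -/
def qmark (x : ℝ) : ℝ := 2 * ∑' k, qterm x k

/-! ### Orthonormal polynomials on the line -/

/-- p is the sequence of orthonormal polynomials of mu with recurrence coefficients a, b. -/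
structure IsJacobi (μ : Measure ℝ) (p : ℕ → ℝ[X]) (a b : ℕ → ℝ) : Prop where
  deg : ∀ n, (p n).natDegree = n
  lead : ∀ n, 0 < (p n).leadingCoeff
  orth : ∀ m n, ∫ x, (p m).eval x * (p n).eval x ∂μ = if m = n then 1 else 0
  apos : ∀ n, 0 < a (n + 1)
  rec0 : X * p 0 = C (a 1) * p 1 + C (b 0) * p 0
  recs : ∀ n, X * p (n + 1) = C (a (n + 2)) * p (n + 2) + C (b (n + 1)) * p (n + 1)
    + C (a (n + 1)) * p n

/-- Christoffel-Darboux kernel. -/
def KK (p : ℕ → ℝ[X]) (n : ℕ) (x y : ℝ) : ℝ :=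
  ∑ k ∈ Finset.range n, (p k).eval x * (p k).eval y

/-- the properties of the Minkowski measure that are used. -/
structure QM (μ : Measure ℝ) : Prop where
  prob : IsProbabilityMeasure μ
  supp : μ (Icc 0 1)ᶜ = 0
  noatom : ∀ x, μ {x} = 0
  self : ∀ f : ℝ → ℝ≥0∞, Measurable f →
    ∫⁻ x, f x ∂μ = (∫⁻ y, f (y / (1 + y)) ∂μ + ∫⁻ y, f (1 / (2 - y)) ∂μ) / 2

/-! ### Stern-Brocot words.  The HEAD of the list is the letter appended LAST
(= the map applied first). -/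

/-- ((p,q),(p',q')) -/
def sb : List Bool → (ℕ × ℕ) × (ℕ × ℕ)
  | [] => ((0, 1), (1, 1))
  | false :: w => ((sb w).1, ((sb w).1.1 + (sb w).2.1, (sb w).1.2 + (sb w).2.2))
  | true :: w => (((sb w).1.1 + (sb w).2.1, (sb w).1.2 + (sb w).2.2), (sb w).2)

def lp (w : List Bool) : ℕ := (sb w).1.1
def lq (w : List Bool) : ℕ := (sb w).1.2
def rp (w : List Bool) : ℕ := (sb w).2.1
def rq (w : List Bool) : ℕ := (sb w).2.2

/-- height q + q' -/
def hh (w : List Bool) : ℕ := lq w + rq w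

def AA (w : List Bool) (y : ℝ) : ℝ := lp w * (1 - y) + rp w * y
def DD (w : List Bool) (y : ℝ) : ℝ := lq w * (1 - y) + rq w * y
def BB (w : List Bool) (y : ℝ) : ℝ := DD w y - AA w y

/-- Moebius map of the word. -/
def gam (w : List Bool) (y : ℝ) : ℝ := AA w y / DD w y

def cell (w : List Bool) : Set ℝ := Icc ((lp w : ℝ) / lq w) ((rp w : ℝ) / rq w)

def lam (w : List Bool) (y : ℝ) : ℝ := DD w y * √(AA w y * BB w y)

/-- local degree -/
def NN (n : ℕ) (w : List Bool) (y : ℝ) : ℝ := n * √(y * (1 - y)) / lam w y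

/-- the integer quartic D^2 A (D-A) -/
def QQ (w : List Bool) (y : ℝ) : ℝ := DD w y ^ 2 * (AA w y * BB w y)

/-- pulled back kernel on a cell -/
def kap (p : ℕ → ℝ[X]) (n : ℕ) (w : List Bool) (y y' : ℝ) : ℝ :=
  (1 / 2) ^ w.length * KK p n (gam w y) (gam w y')

/-! ### The circle -/

/-- z(y) = exp(i arccos(2y-1)) -/
def zz (y : ℝ) : ℂ := Complex.exp (Real.arccos (2 * y - 1) * Complex.I)

/-- varpi(y) = z(y)^2 -/
def vp (y : ℝ) : ℂ := zz y ^ 2

/-- mean over the unit circle -/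
def av {E : Type*} [NormedAddCommGroup E] [NormedSpace ℝ E] (f : ℂ → E) : E :=
  Real.circleAverage f 0 1

/-- comparison measure on the circle -/
def sg (μ : Measure ℝ) : Measure ℂ :=
  (μ.restrict (Icc (1 / 4) (3 / 4))).map vp +
  ENNReal.ofReal ((3 / 2) * (1 - (μ (Icc (1 / 4) (3 / 4))).toReal) / (2 * Real.pi)) •
    ((volume.restrict (Icc 0 (2 * Real.pi / 3) ∪ Icc (4 * Real.pi / 3) (2 * Real.pi))).map
      (fun t : ℝ => Complex.exp (t * Complex.I)))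

/-! ### Orthogonal polynomials on the circle -/

/-- (Phi_n, Phi_n^*) from the Verblunsky coefficients. -/
def PS (α : ℕ → ℂ) : ℕ → ℂ[X] × ℂ[X]
  | 0 => (1, 1)
  | n + 1 => (X * (PS α n).1 - C (conj (α n)) * (PS α n).2,
      (PS α n).2 - C (α n) * (X * (PS α n).1))

def Ph (α : ℕ → ℂ) (n : ℕ) : ℂ[X] := (PS α n).1
def Pt (α : ℕ → ℂ) (n : ℕ) : ℂ[X] := (PS α n).2

/-- nu_n = ||Phi_n||^2 -/
def nu (α : ℕ → ℂ) (n : ℕ) : ℝ := ∏ k ∈ Finset.range n, (1 - ‖α k‖ ^ 2)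

structure Szego (σ : Measure ℂ) (α : ℕ → ℂ) : Prop where
  prob : IsProbabilityMeasure σ
  circ : σ (Metric.sphere 0 1)ᶜ = 0
  lt : ∀ n, ‖α n‖ < 1
  orth : ∀ n, ∀ j < n, ∫ w, (Ph α n).eval w * conj (w ^ j) ∂σ = 0

/-- energy on a window -/
def En (α : ℕ → ℂ) (s : Finset ℕ) : ℝ := ∑ k ∈ s, -Real.log (1 - ‖α k‖ ^ 2)

/-- circle kernel -/
def Kc (α : ℕ → ℂ) (m : ℕ) (w w' : ℂ) : ℂ :=
  ∑ k ∈ Finset.range m, (Ph α k).eval w * conj ((Ph α k).eval w') / (nu α k : ℂ)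

/-- diagonal of the circle kernel at varpi(y) -/
def kc (α : ℕ → ℂ) (m : ℕ) (y : ℝ) : ℝ :=
  ∑ k ∈ Finset.range m, ‖(Ph α k).eval (vp y)‖ ^ 2 / nu α k

/-- gauged kernel -/
def Khat (α : ℕ → ℂ) (m : ℕ) (y' y : ℝ) : ℂ :=
  zz y' ^ (-((m : ℤ) - 1)) * zz y ^ ((m : ℤ) - 1) * Kc α m (vp y') (vp y)

/-- localiser exponent and localiser -/
def rr (η N : ℝ) : ℕ := ⌈η * N / 16⌉₊
def Qf (r : ℕ) (y0 y : ℝ) : ℝ := (1 - (y - y0) ^ 2) ^ r

/-- excess density e(y) -/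
def ex (μ : Measure ℝ) (p : ℕ → ℝ[X]) (α : ℕ → ℂ) (n m : ℕ) (w : List Bool) (η : ℝ) (y : ℝ) : ℝ :=
  ∫ y' in Icc 0 1, ‖(kap p n w y y' : ℂ) - Khat α m y' y * (Qf (rr η (NN n w y)) y y' : ℂ)‖ ^ 2 ∂μ

/-- arcsine probability of the interval (c,d) -/
def om (c d : ℝ) : ℝ := (Real.arccos (2 * c - 1) - Real.arccos (2 * d - 1)) / Real.pi

/-- Jackson-type kernels: L = 4 l, w_j = exp(2 pi i j/L) -/
def ww (L j : ℕ) : ℂ := Complex.exp (2 * Real.pi * j / L * Complex.I)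
def qJ (l : ℕ) (L j : ℕ) : ℂ[X] := (∑ i ∈ Finset.range l, C (conj (ww L j) ^ i) * X ^ i) ^ 4
def cJ (l : ℕ) : ℝ := (av (fun w => ‖(qJ l (4 * l) 0).eval w‖ ^ 2))⁻¹
def gJ (l : ℕ) (j : ℕ) (w : ℂ) : ℝ := cJ l / (4 * l) * ‖(qJ l (4 * l) j).eval w‖ ^ 2

end

end Pool.H52.MQ
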