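import Pool.Agent.H52.MQ.Defs

/-! Module OPA (project MP_935a4b_QM): basic facts on orthonormal polynomials on the line.  Mathlib only.
mu is a probability measure carried by [0,1] (QM.prob, QM.supp), so every continuous function is integrable
(bounded on the compact set [0,1], which has full measure); opa_intb is the same for bounded measurable f.
* opa_repro: P of degree < n is a complex combination of p_0..p_{n-1} (natDegree (p k) = k, leading coefficient > 0:
  induction on the degree, or Polynomial.degreeLT basis / strong induction subtracting a multiple of p_k);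
  for P = p_j, j<n, the identity is int KK(x,t) p_j(t) = sum_k p_k(x) delta_kj = p_j(x).  Linear in P.
* opa_sq: expand the square of KK p n x t = sum_k p_k(x)p_k(t) and use orth.   opa_diag: int sum p_k^2 = n.
* opa_cd: induction on n with the recurrence (rec0, recs evaluated at x and y):
  (x-y)p_n(x)p_n(y) = a_{n+1}(p_{n+1}(x)p_n(y)-p_n(x)p_{n+1}(y)) - a_n(p_n(x)p_{n-1}(y)-p_{n-1}(x)p_n(y)).
* opa_a: multiply recs (or rec0) for x p_n by p_{n+1} and integrate: int x p_n p_{n+1} = a_{n+1}.
* opa_le: a_{n+1} = int (x-1/2) p_{n+1} p_n (orth) <= 1/2 int |p_{n+1} p_n| <= 1/4 int (p_{n+1}^2 + p_n^2) = 1/2.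
* opa_abs (bound of int |KK|): Cauchy-Schwarz: (int |KK x t| dmu)^2 <= int KK^2 = KK x x. -/

open MeasureTheory Set Polynomial
open scoped ENNReal ComplexConjugate

namespace Pool.H52.MQ

theorem opa_ae {μ : Measure ℝ} (hμ : QM μ) : ∀ᵐ x ∂μ, x ∈ Icc (0:ℝ) 1 := by
  rw [ae_iff]
  exact hμ.supp

theorem opa_intb {μ : Measure ℝ} (hμ : QM μ) {E : Type*} [NormedAddCommGroup E] {f : ℝ → E}
    (hf : AEStronglyMeasurable f μ) (B : ℝ) (hB : ∀ x ∈ Icc (0:ℝ) 1, ‖f x‖ ≤ B) : Integrable f μ := by
  have := hμ.prob
  apply Integrable.of_bound hf B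
  filter_upwards [opa_ae hμ] with x hx
  exact hB x hx

theorem opa_int {μ : Measure ℝ} (hμ : QM μ) {E : Type*} [NormedAddCommGroup E] {f : ℝ → E}
    (hf : Continuous f) : Integrable f μ := by
  obtain ⟨B, hB⟩ := (isCompact_Icc (a := (0:ℝ)) (b := 1)).exists_bound_of_continuousOn hf.continuousOn
  exact opa_intb hμ hf.aestronglyMeasurable B hB

theorem opa_cont (p : ℕ → ℝ[X]) (n : ℕ) : Continuous (fun z : ℝ × ℝ => KK p n z.1 z.2) := by
  unfold KK
  apply continuous_finsetSum
  intro k _
  exact ((p k).continuous.comp continuous_fst).mul ((p k).continuous.comp continuous_snd)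

theorem opa_symm (p : ℕ → ℝ[X]) (n : ℕ) (x y : ℝ) : KK p n x y = KK p n y x := by
  unfold KK
  exact Finset.sum_congr rfl fun k _ => mul_comm _ _

theorem opa_nonneg (p : ℕ → ℝ[X]) (n : ℕ) (x : ℝ) : 0 ≤ KK p n x x := by
  unfold KK
  exact Finset.sum_nonneg fun k _ => mul_self_nonneg _

private theorem opa_base {μ : Measure ℝ} (hμ : QM μ) {p : ℕ → ℝ[X]} {a b : ℕ → ℝ}
    (hp : IsJacobi μ p a b) (n m : ℕ) (hm : m < n) (x : ℝ) :
    ∫ t, KK p n x t * (p m).eval t ∂μ = (p m).eval x := by
  have e : (fun t => KK p n x t * (p m).eval t)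
      = fun t => ∑ k ∈ Finset.range n, (p k).eval x * ((p k).eval t * (p m).eval t) := by
    funext t
    unfold KK
    rw [Finset.sum_mul]
    exact Finset.sum_congr rfl fun k _ => by ring
  rw [e, integral_finsetSum]
  · have e2 : ∀ k ∈ Finset.range n, ∫ t, (p k).eval x * ((p k).eval t * (p m).eval t) ∂μ
        = if k = m then (p k).eval x else 0 := by
      intro k _
      rw [integral_const_mul, hp.orth k m]
      split_ifs <;> simp
    rw [Finset.sum_congr rfl e2, Finset.sum_ite_eq' (Finset.range n) m (fun k => (p k).eval x)]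
    simp [hm]
  · intro k _
    apply opa_int hμ
    exact continuous_const.mul ((p k).continuous.mul (p m).continuous)

theorem opa_repro {μ : Measure ℝ} (hμ : QM μ) {p : ℕ → ℝ[X]} {a b : ℕ → ℝ} (hp : IsJacobi μ p a b)
    (n : ℕ) (P : ℂ[X]) (hP : P.natDegree < n) (x : ℝ) :
    ∫ t, (KK p n x t : ℂ) * P.eval (t : ℂ) ∂μ = P.eval (x : ℂ) := by
  have hK : Continuous fun t : ℝ => (KK p n x t : ℂ) :=
    Complex.continuous_ofReal.comp ((opa_cont p n).comp (Continuous.prodMk_right x))
  have key : ∀ m ≤ n, ∀ Q : ℂ[X], Q.degree < (m : WithBot ℕ) →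
      ∫ t, (KK p n x t : ℂ) * Q.eval (t : ℂ) ∂μ = Q.eval (x : ℂ) := by
    intro m
    induction m with
    | zero =>
      intro _ Q hQ
      have : Q = 0 := by
        rw [← Polynomial.degree_eq_bot]
        by_contra h
        have h1 : (0 : WithBot ℕ) ≤ Q.degree := zero_le_degree_iff.mpr (by
          intro h0; exact h (by rw [h0]; exact degree_zero))
        exact absurd hQ (not_lt.mpr (by simpa using h1))
      rw [this]; simp
    | succ m ih =>
      intro hm Q hQ
      set pm : ℂ[X] := (p m).map Complex.ofRealHom with hpm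
      have hne : (p m).leadingCoeff ≠ 0 := (hp.lead m).ne'
      set c : ℂ := Q.coeff m / ((p m).leadingCoeff : ℂ) with hc
      have hnd : pm.natDegree = m := by
        rw [hpm, natDegree_map_eq_of_injective Complex.ofRealHom.injective, hp.deg m]
      have hcm : pm.coeff m = ((p m).leadingCoeff : ℂ) := by
        rw [hpm, coeff_map, leadingCoeff, hp.deg m]; rfl
      have hR : (Q - C c * pm).degree < (m : WithBot ℕ) := by
        rw [degree_lt_iff_coeff_zero]
        intro j hj
        rw [coeff_sub, coeff_C_mul]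
        rcases hj.eq_or_lt with h | h
        · subst h
          rw [hcm, hc, div_mul_cancel₀ _ (by exact_mod_cast hne), sub_self]
        · have h1 : Q.coeff j = 0 := by
            rw [degree_lt_iff_coeff_zero] at hQ
            exact hQ j (by omega)
          have h2 : pm.coeff j = 0 := coeff_eq_zero_of_natDegree_lt (by rw [hnd]; exact h)
          rw [h1, h2]; simp
      have h1 := ih (by omega) _ hR
      have h2 : ∫ t, (KK p n x t : ℂ) * pm.eval (t : ℂ) ∂μ = pm.eval (x : ℂ) := by
        have e1 : ∀ t : ℝ, pm.eval (t : ℂ) = (((p m).eval t : ℝ) : ℂ) := by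
          intro t
          rw [hpm, eval_map]
          have := (p m).eval₂_at_apply Complex.ofRealHom t
          simpa using this
        have e2 : (fun t : ℝ => (KK p n x t : ℂ) * pm.eval (t : ℂ))
            = fun t => ((KK p n x t * (p m).eval t : ℝ) : ℂ) := by
          funext t
          rw [e1 t]; push_cast; ring
        rw [e2, integral_complex_ofReal, opa_base hμ hp n m (by omega) x, e1 x]
      have hsplit : ∀ t : ℝ, (KK p n x t : ℂ) * Q.eval (t : ℂ)
          = (KK p n x t : ℂ) * (Q - C c * pm).eval (t : ℂ)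
            + c * ((KK p n x t : ℂ) * pm.eval (t : ℂ)) := by
        intro t
        simp only [eval_sub, eval_mul, eval_C]
        ring
      have hcont : ∀ R : ℂ[X], Continuous fun t : ℝ => (KK p n x t : ℂ) * R.eval (t : ℂ) := fun R =>
        hK.mul (R.continuous.comp Complex.continuous_ofReal)
      simp_rw [hsplit]
      rw [integral_add (opa_int hμ (hcont _)) ((opa_int hμ (hcont pm)).const_mul c),
        integral_const_mul, h1, h2]
      simp only [eval_sub, eval_mul, eval_C]
      ring
  apply key n le_rfl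
  by_cases h0 : P = 0
  · rw [h0, degree_zero]; exact WithBot.bot_lt_coe n
  · rw [degree_eq_natDegree h0]
    exact_mod_cast hP

theorem opa_sq {μ : Measure ℝ} (hμ : QM μ) {p : ℕ → ℝ[X]} {a b : ℕ → ℝ} (hp : IsJacobi μ p a b)
    (n : ℕ) (x : ℝ) : ∫ t, KK p n x t ^ 2 ∂μ = KK p n x x := by
  have e : (fun t => KK p n x t ^ 2)
      = fun t => ∑ k ∈ Finset.range n, (p k).eval x * (KK p n x t * (p k).eval t) := by
    funext t
    have h1 : KK p n x t = ∑ k ∈ Finset.range n, (p k).eval x * (p k).eval t := rfl
    calc KK p n x t ^ 2 = KK p n x t * ∑ k ∈ Finset.range n, (p k).eval x * (p k).eval t := by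
          rw [← h1]; ring
      _ = _ := by
          rw [Finset.mul_sum]
          exact Finset.sum_congr rfl fun k _ => by ring
  have hK : Continuous fun t : ℝ => KK p n x t := (opa_cont p n).comp (Continuous.prodMk_right x)
  rw [e, integral_finsetSum]
  · unfold KK
    apply Finset.sum_congr rfl
    intro k hk
    rw [integral_const_mul]
    congr 1
    exact opa_base hμ hp n k (Finset.mem_range.mp hk) x
  · intro k _
    exact opa_int hμ (continuous_const.mul (hK.mul (p k).continuous))

theorem opa_abs {μ : Measure ℝ} (hμ : QM μ) {p : ℕ → ℝ[X]} {a b : ℕ → ℝ} (hp : IsJacobi μ p a b)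
    (n : ℕ) (x : ℝ) : ∫ t, |KK p n x t| ∂μ ≤ √(KK p n x x) := by
  have := hμ.prob
  have hK : Continuous fun t : ℝ => KK p n x t := (opa_cont p n).comp (Continuous.prodMk_right x)
  apply Real.le_sqrt_of_sq_le
  rw [← opa_sq hμ hp n x]
  set c := ∫ t, |KK p n x t| ∂μ with hc
  have h1 : 0 ≤ ∫ t, (|KK p n x t| - c) ^ 2 ∂μ := integral_nonneg fun t => sq_nonneg _
  have h2 : (fun t => (|KK p n x t| - c) ^ 2)
      = fun t => (KK p n x t ^ 2 - (2 * c) * |KK p n x t|) + c ^ 2 := by
    funext t
    rw [sub_sq, sq_abs]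
    ring
  have i1 : Integrable (fun t => KK p n x t ^ 2) μ := opa_int hμ (hK.pow 2)
  have i2 : Integrable (fun t => (2 * c) * |KK p n x t|) μ := (opa_int hμ hK.abs).const_mul _
  have i3 : Integrable (fun t => KK p n x t ^ 2 - (2 * c) * |KK p n x t|) μ := i1.sub i2
  rw [h2, integral_add i3 (integrable_const _), integral_sub i1 i2,
    integral_const_mul, ← hc] at h1
  simp at h1
  nlinarith [h1]

theorem opa_diag {μ : Measure ℝ} (hμ : QM μ) {p : ℕ → ℝ[X]} {a b : ℕ → ℝ} (hp : IsJacobi μ p a b)
    (n : ℕ) : ∫ x, KK p n x x ∂μ = n := by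
  unfold KK
  rw [integral_finsetSum]
  · rw [Finset.sum_congr rfl (fun k _ => hp.orth k k)]
    simp
  · intro k _
    exact opa_int hμ ((p k).continuous.mul (p k).continuous)

theorem opa_cd {μ : Measure ℝ} {p : ℕ → ℝ[X]} {a b : ℕ → ℝ} (hp : IsJacobi μ p a b)
    (n : ℕ) (x y : ℝ) : (x - y) * KK p (n + 1) x y =
      a (n + 1) * ((p (n + 1)).eval x * (p n).eval y - (p n).eval x * (p (n + 1)).eval y) := by
  induction n with
  | zero =>
    have h : ∀ z, z * (p 0).eval z = a 1 * (p 1).eval z + b 0 * (p 0).eval z := by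
      intro z
      have := congrArg (fun q => Polynomial.eval z q) hp.rec0
      simpa using this
    have hK : KK p (0 + 1) x y = (p 0).eval x * (p 0).eval y := by simp [KK]
    rw [hK]
    linear_combination (p 0).eval y * h x - (p 0).eval x * h y
  | succ n ih =>
    have h : ∀ z, z * (p (n + 1)).eval z = a (n + 2) * (p (n + 2)).eval z
        + b (n + 1) * (p (n + 1)).eval z + a (n + 1) * (p n).eval z := by
      intro z
      have := congrArg (fun q => Polynomial.eval z q) (hp.recs n)
      simpa using this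
    have hK : KK p (n + 1 + 1) x y = KK p (n + 1) x y + (p (n + 1)).eval x * (p (n + 1)).eval y := by
      unfold KK
      rw [Finset.sum_range_succ]
    rw [hK, mul_add, ih]
    linear_combination (p (n + 1)).eval y * h x - (p (n + 1)).eval x * h y

theorem opa_a {μ : Measure ℝ} (hμ : QM μ) {p : ℕ → ℝ[X]} {a b : ℕ → ℝ} (hp : IsJacobi μ p a b)
    (n : ℕ) : a (n + 1) = ∫ x, x * ((p (n + 1)).eval x * (p n).eval x) ∂μ := by
  have hi : ∀ i j, Integrable (fun x => (p i).eval x * (p j).eval x) μ := fun i j =>
    opa_int hμ ((p i).continuous.mul (p j).continuous)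
  cases n with
  | zero =>
    have h : ∀ z, z * ((p (0 + 1)).eval z * (p 0).eval z)
        = a 1 * ((p 1).eval z * (p 1).eval z) + b 0 * ((p 0).eval z * (p 1).eval z) := by
      intro z
      have := congrArg (fun q => Polynomial.eval z q) hp.rec0
      simp only [eval_mul, eval_X, eval_add, eval_C] at this
      simp only [zero_add]
      linear_combination (p 1).eval z * this
    simp_rw [h]
    rw [integral_add ((hi 1 1).const_mul _) ((hi 0 1).const_mul _), integral_const_mul,
      integral_const_mul, hp.orth 1 1, hp.orth 0 1]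
    simp
  | succ m =>
    have h : ∀ z, z * ((p (m + 1 + 1)).eval z * (p (m + 1)).eval z)
        = a (m + 2) * ((p (m + 2)).eval z * (p (m + 2)).eval z)
          + (b (m + 1) * ((p (m + 1)).eval z * (p (m + 2)).eval z)
          + a (m + 1) * ((p m).eval z * (p (m + 2)).eval z)) := by
      intro z
      have := congrArg (fun q => Polynomial.eval z q) (hp.recs m)
      simp only [eval_mul, eval_X, eval_add, eval_C] at this
      linear_combination (p (m + 2)).eval z * this
    simp_rw [h]
    have i1 : Integrable (fun z => b (m + 1) * ((p (m + 1)).eval z * (p (m + 2)).eval z)) μ :=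
      (hi _ _).const_mul _
    have i2 : Integrable (fun z => a (m + 1) * ((p m).eval z * (p (m + 2)).eval z)) μ :=
      (hi _ _).const_mul _
    have i3 : Integrable (fun z => b (m + 1) * ((p (m + 1)).eval z * (p (m + 2)).eval z)
        + a (m + 1) * ((p m).eval z * (p (m + 2)).eval z)) μ := i1.add i2
    rw [integral_add ((hi _ _).const_mul _) i3, integral_add i1 i2, integral_const_mul,
      integral_const_mul, integral_const_mul, hp.orth, hp.orth, hp.orth]
    simp

theorem opa_le {μ : Measure ℝ} (hμ : QM μ) {p : ℕ → ℝ[X]} {a b : ℕ → ℝ} (hp : IsJacobi μ p a b)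
    (n : ℕ) : a (n + 1) ≤ 1 / 2 := by
  have hi : ∀ i j, Integrable (fun x => (p i).eval x * (p j).eval x) μ := fun i j =>
    opa_int hμ ((p i).continuous.mul (p j).continuous)
  have hc : ∀ i, Continuous fun x => (p i).eval x := fun i => (p i).continuous
  have h1 : a (n + 1) = ∫ x, (x - 1 / 2) * ((p (n + 1)).eval x * (p n).eval x) ∂μ := by
    have h2 : ∀ x, (x - 1 / 2) * ((p (n + 1)).eval x * (p n).eval x)
        = x * ((p (n + 1)).eval x * (p n).eval x) - (1 / 2) * ((p (n + 1)).eval x * (p n).eval x) := by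
      intro x; ring
    simp_rw [h2]
    have i1 : Integrable (fun x => x * ((p (n + 1)).eval x * (p n).eval x)) μ :=
      opa_int hμ (continuous_id.mul ((hc _).mul (hc _)))
    rw [integral_sub i1 ((hi _ _).const_mul _),
      integral_const_mul, hp.orth, ← opa_a hμ hp n]
    simp
  have h3 : ∫ x, (x - 1 / 2) * ((p (n + 1)).eval x * (p n).eval x) ∂μ
      ≤ ∫ x, (1 / 4) * ((p (n + 1)).eval x * (p (n + 1)).eval x + (p n).eval x * (p n).eval x) ∂μ := by
    apply integral_mono_ae
    · exact opa_int hμ ((continuous_id.sub continuous_const).mul ((hc _).mul (hc _)))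
    · exact ((hi _ _).add (hi _ _)).const_mul _
    · filter_upwards [opa_ae hμ] with x hx
      have hx1 : |x - 1 / 2| ≤ 1 / 2 := by
        rw [abs_le]; constructor <;> linarith [hx.1, hx.2]
      set u := (p (n + 1)).eval x
      set v := (p n).eval x
      have h4 : (x - 1 / 2) * (u * v) ≤ |x - 1 / 2| * |u * v| := by
        rw [← abs_mul]; exact le_abs_self _
      have h5 : |x - 1 / 2| * |u * v| ≤ (1 / 2) * |u * v| :=
        mul_le_mul_of_nonneg_right hx1 (abs_nonneg _)
      have h6 : |u * v| ≤ (u * u + v * v) / 2 := by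
        rw [abs_le]
        constructor <;> nlinarith [sq_nonneg (u + v), sq_nonneg (u - v)]
      change (x - 1 / 2) * (u * v) ≤ (1 / 4) * (u * u + v * v)
      linarith
  rw [integral_const_mul, integral_add (hi _ _) (hi _ _), hp.orth, hp.orth] at h3
  rw [h1]
  simp at h3 ⊢
  linarith

end Pool.H52.MQ
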