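import Pool.Agent.H52.MQ.SBA
import Pool.Agent.H52.MQ.OPA
import Pool.Agent.H52.MQ.UCA

/-! Module EXD (project MP_935a4b_QM): excess density exq and regularity of the kernels.  Uses SBA, OPA, UCA.
exq is e(y) of the paper with a free integer r.  zz y = exp(i arccos(2y-1)) is continuous, of modulus 1 (never 0, so zpow is continuous), vp = zz^2.
* exd_khat_diag: zz y ^(-(m-1)) * zz y^(m-1) = 1 and Kc(w,w) = sum |Ph_k(w)|^2/nu_k.   exd_khat_norm: modulus of zz is 1.
* exd_khat_cont, exd_kc_cont: compositions of continuous functions (nu constants).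
* exd_kap_cont: gam w = AA/DD is continuous on [0,1] (DD >= 1), KK is a polynomial in both variables.
* exd_cont: parametric integral over the compact set with finite measure of a function continuous on Icc 0 1 x Icc 0 1 (continuousOn of the integral:
  continuousOn_integral_of_compact_support-type results or continuous_parametric_integral; or dominated convergence, the integrand is bounded on the compact square).
* exd_intble: on the square Ioo c d x Icc 0 1 everything is bounded and continuous; used later for Fubini.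
* exd_sup: |Kc(w',w)| <= sum |ph_k(w')||ph_k(w)| <= m exp(2 sqrt(mE)+E), E = En(range m), for |w|=|w'|=1 (uca_sup for k < m, En monotone in the range). -/

open MeasureTheory Set Polynomial
open scoped ENNReal ComplexConjugate

namespace Pool.H52.MQ

noncomputable section

/-- excess density e(y) with a free localiser exponent r. -/
def exq (μ : Measure ℝ) (p : ℕ → ℝ[X]) (α : ℕ → ℂ) (n m r : ℕ) (w : List Bool) (y : ℝ) : ℝ :=
  ∫ y' in Icc 0 1, ‖(kap p n w y y' : ℂ) - Khat α m y' y * (Qf r y y' : ℂ)‖ ^ 2 ∂μ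

end

theorem exd_zz_cont : Continuous zz := by
  unfold zz
  exact Complex.continuous_exp.comp ((Complex.continuous_ofReal.comp
    (Real.continuous_arccos.comp (by fun_prop))).mul continuous_const)

theorem exd_zz_norm (y : ℝ) : ‖zz y‖ = 1 := by
  unfold zz
  exact Complex.norm_exp_ofReal_mul_I _

theorem exd_vp_cont : Continuous vp := by
  unfold vp
  exact exd_zz_cont.pow 2

theorem exd_vp_norm (y : ℝ) : ‖vp y‖ = 1 := by
  unfold vp
  rw [norm_pow, exd_zz_norm, one_pow]

theorem exd_zz_ne (y : ℝ) : zz y ≠ 0 := by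
  intro h
  have h1 := exd_zz_norm y
  rw [h, norm_zero] at h1
  exact zero_ne_one h1

theorem exd_khat_diag (α : ℕ → ℂ) (m : ℕ) (y : ℝ) : Khat α m y y = (kc α m y : ℂ) := by
  unfold Khat Kc kc
  rw [← zpow_add₀ (exd_zz_ne y), neg_add_cancel, zpow_zero, one_mul, Complex.ofReal_sum]
  refine Finset.sum_congr rfl fun k _ => ?_
  rw [Complex.mul_conj, Complex.normSq_eq_norm_sq]
  push_cast
  rfl

theorem exd_khat_norm (α : ℕ → ℂ) (m : ℕ) (y' y : ℝ) :
    ‖Khat α m y' y‖ = ‖Kc α m (vp y') (vp y)‖ := by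
  unfold Khat
  rw [norm_mul, norm_mul, norm_zpow, norm_zpow, exd_zz_norm, exd_zz_norm, one_zpow, one_zpow,
    one_mul, one_mul]

theorem exd_khat_cont (α : ℕ → ℂ) (m : ℕ) : Continuous (fun z : ℝ × ℝ => Khat α m z.1 z.2) := by
  have h1 : Continuous (fun z : ℝ × ℝ => zz z.1) := exd_zz_cont.comp continuous_fst
  have h2 : Continuous (fun z : ℝ × ℝ => zz z.2) := exd_zz_cont.comp continuous_snd
  have h3 : Continuous (fun z : ℝ × ℝ => Kc α m (vp z.1) (vp z.2)) := by
    unfold Kc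
    refine continuous_finsetSum _ fun k _ => ?_
    refine Continuous.div_const ?_ _
    exact ((Ph α k).continuous.comp (exd_vp_cont.comp continuous_fst)).mul
      (Complex.continuous_conj.comp ((Ph α k).continuous.comp (exd_vp_cont.comp continuous_snd)))
  unfold Khat
  exact ((h1.zpow₀ _ fun z => Or.inl (exd_zz_ne z.1)).mul
    (h2.zpow₀ _ fun z => Or.inl (exd_zz_ne z.2))).mul h3

theorem exd_kc_cont (α : ℕ → ℂ) (m : ℕ) : Continuous (kc α m) := by
  unfold kc
  refine continuous_finsetSum _ fun k _ => ?_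
  refine Continuous.div_const ?_ _
  exact (continuous_norm.comp ((Ph α k).continuous.comp exd_vp_cont)).pow 2

theorem exd_kc_nonneg {α : ℕ → ℂ} (hα : ∀ n, ‖α n‖ < 1) (m : ℕ) (y : ℝ) : 0 ≤ kc α m y := by
  unfold kc
  exact Finset.sum_nonneg fun k _ => div_nonneg (sq_nonneg _) (nu_pos hα k).le

theorem exd_kap_cont (p : ℕ → ℝ[X]) (n : ℕ) (w : List Bool) :
    ContinuousOn (fun z : ℝ × ℝ => kap p n w z.1 z.2) (Icc 0 1 ×ˢ Icc 0 1) := by
  unfold kap
  have h1 : ContinuousOn (fun z : ℝ × ℝ => (gam w z.1, gam w z.2)) (Icc 0 1 ×ˢ Icc 0 1) := by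
    refine ContinuousOn.prodMk ?_ ?_
    · exact (sba_cont w).comp continuousOn_fst fun z hz => hz.1
    · exact (sba_cont w).comp continuousOn_snd fun z hz => hz.2
  exact continuousOn_const.mul ((opa_cont p n).comp_continuousOn h1)

theorem exd_kap_symm (p : ℕ → ℝ[X]) (n : ℕ) (w : List Bool) (y y' : ℝ) :
    kap p n w y y' = kap p n w y' y := by
  unfold kap
  rw [opa_symm]

theorem exd_kap_nonneg (p : ℕ → ℝ[X]) (n : ℕ) (w : List Bool) (y : ℝ) : 0 ≤ kap p n w y y := by
  unfold kap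
  exact mul_nonneg (by positivity) (opa_nonneg p n _)

theorem exd_nonneg (μ : Measure ℝ) (p : ℕ → ℝ[X]) (α : ℕ → ℂ) (n m r : ℕ) (w : List Bool) (y : ℝ) :
    0 ≤ exq μ p α n m r w y := by
  unfold exq
  exact integral_nonneg fun y' => sq_nonneg _

/-- projection to the unit interval -/
private def EXD_cl (y : ℝ) : ℝ := max 0 (min y 1)

private theorem EXD_cl_cont : Continuous EXD_cl := by
  unfold EXD_cl
  fun_prop

private theorem EXD_cl_mem (y : ℝ) : EXD_cl y ∈ Icc (0:ℝ) 1 :=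
  ⟨le_max_left _ _, max_le zero_le_one (min_le_right _ _)⟩

private theorem EXD_cl_eq {y : ℝ} (hy : y ∈ Icc (0:ℝ) 1) : EXD_cl y = y := by
  unfold EXD_cl
  rw [min_eq_left hy.2, max_eq_right hy.1]

private theorem EXD_param (μ : Measure ℝ) [IsProbabilityMeasure μ] (F : ℝ × ℝ → ℝ)
    (hF : ContinuousOn F (Icc 0 1 ×ˢ Icc 0 1)) :
    ContinuousOn (fun y => ∫ y' in Icc (0:ℝ) 1, F (y, y') ∂μ) (Icc 0 1) := by
  have hG : Continuous (Function.uncurry fun (y y' : ℝ) => F (EXD_cl y, EXD_cl y')) := by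
    have h1 : Continuous (fun z : ℝ × ℝ => (EXD_cl z.1, EXD_cl z.2)) :=
      (EXD_cl_cont.comp continuous_fst).prodMk (EXD_cl_cont.comp continuous_snd)
    exact hF.comp_continuous h1 fun z => ⟨EXD_cl_mem _, EXD_cl_mem _⟩
  have hH := continuous_parametric_integral_of_continuous (μ := μ) hG
    (isCompact_Icc (a := (0:ℝ)) (b := 1))
  refine hH.continuousOn.congr fun y hy => ?_
  refine setIntegral_congr_fun measurableSet_Icc fun y' hy' => ?_
  simp only [EXD_cl_eq hy, EXD_cl_eq hy']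

theorem exd_cont {μ : Measure ℝ} (hμ : QM μ) (p : ℕ → ℝ[X]) (α : ℕ → ℂ) (n m r : ℕ)
    (w : List Bool) : ContinuousOn (exq μ p α n m r w) (Icc 0 1) := by
  have := hμ.prob
  have hF : ContinuousOn (fun z : ℝ × ℝ => ‖(kap p n w z.1 z.2 : ℂ) - Khat α m z.2 z.1 *
      (Qf r z.1 z.2 : ℂ)‖ ^ 2) (Icc 0 1 ×ˢ Icc 0 1) := by
    have h1 : ContinuousOn (fun z : ℝ × ℝ => (kap p n w z.1 z.2 : ℂ)) (Icc 0 1 ×ˢ Icc 0 1) :=
      Complex.continuous_ofReal.comp_continuousOn (exd_kap_cont p n w)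
    have h2 : Continuous (fun z : ℝ × ℝ => Khat α m z.2 z.1) :=
      (exd_khat_cont α m).comp (g := fun z : ℝ × ℝ => Khat α m z.1 z.2)
        (f := fun z : ℝ × ℝ => (z.2, z.1)) (continuous_snd.prodMk continuous_fst)
    have h3 : Continuous (fun z : ℝ × ℝ => (Qf r z.1 z.2 : ℂ)) := by
      have h4 : Continuous (fun z : ℝ × ℝ => Qf r z.1 z.2) := by
        unfold Qf
        fun_prop
      exact Complex.continuous_ofReal.comp h4
    exact (continuous_norm.comp_continuousOn (h1.sub (h2.mul h3).continuousOn)).pow 2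
  exact EXD_param μ (fun z : ℝ × ℝ => ‖(kap p n w z.1 z.2 : ℂ) - Khat α m z.2 z.1 *
      (Qf r z.1 z.2 : ℂ)‖ ^ 2) hF

theorem exd_intble {μ : Measure ℝ} (hμ : QM μ) {F : ℝ × ℝ → ℝ}
    (hF : ContinuousOn F (Icc 0 1 ×ˢ Icc 0 1)) {S S' : Set ℝ} (hS : MeasurableSet S)
    (hS' : MeasurableSet S') (h : S ⊆ Icc 0 1) (h' : S' ⊆ Icc 0 1) :
    Integrable F ((μ.restrict S).prod (μ.restrict S')) := by
  have := hμ.prob
  rw [Measure.prod_restrict]
  have h1 : IntegrableOn F (Icc 0 1 ×ˢ Icc 0 1) (μ.prod μ) :=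
    hF.integrableOn_compact (isCompact_Icc.prod isCompact_Icc)
  exact h1.mono_set (prod_mono h h')

theorem exd_sup {α : ℕ → ℂ} (hα : ∀ n, ‖α n‖ < 1) (m : ℕ) {w w' : ℂ} (hw : ‖w‖ = 1) (hw' : ‖w'‖ = 1) :
    ‖Kc α m w' w‖ ≤ m * Real.exp (2 * √(m * En α (Finset.range m)) + En α (Finset.range m)) := by
  set B : ℝ := Real.exp (2 * √(m * En α (Finset.range m)) + En α (Finset.range m)) with hB
  have hk : ∀ k ∈ Finset.range m, ∀ v : ℂ, ‖v‖ = 1 → ‖(Ph α k).eval v‖ ^ 2 / nu α k ≤ B := by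
    intro k hk v hv
    refine (uca_sup hα k hv).trans ?_
    rw [hB]
    have hkm : k ≤ m := (Finset.mem_range.1 hk).le
    have hE : En α (Finset.range k) ≤ En α (Finset.range m) := by
      unfold En
      refine Finset.sum_le_sum_of_subset_of_nonneg
        (Finset.range_subset_range.2 hkm) fun i _ _ => ?_
      exact (sq_nonneg _).trans (UCA_term_nonneg hα i)
    have hE0 : 0 ≤ En α (Finset.range k) := en_nonneg hα _
    have hkm' : (k : ℝ) ≤ m := by exact_mod_cast hkm
    have h1 : (k : ℝ) * En α (Finset.range k) ≤ m * En α (Finset.range m) :=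
      mul_le_mul hkm' hE hE0 (Nat.cast_nonneg m)
    have h2 := Real.sqrt_le_sqrt h1
    exact Real.exp_le_exp.2 (by linarith)
  have hterm : ∀ k ∈ Finset.range m,
      ‖(Ph α k).eval w' * conj ((Ph α k).eval w) / (nu α k : ℂ)‖ ≤ B := by
    intro k hkm
    have hν := nu_pos hα k
    have e1 : ‖(Ph α k).eval w' * conj ((Ph α k).eval w) / (nu α k : ℂ)‖ =
        ‖(Ph α k).eval w'‖ * ‖(Ph α k).eval w‖ / nu α k := by
      rw [norm_div, norm_mul, RCLike.norm_conj, Complex.norm_real, Real.norm_of_nonneg hν.le]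
    rw [e1]
    have h1 := hk k hkm w hw
    have h2 := hk k hkm w' hw'
    have h3 : ‖(Ph α k).eval w'‖ * ‖(Ph α k).eval w‖ / nu α k ≤
        (‖(Ph α k).eval w'‖ ^ 2 / nu α k + ‖(Ph α k).eval w‖ ^ 2 / nu α k) / 2 := by
      rw [← add_div, div_div, mul_comm (nu α k) 2, ← div_div]
      refine div_le_div_of_nonneg_right ?_ hν.le
      nlinarith [sq_nonneg (‖(Ph α k).eval w'‖ - ‖(Ph α k).eval w‖)]
    linarith
  unfold Kc
  refine (norm_sum_le _ _).trans ((Finset.sum_le_sum hterm).trans ?_)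
  rw [Finset.sum_const, Finset.card_range, nsmul_eq_mul]

end Pool.H52.MQ
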