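import Pool.Agent.H52.MQ.ARC
import Pool.Agent.H52.MQ.MSG

/-! Module LCA (project MP_935a4b_QM): Christoffel-Darboux on the circle and the lower bound of the local determinant.  Uses ARC (arc_lip_upper), EXD, UCA.
* lca_cd: (1 - w conj w') Kc m w w' = (Pt_m(w) conj Pt_m(w') - Ph_m(w) conj Ph_m(w'))/nu_m for ALL w, w' (no modulus condition): induction on m: with a = alpha_m, the recursion gives
  Pt_{m+1}(w)conj Pt_{m+1}(w') - Ph_{m+1}(w)conj Ph_{m+1}(w') = (1-|a|^2)(Pt_m(w)conj Pt_m(w') - w conj w' Ph_m(w) conj Ph_m(w')), nu_{m+1} = (1-|a|^2) nu_m, and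
  Pt conj Pt' - w conj w' Ph conj Ph' = (Pt conj Pt' - Ph conj Ph') + (1 - w conj w') Ph conj Ph'.  (|a| < 1 so 1-|a|^2 /= 0.)
* lca_lower: for |w|=|w'|=1: |1-w conj w'| = |w-w'|, and |w-w'| s0 <= 4|y-y'| (arc_lip_upper), so (y-y')^2 |Kc|^2 >= (s0^2/16)|Pt conj Pt' - Ph conj Ph'|^2/nu^2.
  |Pt conj Pt' - Ph conj Ph'|^2 = |Pt|^2|Pt'|^2+|Ph|^2|Ph'|^2 - 2 Re(Pt conj Ph * conj(Pt' conj Ph')) with |Pt| = |Ph| (uca_abs): = 2|Ph|^2|Ph'|^2 - 2 Re(conj(b) b'), b = Ph conj Pt.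
  Integrate against g(w)g(w')/2 over Y x Y: (s0^2/16)(A^2 - |B|^2).  All integrands continuous and bounded; iterated integrals as written (inner variable y').  Here Kc m (vp y') (vp y): first slot vp y'. -/

open MeasureTheory Set Polynomial
open scoped ENNReal ComplexConjugate

namespace Pool.H52.MQ

theorem lca_cd {α : ℕ → ℂ} (hα : ∀ n, ‖α n‖ < 1) (m : ℕ) (w w' : ℂ) :
    (1 - w * conj w') * Kc α m w w' =
      ((Pt α m).eval w * conj ((Pt α m).eval w') - (Ph α m).eval w * conj ((Ph α m).eval w')) /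
        (nu α m : ℂ) := by
  induction m with
  | zero => simp [Kc, UCA_ph_zero, UCA_pt_zero]
  | succ m ih =>
    have hk : Kc α (m + 1) w w' = Kc α m w w' +
        (Ph α m).eval w * conj ((Ph α m).eval w') / (nu α m : ℂ) := by
      unfold Kc
      rw [Finset.sum_range_succ]
    have hnu : (nu α (m + 1) : ℂ) = (nu α m : ℂ) * (1 - α m * conj (α m)) := by
      have h1 : nu α (m + 1) = nu α m * (1 - ‖α m‖ ^ 2) := by
        unfold nu
        rw [Finset.prod_range_succ]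
      rw [h1, Complex.mul_conj, Complex.normSq_eq_norm_sq]
      push_cast
      ring
    have n1 : (nu α m : ℂ) ≠ 0 := by
      exact_mod_cast (nu_pos hα m).ne'
    have n2 : (nu α (m + 1) : ℂ) ≠ 0 := by
      exact_mod_cast (nu_pos hα (m + 1)).ne'
    have n3 : (1 - α m * conj (α m)) ≠ 0 := by
      intro h
      rw [hnu, h, mul_zero] at n2
      exact n2 rfl
    rw [hk, mul_add, ih, hnu, UCA_pt_eval, UCA_pt_eval, UCA_ph_eval, UCA_ph_eval]
    simp only [map_sub, map_mul, Complex.conj_conj]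
    rw [← mul_div_assoc, ← add_div, div_eq_div_iff n1 (mul_ne_zero n1 n3)]
    ring

private theorem LCA_pt {α : ℕ → ℂ} (hα : ∀ n, ‖α n‖ < 1) (m : ℕ)
    {c d s0 : ℝ} (hc : 1 / 3 ≤ c) (hd : d ≤ 2 / 3) (h0 : 0 ≤ s0)
    (h1 : s0 ≤ 2 * √(c * (1 - c))) (h2 : s0 ≤ 2 * √(d * (1 - d))) {y y' : ℝ}
    (hy : y ∈ Icc c d) (hy' : y' ∈ Icc c d) :
    s0 ^ 2 / 8 * ((‖(Ph α m).eval (vp y)‖ ^ 2 / nu α m) * (‖(Ph α m).eval (vp y')‖ ^ 2 / nu α m) -
      (((Ph α m).eval (vp y) * conj ((Pt α m).eval (vp y)) / (nu α m : ℂ)) *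
        conj ((Ph α m).eval (vp y') * conj ((Pt α m).eval (vp y')) / (nu α m : ℂ))).re) ≤
      (y - y') ^ 2 * ‖Kc α m (vp y') (vp y)‖ ^ 2 := by
  have hlip := arc_lip_upper (show 0 < c by linarith) (show d < 1 by linarith) h0 h1 h2 hy hy'
  have hw := exd_vp_norm y
  have hw' := exd_vp_norm y'
  obtain ⟨w, hwe⟩ : ∃ w, w = vp y := ⟨_, rfl⟩
  obtain ⟨w', hwe'⟩ : ∃ w', w' = vp y' := ⟨_, rfl⟩
  rw [← hwe] at hw
  rw [← hwe'] at hw'
  rw [← hwe, ← hwe'] at hlip ⊢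
  have hcd := lca_cd hα m w' w
  have a1 := uca_abs α m hw
  have a2 := uca_abs α m hw'
  obtain ⟨p, hp⟩ : ∃ p, p = (Ph α m).eval w := ⟨_, rfl⟩
  obtain ⟨p', hp'⟩ : ∃ p', p' = (Ph α m).eval w' := ⟨_, rfl⟩
  obtain ⟨q, hq⟩ : ∃ q, q = (Pt α m).eval w := ⟨_, rfl⟩
  obtain ⟨q', hq'⟩ : ∃ q', q' = (Pt α m).eval w' := ⟨_, rfl⟩
  rw [← hp, ← hp', ← hq, ← hq'] at hcd ⊢
  rw [← hp, ← hq] at a1
  rw [← hp', ← hq'] at a2
  have hn := nu_pos hα m
  obtain ⟨N, hN⟩ : ∃ N, N = nu α m := ⟨_, rfl⟩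
  rw [← hN] at hcd hn ⊢
  have hNc : (N : ℂ) ≠ 0 := by exact_mod_cast hn.ne'
  -- the modulus of `1 - w' conj w`
  have e1 : ‖1 - w' * conj w‖ = ‖w - w'‖ := by
    have h3 := UCA_mul_conj hw
    have h4 : 1 - w' * conj w = (w - w') * conj w := by rw [sub_mul, h3]
    rw [h4, norm_mul, Complex.norm_conj, hw, mul_one]
  -- the square of the right side
  have e2 : ‖(q' * conj q - p' * conj p) / (N : ℂ)‖ ^ 2 =
      2 * ((‖p‖ ^ 2 / N) * (‖p'‖ ^ 2 / N)) -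
        2 * ((p * conj q / (N : ℂ)) * conj (p' * conj q' / (N : ℂ))).re := by
    have h3 : (q' * conj q - p' * conj p) / (N : ℂ) =
        q' * conj q / (N : ℂ) - p' * conj p / (N : ℂ) := sub_div _ _ _
    rw [h3, ← Complex.normSq_eq_norm_sq, Complex.normSq_sub, Complex.normSq_eq_norm_sq,
      Complex.normSq_eq_norm_sq, norm_div, norm_div, norm_mul, norm_mul, Complex.norm_conj,
      Complex.norm_conj, a1, a2, Complex.norm_real, Real.norm_eq_abs, abs_of_pos hn]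
    have h4 : q' * conj q / (N : ℂ) * conj (p' * conj p / (N : ℂ)) =
        (p * conj q / (N : ℂ)) * conj (p' * conj q' / (N : ℂ)) := by
      simp only [map_mul, map_div₀, Complex.conj_conj, Complex.conj_ofReal]
      ring
    rw [h4]
    ring
  have e3 : ‖w - w'‖ ^ 2 * ‖Kc α m w' w‖ ^ 2 =
      2 * ((‖p‖ ^ 2 / N) * (‖p'‖ ^ 2 / N)) -
        2 * ((p * conj q / (N : ℂ)) * conj (p' * conj q' / (N : ℂ))).re := by
    rw [← e2, ← hcd, norm_mul, e1, mul_pow]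
  have e4 : (s0 * ‖w - w'‖) ^ 2 ≤ (4 * |y - y'|) ^ 2 :=
    pow_le_pow_left₀ (mul_nonneg h0 (norm_nonneg _)) hlip 2
  rw [mul_pow, mul_pow, sq_abs] at e4
  have e5 := mul_le_mul_of_nonneg_right e4 (sq_nonneg ‖Kc α m w' w‖)
  have e6 : s0 ^ 2 * ‖w - w'‖ ^ 2 * ‖Kc α m w' w‖ ^ 2 = s0 ^ 2 *
      (‖w - w'‖ ^ 2 * ‖Kc α m w' w‖ ^ 2) := by ring
  rw [e6, e3] at e5
  linarith

theorem lca_lower {μ : Measure ℝ} (hμ : QM μ) {α : ℕ → ℂ} (hα : ∀ n, ‖α n‖ < 1) (m : ℕ)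
    {c d s0 : ℝ} (hc : 1 / 3 ≤ c) (hcd : c < d) (hd : d ≤ 2 / 3) (h0 : 0 ≤ s0)
    (h1 : s0 ≤ 2 * √(c * (1 - c))) (h2 : s0 ≤ 2 * √(d * (1 - d)))
    (g : ℂ → ℝ) (hg : Continuous g) (hg0 : ∀ w, 0 ≤ g w) :
    s0 ^ 2 / 16 * ((∫ y in Ioo c d, g (vp y) * (‖(Ph α m).eval (vp y)‖ ^ 2 / nu α m) ∂μ) ^ 2 -
      ‖∫ y in Ioo c d, (g (vp y) : ℂ) * ((Ph α m).eval (vp y) * conj ((Pt α m).eval (vp y)) /
        (nu α m : ℂ)) ∂μ‖ ^ 2) ≤
      1 / 2 * ∫ y in Ioo c d, ∫ y' in Ioo c d, g (vp y) * g (vp y') *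
        ((y - y') ^ 2 * ‖Kc α m (vp y') (vp y)‖ ^ 2) ∂μ ∂μ := by
  have hprob := hμ.prob
  have hvc := exd_vp_cont
  have hsub : Ioo c d ⊆ Icc (0 : ℝ) 1 := fun x hx => ⟨by linarith [hx.1], by linarith [hx.2]⟩
  obtain ⟨ν, hν⟩ : ∃ ν, ν = μ.restrict (Ioo c d) := ⟨_, rfl⟩
  have hfin : IsFiniteMeasure ν := by rw [hν]; infer_instance
  obtain ⟨A, hA⟩ : ∃ A : ℝ → ℝ, A = fun y => g (vp y) * (‖(Ph α m).eval (vp y)‖ ^ 2 / nu α m) :=
    ⟨_, rfl⟩
  obtain ⟨B, hB⟩ : ∃ B : ℝ → ℂ, B = fun y => (g (vp y) : ℂ) *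
      ((Ph α m).eval (vp y) * conj ((Pt α m).eval (vp y)) / (nu α m : ℂ)) := ⟨_, rfl⟩
  obtain ⟨F, hF⟩ : ∃ F : ℝ × ℝ → ℝ, F = fun z => g (vp z.1) * g (vp z.2) *
        ((z.1 - z.2) ^ 2 * ‖Kc α m (vp z.2) (vp z.1)‖ ^ 2) := ⟨_, rfl⟩
  have cP : ∀ P : ℂ[X], Continuous (fun y : ℝ => P.eval (vp y)) := fun P => P.continuous.comp hvc
  have cg : Continuous (fun y : ℝ => g (vp y)) := hg.comp hvc
  have cA : Continuous A := by
    rw [hA]
    exact cg.mul (((cP _).norm.pow 2).div_const _)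
  have cB : Continuous B := by
    rw [hB]
    exact (Complex.continuous_ofReal.comp cg).mul
      (((cP _).mul (Complex.continuous_conj.comp (cP _))).div_const _)
  have cF : Continuous F := by
    rw [hF]
    refine ((cg.comp continuous_fst).mul (cg.comp continuous_snd)).mul
      (((continuous_fst.sub continuous_snd).pow 2).mul (Continuous.pow (Continuous.norm ?_) 2))
    unfold Kc
    refine continuous_finsetSum _ fun k _ => ?_
    exact (((cP _).comp continuous_snd).mul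
      (Complex.continuous_conj.comp ((cP _).comp continuous_fst))).div_const _
  have iA : Integrable A ν := by
    rw [hν]
    exact (cA.continuousOn.integrableOn_Icc (a := 0) (b := 1)).mono_set hsub
  have iB : Integrable B ν := by
    rw [hν]
    exact (cB.continuousOn.integrableOn_Icc (a := 0) (b := 1)).mono_set hsub
  have iF : Integrable F (ν.prod ν) := by
    rw [hν]
    exact exd_intble hμ cF.continuousOn measurableSet_Ioo measurableSet_Ioo hsub hsub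
  have iBc : Integrable (fun y => conj (B y)) ν := by
    have := (Complex.conjCLE.toContinuousLinearMap).integrable_comp iB
    exact this
  have iAA : Integrable (fun z : ℝ × ℝ => A z.1 * A z.2) (ν.prod ν) := iA.mul_prod iA
  have iBB : Integrable (fun z : ℝ × ℝ => B z.1 * conj (B z.2)) (ν.prod ν) := iB.mul_prod iBc
  have iBBr : Integrable (fun z : ℝ × ℝ => (B z.1 * conj (B z.2)).re) (ν.prod ν) := iBB.re
  have vA : ∫ z : ℝ × ℝ, A z.1 * A z.2 ∂(ν.prod ν) = (∫ y, A y ∂ν) ^ 2 := by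
    rw [integral_prod_mul, sq]
  have vB : ∫ z : ℝ × ℝ, (B z.1 * conj (B z.2)).re ∂(ν.prod ν) = ‖∫ y, B y ∂ν‖ ^ 2 := by
    have h3 : ∫ z : ℝ × ℝ, (B z.1 * conj (B z.2)).re ∂(ν.prod ν) =
        (∫ z : ℝ × ℝ, B z.1 * conj (B z.2) ∂(ν.prod ν)).re := integral_re iBB
    rw [h3, integral_prod_mul B (fun y => conj (B y)), integral_conj, Complex.mul_conj,
      Complex.normSq_eq_norm_sq, Complex.ofReal_re]
  have hpt : ∀ z : ℝ × ℝ, z ∈ Ioo c d ×ˢ Ioo c d →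
      s0 ^ 2 / 8 * (A z.1 * A z.2 - (B z.1 * conj (B z.2)).re) ≤ F z := by
    rintro ⟨y, y'⟩ ⟨hy, hy'⟩
    have h3 := LCA_pt hα m hc hd h0 h1 h2 (Ioo_subset_Icc_self hy) (Ioo_subset_Icc_self hy')
    have h4 := mul_le_mul_of_nonneg_left h3 (mul_nonneg (hg0 (vp y)) (hg0 (vp y')))
    rw [hA, hB, hF]
    have h5 : ∀ x z : ℂ, (((g (vp y) : ℂ) * x) * conj ((g (vp y') : ℂ) * z)).re =
        g (vp y) * g (vp y') * (x * conj z).re := by
      intro x z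
      rw [map_mul, Complex.conj_ofReal]
      have : (g (vp y) : ℂ) * x * ((g (vp y') : ℂ) * conj z) =
          ((g (vp y) * g (vp y') : ℝ) : ℂ) * (x * conj z) := by push_cast; ring
      rw [this, Complex.re_ofReal_mul]
    simp only
    rw [h5]
    refine le_trans (le_of_eq ?_) h4
    ring
  have hmono : ∫ z : ℝ × ℝ, s0 ^ 2 / 8 * (A z.1 * A z.2 - (B z.1 * conj (B z.2)).re) ∂(ν.prod ν) ≤
      ∫ z, F z ∂(ν.prod ν) := by
    refine integral_mono_ae ((iAA.sub iBBr).const_mul _) iF ?_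
    have h3 : ν.prod ν = (μ.prod μ).restrict (Ioo c d ×ˢ Ioo c d) := by
      rw [hν, Measure.prod_restrict]
    rw [h3]
    exact (ae_restrict_iff' (measurableSet_Ioo.prod measurableSet_Ioo)).2
      (Filter.Eventually.of_forall hpt)
  rw [integral_const_mul, integral_sub iAA iBBr, vA, vB, integral_prod F iF] at hmono
  rw [hA, hB, hF] at hmono
  rw [← hν]
  simp only at hmono
  linarith

end Pool.H52.MQ
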