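import Pool.Agent.H52.MQ.OPA

/-! Module OPF (project MP_935a4b_QM): the final inequality.  Uses OPA.
Put n1 = n+1, P = p_{n+1}, R = p_n, a = a_{n+1} > 0 (apos), A_i = int G_i P^2, C_i = int G_i R^2, B_i = int G_i P R, Z = 1 - sum G_i (>= 0 on [0,1]).
All integrals are over mu (carried by [0,1]); 0 <= G_i <= 1 on [0,1] there, so all integrands are bounded measurable (opa_intb).
(1) opa_cd: (x-y)^2 KK p (n+1) x y ^2 = a^2 (P(x)R(y)-R(x)P(y))^2, so 1/2 int int G_i(x)G_i(y)(x-y)^2 KK^2 = a^2 (A_i C_i - B_i^2), hence d_i^2 <= a^2(A_iC_i - B_i^2).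
(2) sqrt(A_iC_i) >= (2t_i-1)B_i + 2 sqrt(t_i(1-t_i)) d_i/a:  A_iC_i >= B_i^2 + (d_i/a)^2 and ((2t-1)^2 + 4t(1-t)) = 1 (Cauchy-Schwarz in the plane).
(3) Cauchy-Schwarz (integrals + sums): sum_i sqrt(A_iC_i) + sqrt(A_Z C_Z) <= (sum A_i + A_Z)^(1/2) (sum C_i + C_Z)^(1/2) = 1, as sum_i A_i + A_Z = int P^2 = 1 (A_Z = int Z P^2 etc.);
    or by AM-GM: sqrt(AC) <= (A+C)/2 and the sum of all (A+C)/2 is 1.
(4) 2a = int (2x-1) P R (opa_a, orth: int P R = 0) = sum_i int (2x-1) G_i P R + int (2x-1) Z P R.  |int (2x-1)G_iPR - (2t_i-1)B_i| <= 2 eps int G_i|PR| <= 2 eps sqrt(A_iC_i) (or eps (A_i + C_i)),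
    |int (2x-1)Z P R| <= sqrt(A_Z C_Z) (|2x-1| <= 1 on [0,1]) (Cauchy-Schwarz for the weight G_i mu: from int G_i (P - s R)^2 >= 0 for all s, or (int fg)^2 <= int f^2 int g^2 with f = sqrt(G) |P|, g = sqrt(G)|R|).
(5) 2a <= sum_i (2t_i-1)B_i + 2 eps + sqrt(A_ZC_Z) <= sum_i sqrt(A_iC_i) - (2/a) S + 2 eps + sqrt(A_ZC_Z) <= 1 - (2/a) S + 2 eps, S = sum sqrt(t_i(1-t_i)) d_i.
(6) times 8a: 16a^2 + 16 S - 16 eps a <= 8a, and a <= 1/2 (opa_le): (4a-1)^2 <= 1 - 16 S + 8 eps. -/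

open MeasureTheory Set Polynomial

namespace Pool.H52.MQ

theorem opf_i {μ : Measure ℝ} (hμ : QM μ) {g f : ℝ → ℝ} (hg : Measurable g)
    (hg1 : ∀ x ∈ Icc (0:ℝ) 1, |g x| ≤ 1) (hf : Continuous f) :
    Integrable (fun x => g x * f x) μ := by
  obtain ⟨B, hB⟩ := isCompact_Icc.exists_bound_of_continuousOn (s := Icc (0:ℝ) 1) hf.continuousOn
  refine opa_intb hμ ((hg.mul hf.measurable).aestronglyMeasurable) B fun x hx => ?_
  rw [norm_mul, Real.norm_eq_abs]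
  have h1 := hB x hx
  calc |g x| * ‖f x‖ ≤ 1 * ‖f x‖ := mul_le_mul_of_nonneg_right (hg1 x hx) (norm_nonneg _)
    _ ≤ B := by rw [one_mul]; exact h1

theorem opf_lin {μ : Measure ℝ} (c1 c2 c3 : ℝ) {f1 f2 f3 : ℝ → ℝ} (h1 : Integrable f1 μ)
    (h2 : Integrable f2 μ) (h3 : Integrable f3 μ) :
    ∫ x, (c1 * f1 x + c2 * f2 x + c3 * f3 x) ∂μ =
      c1 * ∫ x, f1 x ∂μ + c2 * ∫ x, f2 x ∂μ + c3 * ∫ x, f3 x ∂μ := by
  have e1 : Integrable (fun x => c1 * f1 x) μ := h1.const_mul _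
  have e2 : Integrable (fun x => c2 * f2 x) μ := h2.const_mul _
  have e3 : Integrable (fun x => c3 * f3 x) μ := h3.const_mul _
  have e12 : Integrable (fun x => c1 * f1 x + c2 * f2 x) μ := e1.add e2
  rw [integral_add e12 e3, integral_add e1 e2, integral_const_mul, integral_const_mul,
    integral_const_mul]

/-- the double integral of the Christoffel-Darboux kernel -/
theorem opf_d {μ : Measure ℝ} (hμ : QM μ) {p : ℕ → ℝ[X]} {a b : ℕ → ℝ} (hp : IsJacobi μ p a b)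
    (n : ℕ) {g : ℝ → ℝ} (hg : Measurable g) (hg1 : ∀ x ∈ Icc (0:ℝ) 1, |g x| ≤ 1) :
    1 / 2 * ∫ x, ∫ y, g x * g y * ((x - y) ^ 2 * KK p (n + 1) x y ^ 2) ∂μ ∂μ =
      a (n + 1) ^ 2 * ((∫ x, g x * (p (n + 1)).eval x ^ 2 ∂μ) * (∫ x, g x * (p n).eval x ^ 2 ∂μ) -
        (∫ x, g x * ((p (n + 1)).eval x * (p n).eval x) ∂μ) ^ 2) := by
  have hP : Continuous fun x : ℝ => (p (n + 1)).eval x := (p (n + 1)).continuous
  have hR : Continuous fun x : ℝ => (p n).eval x := (p n).continuous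
  have iA : Integrable (fun x => g x * (p (n + 1)).eval x ^ 2) μ := opf_i hμ hg hg1 (hP.pow 2)
  have iC : Integrable (fun x => g x * (p n).eval x ^ 2) μ := opf_i hμ hg hg1 (hR.pow 2)
  have iB : Integrable (fun x => g x * ((p (n + 1)).eval x * (p n).eval x)) μ :=
    opf_i hμ hg hg1 (hP.mul hR)
  obtain ⟨A, hA⟩ : ∃ A, A = ∫ x, g x * (p (n + 1)).eval x ^ 2 ∂μ := ⟨_, rfl⟩
  obtain ⟨C, hC⟩ : ∃ C, C = ∫ x, g x * (p n).eval x ^ 2 ∂μ := ⟨_, rfl⟩
  obtain ⟨B, hB⟩ : ∃ B, B = ∫ x, g x * ((p (n + 1)).eval x * (p n).eval x) ∂μ := ⟨_, rfl⟩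
  have hin : ∀ x, ∫ y, g x * g y * ((x - y) ^ 2 * KK p (n + 1) x y ^ 2) ∂μ =
      (a (n + 1) ^ 2 * C) * (g x * (p (n + 1)).eval x ^ 2) +
        (-2 * a (n + 1) ^ 2 * B) * (g x * ((p (n + 1)).eval x * (p n).eval x)) +
        (a (n + 1) ^ 2 * A) * (g x * (p n).eval x ^ 2) := by
    intro x
    have h1 : (fun y => g x * g y * ((x - y) ^ 2 * KK p (n + 1) x y ^ 2)) = fun y =>
        (a (n + 1) ^ 2 * (g x * (p (n + 1)).eval x ^ 2)) * (g y * (p n).eval y ^ 2) +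
        (-2 * a (n + 1) ^ 2 * (g x * ((p (n + 1)).eval x * (p n).eval x))) *
          (g y * ((p (n + 1)).eval y * (p n).eval y)) +
        (a (n + 1) ^ 2 * (g x * (p n).eval x ^ 2)) * (g y * (p (n + 1)).eval y ^ 2) := by
      funext y
      have h2 := opa_cd hp n x y
      have h3 : (x - y) ^ 2 * KK p (n + 1) x y ^ 2 = (a (n + 1) * ((p (n + 1)).eval x * (p n).eval y -
          (p n).eval x * (p (n + 1)).eval y)) ^ 2 := by
        rw [← h2]
        ring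
      rw [h3]
      ring
    rw [h1, opf_lin _ _ _ iC iB iA, ← hA, ← hB, ← hC]
    ring
  simp only [hin]
  rw [opf_lin _ _ _ iA iB iC, ← hA, ← hB, ← hC]
  ring

/-- Cauchy-Schwarz in the plane -/
theorem opf_cs {A B C a d t : ℝ} (hA : 0 ≤ A) (hC : 0 ≤ C) (ha : 0 < a) (ht : t ∈ Icc (0:ℝ) 1)
    (h : d ^ 2 ≤ a ^ 2 * (A * C - B ^ 2)) :
    (2 * t - 1) * B + 2 / a * (√(t * (1 - t)) * d) ≤ (A + C) / 2 := by
  have h0 : 0 ≤ t * (1 - t) := mul_nonneg ht.1 (by linarith [ht.2])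
  obtain ⟨v, hv⟩ : ∃ v, v = √(t * (1 - t)) := ⟨_, rfl⟩
  have hv2 : v ^ 2 = t * (1 - t) := by rw [hv]; exact Real.sq_sqrt h0
  rw [← hv]
  have h1 : (d / a) ^ 2 ≤ A * C - B ^ 2 := by
    rw [div_pow, div_le_iff₀ (by positivity)]
    linarith
  have h2 : 2 / a * (v * d) = 2 * v * (d / a) := by ring
  rw [h2]
  have h3 : ((2 * t - 1) * B + 2 * v * (d / a)) ^ 2 ≤ A * C := by
    have h4 : ((2 * t - 1) * B + 2 * v * (d / a)) ^ 2 + ((2 * t - 1) * (d / a) - 2 * v * B) ^ 2 =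
        ((2 * t - 1) ^ 2 + 4 * v ^ 2) * (B ^ 2 + (d / a) ^ 2) := by ring
    have h5 : (2 * t - 1) ^ 2 + 4 * v ^ 2 = 1 := by rw [hv2]; ring
    rw [h5, one_mul] at h4
    nlinarith [sq_nonneg ((2 * t - 1) * (d / a) - 2 * v * B)]
  have h4 : ((2 * t - 1) * B + 2 * v * (d / a)) ^ 2 ≤ ((A + C) / 2) ^ 2 := by
    nlinarith [sq_nonneg (A - C)]
  exact (abs_le_of_sq_le_sq' h4 (by positivity)).2

theorem opf_fin {μ : Measure ℝ} (hμ : QM μ) {p : ℕ → ℝ[X]} {a b : ℕ → ℝ} (hp : IsJacobi μ p a b)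
    (n : ℕ) {ι : Type*} (K : Finset ι) (G : ι → ℝ → ℝ) (t d : ι → ℝ) (ε : ℝ) (hε : 0 ≤ ε)
    (hGm : ∀ i ∈ K, Measurable (G i)) (hG0 : ∀ i ∈ K, ∀ x, 0 ≤ G i x)
    (hG1 : ∀ x ∈ Icc (0:ℝ) 1, ∑ i ∈ K, G i x ≤ 1)
    (ht : ∀ i ∈ K, t i ∈ Icc (0:ℝ) 1)
    (hloc : ∀ i ∈ K, ∀ x ∈ Icc (0:ℝ) 1, G i x ≠ 0 → |x - t i| ≤ ε) (hd0 : ∀ i ∈ K, 0 ≤ d i)
    (hd : ∀ i ∈ K, d i ^ 2 ≤
      1 / 2 * ∫ x, ∫ y, G i x * G i y * ((x - y) ^ 2 * KK p (n + 1) x y ^ 2) ∂μ ∂μ) :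
    (4 * a (n + 1) - 1) ^ 2 ≤ 1 - 16 * ∑ i ∈ K, √(t i * (1 - t i)) * d i + 8 * ε := by
  have hprob := hμ.prob
  have hae : ∀ᵐ x ∂μ, x ∈ Icc (0:ℝ) 1 := by
    rw [ae_iff]
    exact hμ.supp
  have hP : Continuous fun x : ℝ => (p (n + 1)).eval x := (p (n + 1)).continuous
  have hR : Continuous fun x : ℝ => (p n).eval x := (p n).continuous
  have hGabs : ∀ i ∈ K, ∀ x ∈ Icc (0:ℝ) 1, |G i x| ≤ 1 := by
    intro i hi x hx
    rw [abs_of_nonneg (hG0 i hi x)]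
    exact (Finset.single_le_sum (fun j hj => hG0 j hj x) hi).trans (hG1 x hx)
  have iA : ∀ i ∈ K, Integrable (fun x => G i x * (p (n + 1)).eval x ^ 2) μ := fun i hi =>
    opf_i hμ (hGm i hi) (hGabs i hi) (hP.pow 2)
  have iC : ∀ i ∈ K, Integrable (fun x => G i x * (p n).eval x ^ 2) μ := fun i hi =>
    opf_i hμ (hGm i hi) (hGabs i hi) (hR.pow 2)
  have iB : ∀ i ∈ K, Integrable (fun x => G i x * ((p (n + 1)).eval x * (p n).eval x)) μ :=
    fun i hi => opf_i hμ (hGm i hi) (hGabs i hi) (hP.mul hR)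
  obtain ⟨A, hA⟩ : ∃ A : ι → ℝ, A = fun i => ∫ x, G i x * (p (n + 1)).eval x ^ 2 ∂μ := ⟨_, rfl⟩
  obtain ⟨C, hC⟩ : ∃ C : ι → ℝ, C = fun i => ∫ x, G i x * (p n).eval x ^ 2 ∂μ := ⟨_, rfl⟩
  obtain ⟨B, hB⟩ : ∃ B : ι → ℝ, B = fun i => ∫ x, G i x * ((p (n + 1)).eval x * (p n).eval x) ∂μ :=
    ⟨_, rfl⟩
  have ha := hp.apos n
  have hA0 : ∀ i ∈ K, 0 ≤ A i := by
    intro i hi
    rw [hA]
    exact integral_nonneg fun x => mul_nonneg (hG0 i hi x) (sq_nonneg _)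
  have hC0 : ∀ i ∈ K, 0 ≤ C i := by
    intro i hi
    rw [hC]
    exact integral_nonneg fun x => mul_nonneg (hG0 i hi x) (sq_nonneg _)
  -- the local inequalities
  have h1 : ∀ i ∈ K, (2 * t i - 1) * B i + 2 / a (n + 1) * (√(t i * (1 - t i)) * d i) ≤
      (A i + C i) / 2 := by
    intro i hi
    refine opf_cs (hA0 i hi) (hC0 i hi) ha (ht i hi) ?_
    have h2 := hd i hi
    rw [opf_d hμ hp n (hGm i hi) (hGabs i hi)] at h2
    rw [hA, hB, hC]
    exact h2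
  -- the integrals of the squares
  have hPP : ∫ x, (p (n + 1)).eval x ^ 2 ∂μ = 1 := by
    have := hp.orth (n + 1) (n + 1)
    rw [if_pos rfl] at this
    simpa [sq] using this
  have hRR : ∫ x, (p n).eval x ^ 2 ∂μ = 1 := by
    have := hp.orth n n
    rw [if_pos rfl] at this
    simpa [sq] using this
  have hPR : ∫ x, (p (n + 1)).eval x * (p n).eval x ∂μ = 0 := by
    have := hp.orth (n + 1) n
    rwa [if_neg (by omega)] at this
  have iPP : Integrable (fun x => (p (n + 1)).eval x ^ 2) μ := opa_int hμ (hP.pow 2)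
  have iRR : Integrable (fun x => (p n).eval x ^ 2) μ := opa_int hμ (hR.pow 2)
  have iPR : Integrable (fun x => (p (n + 1)).eval x * (p n).eval x) μ := opa_int hμ (hP.mul hR)
  have ixPR : Integrable (fun x => x * ((p (n + 1)).eval x * (p n).eval x)) μ :=
    opa_int hμ (continuous_id.mul (hP.mul hR))
  have h2a : ∫ x, (2 * x - 1) * ((p (n + 1)).eval x * (p n).eval x) ∂μ = 2 * a (n + 1) := by
    have h2 : (fun x => (2 * x - 1) * ((p (n + 1)).eval x * (p n).eval x)) = fun x =>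
        2 * (x * ((p (n + 1)).eval x * (p n).eval x)) - (p (n + 1)).eval x * (p n).eval x := by
      funext x
      ring
    rw [h2, integral_sub (ixPR.const_mul 2) iPR, integral_const_mul, hPR, ← opa_a hμ hp n, sub_zero]
  -- the pointwise inequality
  have hpt : ∀ x ∈ Icc (0:ℝ) 1, (2 * x - 1) * ((p (n + 1)).eval x * (p n).eval x) ≤
      ∑ i ∈ K, ((2 * t i - 1) * (G i x * ((p (n + 1)).eval x * (p n).eval x)) +
        (ε - 1 / 2) * (G i x * (p (n + 1)).eval x ^ 2 + G i x * (p n).eval x ^ 2)) +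
        1 / 2 * ((p (n + 1)).eval x ^ 2 + (p n).eval x ^ 2) := by
    intro x hx
    obtain ⟨P, hPd⟩ : ∃ P, P = (p (n + 1)).eval x := ⟨_, rfl⟩
    obtain ⟨R, hRd⟩ : ∃ R, R = (p n).eval x := ⟨_, rfl⟩
    rw [← hPd, ← hRd]
    have hPR1 : |P * R| ≤ (P ^ 2 + R ^ 2) / 2 := by
      rw [abs_le]
      constructor
      · nlinarith [sq_nonneg (P + R)]
      · nlinarith [sq_nonneg (P - R)]
    have h3 : ∀ i ∈ K, (2 * x - 1) * (P * R) * G i x ≤
        (2 * t i - 1) * (G i x * (P * R)) + ε * (G i x * (P ^ 2 + R ^ 2)) := by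
      intro i hi
      by_cases h0 : G i x = 0
      · rw [h0]
        simp
      · have h4 := hloc i hi x hx h0
        have h5 : 2 * (x - t i) * (P * R) ≤ ε * (P ^ 2 + R ^ 2) := by
          calc 2 * (x - t i) * (P * R) ≤ |2 * (x - t i) * (P * R)| := le_abs_self _
            _ = 2 * |x - t i| * |P * R| := by
              rw [abs_mul, abs_mul]
              norm_num
            _ ≤ 2 * ε * ((P ^ 2 + R ^ 2) / 2) := by
              apply mul_le_mul _ hPR1 (abs_nonneg _) (by positivity)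
              linarith
            _ = ε * (P ^ 2 + R ^ 2) := by ring
        have h6 := mul_le_mul_of_nonneg_right h5 (hG0 i hi x)
        linarith
    have h4 : (2 * x - 1) * (P * R) * (1 - ∑ i ∈ K, G i x) ≤
        (P ^ 2 + R ^ 2) / 2 * (1 - ∑ i ∈ K, G i x) := by
      apply mul_le_mul_of_nonneg_right _ (by linarith [hG1 x hx])
      calc (2 * x - 1) * (P * R) ≤ |(2 * x - 1) * (P * R)| := le_abs_self _
        _ = |2 * x - 1| * |P * R| := abs_mul _ _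
        _ ≤ 1 * ((P ^ 2 + R ^ 2) / 2) := by
          apply mul_le_mul _ hPR1 (abs_nonneg _) zero_le_one
          rw [abs_le]
          constructor <;> linarith [hx.1, hx.2]
        _ = (P ^ 2 + R ^ 2) / 2 := one_mul _
    have h5 := Finset.sum_le_sum h3
    rw [← Finset.mul_sum] at h5
    have h6 : ∑ i ∈ K, ((2 * t i - 1) * (G i x * (P * R)) +
        (ε - 1 / 2) * (G i x * P ^ 2 + G i x * R ^ 2)) =
        ∑ i ∈ K, ((2 * t i - 1) * (G i x * (P * R)) + ε * (G i x * (P ^ 2 + R ^ 2))) -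
          (P ^ 2 + R ^ 2) / 2 * ∑ i ∈ K, G i x := by
      rw [Finset.mul_sum, ← Finset.sum_sub_distrib]
      refine Finset.sum_congr rfl fun i _ => ?_
      ring
    rw [h6]
    linarith
  -- integrate
  have hsi : ∀ i ∈ K, Integrable (fun x => (2 * t i - 1) *
      (G i x * ((p (n + 1)).eval x * (p n).eval x)) +
        (ε - 1 / 2) * (G i x * (p (n + 1)).eval x ^ 2 + G i x * (p n).eval x ^ 2)) μ := fun i hi =>
    ((iB i hi).const_mul _).add (((iA i hi).add (iC i hi)).const_mul _)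
  have hmono : ∫ x, (2 * x - 1) * ((p (n + 1)).eval x * (p n).eval x) ∂μ ≤
      ∫ x, (∑ i ∈ K, ((2 * t i - 1) * (G i x * ((p (n + 1)).eval x * (p n).eval x)) +
        (ε - 1 / 2) * (G i x * (p (n + 1)).eval x ^ 2 + G i x * (p n).eval x ^ 2)) +
        1 / 2 * ((p (n + 1)).eval x ^ 2 + (p n).eval x ^ 2)) ∂μ := by
    apply integral_mono_ae
    · exact opa_int hμ (((continuous_const.mul continuous_id).sub continuous_const).mul (hP.mul hR))
    · exact (integrable_finsetSum _ hsi).add ((iPP.add iRR).const_mul _)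
    · filter_upwards [hae] with x hx
      exact hpt x hx
  have iS : Integrable (fun x => ∑ i ∈ K, ((2 * t i - 1) *
      (G i x * ((p (n + 1)).eval x * (p n).eval x)) +
        (ε - 1 / 2) * (G i x * (p (n + 1)).eval x ^ 2 + G i x * (p n).eval x ^ 2))) μ :=
    integrable_finsetSum _ hsi
  have iQ : Integrable (fun x => 1 / 2 * ((p (n + 1)).eval x ^ 2 + (p n).eval x ^ 2)) μ :=
    (iPP.add iRR).const_mul _
  rw [h2a, integral_add iS iQ,
    integral_finsetSum _ hsi, integral_const_mul, integral_add iPP iRR, hPP, hRR] at hmono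
  have h3 : ∀ i ∈ K, ∫ x, ((2 * t i - 1) * (G i x * ((p (n + 1)).eval x * (p n).eval x)) +
        (ε - 1 / 2) * (G i x * (p (n + 1)).eval x ^ 2 + G i x * (p n).eval x ^ 2)) ∂μ =
      (2 * t i - 1) * B i + (ε - 1 / 2) * (A i + C i) := by
    intro i hi
    have h4 : (fun x => (2 * t i - 1) * (G i x * ((p (n + 1)).eval x * (p n).eval x)) +
        (ε - 1 / 2) * (G i x * (p (n + 1)).eval x ^ 2 + G i x * (p n).eval x ^ 2)) = fun x =>
        (2 * t i - 1) * (G i x * ((p (n + 1)).eval x * (p n).eval x)) +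
        (ε - 1 / 2) * (G i x * (p (n + 1)).eval x ^ 2) +
        (ε - 1 / 2) * (G i x * (p n).eval x ^ 2) := by
      funext x
      ring
    rw [h4, opf_lin _ _ _ (iB i hi) (iA i hi) (iC i hi), hA, hB, hC]
    ring
  rw [Finset.sum_congr rfl h3] at hmono
  -- the total mass
  have iAC : ∀ i ∈ K, Integrable (fun x => G i x * (p (n + 1)).eval x ^ 2 +
      G i x * (p n).eval x ^ 2) μ := fun i hi => (iA i hi).add (iC i hi)
  have h4 : ∑ i ∈ K, (A i + C i) ≤ 2 := by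
    have h5 : ∫ x, (∑ i ∈ K, (G i x * (p (n + 1)).eval x ^ 2 + G i x * (p n).eval x ^ 2)) ∂μ ≤
        ∫ x, ((p (n + 1)).eval x ^ 2 + (p n).eval x ^ 2) ∂μ := by
      apply integral_mono_ae
      · exact integrable_finsetSum _ iAC
      · exact iPP.add iRR
      · filter_upwards [hae] with x hx
        have h6 : ∑ i ∈ K, (G i x * (p (n + 1)).eval x ^ 2 + G i x * (p n).eval x ^ 2) =
            (∑ i ∈ K, G i x) * ((p (n + 1)).eval x ^ 2 + (p n).eval x ^ 2) := by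
          rw [Finset.sum_mul]
          refine Finset.sum_congr rfl fun i _ => ?_
          ring
        show ∑ i ∈ K, (G i x * (p (n + 1)).eval x ^ 2 + G i x * (p n).eval x ^ 2) ≤ _
        rw [h6]
        have h7 : 0 ≤ (p (n + 1)).eval x ^ 2 + (p n).eval x ^ 2 := by positivity
        calc (∑ i ∈ K, G i x) * ((p (n + 1)).eval x ^ 2 + (p n).eval x ^ 2)
            ≤ 1 * ((p (n + 1)).eval x ^ 2 + (p n).eval x ^ 2) :=
              mul_le_mul_of_nonneg_right (hG1 x hx) h7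
          _ = _ := one_mul _
    rw [integral_finsetSum _ iAC, integral_add iPP iRR, hPP, hRR] at h5
    have h6 : ∀ i ∈ K, ∫ x, (G i x * (p (n + 1)).eval x ^ 2 + G i x * (p n).eval x ^ 2) ∂μ =
        A i + C i := by
      intro i hi
      rw [integral_add (iA i hi) (iC i hi), hA, hC]
    rw [Finset.sum_congr rfl h6] at h5
    linarith
  -- the end
  have h5 := Finset.sum_le_sum h1
  obtain ⟨S, hS⟩ : ∃ S, S = ∑ i ∈ K, √(t i * (1 - t i)) * d i := ⟨_, rfl⟩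
  have h6 : ∑ i ∈ K, ((2 * t i - 1) * B i + 2 / a (n + 1) * (√(t i * (1 - t i)) * d i)) =
      ∑ i ∈ K, (2 * t i - 1) * B i + 2 / a (n + 1) * S := by
    rw [Finset.sum_add_distrib, ← Finset.mul_sum, hS]
  have h7 : ∑ i ∈ K, ((2 * t i - 1) * B i + (ε - 1 / 2) * (A i + C i)) =
      ∑ i ∈ K, (2 * t i - 1) * B i + (ε - 1 / 2) * ∑ i ∈ K, (A i + C i) := by
    rw [Finset.sum_add_distrib, ← Finset.mul_sum]
  have h8 : ∑ i ∈ K, (A i + C i) / 2 = (∑ i ∈ K, (A i + C i)) / 2 := by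
    rw [Finset.sum_div]
  rw [h6, h8] at h5
  rw [h7] at hmono
  rw [← hS]
  have h9 : 2 * a (n + 1) + 2 / a (n + 1) * S ≤ 1 + 2 * ε := by
    have h10 : ε * ∑ i ∈ K, (A i + C i) ≤ ε * 2 := mul_le_mul_of_nonneg_left h4 hε
    linarith
  have h10 : 2 * a (n + 1) ^ 2 + 2 * S ≤ (1 + 2 * ε) * a (n + 1) := by
    have h11 := mul_le_mul_of_nonneg_right h9 ha.le
    have h12 : (2 * a (n + 1) + 2 / a (n + 1) * S) * a (n + 1) = 2 * a (n + 1) ^ 2 + 2 * S := by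
      field_simp
    linarith
  have h11 := opa_le hμ hp n
  have h12 : ε * a (n + 1) ≤ ε * (1 / 2) := mul_le_mul_of_nonneg_left h11 hε
  nlinarith

end Pool.H52.MQ
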