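import Pool.Agent.H52.MQ.Defs

/-! Module QMA (project MP_935a4b_QM): the question mark function.  Mathlib only.
qmark x = 2 * tsum_k qterm x k, dig x k = floor(1/gauss^k x), gauss x = fract(1/x).
* qma_rec: 0 < x <= 1: dig x 0 = c >= 1, dig x (k+1) = dig (gauss x) k (Function.iterate_succ), so qterm x (k+1) = -(1/2)^c * qterm (gauss x) k, qterm x 0 = (1/2)^c.
  Summability: |qterm x k| <= (1/2)^(k+1) for x in [0,1] (digits >= 1 as long as gauss^k x /= 0, since 0 < gauss^k x <= 1; once gauss^k x = 0 it stays 0: 0⁻¹ = 0, fract 0 = 0).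
  qmark x = 2 (1/2)^c (1 - qmark (gauss x)/2)  (tsum_eq_zero_add).
* qma_bd: 0 <= qmark x <= 1 on [0,1]: first |qmark| <= 2 by the crude bound; the recursion gives: if A <= qmark <= B on [0,1] then ... simplest: let M = sup of max(qmark-1, -qmark) over [0,1] (finite); from the recursion with c >= 1:
  qmark x = t(1 - q/2), t = 2(1/2)^c in (0,1]: if q in [-M,1+M] then t(1-q/2) in [-(M/2), 1+M/2]  (1-q/2 in [1/2-M/2, 1+M/2]) so M <= M/2, M = 0.  (Or alternating series.)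
* qma_half: x in [0,1]: qmark (x/(1+x)) = qmark x / 2: x = 0 trivial; x > 0: the inverse is 1+1/x, first digit c+1, same gauss; qma_rec twice.
* qma_symm: x in [0,1]: qmark (1-x) = 1 - qmark x.  By symmetry x <= 1/2 (x = 0: qmark 1 = 1; x = 1/2 : qmark (1/2) = 1/2).  0 < x < 1/2: 1/x = c + th, c >= 2, th in [0,1), c-1+th > 1: 1/(1-x) = 1 + 1/(c-1+th): digit 1 and gauss(1-x) = x' = 1/(c-1+th) in (0,1);
  x' has digit c-1 and gauss x' = th = gauss x.  qma_rec: qmark (1-x) = 1 - qmark x' / 2, qmark x' = 2 (1/2)^(c-1)(1 - qmark th/2) = 2 qmark x.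
* qma_double: x in [0,1]: qmark (1/(2-x)) = (1 + qmark x)/2: x = 0: qmark (1/2) = 1/2; x > 0: 1/y = 2-x in [1,2), digit 1, gauss = 1-x: qmark y = 1 - qmark (1-x)/2 = (1+qmark x)/2.
* qma_mono, qma_cont: for every n there is f_n continuous and monotone on [0,1], f_n 0 = 0, f_n 1 = 1, |qmark - f_n| <= (1/2)^n on [0,1]: f_0 = id (qma_bd); f_{n+1}(x) = f_n(x/(1-x))/2 for x <= 1/2, (1+f_n(2-1/x))/2 for x >= 1/2
  (both 1/2 at x = 1/2); by qma_half, qma_double qmark satisfies the same equation.  Uniform limit of continuous (monotone) functions. -/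

open MeasureTheory Set

namespace Pool.H52.MQ

theorem QMA_gauss (x : ℝ) : gauss x ∈ Ico (0:ℝ) 1 := ⟨Int.fract_nonneg _, Int.fract_lt_one _⟩

theorem QMA_gauss' (x : ℝ) : gauss x ∈ Icc (0:ℝ) 1 := Ico_subset_Icc_self (QMA_gauss x)

theorem QMA_gauss0 : gauss 0 = 0 := by
  unfold gauss
  simp

theorem QMA_z (k : ℕ) : qterm 0 k = 0 := by
  unfold qterm
  rw [if_pos (Function.iterate_fixed QMA_gauss0 k)]

theorem QMA_q0 {x : ℝ} (hx : x ≠ 0) : qterm x 0 = (1 / 2) ^ ⌊x⁻¹⌋₊ := by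
  unfold qterm dig
  simp [hx]

theorem QMA_qs {x : ℝ} (hx : x ≠ 0) (k : ℕ) :
    qterm x (k + 1) = -(1 / 2) ^ ⌊x⁻¹⌋₊ * qterm (gauss x) k := by
  unfold qterm
  rw [Function.iterate_succ_apply]
  by_cases h : gauss^[k] (gauss x) = 0
  · rw [if_pos h, if_pos h, mul_zero]
  · rw [if_neg h, if_neg h, Finset.sum_range_succ']
    have e1 : ∀ i, dig x (i + 1) = dig (gauss x) i := by
      intro i
      unfold dig
      rw [Function.iterate_succ_apply]
    have e2 : dig x 0 = ⌊x⁻¹⌋₊ := rfl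
    rw [e2, Finset.sum_congr rfl fun i _ => e1 i, pow_add, pow_succ]
    ring

theorem QMA_floor {x : ℝ} (hx : x ∈ Ioc (0:ℝ) 1) : 1 ≤ ⌊x⁻¹⌋₊ := by
  rw [Nat.one_le_floor_iff]
  exact (one_le_inv₀ hx.1).2 hx.2

theorem QMA_t {x : ℝ} (hx : x ∈ Ioc (0:ℝ) 1) : (1 / 2 : ℝ) ^ ⌊x⁻¹⌋₊ ≤ 1 / 2 := by
  have h := pow_le_pow_of_le_one (by norm_num : (0:ℝ) ≤ 1 / 2) (by norm_num) (QMA_floor hx)
  rwa [pow_one] at h

theorem QMA_abs (k : ℕ) : ∀ {x : ℝ}, x ∈ Icc (0:ℝ) 1 → ‖qterm x k‖ ≤ (1 / 2) * (1 / 2) ^ k := by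
  induction k with
  | zero =>
    intro x hx
    rcases eq_or_lt_of_le hx.1 with h | h
    · rw [← h, QMA_z, norm_zero]; norm_num
    · rw [QMA_q0 h.ne', Real.norm_eq_abs, abs_of_nonneg (by positivity), pow_zero, mul_one]
      exact QMA_t ⟨h, hx.2⟩
  | succ k ih =>
    intro x hx
    rcases eq_or_lt_of_le hx.1 with h | h
    · rw [← h, QMA_z, norm_zero]; positivity
    · rw [QMA_qs h.ne', norm_mul, norm_neg, Real.norm_eq_abs, abs_of_nonneg (by positivity),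
        pow_succ']
      exact mul_le_mul (QMA_t ⟨h, hx.2⟩) (ih (QMA_gauss' x)) (norm_nonneg _) (by norm_num)

theorem QMA_hs : HasSum (fun k : ℕ => (1 / 2 : ℝ) * (1 / 2) ^ k) 1 := by
  have h := (hasSum_geometric_two).mul_left (1 / 2 : ℝ)
  norm_num at h ⊢
  exact h

theorem QMA_sum {x : ℝ} (hx : x ∈ Icc (0:ℝ) 1) : Summable (qterm x) :=
  Summable.of_norm_bounded QMA_hs.summable fun k => QMA_abs k hx

theorem QMA_crude {x : ℝ} (hx : x ∈ Icc (0:ℝ) 1) : |qmark x| ≤ 2 := by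
  have h := tsum_of_norm_bounded QMA_hs fun k => QMA_abs k hx
  unfold qmark
  rw [Real.norm_eq_abs] at h
  rw [abs_mul, abs_two]
  linarith

theorem qma_rec {x : ℝ} (hx : x ∈ Ioc (0:ℝ) 1) :
    qmark x = 2 * (1 / 2) ^ ⌊x⁻¹⌋₊ * (1 - qmark (gauss x) / 2) := by
  have hx0 : x ≠ 0 := hx.1.ne'
  have h1 := (QMA_sum (Ioc_subset_Icc_self hx)).tsum_eq_zero_add
  have h2 : (∑' k, qterm x (k + 1)) = -(1 / 2) ^ ⌊x⁻¹⌋₊ * ∑' k, qterm (gauss x) k := by
    rw [← tsum_mul_left]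
    exact tsum_congr fun k => QMA_qs hx0 k
  unfold qmark
  rw [h1, h2, QMA_q0 hx0]
  ring

theorem qma_zero : qmark 0 = 0 := by
  unfold qmark
  rw [tsum_congr QMA_z, tsum_zero, mul_zero]

theorem qma_one : qmark 1 = 1 := by
  have hg : gauss 1 = 0 := by
    unfold gauss
    rw [inv_one, Int.fract_one]
  rw [qma_rec ⟨zero_lt_one, le_rfl⟩, hg, qma_zero, inv_one, Nat.floor_one]
  norm_num

theorem QMA_bd1 (n : ℕ) : ∀ {x : ℝ}, x ∈ Icc (0:ℝ) 1 →
    -(2 * (1 / 2 : ℝ) ^ n) ≤ qmark x ∧ qmark x ≤ 1 + 2 * (1 / 2) ^ n := by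
  induction n with
  | zero =>
    intro x hx
    have := abs_le.1 (QMA_crude hx)
    constructor
    · norm_num; linarith [this.1]
    · norm_num; linarith [this.2]
  | succ n ih =>
    intro x hx
    have hp : (0:ℝ) < (1 / 2) ^ n := by positivity
    have e : (1 / 2 : ℝ) ^ (n + 1) = 1 / 2 * (1 / 2) ^ n := pow_succ' _ _
    rcases eq_or_lt_of_le hx.1 with h | h
    · rw [← h, qma_zero, e]
      constructor <;> linarith
    · have hx' : x ∈ Ioc (0:ℝ) 1 := ⟨h, hx.2⟩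
      obtain ⟨h1, h2⟩ := ih (QMA_gauss' x)
      rw [qma_rec hx', e]
      have h3 := QMA_t hx'
      have h4 : (0:ℝ) < (1 / 2) ^ ⌊x⁻¹⌋₊ := by positivity
      generalize (1 / 2 : ℝ) ^ ⌊x⁻¹⌋₊ = t at *
      generalize (1 / 2 : ℝ) ^ n = M at *
      generalize qmark (gauss x) = q at *
      constructor
      · nlinarith [mul_nonneg h4.le (by linarith : (0:ℝ) ≤ 1 + 2 * M - q),
          mul_nonneg hp.le (by linarith : (0:ℝ) ≤ 1 / 2 - t)]
      · nlinarith [mul_nonneg h4.le (by linarith : (0:ℝ) ≤ q + 2 * M),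
          mul_nonneg hp.le (by linarith : (0:ℝ) ≤ 1 / 2 - t)]

theorem QMA_lim (c : ℝ) : Filter.Tendsto (fun n : ℕ => c * (1 / 2 : ℝ) ^ n) Filter.atTop
    (nhds 0) := by
  have h := (tendsto_pow_atTop_nhds_zero_of_lt_one (by norm_num : (0:ℝ) ≤ 1 / 2)
    (by norm_num)).const_mul c
  rwa [mul_zero] at h

theorem qma_bd {x : ℝ} (hx : x ∈ Icc (0:ℝ) 1) : qmark x ∈ Icc (0:ℝ) 1 := by
  constructor
  · have h1 : ∀ n : ℕ, -2 * (1 / 2 : ℝ) ^ n ≤ qmark x := fun n => by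
      linarith [(QMA_bd1 n hx).1]
    exact le_of_tendsto' (QMA_lim (-2)) h1
  · have h1 : ∀ n : ℕ, qmark x - 1 ≤ 2 * (1 / 2 : ℝ) ^ n := fun n => by
      linarith [(QMA_bd1 n hx).2]
    linarith [ge_of_tendsto' (QMA_lim 2) h1]

theorem qma_half {x : ℝ} (hx : x ∈ Icc (0:ℝ) 1) : qmark (x / (1 + x)) = qmark x / 2 := by
  rcases eq_or_lt_of_le hx.1 with h | h
  · rw [← h, zero_div, qma_zero, zero_div]
  · have h1 : 0 < 1 + x := by linarith
    have hy : x / (1 + x) ∈ Ioc (0:ℝ) 1 := ⟨div_pos h h1, by rw [div_le_one h1]; linarith⟩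
    have e1 : (x / (1 + x))⁻¹ = x⁻¹ + 1 := by
      have hx0 : x ≠ 0 := h.ne'
      field_simp
    have e2 : gauss (x / (1 + x)) = gauss x := by
      unfold gauss
      rw [e1, Int.fract_add_one]
    rw [qma_rec hy, qma_rec ⟨h, hx.2⟩, e1, e2, Nat.floor_add_one (inv_nonneg.2 h.le), pow_succ]
    ring

theorem QMA_symm1 {x : ℝ} (hx : x ∈ Icc (0:ℝ) (1 / 2)) : qmark (1 - x) = 1 - qmark x := by
  rcases eq_or_lt_of_le hx.2 with h | h
  · have h1 := qma_half (x := 1) ⟨by norm_num, le_rfl⟩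
    rw [qma_one, show (1:ℝ) / (1 + 1) = 1 / 2 by norm_num] at h1
    rw [h, show (1:ℝ) - 1 / 2 = 1 / 2 by norm_num, h1]
    norm_num
  · have h1 : 0 < 1 - x := by linarith
    have h2 : (1 - x) ≠ 0 := h1.ne'
    have hx' : x / (1 - x) ∈ Ico (0:ℝ) 1 :=
      ⟨div_nonneg hx.1 h1.le, by rw [div_lt_one h1]; linarith⟩
    have e1 : (1 - x)⁻¹ = x / (1 - x) + 1 := by field_simp; ring
    have e2 : ⌊(1 - x)⁻¹⌋₊ = 1 := by
      rw [e1, Nat.floor_add_one hx'.1, Nat.floor_eq_zero.2 hx'.2]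
    have e3 : gauss (1 - x) = x / (1 - x) := by
      unfold gauss
      rw [e1, Int.fract_add_one, Int.fract_eq_self.2 hx']
    have e4 : qmark x = qmark (x / (1 - x)) / 2 := by
      rw [← qma_half (Ico_subset_Icc_self hx')]
      congr 1
      have h3 : 1 + x / (1 - x) = 1 / (1 - x) := by field_simp; ring
      rw [h3]
      field_simp
    rw [qma_rec ⟨h1, by linarith [hx.1]⟩, e2, e3, e4]
    ring

theorem qma_symm {x : ℝ} (hx : x ∈ Icc (0:ℝ) 1) : qmark (1 - x) = 1 - qmark x := by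
  rcases le_total x (1 / 2) with h | h
  · exact QMA_symm1 ⟨hx.1, h⟩
  · have h1 := QMA_symm1 (x := 1 - x) ⟨by linarith [hx.2], by linarith⟩
    rw [sub_sub_cancel] at h1
    linarith

theorem qma_double {x : ℝ} (hx : x ∈ Icc (0:ℝ) 1) : qmark (1 / (2 - x)) = (1 + qmark x) / 2 := by
  have h2 : 0 < 2 - x := by linarith [hx.2]
  have hz : 1 - x ∈ Icc (0:ℝ) 1 := ⟨by linarith [hx.2], by linarith [hx.1]⟩
  have h3 : 1 - 1 / (2 - x) = (1 - x) / (1 + (1 - x)) := by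
    have : 1 + (1 - x) = 2 - x := by ring
    rw [this]
    field_simp
    ring
  have hy : 1 / (2 - x) ∈ Icc (0:ℝ) 1 :=
    ⟨div_nonneg zero_le_one h2.le, by rw [div_le_one h2]; linarith [hx.2]⟩
  have h4 := qma_symm hy
  rw [h3, qma_half hz, qma_symm hx] at h4
  linarith

theorem QMA_left {x : ℝ} (h0 : 0 ≤ x) (h : x ≤ 1 / 2) :
    x / (1 - x) ∈ Icc (0:ℝ) 1 ∧ qmark x = qmark (x / (1 - x)) / 2 := by
  have h1 : 0 < 1 - x := by linarith
  have h2 : (1 - x) ≠ 0 := h1.ne'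
  have hx' : x / (1 - x) ∈ Icc (0:ℝ) 1 :=
    ⟨div_nonneg h0 h1.le, by rw [div_le_one h1]; linarith⟩
  refine ⟨hx', ?_⟩
  rw [← qma_half hx']
  congr 1
  have h3 : 1 + x / (1 - x) = 1 / (1 - x) := by field_simp; ring
  rw [h3]
  field_simp

theorem QMA_right {x : ℝ} (h : 1 / 2 ≤ x) (h1 : x ≤ 1) :
    2 - 1 / x ∈ Icc (0:ℝ) 1 ∧ qmark x = (1 + qmark (2 - 1 / x)) / 2 := by
  have h0 : 0 < x := by linarith
  have hx' : 2 - 1 / x ∈ Icc (0:ℝ) 1 := by
    have h2 : 1 / x ≤ 2 := by rw [div_le_iff₀ h0]; linarith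
    have h3 : 1 ≤ 1 / x := by rw [le_div_iff₀ h0]; linarith
    exact ⟨by linarith, by linarith⟩
  refine ⟨hx', ?_⟩
  rw [← qma_double hx', sub_sub_cancel, one_div_one_div]

theorem QMA_mono1 (n : ℕ) : ∀ {x y : ℝ}, 0 ≤ x → x ≤ y → y ≤ 1 →
    qmark x ≤ qmark y + (1 / 2 : ℝ) ^ n := by
  induction n with
  | zero =>
    intro x y h0 h1 h2
    have h3 := (qma_bd (x := x) ⟨h0, by linarith⟩).2
    have h4 := (qma_bd (x := y) ⟨by linarith, h2⟩).1
    rw [pow_zero]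
    linarith
  | succ n ih =>
    intro x y h0 h1 h2
    have hp : (0:ℝ) < (1 / 2) ^ n := by positivity
    rw [pow_succ']
    rcases le_total y (1 / 2) with hy | hy
    · obtain ⟨m1, e1⟩ := QMA_left (h0.trans h1) hy
      obtain ⟨m2, e2⟩ := QMA_left h0 (h1.trans hy)
      have h3 : x / (1 - x) ≤ y / (1 - y) := by
        rw [div_le_div_iff₀ (by linarith) (by linarith)]
        nlinarith
      have h4 := ih m2.1 h3 m1.2
      rw [e1, e2]
      linarith
    · rcases le_total x (1 / 2) with hx | hx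
      · obtain ⟨m1, e1⟩ := QMA_right hy h2
        obtain ⟨m2, e2⟩ := QMA_left h0 hx
        have h3 := (qma_bd m2).2
        have h4 := (qma_bd m1).1
        rw [e1, e2]
        linarith
      · obtain ⟨m1, e1⟩ := QMA_right hy h2
        obtain ⟨m2, e2⟩ := QMA_right hx (h1.trans h2)
        have h3 : 2 - 1 / x ≤ 2 - 1 / y := by
          have := one_div_le_one_div_of_le (by linarith : 0 < x) h1
          linarith
        have h4 := ih m2.1 h3 m1.2
        rw [e1, e2]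
        linarith

theorem qma_mono : MonotoneOn qmark (Icc 0 1) := by
  intro x hx y hy hxy
  have h1 : ∀ n : ℕ, qmark x - qmark y ≤ 1 * (1 / 2 : ℝ) ^ n := fun n => by
    linarith [QMA_mono1 n hx.1 hxy hy.2]
  linarith [ge_of_tendsto' (QMA_lim 1) h1]

theorem QMA_dense (n : ℕ) : ∀ {v : ℝ}, v ∈ Icc (0:ℝ) 1 →
    ∃ x ∈ Icc (0:ℝ) 1, |qmark x - v| ≤ (1 / 2 : ℝ) ^ n := by
  induction n with
  | zero =>
    intro v hv
    refine ⟨0, ⟨le_rfl, zero_le_one⟩, ?_⟩
    rw [qma_zero, zero_sub, abs_neg, abs_of_nonneg hv.1, pow_zero]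
    exact hv.2
  | succ n ih =>
    intro v hv
    rcases le_total v (1 / 2) with h | h
    · obtain ⟨x, hx, h1⟩ := ih (v := 2 * v) ⟨by linarith [hv.1], by linarith⟩
      refine ⟨x / (1 + x), ⟨div_nonneg hx.1 (by linarith [hx.1]), ?_⟩, ?_⟩
      · rw [div_le_one (by linarith [hx.1])]
        linarith
      · rw [qma_half hx, pow_succ', show qmark x / 2 - v = 1 / 2 * (qmark x - 2 * v) by ring,
          abs_mul, abs_of_pos (by norm_num : (0:ℝ) < 1 / 2)]
        linarith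
    · obtain ⟨x, hx, h1⟩ := ih (v := 2 * v - 1) ⟨by linarith, by linarith [hv.2]⟩
      refine ⟨1 / (2 - x), ⟨div_nonneg zero_le_one (by linarith [hx.2]), ?_⟩, ?_⟩
      · rw [div_le_one (by linarith [hx.2])]
        linarith [hx.2]
      · rw [qma_double hx, pow_succ',
          show (1 + qmark x) / 2 - v = 1 / 2 * (qmark x - (2 * v - 1)) by ring,
          abs_mul, abs_of_pos (by norm_num : (0:ℝ) < 1 / 2)]
        linarith

/-- the extension of the question mark function by the identity -/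
noncomputable def QMA_F (x : ℝ) : ℝ := if x < 0 then x else if x ≤ 1 then qmark x else x

theorem QMA_F0 {x : ℝ} (h : x < 0) : QMA_F x = x := if_pos h

theorem QMA_F1 {x : ℝ} (h : x ∈ Icc (0:ℝ) 1) : QMA_F x = qmark x := by
  unfold QMA_F
  rw [if_neg (not_lt.2 h.1), if_pos h.2]

theorem QMA_F2 {x : ℝ} (h : 1 < x) : QMA_F x = x := by
  unfold QMA_F
  rw [if_neg (by linarith), if_neg (not_le.2 h)]

theorem QMA_Fmono : Monotone QMA_F := by
  intro x y h
  rcases lt_or_ge x 0 with hx | hx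
  · rw [QMA_F0 hx]
    rcases lt_or_ge y 0 with hy | hy
    · rw [QMA_F0 hy]; exact h
    · rcases le_or_gt y 1 with hy1 | hy1
      · rw [QMA_F1 ⟨hy, hy1⟩]
        exact hx.le.trans (qma_bd ⟨hy, hy1⟩).1
      · rw [QMA_F2 hy1]; exact h
  · rcases le_or_gt x 1 with hx1 | hx1
    · rw [QMA_F1 ⟨hx, hx1⟩]
      rcases le_or_gt y 1 with hy1 | hy1
      · rw [QMA_F1 ⟨hx.trans h, hy1⟩]
        exact qma_mono ⟨hx, hx1⟩ ⟨hx.trans h, hy1⟩ h
      · rw [QMA_F2 hy1]
        exact (qma_bd ⟨hx, hx1⟩).2.trans hy1.le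
    · rw [QMA_F2 hx1, QMA_F2 (hx1.trans_le h)]
      exact h

theorem QMA_Fdense : DenseRange QMA_F := by
  apply dense_of_exists_between
  intro a b hab
  rcases lt_or_ge a 0 with ha | ha
  · have h1 : a < min b 0 := lt_min hab ha
    have h2 : min b 0 ≤ b := min_le_left _ _
    have h3 : min b 0 ≤ 0 := min_le_right _ _
    exact ⟨(a + min b 0) / 2, ⟨_, QMA_F0 (by linarith)⟩, by constructor <;> linarith⟩
  · rcases lt_or_ge 1 b with hb | hb
    · have h1 : max a 1 < b := max_lt hab hb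
      have h2 : a ≤ max a 1 := le_max_left _ _
      have h3 : 1 ≤ max a 1 := le_max_right _ _
      exact ⟨(max a 1 + b) / 2, ⟨_, QMA_F2 (by linarith)⟩, by constructor <;> linarith⟩
    · obtain ⟨n, hn⟩ := exists_pow_lt_of_lt_one (by linarith : 0 < (b - a) / 2)
        (by norm_num : (1 / 2 : ℝ) < 1)
      obtain ⟨x, hx, h1⟩ := QMA_dense n (v := (a + b) / 2) ⟨by linarith, by linarith⟩
      have h2 := abs_le.1 h1
      exact ⟨qmark x, ⟨x, QMA_F1 hx⟩, by constructor <;> linarith [h2.1, h2.2]⟩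

theorem qma_cont : ContinuousOn qmark (Icc 0 1) := by
  have h := QMA_Fmono.continuous_of_denseRange QMA_Fdense
  exact h.continuousOn.congr fun x hx => (QMA_F1 hx).symm

end Pool.H52.MQ
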