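import Pool.Agent.H52.MQ.Defs

/-! Module SBA (project MP_935a4b_QM): elementary algebra of Stern-Brocot words.  Mathlib only.
All proofs: induction on w (the head of the list is the last appended letter) and field_simp.
* sba_det: false :: w : (rp+lp) lq = lp (lq+rq) + (rp lq - lp rq); true :: w similar.
* sba_pos: induction, uses nothing else (lp+1<=lq and rp<=rq, 1<=rp are preserved by adding).
* sba_len: hh grows by at least 1 at every step (lq, rq >= 1).
* sba_word: (lq,rq) determines w: root is the only word with lq = rq = 1 (hh = 2, sba_len); for false :: w one has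
  rq = lq w + rq w > lq; for true :: w one has lq > rq; so the letter and (lq w, rq w) are determined; induction on w
  generalizing w'.
* sba_DD: convex combinations; BB w y = (lq-lp)(1-y) + (rq-rp) y.
* sba_diff: A(y)D(y')-A(y')D(y) = (rp lq - lp rq)(y-y') = y-y'.
* sba_false / sba_true: compute both sides, 1+y /= 0, 2-y /= 0.
* sba_mono from sba_diff and D >= 1; sba_image: continuity + monotonicity, gam w 0 = lp/lq, gam w 1 = rp/rq.
* sba_cell_cons: mediants lie between (sba_image + sba_false/sba_true or direct inequality). -/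

open MeasureTheory Set

namespace Pool.H52.MQ

private theorem SBA_nil : lp [] = 0 ∧ lq [] = 1 ∧ rp [] = 1 ∧ rq [] = 1 := ⟨rfl, rfl, rfl, rfl⟩

private theorem SBA_f (w : List Bool) : lp (false :: w) = lp w ∧ lq (false :: w) = lq w ∧
    rp (false :: w) = lp w + rp w ∧ rq (false :: w) = lq w + rq w := ⟨rfl, rfl, rfl, rfl⟩

private theorem SBA_t (w : List Bool) : lp (true :: w) = lp w + rp w ∧ lq (true :: w) = lq w + rq w ∧
    rp (true :: w) = rp w ∧ rq (true :: w) = rq w := ⟨rfl, rfl, rfl, rfl⟩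

theorem sba_det (w : List Bool) : rp w * lq w = lp w * rq w + 1 := by
  induction w with
  | nil =>
    obtain ⟨h1, h2, h3, h4⟩ := SBA_nil
    rw [h1, h2, h3, h4]
  | cons b w ih =>
    cases b
    · obtain ⟨h1, h2, h3, h4⟩ := SBA_f w
      rw [h1, h2, h3, h4, add_mul, mul_add, ih]
      ring
    · obtain ⟨h1, h2, h3, h4⟩ := SBA_t w
      rw [h1, h2, h3, h4, add_mul, mul_add, ih]
      ring

theorem sba_pos (w : List Bool) :
    1 ≤ lq w ∧ 1 ≤ rq w ∧ lp w + 1 ≤ lq w ∧ 1 ≤ rp w ∧ rp w ≤ rq w := by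
  induction w with
  | nil =>
    obtain ⟨h1, h2, h3, h4⟩ := SBA_nil
    rw [h1, h2, h3, h4]
    omega
  | cons b w ih =>
    cases b
    · obtain ⟨h1, h2, h3, h4⟩ := SBA_f w
      rw [h1, h2, h3, h4]
      omega
    · obtain ⟨h1, h2, h3, h4⟩ := SBA_t w
      rw [h1, h2, h3, h4]
      omega

theorem sba_len (w : List Bool) : w.length + 2 ≤ hh w := by
  unfold hh
  induction w with
  | nil =>
    obtain ⟨h1, h2, h3, h4⟩ := SBA_nil
    rw [h2, h4]
    simp
  | cons b w ih =>
    have hp := sba_pos w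
    rw [List.length_cons]
    cases b
    · obtain ⟨h1, h2, h3, h4⟩ := SBA_f w
      rw [h2, h4]
      omega
    · obtain ⟨h1, h2, h3, h4⟩ := SBA_t w
      rw [h2, h4]
      omega

theorem sba_word {w w' : List Bool} (h1 : lq w = lq w') (h2 : rq w = rq w') : w = w' := by
  induction w generalizing w' with
  | nil =>
    cases w' with
    | nil => rfl
    | cons b w' =>
      exfalso
      have hl := sba_len (b :: w')
      unfold hh at hl
      rw [← h1, ← h2, List.length_cons] at hl
      obtain ⟨g1, g2, g3, g4⟩ := SBA_nil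
      rw [g2, g4] at hl
      omega
  | cons b w ih =>
    cases w' with
    | nil =>
      exfalso
      have hl := sba_len (b :: w)
      unfold hh at hl
      rw [h1, h2, List.length_cons] at hl
      obtain ⟨g1, g2, g3, g4⟩ := SBA_nil
      rw [g2, g4] at hl
      omega
    | cons b' w' =>
      have hp := sba_pos w
      have hp' := sba_pos w'
      cases b <;> cases b'
      · obtain ⟨-, f2, -, f4⟩ := SBA_f w
        obtain ⟨-, f2', -, f4'⟩ := SBA_f w'
        rw [f2, f2'] at h1
        rw [f4, f4'] at h2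
        rw [ih h1 (by omega)]
      · exfalso
        obtain ⟨-, f2, -, f4⟩ := SBA_f w
        obtain ⟨-, f2', -, f4'⟩ := SBA_t w'
        rw [f2, f2'] at h1
        rw [f4, f4'] at h2
        omega
      · exfalso
        obtain ⟨-, f2, -, f4⟩ := SBA_t w
        obtain ⟨-, f2', -, f4'⟩ := SBA_f w'
        rw [f2, f2'] at h1
        rw [f4, f4'] at h2
        omega
      · obtain ⟨-, f2, -, f4⟩ := SBA_t w
        obtain ⟨-, f2', -, f4'⟩ := SBA_t w'
        rw [f2, f2'] at h1
        rw [f4, f4'] at h2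
        rw [ih (by omega) h2]

theorem sba_DD (w : List Bool) {y : ℝ} (hy : y ∈ Icc (0:ℝ) 1) :
    1 ≤ DD w y ∧ DD w y ≤ hh w ∧ 0 ≤ AA w y ∧ 0 ≤ BB w y := by
  obtain ⟨p1, p2, p3, p4, p5⟩ := sba_pos w
  have q1 : (1 : ℝ) ≤ lq w := by exact_mod_cast p1
  have q2 : (1 : ℝ) ≤ rq w := by exact_mod_cast p2
  have q3 : (lp w : ℝ) + 1 ≤ lq w := by exact_mod_cast p3
  have q5 : (rp w : ℝ) ≤ rq w := by exact_mod_cast p5
  have q6 : (0 : ℝ) ≤ lp w := Nat.cast_nonneg _
  have q7 : (0 : ℝ) ≤ rp w := Nat.cast_nonneg _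
  have y0 : 0 ≤ y := hy.1
  have y1 : 0 ≤ 1 - y := by linarith [hy.2]
  have hhc : ((hh w : ℕ) : ℝ) = lq w + rq w := by unfold hh; push_cast; ring
  refine ⟨?_, ?_, ?_, ?_⟩
  · unfold DD
    nlinarith [mul_nonneg (sub_nonneg.2 q1) y1, mul_nonneg (sub_nonneg.2 q2) y0]
  · rw [hhc]
    unfold DD
    nlinarith [mul_nonneg (by linarith : (0 : ℝ) ≤ lq w) y0, mul_nonneg (by linarith : (0 : ℝ) ≤ rq w) y1]
  · unfold AA
    positivity
  · unfold BB DD AA
    nlinarith [mul_nonneg (by linarith : (0 : ℝ) ≤ (lq w : ℝ) - lp w) y1,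
      mul_nonneg (sub_nonneg.2 q5) y0]

theorem sba_diff (w : List Bool) {y y' : ℝ} (hy : y ∈ Icc (0:ℝ) 1) (hy' : y' ∈ Icc (0:ℝ) 1) :
    gam w y - gam w y' = (y - y') / (DD w y * DD w y') := by
  have h1 := (sba_DD w hy).1
  have h2 := (sba_DD w hy').1
  have n1 : DD w y ≠ 0 := by linarith
  have n2 : DD w y' ≠ 0 := by linarith
  have hdet : (rp w : ℝ) * lq w = lp w * rq w + 1 := by exact_mod_cast sba_det w
  unfold gam
  rw [div_sub_div _ _ n1 n2]
  congr 1
  unfold AA DD
  linear_combination (y - y') * hdet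

theorem sba_false (w : List Bool) {y : ℝ} (hy : y ∈ Icc (0:ℝ) 1) :
    gam (false :: w) y = gam w (y / (1 + y)) := by
  obtain ⟨f1, f2, f3, f4⟩ := SBA_f w
  have hy1 : (1 : ℝ) + y ≠ 0 := by linarith [hy.1]
  have e1 : AA w (y / (1 + y)) = AA (false :: w) y / (1 + y) := by
    unfold AA
    rw [f1, f3]
    push_cast
    field_simp
    ring
  have e2 : DD w (y / (1 + y)) = DD (false :: w) y / (1 + y) := by
    unfold DD
    rw [f2, f4]
    push_cast
    field_simp
    ring
  unfold gam
  rw [e1, e2, div_div_div_cancel_right₀ hy1]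

theorem sba_true (w : List Bool) {y : ℝ} (hy : y ∈ Icc (0:ℝ) 1) :
    gam (true :: w) y = gam w (1 / (2 - y)) := by
  obtain ⟨f1, f2, f3, f4⟩ := SBA_t w
  have hy1 : (2 : ℝ) - y ≠ 0 := by linarith [hy.2]
  have e1 : AA w (1 / (2 - y)) = AA (true :: w) y / (2 - y) := by
    unfold AA
    rw [f1, f3]
    push_cast
    field_simp
    ring
  have e2 : DD w (1 / (2 - y)) = DD (true :: w) y / (2 - y) := by
    unfold DD
    rw [f2, f4]
    push_cast
    field_simp
    ring
  unfold gam
  rw [e1, e2, div_div_div_cancel_right₀ hy1]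

theorem sba_cont (w : List Bool) : ContinuousOn (gam w) (Icc 0 1) := by
  have hA : Continuous (AA w) := by unfold AA; fun_prop
  have hD : Continuous (DD w) := by unfold DD; fun_prop
  have h : ContinuousOn (fun y => AA w y / DD w y) (Icc 0 1) :=
    hA.continuousOn.div hD.continuousOn fun y hy => by
      have := (sba_DD w hy).1
      linarith
  exact h

theorem sba_mono (w : List Bool) : StrictMonoOn (gam w) (Icc 0 1) := by
  intro y hy y' hy' hlt
  have h1 := (sba_DD w hy).1
  have h2 := (sba_DD w hy').1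
  have h3 := sba_diff w hy' hy
  have h4 : 0 < (y' - y) / (DD w y' * DD w y) :=
    div_pos (by linarith) (mul_pos (by linarith) (by linarith))
  linarith

theorem sba_image (w : List Bool) : gam w '' Icc 0 1 = cell w := by
  have g0 : gam w 0 = (lp w : ℝ) / lq w := by unfold gam AA DD; simp
  have g1 : gam w 1 = (rp w : ℝ) / rq w := by unfold gam AA DD; simp
  unfold cell
  rw [← g0, ← g1]
  apply Subset.antisymm
  · rintro _ ⟨y, hy, rfl⟩
    exact ⟨(sba_mono w).monotoneOn (left_mem_Icc.2 zero_le_one) hy hy.1,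
      (sba_mono w).monotoneOn hy (right_mem_Icc.2 zero_le_one) hy.2⟩
  · exact intermediate_value_Icc zero_le_one (sba_cont w)

theorem sba_cell (w : List Bool) : cell w ⊆ Icc 0 1 := by
  obtain ⟨p1, p2, p3, p4, p5⟩ := sba_pos w
  intro x hx
  have q2 : (0 : ℝ) < rq w := by exact_mod_cast p2
  have q5 : (rp w : ℝ) ≤ rq w := by exact_mod_cast p5
  have h1 : (0 : ℝ) ≤ (lp w : ℝ) / lq w := by positivity
  have h2 : (rp w : ℝ) / rq w ≤ 1 := by
    rw [div_le_one q2]
    exact q5
  exact ⟨h1.trans hx.1, hx.2.trans h2⟩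

theorem sba_cell_cons (b : Bool) (w : List Bool) : cell (b :: w) ⊆ cell w := by
  obtain ⟨p1, p2, p3, p4, p5⟩ := sba_pos w
  have q1 : (0 : ℝ) < lq w := by exact_mod_cast p1
  have q2 : (0 : ℝ) < rq w := by exact_mod_cast p2
  have hdet : (rp w : ℝ) * lq w = lp w * rq w + 1 := by exact_mod_cast sba_det w
  cases b
  · obtain ⟨f1, f2, f3, f4⟩ := SBA_f w
    unfold cell
    rw [f1, f2, f3, f4]
    push_cast
    refine Icc_subset_Icc le_rfl ?_
    rw [div_le_div_iff₀ (by positivity) q2]
    nlinarith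
  · obtain ⟨f1, f2, f3, f4⟩ := SBA_t w
    unfold cell
    rw [f1, f2, f3, f4]
    push_cast
    refine Icc_subset_Icc ?_ le_rfl
    rw [div_le_div_iff₀ q1 (by positivity)]
    nlinarith

theorem sba_cell_len (w : List Bool) :
    (rp w : ℝ) / rq w - (lp w : ℝ) / lq w = 1 / (lq w * rq w) := by
  obtain ⟨p1, p2, p3, p4, p5⟩ := sba_pos w
  have q1 : (lq w : ℝ) ≠ 0 := by
    have : (0 : ℝ) < lq w := by exact_mod_cast p1
    exact this.ne'
  have q2 : (rq w : ℝ) ≠ 0 := by
    have : (0 : ℝ) < rq w := by exact_mod_cast p2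
    exact this.ne'
  have hdet : (rp w : ℝ) * lq w = lp w * rq w + 1 := by exact_mod_cast sba_det w
  field_simp
  linear_combination hdet

end Pool.H52.MQ
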