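import Pool.Agent.H52.MQ.SBA

/-! Module SBT (project MP_935a4b_QM): tiles.  Uses SBA.
hf false = (1/3,1/2), hf true = (1/2,2/3).
Definitions: U = set of words u with T <= hh u and hh (tail u) < T (u /= []; root has hh = 2 < T).  Both lq u, rq u <= T
(one of them is < T as it is unchanged, the other is hh (tail u) < T), and sba_word gives card U <= T^2 (in fact (T-1)^2).
Tiles: for u in U, b : Bool, i < I: comparison word w = replicate i b ++ u (i more letters b appended), pair (w, b).
  T I := image of these triples; monotone in I.  card <= 2 T^2 I.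
Heights: hh w >= hh u >= T; one of lq,rq stays constant <= T, the other grows by it at every step: hh w <= 2T + i T <= (I+2)T.
gam w '' (1/3,1/2) = interior of the cell of (true :: false :: w): cell(false::w) = gam w '' [0,1/2], and gam w (M_0 (M_1 [0,1])) = gam w [1/3,1/2]
  (M_1 [0,1] = [1/2,1], M_0 [1/2,1] = [1/3,1/2]); similarly gam w '' (1/2,2/3) = interior of the cell of (false :: true :: w).
Disjointness: two different tiles correspond to words v = (not b) :: b :: w; none of the two words v, v' is a suffix of the other (suffix because heads are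
  last letters): if v' is a suffix of v (v extends v'), then u, u' are both THE first prefix of height >= T of the same path, so u = u'; then after u the path is
  b^{i+1} (not b) resp. b'^{i'+1} (not b'), one a prefix of the other forces b = b', i = i'.  Cells of words neither of which extends the other have disjoint
  interiors (induction on the common part; cell(false::w), cell(true::w) meet only in an endpoint, sba_cell_cons).
Measure: for fixed u in U the interior of cell u minus the union of its tiles (i < I) is contained in the union of the cells of b^{I+1} u (b = false, true) and countably many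
  (finitely many) endpoints: by induction on I, cell(b^{j} u) = cell(b^{j+1} u) u cell((not b) b^j u).  len cell(b^{I+1}u) = 1/(lq*rq) <= 1/(I+1) (the growing denominator is >= I+2).
  And [0,1] minus the union of the cells of U is finite/empty: every word of height >= T has a suffix in U and words of length >= T have height >= T; the cells of length-T words cover.
  So the uncovered volume is <= card U * 2/(I+1) <= 2 T^2/I. -/

open MeasureTheory Set
open scoped ENNReal

namespace Pool.H52.MQ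

/-- half of a tile -/
def hf (b : Bool) : Set ℝ := if b then Ioo (1 / 2) (2 / 3) else Ioo (1 / 3) (1 / 2)

theorem SBT_lq_false (w : List Bool) : lq (false :: w) = lq w := rfl
theorem SBT_rq_false (w : List Bool) : rq (false :: w) = lq w + rq w := rfl
theorem SBT_lq_true (w : List Bool) : lq (true :: w) = lq w + rq w := rfl
theorem SBT_rq_true (w : List Bool) : rq (true :: w) = rq w := rfl

theorem SBT_hh_cons (b : Bool) (w : List Bool) : hh w ≤ hh (b :: w) := by
  unfold hh
  cases b
  · rw [SBT_lq_false, SBT_rq_false]; omega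
  · rw [SBT_lq_true, SBT_rq_true]; omega

theorem SBT_hh_app (p u : List Bool) : hh u ≤ hh (p ++ u) := by
  induction p with
  | nil => exact le_rfl
  | cons b p ih => exact ih.trans (SBT_hh_cons b _)

/-- open cell of a word -/
def SBT_oc (v : List Bool) : Set ℝ := gam v '' Ioo 0 1

theorem SBT_m0 {y : ℝ} (hy : y ∈ Ioo (0:ℝ) 1) : y / (1 + y) ∈ Ioo (0:ℝ) (1 / 2) := by
  have h : 0 < 1 + y := by linarith [hy.1]
  exact ⟨div_pos hy.1 h, by rw [div_lt_iff₀ h]; linarith [hy.2]⟩

theorem SBT_m1 {y : ℝ} (hy : y ∈ Ioo (0:ℝ) 1) : 1 / (2 - y) ∈ Ioo (1 / 2 : ℝ) 1 := by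
  have h : 0 < 2 - y := by linarith [hy.2]
  exact ⟨by rw [lt_div_iff₀ h]; linarith [hy.1], by rw [div_lt_iff₀ h]; linarith [hy.2]⟩

theorem SBT_oc_cons (b : Bool) (t : List Bool) {x : ℝ} (hx : x ∈ SBT_oc (b :: t)) :
    x ∈ SBT_oc t := by
  obtain ⟨y, hy, rfl⟩ := hx
  cases b
  · rw [sba_false t (Ioo_subset_Icc_self hy)]
    have h1 := SBT_m0 hy
    exact ⟨_, ⟨h1.1, by linarith [h1.2]⟩, rfl⟩
  · rw [sba_true t (Ioo_subset_Icc_self hy)]
    have h1 := SBT_m1 hy
    exact ⟨_, ⟨by linarith [h1.1], h1.2⟩, rfl⟩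

theorem SBT_oc_app (p v : List Bool) {x : ℝ} (hx : x ∈ SBT_oc (p ++ v)) : x ∈ SBT_oc v := by
  induction p with
  | nil => exact hx
  | cons b p ih => exact ih (SBT_oc_cons b _ hx)

theorem SBT_oc_ft {t : List Bool} {x : ℝ} (h : x ∈ SBT_oc (false :: t))
    (h' : x ∈ SBT_oc (true :: t)) : False := by
  obtain ⟨y, hy, e⟩ := h
  obtain ⟨y', hy', e'⟩ := h'
  rw [sba_false t (Ioo_subset_Icc_self hy)] at e
  rw [sba_true t (Ioo_subset_Icc_self hy')] at e'
  have h1 := SBT_m0 hy
  have h2 := SBT_m1 hy'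
  have h3 : y / (1 + y) = 1 / (2 - y') :=
    (sba_mono t).injOn ⟨h1.1.le, by linarith [h1.2]⟩ ⟨by linarith [h2.1], h2.2.le⟩
      (e.trans e'.symm)
  linarith [h1.2, h2.1]

/-- words of the same length with intersecting open cells are equal -/
theorem SBT_same : ∀ (v v' : List Bool), v.length = v'.length → ∀ x, x ∈ SBT_oc v → x ∈ SBT_oc v' →
    v = v' := by
  intro v
  induction v with
  | nil =>
    intro v' h x _ _
    cases v' with
    | nil => rfl
    | cons b t => simp at h
  | cons b t ih =>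
    intro v' h x hx hx'
    cases v' with
    | nil => simp at h
    | cons b' t' =>
      have h1 : t = t' := ih t' (by simpa using h) x (SBT_oc_cons b t hx) (SBT_oc_cons b' t' hx')
      subst h1
      cases b <;> cases b'
      · rfl
      · exact (SBT_oc_ft hx hx').elim
      · exact (SBT_oc_ft hx' hx).elim
      · rfl

theorem SBT_suffix {v v' : List Bool} (h : v'.length ≤ v.length) {x : ℝ} (hx : x ∈ SBT_oc v)
    (hx' : x ∈ SBT_oc v') : ∃ p, v = p ++ v' := by
  have h1 : v = v.take (v.length - v'.length) ++ v.drop (v.length - v'.length) :=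
    (List.take_append_drop _ _).symm
  have h2 : x ∈ SBT_oc (v.drop (v.length - v'.length)) := by
    rw [h1] at hx
    exact SBT_oc_app _ _ hx
  have h3 : v.drop (v.length - v'.length) = v' := by
    apply SBT_same _ _ _ x h2 hx'
    rw [List.length_drop]
    omega
  refine ⟨v.take (v.length - v'.length), ?_⟩
  calc v = v.take (v.length - v'.length) ++ v.drop (v.length - v'.length) := h1
    _ = v.take (v.length - v'.length) ++ v' := by rw [h3]

/-- the property defining the set `U` -/
def SBT_U (T : ℕ) (u : List Bool) : Prop := T ≤ hh u ∧ ∃ b t, u = b :: t ∧ hh t < T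

theorem SBT_len {T : ℕ} {u : List Bool} (h : SBT_U T u) : u.length ≤ T := by
  obtain ⟨-, b, t, rfl, ht⟩ := h
  have := sba_len t
  rw [List.length_cons]
  omega

theorem SBT_bd {T : ℕ} {u : List Bool} (h : SBT_U T u) : lq u ≤ T ∧ rq u ≤ T := by
  obtain ⟨-, b, t, rfl, ht⟩ := h
  unfold hh at ht
  cases b
  · rw [SBT_lq_false, SBT_rq_false]; omega
  · rw [SBT_lq_true, SBT_rq_true]; omega

theorem SBT_finite (T : ℕ) : {u : List Bool | SBT_U T u}.Finite :=
  (List.finite_length_le Bool T).subset fun _ hu => SBT_len hu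

open Classical in
/-- the set `U` -/
noncomputable def SBT_UU (T : ℕ) : Finset (List Bool) := (SBT_finite T).toFinset

theorem SBT_mem {T : ℕ} {u : List Bool} : u ∈ SBT_UU T ↔ SBT_U T u := by
  unfold SBT_UU
  rw [Set.Finite.mem_toFinset]
  rfl

theorem SBT_card (T : ℕ) : (SBT_UU T).card ≤ T ^ 2 := by
  classical
  have h1 : (SBT_UU T).card = ((SBT_UU T).image (fun u => (lq u, rq u))).card := by
    rw [Finset.card_image_of_injective]
    intro u u' h
    have h' : (lq u, rq u) = (lq u', rq u') := h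
    exact sba_word (Prod.mk.inj h').1 (Prod.mk.inj h').2
  have h2 : (SBT_UU T).image (fun u => (lq u, rq u)) ⊆ Finset.Icc 1 T ×ˢ Finset.Icc 1 T := by
    intro z hz
    rw [Finset.mem_image] at hz
    obtain ⟨u, hu, rfl⟩ := hz
    have h3 := SBT_bd (SBT_mem.1 hu)
    have h4 := sba_pos u
    rw [Finset.mem_product, Finset.mem_Icc, Finset.mem_Icc]
    exact ⟨⟨h4.1, h3.1⟩, ⟨h4.2.1, h3.2⟩⟩
  rw [h1]
  refine (Finset.card_le_card h2).trans ?_
  rw [Finset.card_product, Nat.card_Icc, Nat.add_sub_cancel, sq]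

theorem SBT_rep_false (i : ℕ) (u : List Bool) : lq (List.replicate i false ++ u) = lq u ∧
    rq (List.replicate i false ++ u) = rq u + i * lq u := by
  induction i with
  | zero => simp
  | succ i ih =>
    rw [List.replicate_succ, List.cons_append, SBT_lq_false, SBT_rq_false, ih.1, ih.2]
    exact ⟨rfl, by ring⟩

theorem SBT_rep_true (i : ℕ) (u : List Bool) : rq (List.replicate i true ++ u) = rq u ∧
    lq (List.replicate i true ++ u) = lq u + i * rq u := by
  induction i with
  | zero => simp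
  | succ i ih =>
    rw [List.replicate_succ, List.cons_append, SBT_lq_true, SBT_rq_true, ih.1, ih.2]
    exact ⟨rfl, by ring⟩

theorem SBT_height {T I i : ℕ} {u : List Bool} (hu : SBT_U T u) (hi : i < I) (b : Bool) :
    T ≤ hh (List.replicate i b ++ u) ∧ hh (List.replicate i b ++ u) ≤ (I + 2) * T := by
  refine ⟨hu.1.trans (SBT_hh_app _ _), ?_⟩
  obtain ⟨h1, h2⟩ := SBT_bd hu
  unfold hh
  cases b
  · obtain ⟨h3, h4⟩ := SBT_rep_false i u
    rw [h3, h4]
    nlinarith
  · obtain ⟨h3, h4⟩ := SBT_rep_true i u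
    rw [h3, h4]
    nlinarith

/-- the tile is an open cell -/
theorem SBT_tile (w : List Bool) (b : Bool) : gam w '' hf b = SBT_oc ((!b) :: b :: w) := by
  cases b
  · have e : ∀ y ∈ Ioo (0 : ℝ) 1, gam (true :: false :: w) y = gam w (1 / (3 - y)) := by
      intro y hy
      have h1 := SBT_m1 hy
      rw [sba_true (false :: w) (Ioo_subset_Icc_self hy),
        sba_false w ⟨by linarith [h1.1], h1.2.le⟩]
      congr 1
      have h2 : (2 - y) ≠ 0 := by linarith [hy.2]
      have h3 : (3 - y) ≠ 0 := by linarith [hy.2]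
      have h4 : 1 + 1 / (2 - y) = (3 - y) / (2 - y) := by
        rw [eq_div_iff h2, add_mul, div_mul_cancel₀ _ h2]
        ring
      rw [h4, div_div_div_cancel_right₀ h2]
    ext x
    show x ∈ gam w '' Ioo (1 / 3) (1 / 2) ↔ x ∈ gam (true :: false :: w) '' Ioo 0 1
    constructor
    · rintro ⟨z, hz, rfl⟩
      have hz0 : 0 < z := by linarith [hz.1]
      have hy : 3 - 1 / z ∈ Ioo (0 : ℝ) 1 := by
        have h1 : 1 / z < 3 := by
          rw [div_lt_iff₀ hz0]
          linarith [hz.1]
        have h2 : 2 < 1 / z := by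
          rw [lt_div_iff₀ hz0]
          linarith [hz.2]
        exact ⟨by linarith, by linarith⟩
      refine ⟨3 - 1 / z, hy, ?_⟩
      rw [e _ hy]
      congr 1
      rw [sub_sub_cancel, one_div_one_div]
    · rintro ⟨y, hy, rfl⟩
      rw [e y hy]
      refine mem_image_of_mem _ ?_
      have h3 : 0 < 3 - y := by linarith [hy.2]
      refine ⟨?_, ?_⟩
      · rw [lt_div_iff₀ h3]
        linarith [hy.1]
      · rw [div_lt_iff₀ h3]
        linarith [hy.2]
  · have e : ∀ y ∈ Ioo (0 : ℝ) 1, gam (false :: true :: w) y = gam w ((1 + y) / (2 + y)) := by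
      intro y hy
      have h1 := SBT_m0 hy
      rw [sba_false (true :: w) (Ioo_subset_Icc_self hy),
        sba_true w ⟨h1.1.le, by linarith [h1.2]⟩]
      congr 1
      have h2 : (1 + y) ≠ 0 := by linarith [hy.1]
      have h3 : (2 + y) ≠ 0 := by linarith [hy.1]
      have h4 : 2 - y / (1 + y) = (2 + y) / (1 + y) := by
        rw [eq_div_iff h2, sub_mul, div_mul_cancel₀ _ h2]
        ring
      rw [h4, one_div_div]
    ext x
    show x ∈ gam w '' Ioo (1 / 2) (2 / 3) ↔ x ∈ gam (false :: true :: w) '' Ioo 0 1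
    constructor
    · rintro ⟨z, hz, rfl⟩
      have hz1 : 0 < 1 - z := by linarith [hz.2]
      have hy : (2 * z - 1) / (1 - z) ∈ Ioo (0 : ℝ) 1 := by
        refine ⟨div_pos (by linarith [hz.1]) hz1, ?_⟩
        rw [div_lt_iff₀ hz1]
        linarith [hz.2]
      refine ⟨(2 * z - 1) / (1 - z), hy, ?_⟩
      rw [e _ hy]
      congr 1
      have h5 : 1 - z ≠ 0 := hz1.ne'
      have h6 : 1 + (2 * z - 1) / (1 - z) = z / (1 - z) := by
        rw [eq_div_iff h5, add_mul, div_mul_cancel₀ _ h5]
        ring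
      have h7 : 2 + (2 * z - 1) / (1 - z) = 1 / (1 - z) := by
        rw [eq_div_iff h5, add_mul, div_mul_cancel₀ _ h5]
        ring
      rw [h6, h7, div_div_div_cancel_right₀ h5, div_one]
    · rintro ⟨y, hy, rfl⟩
      rw [e y hy]
      refine mem_image_of_mem _ ?_
      have h3 : 0 < 2 + y := by linarith [hy.1]
      refine ⟨?_, ?_⟩
      · rw [lt_div_iff₀ h3]
        linarith [hy.1]
      · rw [div_lt_iff₀ h3]
        linarith [hy.2]

theorem SBT_first1 {T : ℕ} {u u' a : List Bool} (hu : SBT_U T u) (hu' : SBT_U T u')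
    (h : u = a ++ u') : u = u' := by
  cases a with
  | nil => exact h
  | cons c a =>
    exfalso
    obtain ⟨-, b, t, e, ht⟩ := hu
    rw [e, List.cons_append] at h
    have h2 : t = a ++ u' := (List.cons.inj h).2
    rw [h2] at ht
    have := SBT_hh_app a u'
    have := hu'.1
    omega

theorem SBT_first {T : ℕ} {u u' p p' : List Bool} (hu : SBT_U T u) (hu' : SBT_U T u')
    (h : p ++ u = p' ++ u') : u = u' := by
  rw [List.append_eq_append_iff] at h
  rcases h with ⟨a, -, h⟩ | ⟨a, -, h⟩
  · exact SBT_first1 hu hu' h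
  · exact (SBT_first1 hu' hu h).symm

theorem SBT_disj1 {T i i' : ℕ} {u u' : List Bool} {b b' : Bool} {z : ℝ} (h : SBT_U T u)
    (h' : SBT_U T u') (hz : z ∈ SBT_oc ((!b) :: b :: (List.replicate i b ++ u)))
    (hz' : z ∈ SBT_oc ((!b') :: b' :: (List.replicate i' b' ++ u')))
    (hl : ((!b') :: b' :: (List.replicate i' b' ++ u')).length ≤
      ((!b) :: b :: (List.replicate i b ++ u)).length) :
    u = u' ∧ b = b' ∧ i = i' := by
  obtain ⟨p, hp⟩ := SBT_suffix hl hz hz'
  have e1 : (!b) :: b :: (List.replicate i b ++ u) = ((!b) :: List.replicate (i + 1) b) ++ u := by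
    rw [List.replicate_succ]; rfl
  have e2 : (!b') :: b' :: (List.replicate i' b' ++ u') =
      ((!b') :: List.replicate (i' + 1) b') ++ u' := by
    rw [List.replicate_succ]; rfl
  rw [e1, e2, ← List.append_assoc] at hp
  have hu : u = u' := SBT_first h h' hp
  subst hu
  have h2 := List.append_cancel_right hp
  cases p with
  | nil =>
    rw [List.nil_append] at h2
    obtain ⟨h3, h4⟩ := List.cons.inj h2
    have h5 := congrArg List.length h4
    rw [List.length_replicate, List.length_replicate] at h5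
    refine ⟨rfl, ?_, by omega⟩
    revert h3
    cases b <;> cases b' <;> simp
  | cons c p =>
    exfalso
    rw [List.cons_append] at h2
    obtain ⟨-, h4⟩ := List.cons.inj h2
    have h5 : (!b') ∈ List.replicate (i + 1) b := by
      rw [h4]
      exact List.mem_append_right _ List.mem_cons_self
    have h6 : b' ∈ List.replicate (i + 1) b := by
      rw [h4, List.replicate_succ (n := i')]
      exact List.mem_append_right _ (List.mem_cons_of_mem _ List.mem_cons_self)
    have h7 := List.eq_of_mem_replicate h5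
    have h8 := List.eq_of_mem_replicate h6
    rw [← h8] at h7
    revert h7
    cases b' <;> simp

theorem SBT_disj {T i i' : ℕ} {u u' : List Bool} {b b' : Bool} {z : ℝ} (h : SBT_U T u)
    (h' : SBT_U T u') (hz : z ∈ SBT_oc ((!b) :: b :: (List.replicate i b ++ u)))
    (hz' : z ∈ SBT_oc ((!b') :: b' :: (List.replicate i' b' ++ u'))) :
    u = u' ∧ b = b' ∧ i = i' := by
  rcases le_total ((!b') :: b' :: (List.replicate i' b' ++ u')).length
      ((!b) :: b :: (List.replicate i b ++ u)).length with hl | hl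
  · exact SBT_disj1 h h' hz hz' hl
  · obtain ⟨h1, h2, h3⟩ := SBT_disj1 h' h hz' hz hl
    exact ⟨h1.symm, h2.symm, h3.symm⟩

theorem SBT_split {w : List Bool} {x : ℝ} (h : x ∈ cell w) :
    x ∈ cell (false :: w) ∨ x ∈ cell (true :: w) := by
  rcases le_total x (((lp w + rp w : ℕ) : ℝ) / (lq w + rq w : ℕ)) with h1 | h1
  · left
    exact ⟨h.1, h1⟩
  · right
    exact ⟨h1, h.2⟩

theorem SBT_split' (b : Bool) {w : List Bool} {x : ℝ} (h : x ∈ cell w) :
    x ∈ cell (b :: w) ∨ x ∈ cell ((!b) :: w) := by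
  cases b
  · exact SBT_split h
  · exact (SBT_split h).symm

theorem SBT_cover {T : ℕ} (hT : 3 ≤ T) {x : ℝ} (hx : x ∈ Icc (0:ℝ) 1) :
    ∃ u, SBT_U T u ∧ x ∈ cell u := by
  by_contra hcon
  push Not at hcon
  have key : ∀ n : ℕ, ∃ w : List Bool, w.length = n ∧ x ∈ cell w ∧ hh w < T := by
    intro n
    induction n with
    | zero =>
      refine ⟨[], rfl, ?_, ?_⟩
      · show x ∈ Icc (((0:ℕ):ℝ) / (1:ℕ)) (((1:ℕ):ℝ) / (1:ℕ))
        simpa using hx
      · show 1 + 1 < T
        omega
    | succ n ih =>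
      obtain ⟨w, h1, h2, h3⟩ := ih
      have step : ∀ b : Bool, x ∈ cell (b :: w) →
          ∃ w : List Bool, w.length = n + 1 ∧ x ∈ cell w ∧ hh w < T := by
        intro b hb
        refine ⟨b :: w, by rw [List.length_cons, h1], hb, ?_⟩
        by_contra h4
        exact hcon (b :: w) ⟨not_lt.1 h4, b, w, rfl, h3⟩ hb
      rcases SBT_split h2 with h4 | h4
      · exact step _ h4
      · exact step _ h4
  obtain ⟨w, h1, h2, h3⟩ := key T
  have := sba_len w
  omega

theorem SBT_descend (u : List Bool) (b : Bool) {x : ℝ} (hx : x ∈ cell (b :: u)) (I : ℕ) :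
    x ∈ cell (List.replicate (I + 1) b ++ u) ∨
      ∃ i < I, x ∈ cell ((!b) :: b :: (List.replicate i b ++ u)) := by
  induction I with
  | zero => left; exact hx
  | succ I ih =>
    rcases ih with h | ⟨i, hi, h⟩
    · rcases SBT_split' b h with h1 | h1
      · left
        exact h1
      · right
        exact ⟨I, Nat.lt_succ_self I, h1⟩
    · right
      exact ⟨i, by omega, h⟩

theorem SBT_cell_oc (v : List Bool) {x : ℝ} (h : x ∈ cell v) :
    x ∈ SBT_oc v ∨ x ∈ gam v '' {0, 1} := by
  rw [← sba_image] at h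
  obtain ⟨y, hy, rfl⟩ := h
  rcases eq_or_lt_of_le hy.1 with h0 | h0
  · right
    exact ⟨y, Or.inl h0.symm, rfl⟩
  · rcases eq_or_lt_of_le hy.2 with h1 | h1
    · right
      exact ⟨y, Or.inr h1, rfl⟩
    · left
      exact ⟨y, ⟨h0, h1⟩, rfl⟩

theorem SBT_vol (u : List Bool) (b : Bool) {I : ℕ} (hI : 1 ≤ I) :
    volume (cell (List.replicate (I + 1) b ++ u)) ≤ ENNReal.ofReal (1 / I) := by
  unfold cell
  rw [Real.volume_Icc, sba_cell_len]
  apply ENNReal.ofReal_le_ofReal
  have hI' : (0:ℝ) < I := by exact_mod_cast hI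
  apply one_div_le_one_div_of_le hI'
  have h4 := sba_pos u
  have key : I ≤ lq (List.replicate (I + 1) b ++ u) * rq (List.replicate (I + 1) b ++ u) := by
    cases b
    · obtain ⟨h1, h2⟩ := SBT_rep_false (I + 1) u
      rw [h1, h2]
      nlinarith [h4.1, h4.2.1]
    · obtain ⟨h1, h2⟩ := SBT_rep_true (I + 1) u
      rw [h1, h2]
      nlinarith [h4.1, h4.2.1]
  exact_mod_cast key

theorem tiles (T : ℕ) (hT : 3 ≤ T) : ∃ 𝒯 : ℕ → Finset (List Bool × Bool), Monotone 𝒯 ∧
    ∀ I : ℕ, 1 ≤ I →
      (∀ x ∈ 𝒯 I, T ≤ hh x.1 ∧ hh x.1 ≤ (I + 2) * T) ∧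
      (𝒯 I).card ≤ 2 * T ^ 2 * I ∧
      (∀ x ∈ 𝒯 I, ∀ x' ∈ 𝒯 I, x ≠ x' → Disjoint (gam x.1 '' hf x.2) (gam x'.1 '' hf x'.2)) ∧
      volume (Icc (0:ℝ) 1 \ ⋃ x ∈ 𝒯 I, gam x.1 '' hf x.2) ≤ ENNReal.ofReal (2 * T ^ 2 / I) := by
  classical
  obtain ⟨𝒯, h𝒯⟩ : ∃ 𝒯 : ℕ → Finset (List Bool × Bool), 𝒯 = fun I =>
      (SBT_UU T ×ˢ ((Finset.univ : Finset Bool) ×ˢ Finset.range I)).image
        (fun t => (List.replicate t.2.2 t.2.1 ++ t.1, t.2.1)) := ⟨_, rfl⟩
  have hmem : ∀ I x, x ∈ 𝒯 I ↔ ∃ u b i, SBT_U T u ∧ i < I ∧ x = (List.replicate i b ++ u, b) := by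
    intro I x
    rw [h𝒯]
    simp only [Finset.mem_image, Finset.mem_product, Finset.mem_univ, true_and, Finset.mem_range]
    constructor
    · rintro ⟨⟨u, b, i⟩, ⟨h1, h2⟩, h3⟩
      exact ⟨u, b, i, SBT_mem.1 h1, h2, h3.symm⟩
    · rintro ⟨u, b, i, h1, h2, h3⟩
      exact ⟨⟨u, b, i⟩, ⟨SBT_mem.2 h1, h2⟩, h3.symm⟩
  refine ⟨𝒯, ?_, ?_⟩
  · intro I J hIJ x hx
    obtain ⟨u, b, i, h1, h2, h3⟩ := (hmem I x).1 hx
    exact (hmem J x).2 ⟨u, b, i, h1, h2.trans_le hIJ, h3⟩
  · intro I hI
    refine ⟨?_, ?_, ?_, ?_⟩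
    · intro x hx
      obtain ⟨u, b, i, h1, h2, rfl⟩ := (hmem I x).1 hx
      exact SBT_height h1 h2 b
    · rw [h𝒯]
      refine Finset.card_image_le.trans ?_
      rw [Finset.card_product, Finset.card_product, Finset.card_univ, Fintype.card_bool,
        Finset.card_range]
      calc (SBT_UU T).card * (2 * I) ≤ T ^ 2 * (2 * I) := Nat.mul_le_mul_right _ (SBT_card T)
        _ = 2 * T ^ 2 * I := by ring
    · intro x hx x' hx' hne
      obtain ⟨u, b, i, h1, h2, rfl⟩ := (hmem I x).1 hx
      obtain ⟨u', b', i', h1', h2', rfl⟩ := (hmem I x').1 hx'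
      rw [Set.disjoint_left]
      intro z hz hz'
      rw [SBT_tile] at hz hz'
      obtain ⟨e1, e2, e3⟩ := SBT_disj h1 h1' hz hz'
      apply hne
      have e2' : b = b' := e2
      have e3' : i = i' := e3
      rw [e1, e2', e3']
    · obtain ⟨E, hE⟩ : ∃ E : Set ℝ, E = ⋃ x ∈ 𝒯 I, gam ((!x.2) :: x.2 :: x.1) '' {0, 1} := ⟨_, rfl⟩
      have hE0 : volume E = 0 := by
        rw [hE]
        refine (Set.Finite.biUnion (Finset.finite_toSet (𝒯 I)) fun x _ => ?_).measure_zero _
        exact (Set.toFinite {(0 : ℝ), 1}).image _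
      have hsub : Icc (0:ℝ) 1 \ ⋃ x ∈ 𝒯 I, gam x.1 '' hf x.2 ⊆
          (⋃ t ∈ SBT_UU T ×ˢ (Finset.univ : Finset Bool),
            cell (List.replicate (I + 1) t.2 ++ t.1)) ∪ E := by
        rintro x ⟨hx1, hx2⟩
        obtain ⟨u, hu, hxu⟩ := SBT_cover hT hx1
        have key : ∀ b : Bool, x ∈ cell (b :: u) → x ∈ (⋃ t ∈ SBT_UU T ×ˢ (Finset.univ : Finset Bool),
            cell (List.replicate (I + 1) t.2 ++ t.1)) ∪ E := by
          intro b hb
          rcases SBT_descend u b hb I with h | ⟨i, hi, h⟩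
          · left
            rw [Set.mem_iUnion₂]
            exact ⟨(u, b), Finset.mem_product.2 ⟨SBT_mem.2 hu, Finset.mem_univ _⟩, h⟩
          · have hx𝒯 : (List.replicate i b ++ u, b) ∈ 𝒯 I := (hmem I _).2 ⟨u, b, i, hu, hi, rfl⟩
            rcases SBT_cell_oc _ h with h1 | h1
            · exfalso
              apply hx2
              rw [Set.mem_iUnion₂]
              refine ⟨_, hx𝒯, ?_⟩
              rw [SBT_tile]
              exact h1
            · right
              rw [hE, Set.mem_iUnion₂]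
              exact ⟨_, hx𝒯, h1⟩
        rcases SBT_split hxu with h | h
        · exact key _ h
        · exact key _ h
      have hI' : (0:ℝ) < I := by exact_mod_cast hI
      calc volume (Icc (0:ℝ) 1 \ ⋃ x ∈ 𝒯 I, gam x.1 '' hf x.2)
          ≤ volume ((⋃ t ∈ SBT_UU T ×ˢ (Finset.univ : Finset Bool),
            cell (List.replicate (I + 1) t.2 ++ t.1)) ∪ E) := measure_mono hsub
        _ ≤ volume (⋃ t ∈ SBT_UU T ×ˢ (Finset.univ : Finset Bool),
            cell (List.replicate (I + 1) t.2 ++ t.1)) + volume E := measure_union_le _ _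
        _ ≤ (∑ t ∈ SBT_UU T ×ˢ (Finset.univ : Finset Bool),
            volume (cell (List.replicate (I + 1) t.2 ++ t.1))) + 0 :=
          add_le_add (measure_biUnion_finset_le _ _) hE0.le
        _ ≤ (∑ _t ∈ SBT_UU T ×ˢ (Finset.univ : Finset Bool), ENNReal.ofReal (1 / I)) := by
          rw [add_zero]
          exact Finset.sum_le_sum fun t _ => SBT_vol t.1 t.2 hI
        _ = ENNReal.ofReal (((SBT_UU T).card * 2 : ℕ) * (1 / I)) := by
          rw [Finset.sum_const, Finset.card_product, Finset.card_univ, Fintype.card_bool,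
            nsmul_eq_mul, ENNReal.ofReal_mul (Nat.cast_nonneg _), ENNReal.ofReal_natCast]
        _ ≤ ENNReal.ofReal (2 * T ^ 2 / I) := by
          apply ENNReal.ofReal_le_ofReal
          have h1 : (((SBT_UU T).card : ℕ) : ℝ) ≤ (T:ℝ) ^ 2 := by
            exact_mod_cast SBT_card T
          have h2 : ((((SBT_UU T).card * 2 : ℕ) : ℝ)) * (1 / I) = 2 * (((SBT_UU T).card : ℕ) : ℝ) / I := by
            push_cast
            ring
          rw [h2]
          exact div_le_div_of_nonneg_right (by linarith) hI'.le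

end Pool.H52.MQ
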