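import Pool.Agent.H52.MQ.UCB

/-! Module UCD (project MP_935a4b_QM): Bernstein-Szego approximation.  Uses UCA, UCB.
av f = circleAverage f 0 1 = mean over the unit circle.
Theorem: Szego sigma alpha; P, Q polynomials of degree <= n.  Then int P conj(Q) dsigma = av(P conj(Q) nu_n/|Ph_n|^2).
Proof.  Let <P,Q>' := av(P conj(Q) nu_n/|Ph_n|^2) (|Ph_n| = |Pt_n| > 0 on the circle, uca_nz).
(i) <Ph_n, w^j>' = 0 for 0 <= j < n: on the circle nu_n w^{-j} Ph_n/|Ph_n|^2 = nu_n w^{-j}/conj(Ph_n) = nu_n w^{n-j}/Pt_n (conj Ph_n = w^{-n} Pt_n), and w^{n-j}/Pt_n is analytic on a neighbourhood of the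
  closed disc (Pt_n /= 0 there) and vanishes at 0, so its mean is 0 (mean value property: circleAverage of a DiffContOnCl function = value at the centre).  <Ph_n,Ph_n>' = nu_n.
(ii) Downward induction for k = n, n-1, ..., 0: <Ph_k, w^j>' = 0 for j<k, and <Ph_k,Ph_k>' = nu_k.  From the recursion: conj(a_k) Pt_{k+1} + Ph_{k+1} = (1-|a_k|^2) w Ph_k.  Ph_{k+1} is orthogonal' to w^j, j <= k, and Pt_{k+1} =
  w^{k+1} conj Ph_{k+1} is orthogonal' to w^j, 1<=j<=k+1.  So w Ph_k is orthogonal' to w^j, 1<=j<=k, i.e. Ph_k to w^{j-1}.  Norms: as in ucb_norm for the form <,>' (||w Ph_k||'^2 = ||Ph_{k+1}||'^2 + |a_k|^2||Pt_k||'^2), so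
  nu_{k+1} = (1-|a_k|^2) <Ph_k,Ph_k>'.
(iii) Both forms have the same Gram matrix on the basis Ph_0..Ph_n of the polynomials of degree <= n (each off diagonal entry is 0 because Ph_i is orthogonal to polynomials of lower degree), so they agree by
  sesquilinearity. -/

open MeasureTheory Set Polynomial
open scoped ENNReal ComplexConjugate

namespace Pool.H52.MQ

/-- induction along a sequence of monic polynomials of all degrees -/
private lemma ucd_ind (S : ℕ → ℂ[X]) (hS : ∀ i, (S i).Monic ∧ (S i).natDegree = i)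
    (p : ℂ[X] → Prop) (hadd : ∀ P Q, p P → p Q → p (P + Q))
    (hsm : ∀ (c : ℂ) P, p P → p (C c * P)) :
    ∀ n : ℕ, (∀ i ≤ n, p (S i)) → ∀ P : ℂ[X], P.natDegree ≤ n → p P := by
  have h0 : S 0 = 1 := by
    have h := (hS 0).1
    have hd := (hS 0).2
    rw [Polynomial.eq_C_of_natDegree_eq_zero hd]
    have : (S 0).coeff 0 = 1 := by
      have h2 := h.coeff_natDegree
      rwa [hd] at h2
    rw [this, C_1]
  intro n
  induction n with
  | zero =>
    intro hp P hP
    rw [Polynomial.eq_C_of_natDegree_le_zero hP]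
    have h := hsm (P.coeff 0) _ (hp 0 le_rfl)
    rwa [h0, mul_one] at h
  | succ n ih =>
    intro hp P hP
    have e : P = (P - C (P.coeff (n + 1)) * S (n + 1)) + C (P.coeff (n + 1)) * S (n + 1) := by ring
    rw [e]
    refine hadd _ _ (ih (fun i hi => hp i (by omega)) _ ?_) (hsm _ _ (hp _ le_rfl))
    rw [Polynomial.natDegree_le_iff_coeff_eq_zero]
    intro N hN
    rw [coeff_sub, coeff_C_mul]
    rcases Nat.lt_or_ge (n + 1) N with h | h
    · have c1 : P.coeff N = 0 := Polynomial.coeff_eq_zero_of_natDegree_lt (lt_of_le_of_lt hP h)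
      have c2 : (S (n + 1)).coeff N = 0 :=
        Polynomial.coeff_eq_zero_of_natDegree_lt (by rw [(hS (n + 1)).2]; exact h)
      rw [c1, c2]
      ring
    · have hN' : N = n + 1 := by omega
      subst hN'
      have h2 := (hS (n + 1)).1.coeff_natDegree
      rw [(hS (n + 1)).2] at h2
      rw [h2]
      ring

private lemma ucd_Xpow (i : ℕ) : ((X : ℂ[X]) ^ i).Monic ∧ ((X : ℂ[X]) ^ i).natDegree = i :=
  ⟨monic_X_pow i, natDegree_X_pow i⟩

private lemma ucd_Ph (α : ℕ → ℂ) (i : ℕ) : (Ph α i).Monic ∧ (Ph α i).natDegree = i :=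
  ⟨(uca_deg α i).1, (uca_deg α i).2.1⟩

/-- the second form -/
private noncomputable def ucdB (α : ℕ → ℂ) (n : ℕ) (P Q : ℂ[X]) : ℂ :=
  av (fun w => P.eval w * conj (Q.eval w) * ((nu α n / ‖(Ph α n).eval w‖ ^ 2 : ℝ) : ℂ))

private lemma ucd_ne {α : ℕ → ℂ} (hα : ∀ n, ‖α n‖ < 1) (n : ℕ) {w : ℂ} (hw : ‖w‖ = 1) :
    ‖(Ph α n).eval w‖ ≠ 0 := by
  rw [← uca_abs α n hw]
  exact norm_ne_zero_iff.mpr (uca_nz hα n hw.le).1

private lemma ucd_cont {α : ℕ → ℂ} (hα : ∀ n, ‖α n‖ < 1) (n : ℕ) (P Q : ℂ[X]) :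
    CircleIntegrable
      (fun w => P.eval w * conj (Q.eval w) * ((nu α n / ‖(Ph α n).eval w‖ ^ 2 : ℝ) : ℂ)) 0 1 := by
  apply ContinuousOn.circleIntegrable'
  intro w hw
  have hw1 : ‖w‖ = 1 := by
    have h := hw
    rw [mem_sphere_zero_iff_norm, abs_one] at h
    exact h
  have hne := ucd_ne hα n hw1
  apply ContinuousAt.continuousWithinAt
  have h1 : ContinuousAt (fun w : ℂ => P.eval w) w := P.continuous.continuousAt
  have h2 : ContinuousAt (fun w : ℂ => conj (Q.eval w)) w :=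
    (Complex.continuous_conj.comp Q.continuous).continuousAt
  have h3 : ContinuousAt (fun w : ℂ => ((nu α n / ‖(Ph α n).eval w‖ ^ 2 : ℝ) : ℂ)) w := by
    apply Complex.continuous_ofReal.continuousAt.comp
    apply ContinuousAt.div continuousAt_const
    · exact ((Ph α n).continuous.norm.pow 2).continuousAt
    · positivity
  exact (h1.mul h2).mul h3

private lemma ucd_add1 {α : ℕ → ℂ} (hα : ∀ n, ‖α n‖ < 1) (n : ℕ) (P P' Q : ℂ[X]) :
    ucdB α n (P + P') Q = ucdB α n P Q + ucdB α n P' Q := by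
  unfold ucdB av
  rw [← Real.circleAverage_fun_add (ucd_cont hα n P Q) (ucd_cont hα n P' Q)]
  congr 1
  funext w
  rw [eval_add]
  ring

private lemma ucd_add2 {α : ℕ → ℂ} (hα : ∀ n, ‖α n‖ < 1) (n : ℕ) (P Q Q' : ℂ[X]) :
    ucdB α n P (Q + Q') = ucdB α n P Q + ucdB α n P Q' := by
  unfold ucdB av
  rw [← Real.circleAverage_fun_add (ucd_cont hα n P Q) (ucd_cont hα n P Q')]
  congr 1
  funext w
  rw [eval_add, map_add]
  ring

private lemma ucd_sm1 (α : ℕ → ℂ) (n : ℕ) (c : ℂ) (P Q : ℂ[X]) :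
    ucdB α n (C c * P) Q = c * ucdB α n P Q := by
  unfold ucdB av
  rw [← smul_eq_mul c, ← Real.circleAverage_fun_smul]
  congr 1
  funext w
  rw [eval_mul, eval_C, smul_eq_mul]
  ring

private lemma ucd_sm2 (α : ℕ → ℂ) (n : ℕ) (c : ℂ) (P Q : ℂ[X]) :
    ucdB α n P (C c * Q) = conj c * ucdB α n P Q := by
  unfold ucdB av
  rw [← smul_eq_mul (conj c), ← Real.circleAverage_fun_smul]
  congr 1
  funext w
  rw [eval_mul, eval_C, smul_eq_mul, map_mul]
  ring

private lemma ucd_conj (α : ℕ → ℂ) (n : ℕ) (P Q : ℂ[X]) :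
    conj (ucdB α n P Q) = ucdB α n Q P := by
  unfold ucdB av
  rw [Real.circleAverage_def, Real.circleAverage_def]
  have e : ∀ z : ℂ, conj z = Complex.conjCLE z := fun z => rfl
  rw [e, Complex.conjCLE.map_smul, ← e]
  congr 1
  rw [← intervalIntegral.intervalIntegral_conj]
  congr 1
  funext θ
  simp only [map_mul, Complex.conj_conj, Complex.conj_ofReal]
  ring

private lemma ucd_congr (α : ℕ → ℂ) (n : ℕ) {P Q P' Q' : ℂ[X]}
    (h : ∀ w : ℂ, ‖w‖ = 1 → P.eval w * conj (Q.eval w) = P'.eval w * conj (Q'.eval w)) :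
    ucdB α n P Q = ucdB α n P' Q' := by
  unfold ucdB av
  apply Real.circleAverage_congr_sphere
  intro w hw
  have hw1 : ‖w‖ = 1 := by
    rw [mem_sphere_zero_iff_norm, abs_one] at hw
    exact hw
  simp only [h w hw1]

private lemma ucd_shift (α : ℕ → ℂ) (n : ℕ) (P Q : ℂ[X]) :
    ucdB α n (X * P) (X * Q) = ucdB α n P Q := by
  apply ucd_congr
  intro w hw
  rw [eval_mul, eval_mul, eval_X, map_mul]
  have h1 : w * conj w = 1 := by
    rw [Complex.mul_conj, Complex.normSq_eq_norm_sq, hw]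
    norm_num
  calc w * eval w P * (conj w * conj (eval w Q)) = (w * conj w) * (eval w P * conj (eval w Q)) := by
        ring
    _ = _ := by rw [h1, one_mul]

private lemma ucd_star (α : ℕ → ℂ) (n k j : ℕ) (hj : j ≤ k) :
    ucdB α n (Pt α k) (X ^ j) = conj (ucdB α n (Ph α k) (X ^ (k - j))) := by
  rw [ucd_conj]
  apply ucd_congr
  intro w hw
  rw [uca_star α k hw, eval_pow, eval_X, eval_pow, eval_X]
  have h1 : w * conj w = 1 := by
    rw [Complex.mul_conj, Complex.normSq_eq_norm_sq, hw]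
    norm_num
  have h2 : w ^ k = w ^ (k - j) * w ^ j := by
    rw [← pow_add]
    congr 1
    omega
  rw [h2, map_pow]
  calc w ^ (k - j) * w ^ j * conj (eval w (Ph α k)) * conj w ^ j
      = w ^ (k - j) * conj (eval w (Ph α k)) * (w * conj w) ^ j := by
        rw [mul_pow]
        ring
    _ = _ := by rw [h1, one_pow, mul_one]

private lemma ucd_top {α : ℕ → ℂ} (hα : ∀ n, ‖α n‖ < 1) (n j : ℕ) (hj : j < n) :
    ucdB α n (Ph α n) (X ^ j) = 0 := by
  have hdc : DiffContOnCl ℂ (fun w : ℂ => (nu α n : ℂ) * (w ^ (n - j) / (Pt α n).eval w))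
      (Metric.ball 0 |1|) := by
    apply DifferentiableOn.diffContOnCl
    intro w hw
    have hw1 : ‖w‖ ≤ 1 := by
      have h := Metric.closure_ball_subset_closedBall hw
      rw [mem_closedBall_zero_iff, abs_one] at h
      exact h
    have hne := (uca_nz hα n hw1).1
    apply DifferentiableAt.differentiableWithinAt
    apply DifferentiableAt.const_mul
    apply DifferentiableAt.div
    · fun_prop
    · exact (Pt α n).differentiable.differentiableAt
    · exact hne
  have hm := hdc.circleAverage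
  have h0 : ((nu α n : ℂ) * ((0:ℂ) ^ (n - j) / (Pt α n).eval 0)) = 0 := by
    rw [zero_pow (by omega), zero_div, mul_zero]
  rw [h0] at hm
  rw [← hm]
  unfold ucdB av
  apply Real.circleAverage_congr_sphere
  intro w hw
  have hw1 : ‖w‖ = 1 := by
    rw [mem_sphere_zero_iff_norm, abs_one] at hw
    exact hw
  have hne : (Pt α n).eval w ≠ 0 := (uca_nz hα n hw1.le).1
  have hne2 : (Ph α n).eval w ≠ 0 := norm_ne_zero_iff.mp (ucd_ne hα n hw1)
  have hw0 : w ≠ 0 := by
    rintro rfl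
    rw [norm_zero] at hw1
    exact zero_ne_one hw1
  have h1 : w * conj w = 1 := by
    rw [Complex.mul_conj, Complex.normSq_eq_norm_sq, hw1]
    norm_num
  have hcne : conj ((Ph α n).eval w) ≠ 0 := by
    rw [Ne, map_eq_zero]
    exact hne2
  have hsq : ((‖(Ph α n).eval w‖ ^ 2 : ℝ) : ℂ) = (Ph α n).eval w * conj ((Ph α n).eval w) := by
    rw [Complex.mul_conj, Complex.normSq_eq_norm_sq]
  simp only []
  rw [Complex.ofReal_div, hsq, eval_pow, eval_X, map_pow]
  rw [uca_star α n hw1]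
  have h3 : w ^ n = w ^ (n - j) * w ^ j := by
    rw [← pow_add]
    congr 1
    omega
  have hcw : conj w = w⁻¹ := by
    apply eq_inv_of_mul_eq_one_left
    rw [mul_comm]
    exact h1
  rw [h3, hcw]
  field_simp
  rw [mul_right_comm, ← mul_pow, one_div, inv_mul_cancel₀ hw0, one_pow, one_mul]

private lemma ucd_topnorm {α : ℕ → ℂ} (hα : ∀ n, ‖α n‖ < 1) (n : ℕ) :
    ucdB α n (Ph α n) (Ph α n) = (nu α n : ℂ) := by
  have h : ucdB α n (Ph α n) (Ph α n) = Real.circleAverage (fun _ : ℂ => (nu α n : ℂ)) 0 1 := by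
    unfold ucdB av
    apply Real.circleAverage_congr_sphere
    intro w hw
    have hw1 : ‖w‖ = 1 := by
      rw [mem_sphere_zero_iff_norm, abs_one] at hw
      exact hw
    have hne2 : (Ph α n).eval w ≠ 0 := norm_ne_zero_iff.mp (ucd_ne hα n hw1)
    have hcne : conj ((Ph α n).eval w) ≠ 0 := by
      rw [Ne, map_eq_zero]
      exact hne2
    have hsq : ((‖(Ph α n).eval w‖ ^ 2 : ℝ) : ℂ) = (Ph α n).eval w * conj ((Ph α n).eval w) := by
      rw [Complex.mul_conj, Complex.normSq_eq_norm_sq]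
    simp only []
    rw [Complex.ofReal_div, hsq]
    field_simp
  rw [h, Real.circleAverage_const]

/-- orthogonality to the powers gives orthogonality to all polynomials of lower degree -/
private lemma ucd_low {α : ℕ → ℂ} (hα : ∀ n, ‖α n‖ < 1) (n : ℕ) (R : ℂ[X]) (k : ℕ)
    (h : ∀ j < k + 1, ucdB α n R (X ^ j) = 0) (Q : ℂ[X]) (hQ : Q.natDegree ≤ k) :
    ucdB α n R Q = 0 := by
  refine ucd_ind (fun i => X ^ i) ucd_Xpow (fun Q => ucdB α n R Q = 0) ?_ ?_ k ?_ Q hQ
  · intro P Q h1 h2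
    simp only [ucd_add2 hα, h1, h2, add_zero]
  · intro c P h1
    simp only [ucd_sm2, h1, mul_zero]
  · intro i hi
    exact h i (by omega)

private lemma ucd_down {α : ℕ → ℂ} (hα : ∀ n, ‖α n‖ < 1) (n : ℕ) : ∀ m ≤ n,
    (∀ j < n - m, ucdB α n (Ph α (n - m)) (X ^ j) = 0) ∧
      ucdB α n (Ph α (n - m)) (Ph α (n - m)) = (nu α (n - m) : ℂ) := by
  intro m
  induction m with
  | zero =>
    intro _
    exact ⟨fun j hj => ucd_top hα n j hj, ucd_topnorm hα n⟩
  | succ m ih =>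
    intro hm
    obtain ⟨ih1, ih2⟩ := ih (by omega)
    obtain ⟨k, hk⟩ : ∃ k, k = n - (m + 1) := ⟨_, rfl⟩
    have hk1 : n - m = k + 1 := by omega
    rw [hk1] at ih1 ih2
    rw [← hk]
    have hPh : Ph α (k + 1) = X * Ph α k - C (conj (α k)) * Pt α k := rfl
    have hPt : Pt α (k + 1) = Pt α k - C (α k) * (X * Ph α k) := rfl
    have hlt := hα k
    have hpos : (0:ℝ) < 1 - ‖α k‖ ^ 2 := by
      have h0 := norm_nonneg (α k)
      nlinarith
    have hne : ((1 - ‖α k‖ ^ 2 : ℝ) : ℂ) ≠ 0 := by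
      rw [Ne, Complex.ofReal_eq_zero]
      exact hpos.ne'
    have hcc : C (conj (α k)) * C (α k) = C (((‖α k‖ ^ 2 : ℝ)) : ℂ) := by
      rw [← C_mul, mul_comm, Complex.mul_conj, Complex.normSq_eq_norm_sq]
    have hrec : C (((1 - ‖α k‖ ^ 2 : ℝ)) : ℂ) * (X * Ph α k) =
        Ph α (k + 1) + C (conj (α k)) * Pt α (k + 1) := by
      rw [hPh, hPt]
      have e : C (((1 - ‖α k‖ ^ 2 : ℝ)) : ℂ) = 1 - C (conj (α k)) * C (α k) := by
        rw [hcc, Complex.ofReal_sub, Complex.ofReal_one, C_sub, C_1]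
      rw [e]
      ring
    constructor
    · intro j hj
      have h1 : ucdB α n (C (((1 - ‖α k‖ ^ 2 : ℝ)) : ℂ) * (X * Ph α k)) (X ^ (j + 1)) = 0 := by
        rw [hrec, ucd_add1 hα, ucd_sm1, ih1 (j + 1) (by omega),
          ucd_star α n (k + 1) (j + 1) (by omega), ih1 (k + 1 - (j + 1)) (by omega)]
        simp
      rw [ucd_sm1] at h1
      have h2 := (mul_eq_zero.mp h1).resolve_left hne
      have h3 : (X : ℂ[X]) ^ (j + 1) = X * X ^ j := by ring
      rw [h3, ucd_shift] at h2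
      exact h2
    · have hlow := ucd_low hα n (Ph α (k + 1)) k (fun j hj => ih1 j hj) (Pt α k) (uca_deg α k).2.2.1
      have hlow' : ucdB α n (Pt α k) (Ph α (k + 1)) = 0 := by
        rw [← ucd_conj, hlow, map_zero]
      have hX : X * Ph α k = Ph α (k + 1) + C (conj (α k)) * Pt α k := by
        rw [hPh]
        ring
      have h1 : ucdB α n (Ph α k) (Ph α k) =
          (nu α (k + 1) : ℂ) + ((‖α k‖ ^ 2 : ℝ) : ℂ) * ucdB α n (Pt α k) (Pt α k) := by
        rw [← ucd_shift α n (Ph α k) (Ph α k), hX, ucd_add1 hα, ucd_add2 hα, ucd_add2 hα, ih2,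
          ucd_sm1, ucd_sm1, ucd_sm2, ucd_sm2, hlow, hlow', Complex.conj_conj]
        have e : ((‖α k‖ ^ 2 : ℝ) : ℂ) = α k * conj (α k) := by
          rw [Complex.mul_conj, Complex.normSq_eq_norm_sq]
        rw [e]
        ring
      have h2 : ucdB α n (Pt α k) (Pt α k) = ucdB α n (Ph α k) (Ph α k) := by
        apply ucd_congr
        intro w hw
        rw [Complex.mul_conj, Complex.mul_conj, Complex.normSq_eq_norm_sq,
          Complex.normSq_eq_norm_sq, uca_abs α k hw]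
      rw [h2] at h1
      have hnu : nu α (k + 1) = nu α k * (1 - ‖α k‖ ^ 2) := by
        unfold nu
        rw [Finset.prod_range_succ]
      rw [hnu] at h1
      have h3 : ((1 - ‖α k‖ ^ 2 : ℝ) : ℂ) * (ucdB α n (Ph α k) (Ph α k) - (nu α k : ℂ)) = 0 := by
        push_cast at h1 ⊢
        linear_combination h1
      have h4 := (mul_eq_zero.mp h3).resolve_left hne
      exact sub_eq_zero.mp h4

private lemma ucd_gram {α : ℕ → ℂ} (hα : ∀ n, ‖α n‖ < 1) (n i j : ℕ) (hi : i ≤ n) (hj : j ≤ n) :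
    ucdB α n (Ph α i) (Ph α j) = if i = j then (nu α i : ℂ) else 0 := by
  have hS : ∀ k ≤ n, (∀ j < k, ucdB α n (Ph α k) (X ^ j) = 0) ∧
      ucdB α n (Ph α k) (Ph α k) = (nu α k : ℂ) := by
    intro k hk
    have h := ucd_down hα n (n - k) (by omega)
    have e : n - (n - k) = k := by omega
    rw [e] at h
    exact h
  have hlt : ∀ i j, j < i → i ≤ n → ucdB α n (Ph α i) (Ph α j) = 0 := by
    intro i j hji hin
    obtain ⟨k, rfl⟩ : ∃ k, i = k + 1 := ⟨i - 1, by omega⟩
    exact ucd_low hα n (Ph α (k + 1)) k (fun j hj => (hS (k + 1) hin).1 j hj) (Ph α j)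
      (by rw [(ucd_Ph α j).2]; omega)
  rcases lt_trichotomy i j with h | h | h
  · rw [if_neg (by omega), ← ucd_conj, hlt j i h hj, map_zero]
  · subst h
    rw [if_pos rfl]
    exact (hS i hi).2
  · rw [if_neg (by omega), hlt i j h hi]

theorem ucd_bs {σ : Measure ℂ} {α : ℕ → ℂ} (h : Szego σ α) (n : ℕ) (P Q : ℂ[X])
    (hP : P.natDegree ≤ n) (hQ : Q.natDegree ≤ n) :
    ∫ w, P.eval w * conj (Q.eval w) ∂σ =
      av (fun w => P.eval w * conj (Q.eval w) * ((nu α n / ‖(Ph α n).eval w‖ ^ 2 : ℝ) : ℂ)) := by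
  have hα := h.lt
  have hint : ∀ P Q : ℂ[X], Integrable (fun w => P.eval w * conj (Q.eval w)) σ := fun P Q =>
    ucb_int h (P.continuous.mul (Complex.continuous_conj.comp Q.continuous))
  have a1 : ∀ P P' Q : ℂ[X], ∫ w, (P + P').eval w * conj (Q.eval w) ∂σ =
      (∫ w, P.eval w * conj (Q.eval w) ∂σ) + ∫ w, P'.eval w * conj (Q.eval w) ∂σ := by
    intro P P' Q
    rw [← integral_add (hint P Q) (hint P' Q)]
    congr 1
    funext w
    rw [eval_add]
    ring
  have a2 : ∀ P Q Q' : ℂ[X], ∫ w, P.eval w * conj ((Q + Q').eval w) ∂σ =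
      (∫ w, P.eval w * conj (Q.eval w) ∂σ) + ∫ w, P.eval w * conj (Q'.eval w) ∂σ := by
    intro P Q Q'
    rw [← integral_add (hint P Q) (hint P Q')]
    congr 1
    funext w
    rw [eval_add, map_add]
    ring
  have s1 : ∀ (c : ℂ) (P Q : ℂ[X]), ∫ w, (C c * P).eval w * conj (Q.eval w) ∂σ =
      c * ∫ w, P.eval w * conj (Q.eval w) ∂σ := by
    intro c P Q
    rw [← integral_const_mul]
    congr 1
    funext w
    rw [eval_mul, eval_C]
    ring
  have s2 : ∀ (c : ℂ) (P Q : ℂ[X]), ∫ w, P.eval w * conj ((C c * Q).eval w) ∂σ =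
      conj c * ∫ w, P.eval w * conj (Q.eval w) ∂σ := by
    intro c P Q
    rw [← integral_const_mul]
    congr 1
    funext w
    rw [eval_mul, eval_C, map_mul]
    ring
  change _ = ucdB α n P Q
  refine ucd_ind (Ph α) (ucd_Ph α)
    (fun P => ∫ w, P.eval w * conj (Q.eval w) ∂σ = ucdB α n P Q) ?_ ?_ n ?_ P hP
  · intro P P' h1 h2
    simp only [a1, ucd_add1 hα, h1, h2]
  · intro c P h1
    simp only [s1, ucd_sm1, h1]
  · intro i hi
    refine ucd_ind (Ph α) (ucd_Ph α)
      (fun Q => ∫ w, (Ph α i).eval w * conj (Q.eval w) ∂σ = ucdB α n (Ph α i) Q) ?_ ?_ n ?_ Q hQ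
    · intro Q Q' h1 h2
      simp only [a2, ucd_add2 hα, h1, h2]
    · intro c Q h1
      simp only [s2, ucd_sm2, h1]
    · intro j hj
      simp only [ucb_orth h i j, ucd_gram hα n i j hi hj]

end Pool.H52.MQ
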